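import Mathlib.LinearAlgebra.FiniteDimensional.Defs
import Mathlib.Analysis.Normed.Module.Basic
import Mathlib.Topology.Path
import Mathlib.Analysis.Normed.Group.AddTorsor
import Mathlib.Topology.EMetricSpace.BoundedVariation
import Mathlib.Analysis.Convex.SimplicialComplex.Basic

/-! Definitions used in the final statement. -/

namespace Pool.Agent.MP_7f5071_gt

open Filter Topology

/-- The distance of any two points is the infimum of the lengths of the curves joining them. -/
def IsLengthSpace (M : Type*) [MetricSpace M] : Prop :=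
  ∀ x y : M, edist x y = ⨅ γ : Path x y, eVariationOn γ Set.univ

/-- A length space with a finite triangulation by simplices of dimension at most `d`, each closed
simplex being isometric (through an affine map) to a linear simplex of a Minkowski space. -/
def IsMinkowskiPolyhedron (d : ℕ) (M : Type*) [MetricSpace M] : Prop :=
  IsLengthSpace M ∧
  ∃ (N : ℕ) (K : Geometry.SimplicialComplex ℝ (Fin N → ℝ)) (φ : K.space ≃ₜ M),
    K.faces.Finite ∧ (∀ s ∈ K.faces, s.card ≤ d + 1) ∧
    ∀ s ∈ K.faces, ∃ (E : Type) (_ : NormedAddCommGroup E) (_ : NormedSpace ℝ E)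
      (_ : FiniteDimensional ℝ E) (A : (Fin N → ℝ) →ᵃ[ℝ] E),
      AffineIndependent ℝ (fun v : s => A v) ∧
      ∀ x y : K.space, x.1 ∈ convexHull ℝ (s : Set (Fin N → ℝ)) →
        y.1 ∈ convexHull ℝ (s : Set (Fin N → ℝ)) → dist (φ x) (φ y) = ‖A x.1 - A y.1‖

/-- `X` is isometric to the inverse limit of a sequence of Minkowski `d`-polyhedra with short
bonding maps. -/
def IsProMinkowski (d : ℕ) (X : Type*) [MetricSpace X] : Prop :=
  ∃ (P : ℕ → Type) (_ : ∀ n, MetricSpace (P n)) (f : ∀ n, P (n + 1) → P n),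
    (∀ n, IsMinkowskiPolyhedron d (P n)) ∧ (∀ n, LipschitzWith 1 (f n)) ∧
    ∃ Ψ : X → ∀ n, P n, (∀ x n, f n (Ψ x (n + 1)) = Ψ x n) ∧
      (∀ p : ∀ n, P n, (∀ n, f n (p (n + 1)) = p n) → ∃ x, Ψ x = p) ∧
      ∀ x y, Tendsto (fun n => dist (Ψ x n) (Ψ y n)) atTop (𝓝 (dist x y))

end Pool.Agent.MP_7f5071_gt
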