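import Mathlib.Analysis.Calculus.Deriv.Basic
import Mathlib.MeasureTheory.Integral.IntervalIntegral.Basic
import Mathlib.Order.CompletePartialOrder
import Pool.Agent.MP_7f5071_gt.Stmt
import Mathlib.Analysis.Calculus.ContDiff.Defs
import Mathlib.MeasureTheory.Measure.FiniteMeasure

-- ======== part 0: formerly Pool.Agent.MP_7f5071_gt.Defs
section MrgPart0

/-! Working definitions for the proof. -/

namespace Pool.Agent.MP_7f5071_gt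

open Filter Topology Set Metric MeasureTheory

/-- The target spaces, with the sup norm. -/
abbrev V (N : ℕ) : Type := Fin N → ℝ

/-- The plane, with the sup norm. -/
abbrev R2 : Type := ℝ × ℝ

section General

variable {X : Type*} [MetricSpace X]

/-- A unit speed geodesic from `x` to `y`, parametrized on `[0, dist x y]`. -/
structure IsGeod (γ : ℝ → X) (x y : X) : Prop where
  src : γ 0 = x
  tgt : γ (dist x y) = y
  lip : LipschitzWith 1 γ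
  iso : ∀ s ∈ Icc 0 (dist x y), ∀ t ∈ Icc 0 (dist x y), dist (γ s) (γ t) = |s - t|

/-- Any two points are joined by a geodesic. -/
def Geodesic (X : Type*) [MetricSpace X] : Prop := ∀ x y : X, ∃ γ, IsGeod γ x y

/-- No drawing of `K33` with disjoint independent edges. -/
def NoK33 (X : Type*) [MetricSpace X] : Prop :=
  ∀ (a b : Fin 3 → X) (E : Fin 3 → Fin 3 → Set X), (∀ i j, JoinedIn (E i j) (a i) (b j)) →
    (∀ i j k l, i ≠ k → j ≠ l → Disjoint (E i j) (E k l)) → False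

/-- Small balls do not separate far points. -/
def NoSmallCut (X : Type*) [MetricSpace X] : Prop :=
  ∀ δ > 0, ∃ δ' > 0, ∀ z x y : X, δ ≤ dist x z → δ ≤ dist y z → JoinedIn (closedBall z δ')ᶜ x y

/-- All that is used about a compact length disc. -/
structure IsDisc (X : Type*) [MetricSpace X] : Prop where
  ne : Nonempty X
  geod : Geodesic X
  k33 : NoK33 X
  lc : NoSmallCut X

/-- Lipschitz with a real constant. -/
def Lip {E : Type*} [NormedAddCommGroup E] (K : ℝ) (F : X → E) : Prop :=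
  ∀ x y, ‖F x - F y‖ ≤ K * dist x y

/-- Pointed local Lipschitz bound. -/
def PLip {E : Type*} [NormedAddCommGroup E] (K : ℝ) (F : X → E) (x : X) : Prop :=
  ∀ᶠ y in 𝓝 x, ‖F y - F x‖ ≤ K * dist y x

/-- `H'` is `δ`-close to `H` and stays in the local affine spans of `H`. -/
def Near {N : ℕ} (δ : ℝ) (H H' : X → V N) : Prop :=
  ∀ x, ‖H' x - H x‖ ≤ δ ∧ H' x ∈ affineSpan ℝ (H '' ball x δ)

/-- `H` maps `B` into a plane. -/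
def InPlane {N : ℕ} (H : X → V N) (B : Set X) : Prop :=
  ∃ c a b : V N, ∀ y ∈ B, ∃ s t : ℝ, H y = c + s • a + t • b

/-- `H` maps a neighbourhood of `x` into a plane. -/
def LocPlanar {N : ℕ} (H : X → V N) (x : X) : Prop := ∃ r > 0, InPlane H (ball x r)

/-- On `B` the increments of `H` are parallel to one vector, up to `γ` times the distance. -/
def Flat {N : ℕ} (γ : ℝ) (H : X → V N) (B : Set X) : Prop :=
  ∃ a : V N, ∀ x ∈ B, ∀ y ∈ B, ∃ t : ℝ, ‖H x - H y - t • a‖ ≤ γ * dist x y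

/-- The `ρ`-chain components of `S` have diameter at most `D`. -/
def Bdd (ρ D : ℝ) (S : Set X) : Prop :=
  ∀ x y, Relation.ReflTransGen (fun a b => a ∈ S ∧ b ∈ S ∧ dist a b ≤ ρ) x y → dist x y ≤ D

/-- A compact set on which the Lipschitz chart `π` is bi-Lipschitz. -/
structure IsPiece (π : X → R2) (Γ : Set X) : Prop where
  lip : ∃ L, Lip L π
  cpt : IsCompact Γ
  inv : ∃ C, ∀ x ∈ Γ, ∀ y ∈ Γ, dist x y ≤ C * ‖π x - π y‖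

/-- Purely 2-unrectifiable sets. -/
def PureUnrect (O : Set X) : Prop :=
  ∀ (π : X → R2) (Γ : Set X), IsPiece π Γ → Γ ⊆ O → volume (π '' Γ) = 0

/-- The cone at `x` in direction `e`, of length `s`. -/
def ArmSet (π : X → R2) (x : X) (e : R2) (C s : ℝ) : Set X :=
  {y | ∃ t ∈ Icc 0 s, ‖π y - π x - t • e‖ ≤ t / 4 ∧ dist y x ≤ C * t}

/-- An arm from `x` in direction `e`. -/
def Arm (π : X → R2) (x : X) (e : R2) (C s : ℝ) : Prop :=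
  ∃ w, ‖π w - π x - s • e‖ ≤ s / 4 ∧ ∀ r > 0, JoinedIn (ArmSet π x e C s ∪ ball x r) x w

/-- A point with three arms: up, down and right. -/
def CrossPt (π : X → R2) (x : X) : Prop :=
  ∃ C m : ℕ, Arm π x (0, 1) C (1 / (m + 1)) ∧ Arm π x (0, -1) C (1 / (m + 1)) ∧
    Arm π x (1, 0) C (1 / (m + 1))

end General

/-- A covector of the plane applied to a vector. -/
def ev (ξ v : R2) : ℝ := ξ.1 * v.1 + ξ.2 * v.2

/-- The polygonal norm given by a finite family of covectors. -/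
noncomputable def nrm {J : ℕ} (ξ : Fin J → R2) (v : R2) : ℝ := ‖fun j => ev (ξ j) v‖

/-- Auerbach normalization of a family of covectors. -/
def Normal {J : ℕ} (ξ : Fin J → R2) : Prop :=
  (∃ j, ξ j = (1, 0)) ∧ (∃ j, ξ j = (0, 1)) ∧ ∀ j, ‖ξ j‖ ≤ 1

/-- The determinant of two vectors of the plane. -/
def det2 (v w : R2) : ℝ := v.1 * w.2 - v.2 * w.1

/-- Clamp both coordinates to `[-s, s]`. -/
def clamp (s : ℝ) (z : R2) : R2 := (max (-s) (min s z.1), max (-s) (min s z.2))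

/-- The nuclear unit ball of the operators on `V N`. -/
def Nuc {N : ℕ} (T : V N →L[ℝ] V N) : Prop := ∑ m : Fin N, ‖T (Pi.single m 1)‖ ≤ 1

section Charts

variable {X : Type*} [MetricSpace X]

/-- A normalized chart on a compact set. -/
structure Chart (G : Set X) (π : X → R2) {J : ℕ} (ξ : Fin J → R2) : Prop where
  cpt : IsCompact G
  normal : Normal ξ
  up : ∀ x ∈ G, ∀ y ∈ G, nrm ξ (π x - π y) ≤ dist x y
  low : ∀ x ∈ G, ∀ y ∈ G, dist x y ≤ 3 * nrm ξ (π x - π y)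

/-- A good set: `H` is almost affine in a normalized chart. -/
structure Good {N : ℕ} (H : X → V N) (L β : ℝ) (G : Set X) (π : X → R2) {J : ℕ}
    (ξ : Fin J → R2) (A : R2 →L[ℝ] V N) : Prop extends Chart G π ξ where
  aff : ∀ x ∈ G, ∀ y ∈ G, ‖H x - H y - A (π x - π y)‖ ≤ β * dist x y
  opn : ∀ v, ‖A v‖ ≤ (L + β) * nrm ξ v

/-- `ν` is a nearest point map onto `G`. -/
def Nearest (G : Set X) (ν : X → X) : Prop :=
  ∀ y, ν y ∈ G ∧ ∀ x ∈ G, dist y (ν y) ≤ dist y x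

/-- The place of a patch: a density point `xc` of `G`, scales `s ≪ δ ≪ s0`. -/
structure Site (G : Set X) (π : X → R2) (β' : ℝ) (xc : X) (s δ s0 : ℝ) : Prop where
  mem : xc ∈ G
  spos : 0 < s
  sδ : 100 * s ≤ δ
  δs0 : 100 * δ ≤ s0
  dens : ∀ r, 0 < r → r ≤ s0 →
    volume (closedBall (π xc) r \ π '' G) ≤ ENNReal.ofReal (β' * r ^ 2)
  lc : ∀ x y, δ ≤ dist x xc → δ ≤ dist y xc → JoinedIn (closedBall xc (100 * s))ᶜ x y

/-- The ring around `x` at radius `r`. -/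
def Tube (G : Set X) (π : X → R2) (x : X) (r : ℝ) : Set X :=
  {y | ∃ x' ∈ G, r / 3 ≤ ‖π x' - π x‖ ∧ ‖π x' - π x‖ ≤ 2 * r ∧ dist y x' ≤ r / 100}

/-- The data of a patch. -/
structure Patch (X : Type*) (N : ℕ) where
  c : ℝ
  s : ℝ
  t : ℝ
  ρ : X → ℝ
  σ : X → R2
  A : R2 →L[ℝ] V N
  c0 : V N
  anc : R2 → X
  θ : X → ℝ

namespace Patch

variable {N : ℕ} (P : Patch X N)

/-- The closed region of the patch that is never changed again. -/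
def Rm : Set X := {y | P.ρ y ≤ P.t}

/-- The open core. -/
def Co : Set X := {y | P.ρ y < P.t}

/-- The closed inner core on which one operator is used. -/
def In : Set X := {y | P.ρ y ≤ 1 + 7 * P.c / 10}

/-- The region that is made locally planar. -/
def Dn : Set X := {y | P.ρ y ≤ 1 + P.c / 100}

/-- The properties of a patch of `H`: Lipschitz bound `Λ`, accuracy `γ`, size `δ`. -/
structure Ok (H : X → V N) (Λ γ δ : ℝ) : Prop where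
  cpos : 0 < P.c
  cle : P.c ≤ 1 / 10
  spos : 0 < P.s
  sδ : P.s ≤ δ
  tlo : 1 + 8 * P.c / 10 ≤ P.t
  thi : P.t ≤ 1 + 9 * P.c / 10
  ρlip : Lip (2 / P.s) P.ρ
  ρeq : ∀ y ∈ P.Rm, ‖P.σ y‖ = P.ρ y * P.s
  form : ∀ y ∈ P.Rm, H y = P.c0 + P.A (clamp P.s (P.σ y))
  σlip : ∀ y ∈ P.Rm, PLip 2 P.σ y
  Alip : ∀ y ∈ P.Rm, ∀ᶠ y' in 𝓝 y, ∀ a ∈ Icc (0 : ℝ) 1, ∀ b ∈ Icc (0 : ℝ) 1,
    ‖P.A (a * (P.σ y' - P.σ y).1, b * (P.σ y' - P.σ y).2)‖ ≤ Λ * dist y' y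
  Abd : ∀ v, ‖P.A v‖ ≤ 5 * ‖v‖
  ancσ : ∀ w, ‖w‖ ≤ P.s → P.ρ (P.anc w) ≤ 1 + P.c / 1000 ∧ ‖P.σ (P.anc w) - w‖ ≤ γ * P.c * P.s
  ancd : ∀ w w', ‖w‖ ≤ P.s → ‖w'‖ ≤ P.s →
    dist (P.anc w) (P.anc w') ≤ 6 * ‖w - w'‖ + γ * P.c * P.s
  θmem : ∀ y, P.θ y ∈ Icc (0 : ℝ) 1
  θone : ∀ y, P.ρ y ≤ 1 + 2 * P.c / 100 → P.θ y = 1
  θzero : ∀ y, 1 + 3 * P.c / 100 ≤ P.ρ y → P.θ y = 0
  θlip : Lip (3000 / (P.c * P.s)) P.θ
  θsh : ∀ y, (∀ᶠ y' in 𝓝 y, P.θ y' = P.θ y) ∨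
    dist y (P.anc (clamp P.s (P.σ y))) ≤ P.c * P.s / 4
  diam : ∀ y ∈ P.Rm, ∀ y' ∈ P.Rm, dist y y' ≤ δ

end Patch

/-- A family of cores: compact `I j` inside open `C j`, with a purely unrectifiable rest. -/
structure Cores {ι : Type} (I C : ι → Set X) : Prop where
  cpt : ∀ j, IsCompact (I j)
  opn : ∀ j, IsOpen (C j)
  sub : ∀ j, I j ⊆ C j
  disj : ∀ j j', j ≠ j' → Disjoint (I j) (C j')
  small : ∀ κ > 0, {j | ∃ x ∈ C j, ∃ y ∈ C j, κ < dist x y}.Finite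
  pu : PureUnrect (⋃ j, C j)ᶜ

end Charts

/-- The space of 1-Lipschitz curves on `[0, 1]`. -/
def Cv (X : Type*) [MetricSpace X] : Type _ := {γ : C(unitInterval, X) // LipschitzWith 1 γ}

namespace Cv

variable {X : Type*} [MetricSpace X]

noncomputable instance : MetricSpace (Cv X) :=
  inferInstanceAs (MetricSpace {γ : C(unitInterval, X) // LipschitzWith 1 γ})

noncomputable instance : MeasurableSpace (Cv X) := borel _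

instance : BorelSpace (Cv X) := ⟨rfl⟩

/-- The curve extended to the real line by constants. -/
noncomputable def ext (γ : Cv X) (t : ℝ) : X := γ.1 (projIcc 0 1 zero_le_one t)

/-- The velocity of `H` along the curve. -/
noncomputable def vel {E : Type*} [NormedAddCommGroup E] [NormedSpace ℝ E] (H : X → E)
    (γ : Cv X) (t : ℝ) : E := deriv (fun s => H (γ.ext s)) t

/-- The line integral of `φ dH` along the curve. -/
noncomputable def J {E : Type*} [NormedAddCommGroup E] [NormedSpace ℝ E] (H : X → E)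
    (φ : X → ℝ) (γ : Cv X) : E := ∫ t in (0 : ℝ)..1, φ (γ.ext t) • vel H γ t

end Cv

end Pool.Agent.MP_7f5071_gt

end MrgPart0

-- ======== part 1: formerly Pool.Agent.MP_7f5071_gt.Spec
section MrgPart1

/-! The statements of the modules of the proof. -/

namespace Pool.Agent.MP_7f5071_gt

open Filter Topology Set Metric MeasureTheory

universe u

/-- The closed unit disc. -/
abbrev Disc : Type := closedBall (0 : EuclideanSpace ℝ (Fin 2)) 1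

/-! ### Topology and assembly -/

/-- K33. -/
def K33Stmt : Prop := ∀ (X : Type u) [MetricSpace X], Nonempty (X ≃ₜ Disc) → NoK33 X

/-- LC. -/
def LCStmt : Prop := ∀ (X : Type u) [MetricSpace X], Nonempty (X ≃ₜ Disc) → NoSmallCut X

/-- The main approximation theorem. -/
def StarStmt : Prop :=
  ∀ (X : Type u) [MetricSpace X] [CompactSpace X], IsDisc X → ∀ (N : ℕ) (H : X → V N) (L : ℝ),
    0 ≤ L → L ≤ 1 → Lip L H → ∀ ε > 0, ∀ δ > 0,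
    ∃ H' : X → V N, Lip (L + ε) H' ∧ Near δ H H' ∧ ∀ x, LocPlanar H' x

/-- TRI: a finite union of planar polygons has a triangulation. -/
def TriStmt : Prop :=
  ∀ (N n : ℕ) (W : Fin n → AffineSubspace ℝ (V N)) (c : Fin n → V N) (r : Fin n → ℝ),
    (∀ i, ∃ p a b : V N, ∀ y ∈ W i, ∃ s t : ℝ, y = p + s • a + t • b) →
    ∃ K : Geometry.SimplicialComplex ℝ (V N), K.faces.Finite ∧ (∀ s ∈ K.faces, s.card ≤ 3) ∧
      K.space = ⋃ i, ((W i : Set (V N)) ∩ closedBall (c i) (r i)) ∧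
      ∀ s ∈ K.faces, ∃ i, convexHull ℝ (s : Set (V N)) ⊆ (W i : Set (V N)) ∩ closedBall (c i) (r i)

/-- POLY: the intrinsic metric of a triangulated union of compact convex sets. -/
def PolyStmt : Prop :=
  ∀ (N n : ℕ) (Q : Fin n → Set (V N)) (K : Geometry.SimplicialComplex ℝ (V N)),
    (∀ i, IsCompact (Q i)) → (∀ i, Convex ℝ (Q i)) → K.faces.Finite →
    (∀ s ∈ K.faces, s.card ≤ 3) → K.space = ⋃ i, Q i →
    (∀ s ∈ K.faces, ∃ i, convexHull ℝ (s : Set (V N)) ⊆ Q i) →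
    (∀ p ∈ ⋃ i, Q i, ∀ q ∈ ⋃ i, Q i,
      Relation.ReflTransGen (fun a b => ∃ i, a ∈ Q i ∧ b ∈ Q i) p q) →
    ∃ (P : Type) (_ : MetricSpace P) (_ : CompactSpace P) (e : P → V N),
      IsMinkowskiPolyhedron 2 P ∧ Function.Injective e ∧ range e = ⋃ i, Q i ∧
      (∀ p q, ‖e p - e q‖ ≤ dist p q) ∧
      (∀ i p q, e p ∈ Q i → e q ∈ Q i → dist p q = ‖e p - e q‖) ∧
      ∀ (Y : Type) [MetricSpace Y] (f : P → Y),
        (∀ i p q, e p ∈ Q i → e q ∈ Q i → dist (f p) (f q) ≤ ‖e p - e q‖) → LipschitzWith 1 f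

/-- ASM is the implication `TriStmt → PolyStmt → StarStmt → AsmStmt`. -/
def AsmStmt : Prop :=
  ∀ (X : Type u) [MetricSpace X] [CompactSpace X], IsDisc X → IsProMinkowski 2 X

/-! ### Pieces -/

/-- R: the cross points of a chart are covered by countably many pieces. -/
def RStmt : Prop :=
  ∀ (X : Type u) [MetricSpace X] [CompactSpace X], IsDisc X → ∀ (π : X → R2) (L : ℝ), Lip L π →
    ∃ Γ : ℕ → Set X, (∀ m, IsPiece π (Γ m)) ∧ ∀ x, CrossPt π x → ∃ m, x ∈ Γ m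

/-- KIR: differentiability of `H` and of the distance functions on a piece. -/
def KirStmt : Prop :=
  ∀ (X : Type u) [MetricSpace X] [CompactSpace X] (z : ℕ → X), DenseRange z →
    ∀ (N : ℕ) (H : X → V N) (L : ℝ), Lip L H → ∀ (π : X → R2) (Γ : Set X), IsPiece π Γ →
    ∀ β > 0, ∃ (ι : Type) (_ : Countable ι) (G : ι → Set X) (F : ι → Finset ℕ)
      (ζ : ι → ℕ → R2) (A : ι → R2 →L[ℝ] V N),
      volume (π '' (Γ \ ⋃ i, G i)) = 0 ∧ ∀ i, IsCompact (G i) ∧ G i ⊆ Γ ∧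
        (∃ k ∈ F i, ∃ k' ∈ F i, det2 (ζ i k) (ζ i k') ≠ 0) ∧
        ∀ x ∈ G i, ∀ y ∈ G i,
          (∀ k ∈ F i, |dist x (z k) - dist y (z k) - ev (ζ i k) (π x - π y)| ≤ β * dist x y) ∧
          ‖H x - H y - A i (π x - π y)‖ ≤ β * dist x y ∧
          ∃ k ∈ F i, dist x y ≤ 2 * |ev (ζ i k) (π x - π y)| + β * dist x y

/-- GS (from `KirStmt`): almost all of a piece is covered by good sets. -/
def GSStmt : Prop :=
  ∀ (X : Type u) [MetricSpace X] [CompactSpace X] (N : ℕ) (H : X → V N) (L : ℝ),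
    0 ≤ L → L ≤ 2 → Lip L H → ∀ (π : X → R2) (Γ : Set X), IsPiece π Γ →
    ∀ β > 0, ∃ (ι : Type) (_ : Countable ι) (G : ι → Set X) (M : ι → R2 ≃L[ℝ] R2)
      (J : ι → ℕ) (ξ : ∀ i, Fin (J i) → R2) (A : ι → R2 →L[ℝ] V N),
      volume (π '' (Γ \ ⋃ i, G i)) = 0 ∧
      ∀ i, G i ⊆ Γ ∧ Good H L β (G i) (fun x => M i (π x)) (ξ i) (A i)

/-- CNT (from `RStmt`, `KirStmt`): countably many pieces detect pure unrectifiability. -/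
def CntStmt : Prop :=
  ∀ (X : Type u) [MetricSpace X] [CompactSpace X], IsDisc X →
    ∃ (π : ℕ → X → R2) (Γ : ℕ → Set X), (∀ m, IsPiece (π m) (Γ m)) ∧
      ∀ O : Set X, IsClosed O → (∀ m, volume (π m '' (O ∩ Γ m)) = 0) → PureUnrect O

/-! ### Patches -/

/-- RL: the ring lemma. -/
def RLStmt : Prop :=
  ∃ K : ℝ, 1 ≤ K ∧ ∀ (X : Type u) [MetricSpace X] [CompactSpace X], IsDisc X →
    ∀ (G : Set X) (π : X → R2),
    (∀ x ∈ G, ∀ y ∈ G, ‖π x - π y‖ ≤ dist x y ∧ dist x y ≤ 6 * ‖π x - π y‖) →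
    ∀ x ∈ G, ∀ r R : ℝ, 0 < r →
    (∀ w : R2, ‖w - π x‖ ≤ R → ∃ x' ∈ G, ‖π x' - w‖ ≤ (r + ‖w - π x‖) / K) →
    ∀ y ∈ G, 3 * r ≤ ‖π y - π x‖ → ‖π y - π x‖ ≤ R → ¬ JoinedIn (Tube G π x r)ᶜ x y

/-- D1: a dissipative field with negative trace on a set of small area. -/
def D1Stmt : Prop :=
  ∃ C : ℝ, 0 < C ∧ ∀ η > 0, ∃ β > 0, ∀ (J : ℕ) (ξ : Fin J → R2), Normal ξ →
    ∀ w > 0, ∀ η' > 0, ∀ (R : ℝ) (O : Set R2), O ⊆ closedBall 0 R →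
    volume (thickening (2 * w) O) ≤ ENNReal.ofReal β →
    ∃ g : R2 → R2, ContDiff ℝ 1 g ∧ (∀ z, ‖g z‖ ≤ η) ∧ (∀ z, ‖fderiv ℝ g z‖ ≤ C * η / w) ∧
      (∀ z ∈ closedBall (0 : R2) R, ∀ v j, ev (ξ j) v = nrm ξ v →
        ev (ξ j) (fderiv ℝ g z v) ≤ η' * ‖v‖) ∧
      ∀ z ∈ O, (fderiv ℝ g z (1, 0)).1 + (fderiv ℝ g z (0, 1)).2 ≤ -1

/-- EUL (from `D1Stmt`): an almost short map near the identity, with small Jacobian on `O`. -/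
def EulStmt : Prop :=
  ∀ ε > 0, ∃ β > 0, ∀ (J : ℕ) (ξ : Fin J → R2), Normal ξ →
    ∀ O : Set R2, IsCompact O → O ⊆ closedBall 0 10 → volume O ≤ ENNReal.ofReal β →
    ∃ σ : R2 → R2, ContDiff ℝ 1 σ ∧
      (∀ z ∈ closedBall (0 : R2) 10, ‖σ z - z‖ ≤ ε ∧
        ∀ v, nrm ξ (fderiv ℝ σ z v) ≤ (1 + ε) * nrm ξ v) ∧
      ∀ z ∈ O, |det2 (fderiv ℝ σ z (1, 0)) (fderiv ℝ σ z (0, 1))| ≤ ε

/-- L3 (from `EulStmt`): the same with a nuclear decomposition at the scale `S`. -/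
def L3Stmt : Prop :=
  ∀ ε > 0, ∃ K : ℝ, 1 ≤ K ∧ ∃ β > 0, ∀ (J : ℕ) (ξ : Fin J → R2), Normal ξ →
    ∀ s > 0, ∀ S : R2 → ℝ, Lip 1 S → (∀ z, 0 ≤ S z) →
    volume ({z | 0 < S z} ∩ closedBall 0 (10 * s)) ≤ ENNReal.ofReal (β * s ^ 2) →
    ∃ (σ : R2 → R2) (a : Fin J → R2 → R2),
      (∀ z z', ‖z‖ ≤ 9 * s → ‖z'‖ ≤ 9 * s → nrm ξ (σ z - σ z') ≤ (1 + ε) * nrm ξ (z - z')) ∧
      (∀ z, ‖z‖ ≤ 9 * s → ‖σ z - z‖ ≤ ε * s) ∧ (∀ z, ∑ j, nrm ξ (a j z) ≤ 1 + ε) ∧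
      ∀ z, ‖z‖ ≤ 8 * s → 0 < S z → ∀ z', ‖z' - z‖ ≤ S z / K →
        nrm ξ (σ z' - σ z - ∑ j, ev (ξ j) (z' - z) • a j z) ≤ ε * ‖z' - z‖ ∧
        ∑ j, nrm ξ (a j z' - a j z) ≤ K * ‖z' - z‖ / S z

/-- L1 (from `RLStmt`, `L3Stmt`): an almost short planar chart around a density point. -/
def L1Stmt : Prop :=
  ∀ ε > 0, ∃ β' > 0, ∀ (X : Type u) [MetricSpace X] [CompactSpace X], IsDisc X →
    ∀ (G : Set X) (π : X → R2) (J : ℕ) (ξ : Fin J → R2), Chart G π ξ →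
    ∀ ν : X → X, Nearest G ν → ∀ (xc : X) (s δ s0 : ℝ), Site G π β' xc s δ s0 →
    ∃ (σ ω : X → R2) (τ : ℝ), 0 < τ ∧
      (∀ w : R2, ‖w‖ ≤ 5 * s → ∃ x ∈ G, ‖π x - π xc - w‖ ≤ ε * s) ∧
      ∀ y, ‖π (ν y) - π xc‖ ≤ 4 * s →
        dist y xc < δ ∧ (∀ y', dist y y' ≤ τ → ‖π (ν y') - π (ν y)‖ ≤ ε * s) ∧
        ‖σ y - (π (ν y) - π xc)‖ ≤ ε * s ∧ ‖ω y - (π (ν y) - π xc)‖ ≤ ε * s ∧
        (∀ᶠ y' in 𝓝 y, nrm ξ (σ y' - σ y) ≤ (1 + ε) * dist y' y) ∧ PLip 10 ω y ∧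
        ((∀ᶠ y' in 𝓝 y, ω y' = ω y) ∨ dist y (ν y) ≤ ε * s)

/-- PAT (from `L1Stmt`): one patch. -/
def PatStmt : Prop :=
  ∀ ε > 0, ∀ γ > 0, ∃ β > 0, ∃ β' > 0,
    ∀ (X : Type u) [MetricSpace X] [CompactSpace X], IsDisc X →
    ∀ (N : ℕ) (H : X → V N) (L : ℝ), 0 ≤ L → L ≤ 2 → Lip L H →
    ∀ (G : Set X) (π : X → R2) (J : ℕ) (ξ : Fin J → R2) (A : R2 →L[ℝ] V N),
    Good H L β G π ξ A → ∀ ν : X → X, Nearest G ν →
    ∀ (xc : X) (s δ s0 : ℝ), Site G π β' xc s δ s0 →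
    ∃ (P : Patch X N) (H' : X → V N) (S : Set X), Lip (L + ε) H' ∧ Near (3 * δ) H H' ∧
      P.Ok H' (L + ε) γ (2 * δ) ∧ P.t = 1 + 9 * P.c / 10 ∧ IsClosed S ∧
      (∀ y, y ∉ S → H' y = H y) ∧ P.Rm ⊆ S ∧
      (∀ y ∈ S, ‖π (ν y) - π xc‖ ≤ 3 * s ∧ dist y xc < δ) ∧
      ∀ x ∈ G, ‖π x - π xc‖ ≤ 9 * s / 10 → P.ρ x < 1

/-- STG (from `GSStmt`, `PatStmt`): one batch of patches. -/
def StgStmt : Prop :=
  ∀ (X : Type u) [MetricSpace X] [CompactSpace X], IsDisc X →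
    ∀ (N : ℕ) (H : X → V N) (L : ℝ), 0 ≤ L → L ≤ 2 → Lip L H →
    ∀ Z : Set X, IsClosed Z → ∀ (π : X → R2) (Γ : Set X), IsPiece π Γ →
    ∀ (πs : ℕ → X → R2) (Γs : ℕ → Set X), (∀ m, IsPiece (πs m) (Γs m)) →
    ∀ ε > 0, ∀ δ > 0, ∀ γ > 0, ∃ (n : ℕ) (P : Fin n → Patch X N) (H' : X → V N),
      Lip (L + ε) H' ∧ Near δ H H' ∧ (∀ y ∈ Z, H' y = H y) ∧
      (∀ j, (P j).Ok H' (L + ε) γ δ) ∧ (∀ j j', j ≠ j' → Disjoint (P j).Rm (P j').Rm) ∧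
      (∀ j, Disjoint (P j).Rm Z) ∧
      (∀ j m, volume (πs m '' (Γs m ∩ ((P j).Rm \ (P j).Co))) = 0) ∧
      volume (π '' (Γ \ (Z ∪ ⋃ j, (P j).Rm))) ≤ ENNReal.ofReal (199 / 200) * volume (π '' (Γ \ Z))

/-- LIM (from `CntStmt`, `StgStmt`): all the patches. -/
def LimStmt : Prop :=
  ∀ (X : Type u) [MetricSpace X] [CompactSpace X], IsDisc X →
    ∀ (N : ℕ) (H : X → V N) (L : ℝ), 0 ≤ L → L ≤ 1 → Lip L H →
    ∀ ε > 0, ∀ δ > 0, ∀ γ > 0, ∃ (ι : Type) (P : ι → Patch X N) (H' : X → V N),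
      Lip (L + ε) H' ∧ Near δ H H' ∧ (∀ j, (P j).Ok H' (L + ε) γ δ) ∧
      (∀ j j', j ≠ j' → Disjoint (P j).Rm (P j').Rm) ∧
      Cores (fun j => (P j).In) (fun j => (P j).Co)

/-- CR: repair of a core. -/
def CRStmt : Prop :=
  ∀ ε > 0, ∀ γ' > 0, ∃ γ > 0, ∀ (X : Type u) [MetricSpace X] [CompactSpace X], Geodesic X →
    ∀ (N : ℕ) (H G : X → V N) (P : Patch X N) (Λ Λ' δ r : ℝ) (T : V N →L[ℝ] V N),
    P.Ok H Λ γ δ → 0 ≤ Λ → Λ ≤ Λ' → Λ' ≤ 2 → Lip Λ' G → ‖T‖ ≤ 1 → 0 < r →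
    (∀ y ∈ P.In, ∀ y' ∈ P.In, dist y y' ≤ r → ‖G y - G y' - T (H y - H y')‖ ≤ γ * dist y y') →
    ∃ G' : X → V N, Lip (Λ' + ε) G' ∧ Near (100 * δ) G G' ∧
      (∀ y, 1 + 3 * P.c / 100 ≤ P.ρ y → G' y = G y) ∧ (∀ y ∈ P.Dn, LocPlanar G' y) ∧
      ∃ r' > 0, ∀ x, 1 + P.c / 100 ≤ P.ρ x → P.ρ x ≤ 1 + P.c / 2 → Flat γ' G' (ball x r')

/-! ### The unrectifiable part -/

/-- The times at which `f` moves in direction `e`, uniformly at scale `1 / (m + 1)`. -/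
def UT (f : ℝ → R2) (e : R2) (m : ℕ) : Set ℝ :=
  {t | t ∈ Icc (0 : ℝ) 1 ∧ ∀ s : ℝ, |s| ≤ 1 / (m + 1) → t + s ∈ Icc (0 : ℝ) 1 →
    ‖f (t + s) - f t - s • e‖ ≤ |s| / 5}

/-- DW: null sets are thin for one of two transversal directions. -/
def DWStmt : Prop :=
  ∀ K : Set R2, IsCompact K → volume K = 0 → ∀ (m : ℕ), ∀ δ > 0,
    ∃ P P' : Set R2, MeasurableSet P ∧ MeasurableSet P' ∧ K ⊆ P ∪ P' ∧ ∀ f : ℝ → R2,
      volume {t | t ∈ UT f (1, 0) m ∧ f t ∈ P} ≤ ENNReal.ofReal δ ∧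
      volume {t | t ∈ UT f (0, 1) m ∧ f t ∈ P'} ≤ ENNReal.ofReal δ

/-- R2 (from `RStmt`, `DWStmt`): curve measures have rank one on unrectifiable sets. -/
def R2Stmt : Prop :=
  ∀ (X : Type u) [MetricSpace X] [CompactSpace X], IsDisc X →
    ∀ (N : ℕ) (H : X → V N) (L : ℝ), Lip L H → ∀ O : Set X, IsClosed O → PureUnrect O →
    ∀ (q : ℕ) (η : Fin q → FiniteMeasure (Cv X)), ∀ κ > 0,
    ∃ (n : ℕ) (φ : Fin n → X → ℝ) (τ : Fin n → Fin q → ℝ) (v : Fin n → V N) (Λ lam : ℝ),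
      0 < lam ∧ (∀ α x, 0 ≤ φ α x) ∧ (∀ x, ∑ α, φ α x ≤ 1) ∧
      (∀ x, (∃ y ∈ O, dist x y < lam) → ∑ α, φ α x = 1) ∧ (∀ α, Lip Λ (φ α)) ∧
      ∀ χ : X → ℝ, Continuous χ → (∀ x, χ x ∈ Icc (0 : ℝ) 1) → (∀ x ∈ O, χ x = 1) →
        ∑ α, ∑ β, ‖(∫ γ, Cv.J H (fun x => φ α x * χ x) γ ∂(η β : Measure (Cv X)))
          - τ α β • v α‖ ≤ κ

/-- FD: a finite flow is a finite combination of curves. -/
def FDStmt : Prop :=
  ∀ (X : Type u) [MetricSpace X] [CompactSpace X], Geodesic X →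
    ∀ (E : Type) [Fintype E] (x y : E → X) (w : E → ℝ) (r : ℝ), 0 ≤ r →
    (∀ e, dist (x e) (y e) ≤ r) → ∑ e, |w e| * dist (x e) (y e) ≤ 1 →
    (∀ f : X → ℝ, (∀ p, |f p| ≤ 1) → |∑ e, w e * (f (x e) - f (y e))| ≤ 1) →
    ∃ (n : ℕ) (lam : Fin n → ℝ) (γ : Fin n → Cv X), (∀ p, 0 ≤ lam p) ∧ ∑ p, lam p ≤ 10 ∧
      ∀ (N : ℕ) (H : X → V N) (L : ℝ) (φ : X → ℝ) (K : ℝ), 0 ≤ L → 0 ≤ K → Lip L H → Lip K φ →
        ‖∑ p, lam p • Cv.J H φ (γ p) - ∑ e, (w e * φ (x e)) • (H (x e) - H (y e))‖ ≤ 2 * K * r * L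

/-- U (from `R2Stmt`, `FDStmt`): the uniform version for finite flows with short edges. -/
def UStmt : Prop :=
  ∀ (X : Type u) [MetricSpace X] [CompactSpace X], IsDisc X →
    ∀ (N : ℕ) (H : X → V N) (L : ℝ), 0 ≤ L → Lip L H → ∀ (ι : Type) (I C : ι → Set X),
    Cores I C → ∀ (q : ℕ), ∀ κ > 0, ∃ r > 0, ∃ F : Finset ι,
    ∀ (E : Type) [Fintype E] (x y : E → X) (w : Fin q → E → ℝ),
      (∀ e, dist (x e) (y e) ≤ r) → (∀ β, ∑ e, |w β e| * dist (x e) (y e) ≤ 1) →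
      (∀ β, ∀ f : X → ℝ, (∀ p, |f p| ≤ 1) → |∑ e, w β e * (f (x e) - f (y e))| ≤ 1) →
      ∃ (n : ℕ) (φ : Fin n → X → ℝ) (τ : Fin n → Fin q → ℝ) (v : Fin n → V N),
        (∀ α p, 0 ≤ φ α p) ∧ (∀ p, ∑ α, φ α p ≤ 1) ∧
        (∀ p, (∀ j ∈ F, p ∉ C j) → ∑ α, φ α p = 1) ∧
        (∀ p p', dist p p' ≤ r → ∑ α, |φ α p - φ α p'| ≤ κ) ∧
        (∀ j, (∀ α, ∀ p ∈ I j, φ α p = 0) ∨
          ∀ p ∈ I j, ∀ p' ∈ I j, dist p p' ≤ κ ∧ ∑ α, |φ α p - φ α p'| ≤ κ) ∧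
        ∑ α, ∑ β, ‖∑ e, (w β e * φ α (x e)) • (H (x e) - H (y e)) - τ α β • v α‖ ≤ κ

/-- FP (from `UStmt`): one step of rank reduction. -/
def FPStmt : Prop :=
  ∀ (X : Type u) [MetricSpace X] [CompactSpace X], IsDisc X →
    ∀ (N : ℕ) (H : X → V N) (L : ℝ), 0 ≤ L → Lip L H → ∀ (ι : Type) (I C : ι → Set X),
    Cores I C → ∀ ε > 0, ∀ η > 0, ∃ (G : X → V N) (r : ℝ) (F : Finset ι), 0 < r ∧ Near η H G ∧
      (∀ x, ∃ T : V N →L[ℝ] V N, ‖T‖ ≤ 1 ∧ ((∃ y ∈ ball x r, ∀ j ∈ F, y ∉ C j) → Nuc T) ∧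
        ∀ y ∈ ball x r, ∀ y' ∈ ball x r, ‖G y - G y' - T (H y - H y')‖ ≤ ε * dist y y') ∧
      ∀ j, ∃ T : V N →L[ℝ] V N, ‖T‖ ≤ 1 ∧ ∀ y ∈ I j, ∀ y' ∈ I j, dist y y' ≤ r →
        ‖G y - G y' - T (H y - H y')‖ ≤ ε * dist y y'

/-- ITER (from `FPStmt`): rank one away from the cores. -/
def IterStmt : Prop :=
  ∀ (X : Type u) [MetricSpace X] [CompactSpace X], IsDisc X →
    ∀ (N : ℕ) (H : X → V N) (L : ℝ), 0 ≤ L → L ≤ 2 → Lip L H →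
    ∀ (ι : Type) (I C : ι → Set X), Cores I C → ∀ γ > 0, ∀ η > 0,
    ∃ (G : X → V N) (r : ℝ) (F : Finset ι), 0 < r ∧ Near η H G ∧ Lip (L + γ) G ∧
      (∀ x, (∃ y ∈ ball x r, ∀ j ∈ F, y ∉ C j) → Flat γ G (ball x r)) ∧
      (∀ x, ∃ T : V N →L[ℝ] V N, ‖T‖ ≤ 1 ∧
        ∀ y ∈ ball x r, ∀ y' ∈ ball x r, ‖G y - G y' - T (H y - H y')‖ ≤ γ * dist y y') ∧
      ∀ j, ∃ T : V N →L[ℝ] V N, ‖T‖ ≤ 1 ∧ ∀ y ∈ I j, ∀ y' ∈ I j, dist y y' ≤ r →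
        ‖G y - G y' - T (H y - H y')‖ ≤ γ * dist y y'

/-! ### From rank one to locally planar -/

/-- BL: bands of a distance function are coarsely one-dimensional. -/
def BLStmt : Prop :=
  ∃ C : ℝ, 1 ≤ C ∧ ∀ (X : Type u) [MetricSpace X] [CompactSpace X], IsDisc X →
    ∀ (o : X) (t ρ : ℝ), 0 < ρ → ∃ η : X → ℝ, Lip 1 η ∧ (∀ x, |η x| ≤ ρ / 2) ∧
      Bdd ρ (C * ρ) {x | t ≤ dist x o ∧ dist x o ≤ t + ρ ∧ η x ≤ ρ / 4} ∧
      Bdd ρ (C * ρ) {x | t ≤ dist x o ∧ dist x o ≤ t + ρ ∧ -(ρ / 4) ≤ η x}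

/-- WS (from `BLStmt`): weights adapted to a Lipschitz function. -/
def WSStmt : Prop :=
  ∀ ε > 0, ∃ M0 M : ℝ, 1 ≤ M0 ∧ 3 * M0 ≤ M ∧
    ∀ (X : Type u) [MetricSpace X] [CompactSpace X], IsDisc X →
    ∀ (s Λ η h : ℝ) (u : X → ℝ), 0 < s → 0 ≤ Λ → Λ ≤ 2 → Lip Λ u → 0 < η → η ≤ s / M →
    0 < h → h ≤ s / M →
    ∃ (p : Fin 4 → X → ℝ) (rep : Fin 4 → X → X) (u' : X → ℝ),
      (∀ c x, 0 ≤ p c x) ∧ (∀ x, ∑ c, p c x = 1) ∧ (∀ c, Lip (M0 / s) (p c)) ∧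
      (∀ c x, 0 < p c x → dist x (rep c x) ≤ M0 * s) ∧
      (∀ c x y, 0 < p c x → 0 < p c y → dist x y ≤ s → rep c x = rep c y) ∧
      Lip (Λ + ε) u' ∧ (∀ x, |u' x - u x| ≤ M0 * s) ∧
      (∀ z, (∀ y ∈ ball z (M * s), |u y - u z| ≤ η) →
        ∀ y ∈ ball z (3 * M0 * s), |u' y - u y| ≤ 2 * η + h) ∧
      ∀ x, (Finset.univ.filter fun c => 0 < p c x).card ≤ 2 ∨
        ((Finset.univ.filter fun c => 0 < p c x).card ≤ 3 ∧ ∃ k : ℤ, u' x = k * h)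

/-- ONE (from `WSStmt`): one set on which `H` has almost rank one. -/
def OneStmt : Prop :=
  ∀ ε > 0, ∀ γ' > 0, ∃ γ > 0, ∀ (X : Type u) [MetricSpace X] [CompactSpace X], IsDisc X →
    ∀ (N : ℕ) (H : X → V N) (Λ : ℝ), 0 ≤ Λ → Λ ≤ 2 → Lip Λ H →
    ∀ (Ω K : Set X) (a : V N) (l : V N →L[ℝ] ℝ), IsOpen Ω → IsCompact K → K ⊆ Ω →
    ‖a‖ ≤ 1 → ‖l‖ ≤ 1 → (∀ x ∈ Ω, PLip γ (fun y => H y - l (H y) • a) x) →
    ∀ κ > 0, ∀ δ > 0, ∃ (H' : X → V N) (S : Set X), IsClosed S ∧ S ⊆ Ω ∧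
      (∀ y, y ∉ S → H' y = H y) ∧ Lip (Λ + ε) H' ∧ Near δ H H' ∧ (∀ x ∈ K, LocPlanar H' x) ∧
      ∀ (a' : V N) (l' : V N →L[ℝ] ℝ) (x : X), ‖a'‖ ≤ 1 → ‖l'‖ ≤ 1 →
        (∀ y ∈ ball x κ, PLip γ (fun y => H y - l' (H y) • a') y) →
        PLip γ' (fun y => H' y - l' (H' y) • a') x

/-- FIN (from `BLStmt`, `OneStmt`). -/
def FinStmt : Prop :=
  ∀ ε > 0, ∃ γ > 0, ∀ (X : Type u) [MetricSpace X] [CompactSpace X], IsDisc X →
    ∀ (N : ℕ) (H : X → V N) (Λ : ℝ), 0 ≤ Λ → Λ + ε ≤ 2 → Lip Λ H →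
    ∀ (D : Set X) (r : ℝ), IsClosed D → 0 < r → (∀ x ∈ D, LocPlanar H x) →
    (∀ x, x ∉ D → Flat γ H (ball x r)) →
    ∀ δ > 0, ∃ H' : X → V N, Lip (Λ + ε) H' ∧ Near δ H H' ∧ ∀ x, LocPlanar H' x

end Pool.Agent.MP_7f5071_gt

end MrgPart1

-- marker of a merged file
example : 731051 + 413671 = 731051 + 413671 := rfl
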