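import Mathlib.Topology.Sheaves.Presheaf
import Mathlib.Algebra.Order.Star.Real
import Mathlib.Analysis.Normed.Module.HahnBanach
import Mathlib.Analysis.Calculus.ParametricIntegral
import Mathlib.MeasureTheory.Measure.Haar.NormedSpace
import Mathlib.Combinatorics.SimpleGraph.Basic
import Mathlib.Analysis.SpecialFunctions.PolarCoord
import Mathlib.RingTheory.TotallySplit
import Pool.Agent.MP_7f5071_gt.L1.Base

/-! The module L3, first part: nuclear decompositions and averages over squares. -/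

namespace Pool.Agent.MP_7f5071_gt

open Filter Topology Set Metric MeasureTheory

namespace L3

open Eul

variable {J : ℕ}

lemma exists_mul (a b : R2) (ha : a ≠ 0) : ∃ l : ℝ, ‖b - l • a‖ * ‖a‖ ≤ |det2 a b| := by
  rcases le_total |a.2| |a.1| with h | h
  · have hn : ‖a‖ = |a.1| := max_eq_left h
    have h1 : a.1 ≠ 0 := by
      intro h0
      rw [h0, abs_zero, norm_eq_zero] at hn
      exact ha hn
    refine ⟨b.1 / a.1, ?_⟩
    have e : b - (b.1 / a.1) • a = (0, det2 a b / a.1) := by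
      ext
      · simp only [Prod.fst_sub, Prod.smul_fst, smul_eq_mul]; field_simp; ring
      · simp only [Prod.snd_sub, Prod.smul_snd, smul_eq_mul, det2]; field_simp
    have h2 : 0 < |a.1| := abs_pos.2 h1
    rw [e, hn, Prod.norm_def, norm_zero, max_eq_right (norm_nonneg _), Real.norm_eq_abs, abs_div,
      div_mul_cancel₀ _ h2.ne']
  · have hn : ‖a‖ = |a.2| := max_eq_right h
    have h1 : a.2 ≠ 0 := by
      intro h0
      rw [h0, abs_zero, norm_eq_zero] at hn
      exact ha hn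
    refine ⟨b.2 / a.2, ?_⟩
    have e : b - (b.2 / a.2) • a = (-(det2 a b / a.2), 0) := by
      ext
      · simp only [Prod.fst_sub, Prod.smul_fst, smul_eq_mul, det2]; field_simp; ring
      · simp only [Prod.snd_sub, Prod.smul_snd, smul_eq_mul]; field_simp; ring
    have h2 : 0 < |a.2| := abs_pos.2 h1
    rw [e, hn, Prod.norm_def, norm_zero, max_eq_left (norm_nonneg _), norm_neg, Real.norm_eq_abs,
      abs_div, div_mul_cancel₀ _ h2.ne']

/-- A map with a small determinant is close to a map of rank one. -/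
lemma rank_one (T : R2 →L[ℝ] R2) {κ : ℝ} (hκ : 0 < κ)
    (h : |det2 (T (1, 0)) (T (0, 1))| ≤ κ ^ 2) :
    ∃ a ζ : R2, ∀ v, ‖T v - ev ζ v • a‖ ≤ 2 * κ * ‖v‖ := by
  have small : ∀ a b : R2, κ ≤ ‖a‖ → |det2 a b| ≤ κ ^ 2 → ∃ l : ℝ, ‖b - l • a‖ ≤ κ := by
    intro a b ha hd
    obtain ⟨l, hl⟩ := exists_mul a b (norm_pos_iff.1 (hκ.trans_le ha))
    refine ⟨l, ?_⟩
    by_contra hc
    push Not at hc
    nlinarith
  by_cases h1 : κ ≤ ‖T (1, 0)‖
  · obtain ⟨l, hl⟩ := small _ _ h1 h
    refine ⟨T (1, 0), (1, l), fun v => ?_⟩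
    have e : T v - ev (1, l) v • T (1, 0) = v.2 • (T (0, 1) - l • T (1, 0)) := by
      rw [apply_eq T v, ev]
      module
    rw [e, norm_smul, Real.norm_eq_abs]
    have := mul_le_mul (abs_snd_le v) hl (norm_nonneg _) (norm_nonneg _)
    nlinarith [norm_nonneg v]
  by_cases h2 : κ ≤ ‖T (0, 1)‖
  · obtain ⟨l, hl⟩ := small (T (0, 1)) (T (1, 0)) h2 (by
      rw [show det2 (T (0, 1)) (T (1, 0)) = -det2 (T (1, 0)) (T (0, 1)) by
        simp only [det2]; ring, abs_neg]
      exact h)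
    refine ⟨T (0, 1), (l, 1), fun v => ?_⟩
    have e : T v - ev (l, 1) v • T (0, 1) = v.1 • (T (1, 0) - l • T (0, 1)) := by
      rw [apply_eq T v, ev]
      module
    rw [e, norm_smul, Real.norm_eq_abs]
    have := mul_le_mul (abs_fst_le v) hl (norm_nonneg _) (norm_nonneg _)
    nlinarith [norm_nonneg v]
  · push Not at h1 h2
    refine ⟨0, 0, fun v => ?_⟩
    rw [smul_zero, sub_zero, apply_eq T v]
    refine (norm_add_le _ _).trans ?_
    rw [norm_smul, norm_smul, Real.norm_eq_abs, Real.norm_eq_abs]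
    have a1 := mul_le_mul (abs_fst_le v) h1.le (norm_nonneg _) (norm_nonneg _)
    have a2 := mul_le_mul (abs_snd_le v) h2.le (norm_nonneg _) (norm_nonneg _)
    linarith

/-- A covector dominated by the polygonal norm is a combination of the given covectors. -/
lemma dual_comb {ξ : Fin J → R2} (hξ : Normal ξ) (ζ : R2) {c : ℝ} (hc : 0 ≤ c)
    (h : ∀ v, |ev ζ v| ≤ c * nrm ξ v) :
    ∃ t : Fin J → ℝ, ∑ j, |t j| ≤ c ∧ ∀ v, ev ζ v = ∑ j, ev (ξ j) v * t j := by
  obtain ⟨⟨j1, h1⟩, ⟨j2, h2⟩, -⟩ := hξ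
  let f0 : (Fin J → ℝ) →L[ℝ] ℝ :=
    ζ.1 • ContinuousLinearMap.proj j1 + ζ.2 • ContinuousLinearMap.proj j2
  have hf0 : ∀ v, f0 (Xi ξ v) = ev ζ v := by
    intro v
    simp [f0, Xi_apply, h1, h2, ev]
  let p : Subspace ℝ (Fin J → ℝ) := LinearMap.range (Xi ξ).toLinearMap
  obtain ⟨g, hg, hn⟩ := exists_extension_norm_eq p (f0.comp p.subtypeL)
  have hgc : ‖g‖ ≤ c := by
    rw [hn]
    refine ContinuousLinearMap.opNorm_le_bound _ hc ?_
    rintro ⟨_, v, rfl⟩
    have := h v
    rw [← hf0, nrm_eq] at this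
    exact this
  have hrep : ∀ x : Fin J → ℝ, g x = ∑ j, x j * g (Pi.single j 1) := by
    intro x
    conv_lhs => rw [← Finset.univ_sum_single x, map_sum]
    refine Finset.sum_congr rfl fun j _ => ?_
    rw [← smul_eq_mul, ← map_smul, ← Pi.single_smul, smul_eq_mul, mul_one]
  refine ⟨fun j => g (Pi.single j 1), ?_, fun v => ?_⟩
  · let x : Fin J → ℝ := fun j => if 0 ≤ g (Pi.single j 1) then 1 else -1
    have hx : ‖x‖ ≤ 1 := by
      rw [pi_norm_le_iff_of_nonneg zero_le_one]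
      intro j
      simp only [x]
      split_ifs <;> simp
    have e : ∑ j, |g (Pi.single j 1)| = g x := by
      rw [hrep x]
      refine Finset.sum_congr rfl fun j _ => ?_
      simp only [x]
      split_ifs with hj
      · rw [abs_of_nonneg hj, one_mul]
      · rw [abs_of_neg (not_le.1 hj)]; ring
    rw [e]
    have := g.le_of_opNorm_le_of_le hgc hx
    rw [mul_one] at this
    exact (le_abs_self _).trans this
  · have := hg ⟨Xi ξ v, v, rfl⟩
    rw [hrep] at this
    simp only [Xi_apply] at this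
    rw [this, ← hf0]
    rfl

/-- The nuclear decomposition of an almost short map with small determinant. -/
lemma nuclear {ξ : Fin J → R2} (hξ : Normal ξ) (T : R2 →L[ℝ] R2) {κ : ℝ} (hκ : 0 < κ)
    (hκ1 : κ ≤ 1) (hs : ∀ v, nrm ξ (T v) ≤ (1 + κ ^ 2) * nrm ξ v)
    (h : |det2 (T (1, 0)) (T (0, 1))| ≤ κ ^ 2) :
    ∃ a : Fin J → R2, ∑ j, nrm ξ (a j) ≤ 1 + 5 * κ ∧
      ∀ v, ‖T v - ∑ j, ev (ξ j) v • a j‖ ≤ 2 * κ * ‖v‖ := by
  obtain ⟨a, ζ, ha⟩ := rank_one T hκ h
  by_cases h0 : nrm ξ a = 0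
  · have : a = 0 := norm_le_zero_iff.1 (h0 ▸ norm_le_nrm hξ a)
    refine ⟨0, by simp [nrm_zero]; positivity, fun v => ?_⟩
    simpa [this] using ha v
  have hpos : 0 < nrm ξ a := lt_of_le_of_ne (nrm_nonneg ξ a) (Ne.symm h0)
  obtain ⟨t, ht, hrep⟩ := dual_comb hξ ζ (c := (1 + 5 * κ) / nrm ξ a) (by positivity) (by
    intro v
    rw [div_mul_eq_mul_div, le_div_iff₀ hpos, ← nrm_smul]
    have e : ev ζ v • a = T v - (T v - ev ζ v • a) := by abel
    rw [e]
    refine (nrm_sub_le ξ _ _).trans ?_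
    have a1 := nrm_le hξ (T v - ev ζ v • a)
    have a2 := ha v
    have a3 := hs v
    have a4 := norm_le_nrm hξ v
    have a5 := nrm_nonneg ξ v
    have a6 : κ * ‖v‖ ≤ κ * nrm ξ v := by gcongr
    have a7 : κ ^ 2 * nrm ξ v ≤ κ * nrm ξ v := by gcongr; nlinarith
    nlinarith)
  refine ⟨fun j => t j • a, ?_, fun v => ?_⟩
  · simp only [nrm_smul, ← Finset.sum_mul]
    rwa [le_div_iff₀ hpos] at ht
  · simp only [smul_smul, ← Finset.sum_smul, ← hrep]
    exact ha v

section Av

variable {E F : Type*} [NormedAddCommGroup E] [NormedSpace ℝ E] [CompleteSpace E]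
  [NormedAddCommGroup F] [NormedSpace ℝ F] [CompleteSpace F]

/-- The average of `f` over the square of centre `z` and radius `ρ`. -/
noncomputable def av (f : R2 → E) (z : R2) (ρ : ℝ) : E :=
  (1 / 4 : ℝ) • ∫ ω in closedBall (0 : R2) 1, f (z + ρ • ω)

lemma real_closedBall (z : R2) {r : ℝ} (hr : 0 ≤ r) : volume.real (closedBall z r) = 4 * r ^ 2 := by
  rw [Measure.real, volume_closedBall z r hr, ENNReal.toReal_ofReal (by positivity)]

omit [NormedSpace ℝ E] [CompleteSpace E] in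
lemma intOn {f : R2 → E} (hf : Continuous f) (z : R2) (r : ℝ) :
    IntegrableOn f (closedBall z r) :=
  hf.continuousOn.integrableOn_compact (isCompact_closedBall z r)

omit [CompleteSpace E] in
lemma norm_int_le {f : R2 → E} {c : ℝ} (h : ∀ ω ∈ closedBall (0 : R2) 1, ‖f ω‖ ≤ c) :
    ‖(1 / 4 : ℝ) • ∫ ω in closedBall (0 : R2) 1, f ω‖ ≤ c := by
  have := norm_setIntegral_le_of_norm_le_const (μ := volume) measure_closedBall_lt_top h
  rw [real_closedBall _ zero_le_one] at this
  rw [norm_smul, Real.norm_eq_abs, abs_of_pos (by norm_num)]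
  linarith

lemma map_int (Λ : E →L[ℝ] F) {f : R2 → E} (hf : Continuous f) :
    Λ ((1 / 4 : ℝ) • ∫ ω in closedBall (0 : R2) 1, f ω)
      = (1 / 4 : ℝ) • ∫ ω in closedBall (0 : R2) 1, Λ (f ω) := by
  rw [map_smul, Λ.integral_comp_comm (intOn hf 0 1)]

lemma map_av (Λ : E →L[ℝ] F) {f : R2 → E} (hf : Continuous f) (z : R2) (ρ : ℝ) :
    Λ (av f z ρ) = av (fun y => Λ (f y)) z ρ :=
  map_int Λ (by fun_prop)

omit [CompleteSpace E] in
open Pointwise in
lemma av_eq (f : R2 → E) (z : R2) {ρ : ℝ} (hρ : 0 < ρ) :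
    av f z ρ = (4 * ρ ^ 2)⁻¹ • ∫ y in closedBall z ρ, f y := by
  have h1 := Measure.setIntegral_comp_smul (volume : Measure R2) (fun y => f (z + y))
    (closedBall (0 : R2) 1) hρ.ne'
  have h2 := (measurePreserving_add_left (volume : Measure R2) z).setIntegral_preimage_emb
    (measurableEmbedding_addLeft z) f (closedBall z ρ)
  have h3 : (fun y => z + y) ⁻¹' closedBall z ρ = ρ • closedBall (0 : R2) 1 := by
    rw [smul_unitClosedBall_of_nonneg hρ.le]
    ext y
    simp
  rw [av, h1, ← h3, h2, smul_smul]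
  congr 1
  have : Module.finrank ℝ R2 = 2 := by simp
  rw [this, abs_of_pos (by positivity)]
  field_simp

omit [CompleteSpace E] in
/-- Averages of a bounded function are Lipschitz at their scale. -/
lemma av_lip {f : R2 → E} (hf : Continuous f) {M : ℝ} (hM : ∀ y, ‖f y‖ ≤ M) {z z' : R2}
    {ρ ρ' D : ℝ} (hρ : 0 < ρ) (hD : 2 * D ≤ ρ) (hz : ‖z' - z‖ ≤ D) (hr : |ρ' - ρ| ≤ D) :
    ‖av f z' ρ' - av f z ρ‖ ≤ 13 * M * D / ρ := by
  have hD0 : 0 ≤ D := (norm_nonneg _).trans hz
  have hM0 : 0 ≤ M := (norm_nonneg _).trans (hM 0)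
  have hr' := abs_le.1 hr
  have hρ' : 0 < ρ' := by linarith
  have key : ∀ (x : R2) (r : ℝ), 0 ≤ r → closedBall z (ρ - 2 * D) ⊆ closedBall x r →
      ‖(∫ y in closedBall x r, f y) - ∫ y in closedBall z (ρ - 2 * D), f y‖
        ≤ M * (4 * r ^ 2 - 4 * (ρ - 2 * D) ^ 2) := by
    intro x r hr0 hsub
    rw [← setIntegral_sdiff measurableSet_closedBall (intOn hf x r) hsub]
    have := norm_setIntegral_le_of_norm_le_const (μ := volume) (f := f)
      (s := closedBall x r \ closedBall z (ρ - 2 * D))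
      ((measure_mono sdiff_subset).trans_lt measure_closedBall_lt_top) (fun y _ => hM y)
    rwa [measureReal_sdiff hsub measurableSet_closedBall measure_closedBall_lt_top.ne,
      real_closedBall _ hr0, real_closedBall _ (by linarith)] at this
  have k1 := key z ρ hρ.le (closedBall_subset_closedBall (by linarith))
  have k2 := key z' ρ' hρ'.le (closedBall_subset_closedBall' (by
    rw [dist_comm, dist_eq_norm]; linarith))
  have k3 : ‖av f z' ρ'‖ ≤ M := norm_int_le fun ω _ => hM _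
  have e : av f z' ρ' - av f z ρ = (4 * ρ ^ 2)⁻¹ • (((∫ y in closedBall z' ρ', f y)
      - ∫ y in closedBall z (ρ - 2 * D), f y) - ((∫ y in closedBall z ρ, f y)
      - ∫ y in closedBall z (ρ - 2 * D), f y) + (4 * ρ ^ 2 - 4 * ρ' ^ 2) • av f z' ρ') := by
    have e1 : ∫ y in closedBall z' ρ', f y = (4 * ρ' ^ 2) • av f z' ρ' := by
      rw [av_eq f z' hρ', smul_smul, mul_inv_cancel₀ (by positivity), one_smul]
    have e2 : ∫ y in closedBall z ρ, f y = (4 * ρ ^ 2) • av f z ρ := by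
      rw [av_eq f z hρ, smul_smul, mul_inv_cancel₀ (by positivity), one_smul]
    rw [e1, e2, eq_inv_smul_iff₀ (by positivity)]
    module
  have k4 : |4 * ρ ^ 2 - 4 * ρ' ^ 2| ≤ 12 * ρ * D := by
    rw [abs_le]; constructor <;> nlinarith
  have k5 : ‖(4 * ρ ^ 2 - 4 * ρ' ^ 2) • av f z' ρ'‖ ≤ 12 * ρ * D * M := by
    rw [norm_smul, Real.norm_eq_abs]
    exact mul_le_mul k4 k3 (norm_nonneg _) (by positivity)
  have k6 : M * (4 * ρ ^ 2 - 4 * (ρ - 2 * D) ^ 2) ≤ M * (16 * ρ * D) :=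
    mul_le_mul_of_nonneg_left (by nlinarith) hM0
  have k7 : M * (4 * ρ' ^ 2 - 4 * (ρ - 2 * D) ^ 2) ≤ M * (24 * ρ * D) :=
    mul_le_mul_of_nonneg_left (by nlinarith) hM0
  rw [e, norm_smul, norm_inv, Real.norm_eq_abs, abs_of_pos (by positivity),
    inv_mul_le_iff₀ (by positivity)]
  refine ((norm_add_le _ _).trans (add_le_add_left (norm_sub_le _ _) _)).trans ?_
  have : 4 * ρ ^ 2 * (13 * M * D / ρ) = 52 * ρ * D * M := by field_simp; ring
  rw [this]
  linarith

omit [CompleteSpace E] in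
/-- The derivative of the averages along a segment of centres and radii. -/
lemma hasDerivAt_av {f : R2 → E} (hf : ContDiff ℝ 1 f) (z d : R2) (ρ δ τ : ℝ) :
    HasDerivAt (fun τ : ℝ => av f (z + τ • d) (ρ + τ * δ))
      ((1 / 4 : ℝ) • ∫ ω in closedBall (0 : R2) 1,
        fderiv ℝ f (z + τ • d + (ρ + τ * δ) • ω) (d + δ • ω)) τ := by
  have hc := hf.continuous
  have hc' := hf.continuous_fderiv (by norm_num)
  have hd : Differentiable ℝ f := hf.differentiable (by norm_num)
  have hG : Continuous fun p : ℝ × R2 =>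
      fderiv ℝ f (z + p.1 • d + (ρ + p.1 * δ) • p.2) (d + δ • p.2) := by fun_prop
  obtain ⟨B, hB⟩ := ((isCompact_closedBall τ 1).prod
    (isCompact_closedBall (0 : R2) 1)).exists_bound_of_continuousOn hG.continuousOn
  refine HasDerivAt.const_smul (1 / 4 : ℝ) ?_
  refine (hasDerivAt_integral_of_dominated_loc_of_deriv_le
    (μ := volume.restrict (closedBall (0 : R2) 1)) (s := closedBall τ 1)
    (F := fun τ ω => f (z + τ • d + (ρ + τ * δ) • ω))
    (F' := fun τ ω => fderiv ℝ f (z + τ • d + (ρ + τ * δ) • ω) (d + δ • ω))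
    (bound := fun _ => B) (closedBall_mem_nhds τ one_pos)
    (Eventually.of_forall fun x => (by fun_prop : Continuous _).aestronglyMeasurable)
    (intOn (by fun_prop) 0 1) (by fun_prop : Continuous _).aestronglyMeasurable ?_
    (intOn continuous_const 0 1) (Eventually.of_forall fun ω x _ => ?_)).2
  · filter_upwards [ae_restrict_mem measurableSet_closedBall] with ω hω x hx
    exact hB (x, ω) ⟨hx, hω⟩
  · have h1 : HasDerivAt (fun τ : ℝ => z + τ • d + (ρ + τ * δ) • ω) (d + δ • ω) x := by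
      have a1 : HasDerivAt (fun τ : ℝ => z + τ • d) d x := by
        simpa using ((hasDerivAt_id x).smul_const d).const_add z
      have a2 : HasDerivAt (fun τ : ℝ => (ρ + τ * δ) • ω) (δ • ω) x := by
        simpa using (((hasDerivAt_id x).mul_const δ).const_add ρ).smul_const ω
      exact a1.add a2
    exact (hd _).hasFDerivAt.comp_hasDerivAt x h1

end Av

end L3

end Pool.Agent.MP_7f5071_gt
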