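import Mathlib.Data.Int.Star
import Mathlib.Algebra.Order.Ring.Star
import Mathlib.LinearAlgebra.AffineSpace.FiniteDimensional
import Mathlib.Topology.EMetricSpace.Paracompact
import Mathlib.Analysis.Convex.PartitionOfUnity
import Mathlib.RingTheory.PiTensorProduct
import Pool.Agent.MP_7f5071_gt.Spec
import Pool.Agent.MP_7f5071_gt.L3A
import Pool.Agent.MP_7f5071_gt.L1.Base

-- ======== part 0: formerly Pool.Agent.MP_7f5071_gt.Asm
section MrgPart0

/-! Module ASM: assembly of the inverse sequence. -/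

namespace Pool.Agent.MP_7f5071_gt

open Filter Topology Set Metric

universe u

namespace Asm

variable {X : Type u} [MetricSpace X]

lemma geod_ind (hX : Geodesic X) {c : ℝ} (hc : 0 < c) (R : X → X → Prop)
    (h0 : ∀ x y, dist x y ≤ c → R x y)
    (h1 : ∀ x z y, dist x z + dist z y = dist x y → R x z → R z y → R x y) (x y : X) : R x y := by
  have key : ∀ n : ℕ, ∀ x y, dist x y ≤ n * c → R x y := by
    intro n
    induction n with
    | zero => intro x y h; exact h0 x y (by simp at h; simp [h, hc.le])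
    | succ n ih =>
      intro x y h
      by_cases hd : dist x y ≤ c
      · exact h0 x y hd
      · push Not at hd
        obtain ⟨γ, hγ⟩ := hX x y
        have e1 : dist x (γ c) = c := by
          have := hγ.iso 0 ⟨le_rfl, dist_nonneg⟩ c ⟨hc.le, hd.le⟩
          rw [hγ.src] at this
          rw [this, zero_sub, abs_neg, abs_of_pos hc]
        have e2 : dist (γ c) y = dist x y - c := by
          have := hγ.iso c ⟨hc.le, hd.le⟩ (dist x y) ⟨dist_nonneg, le_rfl⟩
          rw [hγ.tgt] at this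
          rw [this, abs_sub_comm, abs_of_pos (by linarith)]
        refine h1 x (γ c) y (by rw [e1, e2]; ring) (h0 _ _ e1.le) (ih _ _ ?_)
        rw [e2]
        push_cast at h
        linarith
  obtain ⟨n, hn⟩ := exists_nat_ge (dist x y / c)
  exact key n x y (by rwa [div_le_iff₀ hc] at hn)

/-- The abstract inverse limit lemma. -/
lemma inverse_limit [CompactSpace X] (P : ℕ → Type) [∀ n, MetricSpace (P n)]
    [∀ n, CompactSpace (P n)] (f : ∀ n, P (n + 1) → P n) (hf : ∀ n, LipschitzWith 1 (f n))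
    (g : ∀ n, X → P n) (hg : ∀ n x y, dist (g n x) (g n y) ≤ dist x y)
    (hfg : ∀ n x, dist (f n (g (n + 1) x)) (g n x) ≤ (1 / 2 : ℝ) ^ n)
    (r : ℕ → ℝ) (hr : Tendsto r atTop (𝓝 0)) (hnet : ∀ n p, ∃ x, dist p (g n x) ≤ r n)
    (hlow : ∀ x y, Tendsto (fun n => dist (g n x) (g n y)) atTop (𝓝 (dist x y))) :
    ∃ Ψ : X → ∀ n, P n, (∀ x n, f n (Ψ x (n + 1)) = Ψ x n) ∧
      (∀ p : ∀ n, P n, (∀ n, f n (p (n + 1)) = p n) → ∃ x, Ψ x = p) ∧
      ∀ x y, Tendsto (fun n => dist (Ψ x n) (Ψ y n)) atTop (𝓝 (dist x y)) := by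
  classical
  have hf' : ∀ n a b, dist (f n a) (f n b) ≤ dist a b := fun n a b => by
    simpa using (hf n).dist_le_mul a b
  have hhalf : Tendsto (fun n : ℕ => (1 / 2 : ℝ) ^ n) atTop (𝓝 0) :=
    tendsto_pow_atTop_nhds_zero_of_lt_one (by norm_num) (by norm_num)
  have hex : ∀ x, ∃ p : ∀ n, P n, (∀ n, f n (p (n + 1)) = p n) ∧
      ∀ n, dist (p n) (g n x) ≤ 2 * (1 / 2 : ℝ) ^ n := by
    intro x
    have hA : ∀ m, ∀ q : P m, ∃ p : ∀ n, P n, p m = q ∧ ∀ n < m, f n (p (n + 1)) = p n := by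
      intro m
      induction m with
      | zero => intro q; exact ⟨Function.update (fun n => g n x) 0 q, by simp, by simp⟩
      | succ m ih =>
        intro q
        obtain ⟨p, hp, hp'⟩ := ih (f m q)
        refine ⟨Function.update p (m + 1) q, by simp, ?_⟩
        intro n hn
        rcases Nat.lt_succ_iff_lt_or_eq.1 hn with h | rfl
        · rw [Function.update_of_ne (by omega), Function.update_of_ne (by omega)]
          exact hp' n h
        · rw [Function.update_self, Function.update_of_ne (by omega), hp]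
    let S : ℕ → Set (∀ n, P n) := fun m =>
      {p | (∀ n < m, f n (p (n + 1)) = p n) ∧ ∀ n ≤ m, dist (p n) (g n x) ≤ 2 * (1 / 2 : ℝ) ^ n}
    have hcl : ∀ m, IsClosed (S m) := by
      intro m
      have : S m = (⋂ n, ⋂ _ : n < m, {p : ∀ n, P n | f n (p (n + 1)) = p n}) ∩
          ⋂ n, ⋂ _ : n ≤ m, {p : ∀ n, P n | dist (p n) (g n x) ≤ 2 * (1 / 2 : ℝ) ^ n} := by
        ext p; simp [S]
      rw [this]
      refine IsClosed.inter (isClosed_iInter fun n => isClosed_iInter fun _ => ?_)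
        (isClosed_iInter fun n => isClosed_iInter fun _ => ?_)
      · exact isClosed_eq ((hf n).continuous.comp (continuous_apply _)) (continuous_apply _)
      · exact isClosed_le ((continuous_apply n).dist continuous_const) continuous_const
    have hne : ∀ m, (S m).Nonempty := by
      intro m
      obtain ⟨p, hp, hp'⟩ := hA m (g m x)
      refine ⟨p, hp', ?_⟩
      have : ∀ k n, n + k = m → dist (p n) (g n x) ≤ 2 * (1 / 2 : ℝ) ^ n := by
        intro k
        induction k with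
        | zero =>
          intro n hn
          obtain rfl : n = m := hn
          rw [hp, dist_self]
          positivity
        | succ k ih =>
          intro n hn
          have h1 := ih (n + 1) (by omega)
          have h2 := dist_triangle (p n) (f n (g (n + 1) x)) (g n x)
          have h3 := hf' n (p (n + 1)) (g (n + 1) x)
          rw [hp' n (by omega)] at h3
          have h4 := hfg n x
          rw [pow_succ] at h1
          linarith
      intro n hn
      exact this (m - n) n (by omega)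
    obtain ⟨p, hp⟩ := IsCompact.nonempty_iInter_of_sequence_nonempty_isCompact_isClosed S
      (fun m p hp => ⟨fun n hn => hp.1 n (by omega), fun n hn => hp.2 n (by omega)⟩) hne
      (hcl 0).isCompact hcl
    rw [mem_iInter] at hp
    exact ⟨p, fun n => (hp (n + 1)).1 n (by omega), fun n => (hp n).2 n le_rfl⟩
  choose Ψ hΨ hΨd using hex
  refine ⟨Ψ, hΨ, ?_, ?_⟩
  · intro p hp
    choose xs hxs using fun n => hnet n (p n)
    obtain ⟨x, -, φ, hφ, hx⟩ := isCompact_univ.tendsto_subseq (x := xs) (fun _ => mem_univ _)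
    refine ⟨x, funext fun n => ?_⟩
    have hmono : ∀ k, dist (Ψ x n) (p n) ≤ dist (Ψ x (n + k)) (p (n + k)) := by
      intro k
      induction k with
      | zero => exact le_rfl
      | succ k ih =>
        have := hf' (n + k) (Ψ x (n + k + 1)) (p (n + k + 1))
        rw [hΨ, hp] at this
        exact ih.trans this
    have hb : ∀ m, n ≤ m → dist (Ψ x n) (p n) ≤ 2 * (1 / 2 : ℝ) ^ m + dist x (xs m) + r m := by
      intro m hm
      obtain ⟨k, rfl⟩ := Nat.exists_eq_add_of_le hm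
      have h1 := dist_triangle4 (Ψ x (n + k)) (g _ x) (g _ (xs (n + k))) (p (n + k))
      have h2 := hΨd x (n + k)
      have h3 := hg (n + k) x (xs (n + k))
      have h4 := hxs (n + k)
      rw [dist_comm] at h4
      linarith [hmono k]
    have hlim : Tendsto (fun j => 2 * (1 / 2 : ℝ) ^ φ j + dist x (xs (φ j)) + r (φ j)) atTop
        (𝓝 (2 * 0 + dist x x + 0)) :=
      (((hhalf.comp hφ.tendsto_atTop).const_mul 2).add (tendsto_const_nhds.dist hx)).add
        (hr.comp hφ.tendsto_atTop)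
    rw [dist_self] at hlim
    have : dist (Ψ x n) (p n) ≤ 2 * 0 + 0 + 0 :=
      ge_of_tendsto hlim ((eventually_ge_atTop n).mono fun j hj =>
        hb _ (hj.trans (hφ.id_le j)))
    exact dist_le_zero.1 (by simpa using this)
  · intro x y
    have h4 : Tendsto (fun n : ℕ => 4 * (1 / 2 : ℝ) ^ n) atTop (𝓝 (4 * 0)) := hhalf.const_mul 4
    have hl := (hlow x y).sub h4
    have hu := (hlow x y).add h4
    simp only [mul_zero, sub_zero, add_zero] at hl hu
    refine tendsto_of_tendsto_of_tendsto_of_le_of_le hl hu (fun n => ?_) (fun n => ?_)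
    · have h1 := dist_triangle4 (g n x) (Ψ x n) (Ψ y n) (g n y)
      have h2 := hΨd x n
      have h3 := hΨd y n
      rw [dist_comm] at h2
      show _ - _ ≤ _
      linarith
    · have h1 := dist_triangle4 (Ψ x n) (g n x) (g n y) (Ψ y n)
      have h2 := hΨd x n
      have h3 := hΨd y n
      rw [dist_comm] at h3
      show _ ≤ _ + _
      linarith

/-- A locally planar short map. -/
structure Pre (X : Type u) [MetricSpace X] where
  N : ℕ
  ψ : X → V N
  L : ℝ
  ρ : ℝ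
  L0 : 0 ≤ L
  L1 : L < 1
  lip : Lip L ψ
  ρpos : 0 < ρ
  plan : ∀ x, InPlane ψ (ball x ρ)

/-- The relation between consecutive levels. -/
structure Rel (a b : Pre X) (k : ℕ) (π : V b.N →ₗ[ℝ] V a.N) (δ : ℝ) : Prop where
  nrm : ∀ v, ‖π v‖ ≤ ‖v‖
  ρ8 : b.ρ ≤ a.ρ / 8
  ρk : b.ρ ≤ (1 / 2 : ℝ) ^ k
  Leq : b.L = (1 + a.L) / 2
  δ8 : δ ≤ a.ρ / 8
  δk : δ ≤ (1 / 2 : ℝ) ^ k
  near : ∀ x, ‖π (b.ψ x) - a.ψ x‖ ≤ δ ∧ π (b.ψ x) ∈ affineSpan ℝ (a.ψ '' ball x δ)
  low : ∀ x y, a.L * (dist x y - 2 * (1 / 2 : ℝ) ^ k) - 2 * (1 / 2 : ℝ) ^ k ≤ ‖b.ψ x - b.ψ y‖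

lemma exists_net [CompactSpace X] {ε : ℝ} (hε : 0 < ε) :
    ∃ (m : ℕ) (z : Fin m → X), ∀ x, ∃ j, dist x (z j) < ε := by
  obtain ⟨t, -, htf, ht⟩ := finite_cover_balls_of_compact (isCompact_univ (X := X)) hε
  obtain ⟨m, z, hz⟩ := htf.fin_embedding
  refine ⟨m, z, fun x => ?_⟩
  obtain ⟨y, hy, hxy⟩ := mem_iUnion₂.1 (ht (mem_univ x))
  rw [← hz] at hy
  obtain ⟨j, rfl⟩ := hy
  exact ⟨j, hxy⟩

lemma map_mem_affineSpan {N M : ℕ} (π : V M →ₗ[ℝ] V N) {s : Set (V M)}
    {W : AffineSubspace ℝ (V N)} (h : ∀ v ∈ s, π v ∈ W) {v : V M} (hv : v ∈ affineSpan ℝ s) :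
    π v ∈ W := by
  have : affineSpan ℝ s ≤ W.comap π.toAffineMap := affineSpan_le.2 h
  exact this hv

lemma step [CompactSpace X] (h3 : StarStmt.{u}) (hX : IsDisc X) (a : Pre X) (k : ℕ) :
    ∃ (b : Pre X) (π : V b.N →ₗ[ℝ] V a.N) (δ : ℝ), Rel a b k π δ := by
  have hε : (0 : ℝ) < (1 / 2) ^ k := by positivity
  obtain ⟨m, z, hz⟩ := exists_net (X := X) hε
  let F : X → V (a.N + m) := fun x => Fin.append (a.ψ x) (fun j => a.L * dist x (z j))
  let π : V (a.N + m) →ₗ[ℝ] V a.N := LinearMap.funLeft ℝ ℝ (Fin.castAdd m)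
  have hπ : ∀ v, ‖π v‖ ≤ ‖v‖ := fun v =>
    (pi_norm_le_iff_of_nonneg (norm_nonneg _)).2 fun i => norm_le_pi_norm v _
  have hπF : ∀ x, π (F x) = a.ψ x := fun x => by
    ext i
    simp [π, F, LinearMap.funLeft_apply]
  have hF : Lip a.L F := by
    intro x y
    refine (pi_norm_le_iff_of_nonneg (mul_nonneg a.L0 dist_nonneg)).2 fun i => ?_
    refine Fin.addCases (fun i => ?_) (fun j => ?_) i
    · simp only [F, Pi.sub_apply, Fin.append_left]
      exact (norm_le_pi_norm (a.ψ x - a.ψ y) i).trans (a.lip x y)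
    · simp only [F, Pi.sub_apply, Fin.append_right]
      rw [← mul_sub, Real.norm_eq_abs, abs_mul, abs_of_nonneg a.L0]
      exact mul_le_mul_of_nonneg_left (abs_dist_sub_le x y (z j)) a.L0
  have hδ : 0 < min (a.ρ / 8) ((1 / 2 : ℝ) ^ k) := lt_min (by linarith [a.ρpos]) hε
  obtain ⟨H, hH, hnear, hpl⟩ := h3 X hX _ F a.L a.L0 a.L1.le hF ((1 - a.L) / 2)
    (by linarith [a.L1]) _ hδ
  choose r hr hpl using hpl
  obtain ⟨ρ, hρ, hleb⟩ := lebesgue_number_lemma_of_metric (isCompact_univ (X := X))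
    (c := fun x => ball x (r x)) (fun x => isOpen_ball)
    (fun x _ => mem_iUnion.2 ⟨x, mem_ball_self (hr x)⟩)
  refine ⟨⟨a.N + m, H, (1 + a.L) / 2, min ρ (min (a.ρ / 8) ((1 / 2 : ℝ) ^ k)),
    by linarith [a.L0], by linarith [a.L1], ?_, lt_min hρ hδ, ?_⟩, π, _,
    ⟨hπ, (min_le_right _ _).trans (min_le_left _ _), (min_le_right _ _).trans (min_le_right _ _),
      rfl, min_le_left _ _, min_le_right _ _, ?_, ?_⟩⟩
  · intro x y
    have := hH x y
    rwa [show a.L + (1 - a.L) / 2 = (1 + a.L) / 2 by ring] at this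
  · intro x
    obtain ⟨x', hx'⟩ := hleb x (mem_univ x)
    obtain ⟨c, v, w, h⟩ := hpl x'
    exact ⟨c, v, w, fun y hy => h y (hx' (ball_subset_ball (min_le_left _ _) hy))⟩
  · intro x
    refine ⟨?_, map_mem_affineSpan π ?_ (hnear x).2⟩
    · show ‖π (H x) - a.ψ x‖ ≤ _
      rw [← hπF, ← map_sub]
      exact (hπ _).trans (hnear x).1
    · rintro _ ⟨y, hy, rfl⟩
      rw [hπF]
      exact subset_affineSpan _ _ ⟨y, hy, rfl⟩
  · intro x y
    show _ ≤ ‖H x - H y‖
    obtain ⟨j, hj⟩ := hz x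
    have h1 := norm_le_pi_norm (F y - F x) (Fin.natAdd a.N j)
    simp only [F, Pi.sub_apply, Fin.append_right] at h1
    rw [← mul_sub, Real.norm_eq_abs, abs_mul, abs_of_nonneg a.L0] at h1
    have h2 : dist x y - 2 * (1 / 2 : ℝ) ^ k ≤ |dist y (z j) - dist x (z j)| := by
      have := dist_triangle_right x y (z j)
      linarith [le_abs_self (dist y (z j) - dist x (z j))]
    have h3 := mul_le_mul_of_nonneg_left h2 a.L0
    have h4 : ‖F y - F x‖ ≤ ‖H x - H y‖ + ‖H x - F x‖ + ‖H y - F y‖ := by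
      have e : F y - F x = (H x - F x) - (H y - F y) - (H x - H y) := by abel
      rw [e]
      have := norm_sub_le ((H x - F x) - (H y - F y)) (H x - H y)
      have := norm_sub_le (H x - F x) (H y - F y)
      linarith
    have h5 := (hnear x).1.trans (min_le_right _ _)
    have h6 := (hnear y).1.trans (min_le_right _ _)
    exact le_trans (by linarith) (le_refl ‖H x - H y‖)

/-- The convex pieces of a level. -/
def Q (a : Pre X) (c : X) : Set (V a.N) :=
  (affineSpan ℝ (a.ψ '' ball c a.ρ) : Set (V a.N)) ∩ closedBall (a.ψ c) (2 * a.ρ)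

lemma mem_Q (a : Pre X) {c y : X} (h : dist y c < a.ρ) : a.ψ y ∈ Q a c := by
  refine ⟨subset_affineSpan _ _ ⟨y, h, rfl⟩, ?_⟩
  rw [mem_closedBall, dist_eq_norm]
  have h1 := a.lip y c
  have h2 := mul_le_mul_of_nonneg_right a.L1.le (dist_nonneg (x := y) (y := c))
  linarith [a.ρpos]

lemma poly_of_pre [CompactSpace X] (h1 : TriStmt) (h2 : PolyStmt) (hX : Geodesic X) (a : Pre X) :
    ∃ (n : ℕ) (c : Fin n → X) (P : Type) (_ : MetricSpace P) (_ : CompactSpace P)
      (e : P → V a.N), (∀ x, ∃ i, dist x (c i) < a.ρ / 2) ∧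
      IsMinkowskiPolyhedron 2 P ∧ range e = ⋃ i, Q a (c i) ∧
      (∀ p q, ‖e p - e q‖ ≤ dist p q) ∧
      (∀ i p q, e p ∈ Q a (c i) → e q ∈ Q a (c i) → dist p q = ‖e p - e q‖) ∧
      ∀ (Y : Type) [MetricSpace Y] (f : P → Y),
        (∀ i p q, e p ∈ Q a (c i) → e q ∈ Q a (c i) → dist (f p) (f q) ≤ ‖e p - e q‖) →
        LipschitzWith 1 f := by
  have hρ := a.ρpos
  obtain ⟨n, c, hc⟩ := exists_net (X := X) (half_pos hρ)
  obtain ⟨K, hK1, hK2, hK3, hK4⟩ := h1 a.N n (fun i => affineSpan ℝ (a.ψ '' ball (c i) a.ρ))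
    (fun i => a.ψ (c i)) (fun _ => 2 * a.ρ) (by
      intro i
      obtain ⟨p, v, w, h⟩ := a.plan (c i)
      refine ⟨p, v, w, fun y hy => ?_⟩
      have : affineSpan ℝ (a.ψ '' ball (c i) a.ρ) ≤
          AffineSubspace.mk' p (Submodule.span ℝ {v, w}) := by
        rw [affineSpan_le]
        rintro _ ⟨x, hx, rfl⟩
        obtain ⟨s, t, hst⟩ := h x hx
        rw [SetLike.mem_coe, AffineSubspace.mem_mk', Submodule.mem_span_pair]
        exact ⟨s, t, by rw [hst, vsub_eq_sub]; abel⟩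
      have h' := this hy
      rw [AffineSubspace.mem_mk', Submodule.mem_span_pair] at h'
      obtain ⟨s, t, hst⟩ := h'
      rw [vsub_eq_sub] at hst
      exact ⟨s, t, by rw [add_assoc, hst]; abel⟩)
  obtain ⟨P, iP, cP, e, hP, -, he, hle, heq, huniv⟩ := h2 a.N n (fun i => Q a (c i)) K
    (fun i => (isCompact_closedBall _ _).inter_left
      (AffineSubspace.closed_of_finiteDimensional _))
    (fun i => (AffineSubspace.convex _).inter (convex_closedBall _ _)) hK1 hK2 hK3 hK4 (by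
      intro p hp q hq
      obtain ⟨i, hi⟩ := mem_iUnion.1 hp
      obtain ⟨j, hj⟩ := mem_iUnion.1 hq
      have hmid := geod_ind hX (c := a.ρ / 4) (by linarith)
        (fun x y => Relation.ReflTransGen (fun s t => ∃ i, s ∈ Q a (c i) ∧ t ∈ Q a (c i))
          (a.ψ x) (a.ψ y)) (by
          intro x y hxy
          obtain ⟨l, hl⟩ := hc x
          refine Relation.ReflTransGen.single ⟨l, mem_Q a (by linarith), mem_Q a ?_⟩
          have := dist_triangle_left y (c l) x
          linarith) (fun x z y _ h h' => h.trans h') (c i) (c j)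
      exact Relation.ReflTransGen.head ⟨i, hi, mem_Q a (y := c i) (by simpa using hρ)⟩
        (hmid.tail ⟨j, mem_Q a (y := c j) (by simpa using hρ), hj⟩))
  exact ⟨n, c, P, iP, cP, e, hc, hP, he, hle, heq, huniv⟩

lemma Rel.near_mem {a b : Pre X} {k : ℕ} {π : V b.N →ₗ[ℝ] V a.N} {δ : ℝ} (h : Rel a b k π δ)
    {c y : X} (hy : dist y c < 3 * a.ρ / 4) :
    π (b.ψ y) ∈ affineSpan ℝ (a.ψ '' ball c a.ρ) := by
  refine affineSpan_mono ℝ (image_mono ?_) (h.near y).2
  intro w hw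
  rw [mem_ball] at hw ⊢
  have := dist_triangle w y c
  linarith [h.δ8, a.ρpos]

lemma Rel.map_Q {a b : Pre X} {k : ℕ} {π : V b.N →ₗ[ℝ] V a.N} {δ : ℝ} (h : Rel a b k π δ)
    {c c' : X} (hc : dist c' c < a.ρ / 2) {v : V b.N} (hv : v ∈ Q b c') : π v ∈ Q a c := by
  have hρ := a.ρpos
  refine ⟨map_mem_affineSpan π ?_ hv.1, ?_⟩
  · rintro _ ⟨y, hy, rfl⟩
    refine h.near_mem ?_
    rw [mem_ball] at hy
    have := dist_triangle y c' c
    linarith [h.ρ8]
  · have h1 := hv.2
    rw [mem_closedBall, dist_eq_norm] at h1 ⊢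
    have h2 := h.nrm (v - b.ψ c')
    have h3 := (h.near c').1
    have h4 := a.lip c' c
    have h5 := mul_le_mul_of_nonneg_right a.L1.le (dist_nonneg (x := c') (y := c))
    have e : π v - a.ψ c = π (v - b.ψ c') + (π (b.ψ c') - a.ψ c') + (a.ψ c' - a.ψ c) := by
      rw [map_sub]; abel
    rw [e]
    have := norm_add₃_le (a := π (v - b.ψ c')) (b := π (b.ψ c') - a.ψ c') (c := a.ψ c' - a.ψ c)
    linarith [h.ρ8, h.δ8]

end Asm

open Asm in
theorem asm (h1 : TriStmt) (h2 : PolyStmt) (h3 : StarStmt.{u}) : AsmStmt.{u} := by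
  intro X _ _ hX
  choose nx π δ hrel using fun (a : Pre X) (k : ℕ) => step h3 hX a k
  let a0 : Pre X := ⟨0, fun _ => 0, 0, 1, le_rfl, one_pos, fun x y => by simp, one_pos,
    fun x => ⟨0, 0, 0, fun y _ => ⟨0, 0, by simp⟩⟩⟩
  let A : ℕ → Pre X := fun n => Nat.rec a0 (fun k a => nx a k) n
  have hR : ∀ n, Rel (A n) (A (n + 1)) n (π (A n) n) (δ (A n) n) := fun n => hrel (A n) n
  choose m c P iP cP e hc hP he hle heq huniv using fun n => poly_of_pre h1 h2 hX.geod (A n)
  have hg : ∀ n x, ∃ p : P n, e n p = (A n).ψ x := by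
    intro n x
    obtain ⟨i, hi⟩ := hc n x
    have : (A n).ψ x ∈ range (e n) := by
      rw [he]
      exact mem_iUnion.2 ⟨i, mem_Q _ (by linarith [(A n).ρpos])⟩
    exact this
  choose g hg using hg
  have hf : ∀ n (p : P (n + 1)), ∃ q : P n, e n q = π (A n) n (e (n + 1) p) := by
    intro n p
    have h : e (n + 1) p ∈ range (e (n + 1)) := mem_range_self p
    rw [he] at h
    obtain ⟨j, hj⟩ := mem_iUnion.1 h
    obtain ⟨i, hi⟩ := hc n (c (n + 1) j)
    have : π (A n) n (e (n + 1) p) ∈ range (e n) := by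
      rw [he]
      exact mem_iUnion.2 ⟨i, (hR n).map_Q hi hj⟩
    exact this
  choose f hf using hf
  have hfl : ∀ n, LipschitzWith 1 (f n) := by
    intro n
    refine huniv (n + 1) (P n) (f n) ?_
    intro j p q hp hq
    obtain ⟨i, hi⟩ := hc n (c (n + 1) j)
    rw [heq n i _ _ (by rw [hf]; exact (hR n).map_Q hi hp) (by rw [hf]; exact (hR n).map_Q hi hq),
      hf, hf, ← map_sub]
    exact (hR n).nrm _
  have hgl : ∀ n x y, dist (g n x) (g n y) ≤ dist x y := by
    intro n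
    have hρ := (A n).ρpos
    refine geod_ind hX.geod (c := (A n).ρ / 4) (by linarith) _ ?_ ?_
    · intro x y hxy
      obtain ⟨i, hi⟩ := hc n x
      have := dist_triangle_left y (c n i) x
      rw [heq n i _ _ (by rw [hg]; exact mem_Q _ (by linarith))
        (by rw [hg]; exact mem_Q _ (by linarith)), hg, hg]
      have h4 := (A n).lip x y
      have h5 := mul_le_mul_of_nonneg_right (A n).L1.le (dist_nonneg (x := x) (y := y))
      linarith
    · intro x z y hd h h'
      linarith [dist_triangle (g n x) (g n z) (g n y)]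
  have hhalf : Tendsto (fun n : ℕ => (1 / 2 : ℝ) ^ n) atTop (𝓝 0) :=
    tendsto_pow_atTop_nhds_zero_of_lt_one (by norm_num) (by norm_num)
  have hL : ∀ n, (A n).L = 1 - (1 / 2 : ℝ) ^ n := by
    intro n
    induction n with
    | zero => simp [A, a0]
    | succ n ih => rw [(hR n).Leq, ih, pow_succ]; ring
  refine ⟨P, iP, f, hP, hfl, inverse_limit P f hfl g hgl ?_ (fun n => 2 * (A n).ρ) ?_ ?_ ?_⟩
  · intro n x
    have hρ := (A n).ρpos
    obtain ⟨i, hi⟩ := hc n x
    rw [heq n i _ _ ?_ (by rw [hg]; exact mem_Q _ (by linarith)), hf, hg, hg]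
    · exact ((hR n).near x).1.trans (hR n).δk
    · rw [hf, hg]
      exact (hR n).map_Q hi (mem_Q _ (by simpa using (A (n + 1)).ρpos))
  · rw [← tendsto_add_atTop_iff_nat 1]
    have := hhalf.const_mul 2
    rw [mul_zero] at this
    refine squeeze_zero (fun n => by linarith [(A (n + 1)).ρpos]) (fun n => ?_) this
    linarith [(hR n).ρk]
  · intro n p
    have h : e n p ∈ range (e n) := mem_range_self p
    rw [he] at h
    obtain ⟨i, hi⟩ := mem_iUnion.1 h
    refine ⟨c n i, ?_⟩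
    rw [heq n i _ _ hi (by rw [hg]; exact mem_Q _ (by simpa using (A n).ρpos)), hg,
      ← dist_eq_norm]
    exact hi.2
  · intro x y
    rw [← tendsto_add_atTop_iff_nat 1]
    have hl : Tendsto (fun n : ℕ => (1 - (1 / 2 : ℝ) ^ n) * (dist x y - 2 * (1 / 2 : ℝ) ^ n)
        - 2 * (1 / 2 : ℝ) ^ n) atTop (𝓝 ((1 - 0) * (dist x y - 2 * 0) - 2 * 0)) :=
      ((tendsto_const_nhds.sub hhalf).mul (tendsto_const_nhds.sub (hhalf.const_mul 2))).sub
        (hhalf.const_mul 2)
    simp only [mul_zero, sub_zero, one_mul] at hl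
    refine tendsto_of_tendsto_of_tendsto_of_le_of_le hl tendsto_const_nhds (fun n => ?_)
      (fun n => hgl _ x y)
    have h4 := (hR n).low x y
    have h5 := hle (n + 1) (g (n + 1) x) (g (n + 1) y)
    rw [hg, hg] at h5
    rw [hL] at h4
    exact h4.trans h5

end Pool.Agent.MP_7f5071_gt

end MrgPart0

-- ======== part 1: formerly Pool.Agent.MP_7f5071_gt.Tri
section MrgPart1

/-! Module TRI: barycentric triangulation of a finite union of bounded polyhedral sets. -/

namespace Pool.Agent.MP_7f5071_gt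

open Set Metric

namespace Tri

variable {E : Type*} [NormedAddCommGroup E] [NormedSpace ℝ E]

/-- The functionals of the family that are positive at `x`. -/
noncomputable def pos (Φ : Finset (E →ᵃ[ℝ] ℝ)) (x : E) : Finset (E →ᵃ[ℝ] ℝ) := by
  classical exact Φ.filter fun f => 0 < f x

theorem mem_pos {Φ : Finset (E →ᵃ[ℝ] ℝ)} {x : E} {f : E →ᵃ[ℝ] ℝ} :
    f ∈ pos Φ x ↔ f ∈ Φ ∧ 0 < f x := by
  classical
  simp [pos]

theorem pos_subset (Φ : Finset (E →ᵃ[ℝ] ℝ)) (x : E) : pos Φ x ⊆ Φ :=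
  fun _ hf => (mem_pos.1 hf).1

theorem nonpos_of_sub {Φ : Finset (E →ᵃ[ℝ] ℝ)} {x y : E} (h : pos Φ x ⊆ pos Φ y)
    {f : E →ᵃ[ℝ] ℝ} (hf : f ∈ Φ) (hy : f y ≤ 0) : f x ≤ 0 := by
  by_contra hx
  have := (mem_pos.1 (h (mem_pos.2 ⟨hf, not_le.1 hx⟩))).2
  linarith

theorem nonneg_of_sub {Φ : Finset (E →ᵃ[ℝ] ℝ)} (hneg : ∀ f ∈ Φ, -f ∈ Φ) {x y : E}
    (h : pos Φ x ⊆ pos Φ y) {f : E →ᵃ[ℝ] ℝ} (hf : f ∈ Φ) (hy : 0 ≤ f y) : 0 ≤ f x := by
  have := nonpos_of_sub h (hneg f hf) (by simpa using hy)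
  simpa using this

/-- The base point of a sign class. -/
noncomputable def base (Φ : Finset (E →ᵃ[ℝ] ℝ)) (s : Finset (E →ᵃ[ℝ] ℝ)) : E := by
  classical exact if h : ∃ x, pos Φ x = s then h.choose else 0

theorem pos_base (Φ : Finset (E →ᵃ[ℝ] ℝ)) (x : E) : pos Φ (base Φ (pos Φ x)) = pos Φ x := by
  classical
  have h : ∃ y, pos Φ y = pos Φ x := ⟨x, rfl⟩
  simp only [base, dif_pos h]
  exact h.choose_spec

/-- A finite set of base points of `U` that is totally ordered by the sign classes. -/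
def IsCh (Φ : Finset (E →ᵃ[ℝ] ℝ)) (U : Set E) (T : Finset E) : Prop :=
  (∀ v ∈ T, v ∈ U ∧ base Φ (pos Φ v) = v) ∧
    ∀ v ∈ T, ∀ w ∈ T, pos Φ v ⊆ pos Φ w ∨ pos Φ w ⊆ pos Φ v

theorem IsCh.mono {Φ : Finset (E →ᵃ[ℝ] ℝ)} {U : Set E} {S T : Finset E} (h : IsCh Φ U T)
    (hS : S ⊆ T) : IsCh Φ U S :=
  ⟨fun v hv => h.1 v (hS hv), fun v hv w hw => h.2 v (hS hv) w (hS hw)⟩

theorem IsCh.top {Φ : Finset (E →ᵃ[ℝ] ℝ)} {U : Set E} {T : Finset E} (h : IsCh Φ U T)
    (hne : T.Nonempty) : ∃ s ∈ T, ∀ v ∈ T, pos Φ v ⊆ pos Φ s := by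
  obtain ⟨s, hs, hmax⟩ := T.exists_max_image (fun v => (pos Φ v).card) hne
  refine ⟨s, hs, fun v hv => ?_⟩
  rcases h.2 v hv s hs with h1 | h1
  · exact h1
  · exact (Finset.eq_of_subset_of_card_le h1 (hmax v hv)).ge

theorem IsCh.sum_pos_iff {Φ : Finset (E →ᵃ[ℝ] ℝ)} (hneg : ∀ f ∈ Φ, -f ∈ Φ) {U : Set E}
    {T : Finset E} (h : IsCh Φ U T) (hne : T.Nonempty) (d : E → ℝ) (hd : ∀ v ∈ T, 0 < d v) :
    ∃ s ∈ T, ∀ f ∈ Φ, (0 < ∑ v ∈ T, d v * f v ↔ 0 < f s) := by
  obtain ⟨s, hs, htop⟩ := h.top hne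
  refine ⟨s, hs, fun f hf => ⟨fun hsum => ?_, fun hp => ?_⟩⟩
  · by_contra hn
    have : ∑ v ∈ T, d v * f v ≤ 0 := Finset.sum_nonpos fun v hv =>
      mul_nonpos_of_nonneg_of_nonpos (hd v hv).le (nonpos_of_sub (htop v hv) hf (not_lt.1 hn))
    linarith
  · exact Finset.sum_pos' (fun v hv => mul_nonneg (hd v hv).le
      (nonneg_of_sub hneg (htop v hv) hf hp.le)) ⟨s, hs, mul_pos (hd s hs) hp⟩

theorem sum_aff (D : Finset E) (d : E → ℝ) (h0 : ∑ v ∈ D, d v = 0) (h1 : ∑ v ∈ D, d v • v = 0)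
    (f : E →ᵃ[ℝ] ℝ) : ∑ v ∈ D, d v * f v = 0 := by
  have hf : ∀ v, f v = f.linear v + f 0 := fun v => by
    have := f.map_vadd (0 : E) v
    simpa using this
  have : ∑ v ∈ D, d v * f v = f.linear (∑ v ∈ D, d v • v) + (∑ v ∈ D, d v) * f 0 := by
    rw [map_sum, Finset.sum_mul, ← Finset.sum_add_distrib]
    refine Finset.sum_congr rfl fun v _ => ?_
    rw [hf v, map_smul, smul_eq_mul]; ring
  rw [this, h0, h1]; simp

/-- Uniqueness of the representation by chains. -/
theorem unique_rep {Φ : Finset (E →ᵃ[ℝ] ℝ)} (hneg : ∀ f ∈ Φ, -f ∈ Φ) {U : Set E}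
    {S T D : Finset E} (hS : IsCh Φ U S) (hT : IsCh Φ U T) (d : E → ℝ)
    (hp : ∀ v ∈ D, 0 < d v → v ∈ S) (hm : ∀ v ∈ D, d v < 0 → v ∈ T)
    (h0 : ∑ v ∈ D, d v = 0) (h1 : ∑ v ∈ D, d v • v = 0) : ∀ v ∈ D, d v = 0 := by
  classical
  set A := D.filter fun v => 0 < d v with hA
  set B := D.filter fun v => d v < 0 with hB
  have split : ∀ g : E → ℝ, ∑ v ∈ D, d v * g v = ∑ v ∈ A, d v * g v - ∑ v ∈ B, (-d v) * g v := by
    intro g
    rw [hA, hB, Finset.sum_filter, Finset.sum_filter, ← Finset.sum_sub_distrib]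
    refine Finset.sum_congr rfl fun v _ => ?_
    rcases lt_trichotomy (d v) 0 with h | h | h
    · simp [h, not_lt.2 h.le]
    · simp [h]
    · simp [h, not_lt.2 h.le]
  have hAS : IsCh Φ U A := hS.mono fun v hv => hp v (Finset.mem_filter.1 hv).1 (Finset.mem_filter.1 hv).2
  have hBT : IsCh Φ U B := hT.mono fun v hv => hm v (Finset.mem_filter.1 hv).1 (Finset.mem_filter.1 hv).2
  have hdA : ∀ v ∈ A, 0 < d v := fun v hv => (Finset.mem_filter.1 hv).2
  have hdB : ∀ v ∈ B, 0 < -d v := fun v hv => neg_pos.2 (Finset.mem_filter.1 hv).2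
  have hmass : ∑ v ∈ A, d v = ∑ v ∈ B, (-d v) := by
    have := split fun _ => 1
    simp only [mul_one] at this
    linarith
  have hboth : ¬ (A.Nonempty ∧ B.Nonempty) := by
    rintro ⟨ha, hb⟩
    obtain ⟨s, hs, hs'⟩ := hAS.sum_pos_iff hneg ha d hdA
    obtain ⟨t, ht, ht'⟩ := hBT.sum_pos_iff hneg hb (fun v => -d v) hdB
    have hst : pos Φ s = pos Φ t := by
      ext f
      simp only [mem_pos]
      refine and_congr_right fun hf => ?_
      rw [← hs' f hf, ← ht' f hf]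
      have h2 := split f
      rw [sum_aff D d h0 h1 f] at h2
      have : ∑ v ∈ A, d v * f v = ∑ v ∈ B, (-d v) * f v := by linarith
      rw [this]
    have : s = t := by rw [← (hAS.1 s hs).2, ← (hBT.1 t ht).2, hst]
    have h3 := hdA s hs
    have h4 := hdB t ht
    rw [this] at h3
    linarith
  have hAe : A = ∅ := by
    by_contra ha
    have ha' := Finset.nonempty_iff_ne_empty.2 ha
    have hb : B = ∅ := by
      by_contra hb
      exact hboth ⟨ha', Finset.nonempty_iff_ne_empty.2 hb⟩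
    have := Finset.sum_pos hdA ha'
    rw [hmass, hb] at this
    simp at this
  have hBe : B = ∅ := by
    by_contra hb
    have := Finset.sum_pos hdB (Finset.nonempty_iff_ne_empty.2 hb)
    rw [← hmass, hAe] at this
    simp at this
  intro v hv
  rcases lt_trichotomy (d v) 0 with h | h | h
  · have : v ∈ B := Finset.mem_filter.2 ⟨hv, h⟩
    rw [hBe] at this; simp at this
  · exact h
  · have : v ∈ A := Finset.mem_filter.2 ⟨hv, h⟩
    rw [hAe] at this; simp at this

theorem IsCh.indep {Φ : Finset (E →ᵃ[ℝ] ℝ)} (hneg : ∀ f ∈ Φ, -f ∈ Φ) {U : Set E}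
    {T : Finset E} (h : IsCh Φ U T) : AffineIndependent ℝ ((↑) : T → E) := by
  classical
  rw [affineIndependent_iff]
  intro s w h0 h1 e he
  let d : E → ℝ := fun v => if hv : v ∈ T then w ⟨v, hv⟩ else 0
  have hd : ∀ e : T, d e = w e := fun e => by simp [d]
  have hinj : Set.InjOn ((↑) : T → E) s := fun a _ b _ hab => Subtype.ext hab
  have := unique_rep hneg h h (D := s.image (↑)) d
    (fun v hv _ => by obtain ⟨a, _, rfl⟩ := Finset.mem_image.1 hv; exact a.2)
    (fun v hv _ => by obtain ⟨a, _, rfl⟩ := Finset.mem_image.1 hv; exact a.2)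
    (by rw [Finset.sum_image hinj]; simpa only [hd] using h0)
    (by rw [Finset.sum_image hinj]; simpa only [hd] using h1)
    e (Finset.mem_image_of_mem _ he)
  rwa [hd] at this

omit [NormedAddCommGroup E] [NormedSpace ℝ E] in
theorem sum_ext {M : Type*} [AddCommGroup M] [Module ℝ M] [DecidableEq E] {S D : Finset E}
    (h : S ⊆ D) (w : E → ℝ) (g : E → M) :
    ∑ v ∈ D, (if v ∈ S then w v else 0) • g v = ∑ v ∈ S, w v • g v := by
  rw [← Finset.sum_subset h]
  · exact Finset.sum_congr rfl fun v hv => by simp [hv]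
  · intro v _ hv; simp [hv]

theorem IsCh.inter {Φ : Finset (E →ᵃ[ℝ] ℝ)} (hneg : ∀ f ∈ Φ, -f ∈ Φ) {U : Set E}
    {S T : Finset E} (hS : IsCh Φ U S) (hT : IsCh Φ U T) :
    convexHull ℝ (S : Set E) ∩ convexHull ℝ (T : Set E) ⊆ convexHull ℝ (S ∩ T : Set E) := by
  classical
  rintro x ⟨hx, hx'⟩
  obtain ⟨w, hw0, hw1, hw2⟩ := Finset.mem_convexHull'.1 hx
  obtain ⟨w', hw0', hw1', hw2'⟩ := Finset.mem_convexHull'.1 hx'
  let a : E → ℝ := fun v => if v ∈ S then w v else 0
  let b : E → ℝ := fun v => if v ∈ T then w' v else 0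
  have ha : ∀ v, 0 ≤ a v := fun v => by
    by_cases hv : v ∈ S <;> simp [a, hv, hw0]
  have hb : ∀ v, 0 ≤ b v := fun v => by
    by_cases hv : v ∈ T <;> simp [b, hv, hw0']
  have l1 : S ⊆ S ∪ T := Finset.subset_union_left
  have l2 : T ⊆ S ∪ T := Finset.subset_union_right
  have a1 : ∑ v ∈ S ∪ T, a v = 1 := by
    have := sum_ext l1 w fun _ => (1 : ℝ)
    simp only [smul_eq_mul, mul_one] at this
    rw [← hw1, ← this]
  have b1 : ∑ v ∈ S ∪ T, b v = 1 := by
    have := sum_ext l2 w' fun _ => (1 : ℝ)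
    simp only [smul_eq_mul, mul_one] at this
    rw [← hw1', ← this]
  have a2 : ∑ v ∈ S ∪ T, a v • v = x := by rw [← hw2, ← sum_ext l1 w fun v => v]
  have b2 : ∑ v ∈ S ∪ T, b v • v = x := by rw [← hw2', ← sum_ext l2 w' fun v => v]
  have key := unique_rep hneg hS hT (D := S ∪ T) (fun v => a v - b v)
    (fun v _ h => by
      by_contra hv
      have : a v = 0 := by simp [a, hv]
      have := hb v
      linarith)
    (fun v _ h => by
      by_contra hv
      have : b v = 0 := by simp [b, hv]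
      have := ha v
      linarith)
    (by rw [Finset.sum_sub_distrib, a1, b1, sub_self])
    (by simp only [sub_smul]; rw [Finset.sum_sub_distrib, a2, b2, sub_self])
  have hz : ∀ v ∈ S, v ∉ S ∩ T → w v = 0 := fun v hv hv' => by
    have hT' : v ∉ T := fun h => hv' (Finset.mem_inter.2 ⟨hv, h⟩)
    have := key v (l1 hv)
    simpa [a, b, hv, hT'] using this
  rw [← Finset.coe_inter]
  refine Finset.mem_convexHull'.2 ⟨w, fun v hv => hw0 v (Finset.mem_inter.1 hv).1, ?_, ?_⟩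
  · rw [← hw1]
    exact Finset.sum_subset Finset.inter_subset_left hz
  · rw [← hw2]
    exact Finset.sum_subset Finset.inter_subset_left fun v hv hv' => by rw [hz v hv hv', zero_smul]

theorem aff_line (f : E →ᵃ[ℝ] ℝ) (t x : E) (m : ℝ) :
    f (t + m • (x - t)) = f t + m * (f x - f t) := by
  have := f.apply_lineMap t x m
  simp only [AffineMap.lineMap_apply, vsub_eq_sub, vadd_eq_add, smul_eq_mul] at this
  rw [add_comm, this, add_comm]

theorem pos_ray {Φ : Finset (E →ᵃ[ℝ] ℝ)} (hneg : ∀ f ∈ Φ, -f ∈ Φ) {t x : E}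
    (ht : pos Φ t = pos Φ x) {m : ℝ} (hm : ∀ f ∈ pos Φ x, 0 ≤ f t + m * (f x - f t)) :
    pos Φ (t + m • (x - t)) ⊆ pos Φ x := by
  intro f hf
  obtain ⟨hΦ, hp⟩ := mem_pos.1 hf
  rw [aff_line] at hp
  by_contra hn
  have h1 : f x ≤ 0 := not_lt.1 fun h => hn (mem_pos.2 ⟨hΦ, h⟩)
  have h2 : f t ≤ 0 := nonpos_of_sub ht.le hΦ h1
  rcases h1.eq_or_lt with h | h
  · have h3 : 0 ≤ f t := nonneg_of_sub hneg ht.le hΦ h.ge
    have : f t = 0 := le_antisymm h2 h3
    rw [h, this] at hp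
    simp at hp
  · have := hm (-f) (mem_pos.2 ⟨hneg f hΦ, by simpa using h⟩)
    simp only [AffineMap.coe_neg, Pi.neg_apply] at this
    linarith

theorem cover {Φ : Finset (E →ᵃ[ℝ] ℝ)} (hneg : ∀ f ∈ Φ, -f ∈ Φ) {U Q : Set E} (hQU : Q ⊆ U)
    (hcl : ∀ x ∈ Q, ∀ y, pos Φ y ⊆ pos Φ x → y ∈ Q) (hb : Bornology.IsBounded Q) :
    ∀ (n : ℕ) (x : E), x ∈ Q → (pos Φ x).card ≤ n → ∃ T : Finset E, T.Nonempty ∧ IsCh Φ U T ∧
      (∀ v ∈ T, pos Φ v ⊆ pos Φ x) ∧ x ∈ convexHull ℝ (T : Set E) := by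
  classical
  intro n
  induction n using Nat.strong_induction_on with
  | _ n ih =>
  intro x hx hn
  set t := base Φ (pos Φ x) with htdef
  have ht : pos Φ t = pos Φ x := pos_base Φ x
  have htQ : t ∈ Q := hcl x hx t ht.le
  have htb : base Φ (pos Φ t) = t := by rw [ht]
  set A := (pos Φ x).filter fun f => f x < f t with hA
  by_cases hAe : A.Nonempty
  · obtain ⟨f0, hf0, hmin⟩ := A.exists_min_image (fun f => f t / (f t - f x)) hAe
    obtain ⟨hf0p, hf0l⟩ := Finset.mem_filter.1 hf0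
    have hx0 : 0 < f0 x := (mem_pos.1 hf0p).2
    set m := f0 t / (f0 t - f0 x) with hm
    have hd : 0 < f0 t - f0 x := by linarith
    have hm1 : 1 < m := by rw [hm, lt_div_iff₀ hd]; linarith
    have hsub : pos Φ (t + m • (x - t)) ⊆ pos Φ x := by
      refine pos_ray hneg ht fun f hf => ?_
      have hft : 0 < f t := (mem_pos.1 (ht.ge hf)).2
      by_cases hl : f x < f t
      · have h1 := hmin f (Finset.mem_filter.2 ⟨hf, hl⟩)
        have hd' : 0 < f t - f x := by linarith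
        rw [le_div_iff₀ hd'] at h1
        linarith
      · have : 0 ≤ m * (f x - f t) := mul_nonneg (by linarith) (by linarith)
        linarith
    have hnot : f0 ∉ pos Φ (t + m • (x - t)) := fun h => by
      have := (mem_pos.1 h).2
      rw [aff_line] at this
      have e : m * (f0 t - f0 x) = f0 t := by rw [hm]; field_simp
      linarith
    have hlt : (pos Φ (t + m • (x - t))).card < (pos Φ x).card :=
      Finset.card_lt_card ⟨hsub, fun h => hnot (h hf0p)⟩
    obtain ⟨T, -, hT, hTs, hy⟩ := ih _ (lt_of_lt_of_le hlt hn) _ (hcl x hx _ hsub) le_rfl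
    have hTt : ∀ v ∈ T, pos Φ v ⊆ pos Φ x := fun v hv => (hTs v hv).trans hsub
    refine ⟨insert t T, Finset.insert_nonempty _ _, ⟨?_, ?_⟩, ?_, ?_⟩
    · intro v hv
      rcases Finset.mem_insert.1 hv with rfl | hv
      · exact ⟨hQU htQ, htb⟩
      · exact hT.1 v hv
    · intro v hv w hw
      rcases Finset.mem_insert.1 hw with rfl | hw
      · left
        rcases Finset.mem_insert.1 hv with rfl | hv
        · exact le_rfl
        · exact (hTt v hv).trans ht.ge
      · rcases Finset.mem_insert.1 hv with rfl | hv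
        · right; exact (hTt w hw).trans ht.ge
        · exact hT.2 v hv w hw
    · intro v hv
      rcases Finset.mem_insert.1 hv with rfl | hv
      · exact ht.le
      · exact hTt v hv
    · have h1 : t ∈ convexHull ℝ ((insert t T : Finset E) : Set E) :=
        subset_convexHull ℝ _ (by simp)
      have h2 : t + m • (x - t) ∈ convexHull ℝ ((insert t T : Finset E) : Set E) :=
        convexHull_mono (by simp) hy
      have hm0 : 0 < m := by linarith
      have h3 := (convex_convexHull ℝ _) h1 h2 (a := 1 - m⁻¹) (b := m⁻¹)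
        (by rw [sub_nonneg]; exact inv_le_one_of_one_le₀ hm1.le) (inv_pos.2 hm0).le (by ring)
      have e : (1 - m⁻¹) • t + m⁻¹ • (t + m • (x - t)) = x := by
        rw [smul_add, smul_smul, inv_mul_cancel₀ hm0.ne', one_smul, sub_smul, one_smul]
        abel
      rwa [e] at h3
  · have hray : ∀ m : ℝ, 0 ≤ m → t + m • (x - t) ∈ Q := fun m hm => by
      refine hcl x hx _ (pos_ray hneg ht fun f hf => ?_)
      have hft : 0 < f t := (mem_pos.1 (ht.ge hf)).2
      have hl : ¬ f x < f t := fun h => hAe ⟨f, Finset.mem_filter.2 ⟨hf, h⟩⟩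
      have : 0 ≤ m * (f x - f t) := mul_nonneg hm (by linarith)
      linarith
    have hxt : x = t := by
      by_contra hne
      have hn0 : 0 < ‖x - t‖ := norm_pos_iff.2 (sub_ne_zero.2 hne)
      obtain ⟨C, hC⟩ := Metric.isBounded_iff.1 hb
      have hC0 : 0 ≤ C := le_trans dist_nonneg (hC hx hx)
      have := hC (hray ((C + 1) / ‖x - t‖) (by positivity)) htQ
      rw [dist_eq_norm, add_sub_cancel_left, norm_smul, Real.norm_of_nonneg (by positivity),
        div_mul_cancel₀ _ hn0.ne'] at this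
      linarith
    refine ⟨{t}, Finset.singleton_nonempty _, ⟨?_, ?_⟩, ?_, ?_⟩
    · intro v hv
      rw [Finset.mem_singleton.1 hv]; exact ⟨hQU htQ, htb⟩
    · intro v hv w hw
      rw [Finset.mem_singleton.1 hv, Finset.mem_singleton.1 hw]; exact Or.inl le_rfl
    · intro v hv
      rw [Finset.mem_singleton.1 hv]; exact ht.le
    · rw [Finset.coe_singleton, convexHull_singleton]; exact hxt

/-- A set cut out by finitely many affine inequalities. -/
def Poly (Q : Set E) : Prop :=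
  ∃ F : Finset (E →ᵃ[ℝ] ℝ), ∀ x, x ∈ Q ↔ ∀ f ∈ F, f x ≤ 0

theorem Poly.convex {Q : Set E} (h : Poly Q) : Convex ℝ Q := by
  obtain ⟨F, hF⟩ := h
  have : Q = ⋂ f ∈ F, f ⁻¹' Iic 0 := by
    ext x; simp [hF]
  rw [this]
  exact convex_iInter₂ fun f _ => (convex_Iic 0).affine_preimage f

theorem Poly.inter {Q R : Set E} (h : Poly Q) (h' : Poly R) : Poly (Q ∩ R) := by
  classical
  obtain ⟨F, hF⟩ := h
  obtain ⟨G, hG⟩ := h'
  refine ⟨F ∪ G, fun x => ?_⟩
  simp only [mem_inter_iff, hF, hG, Finset.mem_union]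
  exact ⟨fun h f hf => hf.elim (h.1 f) (h.2 f), fun h =>
    ⟨fun f hf => h f (Or.inl hf), fun f hf => h f (Or.inr hf)⟩⟩

theorem core {ι : Type*} [Fintype ι] (Q : ι → Set E) (hQ : ∀ i, Poly (Q i))
    (hb : ∀ i, Bornology.IsBounded (Q i)) :
    ∃ K : Geometry.SimplicialComplex ℝ E, K.faces.Finite ∧ K.space = ⋃ i, Q i ∧
      ∀ s ∈ K.faces, ∃ i, convexHull ℝ (s : Set E) ⊆ Q i := by
  classical
  choose F hF using hQ
  set F0 := Finset.univ.biUnion F with hF0
  set Φ := F0 ∪ F0.image (fun f => -f) with hΦ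
  have hneg : ∀ f ∈ Φ, -f ∈ Φ := by
    intro f hf
    rcases Finset.mem_union.1 hf with h | h
    · exact Finset.mem_union_right _ (Finset.mem_image_of_mem _ h)
    · obtain ⟨g, hg, rfl⟩ := Finset.mem_image.1 h
      rw [neg_neg]; exact Finset.mem_union_left _ hg
  have hFΦ : ∀ i, ∀ f ∈ F i, f ∈ Φ := fun i f hf =>
    Finset.mem_union_left _ (Finset.mem_biUnion.2 ⟨i, Finset.mem_univ _, hf⟩)
  have hcl : ∀ i, ∀ x ∈ Q i, ∀ y, pos Φ y ⊆ pos Φ x → y ∈ Q i := fun i x hx y hy =>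
    (hF i y).2 fun f hf => nonpos_of_sub hy (hFΦ i f hf) ((hF i x).1 hx f hf)
  let K : Geometry.SimplicialComplex ℝ E :=
    Geometry.SimplicialComplex.ofErase {T | IsCh Φ (⋃ i, Q i) T} (fun s hs => hs.indep hneg)
      (fun a b hab ha => IsCh.mono ha hab) (fun s hs t ht => hs.inter hneg ht)
  have hK : ∀ s, s ∈ K.faces ↔ IsCh Φ (⋃ i, Q i) s ∧ s.Nonempty := fun s => by
    simp [K, Finset.nonempty_iff_ne_empty]
  have hsub : ∀ s ∈ K.faces, ∃ i, convexHull ℝ (s : Set E) ⊆ Q i := by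
    intro s hs
    obtain ⟨h1, h2⟩ := (hK s).1 hs
    obtain ⟨t, ht, htop⟩ := h1.top h2
    obtain ⟨i, hi⟩ := mem_iUnion.1 (h1.1 t ht).1
    exact ⟨i, convexHull_min (fun v hv => hcl i t hi v (htop v hv)) (Poly.convex ⟨F i, hF i⟩)⟩
  refine ⟨K, ?_, ?_, hsub⟩
  · refine ((Φ.powerset.image (base Φ)).powerset.finite_toSet).subset fun s hs => ?_
    refine Finset.mem_coe.2 (Finset.mem_powerset.2 fun v hv => ?_)
    exact Finset.mem_image.2 ⟨pos Φ v, Finset.mem_powerset.2 (pos_subset Φ v),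
      (((hK s).1 hs).1.1 v hv).2⟩
  · ext x
    rw [Geometry.SimplicialComplex.mem_space_iff]
    constructor
    · rintro ⟨s, hs, hx⟩
      obtain ⟨i, hi⟩ := hsub s hs
      exact mem_iUnion.2 ⟨i, hi hx⟩
    · intro hx
      obtain ⟨i, hi⟩ := mem_iUnion.1 hx
      obtain ⟨T, h1, h2, -, h4⟩ := cover hneg (subset_iUnion Q i) (hcl i) (hb i) _ x hi le_rfl
      exact ⟨T, (hK T).2 ⟨h2, h1⟩, h4⟩

theorem poly_ball {N : ℕ} (c : V N) (r : ℝ) : Poly (closedBall c r) := by
  classical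
  let p : Fin N → (V N →ᵃ[ℝ] ℝ) := fun j => (LinearMap.proj j : V N →ₗ[ℝ] ℝ).toAffineMap
  refine ⟨insert (AffineMap.const ℝ (V N) (-r))
    (Finset.univ.image (fun j => p j + AffineMap.const ℝ (V N) (-c j - r)) ∪
      Finset.univ.image (fun j => -p j + AffineMap.const ℝ (V N) (c j - r))), fun x => ?_⟩
  simp only [Finset.forall_mem_insert, Finset.forall_mem_union, Finset.forall_mem_image,
    Finset.mem_univ, forall_const, AffineMap.const_apply, AffineMap.coe_add, AffineMap.coe_neg,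
    Pi.add_apply, Pi.neg_apply, p, LinearMap.coe_toAffineMap, LinearMap.coe_proj,
    Function.eval, mem_closedBall]
  constructor
  · intro h
    have hr : 0 ≤ r := le_trans dist_nonneg h
    have := (dist_pi_le_iff hr).1 h
    refine ⟨by linarith, fun j => ?_, fun j => ?_⟩
    · have := (abs_le.1 ((Real.dist_eq _ _).symm.le.trans (this j))).2; linarith
    · have := (abs_le.1 ((Real.dist_eq _ _).symm.le.trans (this j))).1; linarith
  · rintro ⟨h0, h1, h2⟩
    refine (dist_pi_le_iff (by linarith)).2 fun j => ?_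
    rw [Real.dist_eq, abs_le]
    have := h1 (x := j); have := h2 (x := j)
    constructor <;> linarith

theorem poly_aff {N : ℕ} (W : AffineSubspace ℝ (V N)) : Poly (W : Set (V N)) := by
  classical
  rcases W.eq_bot_or_nonempty with rfl | ⟨q, hq⟩
  · refine ⟨{AffineMap.const ℝ (V N) 1}, fun x => ?_⟩
    simp
  · obtain ⟨g, hg⟩ := LinearMap.exists_leftInverse_of_injective W.direction.subtype
      (Submodule.ker_subtype _)
    let L : V N →ₗ[ℝ] V N := LinearMap.id - W.direction.subtype ∘ₗ g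
    have hL : ∀ v, L v = 0 ↔ v ∈ W.direction := fun v => by
      simp only [L, LinearMap.sub_apply, LinearMap.id_apply, LinearMap.comp_apply,
        Submodule.subtype_apply, sub_eq_zero]
      constructor
      · intro h; rw [h]; exact (g v).2
      · intro h
        have := congrArg (fun k => (k ⟨v, h⟩ : W.direction)) hg
        simp only [LinearMap.comp_apply, Submodule.subtype_apply, LinearMap.id_apply] at this
        rw [this]
    let p : Fin N → (V N →ᵃ[ℝ] ℝ) := fun j =>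
      ((LinearMap.proj j : V N →ₗ[ℝ] ℝ) ∘ₗ L).toAffineMap + AffineMap.const ℝ (V N) (-L q j)
    have hp : ∀ j x, p j x = L (x - q) j := fun j x => by
      simp [p, sub_eq_add_neg]
    refine ⟨Finset.univ.image p ∪ Finset.univ.image (fun j => -p j), fun x => ?_⟩
    simp only [Finset.forall_mem_union, Finset.forall_mem_image, Finset.mem_univ, forall_const,
      AffineMap.coe_neg, Pi.neg_apply, hp, SetLike.mem_coe]
    rw [← AffineSubspace.vsub_right_mem_direction_iff_mem hq, vsub_eq_sub, ← hL]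
    constructor
    · intro h; simp [h]
    · rintro ⟨h1, h2⟩
      funext j
      have := h1 (x := j); have := h2 (x := j)
      simp only [Pi.zero_apply]; linarith

theorem card_le_three {N : ℕ} {s : Finset (V N)} (hs : AffineIndependent ℝ ((↑) : s → V N))
    {p a b : V N} (h : ∀ y ∈ s, ∃ u t : ℝ, y = p + u • a + t • b) : s.card ≤ 3 := by
  classical
  have h1 := hs.card_le_finrank_succ
  have h2 : vectorSpan ℝ (range ((↑) : s → V N)) ≤ Submodule.span ℝ (({a, b} : Finset (V N)) : Set (V N)) := by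
    rw [vectorSpan_def, Submodule.span_le]
    rintro _ ⟨_, ⟨y, rfl⟩, _, ⟨z, rfl⟩, rfl⟩
    obtain ⟨u, t, hy⟩ := h y y.2
    obtain ⟨u', t', hz⟩ := h z z.2
    have : (y : V N) -ᵥ (z : V N) = (u - u') • a + (t - t') • b := by
      rw [hy, hz, vsub_eq_sub, sub_smul, sub_smul]; abel
    simp only [SetLike.mem_coe]
    rw [this]
    exact Submodule.add_mem _ (Submodule.smul_mem _ _ (Submodule.subset_span (by simp)))
      (Submodule.smul_mem _ _ (Submodule.subset_span (by simp)))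
  have h3 := Submodule.finrank_mono h2
  have h4 : Module.finrank ℝ (Submodule.span ℝ (({a, b} : Finset (V N)) : Set (V N))) ≤
      ({a, b} : Finset (V N)).card := finrank_span_finset_le_card _
  have h5 : ({a, b} : Finset (V N)).card ≤ 2 := Finset.card_le_two
  rw [Fintype.card_coe] at h1
  exact h1.trans (Nat.succ_le_succ (h3.trans (h4.trans h5)))

end Tri

theorem tri : TriStmt := by
  intro N n W c r hW
  obtain ⟨K, h1, h2, h3⟩ := Tri.core (fun i => (W i : Set (V N)) ∩ closedBall (c i) (r i))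
    (fun i => (Tri.poly_aff (W i)).inter (Tri.poly_ball _ _))
    (fun i => isBounded_closedBall.subset inter_subset_right)
  refine ⟨K, h1, fun s hs => ?_, h2, h3⟩
  obtain ⟨i, hi⟩ := h3 s hs
  obtain ⟨p, a, b, hp⟩ := hW i
  exact Tri.card_le_three (K.indep hs) fun y hy => hp y (hi (subset_convexHull ℝ _ hy)).1

end Pool.Agent.MP_7f5071_gt

end MrgPart1

-- ======== part 2: formerly Pool.Agent.MP_7f5071_gt.L3
section MrgPart2

/-! The module L3: averaging at a variable scale, and a limit along an ultrafilter. -/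

namespace Pool.Agent.MP_7f5071_gt

open Filter Topology Set Metric MeasureTheory

namespace L3

open Eul

variable {J : ℕ}

/-- The linear map whose norm is the sum of the polygonal norms. -/
noncomputable def Lam (ξ : Fin J → R2) :
    (Fin J → R2) →L[ℝ] PiLp 1 (fun _ : Fin J => Fin J → ℝ) :=
  ((PiLp.continuousLinearEquiv 1 ℝ (fun _ : Fin J => Fin J → ℝ)).symm :
      (Fin J → Fin J → ℝ) →L[ℝ] PiLp 1 (fun _ : Fin J => Fin J → ℝ)).comp
    (ContinuousLinearMap.pi fun j => (Xi ξ).comp (ContinuousLinearMap.proj j))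

lemma norm_Lam (ξ : Fin J → R2) (b : Fin J → R2) : ‖Lam ξ b‖ = ∑ j, nrm ξ (b j) := by
  rw [PiLp.norm_eq_of_L1]
  refine Finset.sum_congr rfl fun j _ => ?_
  rw [nrm_eq]
  rfl

/-- The value at `d` of the operator with nuclear coefficients `b`. -/
noncomputable def App (ξ : Fin J → R2) (d : R2) : (Fin J → R2) →L[ℝ] R2 :=
  ∑ j, ev (ξ j) d • ContinuousLinearMap.proj j

lemma App_apply (ξ : Fin J → R2) (d : R2) (b : Fin J → R2) :
    App ξ d b = ∑ j, ev (ξ j) d • b j := by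
  simp [App]

lemma norm_App {ξ : Fin J → R2} (hξ : Normal ξ) (d : R2) (b : Fin J → R2) :
    ‖App ξ d b‖ ≤ 2 * ‖d‖ * ‖Lam ξ b‖ := by
  rw [App_apply, norm_Lam, Finset.mul_sum]
  refine (norm_sum_le _ _).trans (Finset.sum_le_sum fun j _ => ?_)
  rw [norm_smul, Real.norm_eq_abs]
  exact mul_le_mul ((abs_ev_le ξ d j).trans (nrm_le hξ d)) (norm_le_nrm hξ _) (norm_nonneg _)
    (by positivity)

/-- A continuous field of nuclear decompositions on a closed set. -/
lemma exists_field {ξ : Fin J → R2} (hξ : Normal ξ) {κ : ℝ} (hκ : 0 < κ) (hκ1 : κ ≤ 1)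
    {T : R2 → R2 →L[ℝ] R2} (hT : Continuous T) {O : Set R2} (hO : IsClosed O)
    (h1 : ∀ y ∈ O, ∀ v, nrm ξ (T y v) ≤ (1 + κ ^ 2) * nrm ξ v)
    (h2 : ∀ y ∈ O, |det2 (T y (1, 0)) (T y (0, 1))| ≤ κ ^ 2) :
    ∃ a : R2 → Fin J → R2, Continuous a ∧ (∀ y, ‖Lam ξ (a y)‖ ≤ 1 + 5 * κ) ∧
      ∀ y ∈ O, ∀ v, ‖T y v - App ξ v (a y)‖ ≤ 3 * κ * ‖v‖ := by
  obtain ⟨g, hg⟩ := exists_continuous_forall_mem_convex_of_local_const
    (t := fun y : R2 => {b : Fin J → R2 | ‖Lam ξ b‖ ≤ 1 + 5 * κ ∧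
      (y ∈ O → ∀ v, ‖T y v - App ξ v b‖ ≤ 3 * κ * ‖v‖)}) (fun y => by
      intro b hb c hc p q hp hq hpq
      refine ⟨?_, fun hy v => ?_⟩
      · rw [map_add, map_smul, map_smul]
        refine (norm_add_le _ _).trans ?_
        rw [norm_smul, norm_smul, Real.norm_of_nonneg hp, Real.norm_of_nonneg hq]
        have a1 := mul_le_mul_of_nonneg_left hb.1 hp
        have a2 := mul_le_mul_of_nonneg_left hc.1 hq
        have : p * (1 + 5 * κ) + q * (1 + 5 * κ) = 1 + 5 * κ := by rw [← add_mul, hpq, one_mul]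
        linarith
      · have e : T y v - App ξ v (p • b + q • c)
            = p • (T y v - App ξ v b) + q • (T y v - App ξ v c) := by
          rw [map_add, map_smul, map_smul, smul_sub, smul_sub]
          have : T y v = p • T y v + q • T y v := by rw [← add_smul, hpq, one_smul]
          conv_lhs => rw [this]
          abel
        rw [e]
        refine (norm_add_le _ _).trans ?_
        rw [norm_smul, norm_smul, Real.norm_of_nonneg hp, Real.norm_of_nonneg hq]
        have a1 := mul_le_mul_of_nonneg_left (hb.2 hy v) hp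
        have a2 := mul_le_mul_of_nonneg_left (hc.2 hy v) hq
        have : p * (3 * κ * ‖v‖) + q * (3 * κ * ‖v‖) = 3 * κ * ‖v‖ := by
          rw [← add_mul, hpq, one_mul]
        linarith) (fun x => by
      by_cases hx : x ∈ O
      · obtain ⟨a, a1, a2⟩ := nuclear hξ (T x) hκ hκ1 (h1 x hx) (h2 x hx)
        refine ⟨a, ?_⟩
        filter_upwards [hT.continuousAt.eventually (closedBall_mem_nhds (T x) hκ)] with y hy
        refine ⟨by rwa [norm_Lam], fun _ v => ?_⟩
        have b1 : ‖T y - T x‖ ≤ κ := by rwa [← dist_eq_norm]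
        have b2 := (T y - T x).le_of_opNorm_le b1 v
        have b3 := a2 v
        rw [← App_apply] at b3
        have e : T y v - App ξ v a = (T y - T x) v + (T x v - App ξ v a) := by simp
        rw [e]
        refine (norm_add_le _ _).trans ?_
        linarith
      · refine ⟨0, ?_⟩
        filter_upwards [hO.isOpen_compl.mem_nhds hx] with y hy
        exact ⟨by rw [map_zero, norm_zero]; positivity, fun h => absurd h hy⟩)
  exact ⟨g, g.continuous, fun y => (hg y).1, fun y hy => (hg y).2 hy⟩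

/-- The conclusion of L3, at the points where `S` is at least `m`. -/
def Concl (ξ : Fin J → R2) (ε K s m : ℝ) (S : R2 → ℝ) (σ : R2 → R2) (a : Fin J → R2 → R2) : Prop :=
  (∀ z z', ‖z‖ ≤ 9 * s → ‖z'‖ ≤ 9 * s → nrm ξ (σ z - σ z') ≤ (1 + ε) * nrm ξ (z - z')) ∧
  (∀ z, ‖z‖ ≤ 9 * s → ‖σ z - z‖ ≤ ε * s) ∧ (∀ z, ∑ j, nrm ξ (a j z) ≤ 1 + ε) ∧
  ∀ z, ‖z‖ ≤ 8 * s → m < S z → ∀ z', ‖z' - z‖ ≤ S z / K →
    nrm ξ (σ z' - σ z - ∑ j, ev (ξ j) (z' - z) • a j z) ≤ ε * ‖z' - z‖ ∧
    ∑ j, nrm ξ (a j z' - a j z) ≤ K * ‖z' - z‖ / S z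

lemma approx {ξ : Fin J → R2} (hξ : Normal ξ) {κ : ℝ} (hκ : 0 < κ) (hκ1 : κ ≤ 1 / 100)
    {S : R2 → ℝ} (hS : Lip 1 S) (hS1 : ∀ z, ‖z‖ ≤ 9 → S z ≤ 1) {m : ℝ} (hm : 0 < m) (hm1 : m ≤ 1)
    {f : R2 → R2} (hf : ContDiff ℝ 1 f)
    (h1 : ∀ z ∈ closedBall (0 : R2) 10, ‖f z - z‖ ≤ κ ^ 2 ∧
      ∀ v, nrm ξ (fderiv ℝ f z v) ≤ (1 + κ ^ 2) * nrm ξ v)
    (h2 : ∀ z ∈ {z | m / 2 ≤ S z} ∩ closedBall (0 : R2) 10,
      |det2 (fderiv ℝ f z (1, 0)) (fderiv ℝ f z (0, 1))| ≤ κ ^ 2) :
    ∃ σ a, Concl ξ (20 * κ) (30 / κ ^ 2) 1 m S σ a := by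
  have hSl : ∀ x y, |S x - S y| ≤ ‖x - y‖ := by
    intro x y
    have := hS x y
    rwa [one_mul, dist_eq_norm] at this
  have hSc : Continuous S := by
    refine (LipschitzWith.of_dist_le_mul (K := 1) fun x y => ?_).continuous
    have := hS x y
    rwa [← dist_eq_norm] at this
  have hc := hf.continuous
  have hc' := hf.continuous_fderiv (by norm_num)
  obtain ⟨a0, ha0, n0, e0⟩ := exists_field hξ hκ (by linarith) hc'
    ((isClosed_le continuous_const hSc).inter isClosed_closedBall)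
    (fun y hy => (h1 y hy.2).2) h2
  set ρ : R2 → ℝ := fun z => κ * max (S z) m with hρ
  have ρpos : ∀ z, 0 < ρ z := fun z => mul_pos hκ (hm.trans_le (le_max_right _ _))
  have ρle : ∀ z, ‖z‖ ≤ 9 → ρ z ≤ κ := fun z hz => by
    have := mul_le_mul_of_nonneg_left (max_le (hS1 z hz) hm1) hκ.le
    rwa [mul_one] at this
  have ρlip : ∀ x y, |ρ x - ρ y| ≤ κ * ‖x - y‖ := by
    intro x y
    simp only [hρ]
    rw [← mul_sub, abs_mul, abs_of_pos hκ]
    exact mul_le_mul_of_nonneg_left ((abs_max_sub_max_le_abs _ _ _).trans (hSl x y)) hκ.le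
  have hsm : ∀ (r : ℝ) (ω : R2), ω ∈ closedBall (0 : R2) 1 → ‖r • ω‖ ≤ |r| := by
    intro r ω hω
    rw [norm_smul, Real.norm_eq_abs]
    exact mul_le_of_le_one_right (abs_nonneg _) (mem_closedBall_zero_iff.1 hω)
  have hin : ∀ (z : R2) (r : ℝ) (ω : R2), ‖z‖ ≤ 9 → |r| ≤ 1 → ω ∈ closedBall (0 : R2) 1 →
      z + r • ω ∈ closedBall (0 : R2) 10 := by
    intro z r ω hz hr hω
    rw [mem_closedBall_zero_iff]
    have := norm_add_le z (r • ω)
    have := hsm r ω hω
    linarith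
  have ρ1 : ∀ z, ‖z‖ ≤ 9 → |ρ z| ≤ 1 := fun z hz => by
    rw [abs_of_pos (ρpos z)]; linarith [ρle z hz]
  have hκ2 : κ ^ 2 ≤ κ := by nlinarith
  have hL : Continuous fun y => Lam ξ (a0 y) := (Lam ξ).continuous.comp ha0
  have alip : ∀ (z z' : R2) (r r' D : ℝ), 0 < r → 2 * D ≤ r → ‖z' - z‖ ≤ D → |r' - r| ≤ D →
      ‖Lam ξ (av a0 z' r' - av a0 z r)‖ ≤ 26 * D / r := by
    intro z z' r r' D hr hD hz hr'
    rw [map_sub, map_av _ ha0, map_av _ ha0]
    have := av_lip hL (M := 2) (fun y => (n0 y).trans (by linarith)) hr hD hz hr'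
    rwa [show (13 : ℝ) * 2 = 26 by norm_num] at this
  refine ⟨fun z => av f z (ρ z), fun j z => av a0 z (ρ z) j, ?_, ?_, ?_, ?_⟩
  · intro z z' hz hz'
    rw [mul_one] at hz hz'
    have e : av f z (ρ z) - av f z' (ρ z') = (1 / 4 : ℝ) • ∫ ω in closedBall (0 : R2) 1,
        (f (z + ρ z • ω) - f (z' + ρ z' • ω)) := by
      rw [integral_sub (intOn (by fun_prop) 0 1) (intOn (by fun_prop) 0 1), smul_sub]
      rfl
    rw [nrm_eq, e, map_int _ (by fun_prop)]
    refine norm_int_le fun ω hω => ?_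
    rw [← nrm_eq]
    have a1 := nrm_sub_le_of_fderiv ξ hf (fun z hz => (h1 z hz).2)
      (hin z' _ ω hz' (ρ1 z' hz') hω) (hin z _ ω hz (ρ1 z hz) hω)
    have e2 : z + ρ z • ω - (z' + ρ z' • ω) = (z - z') + (ρ z - ρ z') • ω := by module
    have a2 := nrm_add_le ξ (z - z') ((ρ z - ρ z') • ω)
    have a3 := nrm_le hξ ((ρ z - ρ z') • ω)
    have a4 := (hsm _ ω hω).trans (ρlip z z')
    have a5 : κ * ‖z - z'‖ ≤ κ * nrm ξ (z - z') := by
      have := norm_le_nrm hξ (z - z'); gcongr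
    rw [e2] at a1
    have a6 : nrm ξ (z - z' + (ρ z - ρ z') • ω) ≤ (1 + 2 * κ) * nrm ξ (z - z') := by linarith
    have a7 := mul_le_mul_of_nonneg_left a6 (by positivity : 0 ≤ 1 + κ ^ 2)
    have a8 : (1 + κ ^ 2) * (1 + 2 * κ) ≤ 1 + 20 * κ := by nlinarith
    have a9 := mul_le_mul_of_nonneg_right a8 (nrm_nonneg ξ (z - z'))
    nlinarith
  · intro z hz
    rw [mul_one] at hz
    have e : av f z (ρ z) - z = (1 / 4 : ℝ) • ∫ ω in closedBall (0 : R2) 1,
        (f (z + ρ z • ω) - z) := by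
      rw [integral_sub (intOn (by fun_prop) 0 1) (intOn continuous_const 0 1), smul_sub,
        setIntegral_const, real_closedBall _ zero_le_one, smul_smul]
      norm_num
      rfl
    rw [e]
    refine norm_int_le fun ω hω => ?_
    have a1 := (h1 _ (hin z _ ω hz (ρ1 z hz) hω)).1
    have a2 := hsm (ρ z) ω hω
    rw [abs_of_pos (ρpos z)] at a2
    have a3 := ρle z hz
    have e2 : f (z + ρ z • ω) - z = f (z + ρ z • ω) - (z + ρ z • ω) + ρ z • ω := by abel
    rw [e2]
    refine (norm_add_le _ _).trans ?_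
    linarith
  · intro z
    rw [← norm_Lam, map_av _ ha0]
    exact norm_int_le fun ω _ => (n0 _).trans (by linarith)
  · intro z hz hmz z' hz'
    rw [mul_one] at hz
    have hSz : 0 < S z := hm.trans hmz
    have hS1z := hS1 z (by linarith)
    have hρz : ρ z = κ * S z := by simp only [hρ, max_eq_left hmz.le]
    set d := z' - z with hd
    have hd0 := norm_nonneg d
    have hdle : 30 * ‖d‖ ≤ κ * ρ z := by
      rw [div_div_eq_mul_div, le_div_iff₀ (by norm_num)] at hz'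
      rw [hρz]; linarith
    have hρκ := ρle z (by linarith)
    have hρp := ρpos z
    have hκρ : κ * ρ z ≤ 1 / 100 * ρ z := by gcongr
    have hδ : |ρ z' - ρ z| ≤ κ * ‖d‖ := ρlip z' z
    have hκd : κ * ‖d‖ ≤ ‖d‖ := mul_le_of_le_one_left hd0 (by linarith)
    constructor
    · set δ := ρ z' - ρ z with hδe
      have key : ∀ τ ∈ Ico (0 : ℝ) 1, ‖((1 / 4 : ℝ) • ∫ ω in closedBall (0 : R2) 1,
          fderiv ℝ f (z + τ • d + (ρ z + τ * δ) • ω) (d + δ • ω)) - App ξ d (av a0 z (ρ z))‖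
          ≤ 10 * κ * ‖d‖ := by
        intro τ hτ
        have t1 : ‖τ • d‖ ≤ ‖d‖ := by
          rw [norm_smul, Real.norm_of_nonneg hτ.1]
          exact mul_le_of_le_one_left hd0 hτ.2.le
        have t2 : |τ * δ| ≤ ‖d‖ := by
          rw [abs_mul, abs_of_nonneg hτ.1]
          exact (mul_le_of_le_one_left (abs_nonneg _) hτ.2.le).trans (hδ.trans hκd)
        have t3 : |ρ z + τ * δ| ≤ ρ z + ‖d‖ := by
          have := abs_add_le (ρ z) (τ * δ)
          rw [abs_of_pos hρp] at this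
          linarith
        have b1 := alip z (z + τ • d) (ρ z) (ρ z + τ * δ) ‖d‖ hρp (by linarith)
          (by rwa [add_sub_cancel_left]) (by rwa [add_sub_cancel_left])
        have b2 : 26 * ‖d‖ / ρ z ≤ κ := by rw [div_le_iff₀ hρp]; linarith
        have b3 := norm_App hξ d (av a0 (z + τ • d) (ρ z + τ * δ) - av a0 z (ρ z))
        have b4 := mul_le_mul_of_nonneg_left (b1.trans b2) (by positivity : 0 ≤ 2 * ‖d‖)
        have b5 : ‖((1 / 4 : ℝ) • ∫ ω in closedBall (0 : R2) 1,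
            fderiv ℝ f (z + τ • d + (ρ z + τ * δ) • ω) (d + δ • ω))
            - App ξ d (av a0 (z + τ • d) (ρ z + τ * δ))‖ ≤ 7 * κ * ‖d‖ := by
          rw [map_av _ ha0, av, ← smul_sub,
            ← integral_sub (intOn (by fun_prop) 0 1) (intOn (by fun_prop) 0 1)]
          refine norm_int_le fun ω hω => ?_
          have c0 : ‖z + τ • d‖ ≤ 9 := by have := norm_add_le z (τ • d); linarith
          have c1 := hin (z + τ • d) (ρ z + τ * δ) ω c0 (by linarith) hω
          set y := z + τ • d + (ρ z + τ * δ) • ω with hy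
          have c2 : ‖y - z‖ ≤ ‖d‖ + (ρ z + ‖d‖) := by
            have e : y - z = τ • d + (ρ z + τ * δ) • ω := by rw [hy]; abel
            rw [e]
            exact (norm_add_le _ _).trans (add_le_add t1 ((hsm _ ω hω).trans t3))
          have c3 : m / 2 ≤ S y := by
            have := (abs_le.1 (hSl y z)).1
            have c4 : ρ z ≤ 1 / 100 * S z := by rw [hρz]; gcongr
            linarith
          have c5 := e0 y ⟨c3, c1⟩ d
          have c6 := (h1 y c1).2 (δ • ω)
          have c7 := norm_le_nrm hξ (fderiv ℝ f y (δ • ω))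
          have c8 := nrm_le hξ (δ • ω)
          have c9 := (hsm δ ω hω).trans hδ
          have c10 : (1 + κ ^ 2) * nrm ξ (δ • ω) ≤ 2 * nrm ξ (δ • ω) :=
            mul_le_mul_of_nonneg_right (by linarith) (nrm_nonneg ξ _)
          have e : fderiv ℝ f y (d + δ • ω) - App ξ d (a0 y)
              = (fderiv ℝ f y d - App ξ d (a0 y)) + fderiv ℝ f y (δ • ω) := by
            rw [map_add]; abel
          rw [e]
          refine (norm_add_le _ _).trans ?_
          linarith
        rw [map_sub] at b3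
        refine (norm_sub_le_norm_sub_add_norm_sub _ _ _).trans ((add_le_add b5 b3).trans ?_)
        nlinarith
      have mv := norm_image_sub_le_of_norm_deriv_le_segment_01'
        (f := fun τ : ℝ => av f (z + τ • d) (ρ z + τ * δ) - τ • App ξ d (av a0 z (ρ z)))
        (fun τ _ => ((hasDerivAt_av hf z d (ρ z) δ τ).sub (by
          simpa using (hasDerivAt_id τ).smul_const (App ξ d (av a0 z (ρ z))))).hasDerivWithinAt) key
      have e1 : z + (1 : ℝ) • d = z' := by rw [one_smul, hd]; abel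
      have e2 : ρ z + 1 * δ = ρ z' := by rw [hδe]; ring
      rw [e1, e2, one_smul, zero_smul, zero_smul, add_zero, zero_mul, add_zero, sub_zero,
        sub_right_comm, App_apply] at mv
      refine (nrm_le hξ _).trans ?_
      linarith
    · have b1 := alip z z' (ρ z) (ρ z') ‖d‖ hρp (by linarith) le_rfl (hδ.trans hκd)
      rw [norm_Lam] at b1
      refine b1.trans ?_
      rw [hρz, div_le_div_iff₀ (by positivity) hSz]
      have e : 30 / κ ^ 2 * ‖d‖ * (κ * S z) = 30 / κ * (‖d‖ * S z) := by field_simp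
      have : 26 ≤ 30 / κ := by rw [le_div_iff₀ hκ]; linarith
      rw [e, mul_assoc]
      gcongr

/-- The limit `m → 0` along an ultrafilter. -/
lemma limit {ξ : Fin J → R2} (hξ : Normal ξ) {ε K : ℝ} (hK : 1 ≤ K) {S : R2 → ℝ}
    (hS1 : ∀ z, ‖z‖ ≤ 9 → S z ≤ 1)
    (h : ∀ n : ℕ, ∃ σ a, Concl ξ ε K 1 (1 / ((n : ℝ) + 1)) S σ a) :
    ∃ σ a, Concl ξ ε K 1 0 S σ a := by
  choose σ a hc using h
  let U : Ultrafilter ℕ := hyperfilter ℕ
  have lim : ∀ (u : ℕ → R2) (c : R2) (r : ℝ), (∀ n, ‖u n - c‖ ≤ r) →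
      ∃ x, Tendsto u U (𝓝 x) := by
    intro u c r hu
    obtain ⟨x, -, hx⟩ := (isCompact_closedBall c r).ultrafilter_le_nhds' (U.map u)
      (Ultrafilter.mem_map.2 (univ_mem' fun n => by
        simpa only [mem_preimage, mem_closedBall_iff_norm] using hu n))
    exact ⟨x, hx⟩
  have l1 : ∀ z : R2, ∃ x, ‖z‖ ≤ 9 * 1 → Tendsto (fun n => σ n z) U (𝓝 x) := by
    intro z
    by_cases hz : ‖z‖ ≤ 9 * 1
    · obtain ⟨x, hx⟩ := lim (fun n => σ n z) z _ fun n => (hc n).2.1 z hz
      exact ⟨x, fun _ => hx⟩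
    · exact ⟨0, fun h => absurd h hz⟩
  have l2 : ∀ (j : Fin J) (z : R2), ∃ x, Tendsto (fun n => a n j z) U (𝓝 x) := by
    intro j z
    refine lim _ 0 (1 + ε) fun n => ?_
    rw [sub_zero]
    exact (norm_le_nrm hξ _).trans ((Finset.single_le_sum (f := fun j => nrm ξ (a n j z))
      (fun j _ => nrm_nonneg ξ _) (Finset.mem_univ j)).trans ((hc n).2.2.1 z))
  choose σ' hσ using l1
  choose a' ha using l2
  have cn := continuous_nrm ξ
  refine ⟨σ', a', fun z z' hz hz' => ?_, fun z hz => ?_, fun z => ?_, fun z hz hS z' hz' => ?_⟩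
  · exact le_of_tendsto' ((cn.tendsto _).comp ((hσ z hz).sub (hσ z' hz')))
      fun n => (hc n).1 z z' hz hz'
  · exact le_of_tendsto' ((hσ z hz).sub_const z).norm fun n => (hc n).2.1 z hz
  · exact le_of_tendsto' (tendsto_finsetSum _ fun j _ => (cn.tendsto _).comp (ha j z))
      fun n => (hc n).2.2.1 z
  · have ev : ∀ᶠ n : ℕ in U, 1 / ((n : ℝ) + 1) < S z :=
      (tendsto_one_div_add_atTop_nhds_zero_nat.eventually_lt_const hS).filter_mono
        (by rw [← Nat.cofinite_eq_atTop]; exact hyperfilter_le_cofinite)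
    have h9 : ‖z‖ ≤ 9 * 1 := by linarith
    have h9' : ‖z'‖ ≤ 9 * 1 := by
      have a1 := norm_add_le (z' - z) z
      rw [sub_add_cancel] at a1
      have a2 := hS1 z (by linarith)
      have a3 : S z / K ≤ S z := div_le_self hS.le hK
      linarith
    constructor
    · refine le_of_tendsto ((cn.tendsto _).comp (((hσ z' h9').sub (hσ z h9)).sub
        (tendsto_finsetSum _ fun j _ => (ha j z).const_smul _))) ?_
      filter_upwards [ev] with n hn using ((hc n).2.2.2 z hz hn z' hz').1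
    · refine le_of_tendsto (tendsto_finsetSum _ fun j _ =>
        (cn.tendsto _).comp ((ha j z').sub (ha j z))) ?_
      filter_upwards [ev] with n hn using ((hc n).2.2.2 z hz hn z' hz').2

/-- Change of scale. -/
lemma rescale {ξ : Fin J → R2} {ε K s : ℝ} (hs : 0 < s) {S : R2 → ℝ} {σ : R2 → R2}
    {a : Fin J → R2 → R2} (h : Concl ξ ε K 1 0 (fun z => s⁻¹ * S (s • z)) σ a) :
    Concl ξ ε K s 0 S (fun z => s • σ (s⁻¹ • z)) (fun j z => a j (s⁻¹ • z)) := by
  obtain ⟨h1, h2, h3, h4⟩ := h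
  have hi : 0 < s⁻¹ := inv_pos.2 hs
  have n1 : ∀ z : R2, ‖s⁻¹ • z‖ = s⁻¹ * ‖z‖ := fun z => by
    rw [norm_smul, Real.norm_of_nonneg hi.le]
  have n2 : ∀ (z : R2) (c : ℝ), ‖z‖ ≤ c * s → ‖s⁻¹ • z‖ ≤ c * 1 := fun z c hz => by
    rw [n1, inv_mul_le_iff₀ hs]; linarith
  refine ⟨fun z z' hz hz' => ?_, fun z hz => ?_, fun z => h3 _, fun z hz hS z' hz' => ?_⟩
  · have := h1 _ _ (n2 z 9 hz) (n2 z' 9 hz')
    rw [← smul_sub, nrm_smul, abs_of_pos hi, mul_left_comm, le_inv_mul_iff₀ hs] at this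
    rwa [← smul_sub, nrm_smul, abs_of_pos hs]
  · have := h2 _ (n2 z 9 hz)
    have e : s • σ (s⁻¹ • z) - z = s • (σ (s⁻¹ • z) - s⁻¹ • z) := by
      rw [smul_sub, smul_inv_smul₀ hs.ne']
    rw [e, norm_smul, Real.norm_of_nonneg hs.le]
    nlinarith
  · have := h4 (s⁻¹ • z) (n2 z 8 hz) (by simp only [smul_inv_smul₀ hs.ne']; positivity)
      (s⁻¹ • z') (by
        simp only [smul_inv_smul₀ hs.ne']
        rw [← smul_sub, n1, mul_div_assoc]
        gcongr)
    simp only [smul_inv_smul₀ hs.ne'] at this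
    rw [← smul_sub, n1] at this
    obtain ⟨a1, a2⟩ := this
    constructor
    · have e : s • σ (s⁻¹ • z') - s • σ (s⁻¹ • z) - ∑ j, ev (ξ j) (z' - z) • a j (s⁻¹ • z)
          = s • (σ (s⁻¹ • z') - σ (s⁻¹ • z)
            - ∑ j, ev (ξ j) (s⁻¹ • (z' - z)) • a j (s⁻¹ • z)) := by
        rw [smul_sub s, smul_sub s, Finset.smul_sum]
        congr 1
        refine Finset.sum_congr rfl fun j _ => ?_
        rw [smul_smul]
        congr 1
        simp only [ev, Prod.smul_fst, Prod.smul_snd, smul_eq_mul]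
        field_simp
      rw [mul_left_comm, le_inv_mul_iff₀ hs] at a1
      rwa [e, nrm_smul, abs_of_pos hs]
    · refine a2.trans (le_of_eq ?_)
      field_simp

end L3

open L3 Eul in
theorem l3 (h : EulStmt) : L3Stmt := by
  intro ε hε
  set κ : ℝ := min (ε / 20) (1 / 100) with hκe
  have hκ : 0 < κ := lt_min (by positivity) (by norm_num)
  have hκ1 : κ ≤ 1 / 100 := min_le_right _ _
  have hκε : 20 * κ ≤ ε := by have := min_le_left (ε / 20) (1 / 100); linarith
  obtain ⟨β, hβ, hE⟩ := h (κ ^ 2) (by positivity)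
  have hK : 1 ≤ 30 / κ ^ 2 := by rw [le_div_iff₀ (by positivity)]; nlinarith
  refine ⟨30 / κ ^ 2, hK, min β 1, lt_min hβ one_pos, fun J ξ hξ s hs S hS _ hv => ?_⟩
  set S1 : R2 → ℝ := fun z => s⁻¹ * S (s • z) with hS1e
  have hi : 0 < s⁻¹ := inv_pos.2 hs
  have lip1 : Lip 1 S1 := by
    intro x y
    have := hS (s • x) (s • y)
    rw [dist_eq_norm, ← smul_sub, norm_smul, Real.norm_of_nonneg hs.le, one_mul] at this
    simp only [hS1e]
    rw [← mul_sub, norm_mul, Real.norm_of_nonneg hi.le, inv_mul_le_iff₀ hs, one_mul, dist_eq_norm]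
    exact this
  have vol1 : volume ({z | 0 < S1 z} ∩ closedBall (0 : R2) 10) ≤ ENNReal.ofReal (min β 1) := by
    have e : {z | 0 < S1 z} ∩ closedBall (0 : R2) 10
        = (fun z => s • z) ⁻¹' ({z | 0 < S z} ∩ closedBall 0 (10 * s)) := by
      ext z
      simp only [hS1e, mem_inter_iff, mem_ofPred_eq, mem_preimage, mem_closedBall_zero_iff,
        mul_pos_iff_of_pos_left hi, norm_smul, Real.norm_of_nonneg hs.le]
      rw [mul_comm 10 s, mul_le_mul_iff_right₀ hs]
    have fr : Module.finrank ℝ R2 = 2 := by simp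
    rw [e, Measure.addHaar_preimage_smul volume hs.ne', fr, abs_of_pos (by positivity)]
    refine (mul_le_mul_right hv _).trans ?_
    rw [← ENNReal.ofReal_mul (by positivity)]
    refine le_of_eq ?_
    congr 1
    field_simp
  have le1 : ∀ z, ‖z‖ ≤ 9 → S1 z ≤ 1 := by
    intro z hz
    by_contra hc
    push Not at hc
    have sub : closedBall z 1 ⊆ {z | 0 < S1 z} ∩ closedBall (0 : R2) 10 := by
      intro y hy
      have a1 := lip1 y z
      have a2 : dist y z ≤ 1 := hy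
      rw [Real.norm_eq_abs, one_mul] at a1
      refine ⟨by have := (abs_le.1 a1).1; change 0 < S1 y; linarith, ?_⟩
      rw [mem_closedBall_zero_iff]
      have a3 := norm_add_le (y - z) z
      rw [sub_add_cancel, ← dist_eq_norm] at a3
      linarith
    have a4 := (measure_mono sub).trans vol1
    rw [Eul.volume_closedBall z 1 zero_le_one,
      ENNReal.ofReal_le_ofReal_iff (lt_min hβ one_pos).le] at a4
    have := min_le_right β 1
    linarith
  have cS : Continuous S1 := by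
    refine (LipschitzWith.of_dist_le_mul (K := 1) fun x y => ?_).continuous
    have := lip1 x y
    rwa [← dist_eq_norm] at this
  obtain ⟨σ, a, hc⟩ := limit hξ hK le1 (ε := 20 * κ) fun n => by
    have hm : 0 < 1 / ((n : ℝ) + 1) := by positivity
    have hm1 : 1 / ((n : ℝ) + 1) ≤ 1 := by
      rw [div_le_one (by positivity)]; have := Nat.cast_nonneg (α := ℝ) n; linarith
    obtain ⟨f, hf, h1, h2⟩ := hE J ξ hξ ({z | 1 / ((n : ℝ) + 1) / 2 ≤ S1 z} ∩ closedBall 0 10)
      ((isCompact_closedBall _ _).inter_left (isClosed_le continuous_const cS))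
      inter_subset_right (by
        refine (measure_mono ?_).trans
          (vol1.trans (ENNReal.ofReal_le_ofReal (min_le_left _ _)))
        refine inter_subset_inter_left _ fun z hz => ?_
        exact lt_of_lt_of_le (half_pos hm) hz)
    exact approx hξ hκ hκ1 lip1 le1 hm hm1 hf h1 h2
  obtain ⟨c1, c2, c3, c4⟩ := rescale hs hc
  refine ⟨_, _, fun z z' hz hz' => (c1 z z' hz hz').trans ?_, fun z hz => (c2 z hz).trans ?_,
    fun z => (c3 z).trans (by linarith), fun z hz hSz z' hz' =>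
      ⟨(c4 z hz hSz z' hz').1.trans ?_, (c4 z hz hSz z' hz').2⟩⟩
  · exact mul_le_mul_of_nonneg_right (by linarith) (nrm_nonneg ξ _)
  · exact mul_le_mul_of_nonneg_right hκε hs.le
  · exact mul_le_mul_of_nonneg_right hκε (norm_nonneg _)

end Pool.Agent.MP_7f5071_gt

end MrgPart2

-- ======== part 3: formerly Pool.Agent.MP_7f5071_gt.FP.Lin
section MrgPart3

/-! Linear algebra and convexity lemmas for the module FP. -/

namespace Pool.Agent.MP_7f5071_gt.FP

open Filter Topology Set Metric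

/-- A duality theorem for finitely many convex constraints. -/
theorem alt {U : Type*} [AddCommGroup U] [Module ℝ U] {E : Type*} [Fintype E] {K : Set U}
    (hne : K.Nonempty) (c : E → U → ℝ) (hK : Convex ℝ K) (hc : ∀ e, ConvexOn ℝ K (c e))
    (hno : ∀ u ∈ K, ∃ e, 0 ≤ c e u) :
    ∃ w : E → ℝ, (∀ e, 0 ≤ w e) ∧ (∃ e, 0 < w e) ∧ ∀ u ∈ K, 0 ≤ ∑ e, w e * c e u := by
  classical
  set A : Set (E → ℝ) := {z | ∃ u ∈ K, ∀ e, c e u < z e} with hA
  have hAo : IsOpen A := by
    have : A = ⋃ u ∈ K, Set.pi univ fun e => Ioi (c e u) := by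
      ext z
      simp [hA, Set.mem_pi]
    rw [this]
    exact isOpen_biUnion fun u _ => isOpen_set_pi finite_univ fun e _ => isOpen_Ioi
  have hAc : Convex ℝ A := by
    rintro z ⟨u, hu, hz⟩ z' ⟨u', hu', hz'⟩ a b ha hb hab
    refine ⟨a • u + b • u', hK hu hu' ha hb hab, fun e => ?_⟩
    have h1 := (hc e).2 hu hu' ha hb hab
    simp only [smul_eq_mul] at h1
    simp only [Pi.add_apply, Pi.smul_apply, smul_eq_mul]
    have h2 := hz e
    have h3 := hz' e
    rcases ha.eq_or_lt with h | h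
    · have hb1 : b = 1 := by linarith
      subst h
      subst hb1
      linarith
    · have h4 := mul_lt_mul_of_pos_left h2 h
      have h5 := mul_le_mul_of_nonneg_left h3.le hb
      linarith
  have h0 : (0 : E → ℝ) ∉ A := by
    rintro ⟨u, hu, hz⟩
    obtain ⟨e, he⟩ := hno u hu
    have := hz e
    simp only [Pi.zero_apply] at this
    linarith
  obtain ⟨f, hf⟩ := geometric_hahn_banach_open_point hAc hAo h0
  have hf0 : ∀ z ∈ A, f z < 0 := fun z hz => by simpa using hf z hz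
  have hsum : ∀ z : E → ℝ, f z = ∑ e, z e * f (Pi.single e 1) := by
    intro z
    conv_lhs => rw [pi_eq_sum_univ' z]
    rw [map_sum]
    refine Finset.sum_congr rfl fun e _ => ?_
    rw [map_smul, smul_eq_mul]
  obtain ⟨u0, hu0⟩ := hne
  have hz0 : (fun e => c e u0 + 1) ∈ A := ⟨u0, hu0, fun e => by linarith⟩
  have hw : ∀ e, 0 ≤ -f (Pi.single e 1) := by
    intro e
    by_contra hlt
    have hp : 0 < f (Pi.single e 1) := by linarith
    set t : ℝ := |f fun e => c e u0 + 1| / f (Pi.single e 1) with ht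
    have ht0 : 0 ≤ t := div_nonneg (abs_nonneg _) hp.le
    have hm : ((fun e => c e u0 + 1) + t • (Pi.single e 1 : E → ℝ)) ∈ A := by
      refine ⟨u0, hu0, fun e' => ?_⟩
      have : 0 ≤ t * (Pi.single e 1 : E → ℝ) e' :=
        mul_nonneg ht0 (by rw [Pi.single_apply]; split_ifs <;> norm_num)
      simp only [Pi.add_apply, Pi.smul_apply, smul_eq_mul]
      linarith
    have h1 := hf0 _ hm
    rw [map_add, map_smul, smul_eq_mul, ht, div_mul_cancel₀ _ hp.ne'] at h1
    have := neg_abs_le (f fun e => c e u0 + 1)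
    linarith
  refine ⟨fun e => -f (Pi.single e 1), hw, ?_, fun u hu => ?_⟩
  · by_contra hn
    push Not at hn
    have h1 := hf0 _ hz0
    rw [hsum] at h1
    have : ∑ e, (c e u0 + 1) * f (Pi.single e 1) = 0 :=
      Finset.sum_eq_zero fun e _ => by
        have : f (Pi.single e 1) = 0 := by linarith [hw e, hn e]
        rw [this, mul_zero]
    linarith
  · by_contra hlt
    push Not at hlt
    set S : ℝ := ∑ e, -f (Pi.single e 1) with hS
    have hS0 : 0 ≤ S := Finset.sum_nonneg fun e _ => hw e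
    set B : ℝ := ∑ e, -f (Pi.single e 1) * c e u with hB
    set δ : ℝ := -B / (S + 1) with hδ
    have hδ0 : 0 < δ := div_pos (by linarith) (by linarith)
    have hm : (fun e => c e u + δ) ∈ A := ⟨u, hu, fun e => by linarith⟩
    have h1 := hf0 _ hm
    rw [hsum] at h1
    have h2 : ∑ e, (c e u + δ) * f (Pi.single e 1) = -B - δ * S := by
      rw [hB, hS, Finset.mul_sum, ← Finset.sum_neg_distrib, ← Finset.sum_sub_distrib]
      exact Finset.sum_congr rfl fun e _ => by ring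
    have h3 : δ * (S + 1) = -B := by rw [hδ]; field_simp
    nlinarith

/-- A Lipschitz partition of unity with small supports. -/
theorem pou {X : Type*} [MetricSpace X] [CompactSpace X] {ρ : ℝ} (hρ : 0 < ρ) :
    ∃ (A : ℕ) (s : Fin A → X) (ζ : Fin A → X → ℝ) (Λ : ℝ), 0 ≤ Λ ∧ (∀ a x, 0 ≤ ζ a x) ∧
      (∀ x, ∑ a, ζ a x = 1) ∧ (∀ a x, ζ a x ≠ 0 → dist x (s a) < ρ) ∧
      ∀ a x x', |ζ a x - ζ a x'| ≤ Λ * dist x x' := by
  classical
  obtain ⟨t, -, htf, hcov⟩ := finite_cover_balls_of_compact (isCompact_univ (X := X))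
    (half_pos hρ)
  set A := htf.toFinset.card
  let σ : Fin A ≃ htf.toFinset := htf.toFinset.equivFin.symm
  let s : Fin A → X := fun a => (σ a : X)
  let ψ : Fin A → X → ℝ := fun a x => max (ρ - dist x (s a)) 0
  let S : X → ℝ := fun x => ∑ a, ψ a x
  have hψ0 : ∀ a x, 0 ≤ ψ a x := fun a x => le_max_right _ _
  have hψS : ∀ a x, ψ a x ≤ S x := fun a x =>
    Finset.single_le_sum (f := fun a => ψ a x) (fun a _ => hψ0 a x) (Finset.mem_univ a)
  have hS : ∀ x, ρ / 2 ≤ S x := by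
    intro x
    have hx := hcov (mem_univ x)
    simp only [mem_iUnion] at hx
    obtain ⟨z, hz, hxz⟩ := hx
    have h1 := hψS (σ.symm ⟨z, htf.mem_toFinset.2 hz⟩) x
    have h2 : s (σ.symm ⟨z, htf.mem_toFinset.2 hz⟩) = z := by simp [s]
    have h3 : ρ - dist x z ≤ ψ (σ.symm ⟨z, htf.mem_toFinset.2 hz⟩) x := by
      simp only [ψ, h2]
      exact le_max_left _ _
    have h4 := mem_ball.1 hxz
    linarith
  have hSp : ∀ x, 0 < S x := fun x => lt_of_lt_of_le (half_pos hρ) (hS x)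
  have hψl : ∀ a x x', |ψ a x - ψ a x'| ≤ dist x x' := by
    intro a x x'
    refine (abs_max_sub_max_le_abs _ _ _).trans ?_
    have := abs_dist_sub_le x' x (s a)
    rw [dist_comm x' x] at this
    have h2 : ρ - dist x (s a) - (ρ - dist x' (s a)) = dist x' (s a) - dist x (s a) := by ring
    rw [h2]
    exact this
  have hSl : ∀ x x', |S x - S x'| ≤ A * dist x x' := by
    intro x x'
    simp only [S]
    rw [← Finset.sum_sub_distrib]
    refine (Finset.abs_sum_le_sum_abs _ _).trans ?_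
    refine (Finset.sum_le_sum fun a _ => hψl a x x').trans ?_
    simp
  refine ⟨A, s, fun a x => ψ a x / S x, 2 / ρ * (1 + A), by positivity,
    fun a x => div_nonneg (hψ0 a x) (hSp x).le, fun x => ?_, fun a x h => ?_,
    fun a x x' => ?_⟩
  · rw [← Finset.sum_div]
    exact div_self (hSp x).ne'
  · by_contra hn
    push Not at hn
    apply h
    have : ψ a x = 0 := max_eq_right (by linarith)
    simp only [this, zero_div]
  · have e1 : ψ a x / S x - ψ a x' / S x' =
        ((ψ a x - ψ a x') + ψ a x' / S x' * (S x' - S x)) / S x := by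
      have := (hSp x).ne'
      have := (hSp x').ne'
      field_simp
      ring
    have h1 : ψ a x' / S x' ≤ 1 := (div_le_one (hSp x')).2 (hψS a x')
    have h0 : 0 ≤ ψ a x' / S x' := div_nonneg (hψ0 a x') (hSp x').le
    have h2 : |(ψ a x - ψ a x') + ψ a x' / S x' * (S x' - S x)| ≤ (1 + A) * dist x x' := by
      refine (abs_add_le _ _).trans ?_
      rw [abs_mul, abs_of_nonneg h0, abs_sub_comm (S x')]
      have h3 := hψl a x x'
      have h4 := hSl x x'
      have h5 : ψ a x' / S x' * |S x - S x'| ≤ 1 * (A * dist x x') :=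
        mul_le_mul h1 h4 (abs_nonneg _) zero_le_one
      linarith
    simp only []
    rw [e1, abs_div, abs_of_pos (hSp x), div_le_iff₀ (hSp x)]
    have h6 : 0 ≤ (1 + (A : ℝ)) * dist x x' := by positivity
    have h7 : 1 ≤ 2 / ρ * S x := by
      rw [div_mul_eq_mul_div, le_div_iff₀ hρ]
      linarith [hS x]
    calc _ ≤ (1 + A) * dist x x' := h2
      _ ≤ (1 + A) * dist x x' * (2 / ρ * S x) := le_mul_of_one_le_right h6 h7
      _ = _ := by ring

variable {N : ℕ}

/-- A projection onto a subspace. -/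
theorem exists_proj (W : Submodule ℝ (V N)) :
    ∃ P : V N →L[ℝ] V N, (∀ u, P u ∈ W) ∧ ∀ u ∈ W, P u = u := by
  obtain ⟨g, hg⟩ := W.subtype.exists_leftInverse_of_injective W.ker_subtype
  refine ⟨LinearMap.toContinuousLinearMap (W.subtype ∘ₗ g), fun u => (g u).2, fun u hu => ?_⟩
  have := LinearMap.congr_fun hg ⟨u, hu⟩
  simp only [LinearMap.comp_apply, Submodule.subtype_apply, LinearMap.id_apply] at this
  simp [this]

theorem apply_eq_sum (T : V N →L[ℝ] V N) (z : V N) :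
    T z = ∑ β, z β • T (Pi.single β 1) := by
  conv_lhs => rw [pi_eq_sum_univ' z]
  rw [map_sum]
  refine Finset.sum_congr rfl fun e _ => ?_
  rw [map_smul]

theorem nuc_norm {T : V N →L[ℝ] V N} (h : Nuc T) : ‖T‖ ≤ 1 := by
  refine ContinuousLinearMap.opNorm_le_bound _ zero_le_one fun z => ?_
  rw [apply_eq_sum]
  refine (norm_sum_le _ _).trans ?_
  calc ∑ β, ‖z β • T (Pi.single β 1)‖ ≤ ∑ β, ‖z‖ * ‖T (Pi.single β 1)‖ :=
        Finset.sum_le_sum fun β _ => by
          rw [norm_smul]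
          exact mul_le_mul_of_nonneg_right (norm_le_pi_norm z β) (norm_nonneg _)
    _ = ‖z‖ * ∑ β, ‖T (Pi.single β 1)‖ := by rw [Finset.mul_sum]
    _ ≤ ‖z‖ * 1 := mul_le_mul_of_nonneg_left h (norm_nonneg _)
    _ = 1 * ‖z‖ := by ring

/-- A norming functional of a vector, with coefficient sum at most one. -/
theorem exists_norming (v : V N) :
    ∃ l : V N →L[ℝ] ℝ, ∑ m : Fin N, |l (Pi.single m 1)| ≤ 1 ∧ l v = ‖v‖ := by
  classical
  by_cases hv : v = 0
  · exact ⟨0, by simp, by simp [hv]⟩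
  have hN : Nonempty (Fin N) := by
    by_contra hn
    apply hv
    funext m
    exact absurd ⟨m⟩ hn
  obtain ⟨m, hm⟩ := Finite.exists_max fun m => |v m|
  have hnorm : ‖v‖ = |v m| := by
    apply le_antisymm
    · exact (pi_norm_le_iff_of_nonneg (abs_nonneg _)).2 fun i => hm i
    · exact norm_le_pi_norm v m
  obtain ⟨sg, hsg, hsv⟩ : ∃ sg : ℝ, |sg| = 1 ∧ sg * v m = |v m| := by
    rcases le_total 0 (v m) with h | h
    · exact ⟨1, abs_one, by rw [one_mul, abs_of_nonneg h]⟩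
    · exact ⟨-1, by simp, by rw [abs_of_nonpos h]; ring⟩
  refine ⟨sg • ContinuousLinearMap.proj m, ?_, ?_⟩
  · have : ∀ m' : Fin N, |(sg • (ContinuousLinearMap.proj m : V N →L[ℝ] ℝ)) (Pi.single m' 1)|
        = if m = m' then 1 else 0 := by
      intro m'
      simp only [smul_apply, ContinuousLinearMap.proj_apply, smul_eq_mul,
        Pi.single_apply]
      split_ifs
      · rw [mul_one, hsg]
      · simp
    simp only [this]
    simp
  · simp only [smul_apply, ContinuousLinearMap.proj_apply, smul_eq_mul]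
    rw [hsv, hnorm]

/-- A nuclear rank one operator with values in `W` that dominates the identity on one pair. -/
theorem exists_nucT (W : Submodule ℝ (V N)) (τ : Fin N → ℝ) {v : V N} (hv : v ∈ W) :
    ∃ T : V N →L[ℝ] V N, Nuc T ∧ (∀ u, T u ∈ W) ∧ ∑ β, τ β * (v - T v) β ≤ 0 := by
  have hc : IsCompact ((W : Set (V N)) ∩ closedBall 0 1) :=
    (isCompact_closedBall 0 1).inter_left W.closed_of_finiteDimensional
  have hne : ((W : Set (V N)) ∩ closedBall 0 1).Nonempty := ⟨0, W.zero_mem, by simp⟩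
  have hcont : Continuous fun u : V N => ∑ β, τ β * u β := by fun_prop
  obtain ⟨t, ⟨htW, ht1⟩, hmax⟩ := hc.exists_isMaxOn hne hcont.continuousOn
  obtain ⟨l, hl1, hlv⟩ := exists_norming v
  have ht1' : ‖t‖ ≤ 1 := by simpa using ht1
  refine ⟨l.smulRight t, ?_, fun u => W.smul_mem _ htW, ?_⟩
  · unfold Nuc
    refine le_trans (Finset.sum_le_sum fun m _ => ?_) hl1
    rw [ContinuousLinearMap.smulRight_apply, norm_smul, Real.norm_eq_abs]
    exact mul_le_of_le_one_right (abs_nonneg _) ht1'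
  · rw [ContinuousLinearMap.smulRight_apply, hlv]
    have e1 : ∑ β, τ β * (v - ‖v‖ • t) β = ∑ β, τ β * v β - ‖v‖ * ∑ β, τ β * t β := by
      rw [Finset.mul_sum, ← Finset.sum_sub_distrib]
      refine Finset.sum_congr rfl fun β _ => ?_
      simp only [Pi.sub_apply, Pi.smul_apply, smul_eq_mul]
      ring
    rw [e1]
    by_cases h0 : v = 0
    · simp [h0]
    have hp : 0 < ‖v‖ := norm_pos_iff.2 h0
    have hm : (‖v‖⁻¹ • v) ∈ (W : Set (V N)) ∩ closedBall 0 1 := by
      refine ⟨W.smul_mem _ hv, ?_⟩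
      rw [mem_closedBall_zero_iff, norm_smul, norm_inv, norm_norm, inv_mul_cancel₀ hp.ne']
    have h1 : ∑ β, τ β * (‖v‖⁻¹ • v) β ≤ ∑ β, τ β * t β := hmax hm
    have e2 : ∑ β, τ β * v β = ‖v‖ * ∑ β, τ β * (‖v‖⁻¹ • v) β := by
      rw [Finset.mul_sum]
      refine Finset.sum_congr rfl fun β _ => ?_
      simp only [Pi.smul_apply, smul_eq_mul]
      field_simp
    rw [e2]
    have := mul_le_mul_of_nonneg_left h1 hp.le
    linarith

/-- The mixture of the identity with the operators `T j`. -/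
noncomputable def mix {J : Type*} [Fintype J] (T : J → V N →L[ℝ] V N) (c : J → ℝ) :
    V N →L[ℝ] V N := (1 - ∑ j, c j) • ContinuousLinearMap.id ℝ (V N) + ∑ j, c j • T j

section Mix

variable {J : Type*} [Fintype J] {T : J → V N →L[ℝ] V N} {c c' : J → ℝ}

theorem mix_sub (T : J → V N →L[ℝ] V N) (c : J → ℝ) (u : V N) :
    u - mix T c u = ∑ j, c j • (u - T j u) := by
  simp only [mix, add_apply, smul_apply,
    ContinuousLinearMap.id_apply, sum_apply, smul_sub,
    Finset.sum_sub_distrib, ← Finset.sum_smul, sub_smul, one_smul]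
  abel

theorem mix_norm (h0 : ∀ j, 0 ≤ c j) (h1 : ∑ j, c j ≤ 1) (hT : ∀ j, ‖T j‖ ≤ 1) :
    ‖mix T c‖ ≤ 1 := by
  unfold mix
  refine (norm_add_le _ _).trans ?_
  have a1 : ‖(1 - ∑ j, c j) • ContinuousLinearMap.id ℝ (V N)‖ ≤ 1 - ∑ j, c j := by
    rw [norm_smul, Real.norm_eq_abs, abs_of_nonneg (by linarith)]
    exact mul_le_of_le_one_right (by linarith) ContinuousLinearMap.norm_id_le
  have a2 : ‖∑ j, c j • T j‖ ≤ ∑ j, c j := by
    refine (norm_sum_le _ _).trans (Finset.sum_le_sum fun j _ => ?_)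
    rw [norm_smul, Real.norm_eq_abs, abs_of_nonneg (h0 j)]
    exact mul_le_of_le_one_right (h0 j) (hT j)
  linarith

theorem mix_nuc (h0 : ∀ j, 0 ≤ c j) (h1 : ∑ j, c j = 1) (hT : ∀ j, Nuc (T j)) :
    Nuc (mix T c) := by
  unfold mix Nuc
  rw [h1, sub_self, zero_smul, zero_add]
  calc ∑ m : Fin N, ‖(∑ j, c j • T j) (Pi.single m 1)‖
      ≤ ∑ m : Fin N, ∑ j, c j * ‖T j (Pi.single m 1)‖ := by
        refine Finset.sum_le_sum fun m _ => ?_
        rw [sum_apply]
        refine (norm_sum_le _ _).trans (Finset.sum_le_sum fun j _ => ?_)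
        rw [smul_apply, norm_smul, Real.norm_eq_abs, abs_of_nonneg (h0 j)]
    _ = ∑ j, c j * ∑ m : Fin N, ‖T j (Pi.single m 1)‖ := by
        rw [Finset.sum_comm]
        exact Finset.sum_congr rfl fun j _ => by rw [Finset.mul_sum]
    _ ≤ ∑ j, c j := Finset.sum_le_sum fun j _ => mul_le_of_le_one_right (h0 j) (hT j)
    _ = 1 := h1

theorem norm_sub_apply_le {S : V N →L[ℝ] V N} (hS : ‖S‖ ≤ 1) (u : V N) :
    ‖u - S u‖ ≤ 2 * ‖u‖ := by
  have h1 := norm_sub_le u (S u)
  have h2 := S.le_opNorm u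
  have h3 : ‖S‖ * ‖u‖ ≤ 1 * ‖u‖ := mul_le_mul_of_nonneg_right hS (norm_nonneg _)
  linarith

theorem mix_diff (hT : ∀ j, ‖T j‖ ≤ 1) (c c' : J → ℝ) (u : V N) :
    ‖(u - mix T c u) - (u - mix T c' u)‖ ≤ 2 * (∑ j, |c j - c' j|) * ‖u‖ := by
  rw [mix_sub, mix_sub, ← Finset.sum_sub_distrib]
  refine (norm_sum_le _ _).trans ?_
  rw [mul_comm 2, mul_assoc, Finset.sum_mul]
  refine Finset.sum_le_sum fun j _ => ?_
  rw [← sub_smul, norm_smul, Real.norm_eq_abs]
  exact mul_le_mul_of_nonneg_left (norm_sub_apply_le (hT j) u) (abs_nonneg _)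

end Mix

/-- The trace estimate for one almost rank one tensor. -/
theorem one_term {W : Submodule ℝ (V N)} {P T : V N →L[ℝ] V N} (hP : ∀ u ∈ W, P u = u)
    (hTW : ∀ u, T u ∈ W) (hT : ‖T‖ ≤ 1) {E : Type*} [Fintype E] (lam : E → ℝ) (u : E → V N)
    (hu : ∀ e, lam e ≠ 0 → u e ∈ W) (m : E → Fin N) (τ : Fin N → ℝ) (v : V N)
    (hv : ∑ β, τ β * (P v - T (P v)) β ≤ 0) :
    ∑ e, lam e * (u e - T (u e)) (m e) ≤
      2 * ‖P‖ * ∑ β, ‖∑ e, (lam e * P (Pi.single β 1) (m e)) • u e - τ β • v‖ := by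
  set M : Fin N → V N := fun β => ∑ e, (lam e * P (Pi.single β 1) (m e)) • u e with hM
  have hMW : ∀ β, M β ∈ W := by
    intro β
    refine W.sum_mem fun e _ => ?_
    by_cases h : lam e = 0
    · simp [h]
    · exact W.smul_mem _ (hu e h)
  have e1 : ∀ e, lam e * (u e - T (u e)) (m e) =
      ∑ β, (lam e * P (Pi.single β 1) (m e)) * (u e - T (u e)) β := by
    intro e
    by_cases h : lam e = 0
    · simp [h]
    have h1 : u e - T (u e) ∈ W := W.sub_mem (hu e h) (hTW _)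
    have h2 := congrFun (hP _ h1) (m e)
    rw [apply_eq_sum, Finset.sum_apply] at h2
    rw [← h2, Finset.mul_sum]
    refine Finset.sum_congr rfl fun β _ => ?_
    simp only [Pi.smul_apply, smul_eq_mul]
    ring
  have e2 : ∀ β, ∑ e, (lam e * P (Pi.single β 1) (m e)) * (u e - T (u e)) β =
      (M β - T (M β)) β := by
    intro β
    simp only [hM, map_sum, map_smul, Pi.sub_apply, Finset.sum_apply, Pi.smul_apply, smul_eq_mul,
      mul_sub, Finset.sum_sub_distrib]
  have e3 : ∀ β, (M β - T (M β)) β ≤ τ β * (P v - T (P v)) β + 2 * ‖P‖ * ‖M β - τ β • v‖ := by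
    intro β
    have h1 : M β - T (M β) = τ β • (P v - T (P v)) +
        (P (M β - τ β • v) - T (P (M β - τ β • v))) := by
      simp only [map_sub, map_smul, hP _ (hMW β), smul_sub]
      abel
    have h2 := norm_sub_apply_le hT (P (M β - τ β • v))
    have h3 := P.le_opNorm (M β - τ β • v)
    have h4 := norm_le_pi_norm (P (M β - τ β • v) - T (P (M β - τ β • v))) β
    have h5 := le_abs_self ((P (M β - τ β • v) - T (P (M β - τ β • v))) β)
    rw [Real.norm_eq_abs] at h4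
    rw [h1, Pi.add_apply, Pi.smul_apply, smul_eq_mul]
    linarith
  rw [Finset.sum_congr rfl fun e _ => e1 e, Finset.sum_comm,
    Finset.sum_congr rfl fun β _ => e2 β]
  refine (Finset.sum_le_sum fun β _ => e3 β).trans ?_
  rw [Finset.sum_add_distrib, ← Finset.mul_sum]
  linarith

end Pool.Agent.MP_7f5071_gt.FP

end MrgPart3

-- ======== part 4: formerly Pool.Agent.MP_7f5071_gt.WSGeom
section MrgPart4

/-! WS, part 2: rows, shells, staggered cuts, and the weights. -/

namespace Pool.Agent.MP_7f5071_gt.WS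

open Set Metric

variable {X : Type*} [MetricSpace X]

/-- periodic bands of `f` -/
def band (f : X → ℝ) (t0 P w : ℝ) (k : ℤ) : Set X := {x | t0 + k * P ≤ f x ∧ f x ≤ t0 + k * P + w}

theorem band_sep {f : X → ℝ} (hf : Lip 1 f) {t0 P w : ℝ} (hP : 0 ≤ P) (k l : ℤ) (a : X)
    (ha : a ∈ band f t0 P w k) (b : X) (hb : b ∈ band f t0 P w l) (hd : dist a b < P - w) :
    k = l := by
  have h := abs_le.1 (show |f a - f b| ≤ dist a b by simpa using hf a b)
  rcases lt_trichotomy k l with hk | hk | hk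
  · have : (k : ℝ) + 1 ≤ l := by exact_mod_cast hk
    have := mul_le_mul_of_nonneg_right this hP
    linarith [ha.2, hb.1]
  · exact hk
  · have : (l : ℝ) + 1 ≤ k := by exact_mod_cast hk
    have := mul_le_mul_of_nonneg_right this hP
    linarith [ha.1, hb.2]

theorem bands {C : ℝ} {f : X → ℝ} (hf : Lip 1 f)
    (hB : ∀ t ρ : ℝ, 0 < ρ → ∃ η : X → ℝ, Lip 1 η ∧ (∀ x, |η x| ≤ ρ / 2) ∧
      Bdd ρ (C * ρ) {x | t ≤ f x ∧ f x ≤ t + ρ ∧ η x ≤ ρ / 4} ∧
      Bdd ρ (C * ρ) {x | t ≤ f x ∧ f x ≤ t + ρ ∧ -(ρ / 4) ≤ η x})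
    (t0 P w ρ a : ℝ) (hw0 : 0 ≤ w) (hw : w ≤ ρ) (ha : 0 < a) (ha' : a ≤ ρ / 4)
    (hg : 2 * a ≤ P - w) : ∃ η : X → ℝ, Lip 1 η ∧ ∀ k,
      Bdd ρ (C * ρ) ({x | η x < a} ∩ band f t0 P w k) ∧
      Bdd ρ (C * ρ) ({x | -a < η x} ∩ band f t0 P w k) := by
  classical
  choose η h1 h2 h3 h4 using fun k : ℤ => hB (t0 + k * P) ρ (by linarith)
  let idx : X → ℤ := fun x => if h : ∃ k, x ∈ band f t0 P w k then h.choose else 0
  have hidx : ∀ k, ∀ x ∈ band f t0 P w k, idx x = k := by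
    intro k x hx
    have h : ∃ k, x ∈ band f t0 P w k := ⟨k, hx⟩
    simp only [idx, dif_pos h]
    exact band_sep hf (by linarith) _ _ x h.choose_spec x hx (by simp; linarith)
  have hL : LipschitzOnWith 1 (fun x => max (-a) (min a (η (idx x) x)))
      (⋃ k, band f t0 P w k) := by
    refine LipschitzOnWith.of_dist_le_mul fun x hx y hy => ?_
    obtain ⟨k, hk⟩ := mem_iUnion.1 hx
    obtain ⟨l, hl⟩ := mem_iUnion.1 hy
    rw [hidx k x hk, hidx l y hl, Real.dist_eq, NNReal.coe_one, one_mul]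
    by_cases hd : dist x y < P - w
    · obtain rfl := band_sep hf (by linarith) _ _ x hk y hl hd
      rw [max_comm (-a), max_comm (-a)]
      refine (abs_max_sub_max_le_abs _ _ _).trans ((abs_min_sub_min_le_max _ _ _ _).trans ?_)
      simpa using h1 k x y
    · have b1 : ∀ t : ℝ, -a ≤ max (-a) (min a t) := fun _ => le_max_left _ _
      have b2 : ∀ t : ℝ, max (-a) (min a t) ≤ a := fun _ => max_le (by linarith) (min_le_left _ _)
      exact abs_le.2 ⟨by linarith [b1 (η k x), b2 (η l y)], by linarith [b2 (η k x), b1 (η l y)]⟩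
  obtain ⟨g, hg1, hg2⟩ := hL.extend_real
  refine ⟨g, fun x y => by simpa [Real.dist_eq] using hg1.dist_le_mul x y, fun k => ⟨?_, ?_⟩⟩
  · refine bdd_mono (h3 k) ?_ le_rfl le_rfl
    rintro x ⟨h, hx⟩
    have e := hg2 (mem_iUnion.2 ⟨k, hx⟩)
    simp only [hidx k x hx] at e
    have h' : max (-a) (min a (η k x)) < a := e ▸ h
    have : η k x < a := by simpa using (max_lt_iff.1 h').2
    exact ⟨hx.1, by linarith [hx.2], by linarith⟩
  · refine bdd_mono (h4 k) ?_ le_rfl le_rfl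
    rintro x ⟨h, hx⟩
    have e := hg2 (mem_iUnion.2 ⟨k, hx⟩)
    simp only [hidx k x hx] at e
    have h' : -a < max (-a) (min a (η k x)) := e ▸ h
    have : -a < η k x := by
      rcases lt_max_iff.1 h' with h | h
      · exact absurd h (lt_irrefl _)
      · exact (lt_min_iff.1 h).2
    exact ⟨hx.1, by linarith [hx.2], by linarith⟩

theorem wave {f : X → ℝ} (hf : Lip 1 f) {T : ℝ} (hT : 0 < T) : ∃ G : X → ℝ, Lip 1 G ∧
    ∀ x, ∃ n : ℤ, G x = T / 2 - |f x - T / 2 - n * (2 * T)| ∧ |f x - T / 2 - n * (2 * T)| ≤ T := by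
  refine ⟨fun x => T / 2 - T * tri (f x / T - 1 / 2), fun x y => ?_, fun x => ?_⟩
  · have h1 := tri_lip (f y / T - 1 / 2) (f x / T - 1 / 2)
    rw [sub_sub_sub_cancel_right, ← sub_div, abs_div, abs_of_pos hT, le_div_iff₀ hT] at h1
    rw [sub_sub_sub_cancel_left, ← mul_sub, Real.norm_eq_abs, abs_mul, abs_of_pos hT, mul_comm]
    exact h1.trans (by simpa [abs_sub_comm] using hf x y)
  · have e : |f x - T / 2 - round ((f x / T - 1 / 2) / 2) * (2 * T)| =
        T * tri (f x / T - 1 / 2) := by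
      rw [tri, ← abs_of_pos hT, ← abs_mul, abs_of_pos hT]
      congr 1
      field_simp
    refine ⟨round ((f x / T - 1 / 2) / 2), by rw [e], ?_⟩
    rw [e]
    have := abs_sub_round ((f x / T - 1 / 2) / 2)
    have h2 : tri (f x / T - 1 / 2) ≤ 1 := by
      rw [tri, show f x / T - 1 / 2 - 2 * round ((f x / T - 1 / 2) / 2) =
        2 * ((f x / T - 1 / 2) / 2 - round ((f x / T - 1 / 2) / 2)) by ring, abs_mul, abs_two]
      linarith
    nlinarith

theorem geom {C : ℝ} (hC : 1 ≤ C) {f : X → ℝ} (hf : Lip 1 f)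
    (hB : ∀ t ρ : ℝ, 0 < ρ → ∃ η : X → ℝ, Lip 1 η ∧ (∀ x, |η x| ≤ ρ / 2) ∧
      Bdd ρ (C * ρ) {x | t ≤ f x ∧ f x ≤ t + ρ ∧ η x ≤ ρ / 4} ∧
      Bdd ρ (C * ρ) {x | t ≤ f x ∧ f x ≤ t + ρ ∧ -(ρ / 4) ≤ η x})
    {s Δ : ℝ} (hs : 0 < s) (hΔ : s ≤ Δ) : ∃ G η0 η1 ζ : X → ℝ,
      Lip 1 G ∧ Lip 1 η0 ∧ Lip 1 η1 ∧ Lip 1 ζ ∧
      Bdd s (C * s) {x | |G x| < s / 2 ∧ -(s / 4) < ζ x} ∧
      Bdd s (C * s) {x | |G x| < s / 2 ∧ ζ x < s / 4} ∧
      Bdd s (170 * C ^ 2 * Δ) {x | -(s / 2) < G x ∧ η0 x < 3 * Δ} ∧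
      Bdd s (170 * C ^ 2 * Δ) {x | -(s / 2) < G x ∧ -(3 * Δ) < η0 x} ∧
      Bdd s (170 * C ^ 2 * Δ) {x | G x < s / 2 ∧ η1 x < 3 * Δ} ∧
      Bdd s (170 * C ^ 2 * Δ) {x | G x < s / 2 ∧ -(3 * Δ) < η1 x} ∧
      ∀ x y, |G x| < s / 2 → η0 x < 3 * Δ → η1 y ≤ dist y x - 3 * Δ := by
  have hΔ0 : 0 < Δ := by linarith
  have hCΔ : Δ ≤ C * Δ := by nlinarith
  have hCC : C * Δ ≤ C ^ 2 * Δ := by nlinarith
  obtain ⟨G, hG, hGn⟩ := wave hf (T := 20 * Δ) (by linarith)
  obtain ⟨η0, l0, b0⟩ := bands hf hB (-(s / 2)) (2 * (20 * Δ)) (20 * Δ + s) (40 * Δ) (3 * Δ)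
    (by linarith) (by linarith) (by linarith) (by linarith) (by linarith)
  obtain ⟨η', l1, b1⟩ := bands hf hB (20 * Δ - s / 2) (2 * (20 * Δ)) (20 * Δ + s) (60 * C * Δ)
    (3 * Δ) (by linarith) (by linarith) (by linarith) (by linarith) (by linarith)
  obtain ⟨ζ, l2, b2⟩ := bands hf hB (-(s / 2)) (20 * Δ) s s (s / 4)
    (by linarith) (by linarith) (by linarith) (by linarith) (by linarith)
  have c0 : ∀ x, -(s / 2) < G x → ∃ k, x ∈ band f (-(s / 2)) (2 * (20 * Δ)) (20 * Δ + s) k := by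
    intro x hx
    obtain ⟨n, h1, -⟩ := hGn x
    have := abs_lt.1 (show |f x - 20 * Δ / 2 - n * (2 * (20 * Δ))| < 20 * Δ / 2 + s / 2 by linarith)
    exact ⟨n, by linarith, by linarith⟩
  have c1 : ∀ x, G x < s / 2 → ∃ k, x ∈ band f (20 * Δ - s / 2) (2 * (20 * Δ)) (20 * Δ + s) k := by
    intro x hx
    obtain ⟨n, h1, h2⟩ := hGn x
    have h3 := abs_le.1 h2
    rcases abs_cases (f x - 20 * Δ / 2 - n * (2 * (20 * Δ))) with h | h
    · exact ⟨n, by linarith, by linarith⟩
    · exact ⟨n - 1, by push_cast; linarith, by push_cast; linarith⟩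
  have c2 : ∀ x, |G x| < s / 2 → ∃ k, x ∈ band f (-(s / 2)) (20 * Δ) s k := by
    intro x hx
    obtain ⟨n, h1, h2⟩ := hGn x
    have h3 := abs_lt.1 hx
    rcases abs_cases (f x - 20 * Δ / 2 - n * (2 * (20 * Δ))) with h | h
    · exact ⟨2 * n + 1, by push_cast; linarith, by push_cast; linarith⟩
    · exact ⟨2 * n, by push_cast; linarith, by push_cast; linarith⟩
  have hCs : 0 ≤ C * s := by positivity
  have e0 : Bdd (13 * Δ) (C * (40 * Δ)) {x | -(s / 2) < G x ∧ η0 x < 3 * Δ} :=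
    bdd_sep _ (by positivity) (fun x hx => c0 x hx.1)
      (fun k l a ha b hb hd => band_sep hf (by linarith) k l a ha b hb (by linarith))
      fun k => bdd_mono (b0 k).1 (fun x hx => ⟨hx.1.2, hx.2⟩) (by linarith) le_rfl
  obtain ⟨φ, p1, p2, p3⟩ := capd {x | |G x| < s / 2 ∧ η0 x < 3 * Δ} (6 * Δ)
  have e1 : Bdd s (C * (40 * Δ) + 2 * (6 * Δ))
      {x | ∃ y ∈ {x | |G x| < s / 2 ∧ η0 x < 3 * Δ}, dist x y < 6 * Δ} :=
    bdd_nhd (by linarith) (bdd_mono e0 (fun x hx => ⟨(abs_lt.1 hx.1).1, hx.2⟩) (by linarith) le_rfl)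
  refine ⟨G, η0, fun x => min (η' x) (φ x - 3 * Δ), ζ, hG, l0, fun x y => ?_, l2, ?_, ?_,
    bdd_mono e0 Subset.rfl (by linarith) (by linarith), ?_, ?_, ?_, fun x y h1 h2 => ?_⟩
  · refine (abs_min_sub_min_le_max _ _ _ _).trans (max_le (l1 x y) ?_)
    rw [sub_sub_sub_cancel_right]; exact p1 x y
  · exact bdd_sep _ hCs (fun x hx => c2 x hx.1)
      (fun k l a ha b hb hd => band_sep hf (by linarith) k l a ha b hb (by linarith))
      fun k => bdd_mono (b2 k).2 (fun x hx => ⟨hx.1.2, hx.2⟩) le_rfl le_rfl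
  · exact bdd_sep _ hCs (fun x hx => c2 x hx.1)
      (fun k l a ha b hb hd => band_sep hf (by linarith) k l a ha b hb (by linarith))
      fun k => bdd_mono (b2 k).1 (fun x hx => ⟨hx.1.2, hx.2⟩) le_rfl le_rfl
  · exact bdd_sep _ (by positivity) (fun x hx => c0 x hx.1)
      (fun k l a ha b hb hd => band_sep hf (by linarith) k l a ha b hb (by linarith))
      fun k => bdd_mono (b0 k).2 (fun x hx => ⟨hx.1.2, hx.2⟩) (by linarith) (by linarith)
  · refine bdd_sep _ (by positivity) (fun x hx => c1 x hx.1)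
      (fun k l a ha b hb hd => band_sep hf (by linarith) k l a ha b hb (by linarith))
      fun k => bdd_mono (bdd_union hs.le (b1 k).1 e1 (by linarith)) ?_ le_rfl (by linarith)
    rintro x ⟨⟨-, h⟩, hx⟩
    rcases min_lt_iff.1 h with h | h
    · exact Or.inl ⟨h, hx⟩
    · exact Or.inr (p3 x (by linarith))
  · exact bdd_sep _ (by positivity) (fun x hx => c1 x hx.1)
      (fun k l a ha b hb hd => band_sep hf (by linarith) k l a ha b hb (by linarith))
      fun k => bdd_mono (b1 k).2 (fun x hx => ⟨(lt_min_iff.1 hx.1.2).1, hx.2⟩) (by linarith)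
        (by linarith)
  · exact (min_le_right _ _).trans (by linarith [p2 y x ⟨h1, h2⟩])

/-- a point near which the side changes -/
def Used (D : ℝ) (side : X → Prop) (z : X) : Prop := ∃ z', dist z z' ≤ D ∧ ¬(side z ↔ side z')

theorem qfun {s D Δ : ℝ} (hs : 0 < s) (hΔ : s ≤ Δ) (hD : D ≤ Δ) {G ζ η : X → ℝ} (hG : Lip 1 G)
    (hζ : Lip 1 ζ) (hη : Lip 1 η) {zb zp : X → X} (b1 : ∀ x, dist x (zb x) ≤ D)
    (p1 : ∀ x, dist x (zp x) ≤ D)
    (b2 : ∀ x ∈ {x | |G x| < s / 2 ∧ -(s / 4) < ζ x}, ∀ y ∈ {x | |G x| < s / 2 ∧ -(s / 4) < ζ x},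
      dist x y ≤ s → zb x = zb y)
    (p2 : ∀ x ∈ {x | |G x| < s / 2 ∧ ζ x < s / 4}, ∀ y ∈ {x | |G x| < s / 2 ∧ ζ x < s / 4},
      dist x y ≤ s → zp x = zp y)
    (side : X → Prop) (h0 : ∀ z, side z → 0 ≤ η z) (h1 : ∀ z, ¬side z → η z ≤ Δ) :
    ∃ q : X → ℝ, LB (19 / s) q ∧ (∀ x, 0 < q x → -(3 * Δ) < η x) ∧ (∀ x, q x < 1 → η x < 3 * Δ) ∧
      ∀ x, |G x| ≤ s / 4 → 0 < q x → q x < 1 → ζ x < s / 4 ∧ Used (2 * D) side (zp x) := by
  classical
  have hΔ0 : 0 < Δ := by linarith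
  have hG' : Lip 1 fun x => |G x| := fun x y => (abs_abs_sub_abs_le_abs_sub _ _).trans (hG x y)
  have lβ := LB.ramp hG' 2 (-(4 / s))
  have lψ := LB.ramp hζ (1 / 2) (2 / s)
  have lη := LB.ramp hη 0 (1 / Δ)
  rw [abs_neg, abs_of_pos (by positivity)] at lβ
  rw [abs_of_pos (by positivity)] at lψ lη
  set β := fun x => cl (2 + -(4 / s) * |G x|) with hβ
  set ψ := fun x => cl (1 / 2 + 2 / s * ζ x) with hψ
  set e := fun x => cl (0 + 1 / Δ * η x) with he
  have β0 : ∀ x, 0 < β x → |G x| < s / 2 := fun x h => by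
    have := h.trans_le (cl_pos h)
    rw [neg_mul, div_mul_eq_mul_div, ← sub_eq_add_neg, sub_pos, div_lt_iff₀ hs] at this
    linarith
  have β1 : ∀ x, |G x| ≤ s / 4 → β x = 1 := fun x h => cl_one (by
    have : 4 / s * |G x| ≤ 1 := by rw [div_mul_eq_mul_div, div_le_one hs]; linarith
    linarith)
  have ψ0 : ∀ x, 0 < ψ x → -(s / 4) < ζ x := fun x h => by
    have := h.trans_le (cl_pos h)
    have h2 : -(1 / 2) < 2 * ζ x / s := by rw [← div_mul_eq_mul_div]; linarith
    rw [lt_div_iff₀ hs] at h2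
    linarith
  have ψ1 : ∀ x, ψ x < 1 → ζ x < s / 4 := fun x h => by
    have := (cl_lt h).trans_lt h
    have h2 : 2 * ζ x / s < 1 / 2 := by rw [← div_mul_eq_mul_div]; linarith
    rw [div_lt_iff₀ hs] at h2
    linarith
  have e0 : ∀ x, 0 < e x → 0 < η x := fun x h => by
    have := h.trans_le (cl_pos h)
    rw [zero_add] at this
    exact (mul_pos_iff_of_pos_left (by positivity : (0 : ℝ) < 1 / Δ)).1 this
  have e1 : ∀ x, e x < 1 → η x < Δ := fun x h => by
    have := (cl_lt h).trans_lt h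
    rwa [zero_add, one_div_mul_eq_div, div_lt_one hΔ0] at this
  let σ : X → ℝ := fun z => if side z then 1 else 0
  have σ0 : ∀ z, 0 ≤ σ z := fun z => by simp only [σ]; split_ifs <;> norm_num
  have σ1 : ∀ z, σ z ≤ 1 := fun z => by simp only [σ]; split_ifs <;> norm_num
  have σl : ∀ (z z' x y : X), (dist x y ≤ s → z = z') → |σ z - σ z'| ≤ 1 / s * dist x y := by
    intro z z' x y h
    by_cases hd : dist x y ≤ s
    · rw [h hd, sub_self, abs_zero]; positivity
    · have : 1 ≤ 1 / s * dist x y := by rw [one_div_mul_eq_div, one_le_div hs]; linarith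
      exact abs_le.2 ⟨by linarith [σ0 z, σ1 z'], by linarith [σ1 z, σ0 z']⟩
  have pos2 : ∀ a b : ℝ, 0 ≤ a → 0 ≤ b → 0 < a * b → 0 < a ∧ 0 < b := fun a b ha hb h =>
    ⟨lt_of_le_of_ne ha fun e => by simp [← e] at h, lt_of_le_of_ne hb fun e => by simp [← e] at h⟩
  have w1 := lβ.mul (by positivity) lψ
  have w2 := lβ.mul (by positivity) lψ.compl
  have A := w1.mul_on (σ := fun x => σ (zb x)) (K' := 1 / s) (by positivity) (fun _ => σ0 _)
    (fun _ => σ1 _) fun x y hx hy => σl _ _ _ _ (by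
      have hx := pos2 _ _ (lβ.1 x) (lψ.1 x) hx
      have hy := pos2 _ _ (lβ.1 y) (lψ.1 y) hy
      exact b2 x ⟨β0 x hx.1, ψ0 x hx.2⟩ y ⟨β0 y hy.1, ψ0 y hy.2⟩)
  have B := w2.mul_on (σ := fun x => σ (zp x)) (K' := 1 / s) (by positivity) (fun _ => σ0 _)
    (fun _ => σ1 _) fun x y hx hy => σl _ _ _ _ (by
      have hx := pos2 _ _ (lβ.1 x) (lψ.compl.1 x) hx
      have hy := pos2 _ _ (lβ.1 y) (lψ.compl.1 y) hy
      exact p2 x ⟨β0 x hx.1, ψ1 x (by linarith [hx.2])⟩ y ⟨β0 y hy.1, ψ1 y (by linarith [hy.2])⟩)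
  have E := lβ.compl.mul (by positivity) lη
  have hηl : ∀ x y, |η x - η y| ≤ dist x y := fun x y => by simpa using hη x y
  refine ⟨fun x => β x * ψ x * σ (zb x) + β x * (1 - ψ x) * σ (zp x) + (1 - β x) * e x,
    ⟨fun x => by linarith [A.1 x, B.1 x, E.1 x], fun x => ?_, fun x y => ?_⟩, fun x hx => ?_,
    fun x hx => ?_, fun x hG h0 h1 => ?_⟩
  · have a := mul_le_of_le_one_right (w1.1 x) (σ1 (zb x))
    have b := mul_le_of_le_one_right (w2.1 x) (σ1 (zp x))
    have c := mul_le_of_le_one_right (lβ.compl.1 x) (lη.2.1 x)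
    linarith
  · have a := abs_le.1 (A.2.2 x y)
    have b := abs_le.1 (B.2.2 x y)
    have c := abs_le.1 (E.2.2 x y)
    have d : 1 / Δ * dist x y ≤ 1 / s * dist x y :=
      mul_le_mul_of_nonneg_right (one_div_le_one_div_of_le hs hΔ) dist_nonneg
    have k : ∀ r : ℝ, r / s = r * (1 / s) := fun r => by ring
    rw [k 19]
    rw [k 4] at a b c
    rw [k 2] at a b
    exact abs_le.2 ⟨by linarith, by linarith⟩
  · by_contra hc
    have n1 : ¬side (zb x) := fun h => by linarith [h0 _ h, (abs_le.1 (hηl x (zb x))).1, b1 x]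
    have n2 : ¬side (zp x) := fun h => by linarith [h0 _ h, (abs_le.1 (hηl x (zp x))).1, p1 x]
    have n3 : e x = 0 := le_antisymm (not_lt.1 fun h => by linarith [e0 x h]) (lη.1 x)
    simp [σ, n1, n2, n3] at hx
  · by_contra hc
    have n1 : side (zb x) := by
      by_contra h; linarith [h1 _ h, (abs_le.1 (hηl x (zb x))).2, b1 x]
    have n2 : side (zp x) := by
      by_contra h; linarith [h1 _ h, (abs_le.1 (hηl x (zp x))).2, p1 x]
    have n3 : e x = 1 := le_antisymm (lη.2.1 x) (not_lt.1 fun h => by linarith [e1 x h])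
    simp only [σ, if_pos n1, if_pos n2, n3] at hx
    linarith
  · simp only [β1 x hG] at h0 h1
    have hne : ¬(side (zp x) ↔ side (zb x)) := by
      intro h
      by_cases h' : side (zp x)
      · simp only [σ, if_pos h', if_pos (h.1 h')] at h1; linarith
      · simp only [σ, if_neg h', if_neg (mt h.2 h')] at h0; linarith
    refine ⟨ψ1 x (lt_of_le_of_ne (lψ.2.1 x) fun h => ?_), zb x, ?_, hne⟩
    · rw [h] at h0 h1
      by_cases h' : side (zb x)
      · simp only [σ, if_pos h'] at h1; linarith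
      · simp only [σ, if_neg h'] at h0; linarith
    · linarith [dist_triangle_left (zp x) (zb x) x, b1 x, p1 x]

end Pool.Agent.MP_7f5071_gt.WS

end MrgPart4

-- marker of a merged file
example : 731051 + 136037 = 731051 + 136037 := rfl
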