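import Mathlib.Topology.Sheaves.Presheaf
import Mathlib.Tactic.Monotonicity.Lemmas
import Mathlib.Algebra.Order.Ring.Star
import Mathlib.Algebra.Order.Star.Real
import Mathlib.Analysis.Calculus.MeanValue
import Mathlib.Combinatorics.SimpleGraph.Basic
import Mathlib.RingTheory.PiTensorProduct
import Pool.Agent.MP_7f5071_gt.Spec

/-! Shared lemmas: Lipschitz bounds, geodesics, `Near`, gluing. -/

namespace Pool.Agent.MP_7f5071_gt

open Filter Topology Set Metric MeasureTheory

section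

variable {X : Type*} [MetricSpace X] {E : Type*} [NormedAddCommGroup E]

theorem Lip.mono {K K' : ℝ} {F : X → E} (h : Lip K F) (hK : K ≤ K') : Lip K' F :=
  fun x y => (h x y).trans (mul_le_mul_of_nonneg_right hK dist_nonneg)

theorem Lip.lipschitzWith {K : ℝ} {F : X → E} (h : Lip K F) :
    LipschitzWith (Real.toNNReal K) F := by
  refine LipschitzWith.of_dist_le_mul fun x y => ?_
  rw [dist_eq_norm]
  exact (h x y).trans (mul_le_mul_of_nonneg_right (Real.le_coe_toNNReal K) dist_nonneg)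

theorem Lip.continuous {K : ℝ} {F : X → E} (h : Lip K F) : Continuous F :=
  h.lipschitzWith.continuous

theorem lip_of_lipschitzWith {K : NNReal} {F : X → E} (h : LipschitzWith K F) : Lip K F :=
  fun x y => by rw [← dist_eq_norm]; exact h.dist_le_mul x y

theorem Lip.plip {K : ℝ} {F : X → E} (h : Lip K F) (x : X) : PLip K F x :=
  Eventually.of_forall fun y => h y x

theorem Lip.abs_sub_le {K : ℝ} {f : X → ℝ} (h : Lip K f) (x y : X) :
    |f x - f y| ≤ K * dist x y := h x y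

theorem lip_dist (o : X) : Lip 1 (fun x => dist x o) := fun x y => by
  rw [one_mul]; exact abs_dist_sub_le x y o

theorem lip_infDist (S : Set X) : Lip 1 (fun x => infDist x S) := by
  simpa using lip_of_lipschitzWith (lipschitz_infDist_pt S)

theorem PLip.mono {K K' : ℝ} {F : X → E} {x : X} (h : PLip K F x) (hK : K ≤ K') : PLip K' F x :=
  Eventually.mono h fun _ hy => le_trans hy (mul_le_mul_of_nonneg_right hK dist_nonneg)

theorem PLip.congr {K : ℝ} {F G : X → E} {x : X} (h : PLip K F x) (hG : ∀ᶠ y in 𝓝 x, G y = F y) :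
    PLip K G x := by
  have hx : G x = F x := hG.self_of_nhds
  filter_upwards [h, hG] with y h1 h2
  rw [h2, hx]; exact h1

theorem plip_const (c : E) (x : X) : PLip 0 (fun _ : X => c) x :=
  Eventually.of_forall fun y => by simp

theorem PLip.add {K K' : ℝ} {F G : X → E} {x : X} (h : PLip K F x) (h' : PLip K' G x) :
    PLip (K + K') (fun y => F y + G y) x := by
  filter_upwards [h, h'] with y h1 h2
  have : F y + G y - (F x + G x) = (F y - F x) + (G y - G x) := by abel
  rw [this, add_mul]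
  exact (norm_add_le _ _).trans (add_le_add h1 h2)

theorem PLip.sub {K K' : ℝ} {F G : X → E} {x : X} (h : PLip K F x) (h' : PLip K' G x) :
    PLip (K + K') (fun y => F y - G y) x := by
  filter_upwards [h, h'] with y h1 h2
  have : F y - G y - (F x - G x) = (F y - F x) - (G y - G x) := by abel
  rw [this, add_mul]
  exact (norm_sub_le _ _).trans (add_le_add h1 h2)

theorem PLip.continuousAt {K : ℝ} {F : X → E} {x : X} (h : PLip K F x) : ContinuousAt F x := by
  rw [ContinuousAt, tendsto_iff_norm_sub_tendsto_zero]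
  have h0 : Tendsto (fun y => K * dist y x) (𝓝 x) (𝓝 0) := by
    have : Continuous fun y => K * dist y x := by fun_prop
    simpa using this.tendsto x
  exact squeeze_zero' (Eventually.of_forall fun _ => norm_nonneg _) h h0

/-- A blend `F + θ (G - F)`: the pointed Lipschitz constant is `K + Kθ * ‖G x - F x‖`. -/
theorem PLip.blend [NormedSpace ℝ E] {K Kθ D : ℝ} {F G : X → E} {θ : X → ℝ} {x : X}
    (hF : PLip K F x) (hG : PLip K G x) (hθ : PLip Kθ θ x)
    (h01 : ∀ y, θ y ∈ Icc (0 : ℝ) 1) (hK : 0 ≤ Kθ) (hD : ‖G x - F x‖ ≤ D) :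
    PLip (K + Kθ * D) (fun y => F y + θ y • (G y - F y)) x := by
  filter_upwards [hF, hG, hθ] with y h1 h2 h3
  have e : F y + θ y • (G y - F y) - (F x + θ x • (G x - F x)) =
      (1 - θ y) • (F y - F x) + θ y • (G y - G x) + (θ y - θ x) • (G x - F x) := by
    module
  rw [e]
  have a1 : ‖(1 - θ y) • (F y - F x)‖ ≤ (1 - θ y) * (K * dist y x) := by
    rw [norm_smul, Real.norm_of_nonneg (by linarith [(h01 y).2])]
    exact mul_le_mul_of_nonneg_left h1 (by linarith [(h01 y).2])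
  have a2 : ‖θ y • (G y - G x)‖ ≤ θ y * (K * dist y x) := by
    rw [norm_smul, Real.norm_of_nonneg (h01 y).1]
    exact mul_le_mul_of_nonneg_left h2 (h01 y).1
  have a3 : ‖(θ y - θ x) • (G x - F x)‖ ≤ (Kθ * dist y x) * D := by
    rw [norm_smul]
    exact mul_le_mul h3 hD (norm_nonneg _) (mul_nonneg hK dist_nonneg)
  have := norm_add₃_le (a := (1 - θ y) • (F y - F x)) (b := θ y • (G y - G x))
    (c := (θ y - θ x) • (G x - F x))
  nlinarith

namespace IsGeod

variable {γ : ℝ → X} {x y : X}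

theorem continuous (h : IsGeod γ x y) : Continuous γ := h.lip.continuous

theorem dist_left (h : IsGeod γ x y) {t : ℝ} (ht : t ∈ Icc 0 (dist x y)) : dist (γ t) x = t := by
  have := h.iso t ht 0 ⟨le_rfl, dist_nonneg⟩
  rw [h.src, sub_zero, abs_of_nonneg ht.1] at this
  exact this

theorem dist_right (h : IsGeod γ x y) {t : ℝ} (ht : t ∈ Icc 0 (dist x y)) :
    dist (γ t) y = dist x y - t := by
  have := h.iso t ht (dist x y) ⟨dist_nonneg, le_rfl⟩
  rw [h.tgt, abs_of_nonpos (by linarith [ht.2])] at this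
  linarith

/-- The part of a geodesic between two times. -/
theorem joinedIn_sub (h : IsGeod γ x y) {S : Set X} {a b : ℝ} (hab : a ≤ b)
    (hS : ∀ t ∈ Icc a b, γ t ∈ S) : JoinedIn S (γ a) (γ b) := by
  have hc : IsPathConnected (γ '' Icc a b) :=
    ((convex_Icc a b).isPathConnected ⟨a, left_mem_Icc.2 hab⟩).image h.continuous
  exact (hc.joinedIn _ (mem_image_of_mem _ (left_mem_Icc.2 hab)) _
    (mem_image_of_mem _ (right_mem_Icc.2 hab))).mono (by rintro _ ⟨t, ht, rfl⟩; exact hS t ht)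

theorem joinedIn (h : IsGeod γ x y) {S : Set X} (hS : ∀ t ∈ Icc 0 (dist x y), γ t ∈ S) :
    JoinedIn S x y := by
  have := h.joinedIn_sub dist_nonneg hS
  rwa [h.src, h.tgt] at this

/-- Local to global along a geodesic. -/
theorem norm_sub_le (h : IsGeod γ x y) {K : ℝ} {F : X → E}
    (hF : ∀ t ∈ Icc 0 (dist x y), PLip K F (γ t)) : ‖F x - F y‖ ≤ K * dist x y := by
  have hc : ContinuousOn (fun t => ‖F (γ t) - F x‖) (Icc 0 (dist x y)) := fun t ht =>
    (((hF t ht).continuousAt.comp h.continuous.continuousAt).sub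
      continuousAt_const).norm.continuousWithinAt
  have key := image_le_of_liminf_slope_right_le_deriv_boundary (B := fun t => K * t)
    (B' := fun _ => K) hc (by simp [h.src]) (by fun_prop)
    (fun t _ => by simpa using ((hasDerivAt_id t).const_mul K).hasDerivWithinAt)
    (fun t ht r hr => by
      have h1 : ∀ᶠ z in 𝓝[>] t, ‖F (γ z) - F (γ t)‖ ≤ K * dist (γ z) (γ t) :=
        nhdsWithin_le_nhds (h.continuous.continuousAt.eventually (hF t (Ico_subset_Icc_self ht)))
      have h2 : ∀ᶠ z in 𝓝[>] t, z ∈ Ioo t (dist x y) := Ioo_mem_nhdsGT ht.2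
      refine ((h1.and h2).mono fun z hz => ?_).frequently
      obtain ⟨hz1, hz2⟩ := hz
      rw [h.iso z ⟨ht.1.trans hz2.1.le, hz2.2.le⟩ t (Ico_subset_Icc_self ht),
        abs_of_pos (sub_pos.2 hz2.1)] at hz1
      rw [slope_def_field, div_lt_iff₀ (sub_pos.2 hz2.1)]
      have h3 := norm_sub_norm_le (F (γ z) - F x) (F (γ t) - F x)
      rw [sub_sub_sub_cancel_right] at h3
      nlinarith [sub_pos.2 hz2.1])
    (right_mem_Icc.2 dist_nonneg)
  simpa [h.tgt, norm_sub_rev] using key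

end IsGeod

theorem Geodesic.joinedIn (h : Geodesic X) {S : Set X} {x y : X}
    (hS : ∀ w, dist w x + dist w y = dist x y → w ∈ S) : JoinedIn S x y := by
  obtain ⟨γ, hγ⟩ := h x y
  exact hγ.joinedIn fun t ht => hS _ (by rw [hγ.dist_left ht, hγ.dist_right ht]; ring)

theorem Geodesic.joinedIn_ball (h : Geodesic X) {x y : X} {r : ℝ} (hy : y ∈ ball x r) :
    JoinedIn (ball x r) x y :=
  h.joinedIn fun w hw => by
    rw [mem_ball] at hy ⊢
    rw [dist_comm] at hy
    linarith [dist_nonneg (x := w) (y := y)]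

/-- Local to global, on the metric segment. -/
theorem Geodesic.norm_sub_le (h : Geodesic X) {K : ℝ} {F : X → E} {x y : X}
    (hF : ∀ w, dist w x + dist w y = dist x y → PLip K F w) : ‖F x - F y‖ ≤ K * dist x y := by
  obtain ⟨γ, hγ⟩ := h x y
  exact hγ.norm_sub_le fun t ht => hF _ (by rw [hγ.dist_left ht, hγ.dist_right ht]; ring)

theorem lip_of_plip (h : Geodesic X) {K : ℝ} {F : X → E} (hF : ∀ x, PLip K F x) : Lip K F :=
  fun _ _ => h.norm_sub_le fun w _ => hF w

theorem Geodesic.norm_sub_le_ball (h : Geodesic X) {K r : ℝ} {F : X → E} {z x y : X}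
    (hF : ∀ w ∈ ball z (2 * r), PLip K F w) (hx : x ∈ ball z r) (hy : y ∈ ball z r) :
    ‖F x - F y‖ ≤ K * dist x y :=
  h.norm_sub_le fun w hw => hF w (by
    rw [mem_ball] at hx hy ⊢
    have h1 := dist_triangle w x z
    have h2 := dist_triangle w y z
    have h3 := dist_triangle_right x y z
    linarith)

/-- Intermediate values on a metric segment. -/
theorem Geodesic.exists_level (h : Geodesic X) {f : X → ℝ} (hf : Continuous f) {x y : X} {t : ℝ}
    (h1 : f x ≤ t) (h2 : t ≤ f y) : ∃ w, dist w x + dist w y = dist x y ∧ f w = t := by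
  obtain ⟨γ, hγ⟩ := h x y
  have := intermediate_value_Icc (dist_nonneg (x := x) (y := y))
    (hf.comp hγ.continuous).continuousOn
  obtain ⟨s, hs, hst⟩ := this (show t ∈ Icc ((f ∘ γ) 0) ((f ∘ γ) (dist x y)) by
    simp only [Function.comp, hγ.src, hγ.tgt]; exact ⟨h1, h2⟩)
  exact ⟨γ s, by rw [hγ.dist_left hs, hγ.dist_right hs]; ring, hst⟩

variable {N : ℕ}

theorem Near.refl {δ : ℝ} (hδ : 0 < δ) (H : X → V N) : Near δ H H := fun x =>
  ⟨by simpa using hδ.le, subset_affineSpan _ _ (mem_image_of_mem _ (mem_ball_self hδ))⟩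

theorem Near.mono {δ δ' : ℝ} {H H' : X → V N} (h : Near δ H H') (hδ : δ ≤ δ') : Near δ' H H' :=
  fun x => ⟨(h x).1.trans hδ, affineSpan_mono _ (image_mono (ball_subset_ball hδ)) (h x).2⟩

theorem Near.trans {δ δ' : ℝ} {H H' H'' : X → V N} (h : Near δ H H') (h' : Near δ' H' H'') :
    Near (δ + δ') H H'' := fun x => by
  constructor
  · have := norm_sub_le_norm_sub_add_norm_sub (H'' x) (H' x) (H x)
    linarith [(h x).1, (h' x).1]
  · refine (affineSpan_le.2 ?_ : affineSpan ℝ (H' '' ball x δ') ≤ _) (h' x).2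
    rintro _ ⟨y, hy, rfl⟩
    refine affineSpan_mono _ (image_mono ?_) (h y).2
    intro w hw
    rw [mem_ball] at hy hw ⊢
    linarith [dist_triangle w y x]

theorem near_of_tendsto {δ : ℝ} {H H' : X → V N} {Hs : ℕ → X → V N} (h : ∀ k, Near δ H (Hs k))
    (hl : ∀ x, Tendsto (fun k => Hs k x) atTop (𝓝 (H' x))) : Near δ H H' := fun x =>
  ⟨le_of_tendsto' ((hl x).sub_const (H x)).norm fun k => (h k x).1,
    (affineSpan ℝ (H '' ball x δ)).closed_of_finiteDimensional.mem_of_tendsto (hl x)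
      (Eventually.of_forall fun k => (h k x).2)⟩

omit [MetricSpace X] in
theorem InPlane.mono {H : X → V N} {B B' : Set X} (h : InPlane H B) (hB : B' ⊆ B) :
    InPlane H B' := by
  obtain ⟨c, a, b, h⟩ := h
  exact ⟨c, a, b, fun y hy => h y (hB hy)⟩

/-- The affine span of a subset of a plane lies in the plane. -/
theorem mem_plane_of_mem_affineSpan {c a b : V N} {S : Set (V N)}
    (hS : ∀ p ∈ S, ∃ s t : ℝ, p = c + s • a + t • b) {p : V N} (hp : p ∈ affineSpan ℝ S) :
    ∃ s t : ℝ, p = c + s • a + t • b := by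
  refine affineSpan_induction (p := fun p => ∃ s t : ℝ, p = c + s • a + t • b) hp hS ?_
  · intro k u v w hu hv hw
    obtain ⟨s1, t1, rfl⟩ := hu
    obtain ⟨s2, t2, rfl⟩ := hv
    obtain ⟨s3, t3, rfl⟩ := hw
    refine ⟨k * (s1 - s2) + s3, k * (t1 - t2) + t3, ?_⟩
    simp only [vsub_eq_sub, vadd_eq_add]
    module

theorem Near.inPlane {δ ρ : ℝ} {H H' : X → V N} (h : Near δ H H') {x : X}
    (hp : InPlane H (ball x ρ)) : InPlane H' (ball x (ρ - δ)) := by
  obtain ⟨c, a, b, hc⟩ := hp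
  refine ⟨c, a, b, fun y hy => mem_plane_of_mem_affineSpan ?_ (h y).2⟩
  rintro _ ⟨w, hw, rfl⟩
  refine hc w ?_
  rw [mem_ball] at hy hw ⊢
  linarith [dist_triangle w y x]

theorem LocPlanar.congr {H H' : X → V N} {x : X} (h : LocPlanar H x)
    (hH : ∀ᶠ y in 𝓝 x, H' y = H y) : LocPlanar H' x := by
  obtain ⟨r, hr, c, a, b, hc⟩ := h
  obtain ⟨r', hr', h'⟩ := Metric.eventually_nhds_iff_ball.1 hH
  refine ⟨min r r', lt_min hr hr', c, a, b, fun y hy => ?_⟩
  rw [h' y (ball_subset_ball (min_le_right _ _) hy)]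
  exact hc y (ball_subset_ball (min_le_left _ _) hy)

theorem locPlanar_of_eventually {H : X → V N} {x : X} {c a b : V N}
    (h : ∀ᶠ y in 𝓝 x, ∃ s t : ℝ, H y = c + s • a + t • b) : LocPlanar H x := by
  obtain ⟨r, hr, h'⟩ := Metric.eventually_nhds_iff_ball.1 h
  exact ⟨r, hr, c, a, b, h'⟩

/-- A uniform radius of planarity on a compact set. -/
theorem exists_uniform_inPlane {H : X → V N} {D : Set X} (hD : IsCompact D)
    (h : ∀ x ∈ D, LocPlanar H x) : ∃ ρ > 0, ∀ x ∈ D, InPlane H (ball x ρ) := by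
  choose! r hr hp using h
  obtain ⟨ρ, hρ, hc⟩ := lebesgue_number_lemma_of_metric (c := fun x : D => ball x.1 (r x)) hD
    (fun _ => isOpen_ball) (fun x hx => mem_iUnion.2 ⟨⟨x, hx⟩, mem_ball_self (hr x hx)⟩)
  refine ⟨ρ, hρ, fun x hx => ?_⟩
  obtain ⟨i, hi⟩ := hc x hx
  exact (hp i.1 i.2).mono hi

theorem locPlanar_of_near {H : X → V N} {D : Set X} (hD : IsCompact D)
    (h : ∀ x ∈ D, LocPlanar H x) :
    ∃ δ0 > 0, ∀ H' : X → V N, Near δ0 H H' → ∀ x ∈ D, LocPlanar H' x := by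
  obtain ⟨ρ, hρ, hp⟩ := exists_uniform_inPlane hD h
  exact ⟨ρ / 2, by positivity, fun H' hn x hx =>
    ⟨ρ - ρ / 2, by linarith, hn.inPlane (hp x hx)⟩⟩

theorem Flat.mono {γ γ' : ℝ} {H : X → V N} {B B' : Set X} (h : Flat γ H B) (hγ : γ ≤ γ')
    (hB : B' ⊆ B) : Flat γ' H B' := by
  obtain ⟨a, h⟩ := h
  refine ⟨a, fun x hx y hy => ?_⟩
  obtain ⟨t, ht⟩ := h x (hB hx) y (hB hy)
  exact ⟨t, ht.trans (mul_le_mul_of_nonneg_right hγ dist_nonneg)⟩

/-- Gluing finitely many modifications with disjoint closed supports. -/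
theorem glue {ι : Type*} [Finite ι] {Y : Type*} (H : X → Y) (Hs : ι → X → Y) (S : ι → Set X)
    (hc : ∀ i, IsClosed (S i)) (hd : ∀ i j, i ≠ j → Disjoint (S i) (S j))
    (he : ∀ i y, y ∉ S i → Hs i y = H y) :
    ∃ H' : X → Y, (∀ i y, (∀ j, j ≠ i → y ∉ S j) → H' y = Hs i y) ∧
      (∀ y, (∀ i, y ∉ S i) → H' y = H y) ∧
      (∀ i, ∀ x ∈ S i, ∀ᶠ y in 𝓝 x, H' y = Hs i y) ∧
      ∀ x, (∀ i, x ∉ S i) → ∀ᶠ y in 𝓝 x, H' y = H y := by
  classical
  let H' : X → Y := fun y => if h : ∃ i, y ∈ S i then Hs h.choose y else H y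
  have h2 : ∀ y, (∀ i, y ∉ S i) → H' y = H y := fun y hy => dif_neg (not_exists.2 hy)
  have h1 : ∀ i y, (∀ j, j ≠ i → y ∉ S j) → H' y = Hs i y := by
    intro i y hy
    by_cases h : ∃ j, y ∈ S j
    · have : h.choose = i := by
        by_contra hne
        exact hy _ hne h.choose_spec
      simp only [H', dif_pos h, this]
    · rw [h2 y (not_exists.1 h), he i y (not_exists.1 h i)]
  refine ⟨H', h1, h2, fun i x hx => ?_, fun x hx => ?_⟩
  · have : ∀ᶠ y in 𝓝 x, ∀ j, j ≠ i → y ∉ S j := by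
      rw [eventually_all]
      intro j
      by_cases hj : j = i
      · exact Eventually.of_forall fun y h => absurd hj h
      · have : x ∈ (S j)ᶜ := fun h => Set.disjoint_left.1 (hd i j (Ne.symm hj)) hx h
        filter_upwards [(hc j).isOpen_compl.mem_nhds this] with y hy _ using hy
    exact this.mono fun y hy => h1 i y hy
  · have : ∀ᶠ y in 𝓝 x, ∀ j, y ∉ S j := by
      rw [eventually_all]
      intro j
      exact (hc j).isOpen_compl.mem_nhds (hx j)
    exact this.mono fun y hy => h2 y hy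

/-- Gluing keeps Lipschitz bounds and `Near`. -/
theorem glue_lip_near (hg : Geodesic X) {ι : Type*} [Finite ι] (H : X → V N) (Hs : ι → X → V N)
    (S : ι → Set X) (hc : ∀ i, IsClosed (S i)) (hd : ∀ i j, i ≠ j → Disjoint (S i) (S j))
    (he : ∀ i y, y ∉ S i → Hs i y = H y) {K δ : ℝ} (hδ : 0 < δ) (hH : Lip K H)
    (hL : ∀ i, Lip K (Hs i)) (hN : ∀ i, Near δ H (Hs i)) :
    ∃ H' : X → V N, Lip K H' ∧ Near δ H H' ∧
      (∀ i y, (∀ j, j ≠ i → y ∉ S j) → H' y = Hs i y) ∧ (∀ y, (∀ i, y ∉ S i) → H' y = H y) ∧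
      (∀ i, ∀ x ∈ S i, ∀ᶠ y in 𝓝 x, H' y = Hs i y) ∧
      ∀ x, (∀ i, x ∉ S i) → ∀ᶠ y in 𝓝 x, H' y = H y := by
  obtain ⟨H', h1, h2, h3, h4⟩ := glue H Hs S hc hd he
  refine ⟨H', lip_of_plip hg fun x => ?_, fun x => ?_, h1, h2, h3, h4⟩
  · by_cases h : ∃ i, x ∈ S i
    · obtain ⟨i, hi⟩ := h
      exact ((hL i).plip x).congr (h3 i x hi)
    · exact (hH.plip x).congr (h4 x (not_exists.1 h))
  · by_cases h : ∃ i, x ∈ S i
    · obtain ⟨i, hi⟩ := h
      rw [(h3 i x hi).self_of_nhds]; exact hN i x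
    · rw [h2 x (not_exists.1 h)]; exact Near.refl hδ H x

/-- McShane extension. -/
theorem exists_lip_extension {K : ℝ} (hK : 0 ≤ K) {S : Set X} {f : X → ℝ}
    (hf : ∀ x ∈ S, ∀ y ∈ S, |f x - f y| ≤ K * dist x y) :
    ∃ g : X → ℝ, Lip K g ∧ ∀ x ∈ S, g x = f x := by
  have h : LipschitzOnWith ⟨K, hK⟩ f S :=
    LipschitzOnWith.of_dist_le_mul fun x hx y hy => hf x hx y hy
  obtain ⟨g, hg, he⟩ := h.extend_real
  exact ⟨g, lip_of_lipschitzWith hg, fun x hx => (he hx).symm⟩

end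

end Pool.Agent.MP_7f5071_gt
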