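import Mathlib.RingTheory.Flat.TorsionFree
import Mathlib.MeasureTheory.Measure.Hausdorff
import Mathlib.RingTheory.TotallySplit
import Mathlib.RingTheory.Etale.Weakly
import Pool.Agent.MP_7f5071_gt.Spec
import Pool.Agent.MP_7f5071_gt.BasicA

-- ======== part 0: formerly Pool.Agent.MP_7f5071_gt.Basic
section MrgPart0

-- ======== part 0: formerly Pool.Agent.MP_7f5071_gt.BasicB
section MrgPart0

/-! Shared lemmas: polygonal norms, clamping, the theorem of the alternative, null images. -/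

namespace Pool.Agent.MP_7f5071_gt

open Filter Topology Set Metric MeasureTheory

theorem ev_add (ξ v w : R2) : ev ξ (v + w) = ev ξ v + ev ξ w := by simp [ev]; ring
theorem ev_sub (ξ v w : R2) : ev ξ (v - w) = ev ξ v - ev ξ w := by simp [ev]; ring
theorem ev_neg (ξ v : R2) : ev ξ (-v) = -ev ξ v := by simp [ev]; ring
theorem ev_smul (ξ : R2) (c : ℝ) (v : R2) : ev ξ (c • v) = c * ev ξ v := by simp [ev]; ring
theorem ev_zero (ξ : R2) : ev ξ 0 = 0 := by simp [ev]

theorem abs_fst_le_norm (v : R2) : |v.1| ≤ ‖v‖ := norm_fst_le v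
theorem abs_snd_le_norm (v : R2) : |v.2| ≤ ‖v‖ := norm_snd_le v
theorem norm_le_of_abs {v : R2} {r : ℝ} (h1 : |v.1| ≤ r) (h2 : |v.2| ≤ r) : ‖v‖ ≤ r := by
  rw [Prod.norm_def]; exact max_le h1 h2

theorem abs_ev_le (ξ v : R2) : |ev ξ v| ≤ 2 * ‖ξ‖ * ‖v‖ := by
  have h1 : |ξ.1 * v.1| ≤ ‖ξ‖ * ‖v‖ := by
    rw [abs_mul]
    exact mul_le_mul (abs_fst_le_norm ξ) (abs_fst_le_norm v) (abs_nonneg _) (norm_nonneg _)
  have h2 : |ξ.2 * v.2| ≤ ‖ξ‖ * ‖v‖ := by
    rw [abs_mul]
    exact mul_le_mul (abs_snd_le_norm ξ) (abs_snd_le_norm v) (abs_nonneg _) (norm_nonneg _)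
  have := abs_add_le (ξ.1 * v.1) (ξ.2 * v.2)
  unfold ev
  linarith

section Nrm

variable {J : ℕ} {ξ : Fin J → R2}

theorem nrm_nonneg (ξ : Fin J → R2) (v : R2) : 0 ≤ nrm ξ v := norm_nonneg _

theorem abs_ev_le_nrm (ξ : Fin J → R2) (j : Fin J) (v : R2) : |ev (ξ j) v| ≤ nrm ξ v :=
  norm_le_pi_norm (fun j => ev (ξ j) v) j

theorem nrm_le_iff {v : R2} {r : ℝ} (hr : 0 ≤ r) : nrm ξ v ≤ r ↔ ∀ j, |ev (ξ j) v| ≤ r :=
  pi_norm_le_iff_of_nonneg hr

theorem nrm_zero (ξ : Fin J → R2) : nrm ξ 0 = 0 := by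
  have : (fun j => ev (ξ j) 0) = 0 := funext fun j => ev_zero _
  rw [nrm, this, norm_zero]

theorem nrm_add_le (ξ : Fin J → R2) (v w : R2) : nrm ξ (v + w) ≤ nrm ξ v + nrm ξ w := by
  have : (fun j => ev (ξ j) (v + w)) = (fun j => ev (ξ j) v) + fun j => ev (ξ j) w :=
    funext fun j => ev_add _ _ _
  rw [nrm, this]; exact norm_add_le _ _

theorem nrm_smul (ξ : Fin J → R2) (c : ℝ) (v : R2) : nrm ξ (c • v) = |c| * nrm ξ v := by
  have : (fun j => ev (ξ j) (c • v)) = c • fun j => ev (ξ j) v :=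
    funext fun j => ev_smul _ _ _
  rw [nrm, this, norm_smul]; rfl

theorem nrm_neg (ξ : Fin J → R2) (v : R2) : nrm ξ (-v) = nrm ξ v := by
  simpa using nrm_smul ξ (-1) v

theorem nrm_sub_comm (ξ : Fin J → R2) (v w : R2) : nrm ξ (v - w) = nrm ξ (w - v) := by
  rw [← nrm_neg, neg_sub]

theorem nrm_sub_le (ξ : Fin J → R2) (v w : R2) : nrm ξ (v - w) ≤ nrm ξ v + nrm ξ w := by
  rw [sub_eq_add_neg, ← nrm_neg ξ w]; exact nrm_add_le _ _ _

theorem nrm_sum_le {ι : Type*} (ξ : Fin J → R2) (s : Finset ι) (f : ι → R2) :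
    nrm ξ (∑ i ∈ s, f i) ≤ ∑ i ∈ s, nrm ξ (f i) := by
  classical
  induction s using Finset.induction_on with
  | empty => simp [nrm_zero]
  | insert a s ha ih =>
    rw [Finset.sum_insert ha, Finset.sum_insert ha]
    exact (nrm_add_le _ _ _).trans (by linarith)

theorem continuous_nrm (ξ : Fin J → R2) : Continuous (nrm ξ) := by
  unfold nrm ev
  fun_prop

theorem Normal.norm_le_nrm (h : Normal ξ) (v : R2) : ‖v‖ ≤ nrm ξ v := by
  obtain ⟨⟨j, hj⟩, ⟨k, hk⟩, -⟩ := h
  refine norm_le_of_abs ?_ ?_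
  · simpa [hj, ev] using abs_ev_le_nrm ξ j v
  · simpa [hk, ev] using abs_ev_le_nrm ξ k v

theorem Normal.nrm_le_add (h : Normal ξ) (v : R2) : nrm ξ v ≤ |v.1| + |v.2| := by
  refine (nrm_le_iff (by positivity)).2 fun j => ?_
  have h1 : |(ξ j).1| ≤ 1 := (abs_fst_le_norm _).trans (h.2.2 j)
  have h2 : |(ξ j).2| ≤ 1 := (abs_snd_le_norm _).trans (h.2.2 j)
  have := abs_add_le ((ξ j).1 * v.1) ((ξ j).2 * v.2)
  rw [abs_mul, abs_mul] at this
  unfold ev
  nlinarith [abs_nonneg v.1, abs_nonneg v.2]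

theorem Normal.nrm_le_two_norm (h : Normal ξ) (v : R2) : nrm ξ v ≤ 2 * ‖v‖ := by
  linarith [h.nrm_le_add v, abs_fst_le_norm v, abs_snd_le_norm v]

/-- The norm is attained by one of the covectors. -/
theorem Normal.exists_norming (h : Normal ξ) (v : R2) : ∃ j, |ev (ξ j) v| = nrm ξ v := by
  obtain ⟨⟨j0, -⟩, -⟩ := h
  obtain ⟨j, -, hj⟩ := Finset.exists_max_image Finset.univ (fun j => |ev (ξ j) v|)
    ⟨j0, Finset.mem_univ _⟩
  exact ⟨j, le_antisymm (abs_ev_le_nrm ξ j v)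
    ((nrm_le_iff (abs_nonneg _)).2 fun k => hj k (Finset.mem_univ _))⟩

/-- Scaling the two coordinates by factors in `[0, 1]` is short. -/
theorem Normal.nrm_scale (h : Normal ξ) (v : R2) {a b : ℝ} (ha : a ∈ Icc (0 : ℝ) 1)
    (hb : b ∈ Icc (0 : ℝ) 1) : nrm ξ (a * v.1, b * v.2) ≤ nrm ξ v := by
  have h1 : |v.1| ≤ nrm ξ v := (abs_fst_le_norm v).trans (h.norm_le_nrm v)
  have h2 : |v.2| ≤ nrm ξ v := (abs_snd_le_norm v).trans (h.norm_le_nrm v)
  have h0 := nrm_nonneg ξ v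
  rcases le_total a b with hab | hab
  · have e : ((a * v.1, b * v.2) : R2) = a • v + (b - a) • ((0, v.2) : R2) := by
      ext <;> simp; ring
    have h3 : nrm ξ (0, v.2) ≤ |v.2| := by simpa using h.nrm_le_add (0, v.2)
    rw [e]
    refine (nrm_add_le _ _ _).trans ?_
    rw [nrm_smul, nrm_smul, abs_of_nonneg ha.1, abs_of_nonneg (sub_nonneg.2 hab)]
    nlinarith [hb.2, sub_nonneg.2 hab]
  · have e : ((a * v.1, b * v.2) : R2) = b • v + (a - b) • ((v.1, 0) : R2) := by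
      ext <;> simp; ring
    have h3 : nrm ξ (v.1, 0) ≤ |v.1| := by simpa using h.nrm_le_add (v.1, 0)
    rw [e]
    refine (nrm_add_le _ _ _).trans ?_
    rw [nrm_smul, nrm_smul, abs_of_nonneg hb.1, abs_of_nonneg (sub_nonneg.2 hab)]
    nlinarith [ha.2, sub_nonneg.2 hab]

end Nrm

/-- A monotone 1-Lipschitz real function scales increments by a factor in `[0, K]`. -/
theorem exists_factor {g : ℝ → ℝ} {K : ℝ} (hK : 0 ≤ K) (hm : Monotone g)
    (hl : ∀ x y, |g x - g y| ≤ K * |x - y|) (x y : ℝ) :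
    ∃ a ∈ Icc (0 : ℝ) K, g x - g y = a * (x - y) := by
  rcases eq_or_ne x y with rfl | hne
  · exact ⟨0, ⟨le_rfl, hK⟩, by simp⟩
  have hxy : x - y ≠ 0 := sub_ne_zero.2 hne
  refine ⟨(g x - g y) / (x - y), ⟨?_, ?_⟩, by field_simp⟩
  · rcases lt_or_gt_of_ne hne with h | h
    · exact div_nonneg_of_nonpos (sub_nonpos.2 (hm h.le)) (sub_nonpos.2 h.le)
    · exact div_nonneg (sub_nonneg.2 (hm h.le)) (sub_nonneg.2 h.le)
  · refine (le_abs_self _).trans ?_
    rw [abs_div, div_le_iff₀ (abs_pos.2 hxy)]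
    exact hl x y

theorem clamp1_factor (s x y : ℝ) :
    ∃ a ∈ Icc (0 : ℝ) 1, max (-s) (min s x) - max (-s) (min s y) = a * (x - y) := by
  refine exists_factor (g := fun x => max (-s) (min s x)) zero_le_one
    (fun a b h => max_le_max le_rfl (min_le_min le_rfl h)) (fun a b => ?_) x y
  rw [one_mul, max_comm (-s), max_comm (-s)]
  refine (abs_max_sub_max_le_abs _ _ _).trans ?_
  simpa using abs_min_sub_min_le_max s a s b

theorem clamp_factor (s : ℝ) (z z' : R2) : ∃ a ∈ Icc (0 : ℝ) 1, ∃ b ∈ Icc (0 : ℝ) 1,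
    clamp s z - clamp s z' = (a * (z - z').1, b * (z - z').2) := by
  obtain ⟨a, ha, h1⟩ := clamp1_factor s z.1 z'.1
  obtain ⟨b, hb, h2⟩ := clamp1_factor s z.2 z'.2
  exact ⟨a, ha, b, hb, Prod.ext h1 h2⟩

theorem norm_clamp_sub_le (s : ℝ) (z z' : R2) : ‖clamp s z - clamp s z'‖ ≤ ‖z - z'‖ := by
  obtain ⟨a, ha, b, hb, h⟩ := clamp_factor s z z'
  rw [h]
  refine norm_le_of_abs ?_ ?_
  · rw [abs_mul, abs_of_nonneg ha.1]
    nlinarith [abs_fst_le_norm (z - z'), abs_nonneg (z - z').1, ha.1, ha.2]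
  · rw [abs_mul, abs_of_nonneg hb.1]
    nlinarith [abs_snd_le_norm (z - z'), abs_nonneg (z - z').2, hb.1, hb.2]

theorem norm_clamp_le {s : ℝ} (hs : 0 ≤ s) (z : R2) : ‖clamp s z‖ ≤ s :=
  norm_le_of_abs (abs_le.2 ⟨le_max_left _ _, max_le (by linarith) (min_le_left _ _)⟩)
    (abs_le.2 ⟨le_max_left _ _, max_le (by linarith) (min_le_left _ _)⟩)

theorem clamp_eq_self {s : ℝ} {z : R2} (hz : ‖z‖ ≤ s) : clamp s z = z := by
  have h1 := abs_le.1 ((abs_fst_le_norm z).trans hz)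
  have h2 := abs_le.1 ((abs_snd_le_norm z).trans hz)
  exact Prod.ext (by simp [clamp, min_eq_right h1.2, max_eq_right h1.1])
    (by simp [clamp, min_eq_right h2.2, max_eq_right h2.1])

theorem norm_sub_clamp_le {s t : ℝ} (hs : 0 ≤ s) (ht : 0 ≤ t) {z : R2} (hz : ‖z‖ ≤ s + t) :
    ‖z - clamp s z‖ ≤ t := by
  have h1 := abs_le.1 ((abs_fst_le_norm z).trans hz)
  have h2 := abs_le.1 ((abs_snd_le_norm z).trans hz)
  have key : ∀ x : ℝ, -(s + t) ≤ x → x ≤ s + t → |x - max (-s) (min s x)| ≤ t := by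
    intro x a b
    rw [abs_le]
    rcases le_total s x with h | h
    · rw [min_eq_left h, max_eq_right (by linarith)]; constructor <;> linarith
    · rw [min_eq_right h]
      rcases le_total (-s) x with h' | h'
      · rw [max_eq_right h']; constructor <;> linarith
      · rw [max_eq_left h']; constructor <;> linarith
  exact norm_le_of_abs (key _ h1.1 h1.2) (key _ h2.1 h2.2)

theorem Nuc.norm_le_one {N : ℕ} {T : V N →L[ℝ] V N} (h : Nuc T) : ‖T‖ ≤ 1 := by
  refine ContinuousLinearMap.opNorm_le_bound _ zero_le_one fun v => ?_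
  have e : v = ∑ m, v m • (Pi.single m 1 : V N) := by
    ext k; simp [Finset.sum_apply, Pi.single_apply]
  calc ‖T v‖ = ‖∑ m, v m • T (Pi.single m 1)‖ := by
        conv_lhs => rw [e]
        simp
    _ ≤ ∑ m, ‖v‖ * ‖T (Pi.single m 1)‖ := norm_sum_le_of_le _ fun m _ => by
        rw [norm_smul]
        exact mul_le_mul_of_nonneg_right (norm_le_pi_norm v m) (norm_nonneg _)
    _ ≤ 1 * ‖v‖ := by
        rw [← Finset.mul_sum, mul_comm]
        exact mul_le_mul_of_nonneg_right h (norm_nonneg _)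

/-- The theorem of the alternative for finitely many convex functions on a convex set. -/
theorem alternative {E : Type*} [AddCommGroup E] [Module ℝ E] {C : Set E} (hC : Convex ℝ C)
    (hne : C.Nonempty) {ι : Type*} [Fintype ι] (f : ι → E → ℝ) (hf : ∀ c, ConvexOn ℝ C (f c)) :
    (∃ g ∈ C, ∀ c, f c g < 0) ∨
      ∃ w : ι → ℝ, (∀ c, 0 ≤ w c) ∧ ∑ c, w c = 1 ∧ ∀ g ∈ C, 0 ≤ ∑ c, w c * f c g := by
  classical
  by_cases h : ∃ g ∈ C, ∀ c, f c g < 0
  · exact Or.inl h
  right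
  let S : Set (ι → ℝ) := {p | ∀ c, p c < 0}
  let T : Set (ι → ℝ) := {p | ∃ g ∈ C, ∀ c, f c g ≤ p c}
  have hSo : IsOpen S := by
    have : S = ⋂ c, {p : ι → ℝ | p c < 0} := by ext; simp [S]
    rw [this]
    exact isOpen_iInter_of_finite fun c => isOpen_lt (continuous_apply c) continuous_const
  have hSc : Convex ℝ S := by
    have : S = ⋂ c, {p : ι → ℝ | p c < 0} := by ext; simp [S]
    rw [this]
    exact convex_iInter fun c => convex_halfSpace_lt (LinearMap.proj (R := ℝ) c).isLinear 0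
  have hTc : Convex ℝ T := by
    rintro p ⟨g, hg, hp⟩ q ⟨g', hg', hq⟩ a b ha hb hab
    refine ⟨a • g + b • g', hC hg hg' ha hb hab, fun c => ?_⟩
    have := (hf c).2 hg hg' ha hb hab
    simp only [smul_eq_mul, Pi.add_apply, Pi.smul_apply] at this ⊢
    nlinarith [mul_le_mul_of_nonneg_left (hp c) ha, mul_le_mul_of_nonneg_left (hq c) hb]
  have hd : Disjoint S T := Set.disjoint_left.2 fun p hp ⟨g, hg, hq⟩ =>
    h ⟨g, hg, fun c => (hq c).trans_lt (hp c)⟩
  obtain ⟨l, u, hS, hT⟩ := geometric_hahn_banach_open hSc hSo hTc hd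
  let w : ι → ℝ := fun c => l (Pi.single c 1)
  have hl : ∀ p : ι → ℝ, l p = ∑ c, w c * p c := by
    intro p
    have e : p = ∑ c, p c • (Pi.single c 1 : ι → ℝ) := by
      ext k; simp [Finset.sum_apply, Pi.single_apply]
    conv_lhs => rw [e]
    simp [w, mul_comm]
  obtain ⟨g0, hg0⟩ := hne
  have hw : ∀ c, 0 ≤ w c := by
    intro c
    by_contra hc
    push Not at hc
    let p0 : ι → ℝ := fun k => f k g0
    let t : ℝ := (|l p0 - u| + 1) / (-w c)
    have ht : 0 ≤ t := div_nonneg (by positivity) (by linarith)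
    have := hT (p0 + t • Pi.single c 1) ⟨g0, hg0, fun k => by
      simp only [Pi.add_apply, Pi.smul_apply, smul_eq_mul, p0]
      have : 0 ≤ t * (Pi.single c 1 : ι → ℝ) k :=
        mul_nonneg ht (by rw [Pi.single_apply]; split_ifs <;> norm_num)
      linarith⟩
    rw [map_add, map_smul, smul_eq_mul] at this
    have e : t * l (Pi.single c 1) = -(|l p0 - u| + 1) := by
      have : w c ≠ 0 := hc.ne
      change t * w c = _
      simp only [t]
      field_simp
    linarith [le_abs_self (l p0 - u)]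
  have hu : ∀ e : ℝ, 0 < e → -(e * ∑ c, w c) < u := by
    intro e he
    have := hS (fun _ => -e) (fun _ => by simpa using he)
    rw [hl] at this
    simpa [Finset.mul_sum, mul_comm] using this
  have hW0 : 0 ≤ ∑ c, w c := Finset.sum_nonneg fun c _ => hw c
  have hu0 : 0 ≤ u := by
    by_contra hneg
    push Not at hneg
    have := hu (-u / (∑ c, w c + 1)) (div_pos (by linarith) (by linarith))
    have h2 : -u / (∑ c, w c + 1) * ∑ c, w c ≤ -u := by
      rw [div_mul_eq_mul_div, div_le_iff₀ (by linarith)]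
      nlinarith
    linarith
  have hW : 0 < ∑ c, w c := by
    rcases hW0.lt_or_eq with h1 | h1
    · exact h1
    · exfalso
      have hz : ∀ c, w c = 0 := fun c =>
        (Finset.sum_eq_zero_iff_of_nonneg fun c _ => hw c).1 h1.symm c (Finset.mem_univ _)
      have a1 := hu 1 one_pos
      have a2 := hT (fun k => f k g0) ⟨g0, hg0, fun _ => le_rfl⟩
      rw [hl] at a2
      simp [hz] at a1 a2
      linarith
  refine ⟨fun c => w c / ∑ c, w c, fun c => div_nonneg (hw c) hW0, ?_, fun g hg => ?_⟩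
  · rw [← Finset.sum_div, div_self hW.ne']
  · have := hT (fun k => f k g) ⟨g, hg, fun _ => le_rfl⟩
    rw [hl] at this
    have e : ∑ c, w c / (∑ c, w c) * f c g = (∑ c, w c * f c g) / ∑ c, w c := by
      rw [Finset.sum_div]
      exact Finset.sum_congr rfl fun c _ => by ring
    rw [e]
    exact div_nonneg (hu0.trans this) hW0

/-- Null sets are preserved by a Lipschitz change of chart. -/
theorem volume_image_null {X : Type*} {π π' : X → R2} {S : Set X} {C : ℝ}
    (h : ∀ x ∈ S, ∀ y ∈ S, ‖π x - π y‖ ≤ C * ‖π' x - π' y‖) (h0 : volume (π' '' S) = 0) :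
    volume (π '' S) = 0 := by
  classical
  let g : R2 → R2 := fun w => if hw : w ∈ π' '' S then π hw.choose else 0
  have hg : ∀ x ∈ S, g (π' x) = π x := by
    intro x hx
    have hw : π' x ∈ π' '' S := mem_image_of_mem _ hx
    have := h _ hw.choose_spec.1 x hx
    rw [hw.choose_spec.2, sub_self, norm_zero, mul_zero] at this
    simp only [g, dif_pos hw]
    exact sub_eq_zero.1 (norm_le_zero_iff.1 this)
  have hl : LipschitzOnWith (Real.toNNReal C) g (π' '' S) := by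
    refine LipschitzOnWith.of_dist_le_mul ?_
    rintro _ ⟨x, hx, rfl⟩ _ ⟨y, hy, rfl⟩
    rw [hg x hx, hg y hy, dist_eq_norm, dist_eq_norm]
    exact (h x hx y hy).trans (mul_le_mul_of_nonneg_right (Real.le_coe_toNNReal C) (norm_nonneg _))
  have e : π '' S = g '' (π' '' S) := by
    rw [image_image]
    exact image_congr fun x hx => (hg x hx).symm
  have := hl.hausdorffMeasure_image_le (d := 2) (by norm_num)
  rw [hausdorffMeasure_prod_real, h0, mul_zero] at this
  rw [e]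
  exact le_zero_iff.1 this

namespace Patch

variable {X : Type*} [MetricSpace X] {N : ℕ} {P : Patch X N} {H H' : X → V N}
  {Λ Λ' γ δ δ' : ℝ}

theorem Ok.mono (h : P.Ok H Λ γ δ) (hH : ∀ y ∈ P.Rm, H' y = H y) (hΛ : Λ ≤ Λ') (hδ : δ ≤ δ') :
    P.Ok H' Λ' γ δ' :=
  { h with
    sδ := h.sδ.trans hδ
    form := fun y hy => (hH y hy).trans (h.form y hy)
    Alip := fun y hy => (h.Alip y hy).mono fun _ h' a ha b hb =>
      (h' a ha b hb).trans (mul_le_mul_of_nonneg_right hΛ dist_nonneg)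
    diam := fun y hy y' hy' => (h.diam y hy y' hy').trans hδ }

/-- Lowering the level `t`. -/
theorem Ok.lower (h : P.Ok H Λ γ δ) {t : ℝ} (h1 : 1 + 8 * P.c / 10 ≤ t) (h2 : t ≤ P.t) :
    ({ P with t := t } : Patch X N).Ok H Λ γ δ :=
  { h with
    tlo := h1
    thi := h2.trans h.thi
    ρeq := fun y hy => h.ρeq y (le_trans hy h2)
    form := fun y hy => h.form y (le_trans hy h2)
    σlip := fun y hy => h.σlip y (le_trans hy h2)
    Alip := fun y hy => h.Alip y (le_trans hy h2)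
    diam := fun y hy y' hy' => h.diam y (le_trans hy h2) y' (le_trans hy' h2) }

end Patch

end Pool.Agent.MP_7f5071_gt

end MrgPart0

-- ======== part 1: formerly Pool.Agent.MP_7f5071_gt.BasicC
section MrgPart1

/-! Geodesics in compact length spaces. -/

namespace Pool.Agent.MP_7f5071_gt

open Filter Topology Set Metric

variable {X : Type*} [MetricSpace X]

/-- Approximate split points. -/
def ApproxSplit (X : Type*) [MetricSpace X] : Prop :=
  ∀ x y : X, ∀ t ∈ Icc 0 (dist x y), ∀ ε > 0,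
    ∃ z, dist x z ≤ t + ε ∧ dist z y ≤ dist x y - t + ε

theorem exists_split [CompactSpace X] (h : ApproxSplit X) (x y : X) {t : ℝ}
    (ht : t ∈ Icc 0 (dist x y)) : ∃ z, dist x z = t ∧ dist z y = dist x y - t := by
  obtain ⟨z, -, hz⟩ := isCompact_univ.exists_isMinOn ⟨x, mem_univ x⟩
    (f := fun z => max (dist x z - t) (dist z y - (dist x y - t))) (by fun_prop)
  have h0 : max (dist x z - t) (dist z y - (dist x y - t)) ≤ 0 := by
    refine le_of_forall_pos_le_add fun ε hε => ?_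
    obtain ⟨w, h1, h2⟩ := h x y t ht ε hε
    exact (hz (mem_univ w)).trans (max_le (by linarith) (by linarith))
  have := max_le_iff.1 h0
  have h3 := dist_triangle x z y
  exact ⟨z, by linarith [this.1, this.2], by linarith [this.1, this.2]⟩

theorem exists_finite_geod [CompactSpace X] (h : ApproxSplit X) (x y : X) (T : Finset ℝ) :
    (∀ t ∈ T, t ∈ Icc 0 (dist x y)) → ∃ γ : ℝ → X,
      (∀ t ∈ T, dist x (γ t) = t ∧ dist (γ t) y = dist x y - t) ∧
      ∀ s ∈ T, ∀ t ∈ T, s ≤ t → dist (γ s) (γ t) = t - s := by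
  classical
  induction T using Finset.induction_on_max with
  | empty => exact fun _ => ⟨fun _ => x, by simp, by simp⟩
  | insert a T ha ih =>
    intro hT
    obtain ⟨γ, h1, h2⟩ := ih fun t ht => hT t (Finset.mem_insert_of_mem ht)
    have haI := hT a (Finset.mem_insert_self _ _)
    have hz : ∃ z, dist x z = a ∧ dist z y = dist x y - a ∧ ∀ s ∈ T, dist (γ s) z = a - s := by
      rcases T.eq_empty_or_nonempty with rfl | hne
      · obtain ⟨z, z1, z2⟩ := exists_split h x y haI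
        exact ⟨z, z1, z2, by simp⟩
      · have hm := T.max'_mem hne
        set m := T.max' hne
        obtain ⟨z, z1, z2⟩ := exists_split h (γ m) y (t := a - m)
          ⟨by linarith [ha m hm], by rw [(h1 m hm).2]; linarith [haI.2]⟩
        rw [(h1 m hm).2] at z2
        have hx : dist x z = a := by
          have := dist_triangle x (γ m) z
          have := dist_triangle x z y
          linarith [(h1 m hm).1]
        refine ⟨z, hx, by linarith, fun s hs => ?_⟩
        have := dist_triangle (γ s) (γ m) z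
        have := dist_triangle x (γ s) z
        linarith [(h1 s hs).1, h2 s hs m hm (T.le_max' s hs)]
    obtain ⟨z, z1, z2, z3⟩ := hz
    have hu : ∀ s ∈ T, Function.update γ a z s = γ s := fun s hs =>
      Function.update_of_ne (ha s hs).ne _ _
    refine ⟨Function.update γ a z, fun t ht => ?_, fun s hs t ht hst => ?_⟩
    · rcases Finset.mem_insert.1 ht with rfl | ht
      · simp [z1, z2]
      · rw [hu t ht]; exact h1 t ht
    · rcases Finset.mem_insert.1 hs with hs' | hs' <;> rcases Finset.mem_insert.1 ht with ht' | ht'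
      · simp [hs', ht']
      · exact absurd (ha t ht') (not_lt.2 (hs' ▸ hst))
      · rw [hu s hs', ht', Function.update_self]; exact z3 s hs'
      · rw [hu s hs', hu t ht']; exact h2 s hs' t ht' hst

theorem geodesic_of_split [CompactSpace X] (h : ApproxSplit X) : Geodesic X := by
  classical
  intro x y
  let I := Icc (0 : ℝ) (dist x y)
  let C : I × I → Set (ℝ → X) := fun p =>
    {γ | dist x (γ p.1) = p.1 ∧ dist (γ p.1) y = dist x y - p.1 ∧
      dist (γ p.1) (γ p.2) = |(p.1 : ℝ) - p.2|}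
  have hC : ∀ p, IsClosed (C p) := fun p =>
    (isClosed_eq (by fun_prop) continuous_const).inter
      ((isClosed_eq (by fun_prop) continuous_const).inter
        (isClosed_eq (by fun_prop) continuous_const))
  have hne : (univ ∩ ⋂ p, C p).Nonempty := by
    refine isCompact_univ.inter_iInter_nonempty C hC fun u => ?_
    obtain ⟨γ, h1, h2⟩ := exists_finite_geod h x y
      (u.image (fun p => (p.1 : ℝ)) ∪ u.image (fun p => (p.2 : ℝ))) (by
        intro t ht
        rcases Finset.mem_union.1 ht with ht | ht <;>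
          obtain ⟨p, -, rfl⟩ := Finset.mem_image.1 ht
        exacts [p.1.2, p.2.2])
    refine ⟨γ, mem_univ _, mem_iInter₂.2 fun p hp => ?_⟩
    have a1 : (p.1 : ℝ) ∈ u.image (fun p => (p.1 : ℝ)) ∪ u.image (fun p => (p.2 : ℝ)) :=
      Finset.mem_union_left _ (Finset.mem_image_of_mem _ hp)
    have a2 : (p.2 : ℝ) ∈ u.image (fun p => (p.1 : ℝ)) ∪ u.image (fun p => (p.2 : ℝ)) :=
      Finset.mem_union_right _ (Finset.mem_image_of_mem _ hp)
    refine ⟨(h1 _ a1).1, (h1 _ a1).2, ?_⟩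
    rcases le_total (p.1 : ℝ) p.2 with hle | hle
    · rw [h2 _ a1 _ a2 hle, abs_of_nonpos (by linarith)]; ring
    · rw [dist_comm, h2 _ a2 _ a1 hle, abs_of_nonneg (by linarith)]
  obtain ⟨γ, -, hγ⟩ := hne
  have hγ' : ∀ p, γ ∈ C p := mem_iInter.1 hγ
  have hd : (0 : ℝ) ≤ dist x y := dist_nonneg
  refine ⟨fun t => γ (projIcc 0 (dist x y) hd t), ?_, ?_, ?_, fun s hs t ht => ?_⟩
  · rw [projIcc_left]
    exact (dist_eq_zero.1 (hγ' (⟨0, left_mem_Icc.2 hd⟩, ⟨0, left_mem_Icc.2 hd⟩)).1).symm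
  · rw [projIcc_right]
    have := (hγ' (⟨dist x y, right_mem_Icc.2 hd⟩, ⟨0, left_mem_Icc.2 hd⟩)).2.1
    simpa using this
  · refine LipschitzWith.of_dist_le_mul fun s t => ?_
    rw [(hγ' (projIcc 0 (dist x y) hd s, projIcc 0 (dist x y) hd t)).2.2]
    exact (LipschitzWith.projIcc hd).dist_le_mul s t
  · rw [projIcc_of_mem hd hs, projIcc_of_mem hd ht]
    exact (hγ' (⟨s, hs⟩, ⟨t, ht⟩)).2.2

theorem approxSplit_of_length (h : IsLengthSpace X) : ApproxSplit X := by
  intro x y t ht ε hε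
  have h1 : ⨅ γ : Path x y, eVariationOn γ univ < edist x y + ENNReal.ofReal ε := by
    rw [← h x y]
    exact ENNReal.lt_add_right (edist_ne_top x y) (by simpa using hε)
  obtain ⟨γ, hγ⟩ := iInf_lt_iff.1 h1
  have hc : Continuous fun s : unitInterval => dist x (γ s) := by fun_prop
  obtain ⟨s, hs⟩ := intermediate_value_univ (0 : unitInterval) 1 hc
    (show t ∈ Icc (dist x (γ 0)) (dist x (γ 1)) by simpa using ht)
  refine ⟨γ s, by linarith [show dist x (γ s) = t from hs], ?_⟩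
  have e := eVariationOn.Icc_add_Icc γ (s := univ) (a := 0) (b := s) (c := 1) s.2.1 s.2.2
    (mem_univ _)
  have a1 := eVariationOn.edist_le γ (s := univ ∩ Icc 0 s) (x := 0) (y := s)
    ⟨mem_univ _, le_rfl, s.2.1⟩ ⟨mem_univ _, s.2.1, le_rfl⟩
  have a2 := eVariationOn.edist_le γ (s := univ ∩ Icc s 1) (x := s) (y := 1)
    ⟨mem_univ _, le_rfl, s.2.2⟩ ⟨mem_univ _, s.2.2, le_rfl⟩
  have a3 := eVariationOn.mono γ (inter_subset_left : univ ∩ Icc (0 : unitInterval) 1 ⊆ univ)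
  have a4 : edist (γ 0) (γ s) + edist (γ s) (γ 1) < edist x y + ENNReal.ofReal ε :=
    ((add_le_add a1 a2).trans (e.le.trans a3)).trans_lt hγ
  rw [γ.source, γ.target, edist_dist, edist_dist, edist_dist,
    ← ENNReal.ofReal_add dist_nonneg dist_nonneg, ← ENNReal.ofReal_add dist_nonneg hε.le,
    ENNReal.ofReal_lt_ofReal_iff (by positivity)] at a4
  linarith [show dist x (γ s) = t from hs]

theorem isLengthSpace_of_geodesic (h : Geodesic X) : IsLengthSpace X := by
  intro x y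
  refine le_antisymm (le_iInf fun γ => ?_) ?_
  · have := eVariationOn.edist_le γ (s := univ) (x := 0) (y := 1) (mem_univ _) (mem_univ _)
    rwa [γ.source, γ.target] at this
  · obtain ⟨γ, hγ⟩ := h x y
    let p : Path x y :=
      { toFun := fun t => γ (t * dist x y)
        continuous_toFun := hγ.continuous.comp (by fun_prop)
        source' := by simp [hγ.src]
        target' := by simp [hγ.tgt] }
    refine (iInf_le _ p).trans ?_
    have hm : MonotoneOn (fun t : unitInterval => (t : ℝ) * dist x y) univ := fun a _ b _ hab =>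
      mul_le_mul_of_nonneg_right hab dist_nonneg
    have e1 := eVariationOn.comp_le_of_monotoneOn γ (s := Icc 0 (dist x y)) (t := univ)
      (fun t : unitInterval => (t : ℝ) * dist x y) hm (fun t _ =>
        ⟨mul_nonneg t.2.1 dist_nonneg, mul_le_of_le_one_left dist_nonneg t.2.2⟩)
    have e2 := (hγ.lip.lipschitzOnWith (s := univ)).comp_eVariationOn_le (g := id)
      (s := Icc 0 (dist x y)) (mapsTo_univ _ _)
    have e3 := (monotoneOn_id (s := Icc 0 (dist x y))).eVariationOn_eq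
      (left_mem_Icc.2 dist_nonneg) (right_mem_Icc.2 dist_nonneg)
    rw [inter_self] at e3
    calc eVariationOn p univ ≤ eVariationOn γ (Icc 0 (dist x y)) := e1
      _ ≤ 1 * eVariationOn id (Icc 0 (dist x y)) := by simpa using e2
      _ ≤ edist x y := by
          rw [one_mul, edist_dist, e3]
          simp

end Pool.Agent.MP_7f5071_gt

end MrgPart1

-- ======== part 2: formerly Pool.Agent.MP_7f5071_gt.Basic
section MrgPart2


end MrgPart2

-- marker of a merged file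
example : 731051 + 590491 = 731051 + 590491 := rfl

end MrgPart0

-- ======== part 1: formerly Pool.Agent.MP_7f5071_gt.OneA
section MrgPart1

/-! ONE, part A: the staircase weights. -/

namespace Pool.Agent.MP_7f5071_gt.One

open Filter Topology Set Metric

/-- clamp to `[0, q]` -/
noncomputable def cl (f q : ℝ) : ℝ := max 0 (min f q)

lemma cl_nonneg (f q : ℝ) : 0 ≤ cl f q := le_max_left _ _
lemma cl_le {f q : ℝ} (hq : 0 ≤ q) : cl f q ≤ q := max_le hq (min_le_right _ _)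
lemma cl_zero {f q : ℝ} (hf : f ≤ 0) : cl f q = 0 :=
  max_eq_left ((min_le_left _ _).trans hf)
lemma cl_full {f q : ℝ} (hq : 0 ≤ q) (hf : q ≤ f) : cl f q = q := by
  unfold cl; rw [min_eq_right hf, max_eq_right hq]
lemma cl_mono {f f' : ℝ} (q : ℝ) (h : f ≤ f') : cl f q ≤ cl f' q :=
  max_le_max le_rfl (min_le_min h le_rfl)

lemma abs_cl_sub (f f' q q' : ℝ) : |cl f' q' - cl f q| ≤ |f' - f| + |q' - q| := by
  have h1 := abs_max_sub_max_le_max (0 : ℝ) (min f' q') 0 (min f q)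
  have h2 := abs_min_sub_min_le_max f' q' f q
  have h3 : max |f' - f| |q' - q| ≤ |f' - f| + |q' - q| :=
    max_le (by linarith [abs_nonneg (q' - q)]) (by linarith [abs_nonneg (f' - f)])
  have h4 : 0 ≤ |f' - f| + |q' - q| := by positivity
  unfold cl
  exact h1.trans (max_le (by simpa using h4) (h2.trans h3))

lemma ramp_step {e b q f f' : ℝ} (he : e ≤ b) (hq : 0 ≤ q) (hf : f ≤ f') :
    (min f' e - min f e) + (cl (f' - b) q - cl (f - b) q) ≤ min f' (b + q) - min f (b + q) := by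
  unfold cl
  simp only [max_def, min_def]
  split_ifs <;> linarith

/-- sum of the weights before `c` -/
def Pc (q : Fin 4 → ℝ) (c : Fin 4) : ℝ := ∑ c' ∈ Finset.univ.filter (· < c), q c'

/-- the staircase -/
noncomputable def mm (θ f : ℝ) (q : Fin 4 → ℝ) (c : Fin 4) : ℝ := cl (f - (Pc q c + c * θ)) (q c)

lemma Pc0 (q : Fin 4 → ℝ) : Pc q 0 = 0 := by simp [Pc]
lemma Pc1 (q : Fin 4 → ℝ) : Pc q 1 = q 0 := by
  simp [Pc, Finset.sum_filter]
lemma Pc2 (q : Fin 4 → ℝ) : Pc q 2 = q 0 + q 1 := by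
  simp [Pc, Finset.sum_filter, Fin.sum_univ_four]
lemma Pc3 (q : Fin 4 → ℝ) : Pc q 3 = q 0 + q 1 + q 2 := by
  simp [Pc, Finset.sum_filter, Fin.sum_univ_four]

lemma Pc_nonneg {q : Fin 4 → ℝ} (hq : ∀ c, 0 ≤ q c) (c : Fin 4) : 0 ≤ Pc q c :=
  Finset.sum_nonneg fun c _ => hq c

lemma Pc_lt {q : Fin 4 → ℝ} (hq : ∀ c, 0 ≤ q c) {c c' : Fin 4} (h : c < c') {θ : ℝ} (hθ : 0 ≤ θ) :
    Pc q c + c * θ + q c + θ ≤ Pc q c' + c' * θ := by
  have h0 := hq 0; have h1 := hq 1; have h2 := hq 2; have h3 := hq 3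
  fin_cases c <;> fin_cases c' <;> simp at h <;> simp [Pc0, Pc1, Pc2, Pc3] <;> linarith

lemma Pc_le {q : Fin 4 → ℝ} (hq : ∀ c, 0 ≤ q c) (h1 : ∑ c, q c = 1) (c : Fin 4) {θ : ℝ}
    (hθ : 0 ≤ θ) : Pc q c + c * θ + q c ≤ 1 + 3 * θ := by
  have h0 := hq 0; have h1' := hq 1; have h2 := hq 2; have h3 := hq 3
  rw [Fin.sum_univ_four] at h1
  fin_cases c <;> simp [Pc0, Pc1, Pc2, Pc3] <;> linarith

lemma mm_nonneg (θ f : ℝ) (q : Fin 4 → ℝ) (c : Fin 4) : 0 ≤ mm θ f q c := cl_nonneg _ _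
lemma mm_le {θ f : ℝ} {q : Fin 4 → ℝ} {c : Fin 4} (hq : 0 ≤ q c) : mm θ f q c ≤ q c := cl_le hq

lemma mm_zero {θ f : ℝ} {q : Fin 4 → ℝ} (hq : ∀ c, 0 ≤ q c) (hθ : 0 ≤ θ) (hf : f ≤ 0) (c : Fin 4) :
    mm θ f q c = 0 := by
  have := Pc_nonneg hq c
  have : 0 ≤ (c : ℝ) * θ := by positivity
  exact cl_zero (by linarith)

lemma mm_full {θ f : ℝ} {q : Fin 4 → ℝ} (hq : ∀ c, 0 ≤ q c) (h1 : ∑ c, q c = 1) (hθ : 0 ≤ θ)
    (hf : 1 + 3 * θ ≤ f) (c : Fin 4) : mm θ f q c = q c :=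
  cl_full (hq c) (by linarith [Pc_le hq h1 c hθ])

lemma mm_lip_f {θ f f' : ℝ} {q : Fin 4 → ℝ} (hq : ∀ c, 0 ≤ q c) (hθ : 0 ≤ θ) :
    ∑ c, |mm θ f' q c - mm θ f q c| ≤ |f' - f| := by
  wlog hf : f ≤ f' generalizing f f'
  · have := this (f := f') (f' := f) (le_of_not_ge hf)
    rw [abs_sub_comm f' f]
    simpa only [abs_sub_comm (mm θ f' q _)] using this
  have e : ∀ c, |mm θ f' q c - mm θ f q c| = mm θ f' q c - mm θ f q c := fun c =>
    abs_of_nonneg (sub_nonneg.2 (cl_mono _ (by linarith)))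
  simp only [e]
  rw [abs_of_nonneg (sub_nonneg.2 hf), Fin.sum_univ_four]
  have s0 := ramp_step (e := Pc q 0 + (0 : Fin 4) * θ) le_rfl (hq 0) hf
  have s1 := ramp_step (b := Pc q 1 + (1 : Fin 4) * θ) (e := Pc q 0 + (0 : Fin 4) * θ + q 0)
    (by linarith [Pc_lt hq (show (0 : Fin 4) < 1 by decide) hθ]) (hq 1) hf
  have s2 := ramp_step (b := Pc q 2 + (2 : Fin 4) * θ) (e := Pc q 1 + (1 : Fin 4) * θ + q 1)
    (by linarith [Pc_lt hq (show (1 : Fin 4) < 2 by decide) hθ]) (hq 2) hf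
  have s3 := ramp_step (b := Pc q 3 + (3 : Fin 4) * θ) (e := Pc q 2 + (2 : Fin 4) * θ + q 2)
    (by linarith [Pc_lt hq (show (2 : Fin 4) < 3 by decide) hθ]) (hq 3) hf
  have t0 : min f (Pc q 0 + (0 : Fin 4) * θ) ≤ min f' (Pc q 0 + (0 : Fin 4) * θ) :=
    min_le_min hf le_rfl
  have t1 : ∀ e : ℝ, min f' e - min f e ≤ f' - f := fun e => by
    simp only [min_def]; split_ifs <;> linarith
  have t2 := t1 (Pc q 3 + (3 : Fin 4) * θ + q 3)
  unfold mm
  linarith

lemma mm_lip_q {θ f : ℝ} (q q' : Fin 4 → ℝ) :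
    ∑ c, |mm θ f q' c - mm θ f q c| ≤ 8 * ∑ c, |q' c - q c| := by
  have h : ∀ c, |mm θ f q' c - mm θ f q c| ≤ 2 * ∑ c, |q' c - q c| := by
    intro c
    refine (abs_cl_sub _ _ _ _).trans ?_
    have h1 : |q' c - q c| ≤ ∑ c, |q' c - q c| :=
      Finset.single_le_sum (f := fun c => |q' c - q c|) (fun _ _ => abs_nonneg _)
        (Finset.mem_univ c)
    have h2 : |f - (Pc q' c + c * θ) - (f - (Pc q c + c * θ))| ≤ ∑ c, |q' c - q c| := by
      have : f - (Pc q' c + c * θ) - (f - (Pc q c + c * θ)) = -(Pc q' c - Pc q c) := by ring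
      rw [this, abs_neg, Pc, Pc, ← Finset.sum_sub_distrib]
      exact (Finset.abs_sum_le_sum_abs _ _).trans (Finset.sum_le_sum_of_subset_of_nonneg
        (Finset.filter_subset _ _) fun _ _ _ => abs_nonneg _)
    linarith
  have := Finset.sum_le_card_nsmul Finset.univ _ _ fun c _ => h c
  simp only [Finset.card_univ, Fintype.card_fin, nsmul_eq_mul] at this
  push_cast at this
  linarith

lemma mm_lip {θ f f' : ℝ} {q q' : Fin 4 → ℝ} (hq : ∀ c, 0 ≤ q' c) (hθ : 0 ≤ θ) :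
    ∑ c, |mm θ f' q' c - mm θ f q c| ≤ |f' - f| + 8 * ∑ c, |q' c - q c| := by
  have h1 := mm_lip_f (f := f) (f' := f') hq hθ
  have h2 := mm_lip_q (θ := θ) (f := f) q q'
  have h3 : ∑ c, |mm θ f' q' c - mm θ f q c| ≤
      ∑ c, (|mm θ f' q' c - mm θ f q' c| + |mm θ f q' c - mm θ f q c|) :=
    Finset.sum_le_sum fun c _ => abs_sub_le _ _ _
  rw [Finset.sum_add_distrib] at h3
  linarith

/-- truncated and normalized weights -/
noncomputable def nz (p : Fin 4 → ℝ) (c : Fin 4) : ℝ :=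
  max (p c - 1 / 8) 0 / ∑ c', max (p c' - 1 / 8) 0

lemma den_ge {p : Fin 4 → ℝ} (h : ∑ c, p c = 1) : 1 / 2 ≤ ∑ c', max (p c' - 1 / 8) 0 := by
  have : ∑ c', (p c' - 1 / 8) ≤ ∑ c', max (p c' - 1 / 8) 0 :=
    Finset.sum_le_sum fun c _ => le_max_left _ _
  rw [Fin.sum_univ_four] at h
  rw [Fin.sum_univ_four] at this
  linarith

lemma nz_nonneg (p : Fin 4 → ℝ) (c : Fin 4) : 0 ≤ nz p c :=
  div_nonneg (le_max_right _ _) (Finset.sum_nonneg fun _ _ => le_max_right _ _)

lemma nz_sum {p : Fin 4 → ℝ} (h : ∑ c, p c = 1) : ∑ c, nz p c = 1 := by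
  have := den_ge h
  unfold nz
  rw [← Finset.sum_div, div_self (by linarith)]

lemma nz_zero {p : Fin 4 → ℝ} {c : Fin 4} (h : p c ≤ 1 / 8) : nz p c = 0 := by
  unfold nz; rw [max_eq_right (by linarith), zero_div]

lemma nz_lip {p p' : Fin 4 → ℝ} (h : ∑ c, p c = 1) (h' : ∑ c, p' c = 1) :
    ∑ c, |nz p' c - nz p c| ≤ 4 * ∑ c, |p' c - p c| := by
  set Z := ∑ c', max (p c' - 1 / 8) 0 with hZ
  set Z' := ∑ c', max (p' c' - 1 / 8) 0 with hZ'
  have z1 : 1 / 2 ≤ Z := den_ge h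
  have z2 : 1 / 2 ≤ Z' := den_ge h'
  have hw : ∀ c, |max (p' c - 1 / 8) 0 - max (p c - 1 / 8) 0| ≤ |p' c - p c| := fun c => by
    simpa using abs_max_sub_max_le_abs (p' c - 1 / 8) (p c - 1 / 8) 0
  have hZZ : |Z - Z'| ≤ ∑ c, |p' c - p c| := by
    rw [abs_sub_comm, hZ, hZ', ← Finset.sum_sub_distrib]
    exact (Finset.abs_sum_le_sum_abs _ _).trans (Finset.sum_le_sum fun c _ => hw c)
  have key : ∀ c, |nz p' c - nz p c| ≤ 2 * |p' c - p c| + nz p' c * (2 * |Z - Z'|) := by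
    intro c
    have e : nz p' c - nz p c =
        (max (p' c - 1 / 8) 0 - max (p c - 1 / 8) 0) / Z + nz p' c * ((Z - Z') / Z) := by
      unfold nz; rw [← hZ, ← hZ']; field_simp; ring
    have d : ∀ t : ℝ, |t / Z| ≤ 2 * |t| := fun t => by
      rw [abs_div, abs_of_pos (by linarith : 0 < Z), div_le_iff₀ (by linarith)]
      nlinarith [abs_nonneg t]
    rw [e]
    refine (abs_add_le _ _).trans (add_le_add ((d _).trans (by linarith [hw c])) ?_)
    rw [abs_mul, abs_of_nonneg (nz_nonneg _ _)]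
    exact mul_le_mul_of_nonneg_left (d _) (nz_nonneg _ _)
  have := Finset.sum_le_sum fun c (_ : c ∈ Finset.univ) => key c
  rw [Finset.sum_add_distrib, ← Finset.sum_mul, nz_sum h', ← Finset.mul_sum] at this
  linarith

section vec
variable {E : Type*} [NormedAddCommGroup E] [NormedSpace ℝ E]

/-- the staircase combination -/
noncomputable def comb (q m : Fin 4 → ℝ) (P b : Fin 4 → E) : E := ∑ c, (q c • P c + m c • b c)

lemma comb_congr {q m : Fin 4 → ℝ} {P P' b b' : Fin 4 → E}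
    (h : ∀ c, (q c = 0 ∧ m c = 0) ∨ (P c = P' c ∧ b c = b' c)) : comb q m P b = comb q m P' b' :=
  Finset.sum_congr rfl fun c _ => by
    rcases h c with ⟨h1, h2⟩ | ⟨h1, h2⟩ <;> simp [h1, h2]

lemma comb_mem (W : AffineSubspace ℝ E) {q m : Fin 4 → ℝ} {P b : Fin 4 → E} (h1 : ∑ c, q c = 1)
    (h : ∀ c, (q c - m c = 0 ∨ P c ∈ W) ∧ (m c = 0 ∨ P c + b c ∈ W)) : comb q m P b ∈ W := by
  obtain ⟨o, ho⟩ : ∃ o, o ∈ W := by
    by_contra hn
    have : ∀ c, q c = 0 := fun c => by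
      have a1 := (h c).1.resolve_right fun h => hn ⟨_, h⟩
      have a2 := (h c).2.resolve_right fun h => hn ⟨_, h⟩
      linarith
    simp [this] at h1
  have e : comb q m P b = (∑ c, ((q c - m c) • (P c - o) + m c • (P c + b c - o))) +ᵥ o := by
    have : ∀ c, (q c - m c) • (P c - o) + m c • (P c + b c - o) =
        (q c • P c + m c • b c) - q c • o := fun c => by module
    simp only [this, Finset.sum_sub_distrib, ← Finset.sum_smul, h1, one_smul, vadd_eq_add,
      sub_add_cancel, comb]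
  rw [e]
  refine AffineSubspace.vadd_mem_of_mem_direction (Submodule.sum_mem _ fun c _ => add_mem ?_ ?_) ho
  · rcases (h c).1 with h0 | h0
    · simp [h0]
    · exact Submodule.smul_mem _ _ (AffineSubspace.vsub_mem_direction h0 ho)
  · rcases (h c).2 with h0 | h0
    · simp [h0]
    · exact Submodule.smul_mem _ _ (AffineSubspace.vsub_mem_direction h0 ho)

lemma norm_comb_sub_le {q m : Fin 4 → ℝ} {P b : Fin 4 → E} (o : E) {D : ℝ} (h1 : ∑ c, q c = 1)
    (hm : ∀ c, 0 ≤ m c) (hmq : ∀ c, m c ≤ q c)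
    (h : ∀ c, q c = 0 ∨ (‖P c - o‖ ≤ D ∧ ‖P c + b c - o‖ ≤ D)) : ‖comb q m P b - o‖ ≤ D := by
  have e : comb q m P b - o = ∑ c, ((q c - m c) • (P c - o) + m c • (P c + b c - o)) := by
    have : ∀ c, (q c - m c) • (P c - o) + m c • (P c + b c - o) =
        (q c • P c + m c • b c) - q c • o := fun c => by module
    simp only [this, Finset.sum_sub_distrib, ← Finset.sum_smul, h1, one_smul, comb]
  rw [e]
  refine (norm_sum_le _ _).trans ?_
  have : ∀ c, ‖(q c - m c) • (P c - o) + m c • (P c + b c - o)‖ ≤ q c * D := by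
    intro c
    rcases h c with h0 | h0
    · have : m c = 0 := le_antisymm (h0 ▸ hmq c) (hm c)
      simp [h0, this]
    · refine (norm_add_le _ _).trans ?_
      rw [norm_smul, norm_smul, Real.norm_of_nonneg (sub_nonneg.2 (hmq c)),
        Real.norm_of_nonneg (hm c)]
      nlinarith [mul_le_mul_of_nonneg_left h0.1 (sub_nonneg.2 (hmq c)),
        mul_le_mul_of_nonneg_left h0.2 (hm c)]
  refine (Finset.sum_le_sum fun c _ => this c).trans ?_
  rw [← Finset.sum_mul, h1, one_mul]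

lemma norm_comb_sub_comb (T : E →L[ℝ] E) {q q' m m' : Fin 4 → ℝ} {P b : Fin 4 → E} (o : E)
    {B A : ℝ} (h1 : ∑ c, q c = 1) (h1' : ∑ c, q' c = 1)
    (h : ∀ c, (q' c = q c ∧ m' c = m c) ∨ (‖T (P c - o)‖ ≤ B ∧ ‖T (b c)‖ ≤ A)) :
    ‖T (comb q' m' P b) - T (comb q m P b)‖ ≤
      B * ∑ c, |q' c - q c| + A * ∑ c, |m' c - m c| := by
  have e : T (comb q' m' P b) - T (comb q m P b) =
      ∑ c, ((q' c - q c) • T (P c - o) + (m' c - m c) • T (b c)) := by
    have : ∀ c, (q' c - q c) • T (P c - o) + (m' c - m c) • T (b c) =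
        T (q' c • P c + m' c • b c) - T (q c • P c + m c • b c) - (q' c • T o - q c • T o) :=
      fun c => by simp only [map_add, map_smul, map_sub]; module
    simp only [this, Finset.sum_sub_distrib, ← Finset.sum_smul, h1, h1', comb, map_sum, sub_self,
      sub_zero]
  rw [e, Finset.mul_sum, Finset.mul_sum, ← Finset.sum_add_distrib]
  refine (norm_sum_le _ _).trans (Finset.sum_le_sum fun c _ => ?_)
  rcases h c with h0 | h0
  · simp [h0.1, h0.2]
  · refine (norm_add_le _ _).trans ?_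
    rw [norm_smul, norm_smul, Real.norm_eq_abs, Real.norm_eq_abs]
    nlinarith [mul_le_mul_of_nonneg_left h0.1 (abs_nonneg (q' c - q c)),
      mul_le_mul_of_nonneg_left h0.2 (abs_nonneg (m' c - m c))]

end vec

lemma plane_of_three {N : ℕ} (A B C : V N) {y : V N} (hy : y ∈ affineSpan ℝ ({A, B, C} : Set (V N))) :
    ∃ s t : ℝ, y = A + s • (B - A) + t • (C - A) := by
  refine mem_plane_of_mem_affineSpan ?_ hy
  rintro p (rfl | rfl | rfl)
  · exact ⟨0, 0, by simp⟩
  · exact ⟨1, 0, by simp⟩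
  · exact ⟨0, 1, by simp⟩

lemma sub_three : ∀ T : Finset (Fin 4), T.card ≤ 3 →
    ∃ a b c : Fin 4, ∀ d ∈ T, d = a ∨ d = b ∨ d = c := by decide

lemma sub_two : ∀ T : Finset (Fin 4), T.card ≤ 2 →
    ∃ a b : Fin 4, a < b ∧ ∀ d ∈ T, d = a ∨ d = b := by decide

end Pool.Agent.MP_7f5071_gt.One

end MrgPart1

-- ======== part 2: formerly Pool.Agent.MP_7f5071_gt.BL
section MrgPart2

/-! Bands of a distance function are coarsely one-dimensional. -/

namespace Pool.Agent.MP_7f5071_gt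

open Filter Topology Set Metric

universe u

namespace BL

variable {X : Type*} [MetricSpace X]

/-- Chains in `S` with steps at most `ρ`, with their length. -/
inductive Ch (ρ : ℝ) (S : Set X) (x : X) : X → ℝ → Prop
  | refl : Ch ρ S x x 0
  | tail {y z : X} {l : ℝ} : Ch ρ S x y l → y ∈ S → z ∈ S → dist y z ≤ ρ →
      Ch ρ S x z (l + dist y z)

/-- One step. -/
def St (ρ : ℝ) (S : Set X) (a b : X) : Prop := a ∈ S ∧ b ∈ S ∧ dist a b ≤ ρ

variable {ρ : ℝ} {S : Set X} {x y z : X} {l : ℝ}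

theorem Ch.dist_le (h : Ch ρ S x y l) : dist x y ≤ l := by
  induction h with
  | refl => simp
  | @tail y z _ _ _ _ _ ih => linarith [dist_triangle x y z]

theorem Ch.nonneg (h : Ch ρ S x y l) : 0 ≤ l := dist_nonneg.trans h.dist_le

theorem Ch.mono {S' : Set X} (h : Ch ρ S x y l) (hS : S ⊆ S') : Ch ρ S' x y l := by
  induction h with
  | refl => exact Ch.refl
  | tail _ h1 h2 h3 ih => exact ih.tail (hS h1) (hS h2) h3

theorem Ch.trans {l' : ℝ} (h : Ch ρ S x y l) (h' : Ch ρ S y z l') : Ch ρ S x z (l + l') := by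
  induction h' with
  | refl => simpa using h
  | tail _ h1 h2 h3 ih => rw [← add_assoc]; exact ih.tail h1 h2 h3

theorem Ch.left_mem (h : Ch ρ S x y l) (hy : y ∈ S) : x ∈ S := by
  induction h with
  | refl => exact hy
  | tail _ h1 _ _ ih => exact ih h1

theorem Ch.of_rtg (h : Relation.ReflTransGen (St ρ S) x y) : ∃ l, Ch ρ S x y l := by
  induction h with
  | refl => exact ⟨0, Ch.refl⟩
  | tail _ h1 ih =>
    obtain ⟨l, hl⟩ := ih
    exact ⟨_, hl.tail h1.1 h1.2.1 h1.2.2⟩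

theorem Ch.refine (h : Ch ρ S x z l) :
    Ch ρ {a | a ∈ S ∧ ∃ u v, Ch ρ S x a u ∧ Ch ρ S a z v ∧ u + v = l} x z l := by
  induction h with
  | refl => exact Ch.refl
  | @tail y z l h0 h1 h2 h3 ih =>
    refine (ih.mono ?_).tail ⟨h1, l, 0 + dist y z, h0, Ch.refl.tail h1 h2 h3, by ring⟩
      ⟨h2, l + dist y z, 0, h0.tail h1 h2 h3, Ch.refl, by ring⟩ h3
    rintro a ⟨ha, u, v, hu, hv, huv⟩
    exact ⟨ha, u, v + dist y z, hu, hv.tail h1 h2 h3, by rw [← huv]; ring⟩

theorem Ch.split (h : Ch ρ S x z l) {lam : ℝ} (h0 : 0 ≤ lam) (hl : lam < l) :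
    ∃ m u v, Ch ρ S x m u ∧ Ch ρ S m z v ∧ u + v = l ∧ u ≤ lam ∧ lam < u + ρ ∧ m ∈ S := by
  induction h with
  | refl => linarith
  | @tail y z l h1 h2 h3 h4 ih =>
    by_cases hc : lam < l
    · obtain ⟨m, u, v, hu, hv, huv, h5, h6, h7⟩ := ih hc
      exact ⟨m, u, v + dist y z, hu, hv.tail h2 h3 h4, by rw [← huv]; ring, h5, h6, h7⟩
    · exact ⟨y, l, 0 + dist y z, h1, Ch.refl.tail h2 h3 h4, by ring, not_lt.1 hc, by linarith, h2⟩

/-- The half-step neighbourhood. -/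
def Nb (ρ : ℝ) (A : Set X) : Set X := {w | ∃ a ∈ A, dist w a ≤ ρ / 2}

theorem Ch.joinedIn (hg : Geodesic X) (hρ : 0 < ρ) (h : Ch ρ S x y l) (hx : x ∈ S) :
    JoinedIn (Nb ρ S) x y := by
  induction h with
  | refl => exact JoinedIn.refl ⟨x, hx, by simp; linarith⟩
  | @tail y z l _ h2 h3 h4 ih =>
    refine ih.trans (hg.joinedIn fun w hw => ?_)
    by_cases hc : dist w y ≤ ρ / 2
    · exact ⟨y, h2, hc⟩
    · exact ⟨z, h3, by linarith [not_le.1 hc]⟩

theorem rtg_symm (h : Relation.ReflTransGen (St ρ S) x y) :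
    Relation.ReflTransGen (St ρ S) y x := by
  induction h with
  | refl => exact Relation.ReflTransGen.refl
  | tail _ h1 ih =>
    exact Relation.ReflTransGen.head ⟨h1.2.1, h1.1, by rw [dist_comm]; exact h1.2.2⟩ ih

/-- A representative of the chain component. -/
noncomputable def rep (ρ : ℝ) (S : Set X) (a : X) : X :=
  @Classical.epsilon X ⟨a⟩ fun b => Relation.ReflTransGen (St ρ S) b a

theorem rep_rtg (a : X) : Relation.ReflTransGen (St ρ S) (rep ρ S a) a :=
  @Classical.epsilon_spec X (fun b => Relation.ReflTransGen (St ρ S) b a)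
    ⟨a, Relation.ReflTransGen.refl⟩

theorem rep_eq {a b : X} (h : Relation.ReflTransGen (St ρ S) a b) : rep ρ S a = rep ρ S b := by
  have : (fun c => Relation.ReflTransGen (St ρ S) c a) =
      fun c => Relation.ReflTransGen (St ρ S) c b := by
    funext c
    exact propext ⟨fun hc => hc.trans h,
      fun hc => hc.trans (rtg_symm h)⟩
  unfold rep
  rw [this]

/-- The chain distance to the representative. -/
noncomputable def ht (ρ : ℝ) (S : Set X) (a : X) : ℝ := sInf {l | Ch ρ S (rep ρ S a) a l}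

theorem ht_le {a : X} (h : Ch ρ S (rep ρ S a) a l) : ht ρ S a ≤ l :=
  csInf_le ⟨0, fun _ h => Ch.nonneg h⟩ h

theorem exists_lt_ht (a : X) {e : ℝ} (he : 0 < e) :
    ∃ l, Ch ρ S (rep ρ S a) a l ∧ l < ht ρ S a + e :=
  exists_lt_of_csInf_lt (Ch.of_rtg (rep_rtg a)) (lt_add_of_pos_right _ he)

theorem dist_le_ht (a : X) : dist (rep ρ S a) a ≤ ht ρ S a :=
  le_csInf (Ch.of_rtg (rep_rtg a)) fun _ h => Ch.dist_le h

theorem Ch.rtg (h : Ch ρ S x y l) : Relation.ReflTransGen (St ρ S) x y := by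
  induction h with
  | refl => exact Relation.ReflTransGen.refl
  | tail _ h1 h2 h3 ih => exact ih.tail ⟨h1, h2, h3⟩

theorem ht_le_add {a b : X} (h : Ch ρ S a b l) : ht ρ S b ≤ ht ρ S a + l := by
  refine le_of_forall_pos_le_add fun e he => ?_
  obtain ⟨l', h1, h2⟩ := exists_lt_ht (ρ := ρ) (S := S) a he
  have h3 := h1.trans h
  rw [rep_eq h.rtg] at h3
  linarith [ht_le h3]

theorem ht_step {a b : X} (ha : a ∈ S) (hb : b ∈ S) (h : dist a b ≤ ρ) :
    |ht ρ S a - ht ρ S b| ≤ dist a b := by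
  have h1 := ht_le_add (Ch.refl.tail ha hb h)
  have h2 := ht_le_add (ρ := ρ) (Ch.refl.tail hb ha (by rwa [dist_comm]))
  rw [dist_comm b a] at h2
  rw [abs_le]
  constructor <;> linarith

/-- The band. -/
def Band (o : X) (t ρ : ℝ) : Set X := {x | t ≤ dist x o ∧ dist x o ≤ t + ρ}

theorem geod_near (hg : Geodesic X) {o : X} {t : ℝ} (hρ : 0 < ρ) {m a w : X}
    (hm : m ∈ Band o t ρ) (ha : a ∈ Band o t ρ) (hw : dist w m + dist w o = dist m o)
    (hwa : dist w a ≤ ρ / 2) :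
    dist m a ≤ 2 * ρ ∧ |ht ρ (Band o t ρ) m - ht ρ (Band o t ρ) a| ≤ 2 * ρ := by
  have key : ∃ w' ∈ Band o t ρ, dist m w' ≤ ρ ∧ dist w' a ≤ ρ := by
    by_cases hc : t ≤ dist w o
    · refine ⟨w, ⟨hc, ?_⟩, ?_, by linarith⟩
      · linarith [hm.2, dist_nonneg (x := w) (y := m)]
      · rw [dist_comm]; linarith [hm.2]
    · obtain ⟨w', h1, h2⟩ := hg.exists_level (f := fun p => dist p o) (by fun_prop) (x := w)
        (y := m) (t := t) (not_le.1 hc).le hm.1
      have h3 := dist_triangle m w' o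
      have h4 := dist_triangle w' w o
      have h5 := dist_triangle a w o
      have h6 := dist_triangle w' w a
      rw [dist_comm m w'] at h3
      rw [dist_comm a w] at h5
      have h7 := ha.1
      have h8 := hm.2
      refine ⟨w', ⟨h2.ge, by linarith⟩, ?_, ?_⟩
      · rw [dist_comm]; linarith
      · linarith
  obtain ⟨w', h1, h2, h3⟩ := key
  refine ⟨by linarith [dist_triangle m w' a], ?_⟩
  have h4 := ht_step hm h1 h2
  have h5 := ht_step h1 ha h3
  have h6 := abs_sub_le (ht ρ (Band o t ρ) m) (ht ρ (Band o t ρ) w') (ht ρ (Band o t ρ) a)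
  linarith

theorem exists_mid {T : Set X} {c : ℝ} (h : Relation.ReflTransGen (St ρ T) x y)
    (h0 : 0 ≤ c) (hc : c < dist x y) :
    ∃ z, Relation.ReflTransGen (St ρ T) x z ∧ z ∈ T ∧ c < dist x z ∧ dist x z ≤ c + ρ := by
  induction h with
  | refl => simp at hc; linarith
  | @tail b d h1 h2 ih =>
    by_cases hb : c < dist x b
    · exact ih hb
    · exact ⟨d, h1.tail h2, h2.2.1, hc, by
        linarith [dist_triangle x b d, h2.2.2, not_lt.1 hb]⟩

theorem slab (hX : IsDisc X) (o : X) (t : ℝ) (hρ : 0 < ρ) (m : ℝ) :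
    Bdd ρ (70 * ρ) {a | a ∈ Band o t ρ ∧ m ≤ ht ρ (Band o t ρ) a ∧
      ht ρ (Band o t ρ) a ≤ m + 5 * ρ} := by
  intro x y hxy
  set Y := Band o t ρ with hY
  set T := {a | a ∈ Y ∧ m ≤ ht ρ Y a ∧ ht ρ Y a ≤ m + 5 * ρ} with hT
  by_contra hd
  rw [not_le] at hd
  have hxy' : Relation.ReflTransGen (St ρ T) x y := hxy
  have hTY : T ⊆ Y := fun a ha => ha.1
  have hyT : y ∈ T := by
    rcases hxy'.cases_tail with h | ⟨c, _, h⟩
    · rw [h] at hd; simp at hd; linarith
    · exact h.2.1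
  obtain ⟨l0, hl0⟩ := Ch.of_rtg hxy'
  have hxT : x ∈ T := hl0.left_mem hyT
  obtain ⟨z2, hz2, hz2T, hz2a, hz2b⟩ := exists_mid (c := 33 * ρ) hxy' (by linarith) (by linarith)
  let z : Fin 3 → X := ![x, z2, y]
  have hzT : ∀ i, z i ∈ T := by
    intro i; fin_cases i
    · exact hxT
    · exact hz2T
    · exact hyT
  have hzc : ∀ i, ∃ l, Ch ρ T x (z i) l := by
    intro i; fin_cases i
    · exact ⟨0, Ch.refl⟩
    · exact Ch.of_rtg hz2
    · exact ⟨l0, hl0⟩
  have hfar : ∀ i j, i ≠ j → 33 * ρ < dist (z i) (z j) := by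
    have h1 : 33 * ρ < dist z2 y := by linarith [dist_triangle x z2 y]
    intro i j hij
    fin_cases i <;> fin_cases j <;> simp only [z] at hij ⊢ <;>
      first
        | exact absurd rfl hij
        | (simp only [Fin.zero_eta, Fin.mk_one, Fin.reduceFinMk, Matrix.cons_val]
           first
             | linarith
             | (rw [dist_comm]; linarith))
  have hrep : ∀ i, rep ρ Y (z i) = rep ρ Y x := fun i => by
    obtain ⟨l, hl⟩ := hzc i
    exact (rep_eq (hl.mono hTY).rtg).symm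
  by_cases hm : m ≤ 7 * ρ
  · have h1 := dist_le_ht (ρ := ρ) (S := Y) x
    have h2 := dist_le_ht (ρ := ρ) (S := Y) y
    have h3 : rep ρ Y y = rep ρ Y x := hrep 2
    rw [h3] at h2
    have h4 := dist_triangle_left x y (rep ρ Y x)
    linarith [hxT.2.2, hyT.2.2]
  rw [not_le] at hm
  set y0 := rep ρ Y x with hy0
  have hmid : ∀ i, ∃ p, p ∈ Y ∧ m - 8 * ρ ≤ ht ρ Y p ∧ ht ρ Y p ≤ m - 6 * ρ ∧
      dist p (z i) ≤ 13 * ρ ∧
      JoinedIn (Nb ρ {a | a ∈ Y ∧ ht ρ Y a + dist a p ≤ m - 6 * ρ}) y0 p ∧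
      JoinedIn (Nb ρ {a | a ∈ Y ∧ dist a (z i) ≤ 13 * ρ ∧ m - 8 * ρ ≤ ht ρ Y a}) p (z i) := by
    intro i
    obtain ⟨l, hl, hl'⟩ := exists_lt_ht (ρ := ρ) (S := Y) (z i) hρ
    have hl2 := ht_le hl
    rw [hrep i] at hl
    obtain ⟨h1, h2, h3⟩ := hzT i
    obtain ⟨p, u, v, hu, hv, huv, h5, h6, h7⟩ :=
      hl.split (lam := m - 6 * ρ) (by linarith) (by linarith)
    have hrp : ∀ a u', Ch ρ Y y0 a u' → ht ρ Y a ≤ u' := fun a u' ha => by
      have e1 : rep ρ Y a = y0 := by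
        rw [← rep_eq ha.rtg, hy0, rep_eq (rep_rtg (ρ := ρ) (S := Y) x)]
      exact ht_le (by rwa [e1])
    have hF : ∀ a ∈ {a | a ∈ Y ∧ ∃ u' v', Ch ρ Y y0 a u' ∧ Ch ρ Y a p v' ∧ u' + v' = u},
        a ∈ {a | a ∈ Y ∧ ht ρ Y a + dist a p ≤ m - 6 * ρ} := by
      rintro a ⟨ha, u', v', h8, h9, h10⟩
      exact ⟨ha, by linarith [hrp a u' h8, h9.dist_le]⟩
    have hS : ∀ a ∈ {a | a ∈ Y ∧ ∃ u' v', Ch ρ Y p a u' ∧ Ch ρ Y a (z i) v' ∧ u' + v' = v},
        a ∈ {a | a ∈ Y ∧ dist a (z i) ≤ 13 * ρ ∧ m - 8 * ρ ≤ ht ρ Y a} := by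
      rintro a ⟨ha, u', v', h8, h9, h10⟩
      exact ⟨ha, by linarith [h9.dist_le, h8.nonneg], by linarith [ht_le_add h9, h8.nonneg]⟩
    have hp1 := hS p ⟨h7, 0, v, Ch.refl, hv, by ring⟩
    refine ⟨p, h7, hp1.2.2, by linarith [hrp p u hu], hp1.2.1, ?_, ?_⟩
    · exact (hu.refine.mono hF).joinedIn hX.geod hρ
        (hF y0 ⟨hu.left_mem h7, 0, u, Ch.refl, hu, by ring⟩)
    · exact (hv.refine.mono hS).joinedIn hX.geod hρ hp1
  choose p hpY hp1 hp2 hp3 hpF hpS using hmid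
  let E0 : Fin 3 → Set X := fun i => {w | dist w (p i) + dist w o = dist (p i) o}
  let E1 : Fin 3 → Set X := fun i => Nb ρ {a | a ∈ Y ∧ ht ρ Y a + dist a (p i) ≤ m - 6 * ρ}
  let E2 : Fin 3 → Set X := fun i => Nb ρ {a | a ∈ Y ∧
    (m ≤ ht ρ Y a ∨ (dist a (z i) ≤ 13 * ρ ∧ m - 8 * ρ ≤ ht ρ Y a))}
  have d01 : ∀ i j, i ≠ j → Disjoint (E0 i) (E1 j) := by
    intro i j hij
    rw [Set.disjoint_left]
    rintro w hw ⟨a, ⟨ha, ha'⟩, hwa⟩
    obtain ⟨h1, h2⟩ := geod_near hX.geod hρ (hpY i) ha hw hwa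
    have h3 := (abs_le.1 h2).2
    have h4 := dist_triangle4 (z i) (p i) a (p j)
    have h5 := dist_triangle (z i) (p j) (z j)
    rw [dist_comm (z i) (p i)] at h4
    linarith [hfar i j hij, hp1 i, hp3 i, hp3 j]
  have d02 : ∀ i j, i ≠ j → Disjoint (E0 i) (E2 j) := by
    intro i j hij
    rw [Set.disjoint_left]
    rintro w hw ⟨a, ⟨ha, ha'⟩, hwa⟩
    obtain ⟨h1, h2⟩ := geod_near hX.geod hρ (hpY i) ha hw hwa
    have h3 := (abs_le.1 h2).1
    rcases ha' with h4 | ⟨h4, _⟩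
    · linarith [hp2 i]
    · have h5 := dist_triangle4 (z i) (p i) a (z j)
      rw [dist_comm (z i) (p i)] at h5
      linarith [hfar i j hij, hp3 i]
  have d12 : ∀ i j, i ≠ j → Disjoint (E1 i) (E2 j) := by
    intro i j hij
    rw [Set.disjoint_left]
    rintro w ⟨a, ⟨ha, ha'⟩, hwa⟩ ⟨b, ⟨hb, hb'⟩, hwb⟩
    have h1 : dist a b ≤ ρ := by linarith [dist_triangle_left a b w]
    have h2 := (abs_le.1 (ht_step ha hb h1)).1
    rcases hb' with h4 | ⟨h4, h5⟩
    · linarith [dist_nonneg (x := a) (y := p i)]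
    · have h6 := dist_triangle4 (z i) (p i) a b
      have h7 := dist_triangle (z i) b (z j)
      rw [dist_comm (z i) (p i), dist_comm (p i) a] at h6
      linarith [hfar i j hij, hp3 i]
  refine hX.k33 ![o, y0, x] p ![E0, E1, E2] ?_ ?_
  · intro i j
    fin_cases i
    · exact (hX.geod.joinedIn fun w hw => hw).symm
    · exact hpF j
    · obtain ⟨l, hl⟩ := hzc j
      have h1 : JoinedIn (E2 j) x (z j) := (hl.joinedIn hX.geod hρ hxT).mono (by
        rintro w ⟨a, ha, hwa⟩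
        exact ⟨a, ⟨ha.1, Or.inl ha.2.1⟩, hwa⟩)
      have h2 : JoinedIn (E2 j) (p j) (z j) := (hpS j).mono (by
        rintro w ⟨a, ha, hwa⟩
        exact ⟨a, ⟨ha.1, Or.inr ha.2⟩, hwa⟩)
      exact h1.trans h2.symm
  · intro i j k l hik hjl
    fin_cases i <;> fin_cases k
    · exact absurd rfl hik
    · exact d01 j l hjl
    · exact d02 j l hjl
    · exact (d01 l j hjl.symm).symm
    · exact absurd rfl hik
    · exact d12 j l hjl
    · exact (d02 l j hjl.symm).symm
    · exact (d12 l j hjl.symm).symm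
    · exact absurd rfl hik

theorem periodic (hX : IsDisc X) (o : X) (t : ℝ) (hρ : 0 < ρ) (c : ℝ) {A : Set X}
    (hA : ∀ a ∈ A, a ∈ Band o t ρ ∧
      ∃ k : ℤ, |ht ρ (Band o t ρ) a - (8 * ρ * k + c)| ≤ 5 * ρ / 2) :
    Bdd ρ (70 * ρ) A := by
  intro x y hxy
  by_cases hx : x ∈ A
  swap
  · rcases hxy.cases_head with h | ⟨b, h, _⟩
    · rw [h]; simp; linarith
    · exact absurd h.1 hx
  obtain ⟨hxY, k, hk⟩ := hA x hx
  set Y := Band o t ρ with hY
  refine slab hX o t hρ (8 * ρ * k + c - 5 * ρ / 2) x y ?_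
  have key : ∀ y, Relation.ReflTransGen (fun a b => a ∈ A ∧ b ∈ A ∧ dist a b ≤ ρ) x y →
      |ht ρ Y y - (8 * ρ * k + c)| ≤ 5 * ρ / 2 := by
    intro y hy
    induction hy with
    | refl => exact hk
    | @tail b d _ h2 ih =>
      obtain ⟨hdY, k', hk'⟩ := hA d h2.2.1
      have h3 := ht_step (hA b h2.1).1 hdY h2.2.2
      have h4 := h2.2.2
      rw [abs_le] at ih hk' h3
      have h5 : (k' : ℝ) < k + 1 := by
        by_contra h
        have : ρ * (k + 1) ≤ ρ * k' := mul_le_mul_of_nonneg_left (not_lt.1 h) hρ.le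
        nlinarith
      have h6 : (k : ℝ) < k' + 1 := by
        by_contra h
        have : ρ * (k' + 1) ≤ ρ * k := mul_le_mul_of_nonneg_left (not_lt.1 h) hρ.le
        nlinarith
      have h7 : k' < k + 1 := by exact_mod_cast h5
      have h8 : k < k' + 1 := by exact_mod_cast h6
      have h9 : k' = k := by omega
      rw [h9] at hk'
      exact abs_le.2 hk'
  induction hxy with
  | refl => exact Relation.ReflTransGen.refl
  | @tail b d h1 h2 ih =>
    have h3 := abs_le.1 (key b h1)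
    have h4 := abs_le.1 (key d (h1.tail h2))
    exact ih.tail ⟨⟨(hA b h2.1).1, by linarith, by linarith⟩,
      ⟨(hA d h2.2.1).1, by linarith, by linarith⟩, h2.2.2⟩

theorem clamp_lip (r a b : ℝ) : |max (-r) (min r a) - max (-r) (min r b)| ≤ |a - b| := by
  refine (abs_max_sub_max_le_max _ _ _ _).trans ?_
  rw [sub_self, abs_zero]
  refine max_le (abs_nonneg _) ((abs_min_sub_min_le_max _ _ _ _).trans ?_)
  rw [sub_self, abs_zero]
  exact max_le (abs_nonneg _) le_rfl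

theorem clamp_abs {r : ℝ} (hr : 0 ≤ r) (a : ℝ) : |max (-r) (min r a)| ≤ r :=
  abs_le.2 ⟨le_max_left _ _, max_le (by linarith) (min_le_left _ _)⟩

end BL

open BL in
theorem bl : BLStmt.{u} := by
  refine ⟨70, by norm_num, fun X _ _ hX o t ρ hρ => ?_⟩
  set Y := Band o t ρ with hY
  let Lat : Set ℝ := range fun k : ℤ => 8 * ρ * k
  have hne : Lat.Nonempty := range_nonempty _
  let e0 : X → ℝ := fun a => max (-(ρ / 2)) (min (ρ / 2) (infDist (ht ρ Y a) Lat - 2 * ρ))
  have h0 : ∀ a ∈ Y, ∀ b ∈ Y, |e0 a - e0 b| ≤ 1 * dist a b := by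
    intro a ha b hb
    rw [one_mul]
    by_cases hab : dist a b ≤ ρ
    · refine (clamp_lip _ _ _).trans ?_
      have h1 := lip_infDist Lat (ht ρ Y a) (ht ρ Y b)
      rw [Real.norm_eq_abs, one_mul, Real.dist_eq] at h1
      have h2 := ht_step ha hb hab
      have h3 : infDist (ht ρ Y a) Lat - 2 * ρ - (infDist (ht ρ Y b) Lat - 2 * ρ) =
          infDist (ht ρ Y a) Lat - infDist (ht ρ Y b) Lat := by ring
      rw [h3]
      linarith
    · have h1 := abs_le.1 (clamp_abs (r := ρ / 2) (by linarith) (infDist (ht ρ Y a) Lat - 2 * ρ))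
      have h2 := abs_le.1 (clamp_abs (r := ρ / 2) (by linarith) (infDist (ht ρ Y b) Lat - 2 * ρ))
      rw [abs_le]
      constructor <;> simp only [e0] <;> linarith [not_le.1 hab]
  obtain ⟨g, hg, hge⟩ := exists_lip_extension zero_le_one h0
  refine ⟨fun a => max (-(ρ / 2)) (min (ρ / 2) (g a)), fun a b => ?_,
    fun a => clamp_abs (by linarith) _, ?_, ?_⟩
  · exact (clamp_lip _ _ _).trans (hg a b)
  · refine periodic hX o t hρ 0 ?_
    rintro a ⟨h1, h2, h3⟩
    have haY : a ∈ Y := ⟨h1, h2⟩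
    refine ⟨haY, ?_⟩
    simp only [hge a haY] at h3
    have h4 : infDist (ht ρ Y a) Lat < 5 * ρ / 2 := by
      by_contra h
      rw [not_lt] at h
      have h5 : e0 a = ρ / 2 := by
        simp only [e0]
        rw [min_eq_left (by linarith), max_eq_right (by linarith)]
      rw [h5, min_self, max_eq_right (by linarith)] at h3
      linarith
    obtain ⟨_, ⟨k, rfl⟩, hk⟩ := (infDist_lt_iff hne).1 h4
    exact ⟨k, by rw [add_zero, ← Real.dist_eq]; exact hk.le⟩
  · refine periodic hX o t hρ (4 * ρ) ?_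
    rintro a ⟨h1, h2, h3⟩
    have haY : a ∈ Y := ⟨h1, h2⟩
    refine ⟨haY, ?_⟩
    simp only [hge a haY] at h3
    have h4 : 3 * ρ / 2 ≤ infDist (ht ρ Y a) Lat := by
      by_contra h
      rw [not_le] at h
      have h5 : e0 a = -(ρ / 2) := by
        simp only [e0]
        rw [min_eq_right (by linarith), max_eq_left (by linarith)]
      rw [h5, min_eq_right (by linarith), max_self] at h3
      linarith
    have h8 : 0 < 8 * ρ := by linarith
    refine ⟨⌊ht ρ Y a / (8 * ρ)⌋, ?_⟩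
    have h5 := Int.floor_le (ht ρ Y a / (8 * ρ))
    have h6 := Int.lt_floor_add_one (ht ρ Y a / (8 * ρ))
    rw [le_div_iff₀ h8] at h5
    rw [div_lt_iff₀ h8] at h6
    have h7 := infDist_le_dist_of_mem (x := ht ρ Y a) (s := Lat) ⟨⌊ht ρ Y a / (8 * ρ)⌋, rfl⟩
    have h9 := infDist_le_dist_of_mem (x := ht ρ Y a) (s := Lat) ⟨⌊ht ρ Y a / (8 * ρ)⌋ + 1, rfl⟩
    simp only [Real.dist_eq] at h7 h9
    push_cast at h9
    rw [abs_of_nonneg (by linarith)] at h7
    rw [abs_of_nonpos (by linarith)] at h9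
    rw [abs_le]
    constructor <;> linarith

end Pool.Agent.MP_7f5071_gt

end MrgPart2

-- marker of a merged file
example : 731051 + 14430 = 731051 + 14430 := rfl
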