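import Pool.Agent.MP_7f5071_gt.CR.Geo

/-! Repair of a core. -/

namespace Pool.Agent.MP_7f5071_gt

open Filter Topology Set Metric

universe u

namespace CR

variable {X : Type*} [MetricSpace X] {N : ℕ}

/-- The mesh. -/
noncomputable def τ (P : Patch X N) : ℝ := P.c * P.s / 1000

/-- The rescaled clamped chart. -/
noncomputable def Xf (P : Patch X N) (y : X) : R2 := (τ P)⁻¹ • c2 P y

/-- The lattice points. -/
noncomputable def wk (P : Patch X N) (k l : ℤ) : R2 := clamp P.s (τ P * k, τ P * l)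

/-- The offsets at the lattice points. -/
noncomputable def ee (G : X → V N) (P : Patch X N) (b : R2 →L[ℝ] V N) (k l : ℤ) : V N :=
  R G P b (P.anc (wk P k l))

/-- The staircase version of the chart. -/
noncomputable def Yv (th : ℝ) (P : Patch X N) (y : X) : R2 :=
  (τ P * Y th (Xf P y).1, τ P * Y th (Xf P y).2)

/-- The locally planar map. -/
noncomputable def Gs (th : ℝ) (G : X → V N) (P : Patch X N) (b : R2 →L[ℝ] V N) (y : X) : V N :=
  b (Yv th P y) + F th (ee G P b) (Xf P y)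

/-- The repaired map. -/
noncomputable def Gp (th : ℝ) (G : X → V N) (P : Patch X N) (b : R2 →L[ℝ] V N) (y : X) : V N :=
  G y + P.θ y • (Gs th G P b y - G y)

namespace Setup

variable {H G : X → V N} {P : Patch X N} {Λ γ δ r : ℝ} {T : V N →L[ℝ] V N}
  (S : Setup H G P Λ γ δ r T)

include S

theorem τ_pos : 0 < τ P := by
  have := S.ok.cpos
  have := S.ok.spos
  unfold τ; positivity

theorem c2_eq (y : X) : c2 P y = τ P • Xf P y := by
  unfold Xf
  rw [smul_smul, mul_inv_cancel₀ S.τ_pos.ne', one_smul]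

theorem norm_wk (k l : ℤ) : ‖wk P k l‖ ≤ P.s := norm_cm_le S.ok.spos.le _

theorem wk_near {y : X} {k l : ℤ} (hk : |(Xf P y).1 - k| ≤ 3 / 2) (hl : |(Xf P y).2 - l| ≤ 3 / 2) :
    ‖wk P k l - c2 P y‖ ≤ P.c * P.s / 500 := by
  have h0 : ‖c2 P y‖ ≤ P.s := norm_cm_le S.ok.spos.le _
  have h1 := cm_lip P.s (τ P * k, τ P * l) (c2 P y)
  rw [cm_of_le h0] at h1
  refine h1.trans ?_
  have hτ := S.τ_pos
  have e : P.c * P.s / 500 = τ P * 2 := by unfold τ; ring
  rw [S.c2_eq, e]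
  refine norm_le_of_abs ?_ ?_
  · have : ((τ P * k, τ P * l) - τ P • Xf P y : R2).1 = τ P * -((Xf P y).1 - k) := by
      simp; ring
    rw [this, abs_mul, abs_of_pos hτ, abs_neg]
    gcongr; linarith
  · have : ((τ P * k, τ P * l) - τ P • Xf P y : R2).2 = τ P * -((Xf P y).2 - l) := by
      simp; ring
    rw [this, abs_mul, abs_of_pos hτ, abs_neg]
    gcongr; linarith

theorem wk_nb {k l k' l' : ℤ} (hk : |k - k'| ≤ 1) (hl : |l - l'| ≤ 1) :
    ‖wk P k l - wk P k' l'‖ ≤ P.c * P.s / 500 := by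
  refine (cm_lip _ _ _).trans ?_
  have hτ := S.τ_pos
  have e : P.c * P.s / 500 = τ P * 2 := by unfold τ; ring
  have hk' : |(k : ℝ) - k'| ≤ 1 := by exact_mod_cast hk
  have hl' : |(l : ℝ) - l'| ≤ 1 := by exact_mod_cast hl
  rw [e]
  refine norm_le_of_abs ?_ ?_
  · have : ((τ P * k, τ P * l) - (τ P * k', τ P * l') : R2).1 = τ P * ((k : ℝ) - k') := by
      simp; ring
    rw [this, abs_mul, abs_of_pos hτ]
    gcongr; linarith
  · have : ((τ P * k, τ P * l) - (τ P * k', τ P * l') : R2).2 = τ P * ((l : ℝ) - l') := by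
      simp; ring
    rw [this, abs_mul, abs_of_pos hτ]
    gcongr; linarith

theorem Xf_cont {z : X} (hz : z ∈ U P) : ContinuousAt (Xf P) z :=
  (S.c2_plip hz).continuousAt.const_smul (τ P)⁻¹

variable {th : ℝ} (h0 : 0 < th) (h1 : th ≤ 1 / 4)

include h0 h1

theorem Yv_close (y : X) : ‖Yv th P y - c2 P y‖ ≤ τ P * th := by
  have hτ := S.τ_pos
  rw [S.c2_eq]
  refine norm_le_of_abs ?_ ?_
  · have : (Yv th P y - τ P • Xf P y).1 = τ P * (Y th (Xf P y).1 - (Xf P y).1) := by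
      simp [Yv]; ring
    rw [this, abs_mul, abs_of_pos hτ]
    gcongr; exact Y_close h0 h1 _
  · have : (Yv th P y - τ P • Xf P y).2 = τ P * (Y th (Xf P y).2 - (Xf P y).2) := by
      simp [Yv]; ring
    rw [this, abs_mul, abs_of_pos hτ]
    gcongr; exact Y_close h0 h1 _

theorem Yv_slope {z : X} (hz : z ∈ U P) : ∀ᶠ y in 𝓝 z, ∃ α1 ∈ Icc (0 : ℝ) 1, ∃ α2 ∈ Icc (0 : ℝ) 1,
    Yv th P y - Yv th P z =
      (1 - 2 * th)⁻¹ • (α1 * (c2 P y - c2 P z).1, α2 * (c2 P y - c2 P z).2) := by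
  have c1 : ContinuousAt (fun y => (Xf P y).1) z := (S.Xf_cont hz).fst
  have c2' : ContinuousAt (fun y => (Xf P y).2) z := (S.Xf_cont hz).snd
  filter_upwards [c1.eventually (Y_slope h0 h1 _), c2'.eventually (Y_slope h0 h1 _)] with y a1 a2
  obtain ⟨α1, m1, e1⟩ := a1
  obtain ⟨α2, m2, e2⟩ := a2
  refine ⟨α1, m1, α2, m2, ?_⟩
  rw [S.c2_eq y, S.c2_eq z]
  ext
  · simp only [Yv, Prod.fst_sub, Prod.smul_fst, smul_eq_mul]
    rw [← mul_sub, e1]; ring
  · simp only [Yv, Prod.snd_sub, Prod.smul_snd, smul_eq_mul]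
    rw [← mul_sub, e2]; ring

omit h0 h1 S in
theorem Gs_sub (b : R2 →L[ℝ] V N) (z : X) : Gs th G P b z - G z =
    b (Yv th P z - c2 P z) + (F th (ee G P b) (Xf P z) - R G P b z) := by
  simp only [Gs, R, map_sub]; abel

variable {b : R2 →L[ℝ] V N} (hb : ∀ v, ‖b v - (T.comp P.A) v‖ ≤ 14 * γ * ‖v‖)

include hb

theorem D_small {z : X} (hz : dist z (P.anc (c2 P z)) ≤ P.c * P.s / 4) :
    ‖Gs th G P b z - G z‖ ≤ 6 * (τ P * th) + γ * P.c * P.s := by
  rw [Gs_sub]
  refine (norm_add_le _ _).trans (add_le_add ?_ ?_)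
  · refine (S.b_le hb _).trans ?_
    have := S.Yv_close h0 h1 z
    linarith
  · have : F th (ee G P b) (Xf P z) ∈ closedBall (R G P b z) (γ * P.c * P.s) :=
      F_mem h0 h1 _ _ (convex_closedBall _ _) fun k l hk hl => by
        rw [mem_closedBall, dist_eq_norm]
        exact S.Rb_shallow hb hz (S.norm_wk k l) (S.wk_near hk hl)
    rwa [mem_closedBall, dist_eq_norm] at this

theorem θ_term (z : X) : ∀ᶠ y in 𝓝 z,
    ‖(P.θ y - P.θ z) • (Gs th G P b z - G z)‖ ≤ (18 * th + 3000 * γ) * dist y z := by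
  have hγ := S.γpos
  rcases S.ok.θsh z with h | h
  · filter_upwards [h] with y hy
    rw [hy, sub_self, zero_smul, norm_zero]
    positivity
  · refine Eventually.of_forall fun y => ?_
    have hc := S.ok.cpos
    have hs := S.ok.spos
    rw [norm_smul]
    refine (mul_le_mul (S.ok.θlip y z) (S.D_small h0 h1 hb h) (norm_nonneg _)
      (by positivity)).trans (le_of_eq ?_)
    unfold τ
    field_simp
    ring

theorem F_plip {z : X} (hz : z ∈ U P) :
    PLip (1200 * γ / th) (fun y => F th (ee G P b) (Xf P y)) z := by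
  have hD : ∀ k l k' l' : ℤ, |k - k'| ≤ 1 → |l - l'| ≤ 1 →
      ‖ee G P b k l - ee G P b k' l'‖ ≤ γ * P.c * P.s / 10 := fun k l k' l' hk hl =>
    S.Rb_anc hb (S.norm_wk _ _) (S.norm_wk _ _) (S.wk_nb hk hl)
  filter_upwards [(S.Xf_cont hz).eventually (F_lip h0 h1 _ hD (Xf P z)), S.c2_plip hz]
    with y a1 a2
  refine a1.trans ?_
  have hc := S.ok.cpos
  have hs := S.ok.spos
  have hγ := S.γpos
  have hτ := S.τ_pos
  have e : ‖Xf P y - Xf P z‖ = (τ P)⁻¹ * ‖c2 P y - c2 P z‖ := by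
    unfold Xf
    rw [← smul_sub, norm_smul, Real.norm_of_nonneg (by positivity)]
  rw [e]
  calc 6 * (γ * P.c * P.s / 10) / th * ((τ P)⁻¹ * ‖c2 P y - c2 P z‖)
      ≤ 6 * (γ * P.c * P.s / 10) / th * ((τ P)⁻¹ * (2 * dist y z)) := by gcongr
    _ = 1200 * γ / th * dist y z := by unfold τ; field_simp; ring

theorem master {z : X} (hz : z ∈ U P) : ∀ᶠ y in 𝓝 z, ∃ β1 ∈ Icc (0 : ℝ) 1, ∃ β2 ∈ Icc (0 : ℝ) 1,
    ‖Gp th G P b y - Gp th G P b z -
      (1 - 2 * th)⁻¹ • b (β1 * (c2 P y - c2 P z).1, β2 * (c2 P y - c2 P z).2)‖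
      ≤ (18 * th + 3029 * γ + 1200 * γ / th) * dist y z := by
  filter_upwards [S.Yv_slope h0 h1 hz, S.θ_term h0 h1 hb z, S.F_plip h0 h1 hb hz,
    S.Rb_plip hb hz] with y a1 a2 a3 a4
  obtain ⟨α1, m1, α2, m2, e1⟩ := a1
  have hθ := S.ok.θmem y
  have hd : 0 < 1 - 2 * th := by linarith
  have hmem : ∀ α ∈ Icc (0 : ℝ) 1, (1 - P.θ y) * (1 - 2 * th) + P.θ y * α ∈ Icc (0 : ℝ) 1 := by
    intro α hα
    have b1 : 0 ≤ (1 - P.θ y) * (1 - 2 * th) := mul_nonneg (by linarith [hθ.2]) hd.le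
    have b2 : 0 ≤ P.θ y * α := mul_nonneg hθ.1 hα.1
    have b3 : (1 - P.θ y) * (1 - 2 * th) ≤ (1 - P.θ y) * 1 :=
      mul_le_mul_of_nonneg_left (by linarith) (by linarith [hθ.2])
    have b4 : P.θ y * α ≤ P.θ y * 1 := mul_le_mul_of_nonneg_left hα.2 hθ.1
    constructor <;> linarith
  refine ⟨_, hmem α1 m1, _, hmem α2 m2, ?_⟩
  have e2 : (1 - 2 * th)⁻¹ • (((1 - P.θ y) * (1 - 2 * th) + P.θ y * α1) * (c2 P y - c2 P z).1,
      ((1 - P.θ y) * (1 - 2 * th) + P.θ y * α2) * (c2 P y - c2 P z).2) =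
      (1 - P.θ y) • (c2 P y - c2 P z) + P.θ y • (Yv th P y - Yv th P z) := by
    rw [e1]
    ext
    · simp only [Prod.smul_fst, Prod.fst_add, smul_eq_mul]
      field_simp
    · simp only [Prod.smul_snd, Prod.snd_add, smul_eq_mul]
      field_simp
  rw [← map_smul, e2]
  have e3 : Gp th G P b y - Gp th G P b z -
      b ((1 - P.θ y) • (c2 P y - c2 P z) + P.θ y • (Yv th P y - Yv th P z)) =
      (1 - P.θ y) • (R G P b y - R G P b z) +
        P.θ y • (F th (ee G P b) (Xf P y) - F th (ee G P b) (Xf P z)) +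
        (P.θ y - P.θ z) • (Gs th G P b z - G z) := by
    simp only [Gp, Gs, R, map_add, map_smul, map_sub]
    module
  rw [e3]
  refine (norm_add_le _ _).trans ((add_le_add (norm_add_le _ _) a2).trans ?_)
  rw [norm_smul, norm_smul, Real.norm_of_nonneg hθ.1, Real.norm_of_nonneg (by linarith [hθ.2])]
  have b1 : (1 - P.θ y) * ‖R G P b y - R G P b z‖ ≤ 1 * (29 * γ * dist y z) :=
    mul_le_mul (by linarith [hθ.1]) a4 (norm_nonneg _) zero_le_one
  have b2 : P.θ y * ‖F th (ee G P b) (Xf P y) - F th (ee G P b) (Xf P z)‖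
      ≤ 1 * (1200 * γ / th * dist y z) := mul_le_mul hθ.2 a3 (norm_nonneg _) zero_le_one
  linarith

theorem Gp_plip {Λ' : ℝ} (hΛ0 : 0 ≤ Λ) (hΛ : Λ ≤ Λ') (hΛ' : Λ' ≤ 2) {z : X} (hz : z ∈ U P) :
    PLip (Λ' + (26 * th + 3100 * γ + 1200 * γ / th)) (Gp th G P b) z := by
  filter_upwards [S.master h0 h1 hb hz, S.ok.Alip z (S.U_Rm hz), S.c2_plip hz] with y a1 a2 a3
  obtain ⟨β1, m1, β2, m2, e1⟩ := a1
  obtain ⟨α1, n1, f1⟩ := cl_slope P.s (P.σ y).1 (P.σ z).1
  obtain ⟨α2, n2, f2⟩ := cl_slope P.s (P.σ y).2 (P.σ z).2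
  have hγ := S.γpos
  have hγ' := S.γle
  have hmul : ∀ a ∈ Icc (0 : ℝ) 1, ∀ a' ∈ Icc (0 : ℝ) 1, a * a' ∈ Icc (0 : ℝ) 1 :=
    fun a ha a' ha' => ⟨mul_nonneg ha.1 ha'.1, mul_le_one₀ ha.2 ha'.1 ha'.2⟩
  have g1 := a2 _ (hmul _ m1 _ n1) _ (hmul _ m2 _ n2)
  set v : R2 := (β1 * (c2 P y - c2 P z).1, β2 * (c2 P y - c2 P z).2) with hv
  have g2 : v = (β1 * α1 * (P.σ y - P.σ z).1, β2 * α2 * (P.σ y - P.σ z).2) := by
    rw [hv]
    ext
    · simp only [c2, Prod.fst_sub, cm_fst]; rw [f1]; ring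
    · simp only [c2, Prod.snd_sub, cm_snd]; rw [f2]; ring
  rw [← g2] at g1
  have g3 : ‖v‖ ≤ 2 * dist y z := by
    refine le_trans (norm_le_of_abs ?_ ?_) a3
    · simp only [hv]
      rw [abs_mul, abs_of_nonneg m1.1]
      nlinarith [abs_fst_le_norm (c2 P y - c2 P z), abs_nonneg (c2 P y - c2 P z).1, m1.2]
    · simp only [hv]
      rw [abs_mul, abs_of_nonneg m2.1]
      nlinarith [abs_snd_le_norm (c2 P y - c2 P z), abs_nonneg (c2 P y - c2 P z).2, m2.2]
  have g4 : ‖(T.comp P.A) v‖ ≤ Λ' * dist y z := by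
    have b1 := T.le_opNorm (P.A v)
    have b2 : ‖T‖ * ‖P.A v‖ ≤ 1 * ‖P.A v‖ := by gcongr; exact S.Tle
    have b3 : Λ * dist y z ≤ Λ' * dist y z := by gcongr
    simp only [ContinuousLinearMap.comp_apply]
    linarith
  have g5 : ‖b v‖ ≤ (Λ' + 28 * γ) * dist y z := by
    have b1 := hb v
    have b2 := norm_sub_norm_le (b v) ((T.comp P.A) v)
    have b3 : 14 * γ * ‖v‖ ≤ 14 * γ * (2 * dist y z) := by gcongr
    linarith
  have hd : 0 < 1 - 2 * th := by linarith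
  have g6 : (1 - 2 * th)⁻¹ ≤ 1 + 4 * th := by
    rw [inv_le_iff_one_le_mul₀ hd]; nlinarith
  have g7 : ‖(1 - 2 * th)⁻¹ • b v‖ ≤ (1 + 4 * th) * ((Λ' + 28 * γ) * dist y z) := by
    rw [norm_smul, Real.norm_of_nonneg (by positivity)]
    exact mul_le_mul g6 g5 (norm_nonneg _) (by positivity)
  have g8 : (1 + 4 * th) * (Λ' + 28 * γ) ≤ Λ' + 8 * th + 56 * γ := by nlinarith
  have g9 : (1 + 4 * th) * (Λ' + 28 * γ) * dist y z ≤ (Λ' + 8 * th + 56 * γ) * dist y z := by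
    gcongr
  have g10 := norm_sub_norm_le (Gp th G P b y - Gp th G P b z) ((1 - 2 * th)⁻¹ • b v)
  have g11 : 0 ≤ γ * dist y z := by positivity
  nlinarith

omit h0 h1 hb in
theorem Gp_eq {y : X} (hy : 1 + 3 * P.c / 100 ≤ P.ρ y) : Gp th G P b y = G y := by
  unfold Gp
  rw [S.ok.θzero y hy, zero_smul, add_zero]

theorem Gp_lip {Λ' : ℝ} (hΛ0 : 0 ≤ Λ) (hΛ : Λ ≤ Λ') (hΛ' : Λ' ≤ 2) (hG : Lip Λ' G) :
    Lip (Λ' + (26 * th + 3100 * γ + 1200 * γ / th)) (Gp th G P b) := by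
  refine lip_of_plip S.geo fun z => ?_
  by_cases hz : z ∈ U P
  · exact S.Gp_plip h0 h1 hb hΛ0 hΛ hΛ' hz
  · have hγ := S.γpos
    have hc := S.ok.cpos
    have hz' : 1 + 3 * P.c / 100 < P.ρ z := by
      have : ¬ P.ρ z < 1 + 7 * P.c / 10 := hz
      linarith [not_lt.1 this]
    refine ((hG.plip z).mono (le_add_of_nonneg_right (by positivity))).congr ?_
    filter_upwards [S.ok.ρlip.continuous.continuousAt.eventually (lt_mem_nhds hz')] with y hy
    exact S.Gp_eq hy.le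

omit hb in
theorem Gp_planar {y : X} (hy : y ∈ P.Dn) : LocPlanar (Gp th G P b) y := by
  have hc := S.ok.cpos
  have hy' : P.ρ y ≤ 1 + P.c / 100 := hy
  have hU : y ∈ U P := show P.ρ y < 1 + 7 * P.c / 10 by linarith
  obtain ⟨c, a, a', h⟩ := model_planar h0 h1 (ee G P b) (τ P • b (1, 0)) (τ P • b (0, 1)) (Xf P y)
  refine locPlanar_of_eventually (c := c) (a := a) (b := a') ?_
  have hlt : P.ρ y < 1 + 2 * P.c / 100 := by linarith
  filter_upwards [(S.Xf_cont hU).eventually h,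
    S.ok.ρlip.continuous.continuousAt.eventually (gt_mem_nhds hlt)] with z a1 a2
  obtain ⟨s, t, e⟩ := a1
  refine ⟨s, t, ?_⟩
  rw [← e]
  unfold Gp
  rw [S.ok.θone z a2.le, one_smul, add_sub_cancel]
  unfold Gs
  congr 1
  rw [← map_smul, ← map_smul, ← map_smul, ← map_smul, ← map_add]
  congr 1
  ext <;> simp [Yv, mul_comm]

theorem Gp_near {Λ' : ℝ} (hΛ' : Λ' ≤ 2) (hG : Lip Λ' G)
    (hW : ∀ W : Submodule ℝ (V N), (∀ y ∈ P.Rm, ∀ y' ∈ P.Rm, G y - G y' ∈ W) → ∀ v, b v ∈ W) :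
    Near (100 * δ) G (Gp th G P b) := by
  have hs := S.ok.spos
  have hc := S.ok.cpos
  have hc' := S.ok.cle
  have hsδ := S.ok.sδ
  have hδ : 0 < δ := by linarith
  intro x
  by_cases hx : 1 + 3 * P.c / 100 ≤ P.ρ x
  · rw [S.Gp_eq hx]
    exact Near.refl (by positivity) G x
  have hU : x ∈ U P := show P.ρ x < 1 + 7 * P.c / 10 by linarith [not_le.1 hx]
  have hRm := S.U_Rm hU
  have hanc : ∀ k l, P.anc (wk P k l) ∈ P.Rm := fun k l => S.U_Rm (S.anc_U (S.norm_wk k l))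
  have hθ := S.ok.θmem x
  have esub : ∀ k l, ee G P b k l - R G P b x =
      (G (P.anc (wk P k l)) - G x) - b (c2 P (P.anc (wk P k l)) - c2 P x) := by
    intro k l
    simp only [ee, R, map_sub]; abel
  constructor
  · unfold Gp
    rw [add_sub_cancel_left, norm_smul, Real.norm_of_nonneg hθ.1, Gs_sub]
    have b1 : ‖b (Yv th P x - c2 P x)‖ ≤ 6 * δ := by
      refine (S.b_le hb _).trans ?_
      have := S.Yv_close h0 h1 x
      have e1 : τ P * th ≤ τ P * (1 / 4) := mul_le_mul_of_nonneg_left h1 S.τ_pos.le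
      have e2 : P.c * P.s ≤ 1 / 10 * P.s := by gcongr
      unfold τ at this e1
      linarith
    have b2 : F th (ee G P b) (Xf P x) ∈ closedBall (R G P b x) (14 * δ) :=
      F_mem h0 h1 _ _ (convex_closedBall _ _) fun k l _ _ => by
        rw [mem_closedBall, dist_eq_norm, esub]
        refine (norm_sub_le _ _).trans ?_
        have d1 := hG (P.anc (wk P k l)) x
        have d2 := S.ok.diam _ (hanc k l) _ hRm
        have d3 : Λ' * dist (P.anc (wk P k l)) x ≤ 2 * δ :=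
          mul_le_mul hΛ' d2 dist_nonneg (by norm_num)
        have d4 := S.b_le hb (c2 P (P.anc (wk P k l)) - c2 P x)
        have d5 := norm_sub_le (c2 P (P.anc (wk P k l))) (c2 P x)
        have d6 : ‖c2 P (P.anc (wk P k l))‖ ≤ P.s := norm_cm_le hs.le _
        have d7 : ‖c2 P x‖ ≤ P.s := norm_cm_le hs.le _
        linarith
    rw [mem_closedBall, dist_eq_norm] at b2
    have b3 := norm_add_le (b (Yv th P x - c2 P x)) (F th (ee G P b) (Xf P x) - R G P b x)
    have b4 : P.θ x * ‖b (Yv th P x - c2 P x) + (F th (ee G P b) (Xf P x) - R G P b x)‖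
        ≤ 1 * (20 * δ) := mul_le_mul hθ.2 (by linarith) (norm_nonneg _) zero_le_one
    linarith
  · set A := affineSpan ℝ (G '' ball x (100 * δ)) with hA
    have hin : ∀ y ∈ P.Rm, G y ∈ A := fun y hy =>
      subset_affineSpan _ _ (mem_image_of_mem _ (by
        rw [mem_ball]; linarith [S.ok.diam y hy x hRm]))
    have hdir : ∀ y ∈ P.Rm, ∀ y' ∈ P.Rm, G y - G y' ∈ A.direction := fun y hy y' hy' =>
      AffineSubspace.vsub_mem_direction (hin y hy) (hin y' hy')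
    have hbW := hW _ hdir
    have hC : Convex ℝ {p : V N | p - R G P b x ∈ A.direction} := by
      intro p hp p' hp' a a' _ _ haa
      have e : a • p + a' • p' - R G P b x = a • (p - R G P b x) + a' • (p' - R G P b x) := by
        have : R G P b x = (a + a') • R G P b x := by rw [haa, one_smul]
        nth_rewrite 1 [this]
        module
      show a • p + a' • p' - R G P b x ∈ A.direction
      rw [e]
      exact A.direction.add_mem (A.direction.smul_mem _ hp) (A.direction.smul_mem _ hp')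
    have hF : F th (ee G P b) (Xf P x) - R G P b x ∈ A.direction :=
      F_mem h0 h1 _ _ hC fun k l _ _ => by
        show ee G P b k l - R G P b x ∈ A.direction
        rw [esub]
        exact A.direction.sub_mem (hdir _ (hanc k l) _ hRm) (hbW _)
    have hv : P.θ x • (Gs th G P b x - G x) ∈ A.direction := by
      rw [Gs_sub]
      exact A.direction.smul_mem _ (A.direction.add_mem (hbW _) hF)
    have := AffineSubspace.vadd_mem_of_mem_direction hv (hin x hRm)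
    unfold Gp
    rwa [vadd_eq_add, add_comm] at this

end Setup

theorem flat_of (hX : Geodesic X) {G' : X → V N} {a : V N} {η r : ℝ} (hη : 0 < η) {x : X}
    (h : ∀ w ∈ ball x (2 * r), ∀ᶠ y in 𝓝 w, ∃ t : ℝ, ‖G' y - G' w - t • a‖ ≤ η * dist y w) :
    Flat (2 * η) G' (ball x r) := by
  refine ⟨a, fun y hy y' hy' => ?_⟩
  let W : Submodule ℝ (V N) := Submodule.span ℝ {a}
  have : IsClosed (W : Set (V N)) := W.closed_of_finiteDimensional
  have key : ‖(Submodule.Quotient.mk (G' y) : V N ⧸ W) - Submodule.Quotient.mk (G' y')‖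
      ≤ η * dist y y' := by
    refine hX.norm_sub_le_ball (F := fun y => (Submodule.Quotient.mk (G' y) : V N ⧸ W))
      (fun w hw => ?_) hy hy'
    filter_upwards [h w hw] with p hp
    obtain ⟨t, ht⟩ := hp
    refine le_trans (le_of_eq ?_) ((Submodule.Quotient.norm_mk_le W _).trans ht)
    congr 1
    rw [← Submodule.Quotient.mk_sub, Submodule.Quotient.eq]
    simp only [sub_sub_cancel]
    exact W.smul_mem _ (Submodule.mem_span_singleton_self a)
  rcases eq_or_ne y y' with rfl | hne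
  · exact ⟨0, by simp⟩
  have hd : 0 < η * dist y y' := mul_pos hη (dist_pos.2 hne)
  rw [← Submodule.Quotient.mk_sub] at key
  obtain ⟨m, hm, hm'⟩ := Submodule.Quotient.norm_mk_lt
    (Submodule.Quotient.mk (G' y - G' y') : V N ⧸ W) hd
  have hm2 : G' y - G' y' - m ∈ W := (Submodule.Quotient.eq W).1 hm.symm
  obtain ⟨t, ht⟩ := Submodule.mem_span_singleton.1 hm2
  refine ⟨t, ?_⟩
  rw [ht, sub_sub_cancel]
  linarith

theorem cl_const {s u v : ℝ} (hs : 0 ≤ s) (h : s + |v - u| ≤ |u|) {v' : ℝ}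
    (h' : s + |v' - u| ≤ |u|) : cl s v = cl s v' := by
  have a1 := le_abs_self (v - u)
  have a2 := neg_abs_le (v - u)
  have a3 := le_abs_self (v' - u)
  have a4 := neg_abs_le (v' - u)
  rcases le_total 0 u with hu | hu
  · rw [abs_of_nonneg hu] at h h'
    rw [cl_of_ge hs (by linarith), cl_of_ge hs (by linarith)]
  · rw [abs_of_nonpos hu] at h h'
    rw [cl_of_le hs (by linarith), cl_of_le hs (by linarith)]

theorem Setup.Gp_flat {H G : X → V N} {P : Patch X N} {Λ γ δ r : ℝ} {T : V N →L[ℝ] V N}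
    (S : Setup H G P Λ γ δ r T) {th : ℝ} (h0 : 0 < th) (h1 : th ≤ 1 / 4) {b : R2 →L[ℝ] V N}
    (hb : ∀ v, ‖b v - (T.comp P.A) v‖ ≤ 14 * γ * ‖v‖) {x : X} (hx : 1 + P.c / 100 ≤ P.ρ x)
    (hx' : P.ρ x ≤ 1 + P.c / 2) :
    Flat (2 * (18 * th + 3029 * γ + 1200 * γ / th)) (Gp th G P b) (ball x (τ P)) := by
  have hs := S.ok.spos
  have hc := S.ok.cpos
  have hγ := S.γpos
  have hcs : 0 < P.c * P.s := by positivity
  have hball : ∀ y ∈ ball x (2 * τ P), y ∈ U P ∧ ‖P.σ y - P.σ x‖ ≤ P.c * P.s / 100 := by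
    intro y hy
    rw [mem_ball, dist_comm] at hy
    unfold τ at hy
    have b1 : 2 / P.s * dist x y ≤ 2 / P.s * (P.c * P.s / 100) := by gcongr; linarith
    have b2 : 2 / P.s * (P.c * P.s / 100) = P.c / 50 := by field_simp; norm_num
    have b3 : P.ρ x + 2 / P.s * dist x y < 1 + 7 * P.c / 10 := by linarith
    refine ⟨S.mem_U b3 (by simp [dist_comm]), ?_⟩
    rw [norm_sub_rev]
    exact (S.σ_geo b3).trans (by linarith)
  have hxU : x ∈ U P := show P.ρ x < 1 + 7 * P.c / 10 by linarith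
  have hn : P.s + P.c * P.s / 100 ≤ ‖P.σ x‖ := by
    rw [S.ok.ρeq x (S.U_Rm hxU)]; nlinarith
  rw [Prod.norm_def, le_max_iff] at hn
  rcases hn with hn | hn
  · refine flat_of S.geo (a := b (0, 1)) (by positivity) fun w hw => ?_
    filter_upwards [S.master h0 h1 hb (hball w hw).1, isOpen_ball.mem_nhds hw] with y a1 a2
    obtain ⟨β1, -, β2, -, e⟩ := a1
    have e1 : (c2 P y - c2 P w).1 = 0 := by
      simp only [c2, Prod.fst_sub, cm_fst]
      rw [sub_eq_zero]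
      refine cl_const (u := (P.σ x).1) hs.le (le_trans ?_ hn) (le_trans ?_ hn)
      · linarith [(abs_fst_le_norm _).trans (hball y a2).2, Prod.fst_sub (P.σ y) (P.σ x),
          congrArg abs (Prod.fst_sub (P.σ y) (P.σ x))]
      · linarith [(abs_fst_le_norm _).trans (hball w hw).2,
          congrArg abs (Prod.fst_sub (P.σ w) (P.σ x))]
    refine ⟨(1 - 2 * th)⁻¹ * (β2 * (c2 P y - c2 P w).2), le_trans (le_of_eq ?_) e⟩
    rw [e1, ← map_smul, ← map_smul]
    congr 3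
    ext <;> simp
  · refine flat_of S.geo (a := b (1, 0)) (by positivity) fun w hw => ?_
    filter_upwards [S.master h0 h1 hb (hball w hw).1, isOpen_ball.mem_nhds hw] with y a1 a2
    obtain ⟨β1, -, β2, -, e⟩ := a1
    have e1 : (c2 P y - c2 P w).2 = 0 := by
      simp only [c2, Prod.snd_sub, cm_snd]
      rw [sub_eq_zero]
      refine cl_const (u := (P.σ x).2) hs.le (le_trans ?_ hn) (le_trans ?_ hn)
      · linarith [(abs_snd_le_norm _).trans (hball y a2).2,
          congrArg abs (Prod.snd_sub (P.σ y) (P.σ x))]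
      · linarith [(abs_snd_le_norm _).trans (hball w hw).2,
          congrArg abs (Prod.snd_sub (P.σ w) (P.σ x))]
    refine ⟨(1 - 2 * th)⁻¹ * (β1 * (c2 P y - c2 P w).1), le_trans (le_of_eq ?_) e⟩
    rw [e1, ← map_smul, ← map_smul]
    congr 3
    ext <;> simp

end CR

open CR in
theorem cr : CRStmt.{u} := by
  intro ε hε γ' hγ'
  obtain ⟨th, h0, h1, h2, h3⟩ : ∃ th : ℝ, 0 < th ∧ th ≤ 1 / 100 ∧ 100 * th ≤ ε ∧ 100 * th ≤ γ' := by
    refine ⟨min (min ε γ') 1 / 100, by positivity, ?_, ?_, ?_⟩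
    · linarith [min_le_right (min ε γ') 1]
    · linarith [min_le_left (min ε γ') 1, min_le_left ε γ']
    · linarith [min_le_left (min ε γ') 1, min_le_right ε γ']
  refine ⟨th ^ 2 / 100, by positivity, ?_⟩
  intro X _ _ hX N H G P Λ Λ' δ r T hP hΛ0 hΛ hΛ' hG hT hr hloc
  have hsq : th ^ 2 ≤ th / 100 := by nlinarith
  have S : Setup H G P Λ (th ^ 2 / 100) δ r T :=
    ⟨hX, hP, by positivity, by linarith, hT, hr, hloc⟩
  have h1' : th ≤ 1 / 4 := by linarith
  obtain ⟨b, hb, hW⟩ := S.exists_b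
  have e : 1200 * (th ^ 2 / 100) / th = 12 * th := by field_simp; ring
  refine ⟨Gp th G P b, (S.Gp_lip h0 h1' hb hΛ0 hΛ hΛ' hG).mono ?_, S.Gp_near h0 h1' hb hΛ' hG hW,
    fun y hy => S.Gp_eq hy, fun y hy => S.Gp_planar h0 h1' hy, τ P, S.τ_pos,
    fun x hx hx' => (S.Gp_flat h0 h1' hb hx hx').mono ?_ Subset.rfl⟩
  · rw [e]; linarith
  · rw [e]; linarith

end Pool.Agent.MP_7f5071_gt
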