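import Pool.Agent.MP_7f5071_gt.BL

/-! ONE, part B: the staircase interpolation. -/

namespace Pool.Agent.MP_7f5071_gt

open Filter Topology Set Metric

namespace One

variable {X : Type*} [MetricSpace X] {N : ℕ}

open Classical in
/-- the local direction of `H` at `v` -/
noncomputable def av (H : X → V N) (u : X → ℝ) (r η : ℝ) (v : X) : V N :=
  if hv : ∃ y ∈ ball v r, η < |u y - u v| then (u hv.choose - u v)⁻¹ • (H hv.choose - H v) else 0

lemma av_cases (H : X → V N) (u : X → ℝ) (r η : ℝ) (v : X) :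
    (av H u r η v = 0 ∧ ∀ y ∈ ball v r, |u y - u v| ≤ η) ∨
      ∃ y ∈ ball v r, η < |u y - u v| ∧ av H u r η v = (u y - u v)⁻¹ • (H y - H v) := by
  by_cases hv : ∃ y ∈ ball v r, η < |u y - u v|
  · exact Or.inr ⟨hv.choose, hv.choose_spec.1, hv.choose_spec.2, dif_pos hv⟩
  · exact Or.inl ⟨dif_neg hv, fun y hy => le_of_not_gt fun h => hv ⟨y, hy, h⟩⟩

/-- the data produced by the weight lemma, with `η = h` -/
structure W (X : Type*) [MetricSpace X] (N : ℕ) where
  H : X → V N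
  u : X → ℝ
  M0 : ℝ
  M : ℝ
  s : ℝ
  h : ℝ
  θ : ℝ
  Λ' : ℝ
  p : Fin 4 → X → ℝ
  rep : Fin 4 → X → X
  u' : X → ℝ
  M0_ge : 1 ≤ M0
  M_ge : 3 * M0 ≤ M
  s_pos : 0 < s
  h_pos : 0 < h
  h_le : h ≤ s
  θ_pos : 0 < θ
  u_lip : Lip 2 u
  p_sum : ∀ x, ∑ c, p c x = 1
  p_lip : ∀ c, Lip (M0 / s) (p c)
  rep_d : ∀ c x, 0 < p c x → dist x (rep c x) ≤ M0 * s
  rep_eq : ∀ c x y, 0 < p c x → 0 < p c y → dist x y ≤ s → rep c x = rep c y
  u'_lip : Lip Λ' u'
  u'_d : ∀ x, |u' x - u x| ≤ M0 * s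
  flat : ∀ z, (∀ y ∈ ball z (M * s), |u y - u z| ≤ h) →
    ∀ y ∈ ball z (3 * M0 * s), |u' y - u y| ≤ 2 * h + h
  card : ∀ x, (Finset.univ.filter fun c => 0 < p c x).card ≤ 2 ∨
    ((Finset.univ.filter fun c => 0 < p c x).card ≤ 3 ∧ ∃ k : ℤ, u' x = k * h)

namespace W

variable (w : W X N)

/-- direction -/
noncomputable def a (v : X) : V N := av w.H w.u (w.M * w.s) w.h v
/-- nodes -/
noncomputable def E (v : X) (n : ℤ) : V N := w.H v + (w.h * n - w.u v) • w.a v
/-- weights -/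
noncomputable def q (y : X) : Fin 4 → ℝ := nz fun c => w.p c y
/-- the combination with frozen representatives -/
noncomputable def F (x : X) (n : ℤ) (f : ℝ) (y : X) : V N :=
  comb (w.q y) (mm w.θ f (w.q y)) (fun c => w.E (w.rep c x) n) fun c => w.h • w.a (w.rep c x)
/-- the new map -/
noncomputable def H1 (y : X) : V N :=
  w.F y ⌊w.u' y / w.h⌋ ((1 + 5 * w.θ) * Int.fract (w.u' y / w.h) - w.θ) y

lemma E_succ (v : X) (n : ℤ) : w.E v n + w.h • w.a v = w.E v (n + 1) := by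
  simp only [E]; push_cast; module

lemma q_sum (y : X) : ∑ c, w.q y c = 1 := nz_sum (w.p_sum y)
lemma q_nonneg (y : X) (c : Fin 4) : 0 ≤ w.q y c := nz_nonneg _ _
lemma q_zero {y : X} {c : Fin 4} (h : w.p c y ≤ 1 / 8) : w.q y c = 0 := nz_zero h

lemma m_zero {y : X} {c : Fin 4} (h : w.q y c = 0) (f : ℝ) : mm w.θ f (w.q y) c = 0 :=
  le_antisymm (h ▸ mm_le (w.q_nonneg y c)) (mm_nonneg _ _ _ _)

lemma q_lip (x y : X) : ∑ c, |w.q y c - w.q x c| ≤ 16 * (w.M0 / w.s) * dist y x := by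
  have h1 := nz_lip (w.p_sum x) (w.p_sum y)
  have h2 := Finset.sum_le_card_nsmul Finset.univ (fun c => |w.p c y - w.p c x|) _
    fun c _ => (w.p_lip c).abs_sub_le y x
  simp only [Finset.card_univ, Fintype.card_fin, nsmul_eq_mul] at h2
  push_cast at h2
  exact h1.trans (by linarith)

lemma q_cont (c : Fin 4) : Continuous fun y => w.q y c :=
  Lip.continuous (K := 16 * (w.M0 / w.s)) fun y x =>
    (Finset.single_le_sum (f := fun c => |w.q y c - w.q x c|) (fun _ _ => abs_nonneg _)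
      (Finset.mem_univ c)).trans (w.q_lip x y)

lemma ev_q (x : X) : ∀ᶠ y in 𝓝 x, ∀ c, (w.p c x ≤ 1 / 16 → w.q y c = 0) ∧
    (1 / 16 < w.p c x → w.rep c y = w.rep c x) := by
  rw [eventually_all]
  intro c
  have hc := (w.p_lip c).continuous.continuousAt (x := x)
  by_cases h : w.p c x ≤ 1 / 16
  · filter_upwards [hc.eventually (gt_mem_nhds (show w.p c x < 1 / 8 by linarith))] with y hy
    exact ⟨fun _ => w.q_zero hy.le, fun h' => absurd h (not_le.2 h')⟩
  · push Not at h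
    filter_upwards [hc.eventually (lt_mem_nhds (show 0 < w.p c x by linarith)),
      ball_mem_nhds x w.s_pos] with y hy hy'
    exact ⟨fun h' => absurd h' (not_le.2 h),
      fun _ => w.rep_eq c y x hy (by linarith) (mem_ball.1 hy').le⟩

lemma F_shift (x : X) (n : ℤ) {f : ℝ} (y : X) (hf : 1 + 3 * w.θ ≤ f) :
    w.F x n f y = w.F x (n + 1) 0 y := by
  unfold F comb
  refine Finset.sum_congr rfl fun c _ => ?_
  beta_reduce
  rw [mm_full (w.q_nonneg y) (w.q_sum y) w.θ_pos.le hf, mm_zero (w.q_nonneg y) w.θ_pos.le le_rfl,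
    ← E_succ]
  module

lemma F_neg (x : X) (n : ℤ) {f : ℝ} (y : X) (hf : f ≤ 0) : w.F x n f y = w.F x n 0 y := by
  unfold F comb
  refine Finset.sum_congr rfl fun c _ => ?_
  rw [mm_zero (w.q_nonneg y) w.θ_pos.le hf, mm_zero (w.q_nonneg y) w.θ_pos.le le_rfl]

lemma loc (x : X) : ∃ (n : ℤ) (f : X → ℝ), Continuous f ∧ |w.h * n - w.u' x| ≤ w.h ∧
    (∀ y, w.h * |f y - f x| ≤ (1 + 5 * w.θ) * |w.u' y - w.u' x|) ∧
    ((∀ y, f y = 0) ∨ ¬ ∃ k : ℤ, w.u' x = k * w.h) ∧
    ∀ᶠ y in 𝓝 x, w.H1 y = w.F x n (f y) y := by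
  have hθ := w.θ_pos
  have hh := w.h_pos
  have hν : Continuous fun y => w.u' y / w.h := w.u'_lip.continuous.div_const _
  have frz : ∀ᶠ y in 𝓝 x, ∀ n f, w.F y n f y = w.F x n f y := by
    filter_upwards [w.ev_q x] with y hy n f
    refine comb_congr fun c => ?_
    rcases le_or_gt (w.p c x) (1 / 16) with h | h
    · exact Or.inl ⟨(hy c).1 h, w.m_zero ((hy c).1 h) _⟩
    · exact Or.inr (by simp only [(hy c).2 h, and_self])
  by_cases hk : ∃ k : ℤ, w.u' x = k * w.h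
  · obtain ⟨k, hk⟩ := hk
    refine ⟨k, fun _ => 0, continuous_const, by rw [hk]; simp [mul_comm, hh.le],
      fun y => by simp only [sub_self, abs_zero, mul_zero]; positivity, Or.inl fun _ => rfl, ?_⟩
    have hx : w.u' x / w.h = k := by rw [hk]; field_simp
    have hϑ : 0 < w.θ / (1 + 5 * w.θ) := by positivity
    have hϑ1 : w.θ / (1 + 5 * w.θ) < 1 := by rw [div_lt_one (by positivity)]; linarith
    have hϑ2 : (1 + 5 * w.θ) * (w.θ / (1 + 5 * w.θ)) = w.θ := by field_simp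
    filter_upwards [frz, (hν.continuousAt (x := x)).eventually (ball_mem_nhds _ hϑ)] with y h1 h2
    rw [Real.dist_eq, hx, abs_lt] at h2
    rw [H1, h1]
    rcases le_or_gt (k : ℝ) (w.u' y / w.h) with h | h
    · have e : ⌊w.u' y / w.h⌋ = k := Int.floor_eq_iff.2 ⟨h, by linarith⟩
      rw [Int.fract, e]
      exact w.F_neg x k y (by nlinarith)
    · have e : ⌊w.u' y / w.h⌋ = k - 1 := Int.floor_eq_iff.2 ⟨by push_cast; linarith, by
        push_cast; linarith⟩
      rw [Int.fract, e, w.F_shift x (k - 1) y (by push_cast; nlinarith), sub_add_cancel]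
  · set n := ⌊w.u' x / w.h⌋ with hn
    have h1 : (n : ℝ) < w.u' x / w.h := lt_of_le_of_ne (Int.floor_le _) fun h =>
      hk ⟨n, by rw [h]; field_simp⟩
    have h2 : w.u' x / w.h < n + 1 := Int.lt_floor_add_one _
    refine ⟨n, fun y => (1 + 5 * w.θ) * (w.u' y / w.h - n) - w.θ, by fun_prop, ?_, fun y => ?_,
      Or.inr hk, ?_⟩
    · rw [lt_div_iff₀ hh] at h1
      rw [div_lt_iff₀ hh] at h2
      rw [abs_le]; constructor <;> nlinarith
    · have : (1 + 5 * w.θ) * (w.u' y / w.h - n) - w.θ - ((1 + 5 * w.θ) * (w.u' x / w.h - n) - w.θ)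
          = (1 + 5 * w.θ) * (w.u' y - w.u' x) / w.h := by ring
      rw [this, abs_div, abs_mul, abs_of_pos hh, abs_of_pos (by positivity : 0 < 1 + 5 * w.θ)]
      exact le_of_eq (by field_simp)
    · filter_upwards [frz, (hν.continuousAt (x := x)).eventually (Ioo_mem_nhds h1 h2)] with y a b
      have e : ⌊w.u' y / w.h⌋ = n := Int.floor_eq_iff.2 ⟨b.1.le, b.2⟩
      rw [H1, a, Int.fract, e]

lemma planar (x : X) : LocPlanar w.H1 x := by
  obtain ⟨n, f, hf, -, -, hc, hev⟩ := w.loc x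
  have hz : ∀ᶠ y in 𝓝 x, ∀ c, ¬ 0 < w.p c x → w.q y c = 0 := by
    filter_upwards [w.ev_q x] with y hy c h
    exact (hy c).1 (by linarith [not_lt.1 h])
  have fin : ∀ A B C : V N, (∀ᶠ y in 𝓝 x, w.F x n (f y) y ∈ affineSpan ℝ ({A, B, C} : Set (V N))) →
      LocPlanar w.H1 x := fun A B C h => locPlanar_of_eventually (c := A) (a := B - A) (b := C - A)
    (by filter_upwards [h, hev] with y h1 h2; rw [h2]; exact plane_of_three A B C h1)
  have mem : ∀ A B C D : V N, D = A ∨ D = B ∨ D = C → D ∈ affineSpan ℝ ({A, B, C} : Set (V N)) :=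
    fun A B C D h => subset_affineSpan _ _ (by simpa using h)
  rcases hc with hc | hc
  · obtain ⟨c0, c1, c2, h⟩ := sub_three (Finset.univ.filter fun c => 0 < w.p c x)
      ((w.card x).elim (fun h => h.trans (by norm_num)) fun h => h.1)
    refine fin (w.E (w.rep c0 x) n) (w.E (w.rep c1 x) n) (w.E (w.rep c2 x) n) ?_
    filter_upwards [hz] with y hy
    have hm : ∀ c, mm w.θ (f y) (w.q y) c = 0 := mm_zero (w.q_nonneg y) w.θ_pos.le (hc y).le
    refine comb_mem _ (w.q_sum y) fun c => ⟨?_, Or.inl (hm c)⟩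
    by_cases hp : 0 < w.p c x
    · refine Or.inr (mem _ _ _ _ ?_)
      rcases h c (by simpa using hp) with rfl | rfl | rfl <;> simp
    · exact Or.inl (by rw [hm, hy c hp, sub_zero])
  · obtain ⟨c0, c1, hlt, h⟩ := sub_two (Finset.univ.filter fun c => 0 < w.p c x)
      ((w.card x).resolve_right fun h => hc h.2)
    have hP : ∀ c, Continuous fun y => Pc (w.q y) c := fun c =>
      continuous_finsetSum _ fun c _ => w.q_cont c
    have hq := w.q_cont
    have hθ := w.θ_pos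
    rcases lt_or_ge (f x) (Pc (w.q x) c1 + c1 * w.θ) with h1 | h1
    · refine fin (w.E (w.rep c0 x) n) (w.E (w.rep c0 x) (n + 1)) (w.E (w.rep c1 x) n) ?_
      have : ∀ᶠ y in 𝓝 x, f y < Pc (w.q y) c1 + c1 * w.θ :=
        hf.continuousAt.eventually_lt ((hP c1).add continuous_const).continuousAt h1
      filter_upwards [hz, this] with y hy hy'
      refine comb_mem _ (w.q_sum y) fun c => ?_
      by_cases hp : 0 < w.p c x
      · rcases h c (by simpa using hp) with rfl | rfl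
        · exact ⟨Or.inr (mem _ _ _ _ (by simp)), Or.inr (mem _ _ _ _ (by simp [E_succ]))⟩
        · exact ⟨Or.inr (mem _ _ _ _ (by simp)), Or.inl (cl_zero (by linarith))⟩
      · exact ⟨Or.inl (by rw [w.m_zero (hy c hp), hy c hp, sub_zero]), Or.inl (w.m_zero (hy c hp) _)⟩
    · refine fin (w.E (w.rep c0 x) (n + 1)) (w.E (w.rep c1 x) n) (w.E (w.rep c1 x) (n + 1)) ?_
      have : ∀ᶠ y in 𝓝 x, Pc (w.q y) c0 + c0 * w.θ + w.q y c0 < f y :=
        (((hP c0).add continuous_const).add (hq c0)).continuousAt.eventually_lt hf.continuousAt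
          (show Pc (w.q x) c0 + c0 * w.θ + w.q x c0 < f x by
            linarith [Pc_lt (w.q_nonneg x) hlt hθ.le])
      filter_upwards [hz, this] with y hy hy'
      refine comb_mem _ (w.q_sum y) fun c => ?_
      by_cases hp : 0 < w.p c x
      · rcases h c (by simpa using hp) with rfl | rfl
        · exact ⟨Or.inl (sub_eq_zero.2 (cl_full (w.q_nonneg y c) (by linarith)).symm),
            Or.inr (mem _ _ _ _ (by simp [E_succ]))⟩
        · exact ⟨Or.inr (mem _ _ _ _ (by simp)), Or.inr (mem _ _ _ _ (by simp [E_succ]))⟩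
      · exact ⟨Or.inl (by rw [w.m_zero (hy c hp), hy c hp, sub_zero]), Or.inl (w.m_zero (hy c hp) _)⟩

lemma pos_of_q {x : X} {c : Fin 4} (h : w.q x c ≠ 0) : 0 < w.p c x := by
  by_contra hn
  exact h (w.q_zero (by linarith [not_lt.1 hn]))

lemma mem_span (x : X) {δ : ℝ} (hδ : (w.M0 + w.M) * w.s ≤ δ) :
    w.H1 x ∈ affineSpan ℝ (w.H '' ball x δ) := by
  have hs := w.s_pos
  have hM : 0 < w.M * w.s := mul_pos (by linarith [w.M0_ge, w.M_ge]) w.s_pos
  have key : ∀ c n, 0 < w.p c x → w.E (w.rep c x) n ∈ affineSpan ℝ (w.H '' ball x δ) := by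
    intro c n hp
    have hd := w.rep_d c x hp
    have h1 : w.H (w.rep c x) ∈ affineSpan ℝ (w.H '' ball x δ) :=
      subset_affineSpan _ _ ⟨_, by rw [mem_ball, dist_comm]; linarith, rfl⟩
    rcases av_cases w.H w.u (w.M * w.s) w.h (w.rep c x) with h | ⟨y, hy, -, h⟩
    · simpa [E, a, h.1] using h1
    · have h2 : w.H y ∈ affineSpan ℝ (w.H '' ball x δ) :=
        subset_affineSpan _ _ ⟨_, by
          rw [mem_ball] at hy ⊢
          linarith [dist_triangle y (w.rep c x) x, dist_comm x (w.rep c x)], rfl⟩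
      rw [E, a, h, add_comm, smul_smul]
      exact AffineSubspace.vadd_mem_of_mem_direction
        (Submodule.smul_mem _ _ (AffineSubspace.vsub_mem_direction h2 h1)) h1
  unfold H1 F
  refine comb_mem _ (w.q_sum x) fun c => ?_
  by_cases hq : w.q x c = 0
  · exact ⟨Or.inl (by rw [w.m_zero hq, hq, sub_zero]), Or.inl (w.m_zero hq _)⟩
  · exact ⟨Or.inr (key c _ (w.pos_of_q hq)), Or.inr (by rw [E_succ]; exact key c _ (w.pos_of_q hq))⟩

lemma a_bound (T : V N →L[ℝ] V N) {x : X} {γ g r : ℝ} (hγ : 0 ≤ γ) (hg : γ * (w.M * w.s) ≤ g * w.h)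
    (hr : (w.M0 + w.M) * w.s ≤ r)
    (hT : ∀ y ∈ ball x r, ∀ y' ∈ ball x r, ‖T (w.H y) - T (w.H y')‖ ≤ γ * dist y y')
    {c : Fin 4} (hp : 0 < w.p c x) : ‖T (w.a (w.rep c x))‖ ≤ g := by
  have hs := w.s_pos
  have hh := w.h_pos
  have hM : 0 < w.M * w.s := mul_pos (by linarith [w.M0_ge, w.M_ge]) w.s_pos
  have hg0 : 0 ≤ g := by
    by_contra hn
    nlinarith [mul_nonneg hγ hM.le]
  have hd := w.rep_d c x hp
  rcases av_cases w.H w.u (w.M * w.s) w.h (w.rep c x) with h | ⟨y, hy, h1, h⟩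
  · simpa [a, h.1] using hg0
  · rw [mem_ball] at hy
    have := hT y (by
        rw [mem_ball]; linarith [dist_triangle y (w.rep c x) x, dist_comm x (w.rep c x)])
      (w.rep c x) (by rw [mem_ball, dist_comm]; linarith)
    rw [a, h, map_smul, map_sub, norm_smul, norm_inv, Real.norm_eq_abs,
      inv_mul_le_iff₀ (by linarith)]
    nlinarith [mul_le_mul_of_nonneg_left hy.le hγ, mul_le_mul_of_nonneg_left h1.le hg0]

/-- `H` is almost parallel to `a0` near `x` -/
structure At (x : X) (a0 : V N) (l : V N →L[ℝ] ℝ) (γ g r : ℝ) : Prop where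
  hu : ∀ y, w.u y = l (w.H y)
  ha : ‖a0‖ ≤ 1
  hγ : 0 ≤ γ
  hg : γ * (w.M * w.s) ≤ g * w.h
  hg1 : g ≤ 1
  hr : (w.M0 + w.M) * w.s ≤ r
  hR : ∀ y ∈ ball x r, ∀ y' ∈ ball x r,
    ‖(w.H y - l (w.H y) • a0) - (w.H y' - l (w.H y') • a0)‖ ≤ γ * dist y y'

variable {w} {x : X} {a0 : V N} {l : V N →L[ℝ] ℝ} {γ g r : ℝ}

lemma At.g_nonneg (h : w.At x a0 l γ g r) : 0 ≤ g := by
  have hM : 0 < w.M * w.s := mul_pos (by linarith [w.M0_ge, w.M_ge]) w.s_pos
  by_contra hn
  nlinarith [mul_nonneg h.hγ hM.le, h.hg, w.h_pos]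

lemma At.a_cases (h : w.At x a0 l γ g r) {c : Fin 4} (hp : 0 < w.p c x) :
    (w.a (w.rep c x) = 0 ∧
      ∀ y ∈ ball (w.rep c x) (w.M * w.s), |w.u y - w.u (w.rep c x)| ≤ w.h) ∨
    ‖w.a (w.rep c x) - a0‖ ≤ g := by
  rcases av_cases w.H w.u (w.M * w.s) w.h (w.rep c x) with h' | ⟨y, -, h1, h'⟩
  · exact Or.inl h'
  · have := w.a_bound (ContinuousLinearMap.id ℝ _ - l.smulRight a0) h.hγ h.hg h.hr
      (fun y hy y' hy' => by simpa using h.hR y hy y' hy') hp
    have e : l (w.a (w.rep c x)) = 1 := by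
      rw [a, h', map_smul, map_sub, ← h.hu, ← h.hu, smul_eq_mul, inv_mul_cancel₀]
      intro h0
      rw [h0, abs_zero] at h1
      linarith [w.h_pos]
    right
    simpa [e] using this

lemma At.a_norm (h : w.At x a0 l γ g r) {c : Fin 4} (hp : 0 < w.p c x) :
    ‖w.a (w.rep c x)‖ ≤ 1 + g := by
  rcases h.a_cases hp with h' | h'
  · rw [h'.1, norm_zero]; linarith [h.g_nonneg]
  · linarith [norm_le_insert' (w.a (w.rep c x)) a0, h.ha]

lemma lev (w : W X N) {x : X} {n : ℤ} {t : ℝ} (hn : |w.h * n - w.u' x| ≤ t) {c : Fin 4}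
    (hp : 0 < w.p c x) : |w.h * n - w.u (w.rep c x)| ≤ t + 3 * (w.M0 * w.s) := by
  have h1 := abs_le.1 (w.u'_d x)
  have h2 := abs_le.1 (w.u_lip.abs_sub_le x (w.rep c x))
  have h3 := w.rep_d c x hp
  have h4 := abs_le.1 hn
  rw [abs_le]; constructor <;> linarith [h1.1, h1.2, h2.1, h2.2, h4.1, h4.2]

lemma At.close (h : w.At x a0 l γ g r) (hH : Lip 2 w.H) :
    ‖w.H1 x - w.H x‖ ≤ 12 * (w.M0 * w.s) := by
  have hh := w.h_pos
  have hs : w.h ≤ w.M0 * w.s := w.h_le.trans (by nlinarith [w.M0_ge, w.s_pos])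
  have key : ∀ c (n : ℤ), 0 < w.p c x → |w.h * n - w.u' x| ≤ w.h →
      ‖w.E (w.rep c x) n - w.H x‖ ≤ 12 * (w.M0 * w.s) := by
    intro c n hp hn
    have h1 := w.lev hn hp
    have h2 := h.a_norm hp
    have h3 := hH (w.rep c x) x
    have h4 := w.rep_d c x hp
    rw [dist_comm] at h4
    have e : w.E (w.rep c x) n - w.H x = (w.H (w.rep c x) - w.H x) +
        (w.h * n - w.u (w.rep c x)) • w.a (w.rep c x) := by rw [E]; abel
    rw [e]
    refine (norm_add_le _ _).trans ?_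
    rw [norm_smul, Real.norm_eq_abs]
    have : |w.h * n - w.u (w.rep c x)| * ‖w.a (w.rep c x)‖ ≤ (4 * (w.M0 * w.s)) * 2 :=
      mul_le_mul (by linarith) (by linarith [h.hg1]) (norm_nonneg _) (by linarith)
    linarith
  have f1 := Int.floor_le (w.u' x / w.h)
  have f2 := Int.lt_floor_add_one (w.u' x / w.h)
  rw [le_div_iff₀ hh] at f1
  rw [div_lt_iff₀ hh] at f2
  unfold H1 F
  refine norm_comb_sub_le _ (w.q_sum x) (mm_nonneg _ _ _) (fun c => mm_le (w.q_nonneg x c))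
    fun c => ?_
  by_cases hq : w.q x c = 0
  · exact Or.inl hq
  · refine Or.inr ⟨key c _ (w.pos_of_q hq) ?_, ?_⟩
    · rw [abs_le]; constructor <;> nlinarith
    · rw [E_succ]
      refine key c _ (w.pos_of_q hq) ?_
      push_cast
      rw [abs_le]; constructor <;> nlinarith

lemma At.nodes (h : w.At x a0 l γ g r) {n : ℤ} (hn : |w.h * n - w.u' x| ≤ w.h) :
    ∃ o, ∀ c, 0 < w.p c x →
      ‖w.E (w.rep c x) n - o‖ ≤ (γ + 4 * g) * (w.M0 * w.s) + 14 * w.h := by
  have hh := w.h_pos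
  have hs0 := w.s_pos
  have hM0 := w.M0_ge
  have hM := w.M_ge
  have hg := h.g_nonneg
  have hγ := h.hγ
  have hs : w.h ≤ w.M0 * w.s := w.h_le.trans (by nlinarith)
  have hMs : 3 * (w.M0 * w.s) ≤ w.M * w.s := by nlinarith
  have hR : ∀ c, 0 < w.p c x → ‖(w.H (w.rep c x) - w.u (w.rep c x) • a0) - (w.H x - w.u x • a0)‖ ≤
      γ * (w.M0 * w.s) := by
    intro c hp
    have hd := w.rep_d c x hp
    have hr := h.hr
    rw [dist_comm] at hd
    have := h.hR (w.rep c x) (by rw [mem_ball]; nlinarith) x (mem_ball_self (by nlinarith))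
    rw [← h.hu, ← h.hu] at this
    exact this.trans (mul_le_mul_of_nonneg_left hd hγ)
  by_cases hf : ∀ c, 0 < w.p c x → ‖w.a (w.rep c x) - a0‖ ≤ g
  · refine ⟨w.H x - w.u x • a0 + (w.h * n) • a0, fun c hp => ?_⟩
    have e : w.E (w.rep c x) n - (w.H x - w.u x • a0 + (w.h * n) • a0) =
        ((w.H (w.rep c x) - w.u (w.rep c x) • a0) - (w.H x - w.u x • a0)) +
          (w.h * n - w.u (w.rep c x)) • (w.a (w.rep c x) - a0) := by rw [E]; module
    rw [e]
    refine (norm_add_le _ _).trans ?_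
    rw [norm_smul, Real.norm_eq_abs]
    have h1 := w.lev hn hp
    have : |w.h * n - w.u (w.rep c x)| * ‖w.a (w.rep c x) - a0‖ ≤ (4 * (w.M0 * w.s)) * g :=
      mul_le_mul (by linarith) (hf c hp) (norm_nonneg _) (by linarith)
    linarith [hR c hp]
  · push Not at hf
    obtain ⟨c', hp', hf⟩ := hf
    have hfl := ((h.a_cases hp').resolve_right (not_le.2 hf)).2
    have hd' := w.rep_d c' x hp'
    have h1 := abs_le.1 (w.flat _ hfl x (by rw [mem_ball]; nlinarith))
    have h2 := abs_le.1 (hfl x (by rw [mem_ball]; nlinarith))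
    refine ⟨w.H x, fun c hp => ?_⟩
    have hd := w.rep_d c x hp
    have h3 := abs_le.1 (hfl (w.rep c x) (by
      rw [mem_ball]
      have := dist_triangle (w.rep c x) x (w.rep c' x)
      rw [dist_comm (w.rep c x) x] at this
      nlinarith))
    have h4 := abs_le.1 hn
    have e : w.E (w.rep c x) n - w.H x =
        ((w.H (w.rep c x) - w.u (w.rep c x) • a0) - (w.H x - w.u x • a0)) +
          ((w.u (w.rep c x) - w.u x) • a0 +
            (w.h * n - w.u (w.rep c x)) • w.a (w.rep c x)) := by rw [E]; module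
    rw [e]
    refine (norm_add_le _ _).trans ((add_le_add le_rfl (norm_add_le _ _)).trans ?_)
    rw [norm_smul, norm_smul, Real.norm_eq_abs, Real.norm_eq_abs]
    have t1 : |w.u (w.rep c x) - w.u x| * ‖a0‖ ≤ (2 * w.h) * 1 :=
      mul_le_mul (by rw [abs_le]; constructor <;> linarith [h2.1, h2.2, h3.1, h3.2]) h.ha
        (norm_nonneg _) (by linarith)
    have t2 : |w.h * n - w.u (w.rep c x)| * ‖w.a (w.rep c x)‖ ≤ (6 * w.h) * 2 :=
      mul_le_mul (by
        rw [abs_le]; constructor <;> linarith [h1.1, h1.2, h2.1, h2.2, h3.1, h3.2, h4.1, h4.2])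
        (by linarith [h.a_norm hp, h.hg1]) (norm_nonneg _) (by linarith)
    nlinarith [hR c hp, mul_nonneg hg (by positivity : 0 ≤ w.M0 * w.s)]

lemma At.plip (h : w.At x a0 l γ g r) (T : V N →L[ℝ] V N) (hT : ∀ v, ‖T v‖ ≤ 2 * ‖v‖) {A : ℝ}
    (hA0 : 0 ≤ A) (hA : ∀ c, 0 < w.p c x → ‖T (w.a (w.rep c x))‖ ≤ A) :
    PLip (32 * (w.M0 / w.s) * ((γ + 4 * g) * (w.M0 * w.s) + 14 * w.h) +
      A * ((1 + 5 * w.θ) * w.Λ' + 128 * (w.M0 / w.s) * w.h)) (fun y => T (w.H1 y)) x := by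
  obtain ⟨n, f, -, hn, hf, -, hev⟩ := w.loc x
  obtain ⟨o, ho⟩ := h.nodes hn
  have hh := w.h_pos
  have hθ := w.θ_pos
  set B := (γ + 4 * g) * (w.M0 * w.s) + 14 * w.h with hB
  have hB0 : 0 ≤ B := by
    have := h.g_nonneg; have := h.hγ; have := w.M0_ge; have := w.s_pos; positivity
  filter_upwards [hev, w.ev_q x] with y hy hq
  rw [hy, hev.self_of_nhds]
  have key := norm_comb_sub_comb T (q := w.q x) (q' := w.q y) (m := mm w.θ (f x) (w.q x))
    (m' := mm w.θ (f y) (w.q y)) (P := fun c => w.E (w.rep c x) n)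
    (b := fun c => w.h • w.a (w.rep c x)) o (B := 2 * B) (A := w.h * A) (w.q_sum x) (w.q_sum y)
    fun c => by
      by_cases hp : 0 < w.p c x
      · refine Or.inr ⟨(hT _).trans (by linarith [ho c hp]), ?_⟩
        rw [map_smul, norm_smul, Real.norm_of_nonneg hh.le]
        exact mul_le_mul_of_nonneg_left (hA c hp) hh.le
      · have h1 := (hq c).1 (by linarith [not_lt.1 hp])
        have h2 := w.q_zero (y := x) (c := c) (by linarith [not_lt.1 hp])
        exact Or.inl ⟨by rw [h1, h2], by rw [w.m_zero h1, w.m_zero h2]⟩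
  refine key.trans ?_
  have k1 := w.q_lip x y
  have k2 := mm_lip (f := f x) (f' := f y) (q := w.q x) (w.q_nonneg y) hθ.le
  have k3 := (hf y).trans (mul_le_mul_of_nonneg_left (w.u'_lip.abs_sub_le y x) (by positivity))
  have k4 : w.h * ∑ c, |mm w.θ (f y) (w.q y) c - mm w.θ (f x) (w.q x) c| ≤
      ((1 + 5 * w.θ) * w.Λ' + 128 * (w.M0 / w.s) * w.h) * dist y x := by
    have := mul_le_mul_of_nonneg_left k2 hh.le
    have := mul_le_mul_of_nonneg_left k1 hh.le
    nlinarith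
  have k5 := mul_le_mul_of_nonneg_left k4 hA0
  have k6 := mul_le_mul_of_nonneg_left k1 hB0
  nlinarith

end W

end One

end Pool.Agent.MP_7f5071_gt
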