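import Mathlib.Algebra.Order.Archimedean.Real.Hom
import Mathlib.Analysis.Calculus.ContDiff.Operations
import Mathlib.MeasureTheory.Covering.Vitali
import Mathlib.Analysis.Normed.Module.HahnBanach
import Mathlib.SetTheory.ZFC.PSet
import Pool.Agent.MP_7f5071_gt.Spec
import Pool.Agent.MP_7f5071_gt.L1.Base
import Pool.Agent.MP_7f5071_gt.BL
import Pool.Agent.MP_7f5071_gt.OneB

-- ======== part 0: formerly Pool.Agent.MP_7f5071_gt.Poly
section MrgPart0

/-! Module POLY: the intrinsic metric of a triangulated union of compact convex sets. -/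

namespace Pool.Agent.MP_7f5071_gt

open Set Metric Filter Topology

namespace Poly

variable {N n : ℕ}

/-- Chains whose consecutive points lie in a common set, with their length. -/
inductive Chain (Q : Fin n → Set (V N)) : V N → V N → ℝ → Prop
  | refl (p : V N) : Chain Q p p 0
  | step {p q q' : V N} {L : ℝ} (i : Fin n) : Chain Q p q L → q ∈ Q i → q' ∈ Q i →
      Chain Q p q' (L + ‖q - q'‖)

variable {Q : Fin n → Set (V N)}

theorem Chain.norm_le {p q : V N} {L : ℝ} (h : Chain Q p q L) : ‖p - q‖ ≤ L := by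
  induction h with
  | refl => simp
  | @step q q' L i _ _ _ ih =>
    have := norm_sub_le_norm_sub_add_norm_sub p q q'
    linarith

theorem Chain.nonneg {p q : V N} {L : ℝ} (h : Chain Q p q L) : 0 ≤ L :=
  (norm_nonneg _).trans h.norm_le

theorem Chain.trans {p q r : V N} {L L' : ℝ} (h : Chain Q p q L) (h' : Chain Q q r L') :
    Chain Q p r (L + L') := by
  induction h' with
  | refl => simpa using h
  | step i _ h1 h2 ih =>
    have := Chain.step i ih h1 h2
    rwa [add_assoc] at this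

theorem Chain.single {p q : V N} (i : Fin n) (hp : p ∈ Q i) (hq : q ∈ Q i) :
    Chain Q p q ‖p - q‖ := by
  simpa using Chain.step i (Chain.refl p) hp hq

theorem Chain.symm {p q : V N} {L : ℝ} (h : Chain Q p q L) : Chain Q q p L := by
  induction h with
  | refl => exact Chain.refl _
  | step i _ h1 h2 ih =>
    have := (Chain.single i h2 h1).trans ih
    rwa [norm_sub_rev, add_comm] at this

/-- Any two points of the union are joined by a chain. -/
def Conn (Q : Fin n → Set (V N)) : Prop :=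
  ∀ p ∈ ⋃ i, Q i, ∀ q ∈ ⋃ i, Q i, ∃ L, Chain Q p q L

/-- The union, as a new type. -/
structure Sp (Q : Fin n → Set (V N)) (h : Conn Q) : Type where
  /-- the underlying point -/
  val : V N
  mem : val ∈ ⋃ i, Q i

variable {h : Conn Q}

/-- The intrinsic distance. -/
noncomputable def D (p q : Sp Q h) : ℝ := sInf {L | Chain Q p.val q.val L}

theorem ne (p q : Sp Q h) : {L | Chain Q p.val q.val L}.Nonempty := h _ p.mem _ q.mem

theorem bdd (p q : Sp Q h) : BddBelow {L | Chain Q p.val q.val L} := ⟨0, fun _ hL => hL.nonneg⟩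

theorem D_le {p q : Sp Q h} {L : ℝ} (hL : Chain Q p.val q.val L) : D p q ≤ L :=
  csInf_le (bdd p q) hL

theorem le_D {p q : Sp Q h} {a : ℝ} (ha : ∀ L, Chain Q p.val q.val L → a ≤ L) : a ≤ D p q :=
  le_csInf (ne p q) ha

theorem norm_le_D (p q : Sp Q h) : ‖p.val - q.val‖ ≤ D p q := le_D fun _ hL => hL.norm_le

theorem val_inj : Function.Injective (Sp.val : Sp Q h → V N) := by
  rintro ⟨a, _⟩ ⟨b, _⟩ hab
  simp only at hab
  subst hab
  rfl

noncomputable instance : MetricSpace (Sp Q h) where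
  dist := D
  dist_self p := le_antisymm (D_le (Chain.refl _)) (le_D fun _ hL => hL.nonneg)
  dist_comm p q := le_antisymm (le_D fun _ hL => D_le hL.symm) (le_D fun _ hL => D_le hL.symm)
  dist_triangle p q r := by
    have : ∀ L, Chain Q p.val q.val L → D p r - L ≤ D q r := fun L hL =>
      le_D fun L' hL' => by
        have := D_le (p := p) (q := r) (hL.trans hL')
        linarith
    have h2 : D p r - D q r ≤ D p q := le_D fun L hL => by
      have := this L hL
      linarith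
    show D p r ≤ D p q + D q r
    linarith
  eq_of_dist_eq_zero {p q} hpq := by
    have h1 := norm_le_D p q
    have h2 : D p q = 0 := hpq
    rw [h2] at h1
    exact val_inj (sub_eq_zero.1 (norm_le_zero_iff.1 h1))

theorem dist_def (p q : Sp Q h) : dist p q = D p q := rfl

theorem dist_same {p q : Sp Q h} (i : Fin n) (hp : p.val ∈ Q i) (hq : q.val ∈ Q i) :
    dist p q = ‖p.val - q.val‖ :=
  le_antisymm (D_le (Chain.single i hp hq)) (norm_le_D p q)

theorem univ_prop {Y : Type*} [PseudoMetricSpace Y] (f : Sp Q h → Y)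
    (hf : ∀ i p q, p.val ∈ Q i → q.val ∈ Q i → dist (f p) (f q) ≤ ‖p.val - q.val‖) :
    LipschitzWith 1 f := by
  have key : ∀ (p : Sp Q h) (q : V N) (L : ℝ), Chain Q p.val q L →
      ∀ q' : Sp Q h, q'.val = q → dist (f p) (f q') ≤ L := by
    intro p q L hL
    induction hL with
    | refl =>
      intro q' hq'
      rw [val_inj hq']; simp
    | @step q r L i _ h1 h2 ih =>
      intro q' hq'
      let m : Sp Q h := ⟨q, mem_iUnion.2 ⟨i, h1⟩⟩
      have a1 := ih m rfl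
      have a2 := hf i m q' h1 (hq' ▸ h2)
      have a3 := dist_triangle (f p) (f m) (f q')
      rw [hq'] at a2
      exact a3.trans (add_le_add a1 a2)
  refine LipschitzWith.of_dist_le_mul fun p q => ?_
  rw [NNReal.coe_one, one_mul]
  exact le_D fun L hL => key p _ L hL q rfl

/-- A short curve along a segment inside one of the sets. -/
theorem seg (hc : ∀ i, Convex ℝ (Q i)) (i : Fin n) (p q : Sp Q h) (hp : p.val ∈ Q i)
    (hq : q.val ∈ Q i) : ∃ g : ℝ → Sp Q h, (∀ s t, dist (g s) (g t) ≤ |s - t|) ∧ g 0 = p ∧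
      g ‖p.val - q.val‖ = q := by
  set l := ‖p.val - q.val‖ with hl
  rcases (norm_nonneg (p.val - q.val)).eq_or_lt with h0 | h0
  · have : p = q := val_inj (sub_eq_zero.1 (norm_eq_zero.1 h0.symm))
    exact ⟨fun _ => p, fun s t => by simp, rfl, this⟩
  rw [← hl] at h0
  let c : ℝ → ℝ := fun t => max 0 (min 1 (t / l))
  have hc0 : ∀ t, c t ∈ Icc (0 : ℝ) 1 := fun t =>
    ⟨le_max_left _ _, max_le zero_le_one (min_le_left _ _)⟩
  have hmem : ∀ t, p.val + c t • (q.val - p.val) ∈ Q i := fun t =>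
    (hc i).add_smul_sub_mem hp hq (hc0 t)
  refine ⟨fun t => ⟨p.val + c t • (q.val - p.val), mem_iUnion.2 ⟨i, hmem t⟩⟩, fun s t => ?_,
    val_inj (by simp [c]), val_inj (by simp [c, h0.ne'])⟩
  rw [dist_same i (hmem s) (hmem t)]
  simp only [add_sub_add_left_eq_sub]
  rw [← sub_smul, norm_smul, norm_sub_rev q.val, ← hl, Real.norm_eq_abs]
  have h1 : |c s - c t| ≤ |s / l - t / l| :=
    (abs_max_sub_max_le_max _ _ _ _).trans (by
      simp only [sub_self, abs_zero]
      refine max_le (abs_nonneg _) ((abs_min_sub_min_le_max _ _ _ _).trans ?_)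
      simp)
  rw [← sub_div, abs_div, abs_of_pos h0, le_div_iff₀ h0] at h1
  exact h1

theorem curve (hc : ∀ i, Convex ℝ (Q i)) (p : Sp Q h) (q : V N) (L : ℝ)
    (hL : Chain Q p.val q L) : ∀ q' : Sp Q h, q'.val = q →
      ∃ g : ℝ → Sp Q h, (∀ s t, dist (g s) (g t) ≤ |s - t|) ∧ g 0 = p ∧ g L = q' := by
  induction hL with
  | refl =>
    intro q' hq'
    exact ⟨fun _ => p, fun s t => by simp, rfl, (val_inj hq').symm⟩
  | @step q r L i hch h1 h2 ih =>
    intro q' hq'
    let m : Sp Q h := ⟨q, mem_iUnion.2 ⟨i, h1⟩⟩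
    obtain ⟨g, g1, g2, g3⟩ := ih m rfl
    obtain ⟨k, k1, k2, k3⟩ := seg hc i m q' h1 (hq' ▸ h2)
    have hL0 := hch.nonneg
    have mix : ∀ s t, s ≤ L → ¬ t ≤ L → dist (g s) (k (t - L)) ≤ |s - t| := by
      intro s t hs ht
      have a1 := g1 s L
      have a2 := k1 0 (t - L)
      have a3 := dist_triangle (g s) m (k (t - L))
      rw [g3, abs_of_nonpos (by linarith)] at a1
      rw [k2, abs_of_nonpos (by linarith)] at a2
      rw [abs_of_nonpos (by linarith)]
      linarith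
    refine ⟨fun t => if t ≤ L then g t else k (t - L), fun s t => ?_, by simp [hL0, g2], ?_⟩
    · by_cases hs : s ≤ L <;> by_cases ht : t ≤ L <;> simp only [hs, ht, if_true, if_false]
      · exact g1 s t
      · exact mix s t hs ht
      · rw [dist_comm, abs_sub_comm]; exact mix t s ht hs
      · simpa using k1 (s - L) (t - L)
    · by_cases h0 : L + ‖q - r‖ ≤ L
      · have : q = r := sub_eq_zero.1 (norm_le_zero_iff.1 (by linarith))
        simp only [h0, if_true]
        rw [this, sub_self, norm_zero, add_zero, g3]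
        exact val_inj (by rw [hq']; exact this)
      · simp only [h0, if_false, add_sub_cancel_left]
        rw [hq'] at k3
        exact k3

theorem length (hc : ∀ i, Convex ℝ (Q i)) : IsLengthSpace (Sp Q h) := by
  intro x y
  apply le_antisymm
  · refine le_iInf fun γ => ?_
    have := eVariationOn.edist_le γ (mem_univ 0) (mem_univ 1)
    simpa using this
  · rw [edist_dist]
    refine ENNReal.le_of_forall_pos_le_add fun ε hε _ => ?_
    obtain ⟨L, hL, hlt⟩ := exists_lt_of_csInf_lt (ne x y)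
      (show D x y < D x y + ε from lt_add_of_pos_right _ (by exact_mod_cast hε))
    obtain ⟨g, g1, g2, g3⟩ := curve hc x _ L hL y rfl
    have hL0 : 0 ≤ L := hL.nonneg
    have hg : LipschitzWith 1 g := LipschitzWith.of_dist_le_mul fun s t => by
      simpa [Real.dist_eq] using g1 s t
    let γ : Path x y :=
      { toFun := fun t => g (L * t)
        continuous_toFun := hg.continuous.comp (by fun_prop)
        source' := by simp [g2]
        target' := by simp [g3] }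
    refine (iInf_le _ γ).trans ?_
    have h1 : eVariationOn γ univ ≤ (1 : NNReal) * eVariationOn
        (fun t : unitInterval => L * (t : ℝ)) univ :=
      LipschitzOnWith.comp_eVariationOn_le (t := univ) hg.lipschitzOnWith (mapsTo_univ _ _)
    have h2 := MonotoneOn.eVariationOn_eq (f := fun t : unitInterval => L * (t : ℝ)) (s := univ)
      (fun a _ b _ hab => mul_le_mul_of_nonneg_left hab hL0) (mem_univ 0) (mem_univ 1)
    have h3 : (univ : Set unitInterval) ∩ Icc 0 1 = univ := by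
      ext t; simp [unitInterval.le_one']
    rw [h3] at h2
    simp only [Icc.coe_one, mul_one, Icc.coe_zero, mul_zero, sub_zero] at h2
    rw [ENNReal.coe_one, one_mul] at h1
    refine h1.trans (h2.le.trans ?_)
    rw [← ENNReal.ofReal_coe_nnreal, ← ENNReal.ofReal_add (dist_nonneg (x := x) (y := y)) ε.coe_nonneg]
    exact ENNReal.ofReal_le_ofReal hlt.le

theorem cont (hcl : ∀ i, IsClosed (Q i)) {U : Set (V N)} (hU : U = ⋃ i, Q i) :
    Continuous fun x : U => (⟨x.1, hU ▸ x.2⟩ : Sp Q h) := by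
  rw [continuous_iff_continuousAt]
  intro x
  rw [ContinuousAt, tendsto_iff_dist_tendsto_zero]
  have h1 : ∀ᶠ y : U in 𝓝 x, ∀ i, y.1 ∈ Q i → x.1 ∈ Q i := by
    refine eventually_all.2 fun i => ?_
    by_cases hx : x.1 ∈ Q i
    · exact Eventually.of_forall fun _ _ => hx
    · have : ∀ᶠ y : U in 𝓝 x, y.1 ∈ (Q i)ᶜ :=
        continuous_subtype_val.continuousAt.eventually ((hcl i).isOpen_compl.mem_nhds hx)
      exact this.mono fun y hy hy' => absurd hy' hy
  have h2 : Tendsto (fun y : U => ‖y.1 - x.1‖) (𝓝 x) (𝓝 0) := by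
    have : Continuous fun y : U => ‖y.1 - x.1‖ := by fun_prop
    simpa using this.tendsto x
  refine h2.congr' (h1.mono fun y hy => ?_)
  obtain ⟨i, hi⟩ := mem_iUnion.1 (hU ▸ y.2 : y.1 ∈ ⋃ i, Q i)
  exact (dist_same (h := h) (p := ⟨y.1, hU ▸ y.2⟩) (q := ⟨x.1, hU ▸ x.2⟩) i hi (hy i hi)).symm

end Poly

theorem poly : PolyStmt := by
  intro N n Q K hcpt hcv hfin hcard hsp hsub hconn
  have h : Poly.Conn Q := by
    intro p hp q hq
    have := hconn p hp q hq
    clear hq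
    induction this with
    | refl => exact ⟨0, Poly.Chain.refl p⟩
    | tail _ hbc ih =>
      obtain ⟨L, hL⟩ := ih
      obtain ⟨i, h1, h2⟩ := hbc
      exact ⟨_, Poly.Chain.step i hL h1 h2⟩
  have hc : IsCompact K.space := hsp ▸ isCompact_iUnion hcpt
  have : CompactSpace K.space := isCompact_iff_compactSpace.1 hc
  let e : K.space ≃ Poly.Sp Q h :=
    { toFun := fun x => ⟨x.1, hsp ▸ x.2⟩
      invFun := fun p => ⟨p.val, hsp ▸ p.mem⟩
      left_inv := fun _ => rfl
      right_inv := fun _ => rfl }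
  have he : Continuous e := Poly.cont (fun i => (hcpt i).isClosed) hsp
  let φ : K.space ≃ₜ Poly.Sp Q h := he.homeoOfEquivCompactToT2
  refine ⟨Poly.Sp Q h, inferInstance, φ.compactSpace, Poly.Sp.val,
    ⟨Poly.length hcv, N, K, φ, hfin, hcard, fun s hs => ?_⟩, Poly.val_inj, ?_, Poly.norm_le_D,
    fun i p q hp hq => Poly.dist_same i hp hq, fun Y _ f hf => Poly.univ_prop f hf⟩
  · refine ⟨V N, inferInstance, inferInstance, inferInstance, AffineMap.id ℝ _, K.indep hs,
      fun x y hx hy => ?_⟩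
    obtain ⟨i, hi⟩ := hsub s hs
    exact Poly.dist_same i (hi hx) (hi hy)
  · ext x
    exact ⟨fun ⟨p, hp⟩ => hp ▸ p.mem, fun hx => ⟨⟨x, hx⟩, rfl⟩⟩

end Pool.Agent.MP_7f5071_gt

end MrgPart0

-- ======== part 1: formerly Pool.Agent.MP_7f5071_gt.R
section MrgPart1

/-! The cross points of a chart are covered by countably many pieces. -/

namespace Pool.Agent.MP_7f5071_gt

open Filter Topology Set Metric MeasureTheory

universe u

namespace R

variable {X : Type u} [MetricSpace X]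

lemma joined_cb (hX : Geodesic X) (x y : X) : JoinedIn (closedBall x (dist x y)) x y := by
  obtain ⟨γ, h⟩ := hX x y
  refine JoinedIn.ofLine (f := fun t => γ (t * dist x y))
    (h.lip.continuous.comp (by fun_prop)).continuousOn (by simp [h.src]) (by simp [h.tgt]) ?_
  rintro _ ⟨t, ht, rfl⟩
  have := h.lip.dist_le_mul (t * dist x y) 0
  rw [h.src, NNReal.coe_one, one_mul, Real.dist_eq, sub_zero,
    abs_of_nonneg (mul_nonneg ht.1 dist_nonneg)] at this
  exact this.trans (mul_le_of_le_one_left dist_nonneg ht.2)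

lemma joined_ball (hX : Geodesic X) {x y : X} {r : ℝ} (h : dist y x < r) :
    JoinedIn (ball x r) x y :=
  (joined_cb hX x y).mono (closedBall_subset_ball (by rwa [dist_comm]))

/-- The three directions. -/
def dir : Fin 3 → R2 := ![(0, 1), (0, -1), (1, 0)]

lemma norm_dir (j : Fin 3) : ‖dir j‖ = 1 := by
  fin_cases j <;> simp [dir]

lemma le_norm_dir {j l : Fin 3} (h : j ≠ l) (t : ℝ) {t' : ℝ} (ht' : 0 ≤ t') :
    t ≤ ‖t • dir j - t' • dir l‖ := by
  have h1 := (le_abs_self _).trans (norm_fst_le (t • dir j - t' • dir l))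
  have h2 := (le_abs_self _).trans (norm_snd_le (t • dir j - t' • dir l))
  have h3 := (neg_le_abs _).trans (norm_snd_le (t • dir j - t' • dir l))
  generalize ‖t • dir j - t' • dir l‖ = a at *
  fin_cases j <;> fin_cases l <;> simp [dir] at h h1 h2 h3 <;> linarith

lemma le_norm_dir' {j l : Fin 3} (h : j ≠ l) {t : ℝ} (ht : 0 ≤ t) (t' : ℝ) :
    t' ≤ ‖t • dir j - t' • dir l‖ := by
  rw [norm_sub_rev]
  exact le_norm_dir h.symm t' ht

/-- The points with three arms whose tips are close to three given points. -/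
def Cls (π : X → R2) (C s k : ℝ) (b : Fin 3 → X) : Set X :=
  {x | ∀ j, ∃ w, dist w (b j) < k ∧ ‖π w - π x - s • dir j‖ ≤ s / 4 ∧
    ∀ r > 0, JoinedIn (ArmSet π x (dir j) C s ∪ ball x r) x w}

lemma norm_sub_le3 (a b c : R2) : ‖b - c‖ ≤ ‖a - b‖ + ‖a - c‖ := by
  have := norm_sub_le (a - c) (a - b)
  rw [show a - c - (a - b) = b - c by abel] at this
  linarith

theorem no_triangle (hX : IsDisc X) {π : X → R2} {L C s k : ℝ} (hL : Lip L π) (hL0 : 0 ≤ L)
    (hC : 0 ≤ C) (hs : 0 < s) (hk : 16 * (L * k) ≤ s) {b a : Fin 3 → X}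
    (ha : ∀ i, a i ∈ Cls π C s k b) (hu : ∀ i i', i ≠ i' → 4 * C * ‖π (a i) - π (a i')‖ <
      dist (a i) (a i')) : False := by
  choose w hw1 hw2 hw3 using ha
  obtain ⟨r, hr⟩ : ∃ r : ℝ, (L * r ≤ s / 4 ∧ ∀ i i', i ≠ i' → 4 * C * ‖π (a i) - π (a i')‖
      + (2 + 4 * C * L) * r ≤ dist (a i) (a i')) ∧ 0 < r := by
    have h0 : ∀ c : ℝ, Tendsto (fun r : ℝ => c * r) (𝓝[>] 0) (𝓝 0) := fun c => by
      simpa using (tendsto_id.mono_left (nhdsWithin_le_nhds (a := (0 : ℝ)) (s := Ioi 0))).const_mul c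
    refine ((((h0 L).eventually (ge_mem_nhds (by linarith))).and ?_).and
      self_mem_nhdsWithin).exists
    simp only [eventually_all]
    intro i i' h
    exact ((h0 (2 + 4 * C * L)).eventually (ge_mem_nhds (sub_pos.2 (hu i i' h)))).mono
      fun r hr => by linarith
  obtain ⟨⟨hr1, hr2⟩, hr⟩ := hr
  have hLr : 0 ≤ L * r := by positivity
  have lip : ∀ {x y : X} {d : ℝ}, dist x y ≤ d → ‖π x - π y‖ ≤ L * d := fun h =>
    (hL _ _).trans (mul_le_mul_of_nonneg_left h hL0)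
  have tip : ∀ {y : X} i j, y ∈ ball (b j) k → ‖π y - π (a i) - s • dir j‖ ≤ s / 4 + s / 8 :=
    fun {y} i j hy => by
      have h1 := lip (x := y) (y := w i j) (d := 2 * k)
        (by linarith [dist_triangle_right y (w i j) (b j), hw1 i j, mem_ball.1 hy])
      have h2 := norm_add_le (π y - π (w i j)) (π (w i j) - π (a i) - s • dir j)
      rw [show π y - π (w i j) + (π (w i j) - π (a i) - s • dir j) = π y - π (a i) - s • dir j by
        abel] at h2
      linarith [hw2 i j]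
  have ab : ∀ i i' j, i ≠ i' → Disjoint (ArmSet π (a i) (dir j) C s) (ball (a i') r) :=
    fun i i' j h => Set.disjoint_left.2 fun y ⟨t, ht, h1, h2⟩ hy => by
      have h3 := norm_sub_le3 (π y - π (a i)) (t • dir j) 0
      rw [sub_zero, sub_zero, norm_smul, norm_dir, Real.norm_eq_abs, abs_of_nonneg ht.1] at h3
      have h4 := norm_add_le (π y - π (a i')) (π (a i') - π (a i))
      rw [sub_add_sub_cancel, norm_sub_rev (π (a i'))] at h4
      have h5 := lip (mem_ball.1 hy).le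
      have h6 := mul_le_mul_of_nonneg_left
        (show t ≤ 4 * ‖π (a i) - π (a i')‖ + 4 * (L * r) by linarith [ht.1]) hC
      linarith [hr2 i i' h, dist_triangle_left (a i) (a i') y, mem_ball.1 hy]
  have at' : ∀ i j l, j ≠ l → Disjoint (ArmSet π (a i) (dir j) C s) (ball (b l) k) :=
    fun i j l h => Set.disjoint_left.2 fun y ⟨t, ht, h1, _⟩ hy => by
      linarith [norm_sub_le3 (π y - π (a i)) (t • dir j) (s • dir l), le_norm_dir' h ht.1 s,
        tip i l hy, ht.2]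
  have bt : ∀ i l, Disjoint (ball (a i) r) (ball (b l) k) :=
    fun i l => Set.disjoint_left.2 fun y hy hy' => by
      have h3 := norm_sub_le3 (π y - π (a i)) (s • dir l) 0
      rw [sub_zero, sub_zero, norm_smul, norm_dir, Real.norm_eq_abs, abs_of_pos hs] at h3
      linarith [lip (mem_ball.1 hy).le, tip i l hy']
  refine hX.k33 a b (fun i j => ArmSet π (a i) (dir j) C s ∪ ball (a i) r ∪ ball (b j) k)
    (fun i j => ((hw3 i j r hr).mono subset_union_left).trans
      ((joined_ball hX.geod (hw1 i j)).symm.mono subset_union_right)) fun i j i' l hi hj => ?_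
  simp only [disjoint_union_left, disjoint_union_right]
  refine ⟨⟨⟨⟨?_, (ab i' i l hi.symm).symm⟩, (at' i' l j hj.symm).symm⟩, ⟨ab i i' j hi, ?_⟩,
    (bt i' j).symm⟩, ⟨at' i j l hj, bt i l⟩, ?_⟩
  · refine Set.disjoint_left.2 fun y ⟨t, ht, h1, h2⟩ ⟨t', ht', h1', h2'⟩ => ?_
    have h3 := norm_sub_le3 (π y - π (a i)) (t • dir j) (t' • dir l)
    have h4 := norm_add_le (π y - π (a i') - t' • dir l) (π (a i') - π (a i))
    rw [show π y - π (a i') - t' • dir l + (π (a i') - π (a i)) = π y - π (a i) - t' • dir l by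
      abel, norm_sub_rev (π (a i'))] at h4
    have h6 := mul_le_mul_of_nonneg_left (show t + t' ≤ 4 * ‖π (a i) - π (a i')‖ by
      linarith [le_norm_dir hj t ht'.1, le_norm_dir' hj ht.1 t']) hC
    linarith [hu i i' hi, dist_triangle_left (a i) (a i') y]
  · refine ball_disjoint_ball (le_trans ?_ (hr2 i i' hi))
    have : 0 ≤ 4 * C * ‖π (a i) - π (a i')‖ + 4 * C * (L * r) := by positivity
    linarith
  · refine Set.disjoint_left.2 fun y hy hy' => ?_
    linarith [norm_sub_le3 (π y - π (a i)) (s • dir j) (s • dir l), le_norm_dir hj s hs.le,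
      tip i j hy, tip i l hy']

/-- Sets that are covered by countably many pieces. -/
def Small (π : X → R2) (A : Set X) : Prop :=
  ∃ T : Set (Set X), T.Countable ∧ (∀ Γ ∈ T, IsPiece π Γ) ∧ A ⊆ ⋃₀ T

variable {π : X → R2}

lemma Small.mono {A B : Set X} (h : Small π B) (hA : A ⊆ B) : Small π A :=
  let ⟨T, h1, h2, h3⟩ := h
  ⟨T, h1, h2, hA.trans h3⟩

lemma Small.iUnion {ι : Type*} [Countable ι] {A : ι → Set X} (h : ∀ i, Small π (A i)) :
    Small π (⋃ i, A i) := by
  choose T h1 h2 h3 using h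
  refine ⟨⋃ i, T i, countable_iUnion h1, fun Γ hΓ => ?_, iUnion_subset fun i =>
    (h3 i).trans (sUnion_subset_sUnion (subset_iUnion _ i))⟩
  obtain ⟨i, hi⟩ := mem_iUnion.1 hΓ
  exact h2 i Γ hi

lemma Small.union {A B : Set X} (hA : Small π A) (hB : Small π B) : Small π (A ∪ B) := by
  rw [union_eq_iUnion]
  exact Small.iUnion fun b => by cases b <;> assumption

lemma cont_of_lip {L : ℝ} (hL : Lip L π) : Continuous π :=
  (LipschitzWith.of_dist_le' (K := L) fun x y => by rw [dist_eq_norm]; exact hL x y).continuous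

variable [CompactSpace X]

lemma small_of_rel {L C : ℝ} (hL : Lip L π) {A : Set X}
    (h : ∀ x ∈ A, ∀ y ∈ A, dist x y ≤ C * ‖π x - π y‖) : Small π A := by
  have hc := cont_of_lip hL
  refine ⟨{closure A}, countable_singleton _, fun Γ hΓ => ?_, by simpa using subset_closure⟩
  obtain rfl : Γ = closure A := hΓ
  refine ⟨⟨L, hL⟩, isClosed_closure.isCompact, C, fun x hx y hy => ?_⟩
  have h1 : ∀ x ∈ A, dist x y ≤ C * ‖π x - π y‖ := fun x hx =>
    closure_minimal (t := {y | dist x y ≤ C * ‖π x - π y‖}) (h x hx)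
      (isClosed_le (by fun_prop) (by fun_prop)) hy
  exact closure_minimal (t := {x | dist x y ≤ C * ‖π x - π y‖}) h1
    (isClosed_le (by fun_prop) (by fun_prop)) hx

theorem small_of_no_triangle {L C : ℝ} (hL : Lip L π) {S : Set X}
    (h : ∀ a : Fin 3 → X, (∀ i, a i ∈ S) → (∀ i i', i ≠ i' → C * ‖π (a i) - π (a i')‖ <
      dist (a i) (a i')) → False) : Small π S := by
  have hc := cont_of_lip hL
  obtain ⟨T, hT, hT1, hT2⟩ := TopologicalSpace.isOpen_sUnion_countable
    {N : Set X | IsOpen N ∧ Small π (S ∩ N)} fun N hN => hN.1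
  set W := ⋃₀ {N : Set X | IsOpen N ∧ Small π (S ∩ N)} with hW
  have h1 : Small π (S ∩ W) := by
    rw [← hT2, sUnion_eq_iUnion, inter_iUnion]
    have := hT.to_subtype
    exact Small.iUnion fun N => (hT1 N.2).2
  have h2 : ∀ N, IsOpen N → Small π (S ∩ N) ∨ ∃ x ∈ (S \ W) ∩ N, ∃ y ∈ (S \ W) ∩ N,
      C * ‖π x - π y‖ < dist x y := fun N hN => by
    by_contra! hcon
    exact hcon.1 ((h1.union (small_of_rel hL hcon.2)).mono fun x hx => by
      by_cases hx' : x ∈ W
      exacts [Or.inl ⟨hx.1, hx'⟩, Or.inr ⟨⟨hx.1, hx'⟩, hx.2⟩])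
  obtain h3 | ⟨x, hx, y, hy, hxy⟩ := h2 univ isOpen_univ
  · simpa using h3
  have ho : IsOpen {p | C * ‖π p - π y‖ < dist p y} := isOpen_lt (by fun_prop) (by fun_prop)
  obtain h3 | ⟨p, hp, q, hq, hpq⟩ := h2 _ ho
  · exact (hx.1.2 ⟨_, ⟨ho, h3⟩, hxy⟩).elim
  have sy : ∀ {p q : X}, C * ‖π p - π q‖ < dist p q → C * ‖π q - π p‖ < dist q p := fun h => by
    rwa [norm_sub_rev, dist_comm]
  refine (h ![p, q, y] (fun i => ?_) fun i i' hi => ?_).elim
  · fin_cases i
    exacts [hp.1.1, hq.1.1, hy.1.1]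
  · fin_cases i <;> fin_cases i'
    exacts [(hi rfl).elim, hpq, hp.2, sy hpq, (hi rfl).elim, hq.2, sy hp.2, sy hq.2, (hi rfl).elim]

end R

open R in
theorem rr : RStmt.{u} := by
  intro X _ _ hX π L hL
  have := hX.ne
  have hL' : Lip |L| π := fun x y =>
    (hL x y).trans (mul_le_mul_of_nonneg_right (le_abs_self L) dist_nonneg)
  obtain ⟨z, hz⟩ := TopologicalSpace.exists_dense_seq X
  have h : Small π (⋃ c : ℕ × ℕ × (Fin 3 → ℕ), Cls π c.1 (1 / (c.2.1 + 1))
      (1 / (c.2.1 + 1) / (16 * (|L| + 1))) fun j => z (c.2.2 j)) :=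
    Small.iUnion fun c => small_of_no_triangle hL fun a ha hu =>
      no_triangle hX hL' (abs_nonneg L) c.1.cast_nonneg (by positivity) (by
        rw [← mul_assoc, ← mul_div_assoc, div_le_iff₀ (by positivity), mul_comm]
        gcongr
        linarith) ha hu
  obtain ⟨T, h1, h2, h3⟩ := h
  obtain ⟨Γ, hΓ⟩ := (h1.insert ∅).exists_eq_range (insert_nonempty _ _)
  refine ⟨Γ, fun m => ?_, fun x ⟨C, m, a0, a1, a2⟩ => ?_⟩
  · obtain h | h : Γ m ∈ insert ∅ T := hΓ ▸ mem_range_self m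
    · rw [h]
      exact ⟨⟨L, hL⟩, isCompact_empty, 0, by simp⟩
    · exact h2 _ h
  · have a : ∀ j, Arm π x (dir j) C (1 / (m + 1)) := fun j => by
      fin_cases j
      exacts [a0, a1, a2]
    choose w hw1 hw2 using a
    choose b hb using fun j => hz.exists_dist_lt (w j)
      (show (0 : ℝ) < 1 / (m + 1) / (16 * (|L| + 1)) by positivity)
    obtain ⟨S, hS, hx⟩ := h3 (mem_iUnion.2 ⟨(C, m, b), fun j => ⟨w j, hb j, hw1 j, hw2 j⟩⟩)
    obtain ⟨n, rfl⟩ : S ∈ range Γ := hΓ ▸ mem_insert_of_mem _ hS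
    exact ⟨n, hx⟩

end Pool.Agent.MP_7f5071_gt

end MrgPart1

-- ======== part 2: formerly Pool.Agent.MP_7f5071_gt.Eul
section MrgPart2

/-! The module EUL: an Euler scheme for the fields given by D1. -/

namespace Pool.Agent.MP_7f5071_gt

open Filter Topology Set Metric MeasureTheory

namespace Eul

variable {J : ℕ}

/-- Dissipativity gives a lower bound for the resolvent. -/
lemma nrm_resolvent {ξ : Fin J → R2} (hξ : Normal ξ) (T : R2 →L[ℝ] R2) {η' t : ℝ}
    (hη : 0 ≤ η') (ht : 0 ≤ t)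
    (hT : ∀ v j, ev (ξ j) v = nrm ξ v → ev (ξ j) (T v) ≤ η' * ‖v‖) (v : R2) :
    (1 - t * η') * nrm ξ v ≤ nrm ξ (v - t • T v) := by
  have key : ∀ v j, ev (ξ j) v = nrm ξ v → (1 - t * η') * nrm ξ v ≤ nrm ξ (v - t • T v) := by
    intro v j hj
    have h1 := hT v j hj
    have h2 : ev (ξ j) (v - t • T v) = ev (ξ j) v - t * ev (ξ j) (T v) := by
      simp only [ev, Prod.fst_sub, Prod.snd_sub, Prod.smul_fst, Prod.smul_snd, smul_eq_mul]
      ring
    have h3 := (le_abs_self _).trans (abs_ev_le ξ (v - t • T v) j)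
    have h4 : η' * ‖v‖ ≤ η' * nrm ξ v := mul_le_mul_of_nonneg_left (norm_le_nrm hξ v) hη
    have h5 : t * ev (ξ j) (T v) ≤ t * (η' * nrm ξ v) :=
      mul_le_mul_of_nonneg_left (h1.trans h4) ht
    rw [h2, hj] at h3
    nlinarith
  obtain ⟨j, hj⟩ := exists_abs_ev hξ v
  rcases abs_cases (ev (ξ j) v) with h | h
  · exact key v j (by rw [← hj, h.1])
  · have h1 : ev (ξ j) (-v) = nrm ξ (-v) := by
      rw [nrm_neg, ← hj, h.1]
      simp only [ev, Prod.fst_neg, Prod.snd_neg]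
      ring
    have h2 := key (-v) j h1
    have h3 : -v - t • T (-v) = -(v - t • T v) := by
      rw [map_neg, smul_neg]; abel
    rwa [nrm_neg, h3, nrm_neg] at h2

/-- One Euler step is almost short. -/
lemma nrm_step {ξ : Fin J → R2} (hξ : Normal ξ) (T : R2 →L[ℝ] R2) {μ t K : ℝ}
    (hμ : 0 ≤ μ) (ht : 0 < t) (hK : ‖T‖ ≤ K) (h1 : t * μ ≤ 1)
    (h2 : t * (4 * K ^ 2 + μ ^ 2) ≤ μ)
    (hT : ∀ v j, ev (ξ j) v = nrm ξ v → ev (ξ j) (T v) ≤ μ / 2 * ‖v‖) (v : R2) :
    nrm ξ (v + t • T v) ≤ (1 + t * μ) * nrm ξ v := by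
  have hK0 : 0 ≤ K := (norm_nonneg _).trans hK
  have a1 := nrm_resolvent hξ T (by positivity : 0 ≤ μ / 2) ht.le hT (v + t • T v)
  have a2 : v + t • T v - t • T (v + t • T v) = v - (t ^ 2) • T (T v) := by
    rw [map_add, map_smul, smul_add, smul_smul, sq]; abel
  have a3 : ‖T (T v)‖ ≤ K * (K * ‖v‖) :=
    (T.le_of_opNorm_le hK _).trans (mul_le_mul_of_nonneg_left (T.le_of_opNorm_le hK _) hK0)
  have a4 : nrm ξ (v - (t ^ 2) • T (T v)) ≤ nrm ξ v + t ^ 2 * (2 * (K * (K * nrm ξ v))) := by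
    refine (nrm_sub_le ξ _ _).trans ?_
    rw [nrm_smul, abs_of_nonneg (sq_nonneg t)]
    have b1 := nrm_le hξ (T (T v))
    have b2 : K * (K * ‖v‖) ≤ K * (K * nrm ξ v) := by
      have := norm_le_nrm hξ v
      gcongr
    have b3 : nrm ξ (T (T v)) ≤ 2 * (K * (K * nrm ξ v)) := by linarith
    gcongr
  rw [a2] at a1
  have hn := nrm_nonneg ξ v
  have hpos : 0 < 1 - t * (μ / 2) := by linarith
  have a5 : 1 + 2 * t ^ 2 * K ^ 2 ≤ (1 - t * (μ / 2)) * (1 + t * μ) := by
    have := mul_le_mul_of_nonneg_left h2 ht.le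
    nlinarith
  have a6 : (1 - t * (μ / 2)) * nrm ξ (v + t • T v)
      ≤ (1 - t * (μ / 2)) * ((1 + t * μ) * nrm ξ v) := by
    have := mul_le_mul_of_nonneg_right a5 hn
    nlinarith
  exact le_of_mul_le_mul_left a6 hpos

/-- One Euler step contracts the area where the trace is negative. -/
lemma det_step (T : R2 →L[ℝ] R2) {t K : ℝ} (ht : 0 < t) (hK : ‖T‖ ≤ K)
    (h1 : t * (4 * K ^ 2 + 4 * K) ≤ 1) (ht1 : t ≤ 1)
    (htr : (T (1, 0)).1 + (T (0, 1)).2 ≤ -1) (v w : R2) :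
    |det2 (v + t • T v) (w + t • T w)| ≤ (1 - t / 2) * |det2 v w| := by
  have hK0 : 0 ≤ K := (norm_nonneg _).trans hK
  have n1 : ‖T (1, 0)‖ ≤ K := by
    have := T.le_of_opNorm_le hK (1, 0)
    simpa [Prod.norm_def] using this
  have n2 : ‖T (0, 1)‖ ≤ K := by
    have := T.le_of_opNorm_le hK (0, 1)
    simpa [Prod.norm_def] using this
  set p := (T (1, 0)).1 with hp
  set r := (T (1, 0)).2 with hr
  set q := (T (0, 1)).1 with hq
  set s := (T (0, 1)).2 with hs
  have e : det2 (v + t • T v) (w + t • T w)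
      = (1 + t * (p + s) + t ^ 2 * (p * s - q * r)) * det2 v w := by
    rw [apply_eq T v, apply_eq T w]
    simp only [det2, Prod.fst_add, Prod.snd_add, Prod.smul_fst, Prod.smul_snd, smul_eq_mul,
      ← hp, ← hq, ← hr, ← hs]
    ring
  have bp : |p| ≤ K := (abs_fst_le _).trans n1
  have br : |r| ≤ K := (abs_snd_le _).trans n1
  have bq : |q| ≤ K := (abs_fst_le _).trans n2
  have bs : |s| ≤ K := (abs_snd_le _).trans n2
  have b1 : |p * s| ≤ K * K := by rw [abs_mul]; exact mul_le_mul bp bs (abs_nonneg _) hK0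
  have b2 : |q * r| ≤ K * K := by rw [abs_mul]; exact mul_le_mul bq br (abs_nonneg _) hK0
  have c1 := abs_le.1 b1
  have c2 := abs_le.1 b2
  have c3 := abs_le.1 bp
  have c4 := abs_le.1 bs
  have d1 : t * (p * s - q * r) ≤ 1 / 2 := by nlinarith
  have d2 : -(1 / 2) ≤ t * (p * s - q * r) := by nlinarith
  have d3 : -(1 / 2) ≤ t * (p + s) := by nlinarith
  rw [e, abs_mul]
  refine mul_le_mul_of_nonneg_right ?_ (abs_nonneg _)
  rw [abs_le]
  constructor <;> nlinarith

/-- The area of a neighbourhood of the image of a set under a Lipschitz map. -/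
lemma volume_thickening_image {O : Set R2} {σ : R2 → R2} {r : ℝ} (hr : 0 < r)
    (hσ : ∀ x ∈ O, ∀ y ∈ O, ‖σ x - σ y‖ ≤ 4 * ‖x - y‖) :
    volume (thickening (2 * r) (σ '' O)) ≤ 324 * volume (thickening (2 * r) O) := by
  obtain ⟨u, huO, hdisj, hcov⟩ := Vitali.exists_disjoint_subfamily_covering_enlargement_closedBall
    O (fun x => x) (fun _ => r) r (fun _ _ => le_rfl) 4 (by norm_num)
  have hc : u.Countable := hdisj.countable_of_nonempty_interior fun j _ =>
    (nonempty_ball.2 hr).mono ball_subset_interior_closedBall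
  have h1 : thickening (2 * r) (σ '' O) ⊆ ⋃ b ∈ u, closedBall (σ b) (18 * r) := by
    intro y hy
    obtain ⟨_, ⟨x, hx, rfl⟩, hxy⟩ := mem_thickening_iff.1 hy
    obtain ⟨b, hb, hxb⟩ := hcov x hx
    have h2 : dist x b ≤ 4 * r := hxb (mem_closedBall_self hr.le)
    have h3 := hσ x hx b (huO hb)
    rw [← dist_eq_norm, ← dist_eq_norm] at h3
    refine mem_biUnion hb ?_
    have := dist_triangle y (σ x) (σ b)
    rw [mem_closedBall]
    linarith
  have h2 : (⋃ b ∈ u, closedBall b r) ⊆ thickening (2 * r) O := by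
    intro y hy
    obtain ⟨b, hb, hyb⟩ := mem_iUnion₂.1 hy
    exact mem_thickening_iff.2 ⟨b, huO hb, by have : dist y b ≤ r := hyb; linarith⟩
  calc volume (thickening (2 * r) (σ '' O))
      ≤ ∑' b : u, volume (closedBall (σ b) (18 * r)) :=
        (measure_mono h1).trans (measure_biUnion_le _ hc _)
    _ = ∑' b : u, 324 * volume (closedBall (b : R2) r) := by
        congr 1
        funext b
        rw [volume_closedBall _ _ (by positivity), volume_closedBall _ _ hr.le,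
          show (324 : ENNReal) = ENNReal.ofReal 324 by norm_num,
          ← ENNReal.ofReal_mul (by norm_num)]
        congr 1
        ring
    _ = 324 * volume (⋃ b ∈ u, closedBall b r) := by
        rw [ENNReal.tsum_mul_left, measure_biUnion hc hdisj fun _ _ => measurableSet_closedBall]
    _ ≤ 324 * volume (thickening (2 * r) O) := by gcongr

end Eul

open Eul in
theorem eul (h : D1Stmt) : EulStmt := by
  obtain ⟨C, hC, hD⟩ := h
  suffices H : ∀ ε > 0, ε ≤ 1 → ∃ β > 0, ∀ (J : ℕ) (ξ : Fin J → R2), Normal ξ →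
      ∀ O : Set R2, IsCompact O → O ⊆ closedBall 0 10 → volume O ≤ ENNReal.ofReal β →
      ∃ σ : R2 → R2, ContDiff ℝ 1 σ ∧
        (∀ z ∈ closedBall (0 : R2) 10, ‖σ z - z‖ ≤ ε ∧
          ∀ v, nrm ξ (fderiv ℝ σ z v) ≤ (1 + ε) * nrm ξ v) ∧
        ∀ z ∈ O, |det2 (fderiv ℝ σ z (1, 0)) (fderiv ℝ σ z (0, 1))| ≤ ε by
    intro ε hε
    obtain ⟨β, hβ, H'⟩ := H (min ε 1) (lt_min hε one_pos) (min_le_right _ _)
    refine ⟨β, hβ, fun J ξ hξ O hO hO' hv => ?_⟩
    obtain ⟨σ, h1, h2, h3⟩ := H' J ξ hξ O hO hO' hv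
    have hm := min_le_left ε 1
    refine ⟨σ, h1, fun z hz => ⟨(h2 z hz).1.trans hm, fun v => ((h2 z hz).2 v).trans ?_⟩,
      fun z hz => (h3 z hz).trans hm⟩
    exact mul_le_mul_of_nonneg_right (by linarith) (nrm_nonneg ξ v)
  intro ε hε hε1
  set T0 : ℝ := 2 / ε with hT0
  have hT0pos : 0 < T0 := by positivity
  set η : ℝ := ε / T0 with hη
  have hηpos : 0 < η := by positivity
  obtain ⟨β1, hβ1, hD1⟩ := hD η hηpos
  refine ⟨β1 / 1000, by positivity, fun J ξ hξ O hO hO10 hvol => ?_⟩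
  -- the scale
  obtain ⟨w, hw, hwvol⟩ : ∃ w > 0, volume (thickening (2 * w) O) ≤ ENNReal.ofReal (β1 / 500) := by
    have h1 := tendsto_measure_thickening_of_isClosed (μ := volume) (s := O)
      ⟨1, one_pos, (hO.isBounded.thickening.measure_lt_top).ne⟩ hO.isClosed
    have h2 : volume O < ENNReal.ofReal (β1 / 500) :=
      hvol.trans_lt ((ENNReal.ofReal_lt_ofReal_iff (by positivity)).2 (by linarith))
    obtain ⟨r, hr1, hr2⟩ := ((h1.eventually_lt_const h2).and self_mem_nhdsWithin).exists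
    refine ⟨r / 2, by have : 0 < r := hr2; positivity, ?_⟩
    rw [show 2 * (r / 2) = r by ring]
    exact hr1.le
  set K : ℝ := C * η / w with hK
  have hKpos : 0 < K := by positivity
  set μ : ℝ := Real.log (1 + ε) / T0 with hμ
  have hlog : 0 < Real.log (1 + ε) := Real.log_pos (by linarith)
  have hμpos : 0 < μ := by positivity
  -- the step
  obtain ⟨n, hn, t, ht, hnt, t1, t2, t3, t4⟩ : ∃ n : ℕ, 0 < n ∧ ∃ t : ℝ, 0 < t ∧ n * t = T0 ∧
      t * μ ≤ 1 ∧ t * (4 * K ^ 2 + μ ^ 2) ≤ μ ∧ t * (4 * K ^ 2 + 4 * K) ≤ 1 ∧ t ≤ 1 := by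
    have hlim : Tendsto (fun n : ℕ => T0 / (n : ℝ)) atTop (𝓝 0) :=
      tendsto_const_div_atTop_nhds_zero_nat T0
    have e : ∀ a b : ℝ, 0 < b → ∀ᶠ n : ℕ in atTop, T0 / (n : ℝ) * a ≤ b := by
      intro a b hb
      have := hlim.mul_const a
      rw [zero_mul] at this
      exact this.eventually_le_const hb
    obtain ⟨n, a1, a2, a3, a4, a5⟩ := ((e μ 1 one_pos).and ((e (4 * K ^ 2 + μ ^ 2) μ hμpos).and
      ((e (4 * K ^ 2 + 4 * K) 1 one_pos).and ((e 1 1 one_pos).and
      (eventually_gt_atTop 0))))).exists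
    have hn' : (0 : ℝ) < n := by exact_mod_cast a5
    exact ⟨n, a5, T0 / n, by positivity, by field_simp, a1, a2, a3, by simpa using a4⟩
  have hpow : ∀ k ≤ n, (1 + t * μ) ^ k ≤ 1 + ε := by
    intro k hk
    have h1 : (1 + t * μ) ^ k ≤ (1 + t * μ) ^ n :=
      pow_le_pow_right₀ (by have := mul_pos ht hμpos; linarith) hk
    have h2 : (1 + t * μ) ^ n ≤ Real.exp (t * μ) ^ n :=
      pow_le_pow_left₀ (by positivity) (by have := Real.add_one_le_exp (t * μ); linarith) n
    have h3 : Real.exp (t * μ) ^ n = 1 + ε := by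
      rw [← Real.exp_nat_mul, ← mul_assoc, hnt, hμ, mul_div_cancel₀ _ hT0pos.ne',
        Real.exp_log (by linarith)]
    linarith
  have hdisp : ∀ k ≤ n, (k : ℝ) * t * η ≤ ε := by
    intro k hk
    have h1 : (k : ℝ) ≤ n := by exact_mod_cast hk
    have h2 : (n : ℝ) * t * η = ε := by rw [hnt, hη]; field_simp
    have : (k : ℝ) * t * η ≤ n * t * η := by gcongr
    linarith
  have main : ∀ k ≤ n, ∃ σ : R2 → R2, ContDiff ℝ 1 σ ∧
      (∀ z ∈ closedBall (0 : R2) 10, ‖σ z - z‖ ≤ k * t * η ∧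
        ∀ v, nrm ξ (fderiv ℝ σ z v) ≤ (1 + t * μ) ^ k * nrm ξ v) ∧
      ∀ z ∈ O, |det2 (fderiv ℝ σ z (1, 0)) (fderiv ℝ σ z (0, 1))| ≤ (1 - t / 2) ^ k := by
    intro k
    induction k with
    | zero =>
      intro _
      refine ⟨id, contDiff_id, fun z _ => ⟨by simp, fun v => by simp⟩, fun z _ => ?_⟩
      simp [det2]
    | succ k ih =>
      intro hk
      obtain ⟨σ, hσ, hs1, hs2⟩ := ih (by omega)
      have hk' : k ≤ n := by omega
      have hin : ∀ z ∈ closedBall (0 : R2) 10, σ z ∈ closedBall (0 : R2) 11 := by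
        intro z hz
        have h1 := ((hs1 z hz).1.trans (hdisp k hk')).trans hε1
        rw [mem_closedBall_zero_iff] at hz ⊢
        have := norm_add_le (σ z - z) z
        rw [sub_add_cancel] at this
        linarith
      have hlip : ∀ x ∈ O, ∀ y ∈ O, ‖σ x - σ y‖ ≤ 4 * ‖x - y‖ := by
        intro x hx y hy
        have h1 := nrm_sub_le_of_fderiv ξ hσ (fun z hz => (hs1 z hz).2) (hO10 hy) (hO10 hx)
        have h2 := norm_le_nrm hξ (σ x - σ y)
        have h3 := nrm_le hξ (x - y)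
        have h4 := hpow k hk'
        have h5 := nrm_nonneg ξ (x - y)
        nlinarith
      have hv : volume (thickening (2 * w) (σ '' O)) ≤ ENNReal.ofReal β1 := by
        refine (volume_thickening_image hw hlip).trans ?_
        calc 324 * volume (thickening (2 * w) O) ≤ 324 * ENNReal.ofReal (β1 / 500) := by gcongr
          _ = ENNReal.ofReal (324 * (β1 / 500)) := by
            rw [ENNReal.ofReal_mul (by norm_num)]; norm_num
          _ ≤ ENNReal.ofReal β1 := ENNReal.ofReal_le_ofReal (by linarith)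
      obtain ⟨g, hg, g1, g2, g3, g4⟩ := hD1 J ξ hξ w hw (μ / 2) (by positivity) 11 (σ '' O)
        (by rintro _ ⟨x, hx, rfl⟩; exact hin x (hO10 hx)) hv
      have hdσ : Differentiable ℝ σ := hσ.differentiable (by norm_num)
      have hdg : Differentiable ℝ g := hg.differentiable (by norm_num)
      have hfd : ∀ z v, fderiv ℝ (fun z => σ z + t • g (σ z)) z v
          = fderiv ℝ σ z v + t • fderiv ℝ g (σ z) (fderiv ℝ σ z v) := by
        intro z v
        have h1 : HasFDerivAt (fun z => σ z + t • g (σ z))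
            (fderiv ℝ σ z + t • (fderiv ℝ g (σ z)).comp (fderiv ℝ σ z)) z :=
          (hdσ z).hasFDerivAt.add
            (((hdg (σ z)).hasFDerivAt.comp z (hdσ z).hasFDerivAt).const_smul t)
        rw [h1.fderiv]
        simp
      refine ⟨fun z => σ z + t • g (σ z), hσ.add ((hg.comp hσ).const_smul t),
        fun z hz => ⟨?_, fun v => ?_⟩, fun z hz => ?_⟩
      · have h1 := (hs1 z hz).1
        have h2 : ‖t • g (σ z)‖ ≤ t * η := by
          rw [norm_smul, Real.norm_eq_abs, abs_of_pos ht]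
          exact mul_le_mul_of_nonneg_left (g1 _) ht.le
        have h3 := norm_add_le (σ z - z) (t • g (σ z))
        have h4 : σ z + t • g (σ z) - z = σ z - z + t • g (σ z) := by abel
        rw [h4]
        push_cast
        linarith
      · rw [hfd, pow_succ', mul_assoc]
        refine (nrm_step hξ _ hμpos.le ht (g2 (σ z)) t1 t2 (g3 _ (hin z hz)) _).trans ?_
        exact mul_le_mul_of_nonneg_left ((hs1 z hz).2 v) (by positivity)
      · rw [hfd, hfd, pow_succ']
        refine (det_step _ ht (g2 (σ z)) t3 t4 (g4 _ ⟨z, hz, rfl⟩) _ _).trans ?_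
        exact mul_le_mul_of_nonneg_left (hs2 z hz) (by linarith)
  obtain ⟨σ, hσ, hs1, hs2⟩ := main n le_rfl
  refine ⟨σ, hσ, fun z hz => ⟨(hs1 z hz).1.trans (hdisp n le_rfl), fun v => ?_⟩, fun z hz => ?_⟩
  · exact ((hs1 z hz).2 v).trans (mul_le_mul_of_nonneg_right (hpow n le_rfl) (nrm_nonneg ξ v))
  · refine (hs2 z hz).trans ?_
    have h2 : (1 - t / 2) ^ n ≤ Real.exp (-(t / 2)) ^ n :=
      pow_le_pow_left₀ (by linarith) (by have := Real.add_one_le_exp (-(t / 2)); linarith) n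
    have h3 : Real.exp (-(t / 2)) ^ n = (Real.exp (1 / ε))⁻¹ := by
      rw [← Real.exp_nat_mul, ← Real.exp_neg]
      congr 1
      have : (n : ℝ) * -(t / 2) = -(n * t) / 2 := by ring
      rw [this, hnt, hT0]
      ring
    have h4 : (Real.exp (1 / ε))⁻¹ ≤ ε := by
      have h5 := Real.add_one_le_exp (1 / ε)
      rw [inv_le_comm₀ (Real.exp_pos _) hε, inv_eq_one_div]
      linarith
    linarith

end Pool.Agent.MP_7f5071_gt

end MrgPart2

-- ======== part 3: formerly Pool.Agent.MP_7f5071_gt.Iter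
section MrgPart3

/-! Iteration of the rank reduction. -/

namespace Pool.Agent.MP_7f5071_gt

open Filter Topology Set Metric MeasureTheory

universe u

namespace Iter

variable {N : ℕ}

/-- A bound for all the two by two minors. -/
def Om (c : ℝ) (P : V N →L[ℝ] V N) : Prop :=
  ∀ (v v' : V N) (i k : Fin N), |P v i * P v' k - P v' i * P v k| ≤ c * (‖v‖ * ‖v'‖)

theorem om_id : Om 2 (ContinuousLinearMap.id ℝ (V N)) := by
  intro v v' i k
  simp only [ContinuousLinearMap.id_apply]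
  have h1 : ∀ (w : V N) (j : Fin N), |w j| ≤ ‖w‖ := fun w j => norm_le_pi_norm w j
  refine (abs_sub _ _).trans ?_
  rw [abs_mul, abs_mul]
  have h2 := mul_le_mul (h1 v i) (h1 v' k) (abs_nonneg _) (norm_nonneg _)
  have h3 := mul_le_mul (h1 v' i) (h1 v k) (abs_nonneg _) (norm_nonneg _)
  linarith [mul_comm ‖v‖ ‖v'‖]

theorem apply_eq (T : V N →L[ℝ] V N) (w : V N) (i : Fin N) :
    T w i = ∑ m, w m * T (Pi.single m 1) i := by
  conv_lhs => rw [pi_eq_sum_univ' w]
  rw [map_sum, Finset.sum_apply]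
  refine Finset.sum_congr rfl (fun m _ => ?_)
  rw [map_smul, Pi.smul_apply, smul_eq_mul]

theorem det_sum (x y w w' : Fin N → ℝ) (n : Fin N → ℝ) (hx : ∀ m, |x m| ≤ n m)
    (hy : ∀ m, |y m| ≤ n m) (hn : ∑ m, n m ≤ 1) {C : ℝ} (hC : 0 ≤ C)
    (hw : ∀ m m', |w m * w' m' - w' m * w m'| ≤ C) :
    |(∑ m, w m * x m) * (∑ m, w' m * y m) - (∑ m, w' m * x m) * (∑ m, w m * y m)| ≤ C / 2 := by
  set A : Fin N → ℝ := fun m => (x m + y m) / 2 with hA
  set B : Fin N → ℝ := fun m => (x m - y m) / 2 with hB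
  have e : (∑ m, w m * x m) * (∑ m, w' m * y m) - (∑ m, w' m * x m) * (∑ m, w m * y m) =
      ∑ m, ∑ m', (-2) * ((w m * w' m' - w' m * w m') * (A m * B m')) := by
    have e1 : ∀ z : Fin N → ℝ, ∑ m, z m * x m = ∑ m, z m * A m + ∑ m, z m * B m := by
      intro z
      rw [← Finset.sum_add_distrib]
      exact Finset.sum_congr rfl (fun m _ => by simp only [hA, hB]; ring)
    have e2 : ∀ z : Fin N → ℝ, ∑ m, z m * y m = ∑ m, z m * A m - ∑ m, z m * B m := by
      intro z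
      rw [← Finset.sum_sub_distrib]
      exact Finset.sum_congr rfl (fun m _ => by simp only [hA, hB]; ring)
    have e3 : ∑ m, ∑ m', (-2) * ((w m * w' m' - w' m * w m') * (A m * B m')) =
        (-2) * ((∑ m, w m * A m) * (∑ m, w' m * B m) - (∑ m, w' m * A m) * (∑ m, w m * B m)) := by
      rw [Finset.sum_mul_sum, Finset.sum_mul_sum, ← Finset.sum_sub_distrib, Finset.mul_sum]
      refine Finset.sum_congr rfl (fun m _ => ?_)
      rw [← Finset.sum_sub_distrib, Finset.mul_sum]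
      exact Finset.sum_congr rfl (fun m' _ => by ring)
    rw [e1, e1, e2, e2, e3]
    ring
  have h1 : ∑ m, |A m| + ∑ m, |B m| ≤ 1 := by
    rw [← Finset.sum_add_distrib]
    refine (Finset.sum_le_sum (fun m _ => ?_)).trans hn
    have h2 := abs_le.mp (hx m)
    have h3 := abs_le.mp (hy m)
    simp only [hA, hB]
    rcases abs_cases ((x m + y m) / 2) with h4 | h4 <;>
      rcases abs_cases ((x m - y m) / 2) with h5 | h5 <;> linarith [h4.1, h5.1, h2.1, h2.2]
  have h2 : |∑ m, ∑ m', (-2) * ((w m * w' m' - w' m * w m') * (A m * B m'))| ≤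
      2 * C * ((∑ m, |A m|) * ∑ m, |B m|) := by
    rw [Finset.sum_mul_sum, Finset.mul_sum]
    refine (Finset.abs_sum_le_sum_abs _ _).trans (Finset.sum_le_sum (fun m _ => ?_))
    rw [Finset.mul_sum]
    refine (Finset.abs_sum_le_sum_abs _ _).trans (Finset.sum_le_sum (fun m' _ => ?_))
    rw [abs_mul, abs_mul, abs_mul, abs_neg, abs_two, mul_assoc]
    gcongr
    exact hw m m'
  rw [e]
  refine h2.trans ?_
  have h3 : 0 ≤ ∑ m, |A m| := Finset.sum_nonneg (fun _ _ => abs_nonneg _)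
  have h4 : 0 ≤ ∑ m, |B m| := Finset.sum_nonneg (fun _ _ => abs_nonneg _)
  have h5 : (∑ m, |A m|) * ∑ m, |B m| ≤ 1 / 4 := by
    nlinarith [sq_nonneg (∑ m, |A m| - ∑ m, |B m|)]
  nlinarith

theorem Om.comp {c : ℝ} (hc : 0 ≤ c) {P T : V N →L[ℝ] V N} (hP : Om c P) (hT : Nuc T) :
    Om (c / 2) (T.comp P) := by
  intro v v' i k
  simp only [ContinuousLinearMap.comp_apply]
  rw [apply_eq T (P v) i, apply_eq T (P v') k, apply_eq T (P v') i, apply_eq T (P v) k]
  refine (det_sum _ _ (P v) (P v') (fun m => ‖T (Pi.single m 1)‖)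
    (fun m => norm_le_pi_norm (T (Pi.single m 1)) i)
    (fun m => norm_le_pi_norm (T (Pi.single m 1)) k) hT (by positivity)
    (fun m m' => hP v v' m m')).trans (le_of_eq (by ring))

theorem Om.rank {g : ℝ} (hg : 0 < g) {P : V N →L[ℝ] V N} (hP : Om (g ^ 2) P) :
    ∃ a : V N, ∀ v, ∃ t : ℝ, ‖P v - t • a‖ ≤ g * ‖v‖ := by
  by_cases h : ∀ v i, |P v i| ≤ g * ‖v‖
  · refine ⟨0, fun v => ⟨0, ?_⟩⟩
    rw [smul_zero, sub_zero, pi_norm_le_iff_of_nonneg (by positivity)]
    exact h v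
  · push Not at h
    obtain ⟨v0, i, h0⟩ := h
    have h1 : 0 < |P v0 i| := lt_of_le_of_lt (by positivity) h0
    refine ⟨P v0, fun v => ⟨P v i / P v0 i, ?_⟩⟩
    rw [pi_norm_le_iff_of_nonneg (by positivity)]
    intro k
    have h2 := hP v0 v i k
    have e : (P v - (P v i / P v0 i) • P v0) k = (P v0 i * P v k - P v i * P v0 k) / P v0 i := by
      have := abs_pos.mp h1
      simp only [Pi.sub_apply, Pi.smul_apply, smul_eq_mul]
      field_simp
    rw [e, Real.norm_eq_abs, abs_div, div_le_iff₀ h1]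
    refine h2.trans ?_
    have h3 : g * ‖v‖ * (g * ‖v0‖) ≤ g * ‖v‖ * |P v0 i| := by gcongr
    linarith

theorem est {a b c : V N} {T T' : V N →L[ℝ] V N} (hT : ‖T'‖ ≤ 1) {s t : ℝ}
    (h1 : ‖b - T a‖ ≤ s) (h2 : ‖c - T' b‖ ≤ t) : ‖c - (T'.comp T) a‖ ≤ s + t := by
  have e : c - (T'.comp T) a = (c - T' b) + T' (b - T a) := by simp
  have h3 := T'.le_opNorm (b - T a)
  have h4 : ‖T'‖ * ‖b - T a‖ ≤ 1 * s := by gcongr
  rw [e]
  linarith [norm_add_le (c - T' b) (T' (b - T a))]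

theorem norm_comp {T T' : V N →L[ℝ] V N} (h : ‖T‖ ≤ 1) (h' : ‖T'‖ ≤ 1) : ‖T'.comp T‖ ≤ 1 :=
  (T'.opNorm_comp_le T).trans (mul_le_one₀ h' (norm_nonneg _) h)

theorem steps (h : FPStmt.{u}) (X : Type u) [MetricSpace X] [CompactSpace X] (hX : IsDisc X)
    (H : X → V N) (L : ℝ) (hL : 0 ≤ L) (hH : Lip L H) (ι : Type) (I C : ι → Set X)
    (hc : Cores I C) (ε : ℝ) (hε : 0 < ε) (η : ℝ) (hη : 0 < η) (k : ℕ) :
    ∃ (G : X → V N) (r : ℝ) (F : Finset ι), 0 < r ∧ Near ((k + 1) * η) H G ∧ Lip (L + k * ε) G ∧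
      (∀ x, ∃ T : V N →L[ℝ] V N, ‖T‖ ≤ 1 ∧
        ((∃ y ∈ ball x r, ∀ j ∈ F, y ∉ C j) → Om (2 * (1 / 2) ^ k) T) ∧
        ∀ y ∈ ball x r, ∀ y' ∈ ball x r, ‖G y - G y' - T (H y - H y')‖ ≤ k * ε * dist y y') ∧
      ∀ j, ∃ T : V N →L[ℝ] V N, ‖T‖ ≤ 1 ∧ ∀ y ∈ I j, ∀ y' ∈ I j, dist y y' ≤ r →
        ‖G y - G y' - T (H y - H y')‖ ≤ k * ε * dist y y' := by
  classical
  induction k with
  | zero =>
    refine ⟨H, 1, ∅, one_pos, Near.refl (by simpa using hη) H, by simpa using hH,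
      fun x => ⟨ContinuousLinearMap.id ℝ _, ContinuousLinearMap.norm_id_le, fun _ => ?_, ?_⟩,
      fun j => ⟨ContinuousLinearMap.id ℝ _, ContinuousLinearMap.norm_id_le, ?_⟩⟩
    · simpa using om_id
    · simp
    · simp
  | succ k ih =>
    obtain ⟨G, r, F, hr, h1, h2, h3, h4⟩ := ih
    obtain ⟨G', r', F', hr', h1', h3', h4'⟩ :=
      h X hX N G (L + k * ε) (by positivity) h2 ι I C hc ε hε η hη
    have e1 : ∀ d : ℝ, ((k + 1 : ℕ) : ℝ) * ε * d = k * ε * d + ε * d := fun d => by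
      push_cast
      ring
    refine ⟨G', min r r', F ∪ F', lt_min hr hr', (h1.trans h1').mono (le_of_eq ?_),
      lip_of_plip hX.geod (fun x => ?_), fun x => ?_, fun j => ?_⟩
    · push_cast
      ring
    · obtain ⟨T, hT, -, hT2⟩ := h3' x
      filter_upwards [ball_mem_nhds x hr'] with y hy
      have h5 := hT2 y hy x (mem_ball_self hr')
      have h6 := T.le_opNorm (G y - G x)
      have h7 : ‖T‖ * ‖G y - G x‖ ≤ 1 * ((L + k * ε) * dist y x) := by
        gcongr
        exact h2 y x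
      have h8 := norm_le_insert' (G' y - G' x) (T (G y - G x))
      push_cast
      linarith
    · obtain ⟨T, hT, hT1, hT2⟩ := h3 x
      obtain ⟨T', hT', hT1', hT2'⟩ := h3' x
      have s1 : ball x (min r r') ⊆ ball x r := ball_subset_ball (min_le_left _ _)
      have s2 : ball x (min r r') ⊆ ball x r' := ball_subset_ball (min_le_right _ _)
      refine ⟨T'.comp T, norm_comp hT hT', fun ⟨y, hy, hy'⟩ => ?_, fun y hy y' hy' => ?_⟩
      · have h5 := (hT1 ⟨y, s1 hy, fun j hj => hy' j (Finset.mem_union_left _ hj)⟩).comp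
          (by positivity) (hT1' ⟨y, s2 hy, fun j hj => hy' j (Finset.mem_union_right _ hj)⟩)
        convert h5 using 1
        ring
      · rw [e1]
        exact est hT' (hT2 y (s1 hy) y' (s1 hy')) (hT2' y (s2 hy) y' (s2 hy'))
    · obtain ⟨T, hT, hT2⟩ := h4 j
      obtain ⟨T', hT', hT2'⟩ := h4' j
      refine ⟨T'.comp T, norm_comp hT hT', fun y hy y' hy' hd => ?_⟩
      rw [e1]
      exact est hT' (hT2 y hy y' hy' (hd.trans (min_le_left _ _)))
        (hT2' y hy y' hy' (hd.trans (min_le_right _ _)))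

end Iter

open Iter in
theorem iter (h : FPStmt.{u}) : IterStmt.{u} := by
  intro X _ _ hX N H L hL hL2 hH ι I C hc γ hγ η hη
  obtain ⟨k, hk⟩ := exists_pow_lt_of_lt_one (x := (γ / 4) ^ 2 / 2) (y := (1 / 2 : ℝ))
    (by positivity) (by norm_num)
  have hk1 : (0 : ℝ) < k + 1 := by positivity
  obtain ⟨G, r, F, hr, h1, h2, h3, h4⟩ := steps h X hX H L hL hH ι I C hc (γ / 2 / (k + 1))
    (by positivity) (η / (k + 1)) (by positivity) k
  have e1 : (k : ℝ) * (γ / 2 / (k + 1)) ≤ γ / 2 := by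
    rw [← mul_div_assoc, div_le_iff₀ hk1]
    nlinarith
  have e2 : ∀ y y' : X, (k : ℝ) * (γ / 2 / (k + 1)) * dist y y' ≤ γ / 2 * dist y y' :=
    fun y y' => by gcongr
  have e3 : ∀ y y' : X, (k : ℝ) * (γ / 2 / (k + 1)) * dist y y' ≤ γ * dist y y' :=
    fun y y' => (e2 y y').trans (by gcongr; linarith)
  refine ⟨G, r, F, hr, h1.mono (le_of_eq (by field_simp)), h2.mono (by linarith),
    fun x hx => ?_, fun x => ?_, fun j => ?_⟩
  · obtain ⟨T, -, hT1, hT2⟩ := h3 x
    obtain ⟨a, ha⟩ := Om.rank (g := γ / 4) (P := T) (by positivity) (fun v v' i j =>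
      (hT1 hx v v' i j).trans (by gcongr; linarith))
    refine ⟨a, fun y hy y' hy' => ?_⟩
    obtain ⟨t, ht⟩ := ha (H y - H y')
    refine ⟨t, ?_⟩
    have h5 := (hT2 y hy y' hy').trans (e2 y y')
    have h6 : γ / 4 * ‖H y - H y'‖ ≤ γ / 4 * (2 * dist y y') := by
      gcongr
      exact (hH.mono hL2) y y'
    linarith [norm_sub_le_norm_sub_add_norm_sub (G y - G y') (T (H y - H y')) (t • a)]
  · obtain ⟨T, hT, -, hT2⟩ := h3 x
    exact ⟨T, hT, fun y hy y' hy' => (hT2 y hy y' hy').trans (e3 y y')⟩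
  · obtain ⟨T, hT, hT2⟩ := h4 j
    exact ⟨T, hT, fun y hy y' hy' hd => (hT2 y hy y' hy' hd).trans (e3 y y')⟩

end Pool.Agent.MP_7f5071_gt

end MrgPart3

-- ======== part 4: formerly Pool.Agent.MP_7f5071_gt.Fin
section MrgPart4

/-! From almost rank one to locally planar, in four rounds. -/

namespace Pool.Agent.MP_7f5071_gt

open Filter Topology Set Metric MeasureTheory

universe u

namespace FIN

/-- One round: a separated family of sets is treated at once. -/
theorem round (h : OneStmt.{u}) (ε : ℝ) (hε : 0 < ε) (γ' : ℝ) (hγ' : 0 < γ') :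
    ∃ γ > 0, ∀ (X : Type u) [MetricSpace X] [CompactSpace X], IsDisc X →
      ∀ (N : ℕ) (H : X → V N) (Λ : ℝ), 0 ≤ Λ → Λ ≤ 2 → Lip Λ H →
      ∀ (ι : Type u) (U : ι → Set X) (a : ι → V N) (l : ι → V N →L[ℝ] ℝ) (R : ℝ), 0 < R →
      (∀ i j, i ≠ j → ∀ x ∈ U i, ∀ y ∈ U j, 3 * R ≤ dist x y) →
      (∀ i, ‖a i‖ ≤ 1 ∧ ‖l i‖ ≤ 1 ∧
        ∀ x ∈ thickening R (U i), PLip γ (fun y => H y - l i (H y) • a i) x) →
      ∀ κ > 0, ∀ δ > 0, ∃ H' : X → V N, Lip (Λ + ε) H' ∧ Near δ H H' ∧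
        (∀ x ∈ closure (⋃ i, U i), LocPlanar H' x) ∧
        ∀ (a' : V N) (l' : V N →L[ℝ] ℝ) (x : X), ‖a'‖ ≤ 1 → ‖l'‖ ≤ 1 →
          (∀ y ∈ ball x κ, PLip γ (fun y => H y - l' (H y) • a') y) →
          PLip γ' (fun y => H' y - l' (H' y) • a') x := by
  classical
  obtain ⟨γ0, hγ0, h1⟩ := h ε hε γ' hγ'
  refine ⟨min γ0 γ', lt_min hγ0 hγ', ?_⟩
  intro X _ _ hX N H Λ hΛ hΛ2 hH ι U a l R hR hsep hal κ hκ δ hδ
  have h2 := fun i => h1 X hX N H Λ hΛ hΛ2 hH (thickening R (U i)) (closure (U i)) (a i) (l i)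
    isOpen_thickening isClosed_closure.isCompact (closure_subset_thickening hR _) (hal i).1
    (hal i).2.1 (fun x hx => ((hal i).2.2 x hx).mono (min_le_left _ _)) κ hκ δ hδ
  choose Hs S _ hS hout hlip hnear hpl hpres using h2
  let H' : X → V N := fun y => if hy : ∃ i, y ∈ thickening R (U i) then Hs hy.choose y else H y
  have key : ∀ x, (∃ i, (∀ᶠ y in 𝓝 x, H' y = Hs i y) ∧ ∀ j, ∀ z ∈ U j, dist x z < R → j = i) ∨
      ((∀ᶠ y in 𝓝 x, H' y = H y) ∧ ∀ j, ∀ z ∈ U j, R ≤ dist x z) := by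
    intro x
    have hnear : ∀ y ∈ ball x (R / 2), ∀ j, y ∈ thickening R (U j) →
        ∃ z ∈ U j, dist x z < 3 * R / 2 := by
      intro y hy j hj
      obtain ⟨z, hz, hd⟩ := mem_thickening_iff.mp hj
      rw [mem_ball] at hy
      exact ⟨z, hz, by linarith [dist_triangle_left x z y]⟩
    by_cases hc : ∃ i, ∃ z ∈ U i, dist x z < 3 * R / 2
    · obtain ⟨i, z, hz, hd⟩ := hc
      have huniq : ∀ j, ∀ z' ∈ U j, dist x z' < 3 * R / 2 → j = i := by
        intro j z' hz' hd'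
        by_contra hne
        have := hsep j i hne z' hz' z hz
        linarith [dist_triangle_left z' z x]
      refine Or.inl ⟨i, ?_, fun j z' hz' hd' => huniq j z' hz' (by linarith)⟩
      filter_upwards [ball_mem_nhds x (half_pos hR)] with y hy
      by_cases hy' : ∃ i, y ∈ thickening R (U i)
      · obtain ⟨z', hz', hd'⟩ := hnear y hy _ hy'.choose_spec
        simp only [H', dif_pos hy']
        rw [huniq _ z' hz' hd']
      · simp only [H', dif_neg hy']
        exact (hout i y (fun hy2 => hy' ⟨i, hS i hy2⟩)).symm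
    · refine Or.inr ⟨?_, fun j z hz => ?_⟩
      · filter_upwards [ball_mem_nhds x (half_pos hR)] with y hy
        exact dif_neg (fun ⟨j, hj⟩ => hc ⟨j, hnear y hy j hj⟩)
      · by_contra hlt
        exact hc ⟨j, z, hz, by linarith [not_le.mp hlt]⟩
  refine ⟨H', lip_of_plip hX.geod (fun x => ?_), fun x => ?_, fun x hx => ?_,
    fun a' l' x ha' hl' hp => ?_⟩
  · rcases key x with ⟨i, hi, -⟩ | ⟨hi, -⟩
    · exact ((hlip i).plip x).congr hi
    · exact ((hH.mono (by linarith)).plip x).congr hi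
  · rcases key x with ⟨i, hi, -⟩ | ⟨hi, -⟩
    · rw [hi.self_of_nhds]
      exact hnear i x
    · rw [hi.self_of_nhds]
      exact Near.refl hδ H x
  · rw [Metric.mem_closure_iff] at hx
    rcases key x with ⟨i, hi, hu⟩ | ⟨-, hu⟩
    · refine (hpl i x (Metric.mem_closure_iff.mpr (fun e he => ?_))).congr hi
      obtain ⟨z, hz, hd⟩ := hx (min e R) (lt_min he hR)
      obtain ⟨j, hj⟩ := mem_iUnion.mp hz
      exact ⟨z, hu j z hj (hd.trans_le (min_le_right _ _)) ▸ hj, hd.trans_le (min_le_left _ _)⟩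
    · obtain ⟨z, hz, hd⟩ := hx R hR
      obtain ⟨j, hj⟩ := mem_iUnion.mp hz
      exact absurd hd (not_lt.mpr (hu j z hj))
  · rcases key x with ⟨i, hi, -⟩ | ⟨hi, -⟩
    · refine (hpres i a' l' x ha' hl' (fun y hy => (hp y hy).mono (min_le_left _ _))).congr ?_
      filter_upwards [hi] with y hy
      rw [hy]
    · refine ((hp x (mem_ball_self hκ)).mono (min_le_right _ _)).congr ?_
      filter_upwards [hi] with y hy
      rw [hy]

/-- Several rounds, one for each colour. -/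
theorem rounds (h : OneStmt.{u}) (n : ℕ) : ∀ ε > 0, ∃ γ > 0,
    ∀ (X : Type u) [MetricSpace X] [CompactSpace X], IsDisc X →
      ∀ (N : ℕ) (H : X → V N) (Λ : ℝ), 0 ≤ Λ → Λ + ε ≤ 2 → Lip Λ H →
      ∀ D : Set X, IsClosed D → (∀ x ∈ D, LocPlanar H x) →
      ∀ (ι : Type u) (U : ι → Set X) (col : ι → ℕ) (a : ι → V N) (l : ι → V N →L[ℝ] ℝ) (R : ℝ),
      0 < R → (∀ i j, i ≠ j → col i = col j → ∀ x ∈ U i, ∀ y ∈ U j, 3 * R ≤ dist x y) →
      (∀ i, col i < n → ‖a i‖ ≤ 1 ∧ ‖l i‖ ≤ 1 ∧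
        ∀ x ∈ thickening R (U i), PLip γ (fun y => H y - l i (H y) • a i) x) →
      ∀ δ > 0, ∃ H' : X → V N, Lip (Λ + ε) H' ∧ Near δ H H' ∧ (∀ x ∈ D, LocPlanar H' x) ∧
        ∀ i, col i < n → ∀ x ∈ U i, LocPlanar H' x := by
  induction n with
  | zero =>
    intro ε hε
    refine ⟨1, one_pos, ?_⟩
    intro X _ _ _ N H Λ _ _ hH D _ hD ι U col a l R _ _ _ δ hδ
    exact ⟨H, hH.mono (by linarith), Near.refl hδ H, hD, fun i hi => absurd hi (Nat.not_lt_zero _)⟩
  | succ n ih =>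
    intro ε hε
    obtain ⟨γ', hγ', h1⟩ := ih (ε / 2) (half_pos hε)
    obtain ⟨γ, hγ, h2⟩ := round h (ε / 2) (half_pos hε) γ' hγ'
    refine ⟨γ, hγ, ?_⟩
    intro X _ _ hX N H Λ hΛ hΛ2 hH D hDc hD ι U col a l R hR hsep hal δ hδ
    obtain ⟨δ0, hδ0, h3⟩ := locPlanar_of_near hDc.isCompact hD
    obtain ⟨H1, h4, h5, h6, h7⟩ := h2 X hX N H Λ hΛ (by linarith) hH {i // col i = n}
      (fun i => U i) (fun i => a i) (fun i => l i) R hR
      (fun i j hij => hsep i j (fun e => hij (Subtype.ext e)) (i.2.trans j.2.symm))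
      (fun i => hal i (by rw [i.2]; exact Nat.lt_succ_self n)) (R / 2) (half_pos hR)
      (min (δ / 2) δ0) (lt_min (half_pos hδ) hδ0)
    obtain ⟨H2, h8, h9, h10, h11⟩ := h1 X hX N H1 (Λ + ε / 2) (by linarith) (by linarith) h4
      (D ∪ closure (⋃ i : {i // col i = n}, U i)) (hDc.union isClosed_closure)
      (fun x hx => hx.elim (h3 H1 (h5.mono (min_le_right _ _)) x) (h6 x)) ι U col a l (R / 2)
      (half_pos hR) (fun i j hij hc x hx y hy => by linarith [hsep i j hij hc x hx y hy])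
      (fun i hi => by
        obtain ⟨ha, hl, hp⟩ := hal i (by omega)
        refine ⟨ha, hl, fun x hx => h7 _ _ x ha hl (fun y hy => hp y ?_)⟩
        obtain ⟨z, hz, hd⟩ := mem_thickening_iff.mp hx
        rw [mem_ball] at hy
        exact mem_thickening_iff.mpr ⟨z, hz, by linarith [dist_triangle y x z]⟩)
      (δ / 2) (half_pos hδ)
    refine ⟨H2, h8.mono (by linarith), ((h5.mono (min_le_left _ _)).trans h9).mono (by linarith),
      fun x hx => h10 x (Or.inl hx), fun i hi x hx => ?_⟩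
    rcases Nat.lt_succ_iff_lt_or_eq.mp hi with hlt | heq
    · exact h11 i hlt x hx
    · exact h10 x (Or.inr (subset_closure (mem_iUnion.mpr ⟨⟨i, heq⟩, hx⟩)))

theorem of_flat {X : Type*} [MetricSpace X] {N : ℕ} {H : X → V N} {γ : ℝ} {B : Set X}
    (hB : IsOpen B) (h : Flat γ H B) : ∃ (a : V N) (l : V N →L[ℝ] ℝ), ‖a‖ ≤ 1 ∧ ‖l‖ ≤ 1 ∧
      ∀ x ∈ B, PLip (2 * γ) (fun y => H y - l (H y) • a) x := by
  obtain ⟨a0, h⟩ := h
  have key : ∃ (a : V N) (l : V N →L[ℝ] ℝ), ‖a‖ ≤ 1 ∧ ‖l‖ ≤ 1 ∧ l a0 • a = a0 := by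
    by_cases h0 : a0 = 0
    · exact ⟨0, 0, by simp, by simp, by simp [h0]⟩
    · obtain ⟨l, hl1, hl2⟩ := exists_dual_vector ℝ a0 (norm_ne_zero_iff.mpr h0)
      have hn : ‖a0‖ ≠ 0 := norm_ne_zero_iff.mpr h0
      refine ⟨‖a0‖⁻¹ • a0, l, ?_, hl1.le, ?_⟩
      · rw [norm_smul, norm_inv, norm_norm, inv_mul_cancel₀ hn]
      · rw [hl2, smul_smul]
        simp [hn]
  obtain ⟨a, l, ha, hl, e⟩ := key
  refine ⟨a, l, ha, hl, fun x hx => ?_⟩
  filter_upwards [hB.mem_nhds hx] with y hy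
  obtain ⟨t, ht⟩ := h y hy x hx
  have e1 : H y - l (H y) • a - (H x - l (H x) • a) =
      (H y - H x - t • a0) - l (H y - H x - t • a0) • a := by
    rw [map_sub, map_sub, map_smul, sub_smul, sub_smul, smul_eq_mul, mul_smul, e]
    abel
  have h1 : ‖l (H y - H x - t • a0) • a‖ ≤ 1 * ‖H y - H x - t • a0‖ * 1 := by
    rw [norm_smul]
    gcongr
    exact (l.le_opNorm _).trans (by gcongr)
  rw [e1]
  linarith [norm_sub_le (H y - H x - t • a0) (l (H y - H x - t • a0) • a)]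

/-- A colouring with four colours and small components. -/
theorem colour (h : BLStmt.{u}) (X : Type u) [MetricSpace X] [CompactSpace X] (hX : IsDisc X)
    (r : ℝ) (hr : 0 < r) : ∃ s > 0, ∃ col : X → ℕ, (∀ x, col x < 4) ∧ ∀ x y,
      Relation.ReflTransGen (fun a b => col a = col b ∧ dist a b ≤ s) x y → dist x y ≤ r := by
  classical
  obtain ⟨C, hC, h1⟩ := h
  obtain ⟨o⟩ := hX.ne
  set ρ := r / C with hρ
  have hρ0 : 0 < ρ := by positivity
  choose η _ _ hb1 hb2 using fun k : ℕ => h1 X hX o (k * ρ) ρ hρ0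
  let k : X → ℕ := fun x => ⌊dist x o / ρ⌋₊
  have hk1 : ∀ x, k x * ρ ≤ dist x o := fun x => by
    rw [← le_div_iff₀ hρ0]
    exact Nat.floor_le (by positivity)
  have hk2 : ∀ x, dist x o < k x * ρ + ρ := fun x => by
    have := Nat.lt_floor_add_one (dist x o / ρ)
    rw [div_lt_iff₀ hρ0] at this
    linarith
  have hk3 : ∀ a b, dist a b ≤ ρ / 2 → k a < k b + 2 := fun a b hab => by
    have h2 : (k a : ℝ) * ρ < (k b + 2) * ρ := by
      linarith [hk1 a, hk2 b, dist_triangle a b o]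
    exact_mod_cast lt_of_mul_lt_mul_right h2 hρ0.le
  let col : X → ℕ := fun x => 2 * (k x % 2) + if η (k x) x ≤ 0 then 0 else 1
  have hstep : ∀ a b, col a = col b → dist a b ≤ ρ / 2 →
      k a = k b ∧ (η (k a) a ≤ 0 ↔ η (k b) b ≤ 0) := by
    intro a b hc hd
    have h2 := hk3 a b hd
    have h3 := hk3 b a (by rwa [dist_comm])
    simp only [col] at hc
    split_ifs at hc with h4 h5 h5
    · exact ⟨by omega, by simp [h4, h5]⟩
    · omega
    · omega
    · exact ⟨by omega, by simp [h4, h5]⟩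
  have e : C * ρ = r := by rw [hρ]; field_simp
  refine ⟨ρ / 2, half_pos hρ0, col, fun x => ?_, fun x y hxy => ?_⟩
  · simp only [col]
    split_ifs <;> omega
  · have hchain : ∀ S : Set X, (∀ z, k z = k x → (η (k z) z ≤ 0 ↔ η (k x) x ≤ 0) → z ∈ S) →
        Relation.ReflTransGen (fun a b => a ∈ S ∧ b ∈ S ∧ dist a b ≤ ρ) x y := by
      intro S hS
      suffices h2 : (k y = k x ∧ (η (k y) y ≤ 0 ↔ η (k x) x ≤ 0)) ∧
          Relation.ReflTransGen (fun a b => a ∈ S ∧ b ∈ S ∧ dist a b ≤ ρ) x y from h2.2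
      induction hxy with
      | refl => exact ⟨⟨rfl, Iff.rfl⟩, Relation.ReflTransGen.refl⟩
      | tail _ hbc ih =>
        obtain ⟨h2, h3⟩ := hstep _ _ hbc.1 hbc.2
        have h4 := h2.symm.trans ih.1.1
        have h5 := h3.symm.trans ih.1.2
        exact ⟨⟨h4, h5⟩, ih.2.tail ⟨hS _ ih.1.1 ih.1.2, hS _ h4 h5, by linarith [hbc.2]⟩⟩
    rw [← e]
    by_cases hs : η (k x) x ≤ 0
    · refine hb1 (k x) x y (hchain _ (fun z hz hz' => ?_))
      rw [← hz]
      exact ⟨hk1 z, (hk2 z).le, by linarith [hz'.mpr hs]⟩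
    · refine hb2 (k x) x y (hchain _ (fun z hz hz' => ?_))
      rw [← hz]
      exact ⟨hk1 z, (hk2 z).le, by linarith [not_le.mp (fun h => hs (hz'.mp h))]⟩

end FIN

open FIN in
theorem fin (h1 : BLStmt.{u}) (h2 : OneStmt.{u}) : FinStmt.{u} := by
  intro ε hε
  obtain ⟨γ, hγ, h3⟩ := rounds h2 4 ε hε
  refine ⟨γ / 2, half_pos hγ, ?_⟩
  intro X _ _ hX N H Λ hΛ hΛ2 hH D r hD hr hpl hflat δ hδ
  obtain ⟨s0, hs0, col, hcol, hb⟩ := colour h1 X hX (r / 2) (half_pos hr)
  set s := min s0 r with hs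
  have hs1 : 0 < s := lt_min hs0 hr
  let rel : X → X → Prop := fun a b => col a = col b ∧ dist a b ≤ s
  have hsymm : ∀ a b, Relation.ReflTransGen rel a b → Relation.ReflTransGen rel b a := by
    intro a b hab
    induction hab with
    | refl => exact Relation.ReflTransGen.refl
    | tail _ hbc ih => exact ih.head ⟨hbc.1.symm, by rw [dist_comm]; exact hbc.2⟩
  have hc : ∀ a b, Relation.ReflTransGen rel a b → col a = col b := by
    intro a b hab
    induction hab with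
    | refl => rfl
    | tail _ hbc ih => exact ih.trans hbc.1
  let ι := {U : Set X // ∃ x, x ∉ D ∧ U = {y | Relation.ReflTransGen rel x y}}
  have hp : ∀ i : ι, ∃ x, x ∉ D ∧ i.1 = {y | Relation.ReflTransGen rel x y} := fun i => i.2
  choose p hpD hpU using hp
  have hmem : ∀ (i : ι) y, y ∈ i.1 ↔ Relation.ReflTransGen rel (p i) y := fun i y => by
    rw [hpU i]
    rfl
  choose a l ha hl hal using fun i : ι => of_flat isOpen_ball (hflat (p i) (hpD i))
  obtain ⟨H', h4, h5, h6, h7⟩ := h3 X hX N H Λ hΛ hΛ2 hH D hD hpl ι (fun i => i.1)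
    (fun i => col (p i)) a l (s / 3) (by positivity)
    (fun i j hij hcc x hx y hy => by
      by_contra hlt
      rw [hmem] at hx hy
      have h4 : rel x y := ⟨(hc _ _ hx).symm.trans (hcc.trans (hc _ _ hy)),
        by linarith [not_le.mp hlt]⟩
      have h5 := (hx.tail h4).trans (hsymm _ _ hy)
      refine hij (Subtype.ext (Set.ext fun z => ?_))
      rw [hmem, hmem]
      exact ⟨fun hz => (hsymm _ _ h5).trans hz, fun hz => h5.trans hz⟩)
    (fun i _ => ⟨ha i, hl i, fun x hx => by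
      obtain ⟨z, hz, hd⟩ := mem_thickening_iff.mp hx
      have h4 := hb _ _ (Relation.ReflTransGen.mono (r := rel)
        (fun a b hab => ⟨hab.1, hab.2.trans (min_le_left _ _)⟩) _ _ ((hmem i z).mp hz))
      refine (hal i x ?_).mono (by linarith)
      rw [mem_ball]
      linarith [dist_triangle_right x (p i) z, (min_le_right s0 r : s ≤ r)]⟩) δ hδ
  refine ⟨H', h4, h5, fun x => ?_⟩
  by_cases hx : x ∈ D
  · exact h6 x hx
  · exact h7 ⟨_, x, hx, rfl⟩ (hcol _) x Relation.ReflTransGen.refl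

end Pool.Agent.MP_7f5071_gt

end MrgPart4

-- ======== part 5: formerly Pool.Agent.MP_7f5071_gt.RL
section MrgPart5

/-! The ring lemma. -/

namespace Pool.Agent.MP_7f5071_gt

open Set Metric

universe u

namespace RL

variable {X : Type*} [MetricSpace X]

theorem joined_btw (hg : Geodesic X) (x y : X) :
    JoinedIn {w | dist x w + dist w y ≤ dist x y} x y := by
  obtain ⟨γ, h⟩ := hg x y
  have hd : 0 ≤ dist x y := dist_nonneg
  refine JoinedIn.ofLine (f := fun s => γ (s * dist x y))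
    (h.lip.continuous.comp (by fun_prop)).continuousOn (by simp [h.src]) (by simp [h.tgt]) ?_
  rintro _ ⟨s, hs, rfl⟩
  have m : s * dist x y ∈ Icc 0 (dist x y) := ⟨mul_nonneg hs.1 hd, mul_le_of_le_one_left hd hs.2⟩
  have a1 := h.iso 0 ⟨le_rfl, hd⟩ _ m
  have a2 := h.iso _ m _ ⟨hd, le_rfl⟩
  rw [h.src, abs_of_nonpos (by linarith [m.1])] at a1
  rw [h.tgt, abs_of_nonpos (by linarith [m.2])] at a2
  simp only [mem_ofPred_eq]
  linarith

theorem k33 (h : NoK33 X) {a0 a1 a2 b0 b1 b2 : X} {E00 E01 E02 E10 E11 E12 E20 E21 E22 : Set X}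
    (j00 : JoinedIn E00 a0 b0) (j01 : JoinedIn E01 a0 b1) (j02 : JoinedIn E02 a0 b2)
    (j10 : JoinedIn E10 a1 b0) (j11 : JoinedIn E11 a1 b1) (j12 : JoinedIn E12 a1 b2)
    (j20 : JoinedIn E20 a2 b0) (j21 : JoinedIn E21 a2 b1) (j22 : JoinedIn E22 a2 b2)
    (d1 : Disjoint E00 E11) (d2 : Disjoint E00 E12) (d3 : Disjoint E00 E21) (d4 : Disjoint E00 E22)
    (d5 : Disjoint E10 E01) (d6 : Disjoint E01 E12) (d7 : Disjoint E20 E01) (d8 : Disjoint E01 E22)
    (d9 : Disjoint E10 E02) (d10 : Disjoint E02 E11) (d11 : Disjoint E20 E02)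
    (d12 : Disjoint E02 E21) (d13 : Disjoint E10 E21) (d14 : Disjoint E10 E22)
    (d15 : Disjoint E20 E11) (d16 : Disjoint E11 E22) (d17 : Disjoint E20 E12)
    (d18 : Disjoint E12 E21) : False := by
  refine h ![a0, a1, a2] ![b0, b1, b2] ![![E00, E01, E02], ![E10, E11, E12], ![E20, E21, E22]]
    (fun i j => ?_) fun i j k l hik hjl => ?_
  · fin_cases i <;> fin_cases j <;> assumption
  · fin_cases i <;> fin_cases k <;> (try exact absurd rfl hik) <;> fin_cases j <;> fin_cases l <;>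
      first | exact absurd rfl hjl | assumption | exact Disjoint.symm (by assumption)

/-- A polygon given by linear inequalities. -/
def Reg (l : List (ℝ × ℝ × ℝ)) : Set R2 := {w | ∀ c ∈ l, c.1 * w.1 + c.2.1 * w.2 ≤ c.2.2}

theorem convex_reg (l : List (ℝ × ℝ × ℝ)) : Convex ℝ (Reg l) := fun v hv w hw a b ha hb e c hc => by
  have h1 := mul_le_mul_of_nonneg_left (hv c hc) ha
  have h2 := mul_le_mul_of_nonneg_left (hw c hc) hb
  have h3 : a * c.2.2 + b * c.2.2 = c.2.2 := by rw [← add_mul, e, one_mul]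
  simp only [Prod.fst_add, Prod.snd_add, Prod.smul_fst, Prod.smul_snd, smul_eq_mul]
  linarith

/-- The points of `X` near the part of `G` over `S`. -/
def tb (G : Set X) (π : X → R2) (r : ℝ) (S : Set R2) : Set X :=
  {y | ∃ w ∈ S, ∃ x ∈ G, ‖π x - w‖ ≤ (r + ‖w‖) / 10000 ∧ dist y x ≤ 24 * ((r + ‖w‖) / 10000)}

variable {G : Set X} {π : X → R2} {r R : ℝ}

theorem tb_joined (hg : Geodesic X) (hG : ∀ x ∈ G, ∀ y ∈ G, dist x y ≤ 6 * ‖π x - π y‖) (hr : 0 < r)
    (hd : ∀ w : R2, ‖w‖ ≤ R → ∃ x ∈ G, ‖π x - w‖ ≤ (r + ‖w‖) / 10000) {S : Set R2}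
    (hS : Convex ℝ S) (hR : ∀ w ∈ S, ‖w‖ ≤ R) {v w : R2} (hv : v ∈ S) (hw : w ∈ S) {x y : X}
    (hx : x ∈ G ∧ ‖π x - v‖ ≤ (r + ‖v‖) / 10000) (hy : y ∈ G ∧ ‖π y - w‖ ≤ (r + ‖w‖) / 10000) :
    JoinedIn (tb G π r S) x y := by
  have one : ∀ v ∈ S, ∀ w : R2, ‖w - v‖ ≤ r / 10000 → ∀ x y, x ∈ G ∧ ‖π x - v‖ ≤ (r + ‖v‖) / 10000 →
      y ∈ G ∧ ‖π y - w‖ ≤ (r + ‖w‖) / 10000 → JoinedIn (tb G π r S) x y :=
    fun v hv w e x y hx hy => (joined_btw hg x y).mono fun p hp => ⟨v, hv, x, hx.1, hx.2, by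
      have a1 := hG x hx.1 y hy.1
      have a2 := dist_triangle4 (π x) v w (π y)
      have a3 := norm_le_norm_add_norm_sub' w v
      have a4 := norm_nonneg v
      have a5 : 0 ≤ dist p y := dist_nonneg
      simp only [dist_eq_norm, norm_sub_rev v w, norm_sub_rev w (π y)] at a2
      simp only [mem_ofPred_eq, dist_comm x p] at hp
      linarith [hx.2, hy.2]⟩
  obtain ⟨n, hn⟩ := exists_nat_ge (‖w - v‖ / (r / 10000))
  rw [div_le_iff₀ (by positivity)] at hn
  induction n generalizing w y with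
  | zero => exact one v hv w (by simp at hn ⊢; rw [hn]; simp; positivity) x y hx hy
  | succ n ih =>
    have hp : (0 : ℝ) < n + 1 := by positivity
    have m := hS.add_smul_sub_mem hv hw (t := n / (n + 1))
      ⟨by positivity, (div_le_one hp).2 (by linarith)⟩
    obtain ⟨p, hp'⟩ := hd _ (hR _ m)
    push_cast at hn
    refine (ih m hp' ?_).trans (one _ m w ?_ p y hp' hy)
    · rw [add_sub_cancel_left, norm_smul, Real.norm_of_nonneg (by positivity), div_mul_eq_mul_div,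
        div_le_iff₀ hp]
      have := mul_le_mul_of_nonneg_left hn (Nat.cast_nonneg n)
      linarith
    · rw [show w - (v + ((n : ℝ) / (n + 1)) • (w - v)) = (1 - (n : ℝ) / (n + 1)) • (w - v) by
        rw [sub_smul, one_smul]; abel, show 1 - (n : ℝ) / (n + 1) = 1 / (n + 1) by field_simp; ring,
        norm_smul, Real.norm_of_nonneg (by positivity), div_mul_eq_mul_div, div_le_iff₀ hp]
      linarith

theorem tb_disj (hG : ∀ x ∈ G, ∀ y ∈ G, ‖π x - π y‖ ≤ dist x y) (hr : 0 < r) {S T : Set R2}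
    (h : ∀ v ∈ S, ∀ w ∈ T, ‖w‖ ≤ 2 * r ∧ ¬(|v.1 - w.1| ≤ r / 10 ∧ |v.2 - w.2| ≤ r / 10)) :
    Disjoint (tb G π r S) (tb G π r T) :=
  disjoint_left.2 fun p ⟨v, hv, x, hx, x1, x2⟩ ⟨w, hw, y, hy, y1, y2⟩ => (h v hv w hw).2 (by
    have a1 := hG x hx y hy
    have a2 := dist_triangle4 v (π x) (π y) w
    have a3 := norm_le_norm_add_norm_sub' v w
    have a4 := dist_triangle_left x y p
    have a5 := (h v hv w hw).1
    simp only [dist_eq_norm, norm_sub_rev v (π x)] at a2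
    have a6 : ‖v - w‖ ≤ r / 10 := by linarith
    exact ⟨(norm_fst_le (v - w)).trans a6, (norm_snd_le (v - w)).trans a6⟩)

theorem tb_ring {x : X} (hx : π x = 0) (hr : 0 < r) {S : Set R2}
    (h : ∀ w ∈ S, r / 2 ≤ ‖w‖ ∧ ‖w‖ ≤ 3 / 2 * r) : Disjoint (Tube G π x r)ᶜ (tb G π r S) :=
  disjoint_left.2 fun p hp ⟨w, hw, y, hy, y1, y2⟩ => hp (by
    have a1 := h w hw
    have a2 := norm_le_norm_add_norm_sub' (π y) w
    have a3 := norm_le_norm_add_norm_sub (π y) w
    refine ⟨y, hy, ?_, ?_, by linarith⟩ <;> rw [hx, sub_zero] <;> linarith)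

theorem norm_le {w : R2} {c : ℝ} :
    ‖w‖ ≤ c ↔ (-c ≤ w.1 ∧ w.1 ≤ c) ∧ -c ≤ w.2 ∧ w.2 ≤ c := by
  simp only [Prod.norm_def, max_le_iff, Real.norm_eq_abs, abs_le]

theorem le_norm {w : R2} {c : ℝ} :
    c ≤ ‖w‖ ↔ (-c < w.1 → w.1 < c → -c < w.2 → c ≤ w.2) := by
  rw [← not_lt]
  simp only [Prod.norm_def, max_lt_iff, Real.norm_eq_abs, abs_lt, not_and, not_lt, and_imp]

theorem mem_reg {l : List (ℝ × ℝ × ℝ)} {w : R2} :
    w ∈ Reg l ↔ ∀ c ∈ l, c.1 * w.1 + c.2.1 * w.2 ≤ c.2.2 := Iff.rfl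

theorem core (hX : IsDisc X)
    (hG : ∀ x ∈ G, ∀ y ∈ G, ‖π x - π y‖ ≤ dist x y ∧ dist x y ≤ 6 * ‖π x - π y‖) {x y : X}
    (hx : x ∈ G) (h0 : π x = 0) (hr : 0 < r)
    (hd : ∀ w : R2, ‖w‖ ≤ R → ∃ x ∈ G, ‖π x - w‖ ≤ (r + ‖w‖) / 10000) (hy : y ∈ G)
    (h1 : 3 * r ≤ (π y).1) (h2 : (π y).1 ≤ R) (h3 : |(π y).2| ≤ (π y).1)
    (hj : JoinedIn (Tube G π x r)ᶜ x y) : False := by
  obtain ⟨p1, a1⟩ := hd (3 / 2 * r, 3 / 2 * r) (by simp only [norm_le]; refine ⟨⟨?_, ?_⟩, ?_, ?_⟩ <;> linarith)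
  obtain ⟨p2, a2⟩ := hd (3 / 2 * r, 0) (by simp only [norm_le]; refine ⟨⟨?_, ?_⟩, ?_, ?_⟩ <;> linarith)
  obtain ⟨p3, a3⟩ := hd (3 / 2 * r, -(3 / 2 * r)) (by simp only [norm_le]; refine ⟨⟨?_, ?_⟩, ?_, ?_⟩ <;> linarith)
  obtain ⟨p4, a4⟩ := hd (-(3 / 2 * r), 0) (by simp only [norm_le]; refine ⟨⟨?_, ?_⟩, ?_, ?_⟩ <;> linarith)
  have a0 : x ∈ G ∧ ‖π x - 0‖ ≤ (r + ‖(0 : R2)‖) / 10000 := ⟨hx, by simp [h0]; positivity⟩
  have a5 : y ∈ G ∧ ‖π y - π y‖ ≤ (r + ‖π y‖) / 10000 := ⟨hy, by simp; positivity⟩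
  rw [abs_le] at h3
  have J := fun (l : List (ℝ × ℝ × ℝ)) (hR : ∀ w ∈ Reg l, ‖w‖ ≤ R) (v w : R2) (hv : v ∈ Reg l)
    (hw : w ∈ Reg l) (x y : X) => tb_joined (x := x) (y := y) hX.geod (fun a ha b hb => (hG a ha b hb).2)
      hr hd (convex_reg l) hR hv hw
  refine k33 hX.k33 hj
    (J [(0, 1, 0), (0, -1, 0), (-1, 0, 0), (1, 0, 3 / 2 * r)] ?_ _ _ ?_ ?_ _ _ a0 a2)
    (J [(0, 1, 0), (0, -1, 0), (1, 0, 0), (-1, 0, 3 / 2 * r)] ?_ _ _ ?_ ?_ _ _ a0 a4)
    (J [(-3, -1, -(6 * r)), (-1, 0, -(3 / 2 * r)), (1, 0, R), (-1, 1, 0), (-1, -1, 0)]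
      ?_ _ _ ?_ ?_ _ _ a1 a5)
    (J [(1, 0, 3 / 2 * r), (-1, 0, -(3 / 2 * r)), (0, -1, 0), (0, 1, 3 / 2 * r)]
      ?_ _ _ ?_ ?_ _ _ a1 a2)
    (J [(-1, 2, 3 / 2 * r), (1, -2, -(3 / 2 * r)), (1, 0, 3 / 2 * r), (-1, 0, 3 / 2 * r)]
      ?_ _ _ ?_ ?_ _ _ a1 a4)
    (J [(-3, 1, -(6 * r)), (-1, 0, -(3 / 2 * r)), (1, 0, R), (-1, 1, 0), (-1, -1, 0)]
      ?_ _ _ ?_ ?_ _ _ a3 a5)
    (J [(1, 0, 3 / 2 * r), (-1, 0, -(3 / 2 * r)), (0, 1, 0), (0, -1, 3 / 2 * r)]
      ?_ _ _ ?_ ?_ _ _ a3 a2)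
    (J [(-1, -2, 3 / 2 * r), (1, 2, -(3 / 2 * r)), (1, 0, 3 / 2 * r), (-1, 0, 3 / 2 * r)]
      ?_ _ _ ?_ ?_ _ _ a3 a4)
    (tb_ring h0 hr ?_) (tb_ring h0 hr ?_) (tb_ring h0 hr ?_) (tb_ring h0 hr ?_)
    ?_ ?_ ?_ ?_ ?_ ?_ ?_ ?_ ?_ ?_ ?_ ?_ ?_ ?_
  all_goals clear J a0 a1 a2 a3 a4 a5 hj hd
  all_goals first
    | refine tb_disj (fun a ha b hb => (hG a ha b hb).1) hr fun v hv w hw => ?_
      clear h1 h2 h3
      simp only [mem_reg, List.forall_mem_cons, List.not_mem_nil, IsEmpty.forall_iff,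
        implies_true, and_true, zero_mul, one_mul, neg_mul, zero_add, add_zero] at hv hw
      simp only [norm_le, abs_le, not_and, not_le, and_imp]
      casesm* _ ∧ _
      refine ⟨⟨⟨?_, ?_⟩, ?_, ?_⟩, fun _ _ _ => ?_⟩ <;> linarith
    | simp only [mem_reg, List.forall_mem_cons, List.not_mem_nil, IsEmpty.forall_iff,
        implies_true, and_true, Prod.fst_zero, Prod.snd_zero, norm_le, le_norm, and_imp, zero_mul,
        one_mul, neg_mul, zero_add, add_zero, mul_zero, le_refl, true_and]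
      try intros
      try and_intros <;> intros <;> linarith

end RL

open RL in
theorem rl : RLStmt.{u} := by
  refine ⟨10000, by norm_num, fun X _ _ hX G π hG x hx r R hr hd y hy h1 h2 hj => ?_⟩
  have key : ∀ e : R2 ≃ₗᵢ[ℝ] R2, |(e (π y - π x)).2| ≤ (e (π y - π x)).1 → False := fun e he => by
    have n1 : ∀ a b, ‖e (π a - π x) - e (π b - π x)‖ = ‖π a - π b‖ := fun a b => by
      rw [← e.map_sub, e.norm_map, sub_sub_sub_cancel_right]
    have n2 : (e (π y - π x)).1 = ‖π y - π x‖ := by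
      rw [← e.norm_map, Prod.norm_def, Real.norm_eq_abs, Real.norm_eq_abs,
        abs_of_nonneg ((abs_nonneg _).trans he), max_eq_left he]
    refine core (π := fun a => e (π a - π x)) (R := R) hX (by simpa only [n1] using hG) hx (by simp) hr
      (fun w hw => ?_) hy (n2 ▸ h1) (n2 ▸ h2) he (by simpa only [Tube, n1] using hj)
    obtain ⟨p, hp, hp'⟩ := hd (π x + e.symm w) (by simpa using hw)
    refine ⟨p, hp, ?_⟩
    rw [add_sub_cancel_left, e.symm.norm_map, ← sub_sub, ← e.norm_map, e.map_sub,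
      e.apply_symm_apply] at hp'
    exact hp'
  have k1 := key (.refl ℝ _)
  have k2 := key (.neg ℝ)
  have k3 := key (.prodComm ℝ ℝ ℝ)
  have k4 := key ((LinearIsometryEquiv.prodComm ℝ ℝ ℝ).trans (.neg ℝ))
  generalize π y - π x = v at k1 k2 k3 k4
  change |v.2| ≤ v.1 → False at k1
  change |-v.2| ≤ -v.1 → False at k2
  change |v.1| ≤ v.2 → False at k3
  change |-v.1| ≤ -v.2 → False at k4
  simp only [abs_le, imp_false, not_and_or, not_le] at k1 k2 k3 k4
  rcases k1 with k1 | k1 <;> rcases k2 with k2 | k2 <;> rcases k3 with k3 | k3 <;>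
    rcases k4 with k4 | k4 <;> linarith

end Pool.Agent.MP_7f5071_gt

end MrgPart5

-- ======== part 6: formerly Pool.Agent.MP_7f5071_gt.One
section MrgPart6

/-! ONE: the assembly. -/

namespace Pool.Agent.MP_7f5071_gt

open Filter Topology Set Metric

universe u

theorem one (hWS : WSStmt.{u}) : OneStmt.{u} := by
  intro ε hε γ' hγ'
  obtain ⟨e, he0, he1, heε, heγ⟩ : ∃ e : ℝ, 0 < e ∧ e ≤ 1 ∧ e ≤ ε ∧ e ≤ γ' :=
    ⟨min 1 (min ε γ'), by positivity, min_le_left _ _, (min_le_right _ _).trans (min_le_left _ _),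
      (min_le_right _ _).trans (min_le_right _ _)⟩
  obtain ⟨M0, M, hM0, hM, hW⟩ := hWS (e / 10) (by positivity)
  have hM1 : 1 ≤ M := by linarith
  obtain ⟨e1, he1p, he1M, he1e⟩ : ∃ e1 : ℝ, 0 < e1 ∧ e1 * M ≤ 1 ∧ M0 * e1 ≤ e / 10000 := by
    refine ⟨e / (10000 * M0 * M), by positivity, ?_, ?_⟩
    · rw [div_mul_eq_mul_div, div_le_one (by positivity)]; nlinarith
    · rw [mul_div_assoc', div_le_div_iff₀ (by positivity) (by positivity)]
      nlinarith [mul_pos he0 (by positivity : 0 < M0)]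
  obtain ⟨g, hg0, hge⟩ : ∃ g : ℝ, 0 < g ∧ M0 ^ 2 * g = e / 10000 :=
    ⟨e / (10000 * M0 ^ 2), by positivity, by field_simp⟩
  have hge' : g ≤ e / 10000 := by
    linarith [mul_le_mul_of_nonneg_right (one_le_pow₀ hM0 : 1 ≤ M0 ^ 2) hg0.le]
  have he11 : e1 ≤ 1 := (le_mul_of_one_le_right he1p.le hM1).trans he1M
  obtain ⟨γ, hγ0, hγ⟩ : ∃ γ : ℝ, 0 < γ ∧ γ * M = g * e1 :=
    ⟨g * e1 / M, by positivity, by field_simp⟩
  have hγg : γ ≤ g := (le_mul_of_one_le_right hγ0.le hM1).trans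
    (hγ.le.trans (mul_le_of_le_one_right hg0.le he11))
  refine ⟨γ, hγ0, fun X _ _ hX N H Λ hΛ0 hΛ2 hH Ω K a l hΩ hK hKΩ ha hl hP κ hκ δ hδ => ?_⟩
  rcases K.eq_empty_or_nonempty with rfl | hne
  · refine ⟨H, ∅, isClosed_empty, empty_subset _, fun _ _ => rfl, hH.mono (by linarith),
      Near.refl hδ H, by simp, fun a' l' x _ _ h => (h x (mem_ball_self hκ)).mono (by linarith)⟩
  obtain ⟨r4, hr4, hsub⟩ := hK.exists_thickening_subset_open hΩ hKΩ
  obtain ⟨r, hr, rfl⟩ : ∃ r : ℝ, 0 < r ∧ r4 = 4 * r := ⟨r4 / 4, by positivity, by ring⟩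
  obtain ⟨s, hs, s1, s2, s3, s4⟩ : ∃ s : ℝ, 0 < s ∧ 12 * M * s ≤ r ∧ 12 * M * s ≤ δ ∧
      12 * M * s ≤ κ / 2 ∧ 24 * M * s ≤ e / 2 * r := by
    have : ∀ t : ℝ, 0 < t → ∀ᶠ s in 𝓝[>] (0 : ℝ), 24 * M * s ≤ t := fun t ht => by
      have : Tendsto (fun s : ℝ => 24 * M * s) (𝓝[>] 0) (𝓝 (24 * M * 0)) :=
        (continuous_const.mul continuous_id).continuousAt.continuousWithinAt
      exact this.eventually (eventually_le_nhds (by rw [mul_zero]; exact ht))
    obtain ⟨s, ⟨⟨⟨a1, a2⟩, a3⟩, a4⟩, a5⟩ := (((((this r hr).and (this δ hδ)).and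
      (this (κ / 2) (by positivity))).and (this (e / 2 * r) (by positivity))).and
      self_mem_nhdsWithin).exists
    have a5' : 0 < s := a5
    have : 0 < M * s := by positivity
    exact ⟨s, a5', by linarith, by linarith, by linarith, a4⟩
  have hu : Lip Λ fun y => l (H y) := fun x y => by
    rw [← map_sub]
    exact (l.le_opNorm _).trans ((mul_le_of_le_one_left (norm_nonneg _) hl).trans (hH x y))
  have hhM : e1 * s ≤ s / M := by
    rw [le_div_iff₀ (by linarith)]; linarith [mul_le_mul_of_nonneg_right he1M hs.le]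
  obtain ⟨p, rep, u', -, w1, w2, w3, w4, w5, w6, w7, w8⟩ := hW X hX s Λ (e1 * s) (e1 * s) _ hs hΛ0
    hΛ2 hu (by positivity) hhM (by positivity) hhM
  let w : One.W X N :=
    { H := H, u := fun y => l (H y), M0 := M0, M := M, s := s, h := e1 * s, θ := e / 100,
      Λ' := Λ + e / 10, p := p, rep := rep, u' := u', M0_ge := hM0, M_ge := hM, s_pos := hs,
      h_pos := by positivity, h_le := mul_le_of_le_one_left hs.le he11,
      θ_pos := by positivity, u_lip := hu.mono hΛ2,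
      p_sum := w1, p_lip := w2, rep_d := w3, rep_eq := w4, u'_lip := w5, u'_d := w6, flat := w7,
      card := w8 }
  have hMs : 0 < M * s := by positivity
  have hM0s : 3 * (M0 * s) ≤ M * s := by linarith [mul_le_mul_of_nonneg_right hM hs.le]
  have hM0s' : 0 < M0 * s := by positivity
  let S : Set X := {y | infDist y K ≤ 2 * r}
  have hSc : IsClosed S := isClosed_le (continuous_infDist_pt K) continuous_const
  have hball : ∀ x ∈ S, ball x (2 * r) ⊆ Ω := fun x (hx : infDist x K ≤ 2 * r) y hy =>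
    hsub ((mem_thickening_iff_infDist_lt hne).2 (by
      have := infDist_le_infDist_add_dist (s := K) (x := y) (y := x)
      rw [mem_ball] at hy; linarith))
  have hgw : γ * (w.M * w.s) ≤ g * w.h := le_of_eq (by
    show γ * (M * s) = g * (e1 * s); rw [← mul_assoc, hγ]; ring)
  have hAt : ∀ x ∈ S, w.At x a l γ g r := fun x hx =>
    ⟨fun _ => rfl, ha, hγ0.le, hgw, by linarith, by show (M0 + M) * s ≤ r; linarith,
      fun y hy y' hy' => hX.geod.norm_sub_le_ball (F := fun y => H y - l (H y) • a)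
        (fun z hz => hP z (hball x hx hz)) hy hy'⟩
  let vt : X → ℝ := fun y => One.cl (2 - infDist y K / r) 1
  have vt01 : ∀ y, vt y ∈ Icc (0 : ℝ) 1 := fun y => ⟨One.cl_nonneg _ _, One.cl_le zero_le_one⟩
  have vtlip : Lip (1 / r) vt := fun x y => by
    have h1 := One.abs_cl_sub (2 - infDist y K / r) (2 - infDist x K / r) 1 1
    have h2 := (lip_infDist K).abs_sub_le y x
    have e : 2 - infDist x K / r - (2 - infDist y K / r) = (infDist y K - infDist x K) / r := by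
      ring
    rw [e, abs_div, abs_of_pos hr, sub_self, abs_zero, add_zero] at h1
    rw [dist_comm, one_mul] at h2
    refine h1.trans ?_
    rw [one_div, mul_comm, ← div_eq_mul_inv]; gcongr
  have vt0 : ∀ y, y ∉ S → vt y = 0 := fun y hy => One.cl_zero (by
    have : 2 * r < infDist y K := not_le.1 hy
    rw [sub_nonpos, le_div_iff₀ hr]; linarith)
  let H' : X → V N := fun y => H y + vt y • (w.H1 y - H y)
  have hoff : ∀ y, y ∉ S → H' y = H y := fun y hy => by simp [H', vt0 y hy]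
  have hoff' : ∀ x, x ∉ S → ∀ᶠ y in 𝓝 x, H' y = H y := fun x hx => by
    filter_upwards [hSc.isOpen_compl.mem_nhds hx] with y hy using hoff y hy
  have hcl : ∀ x ∈ S, ‖w.H1 x - H x‖ ≤ 12 * (M0 * s) := fun x hx => (hAt x hx).close (hH.mono hΛ2)
  have hcut : 1 / r * (2 * (12 * (M0 * s))) ≤ e / 2 := by
    rw [one_div, inv_mul_le_iff₀ hr]; linarith
  have num1 : 32 * (w.M0 / w.s) * ((γ + 4 * g) * (w.M0 * w.s) + 14 * w.h) ≤ e / 10 := by
    have : 32 * (w.M0 / w.s) * ((γ + 4 * g) * (w.M0 * w.s) + 14 * w.h) =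
        32 * (M0 ^ 2 * γ + 4 * (M0 ^ 2 * g) + 14 * (M0 * e1)) := by
      show 32 * (M0 / s) * ((γ + 4 * g) * (M0 * s) + 14 * (e1 * s)) = _
      field_simp
    rw [this]
    linarith [mul_le_mul_of_nonneg_left hγg (sq_nonneg M0)]
  have num2 : (1 + 5 * w.θ) * w.Λ' + 128 * (w.M0 / w.s) * w.h ≤ Λ + e / 4 := by
    have : (1 + 5 * w.θ) * w.Λ' + 128 * (w.M0 / w.s) * w.h =
        (1 + 5 * (e / 100)) * (Λ + e / 10) + 128 * (M0 * e1) := by
      show (1 + 5 * (e / 100)) * (Λ + e / 10) + 128 * (M0 / s) * (e1 * s) = _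
      field_simp
    rw [this]
    linarith [mul_le_mul_of_nonneg_left hΛ2 he0.le, mul_le_mul_of_nonneg_left he1 he0.le]
  have g1 := mul_le_mul_of_nonneg_left hΛ2 hg0.le
  have g2 := mul_le_mul_of_nonneg_left he1 hg0.le
  refine ⟨H', S, hSc, fun x hx => hball x hx (mem_ball_self (by linarith)), hoff, ?_, ?_, ?_, ?_⟩
  · refine lip_of_plip hX.geod fun x => ?_
    by_cases hx : x ∈ S
    · have h1 := (hAt x hx).plip (ContinuousLinearMap.id ℝ _)
        (fun v => by simp only [ContinuousLinearMap.id_apply]; linarith [norm_nonneg v])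
        (A := 1 + g) (by linarith) fun c hp => (hAt x hx).a_norm hp
      have h2 : PLip (Λ + e / 2) w.H1 x := h1.mono (by
        have := mul_le_mul_of_nonneg_left num2 (by linarith : 0 ≤ 1 + g)
        linarith)
      exact (PLip.blend ((hH.plip x).mono (by linarith)) h2 (vtlip.plip x) vt01 (by positivity)
        (D := 2 * (12 * (M0 * s))) (by linarith [hcl x hx])).mono (by linarith)
    · exact ((hH.plip x).mono (by linarith)).congr (hoff' x hx)
  · intro x
    by_cases hx : x ∈ S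
    · constructor
      · simp only [H', add_sub_cancel_left, norm_smul, Real.norm_of_nonneg (vt01 x).1]
        have := mul_le_of_le_one_left (norm_nonneg (w.H1 x - H x)) (vt01 x).2
        linarith [hcl x hx]
      · have h1 := w.mem_span x (δ := δ) (by show (M0 + M) * s ≤ δ; linarith)
        have h2 := (Near.refl hδ H x).2
        simp only [H']
        rw [add_comm]
        exact AffineSubspace.vadd_mem_of_mem_direction
          (Submodule.smul_mem _ _ (AffineSubspace.vsub_mem_direction h1 h2)) h2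
    · rw [hoff x hx]; exact Near.refl hδ H x
  · intro x hx
    refine (w.planar x).congr ?_
    filter_upwards [ball_mem_nhds x hr] with y hy
    have : vt y = 1 := One.cl_full zero_le_one (by
      have := infDist_le_dist_of_mem (x := y) hx
      rw [mem_ball] at hy
      have : infDist y K / r ≤ 1 := by rw [div_le_one hr]; linarith
      linarith)
    simp [H', this]
  · intro a' l' x ha' hl' hp
    let T : V N →L[ℝ] V N := ContinuousLinearMap.id ℝ _ - l'.smulRight a'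
    have hT : ∀ v, T v = v - l' v • a' := fun v => rfl
    have hT2 : ∀ v, ‖T v‖ ≤ 2 * ‖v‖ := fun v => by
      rw [hT]
      refine (norm_sub_le _ _).trans ?_
      rw [norm_smul]
      have := (l'.le_opNorm v).trans (mul_le_of_le_one_left (norm_nonneg _) hl')
      have := mul_le_of_le_one_right (norm_nonneg (l' v)) ha'
      linarith
    have hx0 : PLip γ (fun y => T (H y)) x := hp x (mem_ball_self hκ)
    show PLip γ' (fun y => T (H' y)) x
    by_cases hx : x ∈ S
    · have h1 := (hAt x hx).plip T hT2 (A := g) hg0.le fun c hc =>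
        w.a_bound T hγ0.le hgw (r := κ / 2) (by show (M0 + M) * s ≤ κ / 2; linarith)
          (fun y hy y' hy' => hX.geod.norm_sub_le_ball (F := fun y => T (H y))
            (fun z hz => hp z (by simpa [mul_div_cancel₀] using hz)) hy hy') hc
      have h2 : PLip (e / 2) (fun y => T (w.H1 y)) x := h1.mono (by
        have := mul_le_mul_of_nonneg_left num2 hg0.le
        linarith)
      have h3 := PLip.blend (hx0.mono (by linarith)) h2 (vtlip.plip x) vt01 (by positivity)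
        (D := 2 * (12 * (M0 * s))) (by
          rw [← map_sub]; exact (hT2 _).trans (by linarith [hcl x hx]))
      refine (h3.mono (by linarith)).congr (Eventually.of_forall fun y => ?_)
      simp only [H', map_add, map_smul, map_sub]
    · refine (hx0.mono (by linarith)).congr ?_
      filter_upwards [hoff' x hx] with y hy
      rw [hy]

end Pool.Agent.MP_7f5071_gt

end MrgPart6

-- marker of a merged file
example : 731051 + 540179 = 731051 + 540179 := rfl
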