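import Mathlib.MeasureTheory.Measure.Lebesgue.EqHaar
import Mathlib.MeasureTheory.Covering.DensityTheorem
import Pool.Agent.MP_7f5071_gt.One

/-! Countably many pieces detect pure unrectifiability. -/

namespace Pool.Agent.MP_7f5071_gt

open Filter Topology Set Metric MeasureTheory

universe u

namespace Cnt

open R

variable {X : Type u} [MetricSpace X]

omit [MetricSpace X] in
lemma null_of {f g : X → R2} {G : Set X} {C : ℝ}
    (h : ∀ x ∈ G, ∀ y ∈ G, ‖g x - g y‖ ≤ C * ‖f x - f y‖) (h0 : volume (f '' G) = 0) :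
    volume (g '' G) = 0 := by
  classical
  obtain rfl | hG := G.eq_empty_or_nonempty
  · simp
  have := hG.to_type
  have hm : ∀ x ∈ G, Function.invFunOn f G (f x) ∈ G := fun x hx =>
    Function.invFunOn_mem ⟨x, hx, rfl⟩
  have he : ∀ x ∈ G, f (Function.invFunOn f G (f x)) = f x := fun x hx =>
    Function.invFunOn_eq ⟨x, hx, rfl⟩
  have h1 : LipschitzOnWith (Real.toNNReal C) (fun w => g (Function.invFunOn f G w)) (f '' G) := by
    refine LipschitzOnWith.of_dist_le' ?_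
    rintro _ ⟨x, hx, rfl⟩ _ ⟨y, hy, rfl⟩
    have := h _ (hm x hx) _ (hm y hy)
    rwa [he x hx, he y hy, ← dist_eq_norm, ← dist_eq_norm] at this
  have h2 := h1.hausdorffMeasure_image_le (d := 2) zero_le_two
  rw [hausdorffMeasure_prod_real, h0, mul_zero] at h2
  refine measure_mono_null ?_ (le_zero_iff.1 h2)
  rintro _ ⟨x, hx, rfl⟩
  refine ⟨f x, mem_image_of_mem _ hx, ?_⟩
  have := h _ (hm x hx) _ hx
  rwa [he x hx, sub_self, norm_zero, mul_zero, norm_le_zero_iff, sub_eq_zero] at this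

theorem arm (hX : Geodesic X) {π : X → R2} (hπ : Lip 1 π) {G : Set X}
    (hG : ∀ x ∈ G, ∀ y ∈ G, dist x y ≤ 5 * ‖π x - π y‖) {x : X} (hx : x ∈ G) {e : R2}
    (he : ‖e‖ = 1) {s : ℝ} (hs : 0 < s)
    (h : ∀ t, 0 < t → t ≤ s → ∃ y ∈ G, ‖π y - π x - t • e‖ ≤ t / 64) : Arm π x e 6 s := by
  have : Nonempty X := ⟨x⟩
  choose! Y hY1 hY2 using h
  set t : ℕ → ℝ := fun n => s * (63 / 64) ^ n with ht
  have t0 : ∀ n, 0 < t n := fun n => by positivity
  have t1 : ∀ n, t n ≤ s := fun n =>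
    mul_le_of_le_one_right hs.le (pow_le_one₀ (by norm_num) (by norm_num))
  have t2 : ∀ n, t (n + 1) = 63 / 64 * t n := fun n => by simp only [ht]; ring
  have nt : ∀ a : ℝ, 0 ≤ a → ‖a • e‖ = a := fun a ha => by
    rw [norm_smul, he, Real.norm_eq_abs, abs_of_nonneg ha, mul_one]
  have d0 : ∀ n, dist (Y (t n)) x ≤ 5 * (65 / 64 * t n) := fun n => by
    have h1 := norm_add_le (π (Y (t n)) - π x - t n • e) (t n • e)
    rw [sub_add_cancel, nt _ (t0 n).le] at h1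
    linarith [hG _ (hY1 _ (t0 n) (t1 n)) _ hx, hY2 _ (t0 n) (t1 n)]
  have d1 : ∀ n, dist (Y (t n)) (Y (t (n + 1))) ≤ 15 / 64 * t n := fun n => by
    have h1 := norm_add_le (π (Y (t n)) - π x - t n • e) ((t n / 64) • e)
    have h2 := norm_sub_le (π (Y (t n)) - π x - t n • e + (t n / 64) • e)
      (π (Y (t (n + 1))) - π x - t (n + 1) • e)
    rw [show π (Y (t n)) - π x - t n • e + (t n / 64) • e
      - (π (Y (t (n + 1))) - π x - t (n + 1) • e) = π (Y (t n)) - π (Y (t (n + 1))) by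
        rw [t2]; module] at h2
    rw [nt _ (by linarith [t0 n])] at h1
    linarith [hG _ (hY1 _ (t0 n) (t1 n)) _ (hY1 _ (t0 (n + 1)) (t1 _)), hY2 _ (t0 n) (t1 n),
      hY2 _ (t0 (n + 1)) (t1 _), t2 n, t0 n]
  have j1 : ∀ n, JoinedIn (ArmSet π x e 6 s) (Y (t n)) (Y (t (n + 1))) := fun n =>
    (joined_cb hX _ _).mono fun y hy => by
      have h0 := (mem_closedBall.1 hy).trans (d1 n)
      have h1 := norm_add_le (π y - π (Y (t n))) (π (Y (t n)) - π x - t n • e)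
      rw [show π y - π (Y (t n)) + (π (Y (t n)) - π x - t n • e) = π y - π x - t n • e by abel] at h1
      exact ⟨t n, ⟨(t0 n).le, t1 n⟩, by linarith [hπ y (Y (t n)), hY2 _ (t0 n) (t1 n)],
        by linarith [dist_triangle y (Y (t n)) x, d0 n, t0 n]⟩
  have j2 : ∀ n, JoinedIn (ArmSet π x e 6 s) (Y (t 0)) (Y (t n)) := fun n => by
    induction n with
    | zero => exact JoinedIn.refl (j1 0).source_mem
    | succ n ih => exact ih.trans (j1 n)
  refine ⟨Y (t 0), ?_, fun r hr => ?_⟩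
  · have := hY2 _ (t0 0) (t1 0)
    simp only [ht, pow_zero, mul_one] at this ⊢
    linarith
  · obtain ⟨n, hn⟩ := exists_pow_lt_of_lt_one (show 0 < r / (6 * s) by positivity)
      (show (63 / 64 : ℝ) < 1 by norm_num)
    rw [lt_div_iff₀ (by positivity)] at hn
    have : 6 * t n < r := by simp only [ht]; linarith
    exact ((joined_ball hX (show dist (Y (t n)) x < r by linarith [d0 n, t0 n])).mono
      subset_union_right).trans ((j2 n).symm.mono subset_union_left)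

lemma ae_near (K : Set R2) : ∀ᵐ w ∂volume.restrict K, ∀ e : R2, ‖e‖ = 1 →
    ∀ᶠ t in 𝓝[>] (0 : ℝ), ∃ p ∈ K, ‖p - w - t • e‖ ≤ t / 64 := by
  filter_upwards [IsUnifLocDoublingMeasure.ae_tendsto_measure_inter_div.{0, 0} volume K 64]
    with w hw e he
  have h1 : Tendsto (fun t : ℝ => t / 64) (𝓝[>] 0) (𝓝[>] 0) := by
    refine tendsto_nhdsWithin_iff.2 ⟨?_, eventually_mem_nhdsWithin.mono fun t ht => ?_⟩
    · simpa using (tendsto_id.mono_left (nhdsWithin_le_nhds (a := (0 : ℝ)) (s := Ioi 0))).div_const 64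
    · exact div_pos (mem_Ioi.1 ht) (by norm_num)
  have h2 := hw (fun t : ℝ => w + t • e) _ h1 (eventually_mem_nhdsWithin.mono fun t ht => by
    rw [mem_closedBall, dist_self_add_right, norm_smul, he, Real.norm_eq_abs, abs_of_pos ht]
    linarith)
  filter_upwards [h2.eventually (lt_mem_nhds zero_lt_one)] with t ht
  obtain ⟨p, hp, hp'⟩ := nonempty_of_measure_ne_zero (ENNReal.div_pos_iff.1 ht).1
  exact ⟨p, hp, by rwa [mem_closedBall, dist_eq_norm, ← sub_sub] at hp'⟩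

theorem null_noncross (hX : Geodesic X) {π : X → R2} (hπ : Lip 1 π) {G : Set X}
    (hc : IsCompact G) (hG : ∀ x ∈ G, ∀ y ∈ G, dist x y ≤ 5 * ‖π x - π y‖) :
    volume (π '' {x | x ∈ G ∧ ¬CrossPt π x}) = 0 := by
  have h := ae_near (π '' G)
  rw [ae_restrict_iff' (hc.image (cont_of_lip hπ)).measurableSet, ae_iff] at h
  refine measure_mono_null ?_ h
  rintro _ ⟨x, ⟨hx, hx'⟩, rfl⟩ hw
  have h1 : ∀ᶠ t in 𝓝[>] (0 : ℝ), ∀ j, ∃ p ∈ π '' G, ‖p - π x - t • dir j‖ ≤ t / 64 :=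
    eventually_all.2 fun j => hw (mem_image_of_mem _ hx) _ (norm_dir j)
  obtain ⟨s0, hs0, h2⟩ := mem_nhdsGT_iff_exists_Ioo_subset.1 h1
  obtain ⟨m, hm⟩ := exists_nat_one_div_lt (show 0 < s0 from hs0)
  have a : ∀ j, Arm π x (dir j) (6 : ℕ) (1 / (m + 1)) := fun j =>
    arm hX hπ hG hx (norm_dir j) (by positivity) fun t h0 ht => by
      obtain ⟨_, ⟨y, hy, rfl⟩, hp⟩ := h2 ⟨h0, ht.trans_lt hm⟩ j
      exact ⟨y, hy, hp⟩
  exact hx' ⟨6, m, a 0, a 1, a 2⟩

lemma ev_le {a b c : R2} (h0 : det2 a b ≠ 0) (h1 : |det2 c b| ≤ |det2 a b|)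
    (h2 : |det2 a c| ≤ |det2 a b|) (v : R2) : |ev c v| ≤ |ev a v| + |ev b v| := by
  have e : det2 a b * ev c v = det2 c b * ev a v + det2 a c * ev b v := by
    simp only [det2, ev]; ring
  refine le_of_mul_le_mul_left ?_ (abs_pos.2 h0)
  rw [← abs_mul, e, mul_add]
  refine (abs_add_le _ _).trans ?_
  rw [abs_mul, abs_mul]
  gcongr

/-- The chart given by two distance functions. -/
def ch (a b : X) (x : X) : R2 := (dist x a, dist x b)

lemma lip_ch (a b : X) : Lip 1 (ch a b) := fun x y => by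
  rw [one_mul]
  exact norm_prod_le_iff.2 ⟨abs_dist_sub_le x y a, abs_dist_sub_le x y b⟩

end Cnt

open R Cnt in
theorem cnt (h1 : RStmt.{u}) (h2 : KirStmt.{u}) : CntStmt.{u} := by
  intro X _ _ hX
  have := hX.ne
  obtain ⟨z, hz⟩ := TopologicalSpace.exists_dense_seq X
  choose Γ hΓ hc using fun p : ℕ × ℕ => h1 X hX _ 1 (lip_ch (z p.1) (z p.2))
  obtain ⟨φ, hφ⟩ := exists_surjective_nat ((ℕ × ℕ) × ℕ)
  refine ⟨fun m => ch (z (φ m).1.1) (z (φ m).1.2), fun m => Γ (φ m).1 (φ m).2, fun m => hΓ _ _,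
    fun O _ hO π Δ hΔ hΔO => ?_⟩
  obtain ⟨ι, _, G, F, ζ, A, h0, hG⟩ := h2 X z hz 0 (fun _ => 0) 0 (fun x y => by simp) π Δ hΔ
    (1 / 100) (by norm_num)
  refine measure_mono_null (t := π '' (Δ \ ⋃ i, G i) ∪ ⋃ i, π '' G i) ?_
    (measure_union_null h0 (measure_iUnion_null fun i => ?_))
  · rw [← image_iUnion, ← image_union]
    exact image_mono (subset_sdiff_union _ _)
  obtain ⟨hc', hs, ⟨k0, hk0, k0', hk0', hd⟩, hG⟩ := hG i
  obtain ⟨⟨k, k'⟩, hk, hm⟩ := (F i ×ˢ F i).exists_max_image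
    (fun p => |det2 (ζ i p.1) (ζ i p.2)|) ⟨(k0, k0'), Finset.mk_mem_product hk0 hk0'⟩
  obtain ⟨hk, hk'⟩ := Finset.mem_product.1 hk
  have hd' : det2 (ζ i k) (ζ i k') ≠ 0 :=
    abs_pos.1 ((abs_pos.2 hd).trans_le (hm _ (Finset.mk_mem_product hk0 hk0')))
  have low : ∀ x ∈ G i, ∀ y ∈ G i,
      dist x y ≤ 5 * ‖ch (z k) (z k') x - ch (z k) (z k') y‖ := fun x hx y hy => by
    obtain ⟨a1, -, l, hl, a2⟩ := hG x hx y hy
    have a3 := ev_le hd' (hm _ (Finset.mk_mem_product hl hk')) (hm _ (Finset.mk_mem_product hk hl))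
      (π x - π y)
    have a4 : |dist x (z k) - dist y (z k)| ≤ _ :=
      norm_fst_le (ch (z k) (z k') x - ch (z k) (z k') y)
    have a5 : |dist x (z k') - dist y (z k')| ≤ _ :=
      norm_snd_le (ch (z k) (z k') x - ch (z k) (z k') y)
    have a6 := fun l hl => (abs_sub_abs_le_abs_sub _ _).trans ((abs_sub_comm _ _).trans_le (a1 l hl))
    linarith [a6 k hk, a6 k' hk', norm_nonneg (ch (z k) (z k') x - ch (z k) (z k') y)]
  obtain ⟨L, hL⟩ := hΔ.lip
  refine null_of (f := ch (z k) (z k')) (C := |L| * 5) (fun x hx y hy => ?_) ?_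
  · rw [mul_assoc]
    exact (hL x y).trans (mul_le_mul (le_abs_self L) (low x hx y hy) dist_nonneg (abs_nonneg L))
  refine measure_mono_null (t := ch (z k) (z k') '' {x | x ∈ G i ∧ ¬CrossPt (ch (z k) (z k')) x}
    ∪ ⋃ n, ch (z k) (z k') '' (O ∩ Γ (k, k') n)) ?_
    (measure_union_null (null_noncross hX.geod (lip_ch _ _) hc' low)
      (measure_iUnion_null fun n => ?_))
  · rintro _ ⟨x, hx, rfl⟩
    by_cases h : CrossPt (ch (z k) (z k')) x
    · obtain ⟨n, hn⟩ := hc (k, k') x h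
      exact Or.inr (mem_iUnion.2 ⟨n, x, ⟨hΔO (hs hx), hn⟩, rfl⟩)
    · exact Or.inl ⟨x, ⟨hx, h⟩, rfl⟩
  · obtain ⟨m, hm⟩ := hφ ((k, k'), n)
    simpa only [hm] using hO m

end Pool.Agent.MP_7f5071_gt
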