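import Mathlib
import Pool.Agent.MP_7f5071_gt.Basic

/-! The space of curves: compactness, the fundamental theorem of calculus, line integrals. -/

namespace Pool.Agent.MP_7f5071_gt

open Filter Topology Set Metric MeasureTheory

section Real

variable {E : Type*} [NormedAddCommGroup E] [NormedSpace ℝ E] [FiniteDimensional ℝ E]

omit [FiniteDimensional ℝ E] in
theorem Lip.norm_deriv_le {K : ℝ} (hK : 0 ≤ K) {f : ℝ → E} (h : Lip K f) (t : ℝ) :
    ‖deriv f t‖ ≤ K := by
  have := norm_deriv_le_of_lipschitz (x₀ := t) h.lipschitzWith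
  rwa [Real.coe_toNNReal _ hK] at this

theorem Lip.ae_differentiableAt {K : ℝ} {f : ℝ → E} (h : Lip K f) :
    ∀ᵐ t, DifferentiableAt ℝ f t := h.lipschitzWith.ae_differentiableAt_real

theorem Lip.intervalIntegrable_smul_deriv {K : ℝ} (hK : 0 ≤ K) {f : ℝ → E} (h : Lip K f)
    {φ : ℝ → ℝ} (hφ : Continuous φ) (a b : ℝ) :
    IntervalIntegrable (fun t => φ t • deriv f t) volume a b := by
  have : CompleteSpace E := FiniteDimensional.complete ℝ E
  have h1 : IntervalIntegrable (fun t => K * |φ t|) volume a b :=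
    (by fun_prop : Continuous fun t => K * |φ t|).intervalIntegrable a b
  refine h1.mono_fun' (hφ.aestronglyMeasurable.smul
    (stronglyMeasurable_deriv f).aestronglyMeasurable) (Eventually.of_forall fun t => ?_)
  simp only [norm_smul, Real.norm_eq_abs]
  rw [mul_comm]
  exact mul_le_mul_of_nonneg_right (h.norm_deriv_le hK t) (abs_nonneg _)

/-- The fundamental theorem of calculus for Lipschitz functions. -/
theorem Lip.integral_deriv {K : ℝ} (hK : 0 ≤ K) {f : ℝ → E} (h : Lip K f) (a b : ℝ) :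
    ∫ t in a..b, deriv f t = f b - f a := by
  have : CompleteSpace E := FiniteDimensional.complete ℝ E
  have hi : IntervalIntegrable (deriv f) volume a b := by
    simpa using h.intervalIntegrable_smul_deriv hK (φ := fun _ => 1) continuous_const a b
  refine (SeparatingDual.eq_iff_forall_dual_eq (R := ℝ)).2 fun l => ?_
  rw [← l.intervalIntegral_comp_comm hi, map_sub]
  have hl : LipschitzWith (‖l‖₊ * Real.toNNReal K) (l ∘ f) := l.lipschitz.comp h.lipschitzWith
  have e := (hl.lipschitzOnWith (s := uIcc a b)).absolutelyContinuousOnInterval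
    |>.integral_deriv_eq_sub
  simp only [Function.comp] at e
  rw [← e]
  refine intervalIntegral.integral_congr_ae ?_
  filter_upwards [h.ae_differentiableAt] with t ht _
  exact ((l.hasFDerivAt.comp_hasDerivAt t ht.hasDerivAt).deriv).symm

/-- The one interval estimate for `∫ φ df`. -/
theorem Lip.norm_integral_smul_deriv_sub_le {K : ℝ} (hK : 0 ≤ K) {f : ℝ → E} (h : Lip K f)
    {φ : ℝ → ℝ} (hφ : Continuous φ) {a b c κ : ℝ} (hab : a ≤ b)
    (hc : ∀ t ∈ Icc a b, |φ t - c| ≤ κ) :
    ‖(∫ t in a..b, φ t • deriv f t) - c • (f b - f a)‖ ≤ κ * K * (b - a) := by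
  have : CompleteSpace E := FiniteDimensional.complete ℝ E
  rw [← h.integral_deriv hK a b, ← intervalIntegral.integral_smul,
    ← intervalIntegral.integral_sub (h.intervalIntegrable_smul_deriv hK hφ a b)
      (h.intervalIntegrable_smul_deriv hK (φ := fun _ => c) continuous_const a b)]
  have := intervalIntegral.norm_integral_le_of_norm_le_const (a := a) (b := b) (C := κ * K)
    (f := fun t => φ t • deriv f t - c • deriv f t) (fun t ht => by
      rw [uIoc_of_le hab] at ht
      rw [← sub_smul, norm_smul]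
      have h1 := hc t (Ioc_subset_Icc_self ht)
      exact mul_le_mul h1 (h.norm_deriv_le hK t) (norm_nonneg _) ((abs_nonneg _).trans h1))
  rwa [abs_of_nonneg (sub_nonneg.2 hab)] at this

end Real

namespace Cv

variable {X : Type*} [MetricSpace X]

theorem ext_of_mem (γ : Cv X) {t : ℝ} (ht : t ∈ Icc (0 : ℝ) 1) : γ.ext t = γ.1 ⟨t, ht⟩ := by
  rw [ext, projIcc_of_mem]

theorem lipschitz_ext (γ : Cv X) : LipschitzWith 1 γ.ext := by
  have := γ.2.comp (LipschitzWith.projIcc (zero_le_one' ℝ))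
  rw [one_mul] at this
  exact this

theorem dist_ext_le (γ : Cv X) (s t : ℝ) : dist (γ.ext s) (γ.ext t) ≤ |s - t| := by
  simpa [Real.dist_eq] using γ.lipschitz_ext.dist_le_mul s t

theorem continuous_ext (γ : Cv X) : Continuous γ.ext := γ.lipschitz_ext.continuous

theorem dist_ext_ext_le (γ γ' : Cv X) (t : ℝ) : dist (γ.ext t) (γ'.ext t) ≤ dist γ γ' :=
  ContinuousMap.dist_apply_le_dist (f := γ.1) (g := γ'.1) _

theorem continuous_val : Continuous (fun γ : Cv X => γ.1) := continuous_subtype_val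

theorem continuous_ext_uncurry : Continuous fun p : Cv X × ℝ => p.1.ext p.2 :=
  continuous_eval.comp ((continuous_val.comp continuous_fst).prodMk
    ((continuous_projIcc (h := zero_le_one' ℝ)).comp continuous_snd))

/-- A 1-Lipschitz function on the line, restricted to `[0, 1]`. -/
def mk' (f : ℝ → X) (hf : LipschitzWith 1 f) : Cv X :=
  ⟨⟨fun t => f t, hf.continuous.comp continuous_subtype_val⟩,
    LipschitzWith.of_dist_le_mul fun s t => hf.dist_le_mul s t⟩

theorem ext_mk' (f : ℝ → X) (hf : LipschitzWith 1 f) {t : ℝ} (ht : t ∈ Icc (0 : ℝ) 1) :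
    (mk' f hf).ext t = f t := by
  rw [ext_of_mem _ ht]; rfl

instance [CompactSpace X] : CompactSpace (Cv X) := by
  let e := ContinuousMap.isometryEquivBoundedOfCompact unitInterval X
  let A : Set (BoundedContinuousFunction unitInterval X) := {f | LipschitzWith 1 f}
  have hA : IsCompact A := by
    refine BoundedContinuousFunction.arzela_ascoli₁ A ?_ ?_
    · have : A = ⋂ (s : unitInterval) (t : unitInterval), {f | dist (f s) (f t) ≤ dist s t} := by
        ext f
        simp only [A, lipschitzWith_iff_dist_le_mul, mem_ofPred_eq, mem_iInter, NNReal.coe_one,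
          one_mul]
      rw [this]
      exact isClosed_iInter fun s => isClosed_iInter fun t =>
        isClosed_le (by fun_prop) continuous_const
    · exact (LipschitzWith.uniformEquicontinuous _ 1 fun f : A => f.2).equicontinuous
  have hB : IsCompact {γ : C(unitInterval, X) | LipschitzWith 1 γ} := by
    have : {γ : C(unitInterval, X) | LipschitzWith 1 γ} = e.toHomeomorph ⁻¹' A := rfl
    rw [this]
    exact e.toHomeomorph.isCompact_preimage.2 hA
  exact isCompact_iff_compactSpace.1 hB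

variable {E : Type*} [NormedAddCommGroup E] [NormedSpace ℝ E]

omit [NormedSpace ℝ E] in
theorem lip_comp {L : ℝ} (hL : 0 ≤ L) {H : X → E} (hH : Lip L H) (γ : Cv X) :
    Lip L fun s => H (γ.ext s) := fun s t =>
  (hH _ _).trans (mul_le_mul_of_nonneg_left (γ.dist_ext_le s t) hL)

theorem norm_vel_le {L : ℝ} (hL : 0 ≤ L) {H : X → E} (hH : Lip L H) (γ : Cv X) (t : ℝ) :
    ‖vel H γ t‖ ≤ L := (lip_comp hL hH γ).norm_deriv_le hL t

variable [FiniteDimensional ℝ E]

theorem ae_hasDerivAt {L : ℝ} (hL : 0 ≤ L) {H : X → E} (hH : Lip L H) (γ : Cv X) :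
    ∀ᵐ t, HasDerivAt (fun s => H (γ.ext s)) (vel H γ t) t :=
  (lip_comp hL hH γ).ae_differentiableAt.mono fun _ ht => ht.hasDerivAt

theorem measurable_vel [CompactSpace X] [MeasurableSpace E] [BorelSpace E] {H : X → E}
    (hH : Continuous H) : Measurable fun p : Cv X × ℝ => vel H p.1 p.2 := by
  have : CompleteSpace E := FiniteDimensional.complete ℝ E
  exact measurable_deriv_with_param (f := fun (γ : Cv X) (s : ℝ) => H (γ.ext s))
    (hH.comp continuous_ext_uncurry)

theorem intervalIntegrable_J {L : ℝ} (hL : 0 ≤ L) {H : X → E} (hH : Lip L H) {φ : X → ℝ}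
    (hφ : Continuous φ) (γ : Cv X) (a b : ℝ) :
    IntervalIntegrable (fun t => φ (γ.ext t) • vel H γ t) volume a b :=
  (lip_comp hL hH γ).intervalIntegrable_smul_deriv hL (hφ.comp γ.continuous_ext) a b

omit [FiniteDimensional ℝ E] in
/-- For a curve cut out of a 1-Lipschitz function on the line. -/
theorem J_mk' {H : X → E} (φ : X → ℝ) (f : ℝ → X) (hf : LipschitzWith 1 f) :
    J H φ (mk' f hf) = ∫ t in (0 : ℝ)..1, φ (f t) • deriv (fun s => H (f s)) t := by
  refine intervalIntegral.integral_congr_ae ?_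
  have h1 : ∀ᵐ t : ℝ, t ≠ 1 := by simp [ae_iff]
  filter_upwards [h1] with t ht1 ht
  rw [uIoc_of_le zero_le_one] at ht
  have hI : Ioo (0 : ℝ) 1 ∈ 𝓝 t := Ioo_mem_nhds ht.1 (lt_of_le_of_ne ht.2 ht1)
  rw [ext_mk' f hf (Ioc_subset_Icc_self ht), vel]
  congr 1
  refine EventuallyEq.deriv_eq ?_
  filter_upwards [hI] with s hs
  rw [ext_mk' f hf (Ioo_subset_Icc_self hs)]

omit [FiniteDimensional ℝ E] in
theorem norm_J_le {L C : ℝ} (hL : 0 ≤ L) {H : X → E} (hH : Lip L H) {φ : X → ℝ}
    (hφ : ∀ x, |φ x| ≤ C) (γ : Cv X) : ‖J H φ γ‖ ≤ C * L := by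
  have := intervalIntegral.norm_integral_le_of_norm_le_const (a := 0) (b := 1) (C := C * L)
    (f := fun t => φ (γ.ext t) • vel H γ t) (fun t _ => by
      rw [norm_smul]
      exact mul_le_mul (hφ _) (norm_vel_le hL hH γ t) (norm_nonneg _)
        ((abs_nonneg _).trans (hφ (γ.ext t))))
  simpa [J] using this

/-- Riemann sums of the line integral. -/
theorem norm_J_sub_sum_le {L κ : ℝ} (hL : 0 ≤ L) {H : X → E} (hH : Lip L H) {φ : X → ℝ}
    (hφ : Continuous φ) {n : ℕ} (hn : 0 < n)
    (hκ : ∀ x y, dist x y ≤ 1 / n → |φ x - φ y| ≤ κ) (γ : Cv X) :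
    ‖J H φ γ - ∑ i ∈ Finset.range n, φ (γ.ext (i / n)) •
      (H (γ.ext (((i + 1 : ℕ) : ℝ) / n)) - H (γ.ext (i / n)))‖ ≤ κ * L := by
  have hn' : (0 : ℝ) < n := by exact_mod_cast hn
  have e := intervalIntegral.sum_integral_adjacent_intervals (μ := volume) (n := n)
    (a := fun i : ℕ => (i : ℝ) / n) (f := fun t => φ (γ.ext t) • vel H γ t)
    (fun k _ => intervalIntegrable_J hL hH hφ γ _ _)
  simp only [Nat.cast_zero, zero_div, div_self hn'.ne'] at e
  rw [J, ← e, ← Finset.sum_sub_distrib]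
  refine (norm_sum_le_of_le _ (n := fun _ => κ * L * (1 / n)) fun i _ => ?_).trans ?_
  · have hab : (i : ℝ) / n ≤ ((i + 1 : ℕ) : ℝ) / n := by
      push_cast; gcongr; linarith
    have hd : ((i + 1 : ℕ) : ℝ) / n - (i : ℝ) / n = 1 / n := by push_cast; ring
    have := (lip_comp hL hH γ).norm_integral_smul_deriv_sub_le hL
      (φ := fun t => φ (γ.ext t)) (hφ.comp γ.continuous_ext) hab (c := φ (γ.ext (i / n)))
      (κ := κ) (fun t ht => hκ _ _ ((γ.dist_ext_le _ _).trans (by
        rw [abs_of_nonneg (sub_nonneg.2 ht.1)]; linarith [ht.2])))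
    rwa [hd] at this
  · rw [Finset.sum_const, Finset.card_range, nsmul_eq_mul]
    field_simp
    exact le_rfl

theorem continuous_J [CompactSpace X] {L : ℝ} (hL : 0 ≤ L) {H : X → E} (hH : Lip L H)
    {φ : X → ℝ} (hφ : Continuous φ) : Continuous (J H φ) := by
  refine continuous_of_uniform_approx_of_continuous fun u hu => ?_
  obtain ⟨ε, hε, hu⟩ := Metric.mem_uniformity_dist.1 hu
  have hκ : 0 < ε / (2 * (L + 1)) := by positivity
  obtain ⟨δ, hδ, hd⟩ := Metric.uniformContinuous_iff.1
    (CompactSpace.uniformContinuous_of_continuous hφ) _ hκ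
  obtain ⟨n, hn⟩ := exists_nat_one_div_lt hδ
  have hc : ∀ s : ℝ, Continuous fun γ : Cv X => γ.ext s := fun s =>
    continuous_ext_uncurry.comp (continuous_id.prodMk continuous_const)
  refine ⟨fun γ => ∑ i ∈ Finset.range (n + 1), φ (γ.ext (i / ((n + 1 : ℕ) : ℝ))) •
      (H (γ.ext (((i + 1 : ℕ) : ℝ) / ((n + 1 : ℕ) : ℝ))) - H (γ.ext (i / ((n + 1 : ℕ) : ℝ)))),
    continuous_finsetSum _ fun i _ => (hφ.comp (hc _)).smul
      ((hH.continuous.comp (hc _)).sub (hH.continuous.comp (hc _))), fun γ => hu ?_⟩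
  rw [dist_eq_norm]
  refine (norm_J_sub_sum_le hL hH hφ n.succ_pos (κ := ε / (2 * (L + 1)))
    (fun x y hxy => (hd (hxy.trans_lt (by push_cast; exact hn))).le) γ).trans_lt ?_
  rw [div_mul_eq_mul_div, div_lt_iff₀ (by positivity)]
  nlinarith

end Cv

end Pool.Agent.MP_7f5071_gt
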