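import Pool.Agent.MP_7f5071_gt.D1.Core

/-! Module D1: a dissipative field with negative trace on a set of small area. -/

namespace Pool.Agent.MP_7f5071_gt

open Filter Topology Set Metric MeasureTheory

namespace D1

variable {J : ℕ} {ξ : Fin J → R2}

theorem abs_ev_le (ξ : Fin J → R2) (j : Fin J) (v : R2) : |ev (ξ j) v| ≤ nrm ξ v :=
  norm_le_pi_norm (fun j => ev (ξ j) v) j

theorem diag_nonneg (hξ : Normal ξ) {j : Fin J} {v : R2} (h : ev (ξ j) v = nrm ξ v) :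
    0 ≤ (ξ j).1 * v.1 ∧ 0 ≤ (ξ j).2 * v.2 := by
  obtain ⟨⟨j1, h1⟩, ⟨j2, h2⟩, h3⟩ := hξ
  have a1 : |v.1| ≤ nrm ξ v := by simpa [ev, h1] using abs_ev_le ξ j1 v
  have a2 : |v.2| ≤ nrm ξ v := by simpa [ev, h2] using abs_ev_le ξ j2 v
  have b1 : |(ξ j).1| ≤ 1 := (norm_fst_le (ξ j)).trans (h3 j)
  have b2 : |(ξ j).2| ≤ 1 := (norm_snd_le (ξ j)).trans (h3 j)
  have c1 : (ξ j).1 * v.1 ≤ |v.1| := (le_abs_self _).trans (by
    rw [abs_mul]; exact mul_le_of_le_one_left (abs_nonneg _) b1)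
  have c2 : (ξ j).2 * v.2 ≤ |v.2| := (le_abs_self _).trans (by
    rw [abs_mul]; exact mul_le_of_le_one_left (abs_nonneg _) b2)
  unfold ev at h
  constructor <;> linarith

theorem mixed_nonneg {j k : Fin J} {v u : R2} (hv : ev (ξ j) v = nrm ξ v)
    (hu : ev (ξ k) u = nrm ξ u) :
    0 ≤ (ξ j).1 * v.1 * ((ξ k).2 * u.2) + (ξ j).2 * v.2 * ((ξ k).1 * u.1) -
      (ξ j).1 * v.2 * ((ξ k).2 * u.1) - (ξ j).2 * v.1 * ((ξ k).1 * u.2) := by
  have h1 : ev (ξ j) u * ev (ξ k) v ≤ ev (ξ j) v * ev (ξ k) u := by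
    rw [hv, hu, mul_comm (nrm ξ v)]
    refine (le_abs_self _).trans ?_
    rw [abs_mul]
    exact mul_le_mul (abs_ev_le ξ j u) (abs_ev_le ξ k v) (abs_nonneg _) (norm_nonneg _)
  unfold ev at h1
  linarith

theorem ev_apply (ζ v : R2) (T : R2 →L[ℝ] R2) :
    ev ζ (T v) = ζ.1 * v.1 * (T (1, 0)).1 + ζ.1 * v.2 * (T (0, 1)).1 + ζ.2 * v.1 * (T (1, 0)).2 +
      ζ.2 * v.2 * (T (0, 1)).2 := by
  have : v = v.1 • ((1, 0) : R2) + v.2 • ((0, 1) : R2) := by ext <;> simp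
  conv_lhs => rw [this, map_add, map_smul, map_smul]
  simp only [ev, Prod.fst_add, Prod.snd_add, Prod.smul_fst, Prod.smul_snd, smul_eq_mul]
  ring

theorem ev_le {ζ : R2} (hζ : ‖ζ‖ ≤ 1) (v : R2) : ev ζ v ≤ 2 * ‖v‖ := by
  have b1 : |ζ.1| ≤ 1 := (norm_fst_le ζ).trans hζ
  have b2 : |ζ.2| ≤ 1 := (norm_snd_le ζ).trans hζ
  have c1 : ζ.1 * v.1 ≤ ‖v‖ := (le_abs_self _).trans (by
    rw [abs_mul]; exact (mul_le_of_le_one_left (abs_nonneg _) b1).trans (norm_fst_le v))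
  have c2 : ζ.2 * v.2 ≤ ‖v‖ := (le_abs_self _).trans (by
    rw [abs_mul]; exact (mul_le_of_le_one_left (abs_nonneg _) b2).trans (norm_snd_le v))
  unfold ev
  linarith

theorem ev_smul (ζ : R2) (t : ℝ) (v : R2) : ev ζ (t • v) = t * ev ζ v := by
  simp only [ev, Prod.smul_fst, Prod.smul_snd, smul_eq_mul]
  ring

theorem ev_add (ζ v u : R2) : ev ζ (v + u) = ev ζ v + ev ζ u := by
  simp only [ev, Prod.fst_add, Prod.snd_add]
  ring

theorem nrm_smul (ξ : Fin J → R2) {t : ℝ} (ht : 0 ≤ t) (v : R2) :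
    nrm ξ (t • v) = t * nrm ξ v := by
  have : (fun j => ev (ξ j) (t • v)) = t • fun j => ev (ξ j) v := by
    ext j; simp [ev_smul]
  unfold nrm
  rw [this, norm_smul, Real.norm_of_nonneg ht]

end D1

open D1

theorem d1 : D1Stmt := by
  classical
  obtain ⟨C, hC, hker⟩ := exists_ker
  refine ⟨2 * C, by positivity, fun η hη => ⟨η ^ 2 / 2, by positivity, ?_⟩⟩
  intro J ξ hξ w hw η' hη' R O hOR hO
  obtain ⟨p, hp⟩ := hker w hw
  set M : ℝ := η * (2 * (C / w)) with hM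
  have hMpos : 0 < M := by positivity
  set ε : ℝ := min (η' / 8) (1 / 4) with hε
  have hεpos : 0 < ε := lt_min (by positivity) (by norm_num)
  obtain ⟨δ0, hδ0, hequi⟩ := equi hp hη hεpos
  set δ : ℝ := min δ0 (η' / (8 * M)) with hδ
  have hδpos : 0 < δ := lt_min hδ0 (by positivity)
  have hN : ∀ j : Fin J, ∃ t : Set (R2 × R2),
      t ⊆ {q | ‖q.1‖ ≤ R ∧ ‖q.2‖ ≤ 1 ∧ ev (ξ j) q.2 = nrm ξ q.2} ∧ t.Finite ∧
      {q | ‖q.1‖ ≤ R ∧ ‖q.2‖ ≤ 1 ∧ ev (ξ j) q.2 = nrm ξ q.2} ⊆ ⋃ y ∈ t, ball y δ := by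
    intro j
    refine Metric.finite_approx_of_totallyBounded ?_ δ hδpos
    refine ((isCompact_closedBall (0 : R2) R).prod
      (isCompact_closedBall (0 : R2) 1)).totallyBounded.subset ?_
    rintro q ⟨h1, h2, -⟩
    exact ⟨mem_closedBall_zero_iff.2 h1, mem_closedBall_zero_iff.2 h2⟩
  choose N hN1 hN2 hN3 using hN
  obtain ⟨T, hT1, hT2, hT3⟩ := Metric.finite_approx_of_totallyBounded
    ((isCompact_closedBall (0 : R2) R).totallyBounded.subset hOR) δ hδpos
  have : ∀ j, Fintype (N j) := fun j => (hN2 j).fintype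
  have : Fintype T := hT2.fintype
  refine (core (ι := (Σ j, N j) ⊕ T) (R := R) hp hw hη (half_pos hη') hO
    (Sum.elim (fun c => c.2.1.1) fun c => c.1) ?_
    (Sum.elim (fun c => (ξ c.1).1 * c.2.1.2.1) fun _ => 1)
    (Sum.elim (fun c => (ξ c.1).1 * c.2.1.2.2) fun _ => 0)
    (Sum.elim (fun c => (ξ c.1).2 * c.2.1.2.1) fun _ => 0)
    (Sum.elim (fun c => (ξ c.1).2 * c.2.1.2.2) fun _ => 1)
    (Sum.elim (fun _ => 0) fun _ => 1) ?_ ?_ ?_ ?_ ?_ ?_).elim ?_
  rotate_right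
  · rintro g ⟨hg, hc⟩
    have hbd : ∀ z, ‖fderiv ℝ (cv p g) z‖ ≤ M := cv_fderiv_norm hp hg
    refine ⟨cv p g, cv_cd hp hg, cv_norm hp hg, fun z => (hbd z).trans (le_of_eq ?_), ?_, ?_⟩
    · rw [hM]; ring
    · have key : ∀ z ∈ closedBall (0 : R2) R, ∀ v j, ‖v‖ ≤ 1 → ev (ξ j) v = nrm ξ v →
          ev (ξ j) (fderiv ℝ (cv p g) z v) ≤ η' := by
        intro z hz v j hv hj
        obtain ⟨y, hy, hyb⟩ := mem_iUnion₂.1
          (hN3 j (show (z, v) ∈ _ from ⟨mem_closedBall_zero_iff.1 hz, hv, hj⟩))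
        have h1 := hc (Sum.inl ⟨j, y, hy⟩)
        simp only [Sum.elim_inl] at h1
        rw [← ev_apply] at h1
        rw [mem_ball, Prod.dist_eq, max_lt_iff] at hyb
        have h2 := hequi g hg z y.1 (hyb.1.trans_le (min_le_left _ _))
        have h3 : ‖v - y.2‖ ≤ η' / (8 * M) := by
          rw [← dist_eq_norm]
          exact hyb.2.le.trans (min_le_right _ _)
        have e : fderiv ℝ (cv p g) z v = fderiv ℝ (cv p g) y.1 y.2 +
            ((fderiv ℝ (cv p g) z - fderiv ℝ (cv p g) y.1) v +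
              fderiv ℝ (cv p g) y.1 (v - y.2)) := by
          rw [sub_apply, map_sub]; abel
        have h4 : ‖(fderiv ℝ (cv p g) z - fderiv ℝ (cv p g) y.1) v‖ ≤ η' / 8 := by
          refine (ContinuousLinearMap.le_opNorm _ _).trans ?_
          calc _ ≤ ε * 1 := by gcongr
            _ ≤ η' / 8 := by rw [mul_one]; exact min_le_left _ _
        have h5 : ‖fderiv ℝ (cv p g) y.1 (v - y.2)‖ ≤ η' / 8 := by
          refine (ContinuousLinearMap.le_opNorm _ _).trans ?_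
          calc _ ≤ M * (η' / (8 * M)) := by gcongr; exact hbd _
            _ = η' / 8 := by field_simp
        rw [e, ev_add]
        have h6 := ev_le (hξ.2.2 j) ((fderiv ℝ (cv p g) z - fderiv ℝ (cv p g) y.1) v +
          fderiv ℝ (cv p g) y.1 (v - y.2))
        have h7 := norm_add_le ((fderiv ℝ (cv p g) z - fderiv ℝ (cv p g) y.1) v)
          (fderiv ℝ (cv p g) y.1 (v - y.2))
        linarith
      intro z hz v j hj
      rcases eq_or_ne v 0 with rfl | hv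
      · simp [ev]
      have hvpos : 0 < ‖v‖ := norm_pos_iff.2 hv
      have h1 := key z hz (‖v‖⁻¹ • v) j
        (by rw [norm_smul, norm_inv, norm_norm, inv_mul_cancel₀ hvpos.ne'])
        (by rw [ev_smul, nrm_smul ξ (inv_pos.2 hvpos).le, hj])
      rw [map_smul, ev_smul, inv_mul_le_iff₀ hvpos] at h1
      linarith
    · intro z hz
      obtain ⟨y, hy, hyb⟩ := mem_iUnion₂.1 (hT3 hz)
      have h1 := hc (Sum.inr ⟨y, hy⟩)
      simp only [Sum.elim_inr] at h1
      have h2 := (hequi g hg z y ((mem_ball.1 hyb).trans_le (min_le_left _ _))).trans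
        (min_le_right _ _)
      have h3 : ∀ v : R2, ‖v‖ ≤ 1 →
          ‖fderiv ℝ (cv p g) z v - fderiv ℝ (cv p g) y v‖ ≤ 1 / 4 := by
        intro v hv
        rw [← sub_apply]
        refine (ContinuousLinearMap.le_opNorm _ _).trans ?_
        exact (mul_le_mul h2 hv (norm_nonneg _) (by norm_num)).trans (mul_one _).le
      have h4 := (le_abs_self _).trans ((norm_fst_le _).trans (h3 (1, 0) (by simp)))
      have h5 := (le_abs_self _).trans ((norm_snd_le _).trans (h3 (0, 1) (by simp)))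
      simp only [Prod.fst_sub, Prod.snd_sub] at h4 h5
      linarith
  · rintro (c | c)
    · exact (hN1 c.1 c.2.2).1
    · exact mem_closedBall_zero_iff.1 (hOR (hT1 c.2))
  · rintro (c | c) <;> simp
  · rintro (c | c) <;> simp
  · rintro (c | c) hc
    · simp at hc
    · exact hT1 c.2
  · rintro (c | c)
    · exact (diag_nonneg hξ (hN1 c.1 c.2.2).2.2).1
    · simp
  · rintro (c | c)
    · exact (diag_nonneg hξ (hN1 c.1 c.2.2).2.2).2
    · simp
  · rintro (c | c) (d | d)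
    · have := mixed_nonneg (hN1 c.1 c.2.2).2.2 (hN1 d.1 d.2.2).2.2
      simp only [Sum.elim_inl]
      linarith
    · have := diag_nonneg hξ (hN1 c.1 c.2.2).2.2
      simp only [Sum.elim_inl, Sum.elim_inr]
      linarith [this.1, this.2]
    · have := diag_nonneg hξ (hN1 d.1 d.2.2).2.2
      simp only [Sum.elim_inl, Sum.elim_inr]
      linarith [this.1, this.2]
    · simp only [Sum.elim_inr]
      norm_num

end Pool.Agent.MP_7f5071_gt
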