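import Mathlib.Analysis.Calculus.Rademacher
import Mathlib.MeasureTheory.Order.Group.Lattice
import Mathlib.RingTheory.SimpleRing.Principal
import Mathlib.RingTheory.RegularLocalRing.Defs
import Pool.Agent.MP_7f5071_gt.Spec
import Pool.Agent.MP_7f5071_gt.L1.Base
import Pool.Agent.MP_7f5071_gt.WSGeom

-- ======== part 0: formerly Pool.Agent.MP_7f5071_gt.KirA
section MrgPart0

/-! Metric differentiability of a countable family of Lipschitz functions on the plane. -/

namespace Pool.Agent.MP_7f5071_gt.Kir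

open Filter Topology Set Metric MeasureTheory
open scoped NNReal

theorem vol_pos {δ : ℝ} (hδ : 0 < δ) (c : R2) : 0 < volume.real (closedBall c δ) :=
  ENNReal.toReal_pos (measure_closedBall_pos volume c hδ).ne' measure_closedBall_lt_top.ne

theorem int_shift (m : R2 → ℝ) (c : R2) (δ : ℝ) :
    ∫ p in closedBall (0 : R2) δ, m (c + p) = ∫ y in closedBall c δ, m y := by
  have h := (measurePreserving_add_left (volume : Measure R2) c).setIntegral_preimage_emb
    (measurableEmbedding_addLeft c) m (closedBall c δ)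
  rw [← h]
  congr 2
  ext p
  simp [mem_closedBall, dist_eq_norm]

theorem vol_shift (c : R2) (δ : ℝ) :
    volume.real (closedBall c δ) = volume.real (closedBall (0 : R2) δ) := by
  simp only [Measure.real, Measure.addHaar_closedBall_center]

/-- averaged fundamental theorem of calculus along parallel segments -/
theorem seg_bound {C : ℝ≥0} {f : R2 → ℝ} (hf : LipschitzWith C f) {m : R2 → ℝ}
    (hm : LocallyIntegrable m volume) (w v : R2) (hle : ∀ y, |fderiv ℝ f y v| ≤ m y)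
    {δ t B : ℝ} (hδ : 0 < δ) (ht : 0 ≤ t)
    (hB : ∀ s ∈ Icc 0 t, ∫ y in closedBall (w + s • v) δ, m y ≤
      B * volume.real (closedBall (0 : R2) δ)) :
    |f (w + t • v) - f w| ≤ B * t + 2 * C * δ := by
  set μ : Measure R2 := volume.restrict (closedBall (0 : R2) δ) with hμ
  set W := volume.real (closedBall (0 : R2) δ) with hW
  have hWpos : 0 < W := vol_pos hδ 0
  have hfin : IsFiniteMeasure μ := isFiniteMeasure_restrict.mpr measure_closedBall_lt_top.ne
  have hint : ∀ a : R2, Integrable (fun p => f (a + p)) μ := fun a =>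
    ((hf.continuous.comp (continuous_const.add continuous_id)).continuousOn).integrableOn_compact
      (isCompact_closedBall _ _)
  have hder : ∀ s : ℝ, HasDerivAt (fun s : ℝ => ∫ p, f (w + s • v + p) ∂μ)
      (∫ p, fderiv ℝ f (w + s • v + p) v ∂μ) s := by
    intro s
    refine (hasDerivAt_integral_of_dominated_loc_of_lip (μ := μ) (s := univ)
      (F := fun (s : ℝ) p => f (w + s • v + p)) (F' := fun p => fderiv ℝ f (w + s • v + p) v)
      (bound := fun _ => C * ‖v‖) univ_mem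
      (Eventually.of_forall (fun s => (hint _).aestronglyMeasurable)) (hint _) ?_ ?_
      (integrable_const _) ?_).2
    · exact ((measurable_fderiv_apply_const ℝ f v).comp
        (measurable_const_add _)).aestronglyMeasurable
    · refine Eventually.of_forall (fun p => ?_)
      refine LipschitzOnWith.of_dist_le_mul (fun a _ b _ => ?_)
      refine (hf.dist_le_mul _ _).trans (le_of_eq ?_)
      have e : w + a • v + p - (w + b • v + p) = (a - b) • v := by module
      rw [dist_eq_norm, e, norm_smul, Real.coe_nnabs, abs_of_nonneg (by positivity), dist_eq_norm]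
      ring
    · have h1 : ∀ᵐ p ∂(volume : Measure R2), DifferentiableAt ℝ f (w + s • v + p) :=
        (measurePreserving_add_left volume (w + s • v)).quasiMeasurePreserving.ae
          hf.ae_differentiableAt
      filter_upwards [ae_restrict_of_ae h1] with p hp
      have h2 : HasDerivAt (fun s : ℝ => w + s • v + p) v s := by
        simpa using (((hasDerivAt_id s).smul_const v).const_add w).add_const p
      exact hp.hasFDerivAt.comp_hasDerivAt s h2
  have hbd : ∀ s ∈ Ico 0 t, ‖∫ p, fderiv ℝ f (w + s • v + p) v ∂μ‖ ≤ B * W := by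
    intro s hs
    refine le_trans ?_ (hB s ⟨hs.1, hs.2.le⟩)
    rw [← int_shift m (w + s • v) δ]
    apply norm_integral_le_of_norm_le
    · have h1 : IntegrableOn m (closedBall (w + s • v) δ) volume :=
        hm.integrableOn_isCompact (isCompact_closedBall _ _)
      have h2 := ((measurePreserving_add_left (volume : Measure R2) (w + s • v)).integrableOn_comp_preimage
        (measurableEmbedding_addLeft _)).mpr h1
      have h3 : (fun p => w + s • v + p) ⁻¹' closedBall (w + s • v) δ = closedBall 0 δ := by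
        ext p
        simp [mem_closedBall, dist_eq_norm]
      rw [h3] at h2
      exact h2
    · exact Eventually.of_forall (fun p => hle _)
  have hmv := norm_image_sub_le_of_norm_deriv_right_le_segment
    (f := fun s : ℝ => ∫ p, f (w + s • v + p) ∂μ) (a := 0) (b := t)
    (fun s _ => (hder s).continuousAt.continuousWithinAt)
    (fun s _ => (hder s).hasDerivWithinAt) hbd t ⟨ht, le_rfl⟩
  have hclose : ∀ a : R2, |∫ p, f (a + p) ∂μ - f a * W| ≤ C * δ * W := by
    intro a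
    have h1 : ∫ p, f (a + p) ∂μ - f a * W = ∫ p, (f (a + p) - f a) ∂μ := by
      rw [integral_sub (hint a) (integrable_const _), integral_const, smul_eq_mul, hμ,
        measureReal_restrict_apply_univ, mul_comm]
    rw [h1, ← Real.norm_eq_abs]
    refine norm_setIntegral_le_of_norm_le_const (μ := volume) (s := closedBall (0 : R2) δ)
      measure_closedBall_lt_top (fun p hp => ?_)
    refine (hf.norm_sub_le _ _).trans ?_
    rw [add_sub_cancel_left]
    gcongr
    simpa using hp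
  have h1 := abs_le.mp (hclose (w + t • v))
  have h2 := abs_le.mp (hclose w)
  simp only [zero_smul, add_zero, sub_zero, Real.norm_eq_abs] at hmv
  have h3 := abs_le.mp hmv
  refine le_of_mul_le_mul_right ?_ hWpos
  rw [← abs_of_pos hWpos, ← abs_mul, abs_of_pos hWpos, abs_le]
  constructor <;> nlinarith [h1.1, h1.2, h2.1, h2.2, h3.1, h3.2]

/-- the filter of small balls whose multiples contain `w` -/
def bf (w : R2) (K : ℝ) : Filter (R2 × ℝ) :=
  comap Prod.snd (𝓝[>] (0 : ℝ)) ⊓ 𝓟 {q | w ∈ closedBall q.1 (K * q.2)}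

theorem bf_tendsto (w : R2) (K : ℝ) : Tendsto Prod.snd (bf w K) (𝓝[>] 0) :=
  tendsto_comap.mono_left inf_le_left

theorem bf_mem (w : R2) (K : ℝ) : ∀ᶠ q in bf w K, w ∈ closedBall q.1 (K * q.2) :=
  mem_inf_of_right (mem_principal_self _)

theorem bf_unif {w : R2} {K : ℝ} {P : R2 × ℝ → Prop} (h : ∀ᶠ q in bf w K, P q) :
    ∃ ρ > 0, ∀ c δ, 0 < δ → δ < ρ → dist w c ≤ K * δ → P (c, δ) := by
  rw [bf, eventually_inf_principal, eventually_comap] at h
  obtain ⟨ρ, hρ, hsub⟩ := mem_nhdsGT_iff_exists_Ioo_subset.mp h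
  exact ⟨ρ, hρ, fun c δ h1 h2 h3 => hsub ⟨h1, h2⟩ (c, δ) rfl h3⟩

theorem ae_leb {m : R2 → ℝ} (hm : LocallyIntegrable m volume) (K : ℝ) :
    ∀ᵐ w ∂(volume : Measure R2), ∀ ε > 0, ∃ ρ > 0, ∀ c δ, 0 < δ → δ < ρ → dist w c ≤ K * δ →
      ∫ y in closedBall c δ, m y ≤ (m w + ε) * volume.real (closedBall (0 : R2) δ) := by
  filter_upwards [IsUnifLocDoublingMeasure.ae_tendsto_average.{0, 0, 0} (volume : Measure R2) hm K]
    with w hw ε hε
  have h1 := hw Prod.fst Prod.snd (bf_tendsto w K) (bf_mem w K)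
  obtain ⟨ρ, hρ, h2⟩ := bf_unif (h1.eventually (gt_mem_nhds (lt_add_of_pos_right (m w) hε)))
  refine ⟨ρ, hρ, fun c δ a b d => ?_⟩
  have h3 := h2 c δ a b d
  simp only [setAverage_eq, smul_eq_mul] at h3
  rw [← vol_shift c δ]
  have h4 := vol_pos a c
  rw [inv_mul_lt_iff₀ h4] at h3
  linarith

theorem ae_dens (S : Set R2) (K : ℝ) :
    ∀ᵐ w ∂(volume : Measure R2).restrict S, ∃ ρ > 0, ∀ c δ, 0 < δ → δ < ρ → dist w c ≤ K * δ →
      (S ∩ closedBall c δ).Nonempty := by
  filter_upwards [IsUnifLocDoublingMeasure.ae_tendsto_measure_inter_div.{0, 0}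
    (volume : Measure R2) S K] with w hw
  have h1 := hw Prod.fst Prod.snd (bf_tendsto w K) (bf_mem w K)
  obtain ⟨ρ, hρ, h2⟩ := bf_unif (h1.eventually (lt_mem_nhds zero_lt_one))
  refine ⟨ρ, hρ, fun c δ a b d => ?_⟩
  have h3 := h2 c δ a b d
  by_contra hne
  rw [not_nonempty_iff_eq_empty] at hne
  simp [hne] at h3

/-- directional upper bound -/
theorem ae_dir {C : ℝ≥0} {f : ℕ → R2 → ℝ} (hf : ∀ k, LipschitzWith C (f k)) (v : R2) {θ : ℝ}
    (hθ : 0 < θ) : ∀ᵐ w ∂(volume : Measure R2), ∃ k, ∃ ρ > 0, ∀ t, 0 < t → t < ρ → ∀ l,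
      |f l (w + t • v) - f l w| ≤ (|fderiv ℝ (f k) w v| + (2 * C + 2) * θ) * t := by
  let m : R2 → ℝ := fun y => ⨆ k, |fderiv ℝ (f k) y v|
  have hb : ∀ k y, |fderiv ℝ (f k) y v| ≤ C * ‖v‖ := fun k y =>
    ((fderiv ℝ (f k) y).le_opNorm v).trans
      (mul_le_mul_of_nonneg_right (norm_fderiv_le_of_lipschitz ℝ (hf k)) (norm_nonneg _))
  have hbdd : ∀ y, BddAbove (range fun k => |fderiv ℝ (f k) y v|) := fun y =>
    ⟨C * ‖v‖, by rintro _ ⟨k, rfl⟩; exact hb k y⟩
  have hle : ∀ k y, |fderiv ℝ (f k) y v| ≤ m y := fun k y => le_ciSup (hbdd y) k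
  have hmeas : Measurable m :=
    Measurable.iSup (fun k => (measurable_fderiv_apply_const ℝ (f k) v).abs)
  have hm : LocallyIntegrable m volume := by
    refine (memLp_top_of_bound hmeas.aestronglyMeasurable (C * ‖v‖)
      (Eventually.of_forall (fun y => ?_))).locallyIntegrable le_top
    rw [Real.norm_eq_abs, abs_of_nonneg ((abs_nonneg _).trans (hle 0 y))]
    exact ciSup_le (fun k => hb k y)
  filter_upwards [ae_leb hm (‖v‖ / θ)] with w hw
  obtain ⟨ρ, hρ, h1⟩ := hw θ hθ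
  obtain ⟨k, hk⟩ : ∃ k, m w - θ < |fderiv ℝ (f k) w v| := exists_lt_of_lt_ciSup (by linarith)
  refine ⟨k, ρ / θ, by positivity, fun t ht htρ l => ?_⟩
  have h2 := seg_bound (hf l) hm w v (hle l) (δ := θ * t) (t := t) (B := m w + θ)
    (by positivity) ht.le (fun s hs => h1 _ _ (by positivity)
      (by rw [lt_div_iff₀ hθ] at htρ; linarith) (by
        rw [dist_self_add_right, norm_smul, Real.norm_eq_abs, abs_of_nonneg hs.1]
        have e : ‖v‖ / θ * (θ * t) = t * ‖v‖ := by field_simp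
        rw [e]
        gcongr
        exact hs.2))
  nlinarith

/-- metric differentiability, upper bound in all directions with finitely many functions -/
theorem ae_md {C : ℝ≥0} {f : ℕ → R2 → ℝ} (hf : ∀ k, LipschitzWith C (f k)) :
    ∀ᵐ w ∂(volume : Measure R2), ∀ θ > 0, ∃ F : Finset ℕ, ∃ ρ > 0, ∀ w', ‖w' - w‖ < ρ →
      w' ≠ w → ∃ k ∈ F, ∀ l, |f l w' - f l w| ≤ |fderiv ℝ (f k) w (w' - w)| + θ * ‖w' - w‖ := by
  classical
  let u : ℕ → R2 := TopologicalSpace.denseSeq R2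
  have hu : DenseRange u := TopologicalSpace.denseRange_denseSeq R2
  have h0 : ∀ᵐ w ∂(volume : Measure R2), ∀ n j : ℕ, ∃ k, ∃ ρ > 0, ∀ t, 0 < t → t < ρ → ∀ l,
      |f l (w + t • u n) - f l w| ≤
        (|fderiv ℝ (f k) w (u n)| + (2 * C + 2) * (1 / ((j : ℝ) + 1))) * t :=
    ae_all_iff.mpr (fun n => ae_all_iff.mpr (fun j => ae_dir hf (u n) Nat.one_div_pos_of_nat))
  filter_upwards [h0] with w hw θ hθ
  obtain ⟨j, hj⟩ := exists_nat_one_div_lt (show 0 < θ / (4 * C + 2) by positivity)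
  set η : ℝ := 1 / ((j : ℝ) + 1) with hη
  have hηpos : 0 < η := Nat.one_div_pos_of_nat
  have hηθ : (4 * C + 2) * η ≤ θ := by
    rw [lt_div_iff₀ (by positivity)] at hj
    linarith
  choose k ρ hρ hk using fun n => hw n j
  obtain ⟨T, hT⟩ := (isCompact_sphere (0 : R2) 1).elim_finite_subcover (fun n => ball (u n) η)
    (fun _ => isOpen_ball) (fun v _ => by
      obtain ⟨n, hn⟩ := hu.exists_dist_lt v hηpos
      exact mem_iUnion.mpr ⟨n, hn⟩)
  obtain ⟨ρ0, hρ0, hρ1⟩ : ∃ ρ0 > 0, ∀ n ∈ T, ρ0 ≤ ρ n := by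
    by_cases hne : T.Nonempty
    · obtain ⟨n, -, hn⟩ := T.exists_min_image ρ hne
      exact ⟨ρ n, hρ n, hn⟩
    · exact ⟨1, one_pos, fun n hn => absurd ⟨n, hn⟩ hne⟩
  refine ⟨T.image k, ρ0, hρ0, fun w' h1 h2 => ?_⟩
  set t := ‖w' - w‖ with ht
  have htpos : 0 < t := norm_pos_iff.mpr (sub_ne_zero.mpr h2)
  have hv : t⁻¹ • (w' - w) ∈ sphere (0 : R2) 1 := by
    rw [mem_sphere_zero_iff_norm, norm_smul, norm_inv, Real.norm_eq_abs, abs_of_pos htpos, ← ht,
      inv_mul_cancel₀ htpos.ne']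
  obtain ⟨n, hn, hnv⟩ := mem_iUnion₂.mp (hT hv)
  refine ⟨k n, Finset.mem_image_of_mem k hn, fun l => ?_⟩
  have h3 := hk n t htpos (h1.trans_le (hρ1 n hn)) l
  have h4 : ‖w' - w - t • u n‖ ≤ η * t := by
    have e : w' - w - t • u n = t • (t⁻¹ • (w' - w) - u n) := by
      rw [smul_sub, smul_smul, mul_inv_cancel₀ htpos.ne', one_smul]
    rw [e, norm_smul, Real.norm_eq_abs, abs_of_pos htpos, mul_comm]
    gcongr
    exact (mem_ball_iff_norm.mp hnv).le
  have h5 : |f l w' - f l (w + t • u n)| ≤ C * (η * t) := by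
    refine ((hf l).norm_sub_le _ _).trans ?_
    rw [← sub_sub]
    gcongr
  have h6 : |fderiv ℝ (f (k n)) w (w' - w - t • u n)| ≤ C * (η * t) :=
    ((fderiv ℝ (f (k n)) w).le_opNorm _).trans
      (mul_le_mul (norm_fderiv_le_of_lipschitz ℝ (hf _)) h4 (norm_nonneg _) C.2)
  have h7 : |fderiv ℝ (f (k n)) w (u n)| * t ≤ |fderiv ℝ (f (k n)) w (w' - w)| + C * (η * t) := by
    rw [map_sub, map_smul, smul_eq_mul] at h6
    rw [← abs_of_pos htpos, ← abs_mul, abs_of_pos htpos, mul_comm _ t]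
    have := abs_sub_abs_le_abs_sub (t * fderiv ℝ (f (k n)) w (u n)) (fderiv ℝ (f (k n)) w (w' - w))
    rw [abs_sub_comm] at this
    linarith
  have h8 := abs_sub_le (f l w') (f l (w + t • u n)) (f l w)
  have h9 := mul_le_mul_of_nonneg_right hηθ htpos.le
  nlinarith

end Pool.Agent.MP_7f5071_gt.Kir

end MrgPart0

-- ======== part 1: formerly Pool.Agent.MP_7f5071_gt.Kir
section MrgPart1

/-! Module KIR. -/

namespace Pool.Agent.MP_7f5071_gt

open Filter Topology Set Metric MeasureTheory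
open scoped NNReal

universe u

namespace Kir

/-- the covector of a linear functional -/
def cov (D : R2 →L[ℝ] ℝ) : R2 := (D (1, 0), D (0, 1))

theorem ev_cov (D : R2 →L[ℝ] ℝ) (v : R2) : ev (cov D) v = D v := by
  have e : v = v.1 • ((1, 0) : R2) + v.2 • ((0, 1) : R2) := by ext <;> simp
  conv_rhs => rw [e, map_add, map_smul, map_smul]
  simp only [ev, cov, smul_eq_mul]
  ring

theorem abs_ev_le (ξ v : R2) : |ev ξ v| ≤ 2 * ‖ξ‖ * ‖v‖ := by
  have h1 : |ξ.1 * v.1| ≤ ‖ξ‖ * ‖v‖ := by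
    rw [abs_mul]
    exact mul_le_mul (norm_fst_le ξ) (norm_fst_le v) (abs_nonneg _) (norm_nonneg _)
  have h2 : |ξ.2 * v.2| ≤ ‖ξ‖ * ‖v‖ := by
    rw [abs_mul]
    exact mul_le_mul (norm_snd_le ξ) (norm_snd_le v) (abs_nonneg _) (norm_nonneg _)
  have := abs_add_le (ξ.1 * v.1) (ξ.2 * v.2)
  unfold ev
  linarith

theorem ev_sub (ξ ξ' v : R2) : ev (ξ - ξ') v = ev ξ v - ev ξ' v := by
  simp only [ev, Prod.fst_sub, Prod.snd_sub]
  ring

theorem ev_neg (ξ v : R2) : ev ξ (-v) = - ev ξ v := by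
  simp only [ev, Prod.fst_neg, Prod.snd_neg]
  ring

theorem continuous_ev (ξ : R2) : Continuous (ev ξ) := by
  unfold ev
  fun_prop

/-- parallel covectors have a common unit vector in their kernels -/
theorem exists_ker (ξ : ℕ → R2) (h : ∀ k k', det2 (ξ k) (ξ k') = 0) :
    ∃ v : R2, ‖v‖ = 1 ∧ ∀ k, ev (ξ k) v = 0 := by
  by_cases h0 : ∀ k, ξ k = 0
  · exact ⟨(1, 0), by simp, fun k => by simp [ev, h0 k]⟩
  push Not at h0
  obtain ⟨k0, hk0⟩ := h0
  let p : R2 := (-(ξ k0).2, (ξ k0).1)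
  have hp : p ≠ 0 := by
    intro hp
    apply hk0
    have h1 := congrArg Prod.fst hp
    have h2 := congrArg Prod.snd hp
    simp only [p, Prod.fst_zero, Prod.snd_zero, neg_eq_zero] at h1 h2
    exact Prod.ext h2 h1
  have hn : 0 < ‖p‖ := norm_pos_iff.mpr hp
  refine ⟨‖p‖⁻¹ • p, by rw [norm_smul, norm_inv, norm_norm, inv_mul_cancel₀ hn.ne'], fun k => ?_⟩
  have := h k0 k
  simp only [det2] at this
  simp only [ev, Prod.smul_fst, Prod.smul_snd, smul_eq_mul, p]
  linear_combination ‖p‖⁻¹ * this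

variable {X : Type*} [MetricSpace X]

theorem lip_continuous {E : Type*} [NormedAddCommGroup E] {L : ℝ} {F : X → E} (h : Lip L F) :
    Continuous F :=
  (LipschitzWith.of_dist_le_mul (K := L.toNNReal) (fun x y => by
    rw [dist_eq_norm]
    exact (h x y).trans (mul_le_mul_of_nonneg_right (Real.le_coe_toNNReal L) dist_nonneg))).continuous

theorem lipOn_inv [Nonempty X] {π : X → R2} {Γ : Set X} {C : ℝ≥0}
    (hC : ∀ x ∈ Γ, ∀ y ∈ Γ, dist x y ≤ C * ‖π x - π y‖) {E : Type*} [NormedAddCommGroup E]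
    {M : ℝ≥0} {u : X → E} (hu : Lip M u) :
    LipschitzOnWith (M * C) (fun w => u (Function.invFunOn π Γ w)) (π '' Γ) ∧
      ∀ x ∈ Γ, u (Function.invFunOn π Γ (π x)) = u x := by
  have hinj : InjOn π Γ := by
    intro x hx y hy hxy
    have := hC x hx y hy
    rw [hxy, sub_self, norm_zero, mul_zero] at this
    exact dist_le_zero.mp this
  have hl : ∀ x ∈ Γ, Function.invFunOn π Γ (π x) = x := fun x hx => hinj.leftInvOn_invFunOn hx
  refine ⟨LipschitzOnWith.of_dist_le_mul ?_, fun x hx => by rw [hl x hx]⟩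
  rintro _ ⟨x, hx, rfl⟩ _ ⟨y, hy, rfl⟩
  simp only [hl x hx, hl y hy]
  rw [dist_eq_norm, dist_eq_norm, NNReal.coe_mul, mul_assoc]
  exact (hu x y).trans (mul_le_mul_of_nonneg_left (hC x hx y hy) M.2)

theorem dist_le_of_dense {z : ℕ → X} (hz : DenseRange z) {x y : X} {B : ℝ}
    (h : ∀ l, |dist y (z l) - dist x (z l)| ≤ B) : dist x y ≤ B := by
  refine le_of_forall_pos_le_add (fun ε hε => ?_)
  obtain ⟨l, hl⟩ := hz.exists_dist_lt x (half_pos hε)
  have h1 := (abs_le.mp (h l)).2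
  have h2 := dist_triangle_right x y (z l)
  have h3 := dist_triangle y x (z l)
  have h4 := dist_triangle_right y x (z l)
  rw [dist_comm x y]
  linarith

/-- the estimates required on one class -/
def Est {N : ℕ} (z : ℕ → X) (H : X → V N) (π : X → R2) (β : ℝ) (F : Finset ℕ) (ζ : ℕ → R2)
    (A : R2 →L[ℝ] V N) (x y : X) : Prop :=
  (∀ k ∈ F, |dist x (z k) - dist y (z k) - ev (ζ k) (π x - π y)| ≤ β * dist x y) ∧
    ‖H x - H y - A (π x - π y)‖ ≤ β * dist x y ∧
    ∃ k ∈ F, dist x y ≤ 2 * |ev (ζ k) (π x - π y)| + β * dist x y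

theorem isClosed_est {N : ℕ} (z : ℕ → X) {H : X → V N} (hH : Continuous H) {π : X → R2}
    (hπ : Continuous π) (β : ℝ) (F : Finset ℕ) (ζ : ℕ → R2) (A : R2 →L[ℝ] V N) (y : X) :
    IsClosed {x | Est z H π β F ζ A x y} := by
  have he : ∀ k, Continuous (fun x => ev (ζ k) (π x - π y)) :=
    fun k => (continuous_ev _).comp (by fun_prop)
  have h1 : IsClosed {x | ∀ k ∈ F,
      |dist x (z k) - dist y (z k) - ev (ζ k) (π x - π y)| ≤ β * dist x y} := by
    simp only [ofPred_forall]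
    refine isClosed_iInter (fun k => isClosed_iInter (fun _ => ?_))
    have := he k
    exact isClosed_le (by fun_prop) (by fun_prop)
  have h2 : IsClosed {x | ‖H x - H y - A (π x - π y)‖ ≤ β * dist x y} :=
    isClosed_le (by fun_prop) (by fun_prop)
  have h3 : IsClosed (⋃ k ∈ F, {x | dist x y ≤ 2 * |ev (ζ k) (π x - π y)| + β * dist x y}) := by
    refine isClosed_biUnion_finset (fun k _ => ?_)
    have := he k
    exact isClosed_le (by fun_prop) (by fun_prop)
  have h4 := h1.inter (h2.inter h3)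
  refine (congrArg IsClosed ?_).mp h4
  ext x
  simp only [Est, mem_inter_iff, mem_ofPred_eq, mem_iUnion, exists_prop]

/-- at a density point two of the differentials are independent -/
theorem nondeg {z : ℕ → X} (hz : DenseRange z) {π : X → R2} {Γ : Set X} {L : ℝ} (hL : 0 ≤ L)
    (hπ : Lip L π) {C : ℝ≥0} {f : ℕ → R2 → ℝ} (hf : ∀ k, LipschitzWith C (f k))
    (hfe : ∀ k, ∀ x ∈ Γ, f k (π x) = dist x (z k)) {x : X} (hx : x ∈ Γ)
    (hmd : ∀ θ > 0, ∃ F : Finset ℕ, ∃ ρ > 0, ∀ w', ‖w' - π x‖ < ρ → w' ≠ π x → ∃ k ∈ F, ∀ l,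
      |f l w' - f l (π x)| ≤ |fderiv ℝ (f k) (π x) (w' - π x)| + θ * ‖w' - π x‖)
    (hd : ∀ j : ℕ, ∃ ρ > 0, ∀ c δ, 0 < δ → δ < ρ → dist (π x) c ≤ ((j : ℝ) + 1) * δ →
      (π '' Γ ∩ closedBall c δ).Nonempty) :
    ∃ k k', det2 (cov (fderiv ℝ (f k) (π x))) (cov (fderiv ℝ (f k') (π x))) ≠ 0 := by
  by_contra hcon
  push Not at hcon
  obtain ⟨v, hv, hker⟩ := exists_ker _ hcon
  simp only [ev_cov] at hker
  obtain ⟨j, hj⟩ := exists_nat_one_div_lt (show 0 < 1 / (2 * (L * (C + 2) + 1)) by positivity)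
  set θ : ℝ := 1 / ((j : ℝ) + 1) with hθ
  have hθpos : 0 < θ := Nat.one_div_pos_of_nat
  have hθ1 : θ * (2 * (L * (C + 2) + 1)) < 1 := (lt_div_iff₀ (by positivity)).mp hj
  have hLC : 0 ≤ L * (C + 2) := by positivity
  have hθ2 : θ < 1 / 2 := by nlinarith
  obtain ⟨F, ρ1, hρ1, h1⟩ := hmd θ hθpos
  obtain ⟨ρ2, hρ2, h2⟩ := hd j
  set t := min ρ1 ρ2 / 2 with ht
  have htpos : 0 < t := by positivity
  have ht1 : 2 * t ≤ ρ1 := by have := min_le_left ρ1 ρ2; linarith
  have ht2 : 2 * t ≤ ρ2 := by have := min_le_right ρ1 ρ2; linarith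
  obtain ⟨_, ⟨y, hy, rfl⟩, hy2⟩ := h2 (π x + t • v) (θ * t) (by positivity) (by nlinarith) (by
    rw [dist_self_add_right, norm_smul, hv, Real.norm_eq_abs, abs_of_pos htpos, hθ]
    apply le_of_eq
    field_simp)
  have h3 : ‖π y - π x - t • v‖ ≤ θ * t := by
    rw [sub_sub]
    exact mem_closedBall_iff_norm.mp hy2
  have h4 : ‖t • v‖ = t := by rw [norm_smul, hv, Real.norm_eq_abs, abs_of_pos htpos, mul_one]
  have h5 := abs_le.mp ((abs_norm_sub_norm_le (π y - π x) (t • v)).trans h3)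
  rw [h4] at h5
  have h6 : 0 < ‖π y - π x‖ := by nlinarith
  obtain ⟨k, -, hk⟩ := h1 (π y) (by nlinarith) (sub_ne_zero.mp (norm_pos_iff.mp h6))
  have h7 : |fderiv ℝ (f k) (π x) (π y - π x)| ≤ C * (θ * t) := by
    have e : fderiv ℝ (f k) (π x) (π y - π x) = fderiv ℝ (f k) (π x) (π y - π x - t • v) := by
      rw [map_sub _ _ (t • v), map_smul, hker k, smul_zero, sub_zero]
    rw [e]
    exact ((fderiv ℝ (f k) (π x)).le_opNorm _).trans
      (mul_le_mul (norm_fderiv_le_of_lipschitz ℝ (hf _)) h3 (norm_nonneg _) C.2)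
  have h8 : dist x y ≤ (C + 2) * (θ * t) := by
    refine dist_le_of_dense hz (fun l => ?_)
    have := hk l
    rw [hfe l y hy, hfe l x hx] at this
    have h9 : θ * ‖π y - π x‖ ≤ θ * (2 * t) :=
      mul_le_mul_of_nonneg_left (by nlinarith) hθpos.le
    nlinarith
  have h9 := hπ y x
  rw [dist_comm] at h9
  have h10 : L * dist x y ≤ L * ((C + 2) * (θ * t)) := mul_le_mul_of_nonneg_left h8 hL
  nlinarith

theorem small_o {E : Type*} [NormedAddCommGroup E] [NormedSpace ℝ E] {f : R2 → E} {w : R2}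
    (hf : DifferentiableAt ℝ f w) {θ : ℝ} (hθ : 0 < θ) :
    ∀ᶠ w' in 𝓝 w, ‖f w' - f w - fderiv ℝ f w (w' - w)‖ ≤ θ * ‖w' - w‖ :=
  hf.hasFDerivAt.isLittleO.def hθ

/-- the estimates hold near a good point, for all nearby data -/
theorem est_near {N : ℕ} {z : ℕ → X} (hz : DenseRange z) {H : X → V N} {π : X → R2} {Γ : Set X}
    {L : ℝ} (hL : 0 ≤ L) (hπ : Lip L π) {f : ℕ → R2 → ℝ} {h : R2 → V N}
    (hfe : ∀ k, ∀ x ∈ Γ, f k (π x) = dist x (z k)) (hhe : ∀ x ∈ Γ, h (π x) = H x)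
    {x : X} (hx : x ∈ Γ) (hdf : ∀ k, DifferentiableAt ℝ (f k) (π x))
    (hdh : DifferentiableAt ℝ h (π x))
    (hmd : ∀ θ > 0, ∃ F : Finset ℕ, ∃ ρ > 0, ∀ w', ‖w' - π x‖ < ρ → w' ≠ π x → ∃ k ∈ F, ∀ l,
      |f l w' - f l (π x)| ≤ |fderiv ℝ (f k) (π x) (w' - π x)| + θ * ‖w' - π x‖)
    {β : ℝ} (hβ : 0 < β) (k0 k1 : ℕ) :
    ∃ F : Finset ℕ, k0 ∈ F ∧ k1 ∈ F ∧ ∃ θ > 0, ∃ r > 0, ∀ (ζ : ℕ → R2) (A : R2 →L[ℝ] V N),
      (∀ k ∈ F, ‖ζ k - cov (fderiv ℝ (f k) (π x))‖ < θ) → ‖A - fderiv ℝ h (π x)‖ < θ →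
      ∀ y ∈ Γ, dist x y < r → Est z H π β F ζ A x y := by
  classical
  set θ := β / (3 * (L + 1)) with hθ
  have hθpos : 0 < θ := by positivity
  have hθβ : 3 * θ * L ≤ β := by
    have : θ * (3 * (L + 1)) = β := by rw [hθ]; field_simp
    nlinarith
  obtain ⟨F0, ρ, hρ, h1⟩ := hmd θ hθpos
  refine ⟨insert k0 (insert k1 F0), by simp, by simp, θ, hθpos, ?_⟩
  set F := insert k0 (insert k1 F0) with hF
  have hev : ∀ᶠ w' in 𝓝 (π x), ‖w' - π x‖ < ρ ∧
      (∀ k ∈ F, ‖f k w' - f k (π x) - fderiv ℝ (f k) (π x) (w' - π x)‖ ≤ θ * ‖w' - π x‖) ∧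
      ‖h w' - h (π x) - fderiv ℝ h (π x) (w' - π x)‖ ≤ θ * ‖w' - π x‖ := by
    refine Eventually.and ?_ (Eventually.and ?_ (small_o hdh hθpos))
    · filter_upwards [ball_mem_nhds (π x) hρ] with w' hw' using mem_ball_iff_norm.mp hw'
    · exact (eventually_all_finset F).mpr (fun k _ => small_o (hdf k) hθpos)
  obtain ⟨r, hr, h2⟩ := Metric.eventually_nhds_iff.mp
    ((lip_continuous hπ).continuousAt.tendsto.eventually hev)
  refine ⟨r, hr, fun ζ A hζ hA y hy hxy => ?_⟩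
  obtain ⟨h3, h4, h5⟩ := h2 (y := y) (by rwa [dist_comm])
  have hd : ‖π y - π x‖ ≤ L * dist x y := by rw [dist_comm]; exact hπ y x
  have hfin : 3 * θ * ‖π y - π x‖ ≤ β * dist x y :=
    (mul_le_mul_of_nonneg_left hd (by positivity)).trans
      (by rw [← mul_assoc]; exact mul_le_mul_of_nonneg_right hθβ dist_nonneg)
  have hn0 : 0 ≤ θ * ‖π y - π x‖ := by positivity
  have hneg : π x - π y = -(π y - π x) := (neg_sub _ _).symm
  have hz1 : ∀ k ∈ F, |ev (ζ k) (π y - π x) - fderiv ℝ (f k) (π x) (π y - π x)| ≤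
      2 * θ * ‖π y - π x‖ := by
    intro k hk
    rw [← ev_cov, ← ev_sub]
    refine (abs_ev_le _ _).trans ?_
    gcongr
    exact (hζ k hk).le
  refine ⟨fun k hk => ?_, ?_, ?_⟩
  · have a1 := abs_le.mp (h4 k hk)
    have a2 := abs_le.mp (hz1 k hk)
    rw [hfe k y hy, hfe k x hx] at a1
    rw [hneg, ev_neg, abs_le]
    constructor <;> linarith [a1.1, a1.2, a2.1, a2.2]
  · rw [hhe y hy, hhe x hx] at h5
    have a1 : ‖(A - fderiv ℝ h (π x)) (π y - π x)‖ ≤ θ * ‖π y - π x‖ :=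
      (ContinuousLinearMap.le_opNorm _ _).trans (mul_le_mul_of_nonneg_right hA.le (norm_nonneg _))
    have e : H x - H y - A (π x - π y) = (A - fderiv ℝ h (π x)) (π y - π x) -
        (H y - H x - fderiv ℝ h (π x) (π y - π x)) := by
      rw [hneg, map_neg, sub_apply]
      abel
    rw [e]
    have := norm_sub_le ((A - fderiv ℝ h (π x)) (π y - π x))
      (H y - H x - fderiv ℝ h (π x) (π y - π x))
    linarith
  · by_cases hxy' : π y = π x
    · refine ⟨k0, by simp [hF], ?_⟩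
      have : dist x y ≤ 0 := dist_le_of_dense hz (fun l => by
        rw [← hfe l y hy, ← hfe l x hx, hxy', sub_self, abs_zero])
      have h6 : 0 ≤ β * dist x y := by positivity
      have h7 := abs_nonneg (ev (ζ k0) (π x - π y))
      linarith
    · obtain ⟨k, hk, h6⟩ := h1 (π y) h3 hxy'
      have hkF : k ∈ F := by simp [hF, hk]
      refine ⟨k, hkF, ?_⟩
      have h7 : dist x y ≤ |fderiv ℝ (f k) (π x) (π y - π x)| + θ * ‖π y - π x‖ :=
        dist_le_of_dense hz (fun l => by rw [← hfe l y hy, ← hfe l x hx]; exact h6 l)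
      have h8 := abs_sub_abs_le_abs_sub (fderiv ℝ (f k) (π x) (π y - π x)) (ev (ζ k) (π y - π x))
      rw [abs_sub_comm] at h8
      have h9 := hz1 k hkF
      have h10 := abs_nonneg (ev (ζ k) (π y - π x))
      rw [hneg, ev_neg, abs_neg]
      linarith

end Kir

open Kir in
theorem kir : KirStmt.{u} := by
  intro X _ _ z hz N H L hH π Γ hΓ β hβ
  classical
  have : Nonempty X := ⟨z 0⟩
  obtain ⟨L0, hL0⟩ := hΓ.lip
  obtain ⟨C0, hC0⟩ := hΓ.inv
  have hπ : Lip (max L0 0) π := fun x y =>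
    (hL0 x y).trans (mul_le_mul_of_nonneg_right (le_max_left _ _) dist_nonneg)
  have hC : ∀ x ∈ Γ, ∀ y ∈ Γ, dist x y ≤ C0.toNNReal * ‖π x - π y‖ := fun x hx y hy =>
    (hC0 x hx y hy).trans (mul_le_mul_of_nonneg_right (Real.le_coe_toNNReal C0) (norm_nonneg _))
  have hH' : Lip L.toNNReal H := fun x y =>
    (hH x y).trans (mul_le_mul_of_nonneg_right (Real.le_coe_toNNReal L) dist_nonneg)
  have hex : ∀ k, ∃ f : R2 → ℝ, LipschitzWith (1 * C0.toNNReal) f ∧
      ∀ x ∈ Γ, f (π x) = dist x (z k) := by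
    intro k
    obtain ⟨h1, h2⟩ := lipOn_inv hC (M := 1) (u := fun x => dist x (z k)) (fun x y => by
      simpa using abs_dist_sub_le x y (z k))
    obtain ⟨g, hg1, hg2⟩ := h1.extend_real
    exact ⟨g, hg1, fun x hx => by rw [← hg2 ⟨x, hx, rfl⟩]; exact h2 x hx⟩
  choose f hf hfe using hex
  obtain ⟨h, hh, hhe⟩ : ∃ h : R2 → V N, LipschitzWith (L.toNNReal * C0.toNNReal) h ∧
      ∀ x ∈ Γ, h (π x) = H x := by
    obtain ⟨h1, h2⟩ := lipOn_inv hC hH'
    obtain ⟨g, hg1, hg2⟩ := h1.extend_pi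
    exact ⟨g, hg1, fun x hx => by rw [← hg2 ⟨x, hx, rfl⟩]; exact h2 x hx⟩
  obtain ⟨q, hq⟩ := TopologicalSpace.exists_dense_seq ((ℕ → R2) × (R2 →L[ℝ] V N) × X)
  let ι := {i : Finset ℕ × ℕ × ℕ //
    ∃ k ∈ i.1, ∃ k' ∈ i.1, det2 ((q i.2.1).1 k) ((q i.2.1).1 k') ≠ 0}
  let r : ι → ℝ := fun i => 1 / ((i.1.2.2 : ℝ) + 1)
  have hr : ∀ i, 0 < r i := fun i => Nat.one_div_pos_of_nat
  let G : ι → Set X := fun i => Γ ∩ (closedBall (q i.1.2.1).2.2 (r i / 3) ∩
    {x | ∀ y ∈ Γ, dist x y < r i → Est z H π β i.1.1 (q i.1.2.1).1 (q i.1.2.1).2.1 x y})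
  refine ⟨ι, inferInstance, G, fun i => i.1.1, fun i => (q i.1.2.1).1, fun i => (q i.1.2.1).2.1,
    ?_, fun i => ⟨?_, inter_subset_left, i.2, fun x hx y hy => ?_⟩⟩
  · have hK : MeasurableSet (π '' Γ) := (hΓ.cpt.image (lip_continuous hπ)).measurableSet
    have a1 : ∀ᵐ w ∂(volume : Measure R2), ∀ k, DifferentiableAt ℝ (f k) w :=
      ae_all_iff.mpr (fun k => (hf k).ae_differentiableAt)
    have a2 : ∀ᵐ w ∂(volume : Measure R2), DifferentiableAt ℝ h w := hh.ae_differentiableAt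
    have a3 := ae_md hf
    have a4 := (ae_restrict_iff' hK).mp
      (ae_all_iff.mpr (fun j : ℕ => ae_dens (π '' Γ) ((j : ℝ) + 1)))
    have a5 : ∀ᵐ w ∂(volume : Measure R2), w ∉ π '' (Γ \ ⋃ i, G i) := by
      filter_upwards [a1, a2, a3, a4] with w b1 b2 b3 b4
      rintro ⟨x, ⟨hx, hxG⟩, rfl⟩
      apply hxG
      obtain ⟨k0, k1, hdet⟩ := nondeg hz (le_max_right _ _) hπ hf hfe hx b3 (b4 ⟨x, hx, rfl⟩)
      obtain ⟨F, hk0, hk1, θ, hθ, ρ, hρ, hest⟩ :=
        est_near hz (le_max_right _ _) hπ hfe hhe hx b1 b2 b3 hβ k0 k1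
      obtain ⟨n, hn⟩ := exists_nat_one_div_lt hρ
      have hn0 : (0 : ℝ) < 1 / ((n : ℝ) + 1) := Nat.one_div_pos_of_nat
      let U : Set ((ℕ → R2) × (R2 →L[ℝ] V N) × X) := {p | (∀ k ∈ F, ‖p.1 k - cov (fderiv ℝ (f k) (π x))‖ < θ) ∧
        ‖p.2.1 - fderiv ℝ h (π x)‖ < θ ∧ dist x p.2.2 < 1 / ((n : ℝ) + 1) / 3 ∧
        det2 (p.1 k0) (p.1 k1) ≠ 0}
      have hU : IsOpen U := by
        refine IsOpen.and ?_ (IsOpen.and ?_ (IsOpen.and ?_ ?_))
        · have : IsOpen (⋂ k ∈ F, {p : (ℕ → R2) × (R2 →L[ℝ] V N) × X |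
              ‖p.1 k - cov (fderiv ℝ (f k) (π x))‖ < θ}) :=
            isOpen_biInter_finset (fun k _ => isOpen_lt (by fun_prop) continuous_const)
          simpa only [ofPred_forall] using this
        · exact isOpen_lt (by fun_prop) continuous_const
        · exact isOpen_lt (by fun_prop) continuous_const
        · refine isOpen_ne_fun ?_ continuous_const
          unfold det2
          fun_prop
      have hne : U.Nonempty := ⟨(fun k => cov (fderiv ℝ (f k) (π x)), fderiv ℝ h (π x), x),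
        fun k _ => by simpa using hθ, by simpa using hθ, by simpa using hn0, hdet⟩
      obtain ⟨j, c1, c2, c3, c4⟩ := hq.exists_mem_open hU hne
      refine mem_iUnion.mpr ⟨⟨(F, j, n), k0, hk0, k1, hk1, c4⟩, hx, c3.le, fun y hy hxy => ?_⟩
      exact hest _ _ c1 c2 y hy (hxy.trans hn)
    exact measure_eq_zero_iff_ae_notMem.mpr a5
  · refine hΓ.cpt.inter_right (isClosed_closedBall.inter ?_)
    simp only [ofPred_forall]
    refine isClosed_iInter (fun y => isClosed_iInter (fun _ => ?_))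
    have h1 : IsClosed ({x | r i ≤ dist x y} ∪
        {x | Est z H π β i.1.1 (q i.1.2.1).1 (q i.1.2.1).2.1 x y}) :=
      (isClosed_le continuous_const (by fun_prop)).union
        (isClosed_est z (lip_continuous hH) (lip_continuous hπ) _ _ _ _ y)
    refine (congrArg IsClosed ?_).mp h1
    ext x
    simp only [mem_union, mem_ofPred_eq]
    rw [← not_lt]
    tauto
  · refine hx.2.2 y hy.1 ?_
    have h1 := dist_triangle_right x y (q i.1.2.1).2.2
    have h2 : dist x (q i.1.2.1).2.2 ≤ r i / 3 := hx.2.1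
    have h3 : dist y (q i.1.2.1).2.2 ≤ r i / 3 := hy.2.1
    have := hr i
    linarith

end Pool.Agent.MP_7f5071_gt

end MrgPart1

-- ======== part 2: formerly Pool.Agent.MP_7f5071_gt.FD.Flow
section MrgPart2

/-! Decomposition of a finite flow into curves. -/

namespace Pool.Agent.MP_7f5071_gt.FD

open Filter Topology Set Metric MeasureTheory

variable {X : Type*} [MetricSpace X] {E : Type} [Fintype E] (a b z : E → X) (r : ℝ)

/-- The length of a chain. -/
noncomputable def len (c : E → ℝ) : ℝ := ∑ e, c e * dist (a e) (b e)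

/-- The discrete line integral along a chain. -/
noncomputable def Sm {N : ℕ} (H : X → V N) (φ : X → ℝ) (c : E → ℝ) : V N :=
  ∑ e, (c e * φ (z e)) • (H (b e) - H (a e))

/-- A quantity approximates the discrete line integrals. -/
def Est (c : E → ℝ) (val : ∀ N : ℕ, (X → V N) → (X → ℝ) → V N) : Prop :=
  ∀ (N : ℕ) (H : X → V N) (L : ℝ) (φ : X → ℝ) (K : ℝ), 0 ≤ L → 0 ≤ K → Lip L H → Lip K φ →
    ‖val N H φ - Sm a b z H φ c‖ ≤ K * r * L * len a b c

/-- The chain is realized by one curve from `u` to `v`. -/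
def Rl (u v : X) (c : E → ℝ) : Prop :=
  ∃ Γ : ℝ → X, LipschitzWith 1 Γ ∧ Γ 0 = u ∧ Γ (len a b c) = v ∧
    Est a b z r c fun _ H φ => LI H φ Γ 0 (len a b c)

/-- The chain is a combination of curves of total weight at most `M`. -/
def Dec (c : E → ℝ) (M : ℝ) : Prop :=
  ∃ (ι : Type) (_ : Fintype ι) (lam : ι → ℝ) (γ : ι → Cv X), (∀ p, 0 ≤ lam p) ∧
    ∑ p, lam p ≤ M ∧ Est a b z r c fun _ H φ => ∑ p, lam p • Cv.J H φ (γ p)

variable {a b z r}

theorem len_add (c c' : E → ℝ) : len a b (c + c') = len a b c + len a b c' := by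
  simp [len, add_mul, Finset.sum_add_distrib]

theorem len_smul (t : ℝ) (c : E → ℝ) : len a b (t • c) = t * len a b c := by
  simp [len, Finset.mul_sum, mul_assoc]

theorem len_nonneg {c : E → ℝ} (h : ∀ e, 0 ≤ c e) : 0 ≤ len a b c :=
  Finset.sum_nonneg fun e _ => mul_nonneg (h e) dist_nonneg

omit [MetricSpace X] in
theorem Sm_add {N : ℕ} (H : X → V N) (φ : X → ℝ) (c c' : E → ℝ) :
    Sm a b z H φ (c + c') = Sm a b z H φ c + Sm a b z H φ c' := by
  simp [Sm, add_mul, add_smul, Finset.sum_add_distrib]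

omit [MetricSpace X] in
theorem Sm_smul {N : ℕ} (H : X → V N) (φ : X → ℝ) (t : ℝ) (c : E → ℝ) :
    Sm a b z H φ (t • c) = t • Sm a b z H φ c := by
  simp [Sm, Finset.smul_sum, mul_assoc, mul_smul]

theorem Est.add {c c' : E → ℝ} {v v'} (h : Est a b z r c v) (h' : Est a b z r c' v') :
    Est a b z r (c + c') fun N H φ => v N H φ + v' N H φ := by
  intro N H L φ K hL hK hH hφ
  have h1 := h N H L φ K hL hK hH hφ
  have h2 := h' N H L φ K hL hK hH hφ
  rw [Sm_add, len_add, mul_add, ← sub_add_sub_comm]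
  exact (norm_add_le _ _).trans (add_le_add h1 h2)

theorem Est.smul {c : E → ℝ} {v} (h : Est a b z r c v) {t : ℝ} (ht : 0 ≤ t) :
    Est a b z r (t • c) fun N H φ => t • v N H φ := by
  intro N H L φ K hL hK hH hφ
  have h1 := h N H L φ K hL hK hH hφ
  rw [Sm_smul, len_smul, ← smul_sub, norm_smul, Real.norm_of_nonneg ht]
  calc _ ≤ t * (K * r * L * len a b c) := mul_le_mul_of_nonneg_left h1 ht
    _ = _ := by ring

theorem Est.congr {c : E → ℝ} {v v'} (h : Est a b z r c v)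
    (he : ∀ (N : ℕ) (H : X → V N) (L : ℝ) (φ : X → ℝ), 0 ≤ L → Lip L H → Continuous φ →
      v' N H φ = v N H φ) : Est a b z r c v' := by
  intro N H L φ K hL hK hH hφ
  rw [he N H L φ hL hH (Lip.cont hK hφ)]
  exact h N H L φ K hL hK hH hφ

theorem Est.null {c : E → ℝ} (h0 : ∀ e, 0 ≤ c e) (h : len a b c = 0) :
    Est a b z r c fun _ _ _ => 0 := by
  intro N H L φ K _ _ _ _
  have h1 := (Finset.sum_eq_zero_iff_of_nonneg
    (fun e _ => mul_nonneg (h0 e) dist_nonneg)).1 h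
  have : Sm a b z H φ c = 0 := by
    refine Finset.sum_eq_zero fun e he => ?_
    rcases mul_eq_zero.1 (h1 e he) with h2 | h2
    · simp [h2]
    · simp [dist_eq_zero.1 h2]
  simp [this, h]

theorem Rl.nil (u : X) : Rl a b z r u u 0 := by
  refine ⟨fun _ => u, (LipschitzWith.const u).weaken zero_le_one, rfl, rfl, ?_⟩
  exact (Est.null (fun _ => le_rfl) (by simp [len])).congr fun N H L φ _ _ _ => LI_const ..

theorem Rl.edge [DecidableEq E] (hg : Geodesic X) (hr : ∀ e, dist (a e) (b e) ≤ r)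
    (hz : ∀ e, z e = a e ∨ z e = b e) (e : E) : Rl a b z r (a e) (b e) (Pi.single e 1) := by
  obtain ⟨Γ, hΓ⟩ := hg (a e) (b e)
  have hl : len a b (Pi.single e 1) = dist (a e) (b e) := by
    simp [len, Pi.single_apply]
  refine ⟨Γ, hΓ.lip, hΓ.src, by rw [hl, hΓ.tgt], ?_⟩
  intro N H L φ K hL hK hH hφ
  have hs : Sm a b z H φ (Pi.single e 1) = φ (z e) • (H (b e) - H (a e)) := by
    simp [Sm, Pi.single_apply]
  have := LI_est hL hH (Lip.cont hK hφ) hΓ.lip (s := 0) (t := dist (a e) (b e)) (c := φ (z e))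
    (ε := K * r) dist_nonneg (fun u hu => by
      refine (hφ _ _).trans (mul_le_mul_of_nonneg_left (le_trans ?_ (hr e)) hK)
      rcases hz e with h | h
      · have := hΓ.lip.dist_le_mul u 0
        rw [hΓ.src, Real.dist_eq, sub_zero, abs_of_nonneg hu.1] at this
        rw [h]; simp only [NNReal.coe_one] at this; linarith [hu.2]
      · have := hΓ.lip.dist_le_mul u (dist (a e) (b e))
        rw [hΓ.tgt, Real.dist_eq, abs_of_nonpos (sub_nonpos.2 hu.2)] at this
        rw [h]; simp only [NNReal.coe_one] at this; linarith [hu.1])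
  rw [hΓ.src, hΓ.tgt, sub_zero] at this
  simp only [hs, hl]
  exact this

theorem Rl.trans {u v y : X} {c c' : E → ℝ} (h : Rl a b z r u v c) (h' : Rl a b z r v y c')
    (h0 : 0 ≤ len a b c) (h0' : 0 ≤ len a b c') : Rl a b z r u y (c + c') := by
  obtain ⟨Γ, l1, s1, t1, e1⟩ := h
  obtain ⟨Γ', l2, s2, t2, e2⟩ := h'
  set l := len a b c with hl
  let G : ℝ → X := fun t => if t ≤ l then Γ t else Γ' (t - l)
  have key : ∀ s t, s ≤ t → dist (G s) (G t) ≤ t - s := by
    intro s t hst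
    have d1 : ∀ s t, s ≤ t → dist (Γ s) (Γ t) ≤ t - s := fun s t hst => by
      have := l1.dist_le_mul s t
      rwa [Real.dist_eq, abs_of_nonpos (sub_nonpos.2 hst), NNReal.coe_one, one_mul,
        neg_sub] at this
    have d2 : ∀ s t, s ≤ t → dist (Γ' s) (Γ' t) ≤ t - s := fun s t hst => by
      have := l2.dist_le_mul s t
      rwa [Real.dist_eq, abs_of_nonpos (sub_nonpos.2 hst), NNReal.coe_one, one_mul,
        neg_sub] at this
    simp only [G]
    split_ifs with p q q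
    · exact d1 s t hst
    · have a1 := d1 s l p
      have a2 := d2 0 (t - l) (by linarith)
      rw [t1] at a1
      rw [s2] at a2
      linarith [dist_triangle (Γ s) v (Γ' (t - l))]
    · exact absurd (hst.trans q) p
    · linarith [d2 (s - l) (t - l) (by linarith)]
  have hG : LipschitzWith 1 G := LipschitzWith.of_dist_le_mul fun s t => by
    rw [NNReal.coe_one, one_mul, Real.dist_eq]
    rcases le_total s t with h | h
    · rw [abs_sub_comm, abs_of_nonneg (sub_nonneg.2 h)]; exact key s t h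
    · rw [dist_comm, abs_of_nonneg (sub_nonneg.2 h)]; exact key t s h
  refine ⟨G, hG, by simp [G, h0, s1], ?_, (e1.add e2).congr fun N H L φ hL hH hφ => ?_⟩
  · rw [len_add, ← hl]
    simp only [G]
    split_ifs with p
    · have : len a b c' = 0 := by linarith
      rw [this] at t2
      rw [this, add_zero, t1, ← s2, t2]
    · rw [add_sub_cancel_left, t2]
  · rw [len_add, ← hl, ← LI_add hL hH hφ hG 0 l]
    have a1 : LI H φ G 0 l = LI H φ Γ (0 + 0) (l + 0) :=
      LI_congr H φ h0 fun u hu => by simp [G, hu.2.le]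
    have a2 : LI H φ G l (l + len a b c') = LI H φ Γ' (l + -l) (l + len a b c' + -l) :=
      LI_congr H φ (by linarith) fun u hu => by simp [G, not_le.2 hu.1, sub_eq_add_neg]
    rw [a1, a2]
    simp

theorem Rl.rep {u : X} {c : E → ℝ} (h : Rl a b z r u u c) (h0 : 0 ≤ len a b c) (n : ℕ) :
    Rl a b z r u u ((n : ℝ) • c) := by
  induction n with
  | zero => simpa using Rl.nil u
  | succ n ih =>
    rw [Nat.cast_succ, add_smul, one_smul]
    exact ih.trans h (by rw [len_smul]; positivity) h0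

theorem Dec.mono {c : E → ℝ} {M M' : ℝ} (h : Dec a b z r c M) (hM : M ≤ M') :
    Dec a b z r c M' := by
  obtain ⟨ι, _, lam, γ, h1, h2, h3⟩ := h
  exact ⟨ι, _, lam, γ, h1, h2.trans hM, h3⟩

theorem Dec.null {c : E → ℝ} (h0 : ∀ e, 0 ≤ c e) (h : len a b c = 0) : Dec a b z r c 0 :=
  ⟨Empty, inferInstance, Empty.elim, Empty.elim, fun p => p.elim, by simp,
    (Est.null h0 h).congr fun _ _ _ _ _ _ _ => by simp⟩

theorem Dec.add {c c' : E → ℝ} {M M' : ℝ} (h : Dec a b z r c M) (h' : Dec a b z r c' M') :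
    Dec a b z r (c + c') (M + M') := by
  obtain ⟨ι, _, lam, γ, h1, h2, h3⟩ := h
  obtain ⟨ι', _, lam', γ', h1', h2', h3'⟩ := h'
  refine ⟨ι ⊕ ι', inferInstance, Sum.elim lam lam', Sum.elim γ γ', ?_, ?_,
    (h3.add h3').congr fun _ _ _ _ _ _ _ => by simp⟩
  · rintro (p | p)
    exacts [h1 p, h1' p]
  · simpa using add_le_add h2 h2'

theorem Dec.smul {c : E → ℝ} {M t : ℝ} (h : Dec a b z r c M) (ht : 0 ≤ t) :
    Dec a b z r (t • c) (t * M) := by
  obtain ⟨ι, _, lam, γ, h1, h2, h3⟩ := h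
  refine ⟨ι, inferInstance, fun p => t * lam p, γ, fun p => mul_nonneg ht (h1 p), ?_,
    (h3.smul ht).congr fun _ _ _ _ _ _ _ => by simp [Finset.smul_sum, mul_smul]⟩
  rw [← Finset.mul_sum]
  exact mul_le_mul_of_nonneg_left h2 ht

theorem Rl.dec {u v : X} {c : E → ℝ} (h : Rl a b z r u v c) (h0 : 0 ≤ len a b c) :
    Dec a b z r c (len a b c + 1) := by
  obtain ⟨Γ, l1, -, -, e1⟩ := h
  set l := len a b c with hl
  let G : ℝ → X := fun t => Γ (min t l)
  have hG : LipschitzWith 1 G := by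
    have := l1.comp (LipschitzWith.id.min_const l)
    rw [mul_one] at this
    exact this
  have hk : ∀ k : ℝ, LipschitzWith 1 fun t : unitInterval => G (t + k) := fun k =>
    LipschitzWith.of_dist_le_mul fun s t => by
      have := hG.dist_le_mul (s + k) (t + k)
      rwa [dist_add_right] at this
  let γ : ℕ → Cv X := fun k => ⟨⟨fun t => G (t + k), (hk k).continuous⟩, hk k⟩
  refine ⟨Fin ⌈l⌉₊, inferInstance, fun _ => 1, fun p => γ p, fun _ => zero_le_one, ?_,
    e1.congr fun N H L φ hL hH hφ => ?_⟩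
  · simpa using (Nat.ceil_lt_add_one h0).le
  · have a1 : ∀ k : ℕ, Cv.J H φ (γ k) = LI H φ G k ((k + 1 : ℕ) : ℝ) := fun k => by
      rw [J_eq, LI_congr H φ (Γ' := G) (k := k) zero_le_one fun u hu => by
        simp [γ, Cv.ext, projIcc_of_mem _ (Ioo_subset_Icc_self hu)]]
      push_cast
      rw [zero_add, add_comm]
    simp only [one_smul, a1]
    rw [Fin.sum_univ_eq_sum_range (fun k => LI H φ G k ((k + 1 : ℕ) : ℝ)),
      LI_sum hL hH hφ hG (fun k => (k : ℝ)), Nat.cast_zero, ← LI_add hL hH hφ hG 0 l]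
    have a2 : LI H φ G 0 l = LI H φ Γ (0 + 0) (l + 0) :=
      LI_congr H φ h0 fun u hu => by simp [G, hu.2.le]
    have a3 : LI H φ G l ⌈l⌉₊ = LI H φ (fun _ => Γ l) (l + 0) (⌈l⌉₊ + 0) :=
      LI_congr H φ (Nat.le_ceil l) fun u hu => by simp [G, hu.1.le]
    rw [a2, a3, LI_const]
    simp

theorem Rl.dec_closed {u : X} {c : E → ℝ} (h : Rl a b z r u u c) (h0 : ∀ e, 0 ≤ c e) :
    Dec a b z r c (2 * len a b c) := by
  rcases (len_nonneg (a := a) (b := b) h0).eq_or_lt with hl | hl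
  · rw [← hl, mul_zero]; exact Dec.null h0 hl.symm
  set n := ⌈1 / len a b c⌉₊
  have hn : 1 / len a b c ≤ n := Nat.le_ceil _
  have hn0 : (0 : ℝ) < n := lt_of_lt_of_le (by positivity) hn
  have h1 := ((h.rep hl.le n).dec (by rw [len_smul]; positivity)).smul (inv_nonneg.2 hn0.le)
  rw [smul_smul, inv_mul_cancel₀ hn0.ne', one_smul, len_smul] at h1
  refine h1.mono ?_
  rw [div_le_iff₀ hl] at hn
  rw [inv_mul_le_iff₀ hn0]
  linarith

end Pool.Agent.MP_7f5071_gt.FD

end MrgPart2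

-- ======== part 3: formerly Pool.Agent.MP_7f5071_gt.FD.Main
section MrgPart3

/-! The flow decomposition theorem. -/

namespace Pool.Agent.MP_7f5071_gt

universe u

namespace FD

open Filter Topology Set Metric MeasureTheory

variable {X : Type*} [MetricSpace X] {E : Type} [Fintype E] (a b z : E → X) (r : ℝ)

/-- A walk from `u` to `v` in the support of `w`, with edge counts `c`. -/
structure Wk (w : E → ℝ) (u v : X) (c : E → ℝ) : Prop where
  nn : ∀ e, 0 ≤ c e
  sup : ∀ e, c e ≠ 0 → 0 < w e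
  dv : ∀ f : X → ℝ, ∑ e, c e * (f (b e) - f (a e)) = f v - f u
  rl : Rl a b z r u v c

/-- The positive divergence of `w` is at most `D`. -/
def Dv (w : E → ℝ) (D : ℝ) : Prop :=
  ∀ f : X → ℝ, (∀ p, f p ∈ Icc (0 : ℝ) 1) → ∑ e, w e * (f (b e) - f (a e)) ≤ D

variable {a b z r}

theorem Wk.trans {w : E → ℝ} {u v y : X} {c c' : E → ℝ} (h : Wk a b z r w u v c)
    (h' : Wk a b z r w v y c') : Wk a b z r w u y (c + c') where
  nn e := add_nonneg (h.nn e) (h'.nn e)
  sup e he := by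
    by_cases h1 : c e = 0
    · exact h'.sup e (by simpa [h1] using he)
    · exact h.sup e h1
  dv f := by
    simp only [Pi.add_apply, add_mul, Finset.sum_add_distrib, h.dv, h'.dv]
    ring
  rl := h.rl.trans h'.rl (len_nonneg h.nn) (len_nonneg h'.nn)

theorem Wk.edge [DecidableEq E] (hg : Geodesic X) (hr : ∀ e, dist (a e) (b e) ≤ r)
    (hz : ∀ e, z e = a e ∨ z e = b e) {w : E → ℝ} {e : E} (he : 0 < w e) :
    Wk a b z r w (a e) (b e) (Pi.single e 1) where
  nn e' := by rw [Pi.single_apply]; split_ifs <;> simp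
  sup e' h := by
    rw [Pi.single_apply] at h
    split_ifs at h with h1
    · rwa [h1]
    · exact absurd rfl h
  dv f := by simp [Pi.single_apply]
  rl := Rl.edge hg hr hz e

theorem exists_walk (hg : Geodesic X) (hr : ∀ e, dist (a e) (b e) ≤ r)
    (hz : ∀ e, z e = a e ∨ z e = b e) {w : E → ℝ} {e0 : E} (h0 : 0 < w e0) :
    ∃ u v c e, Wk a b z r w u v c ∧ 0 < c e ∧
      (u = v ∨ ∀ e, 0 < w e → a e ≠ v ∧ b e ≠ u) := by
  classical
  let S : E → E → Prop := fun e e' => 0 < w e ∧ 0 < w e' ∧ b e = a e'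
  have walk : ∀ e e', 0 < w e → Relation.ReflTransGen S e e' →
      0 < w e' ∧ ∃ c, Wk a b z r w (a e) (b e') c ∧ 0 < c e := by
    intro e e' he h
    induction h with
    | refl => exact ⟨he, _, Wk.edge hg hr hz he, by simp⟩
    | @tail e1 e2 _ h2 ih =>
      obtain ⟨-, c, hc, hc'⟩ := ih
      have h3 := Wk.edge hg hr hz h2.2.1
      rw [← h2.2.2] at h3
      exact ⟨h2.2.1, _, hc.trans h3, add_pos_of_pos_of_nonneg hc' (h3.nn e)⟩
  by_cases hcyc : ∃ e, Relation.TransGen S e e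
  · obtain ⟨e, he⟩ := hcyc
    obtain ⟨e', h1, h2⟩ := Relation.TransGen.tail'_iff.1 he
    obtain ⟨-, c, hc, hc'⟩ := walk e e' h2.2.1 h1
    exact ⟨_, _, c, e, hc, hc', Or.inl h2.2.2.symm⟩
  · have : Std.Irrefl (Relation.TransGen S) := ⟨fun e he => hcyc ⟨e, he⟩⟩
    have : Std.Irrefl (Function.swap (Relation.TransGen S)) := ⟨fun e he => hcyc ⟨e, he⟩⟩
    have : IsTrans E (Function.swap (Relation.TransGen S)) :=
      ⟨fun _ _ _ h h' => Relation.TransGen.trans h' h⟩
    have w1 := Finite.wellFounded_of_trans_of_irrefl (Relation.TransGen S)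
    have w2 := Finite.wellFounded_of_trans_of_irrefl (Function.swap (Relation.TransGen S))
    obtain ⟨e1, h1, m1⟩ := w1.has_min {e | 0 < w e} ⟨e0, h0⟩
    obtain ⟨e2, h2, m2⟩ := w2.has_min {e | Relation.ReflTransGen S e1 e} ⟨e1, .refl⟩
    obtain ⟨h3, c, hc, hc'⟩ := walk e1 e2 h1 h2
    refine ⟨_, _, c, e1, hc, hc', Or.inr fun e he => ⟨fun h => ?_, fun h => ?_⟩⟩
    · exact m2 e (h2.tail ⟨h3, he, h.symm⟩) (.single ⟨h3, he, h.symm⟩)
    · exact m1 e he (.single ⟨he, h1, h⟩)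

theorem decomp (hg : Geodesic X) (hr : ∀ e, dist (a e) (b e) ≤ r)
    (hz : ∀ e, z e = a e ∨ z e = b e) (n : ℕ) : ∀ (w : E → ℝ) (D : ℝ), (∀ e, 0 ≤ w e) →
    {e | 0 < w e}.ncard ≤ n → Dv a b w D → Dec a b z r w (2 * len a b w + D) := by
  classical
  have base : ∀ (w : E → ℝ) (D : ℝ), (∀ e, 0 ≤ w e) → (¬ ∃ e, 0 < w e) → Dv a b w D →
      Dec a b z r w (2 * len a b w + D) := by
    intro w D h0 h1 h2
    have hw : ∀ e, w e = 0 := fun e => le_antisymm (not_lt.1 fun h => h1 ⟨e, h⟩) (h0 e)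
    have hl : len a b w = 0 := by simp [len, hw]
    have := h2 (fun _ => 0) (by simp)
    refine (Dec.null h0 hl).mono ?_
    simp only [sub_self, mul_zero, Finset.sum_const_zero] at this
    linarith
  induction n with
  | zero =>
    intro w D h0 h1 h2
    refine base w D h0 ?_ h2
    rintro ⟨e, he⟩
    have : 0 < {e | 0 < w e}.ncard := (ncard_pos (toFinite _)).2 ⟨e, he⟩
    omega
  | succ n ih =>
    intro w D h0 h1 h2
    by_cases hne : ∃ e, 0 < w e
    swap
    · exact base w D h0 hne h2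
    obtain ⟨e0, he0⟩ := hne
    obtain ⟨u, v, c, e1, hc, hc1, hd⟩ := exists_walk hg hr hz he0
    obtain ⟨e2, h21, h22⟩ := exists_min_image {e | 0 < c e} (fun e => w e / c e) (toFinite _)
      ⟨e1, hc1⟩
    set t := w e2 / c e2 with ht
    have ht0 : 0 ≤ t := div_nonneg (h0 _) (hc.nn _)
    let w' : E → ℝ := fun e => w e - t * c e
    have hw : w = w' + t • c := by ext e; simp [w']
    have hw0 : ∀ e, 0 ≤ w' e := by
      intro e
      rcases (hc.nn e).eq_or_lt with h | h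
      · simp [w', ← h, h0 e]
      · have := h22 e h
        rw [le_div_iff₀ h] at this
        simp only [w']; linarith
    have hle : ∀ e, 0 < w' e → 0 < w e := fun e he => by
      have := mul_nonneg ht0 (hc.nn e)
      simp only [w'] at he; linarith
    have hcard : {e | 0 < w' e}.ncard ≤ n := by
      have h3 : {e | 0 < w' e} ⊂ {e | 0 < w e} := by
        refine ⟨hle, fun h => ?_⟩
        have h4 : 0 < w' e2 := h (hc.sup e2 (ne_of_gt h21))
        have h5 : (0 : ℝ) < c e2 := h21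
        simp only [w', ht] at h4
        rw [div_mul_cancel₀ _ h5.ne'] at h4
        linarith
      have := ncard_lt_ncard h3 (toFinite _)
      omega
    have hsum : ∀ f : X → ℝ, ∑ e, w' e * (f (b e) - f (a e)) =
        ∑ e, w e * (f (b e) - f (a e)) - t * (f v - f u) := by
      intro f
      rw [← hc.dv f, Finset.mul_sum, ← Finset.sum_sub_distrib]
      exact Finset.sum_congr rfl fun e _ => by simp only [w']; ring
    have hlen : len a b w = len a b w' + t * len a b c := by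
      conv_lhs => rw [hw]
      rw [len_add, len_smul]
    by_cases huv : u = v
    · subst huv
      have d1 := ih w' D hw0 hcard fun f hf => by rw [hsum]; simpa using h2 f hf
      have d2 := (hc.rl.dec_closed hc.nn).smul ht0
      have d3 := d1.add d2
      rw [← hw] at d3
      exact d3.mono (by rw [hlen]; linarith)
    · have hd' := hd.resolve_left huv
      have d1 := ih w' (D - t) hw0 hcard fun f hf => by
        let g : X → ℝ := fun p => if p = v then 1 else if p = u then 0 else f p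
        have hg : ∀ p, g p ∈ Icc (0 : ℝ) 1 := fun p => by
          simp only [g]; split_ifs
          exacts [by simp, by simp, hf p]
        have h5 := h2 g hg
        have h6 := hsum g
        have h7 : g v - g u = 1 := by simp [g, huv]
        have h8 : ∑ e, w' e * (f (b e) - f (a e)) ≤ ∑ e, w' e * (g (b e) - g (a e)) := by
          refine Finset.sum_le_sum fun e _ => ?_
          rcases (hw0 e).eq_or_lt with h | h
          · simp [← h]
          · obtain ⟨p1, p2⟩ := hd' e (hle e h)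
            refine mul_le_mul_of_nonneg_left (sub_le_sub ?_ ?_) h.le
            · simp only [g, p2, if_false]; split_ifs
              exacts [(hf _).2, le_rfl]
            · simp only [g, p1, if_false]; split_ifs
              exacts [(hf _).1, le_rfl]
        rw [h7] at h6
        linarith
      have d2 := (hc.rl.dec (len_nonneg hc.nn)).smul ht0
      have d3 := d1.add d2
      rw [← hw] at d3
      have := mul_nonneg ht0 (len_nonneg (a := a) (b := b) hc.nn)
      exact d3.mono (by rw [hlen]; linarith)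

end FD

open FD in
theorem fd : FDStmt.{u} := by
  intro X _ _ hg E _ x y w r hr0 hr hm hd
  classical
  let a : E → X := fun e => if 0 ≤ w e then y e else x e
  let b : E → X := fun e => if 0 ≤ w e then x e else y e
  have hdist : ∀ e, dist (a e) (b e) = dist (x e) (y e) := fun e => by
    simp only [a, b]; split_ifs
    exacts [dist_comm _ _, rfl]
  have hsg : ∀ {G : Type} [AddCommGroup G] [Module ℝ G] (f : X → G) (e : E) (s : ℝ),
      (|w e| * s) • (f (b e) - f (a e)) = (w e * s) • (f (x e) - f (y e)) := by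
    intro G _ _ f e s
    simp only [a, b]; split_ifs with h
    · rw [abs_of_nonneg h]
    · rw [abs_of_neg (not_le.1 h), neg_mul, neg_smul, ← smul_neg, neg_sub]
  have hl : len a b (fun e => |w e|) ≤ 1 := by simpa only [len, hdist] using hm
  have hD : Dv a b (fun e => |w e|) 1 := fun f hf => by
    have h1 := hd f fun p => by rw [abs_of_nonneg (hf p).1]; exact (hf p).2
    refine le_trans (le_of_eq (Finset.sum_congr rfl fun e _ => ?_)) ((le_abs_self _).trans h1)
    simpa using hsg f e 1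
  obtain ⟨ι, _, lam, γ, h1, h2, h3⟩ := decomp (a := a) (b := b) (z := x) (r := r) hg
    (fun e => (hdist e).trans_le (hr e)) (fun e => by simp only [a, b]; split_ifs <;> simp)
    _ (fun e => |w e|) 1 (fun e => abs_nonneg _) le_rfl hD
  let q := (Fintype.equivFin ι).symm
  refine ⟨Fintype.card ι, fun p => lam (q p), fun p => γ (q p), fun p => h1 _, ?_, ?_⟩
  · rw [q.sum_comp lam]; linarith
  · intro N H L φ K hL hK hH hφ
    have h4 := h3 N H L φ K hL hK hH hφ
    rw [q.sum_comp fun p => lam p • Cv.J H φ (γ p)]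
    simp only [Sm, hsg] at h4
    refine h4.trans ?_
    have h5 : 0 ≤ K * r * L := by positivity
    nlinarith [mul_le_mul_of_nonneg_left hl h5]

end Pool.Agent.MP_7f5071_gt

end MrgPart3

-- ======== part 4: formerly Pool.Agent.MP_7f5071_gt.FP.Key
section MrgPart4

/-! The dual estimate for the module FP. -/

namespace Pool.Agent.MP_7f5071_gt.FP

open Filter Topology Set Metric

universe u

section Defs

variable {X : Type*} [MetricSpace X] {N : ℕ} {ι : Type}

/-- The admissible edges of a ball or of a core. -/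
def Rel (I : ι → Set X) (r : ℝ) : X ⊕ ι → X → X → Prop
  | Sum.inl x, y, y' => y ∈ ball x r ∧ y' ∈ ball x r
  | Sum.inr j, y, y' => y ∈ I j ∧ y' ∈ I j ∧ dist y y' ≤ r

/-- The admissible operators of a ball or of a core. -/
def Adm (N : ℕ) (C : ι → Set X) (r : ℝ) (F : Finset ι) : X ⊕ ι → Set (V N →L[ℝ] V N)
  | Sum.inl x => {T | ‖T‖ ≤ 1 ∧ ((∃ y ∈ ball x r, ∀ j ∈ F, y ∉ C j) → Nuc T)}
  | Sum.inr _ => {T | ‖T‖ ≤ 1}

/-- The admissible displacements at a point. -/
def Dir (H : X → V N) (η : ℝ) (x : X) : Set (V N) :=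
  {u | u ∈ vectorSpan ℝ (H '' ball x η) ∧ ‖u‖ ≤ η}

theorem Rel.dist_le {I : ι → Set X} {r : ℝ} (hr : 0 < r) {q : X ⊕ ι} {y y' : X}
    (h : Rel I r q y y') : dist y y' ≤ 2 * r := by
  cases q with
  | inl x =>
    obtain ⟨h1, h2⟩ := h
    have := dist_triangle_right y y' x
    have := mem_ball.1 h1
    have := mem_ball.1 h2
    linarith
  | inr j =>
    obtain ⟨-, -, h3⟩ := h
    linarith

theorem prod_diff {n : ℕ} {z z' Λ κ : ℝ} {φ φ' : Fin n → ℝ} (hz : |z - z'| ≤ Λ * κ)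
    (h0 : 0 ≤ z') (h1 : z' ≤ 1) (hφ0 : ∀ α, 0 ≤ φ α) (hφ1 : ∑ α, φ α ≤ 1)
    (hφ : ∑ α, |φ α - φ' α| ≤ κ) : ∑ α, |z * φ α - z' * φ' α| ≤ (Λ + 1) * κ := by
  have e1 : ∀ α, |z * φ α - z' * φ' α| ≤ |z - z'| * φ α + |φ α - φ' α| := by
    intro α
    have : z * φ α - z' * φ' α = (z - z') * φ α + z' * (φ α - φ' α) := by ring
    rw [this]
    refine (abs_add_le _ _).trans ?_
    rw [abs_mul, abs_mul, abs_of_nonneg (hφ0 α), abs_of_nonneg h0]
    have := mul_le_of_le_one_left (abs_nonneg (φ α - φ' α)) h1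
    linarith
  refine (Finset.sum_le_sum fun α _ => e1 α).trans ?_
  rw [Finset.sum_add_distrib, ← Finset.mul_sum]
  have := mul_le_of_le_one_right (abs_nonneg (z - z')) hφ1
  linarith

theorem abs_coord (u : V N) (m : Fin N) : |u m| ≤ ‖u‖ := norm_le_pi_norm u m

theorem mass_mul {E : Type*} [Fintype E] {w d : E → ℝ} (h : ∑ e, w e * d e = 1) (c : ℝ) :
    c = ∑ e, w e * (c * d e) := by
  have : ∑ e, w e * (c * d e) = c * ∑ e, w e * d e := by
    rw [Finset.mul_sum]
    exact Finset.sum_congr rfl fun e _ => by ring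
  rw [this, h, mul_one]

theorem coord_le {P : V N →L[ℝ] V N} {C0 : ℝ} (hP : ‖P‖ ≤ C0) (β : Fin N) :
    ‖P (Pi.single β 1)‖ ≤ C0 := by
  have h1 := P.le_opNorm (Pi.single β 1)
  rw [Pi.norm_single, norm_one, mul_one] at h1
  linarith

/-- The divergence of a localized scalar flow. -/
theorem div_bound {H : X → V N} {η L Λ C0 : ℝ} (hη : 0 < η) (hC0 : 1 ≤ C0) (hL : 0 ≤ L)
    (hΛ : 0 ≤ Λ) {ζ : X → ℝ} (hζ0 : ∀ x, 0 ≤ ζ x) (hζ1 : ∀ x, ζ x ≤ 1)
    (hζl : ∀ x x', |ζ x - ζ x'| ≤ Λ * dist x x') {b : V N} (hb : ‖b‖ ≤ C0)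
    (hbW : ∀ x, ζ x ≠ 0 → b ∈ vectorSpan ℝ (H '' ball x η))
    {E : Type*} [Fintype E] {y y' : E → X} {m : E → Fin N} {w : E → ℝ} (hw : ∀ e, 0 ≤ w e)
    (hmass : ∑ e, w e * dist (y e) (y' e) = 1)
    (hdiv : ∀ g : X → V N, (∀ x, g x ∈ Dir H η x) →
      |∑ e, w e * (g (y e) - g (y' e)) (m e)| ≤ L)
    (f : X → ℝ) (hf : ∀ p, |f p| ≤ 1) :
    |∑ e, w e * ζ (y e) / (C0 * (1 + L / η + Λ)) * b (m e) * (f (y e) - f (y' e))| ≤ 1 := by
  have hC : 0 < C0 := by linarith
  have hLη : 0 ≤ L / η := div_nonneg hL hη.le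
  set c0 := C0 * (1 + L / η + Λ) with hc0
  have hc0p : 0 < c0 := by positivity
  have hg : ∀ x, (f x * ζ x * (η / C0)) • b ∈ Dir H η x := by
    intro x
    refine ⟨?_, ?_⟩
    · by_cases h : ζ x = 0
      · simp [h]
      · exact Submodule.smul_mem _ _ (hbW x h)
    · rw [norm_smul, Real.norm_eq_abs, abs_mul, abs_mul, abs_of_nonneg (hζ0 x),
        abs_of_pos (div_pos hη hC)]
      have h1 : |f x| * ζ x ≤ 1 := mul_le_one₀ (hf x) (hζ0 x) (hζ1 x)
      have h2 : η / C0 * ‖b‖ ≤ η := by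
        rw [div_mul_eq_mul_div, div_le_iff₀ hC]
        exact mul_le_mul_of_nonneg_left hb hη.le
      have h3 : 0 ≤ η / C0 * ‖b‖ := by positivity
      calc |f x| * ζ x * (η / C0) * ‖b‖ = (|f x| * ζ x) * (η / C0 * ‖b‖) := by ring
        _ ≤ 1 * η := mul_le_mul h1 h2 h3 zero_le_one
        _ = η := one_mul _
  have h1 := hdiv _ hg
  set S1 := ∑ e, w e * ((f (y e) * ζ (y e) * (η / C0)) • b -
    (f (y' e) * ζ (y' e) * (η / C0)) • b) (m e) with hS1
  set S2 := ∑ e, w e * (b (m e) * f (y' e) * (ζ (y e) - ζ (y' e))) with hS2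
  have h2 : |S2| ≤ C0 * Λ := by
    refine (Finset.abs_sum_le_sum_abs _ _).trans ?_
    have : C0 * Λ = ∑ e, w e * (C0 * 1 * (Λ * dist (y e) (y' e))) :=
      (mass_mul hmass (C0 * Λ)).trans (Finset.sum_congr rfl fun e _ => by ring)
    rw [this]
    refine Finset.sum_le_sum fun e _ => ?_
    rw [abs_mul, abs_of_nonneg (hw e), abs_mul, abs_mul]
    refine mul_le_mul_of_nonneg_left ?_ (hw e)
    have h3 : |b (m e)| ≤ C0 := le_trans (abs_coord b (m e)) hb
    exact mul_le_mul (mul_le_mul h3 (hf _) (abs_nonneg _) hC.le) (hζl _ _) (abs_nonneg _)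
      (by positivity)
  have e1 : ∑ e, w e * ζ (y e) / c0 * b (m e) * (f (y e) - f (y' e)) =
      (C0 / η * S1 - S2) / c0 := by
    rw [hS1, hS2, Finset.mul_sum, ← Finset.sum_sub_distrib, Finset.sum_div]
    refine Finset.sum_congr rfl fun e _ => ?_
    simp only [Pi.sub_apply, Pi.smul_apply, smul_eq_mul]
    field_simp
    ring
  rw [e1, abs_div, abs_of_pos hc0p, div_le_one hc0p]
  refine (abs_sub _ _).trans ?_
  rw [abs_mul, abs_of_pos (div_pos hC hη)]
  have h4 : C0 / η * |S1| ≤ C0 / η * L := mul_le_mul_of_nonneg_left h1 (div_pos hC hη).le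
  have h5 : c0 = C0 + C0 / η * L + C0 * Λ := by rw [hc0]; field_simp
  linarith

end Defs

/-- A vector flow of mass one with bounded divergence is almost annihilated by admissible
operators. -/
theorem key (h : UStmt.{u}) (X : Type u) [MetricSpace X] [CompactSpace X] (hX : IsDisc X)
    (N : ℕ) (H : X → V N) (L : ℝ) (hL : 0 ≤ L) (hH : Lip L H) (ι : Type) (I C : ι → Set X)
    (hc : Cores I C) {ε η : ℝ} (hε : 0 < ε) (hη : 0 < η) :
    ∃ r > 0, ∃ F : Finset ι, ∀ (E : Type) [Fintype E] (p : E → X ⊕ ι) (y y' : E → X)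
      (m : E → Fin N) (w : E → ℝ), (∀ e, Rel I r (p e) (y e) (y' e)) → (∀ e, 0 ≤ w e) →
      ∑ e, w e * dist (y e) (y' e) = 1 →
      (∀ g : X → V N, (∀ x, g x ∈ Dir H η x) → |∑ e, w e * (g (y e) - g (y' e)) (m e)| ≤ L) →
      ∃ T : X ⊕ ι → V N →L[ℝ] V N, (∀ q, T q ∈ Adm N C r F q) ∧
        ∑ e, w e * ((H (y e) - H (y' e)) - T (p e) (H (y e) - H (y' e))) (m e) < ε := by
  classical
  obtain ⟨A, s, ζ, Λ, hΛ, hζ0, hζ1, hζs, hζl⟩ := pou (X := X) (ρ := η / 4) (by positivity)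
  have hζle : ∀ a x, ζ a x ≤ 1 := fun a x => by
    rw [← hζ1 x]
    exact Finset.single_le_sum (f := fun a => ζ a x) (fun a _ => hζ0 a x) (Finset.mem_univ a)
  let W : Fin A → Submodule ℝ (V N) := fun a => vectorSpan ℝ (H '' ball (s a) (η / 2))
  choose P hPW hP using fun a => exists_proj (W a)
  set C0 : ℝ := 1 + ∑ a, ‖P a‖ with hC0
  have hsum0 : 0 ≤ ∑ a, ‖P a‖ := Finset.sum_nonneg fun a _ => norm_nonneg _
  have hC1 : 1 ≤ C0 := by linarith
  have hPC : ∀ a, ‖P a‖ ≤ C0 := fun a => by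
    have := Finset.single_le_sum (f := fun a => ‖P a‖) (fun a _ => norm_nonneg _)
      (Finset.mem_univ a)
    linarith
  have hLη : 0 ≤ L / η := div_nonneg hL hη.le
  set c0 : ℝ := C0 * (1 + L / η + Λ) with hc0
  have hc0p : 0 < c0 := by positivity
  have hCc : C0 ≤ c0 := le_mul_of_one_le_right (by linarith) (by linarith)
  set M : ℝ := A * (2 * L * (Λ + 1) + 2 * C0 * c0) with hM
  have hM0 : 0 ≤ M := by positivity
  set κ : ℝ := ε / (M + 1) with hκ
  have hκ0 : 0 < κ := by positivity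
  have hMκ : M * κ < ε := by
    have : (M + 1) * κ = ε := by rw [hκ]; field_simp
    linarith
  obtain ⟨r0, hr0, F, hU⟩ := h X hX N H L hL hH ι I C hc N κ hκ0
  set r : ℝ := min (r0 / 2) (min (κ / 2) (η / 8)) with hr
  have hrp : 0 < r := by positivity
  have hr1 : r ≤ r0 / 2 := min_le_left _ _
  have hr2 : r ≤ κ / 2 := (min_le_right _ _).trans (min_le_left _ _)
  have hr3 : r ≤ η / 8 := (min_le_right _ _).trans (min_le_right _ _)
  refine ⟨r, hrp, F, fun E _ p y y' m w hR hw hmass hdiv => ?_⟩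
  have hd : ∀ e, dist (y e) (y' e) ≤ 2 * r := fun e => (hR e).dist_le hrp
  have hWle : ∀ a x, ζ a x ≠ 0 → W a ≤ vectorSpan ℝ (H '' ball x η) := by
    intro a x hx
    refine vectorSpan_mono ℝ (image_mono fun z hz => ?_)
    have h1 := hζs a x hx
    have h2 := mem_ball.1 hz
    have h3 := dist_triangle_right z x (s a)
    rw [mem_ball]
    linarith
  have hUa := fun a : Fin A => hU E y y'
    (fun β e => w e * ζ a (y e) / c0 * P a (Pi.single β 1) (m e))
    (fun e => by linarith [hd e])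
    (fun β => by
      refine le_trans (Finset.sum_le_sum fun e _ =>
        mul_le_mul_of_nonneg_right ?_ dist_nonneg) hmass.le
      have h1 : |P a (Pi.single β 1) (m e)| ≤ C0 :=
        le_trans (abs_coord _ (m e)) (coord_le (hPC a) β)
      have h2 : 0 ≤ w e * ζ a (y e) / c0 := div_nonneg (mul_nonneg (hw e) (hζ0 _ _)) hc0p.le
      rw [abs_mul, abs_of_nonneg h2]
      calc w e * ζ a (y e) / c0 * |P a (Pi.single β 1) (m e)|
          ≤ w e * ζ a (y e) / c0 * c0 := mul_le_mul_of_nonneg_left (h1.trans hCc) h2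
        _ = w e * ζ a (y e) := by field_simp
        _ ≤ w e := mul_le_of_le_one_right (hw e) (hζle _ _))
    (fun β f hf => div_bound hη hC1 hL hΛ (hζ0 a) (hζle a) (hζl a) (coord_le (hPC a) β)
      (fun x hx => hWle a x hx (hPW a _)) hw hmass hdiv f hf)
  choose n φ τ v hφ0 hφ1 hφO hφr hφI hφκ using hUa
  choose Tn hTn hTW hTv using fun a α => exists_nucT (W a) (τ a α) (hPW a (v a α))
  let TT : (Σ a : Fin A, Fin (n a)) → V N →L[ℝ] V N := fun j => Tn j.1 j.2
  let cf : X → (Σ a : Fin A, Fin (n a)) → ℝ := fun x j => ζ j.1 x * φ j.1 j.2 x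
  have hTT : ∀ j, ‖TT j‖ ≤ 1 := fun j => nuc_norm (hTn j.1 j.2)
  have hcf0 : ∀ x j, 0 ≤ cf x j := fun x j => mul_nonneg (hζ0 _ _) (hφ0 _ _ _)
  have hcfs : ∀ x, ∑ j, cf x j = ∑ a, ζ a x * ∑ α, φ a α x := by
    intro x
    rw [Fintype.sum_sigma]
    exact Finset.sum_congr rfl fun a _ => by rw [Finset.mul_sum]
  have hcf1 : ∀ x, ∑ j, cf x j ≤ 1 := by
    intro x
    rw [hcfs, ← hζ1 x]
    exact Finset.sum_le_sum fun a _ => mul_le_of_le_one_right (hζ0 _ _) (hφ1 a x)
  have hcfO : ∀ x, (∀ j ∈ F, x ∉ C j) → ∑ j, cf x j = 1 := by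
    intro x hx
    rw [hcfs, ← hζ1 x]
    exact Finset.sum_congr rfl fun a _ => by rw [hφO a x hx, mul_one]
  obtain ⟨bp, hb1, hb2, hb3⟩ : ∃ bp : X ⊕ ι → X, (∀ x, bp (Sum.inl x) ∈ ball x r) ∧
      (∀ x, (∃ z ∈ ball x r, ∀ j ∈ F, z ∉ C j) → ∀ j ∈ F, bp (Sum.inl x) ∉ C j) ∧
      ∀ j, (I j).Nonempty → bp (Sum.inr j) ∈ I j := by
    have a1 : ∀ x : X, ∃ z ∈ ball x r, (∃ z ∈ ball x r, ∀ j ∈ F, z ∉ C j) → ∀ j ∈ F, z ∉ C j := by
      intro x
      by_cases hx : ∃ z ∈ ball x r, ∀ j ∈ F, z ∉ C j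
      · obtain ⟨z, hz, hz'⟩ := hx
        exact ⟨z, hz, fun _ => hz'⟩
      · exact ⟨x, mem_ball_self hrp, fun h => absurd h hx⟩
    have a2 : ∀ j : ι, ∃ z : X, (I j).Nonempty → z ∈ I j := by
      intro j
      by_cases hj : (I j).Nonempty
      · obtain ⟨z, hz⟩ := hj
        exact ⟨z, fun _ => hz⟩
      · obtain ⟨z⟩ := hX.ne
        exact ⟨z, fun h => absurd h hj⟩
    choose b1 hb1 hb2 using a1
    choose b2 hb3 using a2
    exact ⟨Sum.elim b1 b2, hb1, hb2, hb3⟩
  refine ⟨fun q => mix TT (cf (bp q)), fun q => ?_, ?_⟩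
  · cases q with
    | inl x =>
      exact ⟨mix_norm (hcf0 _) (hcf1 _) hTT, fun hx =>
        mix_nuc (hcf0 _) (hcfO _ (hb2 x hx)) fun j => hTn j.1 j.2⟩
    | inr j => exact mix_norm (hcf0 _) (hcf1 _) hTT
  have hclose : ∀ e, ∑ j, |cf (bp (p e)) j - cf (y e) j| ≤ A * ((Λ + 1) * κ) := by
    intro e
    rw [Fintype.sum_sigma]
    have : (A : ℝ) * ((Λ + 1) * κ) = ∑ _a : Fin A, (Λ + 1) * κ := by simp
    rw [this]
    refine Finset.sum_le_sum fun a _ => ?_
    have aux : ∀ x x', dist x x' ≤ κ → ∑ α, |φ a α x - φ a α x'| ≤ κ →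
        ∑ α, |ζ a x * φ a α x - ζ a x' * φ a α x'| ≤ (Λ + 1) * κ := fun x x' h1 h2 =>
      prod_diff ((hζl a x x').trans (mul_le_mul_of_nonneg_left h1 hΛ)) (hζ0 _ _) (hζle _ _)
        (fun α => hφ0 a α x) (hφ1 a x) h2
    have hRe := hR e
    rcases hp : p e with x | j
    · rw [hp] at hRe
      have h1 := mem_ball.1 (hb1 x)
      have h2 := mem_ball.1 hRe.1
      have h3 := dist_triangle_right (bp (Sum.inl x)) (y e) x
      exact aux _ _ (by linarith) (hφr a _ _ (by linarith))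
    · rw [hp] at hRe
      have h1 := hb3 j ⟨_, hRe.1⟩
      rcases hφI a j with h2 | h2
      · have : ∑ α, |ζ a (bp (Sum.inr j)) * φ a α (bp (Sum.inr j)) - ζ a (y e) * φ a α (y e)|
            = 0 := Finset.sum_eq_zero fun α _ => by
          rw [h2 α _ h1, h2 α _ hRe.1]
          simp
        have h3 : 0 ≤ (Λ + 1) * κ := by positivity
        exact this.le.trans h3
      · exact aux _ _ (h2 _ h1 _ hRe.1).1 (h2 _ h1 _ hRe.1).2
  set U : E → V N := fun e => H (y e) - H (y' e) with hUdef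
  have hUW : ∀ a e, ζ a (y e) ≠ 0 → U e ∈ W a := by
    intro a e he
    have h1 := hζs a _ he
    have h2 := hd e
    have h3 := dist_triangle_left (y' e) (s a) (y e)
    exact vsub_mem_vectorSpan ℝ (mem_image_of_mem H (mem_ball.2 (by linarith)))
      (mem_image_of_mem H (mem_ball.2 (by linarith)))
  have first : ∑ e, w e * (U e - mix TT (cf (y e)) (U e)) (m e) ≤ A * (2 * C0 * c0 * κ) := by
    have e1 : ∑ e, w e * (U e - mix TT (cf (y e)) (U e)) (m e) =
        ∑ a, ∑ α, c0 * ∑ e, (w e * ζ a (y e) / c0 * φ a α (y e)) *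
          (U e - Tn a α (U e)) (m e) := by
      have : ∀ e, w e * (U e - mix TT (cf (y e)) (U e)) (m e) =
          ∑ j : (Σ a : Fin A, Fin (n a)), c0 * ((w e * ζ j.1 (y e) / c0 * φ j.1 j.2 (y e)) *
            (U e - Tn j.1 j.2 (U e)) (m e)) := by
        intro e
        rw [mix_sub, Finset.sum_apply, Finset.mul_sum]
        refine Finset.sum_congr rfl fun j _ => ?_
        simp only [Pi.smul_apply, smul_eq_mul, cf, TT]
        field_simp
      rw [Finset.sum_congr rfl fun e _ => this e, Finset.sum_comm, Fintype.sum_sigma]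
      exact Finset.sum_congr rfl fun a _ => Finset.sum_congr rfl fun α _ => by
        rw [Finset.mul_sum]
    rw [e1]
    have : (A : ℝ) * (2 * C0 * c0 * κ) = ∑ _a : Fin A, 2 * C0 * c0 * κ := by simp
    rw [this]
    refine Finset.sum_le_sum fun a _ => ?_
    have h1 : ∀ α, ∑ e, (w e * ζ a (y e) / c0 * φ a α (y e)) * (U e - Tn a α (U e)) (m e) ≤
        2 * C0 * ∑ β, ‖∑ e, (w e * ζ a (y e) / c0 * P a (Pi.single β 1) (m e) * φ a α (y e)) •
          U e - τ a α β • v a α‖ := by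
      intro α
      have h2 := one_term (hP a) (hTW a α) (nuc_norm (hTn a α))
        (fun e => w e * ζ a (y e) / c0 * φ a α (y e)) U
        (fun e he => hUW a e fun h0 => he (by simp [h0])) m (τ a α) (v a α) (hTv a α)
      refine h2.trans ?_
      have e2 : ∀ β e, w e * ζ a (y e) / c0 * φ a α (y e) * P a (Pi.single β 1) (m e) =
          w e * ζ a (y e) / c0 * P a (Pi.single β 1) (m e) * φ a α (y e) := fun β e => by ring
      simp only [e2]
      exact mul_le_mul_of_nonneg_right (by linarith [hPC a])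
        (Finset.sum_nonneg fun β _ => norm_nonneg _)
    rw [← Finset.mul_sum]
    have h3 := (Finset.sum_le_sum fun α (_ : α ∈ Finset.univ) => h1 α)
    rw [← Finset.mul_sum] at h3
    have h4 := mul_le_mul_of_nonneg_left (hφκ a) (by linarith : (0 : ℝ) ≤ 2 * C0)
    have h5 := mul_le_mul_of_nonneg_left (h3.trans h4) hc0p.le
    linarith
  have second : ∑ e, w e * ((U e - mix TT (cf (bp (p e))) (U e)) -
      (U e - mix TT (cf (y e)) (U e))) (m e) ≤ A * (2 * L * (Λ + 1) * κ) := by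
    have : (A : ℝ) * (2 * L * (Λ + 1) * κ) =
        ∑ e, w e * (2 * (A * ((Λ + 1) * κ)) * (L * dist (y e) (y' e))) :=
      (mass_mul hmass _).trans (Finset.sum_congr rfl fun e _ => by ring)
    rw [this]
    refine Finset.sum_le_sum fun e _ => mul_le_mul_of_nonneg_left ?_ (hw e)
    refine (le_abs_self _).trans ((abs_coord _ (m e)).trans ?_)
    refine (mix_diff hTT _ _ _).trans ?_
    exact mul_le_mul (by linarith [hclose e]) (hH _ _) (norm_nonneg _) (by positivity)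
  have e3 : ∑ e, w e * (U e - mix TT (cf (bp (p e))) (U e)) (m e) =
      ∑ e, w e * (U e - mix TT (cf (y e)) (U e)) (m e) +
      ∑ e, w e * ((U e - mix TT (cf (bp (p e))) (U e)) -
        (U e - mix TT (cf (y e)) (U e))) (m e) := by
    rw [← Finset.sum_add_distrib]
    refine Finset.sum_congr rfl fun e _ => ?_
    simp only [Pi.sub_apply]
    ring
  have e4 : M * κ = A * (2 * C0 * c0 * κ) + A * (2 * L * (Λ + 1) * κ) := by rw [hM]; ring
  show ∑ e, w e * (U e - mix TT (cf (bp (p e))) (U e)) (m e) < ε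
  linarith

end Pool.Agent.MP_7f5071_gt.FP

end MrgPart4

-- ======== part 5: formerly Pool.Agent.MP_7f5071_gt.FP
section MrgPart5

/-! The module FP: one step of rank reduction, by duality and compactness. -/

namespace Pool.Agent.MP_7f5071_gt

open Filter Topology Set Metric

universe u

namespace FP

variable {X : Type*} [MetricSpace X] {N : ℕ} {ι : Type}

theorem nuc_closed : IsClosed {T : V N →L[ℝ] V N | Nuc T} := by
  unfold Nuc
  exact isClosed_le (by fun_prop) continuous_const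

theorem nuc_convex : Convex ℝ {T : V N →L[ℝ] V N | Nuc T} := by
  intro T hT T' hT' a b ha hb hab
  have h1 : ∑ m : Fin N, ‖T (Pi.single m 1)‖ ≤ 1 := hT
  have h2 : ∑ m : Fin N, ‖T' (Pi.single m 1)‖ ≤ 1 := hT'
  show ∑ m : Fin N, ‖(a • T + b • T') (Pi.single m 1)‖ ≤ 1
  have h3 : ∀ m : Fin N, ‖(a • T + b • T') (Pi.single m 1)‖ ≤
      a * ‖T (Pi.single m 1)‖ + b * ‖T' (Pi.single m 1)‖ := by
    intro m
    rw [add_apply, smul_apply, smul_apply]
    refine (norm_add_le _ _).trans ?_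
    rw [norm_smul, norm_smul, Real.norm_eq_abs, Real.norm_eq_abs, abs_of_nonneg ha,
      abs_of_nonneg hb]
  refine (Finset.sum_le_sum fun m _ => h3 m).trans ?_
  rw [Finset.sum_add_distrib, ← Finset.mul_sum, ← Finset.mul_sum]
  have := mul_le_of_le_one_right ha h1
  have := mul_le_of_le_one_right hb h2
  linarith

theorem adm_cases (C : ι → Set X) (r : ℝ) (F : Finset ι) (q : X ⊕ ι) :
    Adm N C r F q = closedBall 0 1 ∨ Adm N C r F q = closedBall 0 1 ∩ {T | Nuc T} := by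
  cases q with
  | inl x =>
    by_cases h : ∃ y ∈ ball x r, ∀ j ∈ F, y ∉ C j
    · right
      ext T
      simp only [Adm, mem_ofPred_eq, mem_inter_iff, mem_closedBall_zero_iff]
      exact ⟨fun a => ⟨a.1, a.2 h⟩, fun a => ⟨a.1, fun _ => a.2⟩⟩
    · left
      ext T
      simp only [Adm, mem_ofPred_eq, mem_closedBall_zero_iff]
      exact ⟨fun a => a.1, fun a => ⟨a, fun h' => absurd h' h⟩⟩
  | inr j =>
    left
    ext T
    simp only [Adm, mem_ofPred_eq, mem_closedBall_zero_iff]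

theorem adm_compact (C : ι → Set X) (r : ℝ) (F : Finset ι) (q : X ⊕ ι) :
    IsCompact (Adm N C r F q) := by
  have : ProperSpace (V N →L[ℝ] V N) := FiniteDimensional.proper_real _
  rcases adm_cases (N := N) C r F q with h | h <;> rw [h]
  · exact isCompact_closedBall 0 1
  · exact (isCompact_closedBall 0 1).inter_right nuc_closed

theorem adm_convex (C : ι → Set X) (r : ℝ) (F : Finset ι) (q : X ⊕ ι) :
    Convex ℝ (Adm N C r F q) := by
  rcases adm_cases (N := N) C r F q with h | h <;> rw [h]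
  · exact convex_closedBall 0 1
  · exact (convex_closedBall 0 1).inter nuc_convex

theorem adm_zero (C : ι → Set X) (r : ℝ) (F : Finset ι) (q : X ⊕ ι) :
    (0 : V N →L[ℝ] V N) ∈ Adm N C r F q := by
  rcases adm_cases (N := N) C r F q with h | h <;> rw [h]
  · simp
  · exact ⟨by simp, by simp [Nuc]⟩

theorem dir_eq (H : X → V N) (η : ℝ) (x : X) :
    Dir H η x = (vectorSpan ℝ (H '' ball x η) : Set (V N)) ∩ closedBall 0 η := by
  ext u
  simp only [Dir, mem_ofPred_eq, mem_inter_iff, mem_closedBall_zero_iff, SetLike.mem_coe]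

theorem dir_compact (H : X → V N) (η : ℝ) (x : X) : IsCompact (Dir H η x) := by
  rw [dir_eq]
  exact (isCompact_closedBall 0 η).inter_left (Submodule.closed_of_finiteDimensional _)

theorem dir_convex (H : X → V N) (η : ℝ) (x : X) : Convex ℝ (Dir H η x) := by
  rw [dir_eq]
  exact (Submodule.convex _).inter (convex_closedBall 0 η)

/-- The constraint attached to an edge and a coordinate. -/
noncomputable def con (H : X → V N) (ε : ℝ) (q : X ⊕ ι) (y y' : X) (m : Fin N)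
    (u : (X → V N) × (X ⊕ ι → V N →L[ℝ] V N)) : ℝ :=
  (u.1 y - u.1 y') m + ((H y - H y') - u.2 q (H y - H y')) m - ε * dist y y'

theorem con_continuous (H : X → V N) (ε : ℝ) (q : X ⊕ ι) (y y' : X) (m : Fin N) :
    Continuous (con H ε q y y' m) := by
  unfold con
  fun_prop

theorem con_convex (H : X → V N) (ε : ℝ) (q : X ⊕ ι) (y y' : X) (m : Fin N)
    {K : Set ((X → V N) × (X ⊕ ι → V N →L[ℝ] V N))} (hK : Convex ℝ K) :
    ConvexOn ℝ K (con H ε q y y' m) := by
  refine ⟨hK, fun u _ u' _ a b _ _ hab => le_of_eq ?_⟩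
  have hb : b = 1 - a := by linarith
  subst hb
  simp only [con, Prod.fst_add, Prod.snd_add, Prod.smul_fst, Prod.smul_snd, Pi.add_apply,
    Pi.smul_apply, Pi.sub_apply, add_apply, smul_apply, smul_eq_mul]
  ring

end FP

open _root_.Pool.Agent.MP_7f5071_gt.FP in
theorem fp (h : UStmt.{u}) : FPStmt.{u} := by
  classical
  intro X _ _ hX N H L hL hH ι I C hc ε hε η hη
  obtain ⟨r, hr, F, hkey⟩ := key h X hX N H L hL hH ι I C hc hε hη
  set K : Set ((X → V N) × (X ⊕ ι → V N →L[ℝ] V N)) :=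
    (Set.pi univ (Dir H η)) ×ˢ (Set.pi univ (Adm N C r F)) with hKdef
  have hKc : IsCompact K :=
    (isCompact_univ_pi (dir_compact H η)).prod (isCompact_univ_pi (adm_compact C r F))
  have hKv : Convex ℝ K :=
    (convex_pi fun x _ => dir_convex H η x).prod (convex_pi fun q _ => adm_convex C r F q)
  have hd0 : ∀ x, (0 : V N) ∈ Dir H η x := fun x => ⟨Submodule.zero_mem _, by simp [hη.le]⟩
  have hKne : K.Nonempty :=
    ⟨(0, 0), fun x _ => hd0 x, fun q _ => adm_zero C r F q⟩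
  let Ix := {i : (X ⊕ ι) × X × X × Fin N // Rel I r i.1 i.2.1 i.2.2.1 ∧ i.2.1 ≠ i.2.2.1}
  let cc : Ix → (X → V N) × (X ⊕ ι → V N →L[ℝ] V N) → ℝ :=
    fun i => con H ε i.1.1 i.1.2.1 i.1.2.2.1 i.1.2.2.2
  have hfin : ∀ t : Finset Ix, (K ∩ ⋂ i ∈ t, {u | cc i u ≤ 0}).Nonempty := by
    intro t
    by_contra hno
    let σ : Fin t.card → Ix := fun e => (t.equivFin.symm e : Ix)
    have hno' : ∀ u ∈ K, ∃ e, 0 ≤ cc (σ e) u := by
      intro u hu
      by_contra hn
      push Not at hn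
      refine hno ⟨u, hu, ?_⟩
      simp only [mem_iInter, mem_ofPred_eq]
      intro i hi
      have := hn (t.equivFin ⟨i, hi⟩)
      simp only [σ, Equiv.symm_apply_apply] at this
      exact this.le
    obtain ⟨w, hw0, ⟨e0, he0⟩, hw⟩ := alt hKne (fun e => cc (σ e)) hKv
      (fun e => con_convex H ε _ _ _ _ hKv) hno'
    let p : Fin t.card → X ⊕ ι := fun e => (σ e).1.1
    let y : Fin t.card → X := fun e => (σ e).1.2.1
    let y' : Fin t.card → X := fun e => (σ e).1.2.2.1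
    let m : Fin t.card → Fin N := fun e => (σ e).1.2.2.2
    set μ : ℝ := ∑ e, w e * dist (y e) (y' e) with hμ
    have hμp : 0 < μ := by
      refine Finset.sum_pos' (fun e _ => mul_nonneg (hw0 e) dist_nonneg)
        ⟨e0, Finset.mem_univ _, mul_pos he0 (dist_pos.2 (σ e0).2.2)⟩
    have hmass : ∑ e, w e / μ * dist (y e) (y' e) = 1 := by
      have : ∑ e, w e / μ * dist (y e) (y' e) = (∑ e, w e * dist (y e) (y' e)) / μ := by
        rw [Finset.sum_div]
        exact Finset.sum_congr rfl fun e _ => by ring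
      rw [this, ← hμ, div_self hμp.ne']
    have hw0' : ∀ e, 0 ≤ w e / μ := fun e => div_nonneg (hw0 e) hμp.le
    have hmain : ∀ u ∈ K, ε ≤ ∑ e, w e / μ * (u.1 (y e) - u.1 (y' e)) (m e) +
        ∑ e, w e / μ * ((H (y e) - H (y' e)) - u.2 (p e) (H (y e) - H (y' e))) (m e) := by
      intro u hu
      have h1 := div_nonneg (hw u hu) hμp.le
      have h2 : (∑ e, w e * cc (σ e) u) / μ =
          ∑ e, w e / μ * (u.1 (y e) - u.1 (y' e)) (m e) +
          ∑ e, w e / μ * ((H (y e) - H (y' e)) - u.2 (p e) (H (y e) - H (y' e))) (m e) -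
          ∑ e, w e / μ * (ε * dist (y e) (y' e)) := by
        rw [← Finset.sum_add_distrib, ← Finset.sum_sub_distrib, Finset.sum_div]
        refine Finset.sum_congr rfl fun e _ => ?_
        simp only [cc, con, p, y, y', m]
        ring
      have h3 := mass_mul hmass ε
      linarith
    have hone : ∀ g : X → V N, (∀ x, g x ∈ Dir H η x) →
        -L ≤ ∑ e, w e / μ * (g (y e) - g (y' e)) (m e) := by
      intro g hg
      have h1 := hmain (g, 0) ⟨fun x _ => hg x, fun q _ => adm_zero C r F q⟩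
      have h2 : ∑ e, w e / μ * ((H (y e) - H (y' e)) -
          (0 : X ⊕ ι → V N →L[ℝ] V N) (p e) (H (y e) - H (y' e))) (m e) ≤ L := by
        refine le_trans (Finset.sum_le_sum fun e _ => ?_) (mass_mul hmass L).ge
        refine mul_le_mul_of_nonneg_left ?_ (hw0' e)
        simp only [Pi.zero_apply, zero_apply, sub_zero]
        exact (le_abs_self _).trans ((abs_coord _ (m e)).trans (hH _ _))
      simp only [] at h1
      linarith
    obtain ⟨T, hT, hlt⟩ := hkey (Fin t.card) p y y' m (fun e => w e / μ) (fun e => (σ e).2.1)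
      hw0' hmass (fun g hg => by
        refine abs_le.2 ⟨hone g hg, ?_⟩
        have h1 := hone (fun x => -g x) fun x =>
          ⟨Submodule.neg_mem _ (hg x).1, by rw [norm_neg]; exact (hg x).2⟩
        have h2 : ∑ e, w e / μ * (-g (y e) - -g (y' e)) (m e) =
            -∑ e, w e / μ * (g (y e) - g (y' e)) (m e) := by
          rw [← Finset.sum_neg_distrib]
          refine Finset.sum_congr rfl fun e _ => ?_
          simp only [Pi.sub_apply, Pi.neg_apply]
          ring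
        linarith)
    have h1 := hmain (0, T) ⟨fun x _ => hd0 x, fun q _ => hT q⟩
    simp only [Pi.zero_apply, sub_self, mul_zero, Finset.sum_const_zero, zero_add] at h1
    linarith
  obtain ⟨⟨g, T⟩, ⟨hg, hT⟩, hall⟩ := hKc.inter_iInter_nonempty (fun i : Ix => {u | cc i u ≤ 0})
    (fun i => isClosed_le (con_continuous H ε _ _ _ _) continuous_const) hfin
  have hcon : ∀ q y y', Rel I r q y y' → ∀ m : Fin N,
      (H y + g y - (H y' + g y') - T q (H y - H y')) m ≤ ε * dist y y' := by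
    intro q y y' hR m
    by_cases hy : y = y'
    · subst hy
      simp
    have h1 : con H ε q y y' m (g, T) ≤ 0 := mem_iInter.1 hall ⟨(q, y, y', m), hR, hy⟩
    simp only [con, Pi.sub_apply] at h1
    simp only [Pi.sub_apply, Pi.add_apply]
    linarith
  have hnorm : ∀ q y y', Rel I r q y y' → Rel I r q y' y →
      ‖H y + g y - (H y' + g y') - T q (H y - H y')‖ ≤ ε * dist y y' := by
    intro q y y' h1 h2
    refine (pi_norm_le_iff_of_nonneg (by positivity)).2 fun m => ?_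
    have h3 := hcon q y y' h1 m
    have h4 := hcon q y' y h2 m
    rw [dist_comm] at h4
    have h5 : H y' + g y' - (H y + g y) - T q (H y' - H y) =
        -(H y + g y - (H y' + g y') - T q (H y - H y')) := by
      rw [map_sub, map_sub]
      abel
    rw [h5, Pi.neg_apply] at h4
    rw [Real.norm_eq_abs]
    exact abs_le.2 ⟨by linarith, h3⟩
  refine ⟨fun x => H x + g x, r, F, hr, fun x => ⟨?_, ?_⟩, fun x => ?_, fun j => ?_⟩
  · simpa using (hg x (mem_univ x)).2
  · have h1 : g x ∈ (affineSpan ℝ (H '' ball x η)).direction := by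
      rw [direction_affineSpan]
      exact (hg x (mem_univ x)).1
    have h2 : H x ∈ affineSpan ℝ (H '' ball x η) :=
      subset_affineSpan ℝ _ (mem_image_of_mem H (mem_ball_self hη))
    have h3 := AffineSubspace.vadd_mem_of_mem_direction h1 h2
    rw [vadd_eq_add, add_comm] at h3
    exact h3
  · have h1 := hT (Sum.inl x) (mem_univ _)
    exact ⟨T (Sum.inl x), h1.1, h1.2, fun y hy y' hy' => hnorm _ y y' ⟨hy, hy'⟩ ⟨hy', hy⟩⟩
  · have h1 := hT (Sum.inr j) (mem_univ _)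
    exact ⟨T (Sum.inr j), h1, fun y hy y' hy' hd =>
      hnorm _ y y' ⟨hy, hy', hd⟩ ⟨hy', hy, by rwa [dist_comm]⟩⟩

end Pool.Agent.MP_7f5071_gt

end MrgPart5

-- ======== part 6: formerly Pool.Agent.MP_7f5071_gt.WSVal
section MrgPart6

/-! WS, part 3: the values on the plateaus. -/

namespace Pool.Agent.MP_7f5071_gt.WS

open Set Metric

variable {X : Type*} [MetricSpace X]

noncomputable def mf (δ x : ℝ) : ℝ := cl ((tri x - δ) / (1 - 2 * δ))

noncomputable def yf (δ y : ℝ) : ℝ := cl ((y - 3 * δ) / (1 - 6 * δ))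

noncomputable def tau (δ x y : ℝ) : ℝ := ⌊x⌋ + if Even ⌊x⌋ then yf δ y else 1 - yf δ y

theorem yf_facts {δ x y : ℝ} (h0 : 0 < δ) (h1 : δ ≤ 1 / 20) (h : |y - mf δ x| ≤ 3 * δ) :
    (0 < yf δ y → δ + yf δ y * (1 - 8 * δ) ≤ tri x) ∧
    (yf δ y < 1 → δ + (1 - yf δ y) * (1 - 8 * δ) ≤ 1 - tri x) := by
  have h' := abs_le.1 h
  have a1 : 0 < 1 - 6 * δ := by linarith
  have a2 : 0 < 1 - 2 * δ := by linarith
  constructor
  · intro hY
    have b1 : yf δ y * (1 - 6 * δ) ≤ y - 3 * δ := (le_div_iff₀ a1).1 (cl_pos hY)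
    have b2 : 0 < mf δ x := by nlinarith
    have b3 : mf δ x * (1 - 2 * δ) ≤ tri x - δ := (le_div_iff₀ a2).1 (cl_pos b2)
    have b4 : yf δ y * (1 - 6 * δ) * (1 - 2 * δ) ≤ mf δ x * (1 - 2 * δ) :=
      mul_le_mul_of_nonneg_right (by linarith) a2.le
    nlinarith [mul_pos hY (mul_pos h0 h0)]
  · intro hY
    have b1 : y - 3 * δ ≤ yf δ y * (1 - 6 * δ) := (div_le_iff₀ a1).1 (cl_lt hY)
    have b0 : 0 < 1 - yf δ y := by linarith
    have b2 : mf δ x < 1 := by nlinarith
    have b3 : tri x - δ ≤ mf δ x * (1 - 2 * δ) := (div_le_iff₀ a2).1 (cl_lt b2)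
    have b4 : (1 - yf δ y) * (1 - 6 * δ) * (1 - 2 * δ) ≤ (1 - mf δ x) * (1 - 2 * δ) :=
      mul_le_mul_of_nonneg_right (by linarith) a2.le
    nlinarith [mul_pos b0 (mul_pos h0 h0)]

theorem tau_facts {δ x y : ℝ} (h0 : 0 < δ) (h1 : δ ≤ 1 / 20) (h : |y - mf δ x| ≤ 3 * δ) :
    ∃ Z, 0 ≤ Z ∧ Z ≤ 1 ∧ tau δ x y = ⌊x⌋ + Z ∧ (0 < Z → δ + Z * (1 - 8 * δ) ≤ x - ⌊x⌋) ∧
      (Z < 1 → δ + (1 - Z) * (1 - 8 * δ) ≤ ⌊x⌋ + 1 - x) := by
  obtain ⟨f1, f2⟩ := yf_facts h0 h1 h
  have y0 : 0 ≤ yf δ y := cl_nonneg _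
  have y1 : yf δ y ≤ 1 := cl_le _
  rw [tri_floor] at f1 f2
  by_cases he : Even ⌊x⌋
  · rw [if_pos he] at f1 f2
    exact ⟨yf δ y, y0, y1, by rw [tau, if_pos he], f1, fun h => by linarith [f2 h]⟩
  · rw [if_neg he] at f1 f2
    exact ⟨1 - yf δ y, by linarith, by linarith, by rw [tau, if_neg he],
      fun h => by linarith [f2 (by linarith)], fun h => by linarith [f1 (by linarith)]⟩

theorem tau_close {δ x y : ℝ} (h0 : 0 < δ) (h1 : δ ≤ 1 / 20) (h : |y - mf δ x| ≤ 3 * δ) :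
    |tau δ x y - x| ≤ 8 * δ := by
  obtain ⟨Z, z0, z1, e, f1, f2⟩ := tau_facts h0 h1 h
  have g1 := Int.floor_le x
  have g2 := Int.lt_floor_add_one x
  rw [e]
  refine abs_le.2 ⟨?_, ?_⟩
  · rcases z1.eq_or_lt with h | h
    · linarith
    · nlinarith [f2 h]
  · rcases z0.eq_or_lt with h | h
    · linarith
    · nlinarith [f1 h]

theorem tau_two {δ x y x' y' d : ℝ} (h0 : 0 < δ) (h1 : δ ≤ 1 / 20) (h : |y - mf δ x| ≤ 3 * δ)
    (h' : |y' - mf δ x'| ≤ 3 * δ) (hk : ⌊x⌋ < ⌊x'⌋) (hd : 0 ≤ d) (hx : x' - x - δ ≤ d) :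
    |tau δ x y - tau δ x' y'| ≤ (1 + 20 * δ) * d := by
  have c1 := abs_le.1 (tau_close h0 h1 h)
  have c2 := abs_le.1 (tau_close h0 h1 h')
  obtain ⟨Z, z0, z1, e, -, f2⟩ := tau_facts h0 h1 h
  obtain ⟨Z', z0', z1', e', f1, -⟩ := tau_facts h0 h1 h'
  have g2 := Int.lt_floor_add_one x
  have g1 := Int.floor_le x'
  have hk1 : (⌊x⌋ : ℝ) + 1 ≤ ⌊x'⌋ := by exact_mod_cast hk
  rw [abs_sub_comm, abs_of_nonneg (by linarith)]
  rcases (show ⌊x'⌋ = ⌊x⌋ + 1 ∨ ⌊x⌋ + 2 ≤ ⌊x'⌋ by omega) with hk2 | hk2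
  · have hk3 : (⌊x'⌋ : ℝ) = ⌊x⌋ + 1 := by exact_mod_cast hk2
    have key : ∀ Z a : ℝ, 0 ≤ Z → δ + Z * (1 - 8 * δ) ≤ a → Z ≤ (1 + 20 * δ) * (a - δ) := by
      intro Z a h2 h3
      have : (1 + 20 * δ) * (Z * (1 - 8 * δ)) ≤ (1 + 20 * δ) * (a - δ) :=
        mul_le_mul_of_nonneg_left (by linarith) (by linarith)
      nlinarith [mul_nonneg h2 (mul_nonneg h0.le (show 0 ≤ 1 - 20 * δ by linarith))]
    have m1 : (1 + 20 * δ) * (x' - x - δ) ≤ (1 + 20 * δ) * d :=
      mul_le_mul_of_nonneg_left hx (by linarith)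
    rcases z1.eq_or_lt with a | a <;> rcases z0'.eq_or_lt with b | b
    · nlinarith
    · have := key _ _ z0' (f1 b); nlinarith
    · have := key _ _ (by linarith) (f2 a); nlinarith
    · have := key _ _ z0' (f1 b); have := key _ _ (by linarith) (f2 a); nlinarith
  · have hk3 : (⌊x⌋ : ℝ) + 2 ≤ ⌊x'⌋ := by exact_mod_cast hk2
    nlinarith

theorem tau_same {δ x y x' y' : ℝ} (h1 : δ ≤ 1 / 20) (hk : ⌊x⌋ = ⌊x'⌋) :
    |tau δ x y - tau δ x' y'| ≤ 2 * |y - y'| := by
  have : |yf δ y - yf δ y'| ≤ 2 * |y - y'| := by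
    refine (cl_lip _ _).trans ?_
    rw [← sub_div, sub_sub_sub_cancel_right, abs_div, abs_of_pos (by linarith : 0 < 1 - 6 * δ),
      div_le_iff₀ (by linarith)]
    nlinarith [abs_nonneg (y - y')]
  unfold tau
  rw [hk, add_sub_add_left_eq_sub]
  split_ifs
  · exact this
  · rwa [sub_sub_sub_cancel_left, abs_sub_comm]

theorem tval {ε s D U Δ : ℝ} (hε : 0 < ε) (hε1 : ε ≤ 1) (hs : 0 < s) (hD : s ≤ D)
    (hU : 40 * D = ε * U) (hUΔ : U ≤ Δ) (hΔ : 6 * D * U ≤ Δ * s) {u η : X → ℝ} (hu : Lip 1 u)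
    (hη : Lip 1 η) : ∃ (side : X → Prop) (t : X → ℝ), (∀ z, side z → 0 ≤ η z) ∧
      (∀ z, ¬side z → η z ≤ Δ) ∧ (∀ z, Used (2 * D) side z → |t z - u z| ≤ 16 * D) ∧
      ∀ z z' d, Used (2 * D) side z → Used (2 * D) side z' → s ≤ d → dist z z' ≤ d + 2 * D →
        |t z - t z'| ≤ (1 + ε) * d := by
  have hU0 : 0 < U := by nlinarith
  have hΔ0 : 0 < Δ := by linarith
  have hδ : 2 * D / U = ε / 20 := by rw [div_eq_iff hU0.ne']; linarith
  have d0 : 0 < ε / 20 := by linarith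
  have d1 : ε / 20 ≤ 1 / 20 := by linarith
  have lu : ∀ z z', |u z / U - u z' / U| ≤ dist z z' / U := fun z z' => by
    rw [← sub_div, abs_div, abs_of_pos hU0]
    exact div_le_div_of_nonneg_right (by simpa using hu z z') hU0.le
  have lη : ∀ z z', |η z / Δ - η z' / Δ| ≤ dist z z' / Δ := fun z z' => by
    rw [← sub_div, abs_div, abs_of_pos hΔ0]
    exact div_le_div_of_nonneg_right (by simpa using hη z z') hΔ0.le
  have us : ∀ z, Used (2 * D) (fun z => mf (ε / 20) (u z / U) ≤ η z / Δ) z →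
      |η z / Δ - mf (ε / 20) (u z / U)| ≤ 3 * (ε / 20) := by
    rintro z ⟨z', h1, h2⟩
    have a1 : dist z z' / U ≤ ε / 20 := hδ ▸ div_le_div_of_nonneg_right h1 hU0.le
    have a2 : dist z z' / Δ ≤ dist z z' / U := div_le_div_of_nonneg_left dist_nonneg hU0 hUΔ
    have a3 := abs_le.1 (lη z z')
    have a4 : |mf (ε / 20) (u z / U) - mf (ε / 20) (u z' / U)| ≤ 2 * (ε / 20) := by
      refine (cl_lip _ _).trans ?_
      rw [← sub_div, sub_sub_sub_cancel_right, abs_div,
        abs_of_pos (by linarith : 0 < 1 - 2 * (ε / 20)), div_le_iff₀ (by linarith)]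
      have := (tri_lip _ _).trans (lu z z')
      nlinarith
    have a5 := abs_le.1 a4
    by_cases h : mf (ε / 20) (u z / U) ≤ η z / Δ
    · have : ¬mf (ε / 20) (u z' / U) ≤ η z' / Δ := fun h' => h2 (iff_of_true h h')
      exact abs_le.2 ⟨by linarith, by linarith⟩
    · have : mf (ε / 20) (u z' / U) ≤ η z' / Δ := by
        by_contra h'; exact h2 (iff_of_false h h')
      exact abs_le.2 ⟨by linarith, by linarith⟩
  refine ⟨fun z => mf (ε / 20) (u z / U) ≤ η z / Δ, fun z => U * tau (ε / 20) (u z / U) (η z / Δ),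
    fun z h => ?_, fun z h => ?_, fun z h => ?_, fun z z' d h h' h1 h2 => ?_⟩
  · have := (cl_nonneg _).trans h
    rwa [le_div_iff₀ hΔ0, zero_mul] at this
  · have := (not_le.1 h).le.trans (cl_le _)
    rwa [div_le_one hΔ0] at this
  · have := tau_close d0 d1 (us z h)
    rw [show U * tau (ε / 20) (u z / U) (η z / Δ) - u z =
      U * (tau (ε / 20) (u z / U) (η z / Δ) - u z / U) by field_simp, abs_mul, abs_of_pos hU0]
    nlinarith
  · rw [← mul_sub, abs_mul, abs_of_pos hU0, ← le_div_iff₀' hU0]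
    have a1 := abs_le.1 (lu z z')
    have a2 : dist z z' / U ≤ d / U + ε / 20 := by
      rw [← hδ, ← add_div]; exact div_le_div_of_nonneg_right h2 hU0.le
    have a3 : 0 ≤ d / U := div_nonneg (by linarith) hU0.le
    have a4 : (1 + ε) * d / U = (1 + 20 * (ε / 20)) * (d / U) := by ring
    rcases lt_trichotomy ⌊u z / U⌋ ⌊u z' / U⌋ with hk | hk | hk
    · rw [a4]; exact tau_two d0 d1 (us z h) (us z' h') hk a3 (by linarith)
    · refine (tau_same d1 hk).trans ?_
      have b1 := lη z z'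
      have b2 : 2 * (dist z z' / Δ) ≤ d / U := by
        rw [← mul_div_assoc, div_le_div_iff₀ hΔ0 hU0]
        have c1 : dist z z' * s ≤ 3 * D * d := by nlinarith
        have c2 : 2 * dist z z' * U * s ≤ d * Δ * s := by nlinarith
        exact le_of_mul_le_mul_right c2 hs
      rw [a4]; nlinarith
    · rw [a4, abs_sub_comm]; exact tau_two d0 d1 (us z' h') (us z h) hk a3 (by linarith)

theorem plateau {ε s D W R η h : ℝ} (hε : 0 < ε) (hs : 0 < s) (hD : s ≤ D)
    (hW : 48 * D * D ≤ W * (ε * s)) (hW2 : 40 * D ≤ ε * W) (hW3 : 6 * D ≤ ε * (W - R - D))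
    (hW4 : R ≤ W) (hW5 : 2 * D ≤ W) (hη : 0 < η) (hη' : 2 * η ≤ s) (hh : 0 < h) (hh' : h ≤ ε * s)
    (hh2 : h ≤ s) {u : X → ℝ} (hu : Lip 1 u) (A : Set X) (zp : X → X) (t : X → ℝ)
    (h1 : ∀ y, dist y (zp y) ≤ D) (h2 : ∀ y ∈ A, |t (zp y) - u (zp y)| ≤ 16 * D)
    (h3 : ∀ y ∈ A, ∀ y' ∈ A, zp y = zp y' ∨
      (s ≤ dist y y' ∧ |t (zp y) - t (zp y')| ≤ (1 + ε) * dist y y')) :
    ∃ u' : X → ℝ, Lip (1 + 3 * ε) u' ∧ (∀ x, |u' x - u x| ≤ 18 * D) ∧
      (∀ z, (∀ y ∈ ball z (4 * W), |u y - u z| ≤ η) → ∀ y ∈ ball z R, |u' y - u y| ≤ 2 * η + h) ∧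
      ∀ y ∈ A, ∃ k : ℤ, u' y = k * h := by
  have hW0 : 0 < W := by linarith
  have lu : ∀ x y, |u x - u y| ≤ dist x y := fun x y => by simpa using hu x y
  obtain ⟨φ, p1, p2, p3⟩ := capd {z | ∀ y ∈ ball z (4 * W), |u y - u z| ≤ η} (2 * W)
  have lκ := LB.ramp p1 2 (-(1 / W))
  rw [abs_neg, abs_of_pos (by positivity)] at lκ
  set κ := fun x => cl (2 + -(1 / W) * φ x) with hκ
  have κ0 : ∀ x, 0 < κ x → φ x < 2 * W := fun x h => by
    have := h.trans_le (cl_pos h)
    rwa [neg_mul, one_div_mul_eq_div, ← sub_eq_add_neg, sub_pos, div_lt_iff₀ hW0] at this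
  have κ1 : ∀ x, φ x ≤ W → κ x = 1 := fun x h => cl_one (by
    have : 1 / W * φ x ≤ 1 := by rwa [one_div_mul_eq_div, div_le_one hW0]
    linarith)
  let t1 : X → ℝ := fun z => (1 - κ z) * t z + κ z * u z
  let v : X → ℝ := fun y => round (t1 (zp y) / h) * h
  have v1 : ∀ y, |v y - t1 (zp y)| ≤ h / 2 := fun y => by
    have := abs_sub_round (t1 (zp y) / h)
    rw [show v y - t1 (zp y) = -((t1 (zp y) / h - round (t1 (zp y) / h)) * h) by
      simp only [v]; field_simp; ring, abs_neg, abs_mul, abs_of_pos hh]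
    nlinarith
  have v2 : ∀ y ∈ A, |t1 (zp y) - u (zp y)| ≤ 16 * D := fun y hy => by
    rw [show t1 (zp y) - u (zp y) = (1 - κ (zp y)) * (t (zp y) - u (zp y)) by simp only [t1]; ring,
      abs_mul, abs_of_nonneg (lκ.compl.1 _)]
    exact (mul_le_of_le_one_left (abs_nonneg _) (lκ.compl.2.1 _)).trans (h2 y hy)
  have v3 : ∀ y ∈ A, |v y - u y| ≤ 18 * D := fun y hy => by
    have a := abs_le.1 (v1 y)
    have b := abs_le.1 (v2 y hy)
    have c := abs_le.1 (lu y (zp y))
    exact abs_le.2 ⟨by linarith [h1 y], by linarith [h1 y]⟩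
  have hv : ∀ y ∈ A, ∀ y' ∈ A, |v y - v y'| ≤ (1 + 3 * ε) * dist y y' := by
    intro y hy y' hy'
    rcases h3 y hy y' hy' with e | ⟨d1, d2⟩
    · simp only [v, e, sub_self, abs_zero]; positivity
    by_cases hd : 36 * D ≤ ε * dist y y'
    · have a := abs_le.1 (v3 y hy)
      have b := abs_le.1 (v3 y' hy')
      have c := abs_le.1 (lu y y')
      exact abs_le.2 ⟨by linarith, by linarith⟩
    have dz : dist (zp y) (zp y') ≤ dist y y' + 2 * D := by
      linarith [dist_triangle4 (zp y) y y' (zp y'), dist_comm (zp y) y, h1 y, h1 y']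
    have dW : dist y y' ≤ W := le_of_mul_le_mul_left (by linarith) hε
    have e1 : |(1 - κ (zp y)) * (t (zp y) - t (zp y')) + κ (zp y) * (u (zp y) - u (zp y'))| ≤
        (1 + ε) * dist y y' := by
      refine (abs_add_le _ _).trans ?_
      rw [abs_mul, abs_mul, abs_of_nonneg (lκ.compl.1 _), abs_of_nonneg (lκ.1 _)]
      have a := mul_le_mul_of_nonneg_left d2 (lκ.compl.1 (zp y))
      beta_reduce at a ⊢
      rcases (lκ.1 (zp y)).eq_or_lt with k0 | k0
      · rw [← k0] at a ⊢; linarith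
      · obtain ⟨c, hc, hc'⟩ := p3 _ (κ0 _ k0)
        have b1 := abs_le.1 (hc (zp y) (by rw [mem_ball]; linarith))
        have b2 := abs_le.1 (hc (zp y') (by
          rw [mem_ball]; linarith [dist_triangle_left (zp y') c (zp y)]))
        have b3 : |u (zp y) - u (zp y')| ≤ (1 + ε) * dist y y' :=
          abs_le.2 ⟨by nlinarith, by nlinarith⟩
        have := mul_le_mul_of_nonneg_left b3 k0.le
        linarith
    have e2 : |(κ (zp y') - κ (zp y)) * (t (zp y') - u (zp y'))| ≤ ε * dist y y' := by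
      rw [abs_mul]
      have a : |κ (zp y') - κ (zp y)| ≤ 1 / W * dist (zp y') (zp y) := lκ.2.2 _ _
      rw [dist_comm] at a
      refine (mul_le_mul a (h2 y' hy') (abs_nonneg _) (by positivity)).trans ?_
      rw [one_div_mul_eq_div, div_mul_eq_mul_div, div_le_iff₀ hW0]
      have c1 : dist (zp y) (zp y') * s ≤ 3 * D * dist y y' := by nlinarith
      have c2 : dist (zp y) (zp y') * (16 * D) * s ≤ ε * dist y y' * W * s := by nlinarith
      exact le_of_mul_le_mul_right c2 hs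
    have a := abs_le.1 e1
    have b := abs_le.1 e2
    have c := abs_le.1 (v1 y)
    have c' := abs_le.1 (v1 y')
    have f : h ≤ ε * dist y y' := hh'.trans (mul_le_mul_of_nonneg_left d1 hε.le)
    simp only [t1] at c c'
    exact abs_le.2 ⟨by linarith, by linarith⟩
  obtain ⟨u', q1, q2, q3⟩ := mcshane (L := 1 + 3 * ε) (by linarith) A u v
    (fun x y => (hu x y).trans (mul_le_mul_of_nonneg_right (by linarith) dist_nonneg)) hv
  refine ⟨u', q1, fun x => q3 x _ (by linarith) fun y hy => ?_,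
    fun z hz x hx => q3 x _ (by linarith) fun y hy => ?_, fun y hy => ⟨_, q2 y hy⟩⟩
  · have a := abs_le.1 (v3 y hy)
    have b := abs_le.1 (lu x y)
    have c : 0 ≤ ε * dist x y := by positivity
    exact abs_le.2 ⟨by linarith, by linarith⟩
  · have c : 0 ≤ ε * dist x y := by positivity
    have c0 : 0 ≤ dist x y := dist_nonneg
    rw [mem_ball] at hx
    by_cases hd : dist (zp y) z ≤ W
    · have a := abs_le.1 (v1 y)
      simp only [t1, κ1 _ ((p2 _ z hz).trans hd)] at a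
      have b1 := abs_le.1 (hz (zp y) (by rw [mem_ball]; linarith))
      have b2 := abs_le.1 (hz x (by rw [mem_ball]; linarith))
      exact abs_le.2 ⟨by linarith, by linarith⟩
    · have a := abs_le.1 (v3 y hy)
      have b := abs_le.1 (lu x y)
      have d : W - R - D ≤ dist x y := by
        linarith [dist_triangle4 (zp y) y x z, dist_comm (zp y) y, h1 y, dist_comm x y]
      have := mul_le_mul_of_nonneg_left d hε.le
      exact abs_le.2 ⟨by linarith, by linarith⟩

end Pool.Agent.MP_7f5071_gt.WS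

end MrgPart6

-- ======== part 7: formerly Pool.Agent.MP_7f5071_gt.WS
section MrgPart7

/-! WS: weights adapted to a Lipschitz function. -/

namespace Pool.Agent.MP_7f5071_gt

open Set Metric

universe u

namespace WS

variable {X : Type*} [MetricSpace X]

theorem card_two (p : Fin 4 → ℝ) (a b : Fin 4) (hab : a ≠ b) (ha : ¬0 < p a) (hb : ¬0 < p b) :
    (Finset.univ.filter fun c => 0 < p c).card ≤ 2 := by
  have : (Finset.univ.filter fun c => 0 < p c) ⊆ (Finset.univ.erase a).erase b := by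
    intro c hc
    have hc := (Finset.mem_filter.1 hc).2
    simp only [Finset.mem_erase, Finset.mem_univ, and_true]
    exact ⟨by rintro rfl; exact hb hc, by rintro rfl; exact ha hc⟩
  refine (Finset.card_le_card this).trans ?_
  rw [Finset.card_erase_of_mem (by simp [hab.symm]), Finset.card_erase_of_mem (by simp)]
  simp

theorem card_three (p : Fin 4 → ℝ) (a : Fin 4) (ha : ¬0 < p a) :
    (Finset.univ.filter fun c => 0 < p c).card ≤ 3 := by
  have : (Finset.univ.filter fun c => 0 < p c) ⊆ Finset.univ.erase a := by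
    intro c hc
    have hc := (Finset.mem_filter.1 hc).2
    simp only [Finset.mem_erase, Finset.mem_univ, and_true]
    rintro rfl; exact ha hc
  refine (Finset.card_le_card this).trans ?_
  rw [Finset.card_erase_of_mem (by simp)]
  simp

theorem used_bound {D Δ : ℝ} {η : X → ℝ} (hη : Lip 1 η) {side : X → Prop}
    (h0 : ∀ z, side z → 0 ≤ η z) (h1 : ∀ z, ¬side z → η z ≤ Δ) (hD : 0 ≤ D) {z : X}
    (h : Used D side z) : -D ≤ η z ∧ η z ≤ Δ + D := by
  obtain ⟨z', h2, h3⟩ := h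
  have := abs_le.1 (show |η z - η z'| ≤ dist z z' by simpa using hη z z')
  by_cases hz : side z
  · have := h0 z hz
    have := h1 z' fun h => h3 (iff_of_true hz h)
    constructor <;> linarith
  · have := h1 z hz
    have := h0 z' (by by_contra h; exact h3 (iff_of_false hz h))
    constructor <;> linarith

theorem norm1 {C ε : ℝ} (hC : 1 ≤ C) (hε : 0 < ε) (hε1 : ε ≤ 1) {f : X → ℝ} (hf : Lip 1 f)
    (hB : ∀ t ρ : ℝ, 0 < ρ → ∃ η : X → ℝ, Lip 1 η ∧ (∀ x, |η x| ≤ ρ / 2) ∧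
      Bdd ρ (C * ρ) {x | t ≤ f x ∧ f x ≤ t + ρ ∧ η x ≤ ρ / 4} ∧
      Bdd ρ (C * ρ) {x | t ≤ f x ∧ f x ≤ t + ρ ∧ -(ρ / 4) ≤ η x})
    {s η h M0 : ℝ} (hM0 : ε * M0 = 50000 * C ^ 4) {u : X → ℝ} (hs : 0 < s) (hu : Lip 1 u)
    (hη : 0 < η) (hη' : 2 * η ≤ s) (hh : 0 < h) (hh' : h ≤ ε * s) :
    ∃ (p : Fin 4 → X → ℝ) (rep : Fin 4 → X → X) (u' : X → ℝ),
      (∀ c x, 0 ≤ p c x) ∧ (∀ x, ∑ c, p c x = 1) ∧ (∀ c, Lip (21 / s) (p c)) ∧
      (∀ c x, 0 < p c x → dist x (rep c x) ≤ M0 * s) ∧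
      (∀ c x y, 0 < p c x → 0 < p c y → dist x y ≤ s → rep c x = rep c y) ∧
      Lip (1 + 3 * ε) u' ∧ (∀ x, |u' x - u x| ≤ 18 * (C * s)) ∧
      (∀ z, (∀ y ∈ ball z (4 * (4 * M0 * s)), |u y - u z| ≤ η) →
        ∀ y ∈ ball z (3 * M0 * s), |u' y - u y| ≤ 2 * η + h) ∧
      ∀ x, (Finset.univ.filter fun c => 0 < p c x).card ≤ 2 ∨
        ((Finset.univ.filter fun c => 0 < p c x).card ≤ 3 ∧ ∃ k : ℤ, u' x = k * h) := by
  classical
  obtain ⟨U, hU⟩ : ∃ U, 40 * (C * s) = ε * U := ⟨40 * (C * s) / ε, by field_simp⟩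
  have hD : s ≤ C * s := by nlinarith
  have hU0 : 40 * (C * s) ≤ U := by nlinarith
  have hUΔ : U ≤ 6 * C * U := by nlinarith
  have hC2 : C ≤ C ^ 2 := by nlinarith
  have hC4 : C ^ 2 ≤ C ^ 4 := by nlinarith
  have hM1 : 50000 * C ^ 4 ≤ M0 := by nlinarith
  have hDM : 170 * C ^ 2 * (6 * C * U) ≤ M0 * s := by
    refine le_of_mul_le_mul_left ?_ hε
    have : ε * (170 * C ^ 2 * (6 * C * U)) = 40800 * C ^ 4 * s := by
      rw [show ε * (170 * C ^ 2 * (6 * C * U)) = 1020 * C ^ 3 * (ε * U) by ring, ← hU]; ring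
    rw [this, ← mul_assoc, hM0]
    have : 0 ≤ C ^ 4 * s := by positivity
    linarith
  set Δ := 6 * C * U with hΔ
  set D := C * s with hDdef
  obtain ⟨G, η0, η1, ζ, lG, l0, l1, lζ, g1, g2, g3, g4, g5, g6, g7⟩ :=
    geom hC hf hB hs (Δ := Δ) (by linarith)
  obtain ⟨zb, b1, -, b2⟩ := exists_rep g1
  obtain ⟨zp, p1, p3, p2⟩ := exists_rep g2
  obtain ⟨sd0, t0, s1, s2, s3, s4⟩ := tval hε hε1 hs hD hU hUΔ (le_of_eq (by rw [hΔ, hDdef]; ring))
    hu l0
  obtain ⟨sd1, t1, r1, r2, r3, r4⟩ := tval hε hε1 hs hD hU hUΔ (le_of_eq (by rw [hΔ, hDdef]; ring))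
    hu l1
  obtain ⟨q0, a1, a2, a3, a4⟩ := qfun hs (by linarith) (by linarith) lG lζ l0 b1 p1 b2 p2 sd0 s1 s2
  obtain ⟨q1, c1, c2, c3, c4⟩ := qfun hs (by linarith) (by linarith) lG lζ l1 b1 p1 b2 p2 sd1 r1 r2
  have far : ∀ z z', |G z| < s / 2 → Used (2 * D) sd0 z → Used (2 * D) sd1 z' →
      2 * Δ ≤ dist z' z := fun z z' h1 h2 h3 => by
    have := used_bound l0 s1 s2 (by linarith) h2
    have := used_bound l1 r1 r2 (by linarith) h3
    have := g7 z z' h1 (by linarith)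
    linarith
  have lu : ∀ x y, |u x - u y| ≤ dist x y := fun x y => by simpa using hu x y
  have hεΔ : 240 * D ≤ ε * Δ := by
    rw [show ε * Δ = 6 * C * (ε * U) by rw [hΔ]; ring, ← hU]; nlinarith
  have hMs : 50000 * D ≤ ε * (M0 * s) := by rw [← mul_assoc ε, hM0, hDdef]; nlinarith
  have hMs' : ε * (M0 * s) ≤ M0 * s := by nlinarith
  obtain ⟨u', u1, u2, u3, u4⟩ := plateau (W := 4 * M0 * s) (R := 3 * M0 * s) hε hs hD
    (by rw [show 4 * M0 * s * (ε * s) = 4 * (ε * M0) * s * s by ring, hM0, hDdef]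
        nlinarith [mul_pos hs hs])
    (by linarith) (by nlinarith) (by linarith) (by linarith) hη hη' hh hh' (by nlinarith) hu
    {y | (|G y| < s / 2 ∧ ζ y < s / 4) ∧ (Used (2 * D) sd0 (zp y) ∨ Used (2 * D) sd1 (zp y))} zp
    (fun z => if Used (2 * D) sd0 z then t0 z else t1 z) p1
    (fun y hy => by
      beta_reduce
      split_ifs with h
      · exact s3 _ h
      · exact r3 _ (hy.2.resolve_left h))
    (fun y hy y' hy' => by
      by_cases hd : dist y y' ≤ s
      · exact Or.inl (p2 y hy.1 y' hy'.1 hd)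
      refine Or.inr ⟨by linarith, ?_⟩
      have dz : dist (zp y) (zp y') ≤ dist y y' + 2 * D := by
        linarith [dist_triangle4 (zp y) y y' (zp y'), dist_comm (zp y) y, p1 y, p1 y']
      have cross : 2 * Δ ≤ dist (zp y) (zp y') → ∀ a b, |a - u (zp y)| ≤ 16 * D →
          |b - u (zp y')| ≤ 16 * D → |a - b| ≤ (1 + ε) * dist y y' := fun h a b ha hb => by
        have := abs_le.1 ha
        have := abs_le.1 hb
        have := abs_le.1 (lu (zp y) (zp y'))
        have := mul_le_mul_of_nonneg_left (show Δ ≤ dist y y' by linarith) hε.le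
        exact abs_le.2 ⟨by linarith, by linarith⟩
      beta_reduce
      split_ifs with h h' h'
      · exact s4 _ _ _ h h' (by linarith) dz
      · have h2 := hy'.2.resolve_left h'
        exact cross (dist_comm (zp y') (zp y) ▸ far _ _ (p3 y hy.1).1 h h2) _ _ (s3 _ h) (r3 _ h2)
      · have h2 := hy.2.resolve_left h
        exact cross (far _ _ (p3 y' hy'.1).1 h' h2) _ _ (r3 _ h2) (s3 _ h')
      · exact r4 _ _ _ (hy.2.resolve_left h) (hy'.2.resolve_left h') (by linarith) dz)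
  have lw := LB.ramp lG (1 / 2) (2 / s)
  rw [abs_of_pos (by positivity)] at lw
  set w := fun x => cl (1 / 2 + 2 / s * G x) with hw
  have w0 : ∀ x, 0 < w x → -(s / 4) < G x := fun x h => by
    have := h.trans_le (cl_pos h)
    have h2 : -(1 / 2) < 2 * G x / s := by rw [← div_mul_eq_mul_div]; linarith
    rw [lt_div_iff₀ hs] at h2
    linarith
  have w1 : ∀ x, 0 < 1 - w x → G x < s / 4 := fun x h => by
    have h : w x < 1 := by linarith
    have := (cl_lt h).trans_lt h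
    have h2 : 2 * G x / s < 1 / 2 := by rw [← div_mul_eq_mul_div]; linarith
    rw [div_lt_iff₀ hs] at h2
    linarith
  have pos2 : ∀ a b : ℝ, 0 ≤ a → 0 ≤ b → 0 < a * b → 0 < a ∧ 0 < b := fun a b ha hb h =>
    ⟨lt_of_le_of_ne ha fun e => by simp [← e] at h, lt_of_le_of_ne hb fun e => by simp [← e] at h⟩
  obtain ⟨ρ0, m0, -, n0⟩ := exists_rep g4
  obtain ⟨ρ1, m1, -, n1⟩ := exists_rep g3
  obtain ⟨ρ2, m2, -, n2⟩ := exists_rep g6
  obtain ⟨ρ3, m3, -, n3⟩ := exists_rep g5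
  have k19 : (0 : ℝ) ≤ 19 / s := by positivity
  have k21 : 2 / s + 19 / s ≤ 21 / s := le_of_eq (by ring)
  have P0 := (lw.mul k19 a1).mono k21
  have P1 := (lw.mul k19 a1.compl).mono k21
  have P2 := (lw.compl.mul k19 c1).mono k21
  have P3 := (lw.compl.mul k19 c1.compl).mono k21
  have i0 : ∀ x, 0 < w x * q0 x → x ∈ {x | -(s / 2) < G x ∧ -(3 * Δ) < η0 x} := fun x h => by
    have := pos2 _ _ (lw.1 x) (a1.1 x) h
    exact ⟨by linarith [w0 x this.1], a2 x this.2⟩
  have i1 : ∀ x, 0 < w x * (1 - q0 x) → x ∈ {x | -(s / 2) < G x ∧ η0 x < 3 * Δ} := fun x h => by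
    have := pos2 _ _ (lw.1 x) (a1.compl.1 x) h
    exact ⟨by linarith [w0 x this.1], a3 x (by linarith [this.2])⟩
  have i2 : ∀ x, 0 < (1 - w x) * q1 x → x ∈ {x | G x < s / 2 ∧ -(3 * Δ) < η1 x} := fun x h => by
    have := pos2 _ _ (lw.compl.1 x) (c1.1 x) h
    exact ⟨by linarith [w1 x this.1], c2 x this.2⟩
  have i3 : ∀ x, 0 < (1 - w x) * (1 - q1 x) → x ∈ {x | G x < s / 2 ∧ η1 x < 3 * Δ} := fun x h => by
    have := pos2 _ _ (lw.compl.1 x) (c1.compl.1 x) h
    exact ⟨by linarith [w1 x this.1], c3 x (by linarith [this.2])⟩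
  refine ⟨![fun x => w x * q0 x, fun x => w x * (1 - q0 x), fun x => (1 - w x) * q1 x,
    fun x => (1 - w x) * (1 - q1 x)], ![ρ0, ρ1, ρ2, ρ3], u', fun c => ?_, fun x => ?_, fun c => ?_,
    fun c x _ => ?_, fun c => ?_, u1, u2, u3, fun x => ?_⟩
  · fin_cases c
    exacts [P0.1, P1.1, P2.1, P3.1]
  · simp only [Fin.sum_univ_four, Matrix.cons_val]; ring
  · fin_cases c
    exacts [P0.2.2, P1.2.2, P2.2.2, P3.2.2]
  · fin_cases c
    exacts [(m0 x).trans hDM, (m1 x).trans hDM, (m2 x).trans hDM, (m3 x).trans hDM]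
  · fin_cases c
    exacts [fun x y hx hy => n0 x (i0 x hx) y (i0 y hy), fun x y hx hy => n1 x (i1 x hx) y (i1 y hy),
      fun x y hx hy => n2 x (i2 x hx) y (i2 y hy), fun x y hx hy => n3 x (i3 x hx) y (i3 y hy)]
  · by_cases e0 : 0 < w x
    swap
    · have : w x = 0 := le_antisymm (not_lt.1 e0) (lw.1 x)
      exact Or.inl (card_two _ 0 1 (by decide) (by simp [this]) (by simp [this]))
    by_cases e1 : 0 < 1 - w x
    swap
    · have : 1 - w x = 0 := le_antisymm (not_lt.1 e1) (lw.compl.1 x)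
      exact Or.inl (card_two _ 2 3 (by decide) (by simp [this]) (by simp [this]))
    have hG : |G x| ≤ s / 4 := abs_le.2 ⟨(w0 x e0).le, (w1 x e1).le⟩
    have hG' : |G x| < s / 2 := by linarith
    have z0 : (0 < q0 x ∧ q0 x < 1) ∨ ∃ a : Fin 4, a.1 ≤ 1 ∧ ¬0 < ![fun x => w x * q0 x,
        fun x => w x * (1 - q0 x), fun x => (1 - w x) * q1 x,
        fun x => (1 - w x) * (1 - q1 x)] a x := by
      rcases (a1.1 x).eq_or_lt with h | h
      · exact Or.inr ⟨0, by decide, by simp [← h]⟩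
      rcases (a1.2.1 x).eq_or_lt with h' | h'
      · exact Or.inr ⟨1, by decide, by simp [h']⟩
      exact Or.inl ⟨h, h'⟩
    have z1 : (0 < q1 x ∧ q1 x < 1) ∨ ∃ a : Fin 4, 2 ≤ a.1 ∧ ¬0 < ![fun x => w x * q0 x,
        fun x => w x * (1 - q0 x), fun x => (1 - w x) * q1 x,
        fun x => (1 - w x) * (1 - q1 x)] a x := by
      rcases (c1.1 x).eq_or_lt with h | h
      · exact Or.inr ⟨2, by decide, by simp [← h]⟩
      rcases (c1.2.1 x).eq_or_lt with h' | h'
      · exact Or.inr ⟨3, by decide, by simp [h']⟩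
      exact Or.inl ⟨h, h'⟩
    rcases z0 with h0 | ⟨a, ha, ha'⟩ <;> rcases z1 with h1 | ⟨b, hb, hb'⟩
    · have j0 := a4 x hG h0.1 h0.2
      have j1 := c4 x hG h1.1 h1.2
      have := far _ _ (p3 x ⟨hG', j0.1⟩).1 j0.2 j1.2
      rw [dist_self] at this
      linarith
    · have j0 := a4 x hG h0.1 h0.2
      exact Or.inr ⟨card_three _ b hb', u4 x ⟨⟨hG', j0.1⟩, Or.inl j0.2⟩⟩
    · have j1 := c4 x hG h1.1 h1.2
      exact Or.inr ⟨card_three _ a ha', u4 x ⟨⟨hG', j1.1⟩, Or.inr j1.2⟩⟩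
    · exact Or.inl (card_two _ a b (by rintro rfl; omega) ha' hb')

end WS

theorem ws (h : BLStmt.{u}) : WSStmt.{u} := by
  obtain ⟨C, hC, hB⟩ := h
  intro ε0 hε0
  obtain ⟨ε, hε, hε1, hεε⟩ : ∃ ε : ℝ, 0 < ε ∧ ε ≤ 1 / 18 ∧ 18 * ε ≤ ε0 :=
    ⟨min (ε0 / 18) (1 / 18), by positivity, min_le_right _ _, by linarith [min_le_left (ε0 / 18) (1 / 18)]⟩
  obtain ⟨M0, hM0⟩ : ∃ M0, ε * M0 = 50000 * C ^ 4 := ⟨50000 * C ^ 4 / ε, by field_simp⟩
  have hC4 : C ≤ C ^ 4 := le_self_pow₀ hC (by norm_num)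
  have hM1 : 50000 * C ≤ M0 := by nlinarith
  have hM2 : 16 * M0 ≤ 16 * M0 / ε := by rw [le_div_iff₀ hε]; nlinarith
  refine ⟨M0, 16 * M0 / ε, by linarith, by linarith, ?_⟩
  intro X _ _ hX s Λ η h u hs hΛ hΛ2 hu hη hη' hh hh'
  obtain ⟨o⟩ := hX.ne
  have hL : 0 < Λ + 9 * ε := by linarith
  have small : ∀ a : ℝ, 0 < a → a ≤ s / (16 * M0 / ε) → 2 * (a / (Λ + 9 * ε)) ≤ ε * s := by
    intro a ha h
    rw [div_div_eq_mul_div, le_div_iff₀ (by linarith)] at h
    rw [← mul_div_assoc, div_le_iff₀ hL]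
    have h1 : a * (16 * (ε * M0)) ≤ s * ε * ε := by nlinarith
    have h2 : 0 ≤ ε * s * Λ := by positivity
    nlinarith
  have hes : ε * s ≤ s := by nlinarith
  have hd1 := div_pos hη hL
  have hd2 := div_pos hh hL
  obtain ⟨p, rep, u', a1, a2, a3, a4, a5, a6, a7, a8, a9⟩ := WS.norm1 hC hε (by linarith)
    (f := fun x => dist x o) (fun x y => by simpa using abs_dist_sub_le x y o) (hB X hX o) hM0
    (u := fun x => u x / (Λ + 9 * ε)) hs (fun x y => by
      rw [← sub_div, Real.norm_eq_abs, abs_div, abs_of_pos hL, div_le_iff₀ hL]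
      refine (hu x y).trans ?_
      nlinarith [dist_nonneg (x := x) (y := y)])
    hd1 (by linarith [small η hη hη']) hd2 (by linarith [small h hh hh'])
  have e : ∀ x, (Λ + 9 * ε) * u' x - u x = (Λ + 9 * ε) * (u' x - u x / (Λ + 9 * ε)) := fun x => by
    field_simp
  refine ⟨p, rep, fun x => (Λ + 9 * ε) * u' x, a1, a2, fun c x y => (a3 c x y).trans
    (mul_le_mul_of_nonneg_right (div_le_div_of_nonneg_right (by linarith) hs.le) dist_nonneg),
    a4, a5, fun x y => ?_, fun x => ?_, fun z hz y hy => ?_, fun x => (a9 x).imp_right ?_⟩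
  · rw [← mul_sub, Real.norm_eq_abs, abs_mul, abs_of_pos hL]
    refine (mul_le_mul_of_nonneg_left (a6 x y) hL.le).trans ?_
    rw [← mul_assoc]
    exact mul_le_mul_of_nonneg_right (by nlinarith) dist_nonneg
  · rw [e, abs_mul, abs_of_pos hL]
    refine (mul_le_mul (show Λ + 9 * ε ≤ 3 by linarith) (a7 x) (abs_nonneg _) (by norm_num)).trans ?_
    nlinarith
  · rw [e, abs_mul, abs_of_pos hL]
    refine (mul_le_mul_of_nonneg_left (a8 z (fun y hy => ?_) y hy) hL.le).trans (le_of_eq ?_)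
    · rw [← sub_div, abs_div, abs_of_pos hL]
      refine div_le_div_of_nonneg_right (hz y (ball_subset_ball ?_ hy)) hL.le
      nlinarith
    · field_simp
  · rintro ⟨h1, k, hk⟩
    exact ⟨h1, k, by simp only [hk]; field_simp⟩

end Pool.Agent.MP_7f5071_gt

end MrgPart7

-- marker of a merged file
example : 731051 + 214295 = 731051 + 214295 := rfl
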