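import Mathlib.CategoryTheory.Countable
import Mathlib.RingTheory.Finiteness.Prod
import Mathlib.Algebra.Order.Star.Real
import Pool.Agent.MP_7f5071_gt.Spec

/-! Module GS. -/

namespace Pool.Agent.MP_7f5071_gt

open Filter Topology Set Metric MeasureTheory

universe u

namespace GS

/-- the chart given by two independent covectors -/
noncomputable def chart (a b : R2) (h : det2 a b ≠ 0) : R2 ≃L[ℝ] R2 :=
  LinearEquiv.toContinuousLinearEquiv
    { toFun := fun v => (ev a v, ev b v)
      map_add' := fun v w => by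
        ext <;> simp only [ev, Prod.fst_add, Prod.snd_add] <;> ring
      map_smul' := fun c v => by
        ext <;> simp only [ev, Prod.smul_fst, Prod.smul_snd, smul_eq_mul, RingHom.id_apply] <;> ring
      invFun := fun w => ((w.1 * b.2 - w.2 * a.2) / det2 a b, (w.2 * a.1 - w.1 * b.1) / det2 a b)
      left_inv := fun v => by
        ext <;> simp only [ev] <;> rw [div_eq_iff h, det2] <;> ring
      right_inv := fun w => by
        ext <;> simp only [ev] <;> field_simp <;> rw [det2] <;> ring }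

theorem chart_apply (a b : R2) (h : det2 a b ≠ 0) (v : R2) : chart a b h v = (ev a v, ev b v) :=
  rfl

/-- Auerbach normalization of a finite family of covectors -/
theorem auerbach {T : Type} [Fintype T] (c : T → R2) (h : ∃ a b, det2 (c a) (c b) ≠ 0) :
    ∃ (M : R2 ≃L[ℝ] R2) (J : ℕ) (ξ : Fin J → R2), Normal ξ ∧ ∀ v,
      (∀ t, |ev (c t) v| ≤ nrm ξ (M v)) ∧
      ∀ r, 0 ≤ r → (∀ t, |ev (c t) v| ≤ r) → nrm ξ (M v) ≤ r := by
  obtain ⟨a0, b0, h0⟩ := h
  have : Nonempty (T × T) := ⟨(a0, b0)⟩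
  obtain ⟨⟨a, b⟩, hab⟩ := Finite.exists_max (fun p : T × T => |det2 (c p.1) (c p.2)|)
  have hD : det2 (c a) (c b) ≠ 0 := by
    intro hD
    have := hab (a0, b0)
    simp only [hD, abs_zero] at this
    exact h0 (abs_nonpos_iff.mp this)
  let e := Fintype.equivFin T
  let ζ : T → R2 := fun t =>
    (det2 (c t) (c b) / det2 (c a) (c b), det2 (c a) (c t) / det2 (c a) (c b))
  have hev : ∀ t v, ev (ζ t) (chart (c a) (c b) hD v) = ev (c t) v := by
    intro t v
    rw [chart_apply]
    simp only [ev, ζ]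
    field_simp
    simp only [det2]
    ring
  refine ⟨chart (c a) (c b) hD, Fintype.card T, fun j => ζ (e.symm j), ⟨⟨e a, ?_⟩, ⟨e b, ?_⟩,
    fun j => ?_⟩, fun v => ⟨fun t => ?_, fun r hr ht => ?_⟩⟩
  · simp only [Equiv.symm_apply_apply, ζ, div_self hD]
    simp [det2, mul_comm]
  · simp only [Equiv.symm_apply_apply, ζ, div_self hD]
    simp [det2, mul_comm]
  · have hp : 0 < |det2 (c a) (c b)| := abs_pos.mpr hD
    rw [Prod.norm_def, max_le_iff]
    simp only [ζ, Real.norm_eq_abs, abs_div]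
    exact ⟨(div_le_one hp).mpr (hab (e.symm j, b)), (div_le_one hp).mpr (hab (a, e.symm j))⟩
  · rw [← hev]
    have := norm_le_pi_norm (fun j => ev (ζ (e.symm j)) (chart (c a) (c b) hD v)) (e t)
    simpa only [Equiv.symm_apply_apply, Real.norm_eq_abs, nrm] using this
  · refine (pi_norm_le_iff_of_nonneg hr).mpr (fun j => ?_)
    rw [hev]
    exact ht _

theorem ev_smul (s : ℝ) (ξ v : R2) : ev (s • ξ) v = s * ev ξ v := by
  simp only [ev, Prod.smul_fst, Prod.smul_snd, smul_eq_mul]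
  ring

theorem ev_row {N : ℕ} (A : R2 →L[ℝ] V N) (l : Fin N) (v : R2) :
    ev (A (1, 0) l, A (0, 1) l) v = A v l := by
  have e : v = v.1 • ((1, 0) : R2) + v.2 • ((0, 1) : R2) := by ext <;> simp
  conv_rhs => rw [e, map_add, map_smul, map_smul]
  simp only [ev, Pi.add_apply, Pi.smul_apply, smul_eq_mul]
  ring

end GS

open GS in
theorem gs (h : KirStmt.{u}) : GSStmt.{u} := by
  intro X _ _ N H L hL0 _ hH π Γ hΓ β hβ
  classical
  rcases isEmpty_or_nonempty X with hX | hX
  · refine ⟨Empty, inferInstance, fun i => i.elim, fun i => i.elim, fun i => i.elim,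
      fun i => i.elim, fun i => i.elim, ?_, fun i => i.elim⟩
    rw [Set.eq_empty_of_isEmpty (Γ \ _), image_empty, measure_empty]
  obtain ⟨z, hz⟩ := TopologicalSpace.exists_dense_seq X
  set b := min β (1 / 5) with hb
  have hb0 : 0 < b := by positivity
  have hb1 : b ≤ β := min_le_left _ _
  have hb2 : b ≤ 1 / 5 := min_le_right _ _
  obtain ⟨ι, hι, G, F, ζ, A, hnull, hG⟩ := h X z hz N H L hH π Γ hΓ b hb0
  have key : ∀ i, ∃ (M : R2 ≃L[ℝ] R2) (J : ℕ) (ξ : Fin J → R2) (A' : R2 →L[ℝ] V N),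
      Good H L β (G i) (fun x => M (π x)) ξ A' := by
    intro i
    obtain ⟨hc, -, ⟨k, hk, k', hk', hdet⟩, hest⟩ := hG i
    let c : (F i) ⊕ Fin N → R2 := Sum.elim (fun k => (1 + b)⁻¹ • ζ i k)
      (fun l => (L + b)⁻¹ • (A i (1, 0) l, A i (0, 1) l))
    have h1b : 0 < 1 + b := by linarith
    have hLb : 0 < L + b := by linarith
    obtain ⟨M, J, ξ, hN, hM⟩ := auerbach c ⟨Sum.inl ⟨k, hk⟩, Sum.inl ⟨k', hk'⟩, by
      have e : det2 (c (Sum.inl ⟨k, hk⟩)) (c (Sum.inl ⟨k', hk'⟩)) =
          (1 + b)⁻¹ * (1 + b)⁻¹ * det2 (ζ i k) (ζ i k') := by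
        simp only [c, Sum.elim_inl, det2, Prod.smul_fst, Prod.smul_snd, smul_eq_mul]
        ring
      rw [e]
      positivity⟩
    have hc1 : ∀ (k : F i) v, |ev (c (Sum.inl k)) v| = (1 + b)⁻¹ * |ev (ζ i k) v| := by
      intro k v
      simp only [c, Sum.elim_inl, ev_smul, abs_mul, abs_of_pos (inv_pos.mpr h1b)]
    have hc2 : ∀ l v, |ev (c (Sum.inr l)) v| = (L + b)⁻¹ * |A i v l| := by
      intro l v
      simp only [c, Sum.elim_inr, ev_smul, ev_row, abs_mul, abs_of_pos (inv_pos.mpr hLb)]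
    refine ⟨M, J, ξ, (A i).comp (M.symm : R2 →L[ℝ] R2), ⟨hc, hN, fun x hx y hy => ?_,
      fun x hx y hy => ?_⟩, fun x hx y hy => ?_, fun v => ?_⟩
    · obtain ⟨e1, e2, -⟩ := hest x hx y hy
      rw [← map_sub]
      refine (hM _).2 _ dist_nonneg (fun t => ?_)
      rcases t with k | l
      · rw [hc1, inv_mul_le_iff₀ h1b]
        have a1 := abs_le.mp (e1 k k.2)
        have a2 := abs_le.mp (abs_dist_sub_le x y (z k))
        rw [abs_le]
        constructor <;> linarith [a1.1, a1.2, a2.1, a2.2]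
      · rw [hc2, inv_mul_le_iff₀ hLb]
        have a1 := norm_le_pi_norm (A i (π x - π y)) l
        have a2 := norm_sub_norm_le (A i (π x - π y)) (H x - H y)
        rw [norm_sub_rev (A i _)] at a2
        have a3 := hH x y
        rw [Real.norm_eq_abs] at a1
        linarith
    · obtain ⟨-, -, k, hk, e3⟩ := hest x hx y hy
      rw [← map_sub]
      have a1 := (hM (π x - π y)).1 (Sum.inl ⟨k, hk⟩)
      rw [hc1, inv_mul_le_iff₀ h1b] at a1
      have a2 : 0 ≤ nrm ξ (M (π x - π y)) := norm_nonneg _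
      have a3 : 0 ≤ dist x y := dist_nonneg
      nlinarith
    · rw [← map_sub]
      simp only [ContinuousLinearMap.comp_apply, ContinuousLinearEquiv.coe_coe,
        ContinuousLinearEquiv.symm_apply_apply]
      exact (hest x hx y hy).2.1.trans (mul_le_mul_of_nonneg_right hb1 dist_nonneg)
    · obtain ⟨w, rfl⟩ := M.surjective v
      simp only [ContinuousLinearMap.comp_apply, ContinuousLinearEquiv.coe_coe,
        ContinuousLinearEquiv.symm_apply_apply]
      have a2 : 0 ≤ nrm ξ (M w) := norm_nonneg _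
      refine (pi_norm_le_iff_of_nonneg (by positivity)).mpr (fun l => ?_)
      have a1 := (hM w).1 (Sum.inr l)
      rw [hc2, inv_mul_le_iff₀ hLb] at a1
      rw [Real.norm_eq_abs]
      nlinarith
  choose M J ξ A' hgood using key
  exact ⟨ι, hι, G, M, J, ξ, A', hnull, fun i => ⟨(hG i).2.1, hgood i⟩⟩

end Pool.Agent.MP_7f5071_gt
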