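import Mathlib.Analysis.Convex.Contractible
import Mathlib.Analysis.CStarAlgebra.Classes
import Mathlib.Analysis.Complex.CoveringMap
import Mathlib.Topology.Homotopy.Lifting
import Pool.Agent.MP_7f5071_gt.BL
import Pool.Agent.MP_7f5071_gt.Spec

-- ======== part 0: formerly Pool.Agent.MP_7f5071_gt.FinalOf
section MrgPart0

/-! The final theorem from the module statements. -/

namespace Pool.Agent.MP_7f5071_gt

open Metric

universe u

theorem final_of (h1 : K33Stmt.{u}) (h2 : LCStmt.{u}) (h3 : AsmStmt.{u})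
    (X : Type u) [MetricSpace X] (hl : IsLengthSpace X) (hd : Nonempty (X ≃ₜ Disc)) :
    IsProMinkowski 2 X := by
  obtain ⟨e⟩ := hd
  have : CompactSpace Disc := isCompact_iff_compactSpace.1 (isCompact_closedBall _ _)
  have : CompactSpace X := e.symm.compactSpace
  exact h3 X ⟨⟨e.symm ⟨0, by simp⟩⟩, geodesic_of_split (approxSplit_of_length hl), h1 X ⟨e⟩,
    h2 X ⟨e⟩⟩

end Pool.Agent.MP_7f5071_gt

end MrgPart0

-- ======== part 1: formerly Pool.Agent.MP_7f5071_gt.Star
section MrgPart1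

/-! The main approximation theorem from the four big modules. -/

namespace Pool.Agent.MP_7f5071_gt

open Filter Topology Set Metric

universe u

namespace StarAux

variable {X : Type*} [MetricSpace X] {N : ℕ}

theorem flat_congr {γ : ℝ} {H H' : X → V N} {B : Set X} (h : Flat γ H B)
    (he : ∀ y ∈ B, H' y = H y) : Flat γ H' B := by
  obtain ⟨a, h⟩ := h
  refine ⟨a, fun x hx y hy => ?_⟩
  rw [he x hx, he y hy]
  exact h x hx y hy

theorem exists_pos_le {ι : Type*} [Finite ι] (f : ι → ℝ) (hf : ∀ j, 0 < f j) :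
    ∃ m > 0, ∀ j, m ≤ f j := by
  have h : ∀ᶠ m in 𝓝[>] (0 : ℝ), ∀ j, m ≤ f j :=
    eventually_all.2 fun j => nhdsWithin_le_nhds (Iic_mem_nhds (hf j))
  obtain ⟨m, h1, h2⟩ := (h.and self_mem_nhdsWithin).exists
  exact ⟨m, h2, h1⟩

theorem rho_close {P : Patch X N} {H : X → V N} {Λ γ δ r : ℝ} (h : P.Ok H Λ γ δ)
    (hr : r ≤ P.c * P.s / 1000) {x y : X} (hy : y ∈ ball x r) : |P.ρ y - P.ρ x| ≤ P.c / 500 := by
  have h1 := h.ρlip.abs_sub_le y x
  have h2 : dist y x ≤ P.c * P.s / 1000 := (mem_ball.1 hy).le.trans hr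
  have hs := h.spos
  calc |P.ρ y - P.ρ x| ≤ 2 / P.s * dist y x := h1
    _ ≤ 2 / P.s * (P.c * P.s / 1000) := by gcongr
    _ = P.c / 500 := by field_simp; ring

theorem clamp1_const {s a b e : ℝ} (h1 : s + e ≤ |a|) (h2 : |b - a| ≤ e) :
    max (-s) (min s b) = max (-s) (min s a) := by
  have h3 := abs_le.1 h2
  have he : 0 ≤ e := (abs_nonneg _).trans h2
  rcases le_total 0 a with ha | ha
  · rw [abs_of_nonneg ha] at h1
    rw [min_eq_left (by linarith), min_eq_left (by linarith)]
  · rw [abs_of_nonpos ha] at h1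
    rw [max_eq_left ((min_le_right _ _).trans (by linarith)),
      max_eq_left ((min_le_right _ _).trans (by linarith))]

/-- In the collar of a patch, `H` maps small balls into lines. -/
theorem line (hg : Geodesic X) {P : Patch X N} {H : X → V N} {Λ γ δ r : ℝ} (h : P.Ok H Λ γ δ)
    (hr : r ≤ P.c * P.s / 1000) {x : X} (hx : 1 + P.c / 2 ≤ P.ρ x) (hb : ball x r ⊆ P.Rm)
    (hr0 : 0 < r) : ∃ a : V N, ∀ y ∈ ball x r, ∀ y' ∈ ball x r, ∃ t : ℝ, H y - H y' = t • a := by
  have hs := h.spos
  have hc := h.cpos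
  have hσ : ∀ y ∈ ball x r, ‖P.σ y - P.σ x‖ ≤ P.c * P.s / 2 := by
    intro y hy
    have := hg.norm_sub_le (K := 2) (F := P.σ) (x := y) (y := x) fun w hw =>
      h.σlip w (hb (by
        rw [mem_ball] at hy ⊢
        linarith [dist_nonneg (x := w) (y := y)]))
    have h2 : dist y x ≤ P.c * P.s / 1000 := (mem_ball.1 hy).le.trans hr
    nlinarith [mul_pos hc hs]
  have hn : P.s + P.c * P.s / 2 ≤ ‖P.σ x‖ := by
    rw [h.ρeq x (hb (mem_ball_self hr0))]
    nlinarith
  rw [Prod.norm_def, le_max_iff] at hn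
  rcases hn with hn | hn
  · refine ⟨P.A (0, 1), fun y hy y' hy' => ⟨(clamp P.s (P.σ y)).2 - (clamp P.s (P.σ y')).2, ?_⟩⟩
    have a1 := clamp1_const hn ((abs_fst_le_norm _).trans (hσ y hy))
    have a2 := clamp1_const hn ((abs_fst_le_norm _).trans (hσ y' hy'))
    rw [h.form y (hb hy), h.form y' (hb hy'), add_sub_add_left_eq_sub, ← map_sub, ← map_smul]
    congr 1
    refine Prod.ext ?_ (by simp)
    simp only [clamp, Prod.fst_sub, Prod.smul_fst, smul_zero]
    rw [a1, a2, sub_self]
  · refine ⟨P.A (1, 0), fun y hy y' hy' => ⟨(clamp P.s (P.σ y)).1 - (clamp P.s (P.σ y')).1, ?_⟩⟩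
    have a1 := clamp1_const hn ((abs_snd_le_norm _).trans (hσ y hy))
    have a2 := clamp1_const hn ((abs_snd_le_norm _).trans (hσ y' hy'))
    rw [h.form y (hb hy), h.form y' (hb hy'), add_sub_add_left_eq_sub, ← map_sub, ← map_smul]
    congr 1
    refine Prod.ext (by simp) ?_
    simp only [clamp, Prod.snd_sub, Prod.smul_snd, smul_zero]
    rw [a1, a2, sub_self]

end StarAux

open StarAux in
theorem star (h1 : LimStmt.{u}) (h2 : IterStmt.{u}) (h3 : CRStmt.{u}) (h4 : FinStmt.{u}) :
    StarStmt.{u} := by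
  intro X _ _ hX N H L hL0 hL1 hH ε hε δ hδ
  obtain ⟨e, he0, he1, heε⟩ : ∃ e : ℝ, 0 < e ∧ 4 * e ≤ 1 ∧ 4 * e ≤ ε :=
    ⟨min ε 1 / 4, by positivity, by linarith [min_le_right ε 1], by linarith [min_le_left ε 1]⟩
  obtain ⟨γF, hγF, hF⟩ := h4 e he0
  obtain ⟨γC, hγC, hC⟩ := h3 e he0 γF hγF
  obtain ⟨ι, P, H1, hLip1, hN1, hOk, hdisj, hCores⟩ :=
    h1 X hX N H L hL0 hL1 hH e he0 (δ / 400) (by positivity) γC hγC
  obtain ⟨γ, hγ0, hγ1, hγ2, hγ3⟩ : ∃ γ : ℝ, 0 < γ ∧ γ ≤ γC ∧ γ ≤ γF ∧ γ ≤ e :=
    ⟨min (min γC γF) e, by positivity, (min_le_left _ _).trans (min_le_left _ _),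
      (min_le_left _ _).trans (min_le_right _ _), min_le_right _ _⟩
  obtain ⟨G, r, F, hr, hNG, hLG, hflat, hball, hcore⟩ :=
    h2 X hX N H1 (L + e) (by linarith) (by linarith) hLip1 ι _ _ hCores γ hγ0 (δ / 4)
      (by positivity)
  have hLG' : Lip (L + 2 * e) G := hLG.mono (by linarith)
  have hrep : ∀ j : F, ∃ G' : X → V N, Lip (L + 2 * e + e) G' ∧ Near (100 * (δ / 400)) G G' ∧
      (∀ y, 1 + 3 * (P j).c / 100 ≤ (P j).ρ y → G' y = G y) ∧
      (∀ y ∈ (P j).Dn, LocPlanar G' y) ∧
      ∃ r' > 0, ∀ x, 1 + (P j).c / 100 ≤ (P j).ρ x → (P j).ρ x ≤ 1 + (P j).c / 2 →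
        Flat γF G' (ball x r') := by
    intro j
    obtain ⟨T, hT, hT'⟩ := hcore j
    exact hC X hX.geod N H1 G (P j) (L + e) (L + 2 * e) (δ / 400) r T (hOk j) (by linarith)
      (by linarith) (by linarith) hLG' hT hr fun y hy y' hy' hd =>
        (hT' y hy y' hy' hd).trans (mul_le_mul_of_nonneg_right hγ1 dist_nonneg)
  choose G' hG1 hG2 hG3 hG4 r' hr' hG5 using hrep
  let S : F → Set X := fun j => {y | (P j).ρ y ≤ 1 + 3 * (P j).c / 100}
  have hSR : ∀ j : F, S j ⊆ (P j).Rm := fun j y hy => by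
    have := (hOk j).tlo
    have := (hOk j).cpos
    change (P j).ρ y ≤ _ at hy
    change (P j).ρ y ≤ _
    linarith
  obtain ⟨G2, hL2, hN2, hg1, hg2, hg3, -⟩ := glue_lip_near hX.geod G G' S
    (fun j => isClosed_le (hOk j).ρlip.continuous continuous_const)
    (fun j j' hne => (hdisj j j' fun h => hne (Subtype.ext h)).mono (hSR j) (hSR j'))
    (fun j y hy => hG3 j y (le_of_lt (not_le.1 hy))) (by positivity)
    (hLG'.mono (by linarith)) hG1 hG2
  obtain ⟨r1, hr1, hr1'⟩ := exists_pos_le (fun j : F => min (r' j) ((P j).c * (P j).s / 1000))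
    fun j => lt_min (hr' j) (by have := (hOk j).cpos; have := (hOk j).spos; positivity)
  obtain ⟨r2, hr2, hr2r, hr2'⟩ : ∃ r2 : ℝ, 0 < r2 ∧ r2 ≤ r ∧ r2 ≤ r1 :=
    ⟨min r r1, lt_min hr hr1, min_le_left _ _, min_le_right _ _⟩
  have ha : ∀ j : F, r2 ≤ r' j := fun j => hr2'.trans ((hr1' j).trans (min_le_left _ _))
  have hb : ∀ j : F, r2 ≤ (P j).c * (P j).s / 1000 := fun j =>
    hr2'.trans ((hr1' j).trans (min_le_right _ _))
  have hfar : ∀ (j : F) (x : X), 1 + (P j).c / 2 ≤ (P j).ρ x → ∀ y ∈ ball x r2,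
      1 + 3 * (P j).c / 100 < (P j).ρ y := by
    intro j x hx y hy
    have := abs_le.1 (rho_close (hOk j) (hb j) hy)
    have := (hOk j).cpos
    linarith [this]
  have hto : ∀ (j : F) (x : X), (P j).t ≤ (P j).ρ x → 1 + (P j).c / 2 ≤ (P j).ρ x := by
    intro j x hx
    have := (hOk j).tlo
    have := (hOk j).cpos
    linarith
  obtain ⟨H', hL', hN', hP'⟩ := hF X hX N G2 (L + 2 * e + e) (by linarith) (by linarith) hL2
    (⋃ j : F, (P j).Dn) r2
    (isClosed_iUnion_of_finite fun j => isClosed_le (hOk j).ρlip.continuous continuous_const) hr2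
    (by
      intro x hx
      obtain ⟨j, hj⟩ := mem_iUnion.1 hx
      refine (hG4 j x hj).congr (hg3 j x ?_)
      have := (hOk j).cpos
      change (P j).ρ x ≤ _ at hj
      change (P j).ρ x ≤ _
      linarith)
    (by
      intro x hx
      by_cases hA : ∀ j ∈ F, x ∉ (P j).Co
      · refine flat_congr ((hflat x ⟨x, mem_ball_self hr, hA⟩).mono hγ2 (ball_subset_ball hr2r))
          fun y hy => hg2 y fun j => ?_
        exact not_le.2 (hfar j x (hto j x (not_lt.1 (hA j j.2))) y hy)
      · push Not at hA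
        obtain ⟨j0, hj0, hxj⟩ := hA
        let j : F := ⟨j0, hj0⟩
        have hxR : x ∈ (P j).Rm := (le_of_lt hxj : (P j).ρ x ≤ (P j).t)
        have hG : ∀ y ∈ ball x r2, G2 y = G' j y := fun y hy => hg1 j y fun j' hne => by
          have : x ∉ (P j').Rm := fun h =>
            Set.disjoint_left.1 (hdisj j j' fun h => hne (Subtype.ext h).symm) hxR h
          exact not_le.2 (hfar j' x (hto j' x (le_of_lt (not_le.1 this))) y hy)
        have hxD : 1 + (P j).c / 100 ≤ (P j).ρ x :=
          le_of_lt (not_le.1 fun h => hx (mem_iUnion.2 ⟨j, h⟩))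
        rcases le_total ((P j).ρ x) (1 + (P j).c / 2) with hB | hB
        · exact flat_congr ((hG5 j x hxD hB).mono le_rfl (ball_subset_ball (ha j))) hG
        have hG' : ∀ y ∈ ball x r2, G2 y = G y := fun y hy =>
          (hG y hy).trans (hG3 j y (hfar j x hB y hy).le)
        refine flat_congr ?_ hG'
        by_cases hin : ball x r2 ⊆ (P j).Rm
        · obtain ⟨a, hl⟩ := line hX.geod (hOk j) (hb j) hB hin hr2
          obtain ⟨T, -, hT⟩ := hball x
          refine ⟨T a, fun y hy y' hy' => ?_⟩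
          obtain ⟨t, ht⟩ := hl y hy y' hy'
          refine ⟨t, ?_⟩
          have := hT y (ball_subset_ball hr2r hy) y' (ball_subset_ball hr2r hy')
          rw [ht, map_smul] at this
          exact this.trans (mul_le_mul_of_nonneg_right hγ2 dist_nonneg)
        · obtain ⟨y, hy, hyR⟩ := not_subset.1 hin
          obtain ⟨w, hw, hwt⟩ := hX.geod.exists_level (hOk j).ρlip.continuous (x := x) (y := y)
            hxR (le_of_lt (not_le.1 hyR))
          refine (hflat x ⟨w, ?_, fun j' _ hw' => ?_⟩).mono hγ2 (ball_subset_ball hr2r)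
          · rw [mem_ball] at hy ⊢
            rw [dist_comm] at hy
            linarith [dist_nonneg (x := w) (y := y)]
          · by_cases hjj : j0 = j'
            · subst hjj
              exact absurd hwt (ne_of_lt hw')
            · exact Set.disjoint_left.1 (hdisj j0 j' hjj) (le_of_eq hwt)
                (le_of_lt hw' : (P j').ρ w ≤ (P j').t))
    (δ / 4) (by positivity)
  exact ⟨H', hL'.mono (by linarith), (((hN1.trans hNG).trans hN2).trans hN').mono (by linarith),
    hP'⟩

end Pool.Agent.MP_7f5071_gt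

end MrgPart1

-- ======== part 2: formerly Pool.Agent.MP_7f5071_gt.K33
section MrgPart2

/-! K33 cannot be drawn in the disc with disjoint independent edges. -/

namespace Pool.Agent.MP_7f5071_gt

open Filter Topology Set Metric Complex

universe u

namespace K33

/-- A nowhere vanishing continuous function on a real normed space has a continuous logarithm. -/
theorem exists_log {A : Type} [NormedAddCommGroup A] [NormedSpace ℝ A] (g : A → ℂ)
    (hg : Continuous g) (h0 : ∀ x, g x ≠ 0) :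
    ∃ L : A → ℂ, Continuous L ∧ ∀ x, exp (L x) = g x := by
  obtain ⟨f, ⟨-, hf⟩, -⟩ := isCoveringMapOn_exp.existsUnique_continuousMap_lifts
    (⟨g, hg⟩ : C(A, ℂ)) (a₀ := 0) (e₀ := log (g 0)) (exp_log (h0 0)) (fun x => h0 x)
  exact ⟨f, f.continuous, fun x => congrFun hf x⟩

/-- The variation of the logarithm along a path is well defined. -/
theorem exists_var (f : ℝ → ℂ) (hf : Continuous f) (h0 : ∀ s, f s ≠ 0) :
    ∃ θ : ℂ, exp θ * f 0 = f 1 ∧ ∀ (c : ℂ) (L : ℝ → ℂ), Continuous L →
      (∀ s, exp (L s) = c * f s) → L 1 - L 0 = θ := by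
  obtain ⟨L0, hL0, he⟩ := exists_log f hf h0
  refine ⟨L0 1 - L0 0, ?_, fun c L hL hc => ?_⟩
  · rw [← he 0, ← he 1, ← exp_add]; congr 1; ring
  · have key : ∀ s, exp (L s - L0 s) = c := fun s => by
      rw [exp_sub, hc, he, mul_div_assoc, div_self (h0 s), mul_one]
    have := isCoveringMap_exp.const_of_comp (g := fun s => L s - L0 s) (hL.sub hL0)
      (fun a a' => Subtype.ext (by simp only [key])) 1 0
    linear_combination this

/-- Logarithms of the differences of three distinct points, with a fixed antisymmetry. -/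
theorem exists_pairlog (a : Fin 3 → ℂ) (ha : ∀ i k, i ≠ k → a i ≠ a k) :
    ∃ α : Fin 3 → Fin 3 → ℂ, (∀ i k, i ≠ k → exp (α i k) = a i - a k) ∧
      ∀ i k, i < k → α k i = α i k + Real.pi * I := by
  refine ⟨fun i k => if i < k then log (a i - a k) else log (a k - a i) + Real.pi * I, ?_, ?_⟩
  · intro i k hik
    by_cases h : i < k
    · simp only [if_pos h]
      exact exp_log (sub_ne_zero.2 (ha i k hik))
    · simp only [if_neg h]
      rw [exp_add, exp_pi_mul_I, exp_log (sub_ne_zero.2 (ha k i hik.symm))]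
      ring
  · intro i k hik
    simp only [if_pos hik, if_neg (not_lt.2 hik.le)]

theorem int_of_exp {θ x y : ℂ} (h : exp θ * exp y = exp x) :
    ∃ n : ℤ, θ = x - y + n * (2 * Real.pi * I) := by
  rw [← exp_add] at h
  obtain ⟨n, hn⟩ := exp_eq_exp_iff_exists_int.1 h
  exact ⟨n, by linear_combination hn⟩

theorem parity (u w : Fin 3 → Fin 3 → Fin 3 → ℤ)
    (h1 : ∀ i j k l, i < k → j < l → u i j k + w k l j - w i j l - u k l i = -1)
    (h2 : ∀ i j k l, i < k → l < j → u i j k + w k l j - w i j l - u k l i = 0) : False := by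
  have a1 := h1 0 0 1 1 (by decide) (by decide)
  have a2 := h1 0 0 1 2 (by decide) (by decide)
  have a3 := h1 0 1 1 2 (by decide) (by decide)
  have a4 := h1 0 0 2 1 (by decide) (by decide)
  have a5 := h1 0 0 2 2 (by decide) (by decide)
  have a6 := h1 0 1 2 2 (by decide) (by decide)
  have a7 := h1 1 0 2 1 (by decide) (by decide)
  have a8 := h1 1 0 2 2 (by decide) (by decide)
  have a9 := h1 1 1 2 2 (by decide) (by decide)
  have b1 := h2 0 1 1 0 (by decide) (by decide)
  have b2 := h2 0 2 1 0 (by decide) (by decide)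
  have b3 := h2 0 2 1 1 (by decide) (by decide)
  have b4 := h2 0 1 2 0 (by decide) (by decide)
  have b5 := h2 0 2 2 0 (by decide) (by decide)
  have b6 := h2 0 2 2 1 (by decide) (by decide)
  have b7 := h2 1 1 2 0 (by decide) (by decide)
  have b8 := h2 1 2 2 0 (by decide) (by decide)
  have b9 := h2 1 2 2 1 (by decide) (by decide)
  omega

theorem other (j : Fin 3) : ∃ l, l ≠ j := exists_ne j

/-- The plane has no drawing of K33 with disjoint independent edges. -/
theorem noK33_complex : NoK33 ℂ := by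
  intro a b E hJ hD
  choose γ hγ using hJ
  have hmem : ∀ i j s, (γ i j).extend s ∈ E i j := fun i j s => by
    obtain ⟨t, ht⟩ : (γ i j).extend s ∈ range (γ i j) := by
      rw [← (γ i j).extend_range]; exact mem_range_self s
    rw [← ht]; exact hγ i j t
  set e : Fin 3 → Fin 3 → ℝ → ℂ := fun i j s => (γ i j).extend s with he
  have hc : ∀ i j, Continuous (e i j) := fun i j => (γ i j).continuous_extend
  have e0 : ∀ i j, e i j 0 = a i := fun i j => (γ i j).extend_zero
  have e1 : ∀ i j, e i j 1 = b j := fun i j => (γ i j).extend_one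
  have hne : ∀ i j k l, i ≠ k → j ≠ l → ∀ s t, e i j s - e k l t ≠ 0 := by
    intro i j k l hik hjl s t h
    have h' : e i j s = e k l t := sub_eq_zero.1 h
    exact Set.disjoint_left.1 (hD i j k l hik hjl) (hmem i j s) (by
      have := hmem k l t
      change e k l t ∈ E k l at this
      change e i j s ∈ E k l
      rwa [h'])
  have hA : ∀ i j k, i ≠ k → ∀ s, e i j s - a k ≠ 0 := by
    intro i j k hik s
    obtain ⟨l, hl⟩ := other j
    rw [← e0 k l]; exact hne i j k l hik hl.symm s 0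
  have hB : ∀ i j l, j ≠ l → ∀ s, e i j s - b l ≠ 0 := by
    intro i j l hjl s
    obtain ⟨k, hk⟩ := other i
    rw [← e1 k l]; exact hne i j k l hk.symm hjl s 1
  have haa : ∀ i k, i ≠ k → a i ≠ a k := fun i k hik => by
    have := hA i 0 k hik 0
    rw [e0] at this; exact sub_ne_zero.1 this
  have hbb : ∀ j l, j ≠ l → b j ≠ b l := fun j l hjl => by
    have := hB 0 j l hjl 1
    rw [e1] at this; exact sub_ne_zero.1 this
  have hab : ∀ i l, a i - b l ≠ 0 := fun i l => by
    obtain ⟨j, hj⟩ := other l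
    have := hB i j l hj 0
    rwa [e0] at this
  obtain ⟨α, hα, hα'⟩ := exists_pairlog a haa
  obtain ⟨β, hβ, hβ'⟩ := exists_pairlog b hbb
  set m : Fin 3 → Fin 3 → ℂ := fun i j => log (a i - b j) with hm
  have hme : ∀ i j, exp (m i j) = a i - b j := fun i j => exp_log (hab i j)
  have hTA : ∀ i j k, ∃ n : ℤ, i ≠ k → ∀ (c : ℂ) (L : ℝ → ℂ), Continuous L →
      (∀ s, exp (L s) = c * (e i j s - a k)) →
      L 1 - L 0 = (m k j + Real.pi * I) - α i k + n * (2 * Real.pi * I) := by
    intro i j k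
    by_cases hik : i = k
    · exact ⟨0, fun h => (h hik).elim⟩
    obtain ⟨θ, h1, h2⟩ := exists_var (fun s => e i j s - a k) ((hc i j).sub continuous_const)
      (hA i j k hik)
    simp only [e0, e1] at h1
    have h3 : exp θ * exp (α i k) = exp (m k j + Real.pi * I) := by
      rw [hα i k hik, h1, exp_add, exp_pi_mul_I, hme]; ring
    obtain ⟨n, hn⟩ := int_of_exp h3
    exact ⟨n, fun _ c L hL hLe => (h2 c L hL hLe).trans hn⟩
  have hTB : ∀ i j l, ∃ n : ℤ, j ≠ l → ∀ (c : ℂ) (L : ℝ → ℂ), Continuous L →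
      (∀ s, exp (L s) = c * (e i j s - b l)) →
      L 1 - L 0 = β j l - m i l + n * (2 * Real.pi * I) := by
    intro i j l
    by_cases hjl : j = l
    · exact ⟨0, fun h => (h hjl).elim⟩
    obtain ⟨θ, h1, h2⟩ := exists_var (fun s => e i j s - b l) ((hc i j).sub continuous_const)
      (hB i j l hjl)
    simp only [e0, e1] at h1
    have h3 : exp θ * exp (m i l) = exp (β j l) := by
      rw [hβ j l hjl, hme, h1]
    obtain ⟨n, hn⟩ := int_of_exp h3
    exact ⟨n, fun _ c L hL hLe => (h2 c L hL hLe).trans hn⟩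
  choose u hu using hTA
  choose w hw using hTB
  have hsq : ∀ i j k l, i ≠ k → j ≠ l → (α k i - α i k) + (β l j - β j l) +
      ((u i j k + w k l j - w i j l - u k l i : ℤ) : ℂ) * (2 * Real.pi * I) = 0 := by
    intro i j k l hik hjl
    obtain ⟨L, hL, hLe⟩ := exists_log (fun p : ℝ × ℝ => e i j p.1 - e k l p.2)
      (((hc i j).comp continuous_fst).sub ((hc k l).comp continuous_snd))
      (fun p => hne i j k l hik hjl p.1 p.2)
    have s1 := hu i j k hik 1 (fun s => L (s, 0)) (by fun_prop) (fun s => by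
      rw [hLe, one_mul, e0])
    have s2 := hw k l j hjl.symm (-1) (fun t => L (1, t)) (by fun_prop) (fun t => by
      rw [hLe, e1]; ring)
    have s3 := hw i j l hjl 1 (fun s => L (s, 1)) (by fun_prop) (fun s => by
      rw [hLe, one_mul, e1])
    have s4 := hu k l i hik.symm (-1) (fun t => L (0, t)) (by fun_prop) (fun t => by
      rw [hLe, e0]; ring)
    push_cast
    linear_combination -s1 - s2 + s3 + s4
  have hπ : (2 * Real.pi * I : ℂ) ≠ 0 := two_pi_I_ne_zero
  refine parity u w (fun i j k l hik hjl => ?_) (fun i j k l hik hlj => ?_)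
  · have h := hsq i j k l hik.ne hjl.ne
    rw [hα' i k hik, hβ' j l hjl] at h
    have h' : (((u i j k + w k l j - w i j l - u k l i : ℤ) : ℂ) + 1) * (2 * Real.pi * I) = 0 := by
      linear_combination h
    have h'' := (mul_eq_zero.1 h').resolve_right hπ
    have : (u i j k + w k l j - w i j l - u k l i : ℤ) + 1 = 0 := by exact_mod_cast h''
    omega
  · have h := hsq i j k l hik.ne hlj.ne'
    rw [hα' i k hik, hβ' l j hlj] at h
    have h' : ((u i j k + w k l j - w i j l - u k l i : ℤ) : ℂ) * (2 * Real.pi * I) = 0 := by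
      linear_combination h
    exact_mod_cast (mul_eq_zero.1 h').resolve_right hπ

/-- The property pulls back along continuous injective maps. -/
theorem noK33_of_injective {X Y : Type*} [MetricSpace X] [MetricSpace Y] (φ : X → Y)
    (hφ : Continuous φ) (hi : Function.Injective φ) (h : NoK33 Y) : NoK33 X := by
  intro a b E hJ hD
  exact h (fun i => φ (a i)) (fun j => φ (b j)) (fun i j => φ '' E i j)
    (fun i j => (hJ i j).map hφ)
    (fun i j k l hik hjl => (Set.disjoint_image_iff hi).2 (hD i j k l hik hjl))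

end K33

theorem k33 : K33Stmt.{u} := by
  rintro X _ ⟨h⟩
  refine K33.noK33_of_injective
    (fun x => Complex.orthonormalBasisOneI.repr.symm (h x : EuclideanSpace ℝ (Fin 2))) ?_ ?_
    K33.noK33_complex
  · exact Complex.orthonormalBasisOneI.repr.symm.continuous.comp
      (continuous_subtype_val.comp h.continuous)
  · exact Complex.orthonormalBasisOneI.repr.symm.injective.comp
      (Subtype.val_injective.comp h.injective)

end Pool.Agent.MP_7f5071_gt

end MrgPart2

-- ======== part 3: formerly Pool.Agent.MP_7f5071_gt.LC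
section MrgPart3

/-! Small balls do not separate far points of a disc. -/

namespace Pool.Agent.MP_7f5071_gt

open Filter Topology Set Metric

universe u

namespace LC

/-- The determinant of two complex numbers. -/
def det (x y : ℂ) : ℝ := x.re * y.im - x.im * y.re

theorem abs_det_le (x y : ℂ) : |det x y| ≤ ‖x‖ * ‖y‖ := by
  have h : det x y = ((starRingEnd ℂ) x * y).im := by
    simp [det, Complex.mul_im]; ring
  rw [h]
  refine (Complex.abs_im_le_norm _).trans ?_
  rw [norm_mul, Complex.norm_conj]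

theorem norm_sub_le_two {p c : ℂ} (hp : p ∈ closedBall (0 : ℂ) 1) (hc : c ∈ closedBall (0 : ℂ) 1) :
    ‖p - c‖ ≤ 2 := by
  rw [mem_closedBall_zero_iff] at hp hc
  linarith [norm_sub_le p c]

/-- A segment with a large determinant misses the small ball. -/
theorem joined_of_det {c p q : ℂ} {b : ℝ} (hc : c ∈ closedBall (0 : ℂ) 1)
    (hp : p ∈ closedBall (0 : ℂ) 1) (hq : q ∈ closedBall (0 : ℂ) 1)
    (h : 4 * b < |det (p - c) (q - c)|) :
    JoinedIn (closedBall (0 : ℂ) 1 \ closedBall c b) p q := by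
  refine JoinedIn.of_segment_subset (fun w hw => ⟨(convex_closedBall 0 1).segment_subset hp hq hw,
    fun hwb => ?_⟩)
  obtain ⟨s, t, hs, ht, hst, rfl⟩ := hw
  rw [mem_closedBall, dist_eq_norm] at hwb
  have e : det (p - c) (q - c) =
      det (p - c) (s • p + t • q - c) + det (s • p + t • q - c) (q - c) := by
    have hs' : s = 1 - t := by linarith
    subst hs'
    simp [det]; ring
  have h1 := abs_det_le (p - c) (s • p + t • q - c)
  have h2 := abs_det_le (s • p + t • q - c) (q - c)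
  have h3 := norm_sub_le_two hp hc
  have h4 := norm_sub_le_two hq hc
  have h5 := abs_add_le (det (p - c) (s • p + t • q - c)) (det (s • p + t • q - c) (q - c))
  have h6 := norm_nonneg (s • p + t • q - c)
  rw [← e] at h5
  nlinarith [norm_nonneg (p - c), norm_nonneg (q - c)]

theorem cramer (P M M' : ℂ) : (det M M' : ℂ) * P = (det P M' : ℂ) * M - (det P M : ℂ) * M' := by
  apply Complex.ext <;> simp [det] <;> ring

/-- A far point sees one of the two ends of a good segment. -/
theorem joined_end {c p m m' : ℂ} {a : ℝ} (ha : 0 < a) (ha1 : a ≤ 1)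
    (hc : c ∈ closedBall (0 : ℂ) 1) (hp : p ∈ closedBall (0 : ℂ) 1)
    (hm : m ∈ closedBall (0 : ℂ) 1) (hm' : m' ∈ closedBall (0 : ℂ) 1)
    (hd : 1 / 3 ≤ |det (m - c) (m' - c)|) (hpc : a ≤ ‖p - c‖) :
    JoinedIn (closedBall (0 : ℂ) 1 \ closedBall c (a / 50)) p m := by
  by_cases h1 : 4 * (a / 50) < |det (p - c) (m - c)|
  · exact joined_of_det hc hp hm h1
  by_cases h2 : 4 * (a / 50) < |det (p - c) (m' - c)|
  · exact (joined_of_det hc hp hm' h2).trans
      (joined_of_det hc hm hm' (by linarith)).symm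
  exfalso
  push Not at h1 h2
  have e := congrArg norm (cramer (p - c) (m - c) (m' - c))
  have h3 := norm_sub_le ((det (p - c) (m' - c) : ℂ) * (m - c)) ((det (p - c) (m - c) : ℂ) * (m' - c))
  rw [← e] at h3
  simp only [norm_mul, Complex.norm_real, Real.norm_eq_abs] at h3
  have h4 := norm_sub_le_two hm hc
  have h5 := norm_sub_le_two hm' hc
  have h6 : |det (p - c) (m' - c)| * ‖m - c‖ ≤ 4 * (a / 50) * 2 :=
    mul_le_mul h2 h4 (norm_nonneg _) (by positivity)
  have h7 : |det (p - c) (m - c)| * ‖m' - c‖ ≤ 4 * (a / 50) * 2 :=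
    mul_le_mul h1 h5 (norm_nonneg _) (by positivity)
  have h8 : 1 / 3 * a ≤ |det (m - c) (m' - c)| * ‖p - c‖ :=
    mul_le_mul hd hpc ha.le (abs_nonneg _)
  linarith

theorem exists_good (c : ℂ) : ∃ m ∈ closedBall (0 : ℂ) 1, ∃ m' ∈ closedBall (0 : ℂ) 1,
    1 / 3 ≤ |det (m - c) (m' - c)| := by
  have h0 : (0 : ℂ) ∈ closedBall (0 : ℂ) 1 := by simp
  have h1 : (1 : ℂ) ∈ closedBall (0 : ℂ) 1 := by simp
  have hI : Complex.I ∈ closedBall (0 : ℂ) 1 := by simp
  have e : det (0 - c) (1 - c) + det (1 - c) (Complex.I - c) + det (Complex.I - c) (0 - c) = 1 := by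
    simp [det]; ring
  by_cases a1 : 1 / 3 ≤ det (0 - c) (1 - c)
  · exact ⟨_, h0, _, h1, a1.trans (le_abs_self _)⟩
  by_cases a2 : 1 / 3 ≤ det (1 - c) (Complex.I - c)
  · exact ⟨_, h1, _, hI, a2.trans (le_abs_self _)⟩
  exact ⟨_, hI, _, h0, le_trans (by linarith) (le_abs_self _)⟩

theorem disc {a : ℝ} (ha : 0 < a) : ∃ b > 0, ∀ c ∈ closedBall (0 : ℂ) 1,
    ∀ p ∈ closedBall (0 : ℂ) 1, ∀ q ∈ closedBall (0 : ℂ) 1, a ≤ dist p c → a ≤ dist q c →
    JoinedIn (closedBall (0 : ℂ) 1 \ closedBall c b) p q := by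
  have ha' : 0 < min a 1 := lt_min ha one_pos
  refine ⟨min a 1 / 50, by positivity, fun c hc p hp q hq hpc hqc => ?_⟩
  obtain ⟨m, hm, m', hm', hd⟩ := exists_good c
  rw [dist_eq_norm] at hpc hqc
  exact (joined_end ha' (min_le_right _ _) hc hp hm hm' hd ((min_le_left _ _).trans hpc)).trans
    (joined_end ha' (min_le_right _ _) hc hq hm hm' hd ((min_le_left _ _).trans hqc)).symm

end LC

theorem lc : LCStmt.{u} := by
  rintro X _ ⟨h⟩ δ hδ
  let T := Complex.orthonormalBasisOneI.repr.symm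
  let ψ : X → ℂ := fun x => T (h x : EuclideanSpace ℝ (Fin 2))
  have hψ : IsEmbedding ψ :=
    T.toHomeomorph.isEmbedding.comp (IsEmbedding.subtypeVal.comp h.isEmbedding)
  have : CompactSpace Disc := isCompact_iff_compactSpace.1 (isCompact_closedBall _ _)
  have : CompactSpace X := h.symm.compactSpace
  have hmem : ∀ x, ψ x ∈ closedBall (0 : ℂ) 1 := fun x => by
    rw [mem_closedBall_zero_iff]
    simp only [ψ, LinearIsometryEquiv.norm_map]
    exact mem_closedBall_zero_iff.1 (h x).2
  have hsurj : ∀ w ∈ closedBall (0 : ℂ) 1, ∃ x, ψ x = w := fun w hw => by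
    refine ⟨h.symm ⟨T.symm w, ?_⟩, by simp [ψ]⟩
    rw [mem_closedBall_zero_iff, LinearIsometryEquiv.norm_map]
    exact mem_closedBall_zero_iff.1 hw
  have hd : ∀ x y, dist (ψ x) (ψ y) = dist (h x) (h y) := fun x y => by
    simp only [ψ, LinearIsometryEquiv.dist_map]
    rfl
  obtain ⟨a, ha, hau⟩ := Metric.uniformContinuous_iff.1
    (CompactSpace.uniformContinuous_of_continuous h.symm.continuous) δ hδ
  obtain ⟨b, hb, hbj⟩ := LC.disc ha
  obtain ⟨δ', hδ', hδu⟩ := Metric.uniformContinuous_iff.1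
    (CompactSpace.uniformContinuous_of_continuous h.continuous) b hb
  have far : ∀ x z : X, δ ≤ dist x z → a ≤ dist (ψ x) (ψ z) := fun x z hx => by
    by_contra hlt
    rw [hd, not_le] at hlt
    have := hau hlt
    simp only [Homeomorph.symm_apply_apply] at this
    linarith
  refine ⟨δ' / 2, by positivity, fun z x y hx hy => ?_⟩
  have hsub : closedBall (0 : ℂ) 1 \ closedBall (ψ z) b ⊆ ψ '' (closedBall z (δ' / 2))ᶜ := by
    rintro w ⟨hw, hwb⟩
    obtain ⟨x', rfl⟩ := hsurj w hw
    refine ⟨x', fun hx' => hwb ?_, rfl⟩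
    rw [mem_closedBall] at hx' ⊢
    rw [hd]
    exact (hδu (by linarith)).le
  have hj := (hbj _ (hmem z) _ (hmem x) _ (hmem y) (far x z hx) (far y z hy)).mono hsub
  have hin : ∀ v, ψ v ∈ ψ '' (closedBall z (δ' / 2))ᶜ → v ∈ (closedBall z (δ' / 2))ᶜ :=
    fun v hv => (hψ.injective.mem_set_image).1 hv
  exact (hψ.isInducing.joinedIn_image (hin x hj.source_mem) (hin y hj.target_mem)).1 hj

end Pool.Agent.MP_7f5071_gt

end MrgPart3

-- marker of a merged file
example : 731051 + 52627 = 731051 + 52627 := rfl
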