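import Mathlib.Topology.Sheaves.Presheaf
import Mathlib.Algebra.Order.Star.Real
import Pool.Agent.MP_7f5071_gt.Spec

-- ======== part 0: formerly Pool.Agent.MP_7f5071_gt.PatA
section MrgPart0

/-! Elementary lemmas for the patch construction. -/

namespace Pool.Agent.MP_7f5071_gt.Pat

open Filter Topology Set Metric

section Gen

variable {X : Type*} [MetricSpace X] {E : Type*} [NormedAddCommGroup E]

theorem plip_cont {K : ℝ} {F : X → E} {x : X} (h : PLip K F x) : ContinuousAt F x := by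
  rw [ContinuousAt, tendsto_iff_norm_sub_tendsto_zero]
  have h1 : Tendsto (fun y => K * dist y x) (𝓝 x) (𝓝 0) := by
    have : Continuous (fun y : X => K * dist y x) := by fun_prop
    simpa using this.tendsto x
  exact squeeze_zero' (Eventually.of_forall fun _ => norm_nonneg _) h h1

theorem lip_of_plip (hX : Geodesic X) {K : ℝ} (hK : 0 ≤ K) {F : X → E}
    (h : ∀ x, PLip K F x) : Lip K F := by
  intro x y
  obtain ⟨γ, hγ⟩ := hX y x
  have hγc : Continuous γ := hγ.lip.continuous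
  have hF : Continuous F := continuous_iff_continuousAt.2 fun x => plip_cont (h x)
  have hcl : IsClosed {t : ℝ | ‖F (γ t) - F (γ 0)‖ ≤ K * t} := by
    apply isClosed_le <;> fun_prop
  have key : Icc 0 (dist y x) ⊆ {t : ℝ | ‖F (γ t) - F (γ 0)‖ ≤ K * t} := by
    apply IsClosed.Icc_subset_of_forall_mem_nhdsWithin (hcl.inter isClosed_Icc) (by simp)
    rintro t ⟨ht, -⟩
    have h1 : ∀ᶠ t' in 𝓝 t, ‖F (γ t') - F (γ t)‖ ≤ K * dist (γ t') (γ t) :=
      (hγc.tendsto t).eventually (h (γ t))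
    filter_upwards [mem_nhdsWithin_of_mem_nhds h1, self_mem_nhdsWithin] with t' h2 h3
    have h4 : dist (γ t') (γ t) ≤ t' - t := by
      have := hγ.lip.dist_le_mul t' t
      rw [Real.dist_eq, abs_of_pos (sub_pos.2 h3)] at this
      simpa using this
    have h5 : ‖F (γ t') - F (γ 0)‖ ≤ ‖F (γ t') - F (γ t)‖ + ‖F (γ t) - F (γ 0)‖ :=
      norm_sub_le_norm_sub_add_norm_sub _ _ _
    have h6 : ‖F (γ t) - F (γ 0)‖ ≤ K * t := ht
    have h7 := mul_le_mul_of_nonneg_left h4 hK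
    show ‖F (γ t') - F (γ 0)‖ ≤ K * t'
    nlinarith
  have := key (right_mem_Icc.2 dist_nonneg)
  simp only [mem_ofPred_eq, hγ.src, hγ.tgt] at this
  rwa [dist_comm] at this

theorem plip_of_const {K : ℝ} (hK : 0 ≤ K) {F : X → E} {x : X}
    (h : ∀ᶠ y in 𝓝 x, F y = F x) : PLip K F x := by
  filter_upwards [h] with y hy
  rw [hy, sub_self, norm_zero]
  exact mul_nonneg hK dist_nonneg

end Gen

/-- A ramp: one up to `a`, zero from `b` on. -/
noncomputable def ramp (a b t : ℝ) : ℝ := max 0 (min 1 ((b - t) / (b - a)))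

theorem ramp_mem (a b t : ℝ) : ramp a b t ∈ Icc (0 : ℝ) 1 :=
  ⟨le_max_left _ _, max_le zero_le_one (min_le_left _ _)⟩

theorem ramp_one {a b t : ℝ} (hab : a < b) (h : t ≤ a) : ramp a b t = 1 := by
  have : 1 ≤ (b - t) / (b - a) := by
    rw [le_div_iff₀ (sub_pos.2 hab)]; linarith
  simp [ramp, min_eq_left this]

theorem ramp_zero {a b t : ℝ} (hab : a < b) (h : b ≤ t) : ramp a b t = 0 := by
  have : (b - t) / (b - a) ≤ 0 := div_nonpos_of_nonpos_of_nonneg (by linarith) (by linarith)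
  exact max_eq_left (le_trans (min_le_right _ _) this)

theorem ramp_lip {a b : ℝ} (hab : a < b) (t t' : ℝ) :
    |ramp a b t' - ramp a b t| ≤ |t' - t| / (b - a) := by
  have hp := sub_pos.2 hab
  have h1 : |ramp a b t' - ramp a b t| ≤
      |min 1 ((b - t') / (b - a)) - min 1 ((b - t) / (b - a))| := by
    have := abs_max_sub_max_le_max (0 : ℝ) (min 1 ((b - t') / (b - a))) 0
      (min 1 ((b - t) / (b - a)))
    simpa [ramp] using this
  have h2 : |min 1 ((b - t') / (b - a)) - min 1 ((b - t) / (b - a))| ≤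
      |(b - t') / (b - a) - (b - t) / (b - a)| := by
    have := abs_min_sub_min_le_max (1 : ℝ) ((b - t') / (b - a)) 1 ((b - t) / (b - a))
    simpa using this
  have h3 : |(b - t') / (b - a) - (b - t) / (b - a)| = |t' - t| / (b - a) := by
    rw [← sub_div, abs_div, abs_of_pos hp, show b - t' - (b - t) = -(t' - t) by ring, abs_neg]
  linarith

/-- Slope one with two plateaus. -/
def gg (s s2 t : ℝ) : ℝ := max (-s) (min s t) + (t - max (-s2) (min s2 t))

theorem gg_mono {s s2 t t' : ℝ} (h0 : 0 ≤ s) (h1 : s ≤ s2) (h : t ≤ t') :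
    0 ≤ gg s s2 t' - gg s s2 t ∧ gg s s2 t' - gg s s2 t ≤ t' - t := by
  unfold gg
  simp only [max_def, min_def]
  split_ifs <;> constructor <;> linarith

theorem gg_slope {s s2 : ℝ} (h0 : 0 ≤ s) (h1 : s ≤ s2) (t t' : ℝ) :
    ∃ a ∈ Icc (0 : ℝ) 1, gg s s2 t' - gg s s2 t = a * (t' - t) := by
  rcases lt_trichotomy t t' with h | h | h
  · have := gg_mono h0 h1 h.le
    have hp := sub_pos.2 h
    refine ⟨(gg s s2 t' - gg s s2 t) / (t' - t), ⟨div_nonneg this.1 hp.le,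
      (div_le_one hp).2 this.2⟩, ?_⟩
    field_simp
  · subst h
    exact ⟨0, ⟨le_rfl, zero_le_one⟩, by simp⟩
  · have := gg_mono h0 h1 h.le
    have hp := sub_pos.2 h
    refine ⟨(gg s s2 t - gg s s2 t') / (t - t'), ⟨div_nonneg this.1 hp.le,
      (div_le_one hp).2 this.2⟩, ?_⟩
    field_simp
    ring

theorem gg_eq {s s2 t : ℝ} (h : |t| ≤ s2) : gg s s2 t = max (-s) (min s t) := by
  rw [abs_le] at h
  simp [gg, min_eq_right h.2, max_eq_right h.1]

theorem gg_sub {s s2 : ℝ} (h0 : 0 ≤ s) (h1 : s ≤ s2) (t : ℝ) : |gg s s2 t - t| ≤ s2 - s := by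
  rw [abs_le]
  unfold gg
  simp only [max_def, min_def]
  split_ifs <;> constructor <;> linarith

theorem gg_abs {s s2 : ℝ} (h0 : 0 ≤ s) (h1 : s ≤ s2) (t : ℝ) : |gg s s2 t| ≤ |t| := by
  obtain ⟨a, ha, h⟩ := gg_slope h0 h1 0 t
  have h2 : gg s s2 0 = 0 := by
    simp [gg, h0, h0.trans h1]
  rw [h2, sub_zero, sub_zero] at h
  rw [h, abs_mul, abs_of_nonneg ha.1]
  exact mul_le_of_le_one_left (abs_nonneg _) ha.2

/-- The plateau map of the plane. -/
def Phi (s s2 : ℝ) (z : R2) : R2 := (gg s s2 z.1, gg s s2 z.2)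

theorem Phi_eq {s s2 : ℝ} {z : R2} (h : ‖z‖ ≤ s2) : Phi s s2 z = clamp s z := by
  have h1 : |z.1| ≤ s2 := (norm_fst_le z).trans h
  have h2 : |z.2| ≤ s2 := (norm_snd_le z).trans h
  simp [Phi, clamp, gg_eq h1, gg_eq h2]

theorem Phi_sub {s s2 : ℝ} (h0 : 0 ≤ s) (h1 : s ≤ s2) (z : R2) :
    ‖Phi s s2 z - z‖ ≤ s2 - s := by
  rw [Prod.norm_def]
  exact max_le (gg_sub h0 h1 z.1) (gg_sub h0 h1 z.2)

theorem Phi_norm {s s2 : ℝ} (h0 : 0 ≤ s) (h1 : s ≤ s2) (z : R2) : ‖Phi s s2 z‖ ≤ ‖z‖ := by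
  rw [Prod.norm_def]
  exact max_le ((gg_abs h0 h1 z.1).trans (norm_fst_le z))
    ((gg_abs h0 h1 z.2).trans (norm_snd_le z))

theorem Phi_slope {s s2 : ℝ} (h0 : 0 ≤ s) (h1 : s ≤ s2) (z z' : R2) :
    ∃ a ∈ Icc (0 : ℝ) 1, ∃ b ∈ Icc (0 : ℝ) 1,
      Phi s s2 z' - Phi s s2 z = (a * (z' - z).1, b * (z' - z).2) := by
  obtain ⟨a, ha, h⟩ := gg_slope h0 h1 z.1 z'.1
  obtain ⟨b, hb, h'⟩ := gg_slope h0 h1 z.2 z'.2
  exact ⟨a, ha, b, hb, Prod.ext h h'⟩

theorem clamp_norm {s : ℝ} (h0 : 0 ≤ s) (z : R2) : ‖clamp s z‖ ≤ s := by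
  have : ∀ t : ℝ, |max (-s) (min s t)| ≤ s := fun t =>
    abs_le.2 ⟨le_max_left _ _, max_le (by linarith) (min_le_left _ _)⟩
  rw [Prod.norm_def]
  exact max_le (this _) (this _)

theorem clamp_sub {s r : ℝ} (h0 : 0 ≤ s) (hr : 0 ≤ r) {z : R2} (h : ‖z‖ ≤ s + r) :
    ‖z - clamp s z‖ ≤ r := by
  have : ∀ t : ℝ, |t| ≤ s + r → |t - max (-s) (min s t)| ≤ r := fun t ht => by
    rw [abs_le] at ht ⊢
    simp only [max_def, min_def]
    split_ifs <;> constructor <;> linarith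
  rw [Prod.norm_def]
  exact max_le (this _ ((norm_fst_le z).trans h)) (this _ ((norm_snd_le z).trans h))

section Nrm

variable {J : ℕ} {ξ : Fin J → R2}

theorem ev_le_nrm (v : R2) (j : Fin J) : |ev (ξ j) v| ≤ nrm ξ v :=
  norm_le_pi_norm (fun j => ev (ξ j) v) j

theorem nrm_nonneg (v : R2) : 0 ≤ nrm ξ v := norm_nonneg _

theorem norm_le_nrm (h : Normal ξ) (v : R2) : ‖v‖ ≤ nrm ξ v := by
  obtain ⟨⟨j, hj⟩, ⟨k, hk⟩, -⟩ := h
  have h1 := ev_le_nrm (ξ := ξ) v j
  have h2 := ev_le_nrm (ξ := ξ) v k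
  rw [hj] at h1
  rw [hk] at h2
  simp only [ev, one_mul, zero_mul, add_zero, zero_add] at h1 h2
  rw [Prod.norm_def]
  exact max_le h1 h2

theorem nrm_le_norm (h : Normal ξ) (v : R2) : nrm ξ v ≤ 2 * ‖v‖ := by
  refine (pi_norm_le_iff_of_nonneg (by positivity)).2 fun j => ?_
  have h1 : |(ξ j).1| ≤ 1 := (norm_fst_le (ξ j)).trans (h.2.2 j)
  have h2 : |(ξ j).2| ≤ 1 := (norm_snd_le (ξ j)).trans (h.2.2 j)
  have h3 : |v.1| ≤ ‖v‖ := norm_fst_le v
  have h4 : |v.2| ≤ ‖v‖ := norm_snd_le v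
  have h5 : |ev (ξ j) v| ≤ |(ξ j).1| * |v.1| + |(ξ j).2| * |v.2| := by
    rw [← abs_mul, ← abs_mul]; exact abs_add_le _ _
  have h6 := mul_le_mul h1 h3 (abs_nonneg _) zero_le_one
  have h7 := mul_le_mul h2 h4 (abs_nonneg _) zero_le_one
  rw [Real.norm_eq_abs]
  linarith

theorem nrm_scale (h : Normal ξ) (v : R2) {a b : ℝ} (ha : a ∈ Icc (0 : ℝ) 1)
    (hb : b ∈ Icc (0 : ℝ) 1) : nrm ξ (a * v.1, b * v.2) ≤ nrm ξ v := by
  refine (pi_norm_le_iff_of_nonneg (nrm_nonneg v)).2 fun j => ?_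
  have h1 : |(ξ j).1| ≤ 1 := (norm_fst_le (ξ j)).trans (h.2.2 j)
  have h2 : |(ξ j).2| ≤ 1 := (norm_snd_le (ξ j)).trans (h.2.2 j)
  have h3 : |v.1| ≤ nrm ξ v := (norm_fst_le v).trans (norm_le_nrm h v)
  have h4 : |v.2| ≤ nrm ξ v := (norm_snd_le v).trans (norm_le_nrm h v)
  have hp : |(ξ j).1 * v.1| ≤ nrm ξ v := by
    rw [abs_mul]; exact (mul_le_of_le_one_left (abs_nonneg _) h1).trans h3
  have hq : |(ξ j).2 * v.2| ≤ nrm ξ v := by
    rw [abs_mul]; exact (mul_le_of_le_one_left (abs_nonneg _) h2).trans h4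
  have hpq : |(ξ j).1 * v.1 + (ξ j).2 * v.2| ≤ nrm ξ v := ev_le_nrm v j
  have hn := nrm_nonneg (ξ := ξ) v
  rw [Real.norm_eq_abs]
  show |(ξ j).1 * (a * v.1) + (ξ j).2 * (b * v.2)| ≤ nrm ξ v
  set p := (ξ j).1 * v.1
  set q := (ξ j).2 * v.2
  set n := nrm ξ v
  have e : (ξ j).1 * (a * v.1) + (ξ j).2 * (b * v.2) =
      a * b * (p + q) + a * (1 - b) * p + (1 - a) * b * q := by
    simp only [p, q]; ring
  rw [e]
  rw [abs_le] at hp hq hpq ⊢
  have w1 := mul_nonneg ha.1 hb.1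
  have w2 := mul_nonneg ha.1 (sub_nonneg.2 hb.2)
  have w3 := mul_nonneg (sub_nonneg.2 ha.2) hb.1
  have w4 := mul_nonneg (mul_nonneg (sub_nonneg.2 ha.2) (sub_nonneg.2 hb.2)) hn
  constructor
  · nlinarith [mul_le_mul_of_nonneg_left hpq.1 w1, mul_le_mul_of_nonneg_left hp.1 w2,
      mul_le_mul_of_nonneg_left hq.1 w3]
  · nlinarith [mul_le_mul_of_nonneg_left hpq.2 w1, mul_le_mul_of_nonneg_left hp.2 w2,
      mul_le_mul_of_nonneg_left hq.2 w3]

end Nrm

end Pool.Agent.MP_7f5071_gt.Pat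

end MrgPart0

-- ======== part 1: formerly Pool.Agent.MP_7f5071_gt.PatB
section MrgPart1

/-! The scalar functions of a patch. -/

namespace Pool.Agent.MP_7f5071_gt.Pat

open Filter Topology Set Metric

variable {X : Type*} [MetricSpace X]

/-- The output of the chart lemma, with `p` the recentred chart of the nearest point. -/
structure Loc {J : ℕ} (ξ : Fin J → R2) (p σ ω : X → R2) (ν : X → X) (xc : X)
    (s δ e τ : ℝ) : Prop where
  spos : 0 < s
  τpos : 0 < τ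
  epos : 0 ≤ e
  ele : e ≤ 1 / 100
  normal : Normal ξ
  dd : ∀ y, ‖p y‖ ≤ 4 * s → dist y xc < δ
  cc : ∀ y, ‖p y‖ ≤ 4 * s → ∀ y', dist y y' ≤ τ → ‖p y' - p y‖ ≤ e * s
  σp : ∀ y, ‖p y‖ ≤ 4 * s → ‖σ y - p y‖ ≤ e * s
  ωp : ∀ y, ‖p y‖ ≤ 4 * s → ‖ω y - p y‖ ≤ e * s
  σl : ∀ y, ‖p y‖ ≤ 4 * s → ∀ᶠ y' in 𝓝 y, nrm ξ (σ y' - σ y) ≤ (1 + e) * dist y' y
  ωl : ∀ y, ‖p y‖ ≤ 4 * s → PLip 10 ω y
  ωc : ∀ y, ‖p y‖ ≤ 4 * s → (∀ᶠ y' in 𝓝 y, ω y' = ω y) ∨ dist y (ν y) ≤ e * s

/-- Use `f` on the region of the chart and the constant `v` elsewhere. -/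
noncomputable def cut (p : X → R2) (s : ℝ) (f : X → ℝ) (v : ℝ) (y : X) : ℝ :=
  if ‖p y‖ ≤ 3 * s then f y else v

/-- The radius function. -/
noncomputable def rho (p σ : X → R2) (s : ℝ) : X → ℝ := cut p s (fun y => min (‖σ y‖ / s) 2) 2

/-- The cutoff functions. -/
noncomputable def rc (p ω : X → R2) (s a b : ℝ) : X → ℝ :=
  cut p s (fun y => ramp a b (‖ω y‖ / s)) 0

omit [MetricSpace X] in
theorem cut_pos {p : X → R2} {s : ℝ} {f : X → ℝ} {v : ℝ} {y : X} (h : ‖p y‖ ≤ 3 * s) :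
    cut p s f v y = f y := if_pos h

omit [MetricSpace X] in
theorem cut_neg {p : X → R2} {s : ℝ} {f : X → ℝ} {v : ℝ} {y : X} (h : ¬ ‖p y‖ ≤ 3 * s) :
    cut p s f v y = v := if_neg h

omit [MetricSpace X] in
theorem rc_mem (p ω : X → R2) (s a b : ℝ) (y : X) : rc p ω s a b y ∈ Icc (0 : ℝ) 1 := by
  unfold rc cut
  split_ifs
  · exact ramp_mem _ _ _
  · exact ⟨le_rfl, zero_le_one⟩

theorem norm_near {u v : R2} {r : ℝ} (h : ‖u - v‖ ≤ r) : ‖u‖ ≤ ‖v‖ + r ∧ ‖v‖ ≤ ‖u‖ + r := by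
  have h1 := norm_sub_norm_le u v
  have h2 := norm_sub_norm_le v u
  rw [norm_sub_rev] at h2
  constructor <;> linarith

namespace Loc

variable {J : ℕ} {ξ : Fin J → R2} {p σ ω : X → R2} {ν : X → X} {xc : X} {s δ e τ : ℝ}
  (h : Loc ξ p σ ω ν xc s δ e τ)

include h

theorem es : e * s ≤ s / 100 := by nlinarith [h.ele, h.spos]

theorem es0 : 0 ≤ e * s := mul_nonneg h.epos h.spos.le

theorem near (y : X) : ∀ᶠ y' in 𝓝 y, dist y' y ≤ τ :=
  Metric.closedBall_mem_nhds y h.τpos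

theorem inner {y : X} (hy : ‖p y‖ ≤ 5 / 2 * s) : ∀ᶠ y' in 𝓝 y, ‖p y'‖ ≤ 3 * s := by
  filter_upwards [h.near y] with y' hy'
  have := norm_near (h.cc y (by linarith [h.spos]) y' (by rwa [dist_comm]))
  linarith [h.es, h.spos]

theorem far {y y' : X} (hy : 5 / 2 * s < ‖p y‖) (hd : dist y' y ≤ τ) (hy' : ‖p y'‖ ≤ 3 * s) :
    2 * s ≤ ‖σ y'‖ ∧ 2 * s ≤ ‖ω y'‖ := by
  have h4 : ‖p y'‖ ≤ 4 * s := by linarith [h.spos]
  have h1 := norm_near (h.cc y' h4 y hd)
  have h2 := norm_near (h.σp y' h4)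
  have h3 := norm_near (h.ωp y' h4)
  constructor <;> linarith [h.es, h.spos]

theorem rho_far {y y' : X} (hy : 5 / 2 * s < ‖p y‖) (hd : dist y' y ≤ τ) :
    rho p σ s y' = 2 := by
  by_cases hy' : ‖p y'‖ ≤ 3 * s
  · rw [rho, cut_pos hy']
    exact min_eq_right ((le_div_iff₀ h.spos).2 (h.far hy hd hy').1)
  · exact cut_neg hy'

theorem rc_far {a b : ℝ} (hab : a < b) (hb : b ≤ 2) {y y' : X} (hy : 5 / 2 * s < ‖p y‖)
    (hd : dist y' y ≤ τ) : rc p ω s a b y' = 0 := by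
  by_cases hy' : ‖p y'‖ ≤ 3 * s
  · rw [rc, cut_pos hy']
    exact ramp_zero hab (hb.trans ((le_div_iff₀ h.spos).2 (h.far hy hd hy').2))
  · exact cut_neg hy'

theorem σ_plip {y : X} (hy : ‖p y‖ ≤ 4 * s) : PLip 2 σ y := by
  filter_upwards [h.σl y hy] with y' hy'
  have h1 := norm_le_nrm h.normal (σ y' - σ y)
  have h2 : (1 + e) * dist y' y ≤ 2 * dist y' y :=
    mul_le_mul_of_nonneg_right (by linarith [h.ele]) dist_nonneg
  linarith

theorem rho_plip (y : X) : PLip (2 / s) (rho p σ s) y := by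
  have hs := h.spos
  rcases le_or_gt ‖p y‖ (5 / 2 * s) with hy | hy
  · filter_upwards [h.inner hy, h.σ_plip (y := y) (by linarith)] with y' h1 h2
    rw [rho, cut_pos h1, cut_pos (by linarith : ‖p y‖ ≤ 3 * s), Real.norm_eq_abs]
    have h3 := abs_min_sub_min_le_max (‖σ y'‖ / s) 2 (‖σ y‖ / s) 2
    have h4 : |‖σ y'‖ / s - ‖σ y‖ / s| ≤ 2 / s * dist y' y := by
      rw [← sub_div, abs_div, abs_of_pos hs, div_mul_eq_mul_div]
      exact div_le_div_of_nonneg_right ((abs_norm_sub_norm_le _ _).trans h2) hs.le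
    refine h3.trans (max_le h4 ?_)
    simp only [sub_self, abs_zero]
    positivity
  · refine plip_of_const (by positivity) ?_
    filter_upwards [h.near y] with y' hy'
    rw [h.rho_far hy hy', h.rho_far hy (by simpa using h.τpos.le)]

theorem rc_plip {a b : ℝ} (hab : a < b) (hb : b ≤ 2) (y : X) :
    PLip (10 / ((b - a) * s)) (rc p ω s a b) y := by
  have hs := h.spos
  have hp := sub_pos.2 hab
  rcases le_or_gt ‖p y‖ (5 / 2 * s) with hy | hy
  · filter_upwards [h.inner hy, h.ωl y (by linarith)] with y' h1 h2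
    rw [rc, cut_pos h1, cut_pos (by linarith : ‖p y‖ ≤ 3 * s), Real.norm_eq_abs]
    refine (ramp_lip hab _ _).trans ?_
    rw [← sub_div, abs_div, abs_of_pos hs, div_div, div_mul_eq_mul_div, mul_comm s]
    exact div_le_div_of_nonneg_right ((abs_norm_sub_norm_le _ _).trans h2) (by positivity)
  · refine plip_of_const (by positivity) ?_
    filter_upwards [h.near y] with y' hy'
    rw [h.rc_far hab hb hy hy', h.rc_far hab hb hy (by simpa using h.τpos.le)]

theorem rc_alt {a b : ℝ} (hab : a < b) (hb : b ≤ 2) (y : X) :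
    (∀ᶠ y' in 𝓝 y, rc p ω s a b y' = rc p ω s a b y) ∨
      (‖p y‖ ≤ 5 / 2 * s ∧ dist y (ν y) ≤ e * s ∧ ‖ω y‖ ≤ b * s) := by
  have hs := h.spos
  rcases le_or_gt ‖p y‖ (5 / 2 * s) with hy | hy
  · have hy3 : ‖p y‖ ≤ 3 * s := by linarith
    have hy4 : ‖p y‖ ≤ 4 * s := by linarith
    rcases h.ωc y hy4 with hc | hc
    · left
      filter_upwards [h.inner hy, hc] with y' h1 h2
      rw [rc, cut_pos h1, cut_pos hy3, h2]
    · rcases le_or_gt ‖ω y‖ (b * s) with hw | hw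
      · exact Or.inr ⟨hy, hc, hw⟩
      · left
        have hcont : ContinuousAt (fun y => ‖ω y‖) y := (plip_cont (h.ωl y hy4)).norm
        filter_upwards [h.inner hy, hcont.eventually (lt_mem_nhds hw)] with y' h1 h2
        rw [rc, cut_pos h1, cut_pos hy3, ramp_zero hab ((le_div_iff₀ hs).2 h2.le),
          ramp_zero hab ((le_div_iff₀ hs).2 hw.le)]
  · left
    filter_upwards [h.near y] with y' hy'
    rw [h.rc_far hab hb hy hy', h.rc_far hab hb hy (by simpa using h.τpos.le)]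

theorem rho_lt {y : X} {t : ℝ} (ht : t < 2) (hy : rho p σ s y ≤ t) :
    ‖p y‖ ≤ 3 * s ∧ ‖σ y‖ = rho p σ s y * s := by
  by_cases h3 : ‖p y‖ ≤ 3 * s
  · refine ⟨h3, ?_⟩
    rw [rho, cut_pos h3] at hy ⊢
    have : ‖σ y‖ / s ≤ 2 := by
      by_contra hc
      rw [min_eq_right (not_le.1 hc).le] at hy
      linarith
    rw [min_eq_left this, div_mul_cancel₀ _ h.spos.ne']
  · rw [rho, cut_neg h3] at hy
    linarith

theorem rho_le {y : X} {t : ℝ} (hy : ‖p y‖ ≤ 3 * s) (ht : ‖σ y‖ ≤ t * s) : rho p σ s y ≤ t := by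
  rw [rho, cut_pos hy]
  exact (min_le_left _ _).trans ((div_le_iff₀ h.spos).2 ht)

theorem rc_one {a b t : ℝ} (hab : a < b) (ht : t < 2) (hta : t + 2 * e ≤ a) {y : X}
    (hy : rho p σ s y ≤ t) : rc p ω s a b y = 1 := by
  obtain ⟨h3, h1⟩ := h.rho_lt ht hy
  have hs := h.spos
  have h4 : ‖p y‖ ≤ 4 * s := by linarith
  have h5 := norm_near (h.σp y h4)
  have h6 := norm_near (h.ωp y h4)
  rw [rc, cut_pos h3]
  refine ramp_one hab ((div_le_iff₀ hs).2 ?_)
  have := mul_le_mul_of_nonneg_right hy hs.le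
  have := mul_le_mul_of_nonneg_right hta hs.le
  nlinarith

theorem rc_zero {a b t : ℝ} (hab : a < b) (htb : b + 2 * e ≤ t) {y : X}
    (hy : t ≤ rho p σ s y) : rc p ω s a b y = 0 := by
  by_cases h3 : ‖p y‖ ≤ 3 * s
  · have hs := h.spos
    have h4 : ‖p y‖ ≤ 4 * s := by linarith
    have h5 := norm_near (h.σp y h4)
    have h6 := norm_near (h.ωp y h4)
    rw [rho, cut_pos h3] at hy
    have h7 := (le_div_iff₀ hs).1 (hy.trans (min_le_left _ _))
    rw [rc, cut_pos h3]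
    refine ramp_zero hab ((le_div_iff₀ hs).2 ?_)
    have := mul_le_mul_of_nonneg_right htb hs.le
    nlinarith
  · exact cut_neg h3

theorem clos {y : X} (hy : y ∈ closure {y | ‖p y‖ ≤ 5 / 2 * s}) : ‖p y‖ ≤ 3 * s := by
  obtain ⟨y', h1, h2⟩ := Metric.mem_closure_iff.1 hy τ h.τpos
  have h1' : ‖p y'‖ ≤ 5 / 2 * s := h1
  have := norm_near (h.cc y' (by linarith [h.spos]) y (by rw [dist_comm]; exact h2.le))
  linarith [h.es, h.spos]

end Loc

end Pool.Agent.MP_7f5071_gt.Pat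

end MrgPart1

-- ======== part 2: formerly Pool.Agent.MP_7f5071_gt.Pat
section MrgPart2

/-! One patch. -/

namespace Pool.Agent.MP_7f5071_gt

open Filter Topology Set Metric

universe u

namespace Pat

variable {X : Type*} [MetricSpace X] {N : ℕ}

/-- The operator with prescribed columns. -/
noncomputable def op (u v : V N) : R2 →L[ℝ] V N :=
  (ContinuousLinearMap.fst ℝ ℝ ℝ).smulRight u + (ContinuousLinearMap.snd ℝ ℝ ℝ).smulRight v

theorem op_apply (u v : V N) (w : R2) : op u v w = w.1 • u + w.2 • v := rfl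

theorem op_close {u v : V N} {A : R2 →L[ℝ] V N} {k : ℝ} (hu : ‖u - A (1, 0)‖ ≤ k)
    (hv : ‖v - A (0, 1)‖ ≤ k) (w : R2) : ‖op u v w - A w‖ ≤ 2 * k * ‖w‖ := by
  have e1 : A w = w.1 • A (1, 0) + w.2 • A (0, 1) := by
    rw [← map_smul, ← map_smul, ← map_add]
    congr 1
    ext <;> simp
  have e2 : op u v w - A w = w.1 • (u - A (1, 0)) + w.2 • (v - A (0, 1)) := by
    rw [op_apply, e1, smul_sub, smul_sub]; abel
  have h1 : ‖w.1‖ ≤ ‖w‖ := norm_fst_le w
  have h2 : ‖w.2‖ ≤ ‖w‖ := norm_snd_le w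
  have h3 := mul_le_mul h1 hu (norm_nonneg _) (norm_nonneg _)
  have h4 := mul_le_mul h2 hv (norm_nonneg _) (norm_nonneg _)
  rw [e2]
  refine (norm_add_le _ _).trans ?_
  rw [norm_smul, norm_smul]
  linarith

theorem chart_dist {G : Set X} {π : X → R2} {J : ℕ} {ξ : Fin J → R2} (h : Chart G π ξ)
    {x y : X} (hx : x ∈ G) (hy : y ∈ G) : dist x y ≤ 6 * ‖π x - π y‖ := by
  have h1 := h.low x hx y hy
  have h2 := nrm_le_norm h.normal (π x - π y)
  linarith

theorem column {H : X → V N} {L β s e : ℝ} {G : Set X} {π : X → R2} {J : ℕ} {ξ : Fin J → R2}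
    {A : R2 →L[ℝ] V N} (h : Good H L β G π ξ A) (hβ : 0 ≤ β) (hL0 : 0 ≤ L) (hL : L + β ≤ 5 / 2)
    (hs : 0 < s) (he : e ≤ 1 / 100) {x xc : X} (hx : x ∈ G) (hc : xc ∈ G) {w : R2}
    (hw : ‖w‖ ≤ 1) (hd : ‖π x - π xc - s • w‖ ≤ e * s) :
    ‖s⁻¹ • (H x - H xc) - A w‖ ≤ 7 * β + 5 * e ∧ dist x xc ≤ 7 * s := by
  have h1 := chart_dist h.toChart hx hc
  have h2 := (norm_near hd).1
  have h3 : ‖s • w‖ ≤ s := by
    rw [norm_smul, Real.norm_eq_abs, abs_of_pos hs]
    exact mul_le_of_le_one_right hs.le hw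
  have h4 : e * s ≤ s / 100 := by nlinarith
  have h5 : dist x xc ≤ 7 * s := by linarith
  refine ⟨?_, h5⟩
  have e1 : s⁻¹ • (H x - H xc) - A w =
      s⁻¹ • ((H x - H xc - A (π x - π xc)) + A (π x - π xc - s • w)) := by
    rw [map_sub A (π x - π xc), map_smul, sub_add_sub_cancel, smul_sub (s⁻¹) (H x - H xc),
      smul_smul, inv_mul_cancel₀ hs.ne', one_smul]
  have h6 := h.aff x hx xc hc
  have h7 := h.opn (π x - π xc - s • w)
  have h8 := nrm_le_norm h.normal (π x - π xc - s • w)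
  have h9 : (L + β) * nrm ξ (π x - π xc - s • w) ≤ 5 / 2 * (2 * (e * s)) :=
    mul_le_mul hL (by linarith) (nrm_nonneg _) (by norm_num)
  have h10 := mul_le_mul_of_nonneg_left h5 hβ
  rw [e1, norm_smul, Real.norm_eq_abs, abs_of_pos (inv_pos.2 hs), inv_mul_le_iff₀ hs]
  refine (norm_add_le _ _).trans ?_
  nlinarith

theorem interp_plip {F Ψ : X → V N} {v : X → ℝ} {K M : ℝ} {y : X}
    (hv : ∀ y, v y ∈ Icc (0 : ℝ) 1) (hF : PLip K F y) (hΨ : PLip K Ψ y)
    (hM : ∀ᶠ y' in 𝓝 y, |v y' - v y| * ‖Ψ y - F y‖ ≤ M * dist y' y) :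
    PLip (K + M) (fun y => F y + v y • (Ψ y - F y)) y := by
  filter_upwards [hF, hΨ, hM] with y' h1 h2 h3
  have e : F y' + v y' • (Ψ y' - F y') - (F y + v y • (Ψ y - F y)) =
      (1 - v y') • (F y' - F y) + v y' • (Ψ y' - Ψ y) + (v y' - v y) • (Ψ y - F y) := by
    simp only [smul_sub, sub_smul, one_smul]; abel
  have h4 := (hv y').1
  have h5 := sub_nonneg.2 (hv y').2
  rw [e]
  refine (norm_add₃_le).trans ?_
  rw [norm_smul, norm_smul, norm_smul, Real.norm_eq_abs, Real.norm_eq_abs, Real.norm_eq_abs,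
    abs_of_nonneg h4, abs_of_nonneg h5]
  have h6 := mul_le_mul_of_nonneg_left h1 h5
  have h7 := mul_le_mul_of_nonneg_left h2 h4
  nlinarith

theorem mem_span {S : Set (V N)} {a b c d : V N} (ha : a ∈ S) (hb : b ∈ S) (hc : c ∈ S)
    (hd : d ∈ S) (t x y : ℝ) :
    a + t • (b + (x • (c - b) + y • (d - b)) - a) ∈ affineSpan ℝ S := by
  have hb' := mem_affineSpan ℝ hb
  have h1 : b + (x • (c - b) + y • (d - b)) ∈ affineSpan ℝ S := by
    have h2 : x • (c - b) + y • (d - b) ∈ (affineSpan ℝ S).direction :=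
      Submodule.add_mem _
        (Submodule.smul_mem _ _ (AffineSubspace.vsub_mem_direction (mem_affineSpan ℝ hc) hb'))
        (Submodule.smul_mem _ _ (AffineSubspace.vsub_mem_direction (mem_affineSpan ℝ hd) hb'))
    have := AffineSubspace.vadd_mem_of_mem_direction h2 hb'
    rwa [vadd_eq_add, add_comm] at this
  have := AffineSubspace.smul_vsub_vadd_mem (affineSpan ℝ S) t h1 (mem_affineSpan ℝ ha)
    (mem_affineSpan ℝ ha)
  rwa [vsub_eq_sub, vadd_eq_add, add_comm] at this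

end Pat

open Pat in
theorem pat (hL1 : L1Stmt.{u}) : PatStmt.{u} := by
  intro ε hε γ hγ
  obtain ⟨c, hc0, hcε, hc1⟩ : ∃ c : ℝ, 0 < c ∧ c ≤ ε / 1000 ∧ c ≤ 1 / 10 :=
    ⟨min (ε / 1000) (1 / 10), by positivity, min_le_left _ _, min_le_right _ _⟩
  obtain ⟨e, he0, hec, heγ⟩ : ∃ e : ℝ, 0 < e ∧ e ≤ c / 2000 ∧ e ≤ γ * c / 12 :=
    ⟨min (c / 2000) (γ * c / 12), by positivity, min_le_left _ _, min_le_right _ _⟩
  obtain ⟨β', hβ', h1⟩ := hL1 e he0
  refine ⟨c / 100, by positivity, β', hβ', ?_⟩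
  intro X _ _ hX N H L hL0 hL2 hH G π J ξ A hG ν hν xc s δ s0 hS
  obtain ⟨σ, ω, τ, hτ, hdens, hloc⟩ := h1 X hX G π J ξ hG.toChart ν hν xc s δ s0 hS
  have hs := hS.spos
  have hsδ := hS.sδ
  have hxc := hS.mem
  have hn := hG.normal
  obtain ⟨p, hp⟩ : ∃ p : X → R2, ∀ y, p y = π (ν y) - π xc := ⟨_, fun _ => rfl⟩
  have h : Loc ξ p σ ω ν xc s δ e τ := by
    refine ⟨hs, hτ, he0.le, by linarith, hn, ?_, ?_, ?_, ?_, ?_, ?_, ?_⟩ <;> intro y hy <;>
      rw [hp] at hy <;> obtain ⟨a1, a2, a3, a4, a5, a6, a7⟩ := hloc y hy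
    · exact a1
    · intro y' hy'
      rw [hp, hp, sub_sub_sub_cancel_right]
      exact a2 y' hy'
    · rw [hp]; exact a3
    · rw [hp]; exact a4
    · exact a5
    · exact a6
    · exact a7
  have hes := h.es
  have hes0 := h.es0
  have hνG : ∀ x ∈ G, ν x = x := fun x hx => by
    have := (hν x).2 x hx
    rw [dist_self] at this
    exact (dist_le_zero.1 this).symm
  have hpG : ∀ x ∈ G, p x = π x - π xc := fun x hx => by rw [hp, hνG x hx]
  -- anchors
  obtain ⟨anc, hancG, hanc⟩ : ∃ anc : R2 → X, (∀ w, anc w ∈ G) ∧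
      ∀ w, ‖w‖ ≤ 5 * s → ‖π (anc w) - π xc - w‖ ≤ e * s := by
    have : ∀ w : R2, ∃ x ∈ G, ‖w‖ ≤ 5 * s → ‖π x - π xc - w‖ ≤ e * s := fun w => by
      by_cases hw : ‖w‖ ≤ 5 * s
      · obtain ⟨x, hx, hx'⟩ := hdens w hw
        exact ⟨x, hx, fun _ => hx'⟩
      · exact ⟨xc, hxc, fun h => absurd h hw⟩
    choose anc h1 h2 using this
    exact ⟨anc, h1, h2⟩
  have hunit : ∀ w : R2, ‖w‖ ≤ 1 → ‖s • w‖ ≤ 5 * s := fun w hw => by
    rw [norm_smul, Real.norm_eq_abs, abs_of_pos hs]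
    nlinarith [norm_nonneg w]
  have hw1 : ‖((1, 0) : R2)‖ ≤ 1 := by simp [Prod.norm_def]
  have hw2 : ‖((0, 1) : R2)‖ ≤ 1 := by simp [Prod.norm_def]
  obtain ⟨hu, hud⟩ := column hG (by positivity) hL0 (by linarith) hs (by linarith)
    (hancG (s • ((1, 0) : R2))) hxc hw1 (hanc _ (hunit _ hw1))
  obtain ⟨hv, hvd⟩ := column hG (by positivity) hL0 (by linarith) hs (by linarith)
    (hancG (s • ((0, 1) : R2))) hxc hw2 (hanc _ (hunit _ hw2))
  set x1 := anc (s • ((1, 0) : R2))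
  set x2 := anc (s • ((0, 1) : R2))
  obtain ⟨A', hA'⟩ : ∃ A' : R2 →L[ℝ] V N,
    A' = op (s⁻¹ • (H x1 - H xc)) (s⁻¹ • (H x2 - H xc)) := ⟨_, rfl⟩
  have hclose : ∀ w, ‖A' w - A w‖ ≤ c / 5 * ‖w‖ := fun w => by
    rw [hA']
    exact (op_close hu hv w).trans
      (mul_le_mul_of_nonneg_right (by linarith) (norm_nonneg _))
  have hA'n : ∀ w, ‖A' w‖ ≤ (L + c / 4) * nrm ξ w := fun w => by
    have a1 := norm_le_norm_add_norm_sub' (A' w) (A w)
    have a2 := hG.opn w
    have a3 := mul_le_mul_of_nonneg_left (norm_le_nrm hn w) (by positivity : 0 ≤ c / 5)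
    have a4 := mul_nonneg hc0.le (nrm_nonneg (ξ := ξ) w)
    have a5 := hclose w
    nlinarith
  have hA'5 : ∀ w, ‖A' w‖ ≤ 5 * ‖w‖ := fun w => by
    have a1 := hA'n w
    have a2 : (L + c / 4) * nrm ξ w ≤ 5 / 2 * (2 * ‖w‖) :=
      mul_le_mul (by linarith) (nrm_le_norm hn w) (nrm_nonneg _) (by norm_num)
    linarith
  have hAσ : ∀ y, ‖p y‖ ≤ 4 * s → ∀ᶠ y' in 𝓝 y, ∀ a ∈ Icc (0 : ℝ) 1, ∀ b ∈ Icc (0 : ℝ) 1,
      ‖A' (a * (σ y' - σ y).1, b * (σ y' - σ y).2)‖ ≤ (L + c) * dist y' y := fun y hy => by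
    filter_upwards [h.σl y hy] with y' hy' a ha b hb
    have a1 := hA'n (a * (σ y' - σ y).1, b * (σ y' - σ y).2)
    have a2 := mul_le_mul_of_nonneg_left ((nrm_scale hn (σ y' - σ y) ha hb).trans hy')
      (by positivity : 0 ≤ L + c / 4)
    have a3 : (L + c / 4) * (1 + e) ≤ L + c := by nlinarith
    have a4 := mul_le_mul_of_nonneg_right a3 (dist_nonneg (x := y') (y := y))
    nlinarith
  have hs2 : s ≤ (1 + c) * s := by nlinarith
  obtain ⟨Ψ, hΨ⟩ : ∃ Ψ : X → V N, ∀ y, Ψ y = H xc + A' (Phi s ((1 + c) * s) (σ y)) :=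
    ⟨_, fun _ => rfl⟩
  have hΨl : ∀ y, ‖p y‖ ≤ 4 * s → PLip (L + c) Ψ y := fun y hy => by
    filter_upwards [hAσ y hy] with y' hy'
    obtain ⟨a, ha, b, hb, hab⟩ := Phi_slope hs.le hs2 (σ y) (σ y')
    rw [hΨ, hΨ, add_sub_add_left_eq_sub, ← map_sub, hab]
    exact hy' a ha b hb
  have hshallow : ∀ y, ‖p y‖ ≤ 5 / 2 * s → dist y (ν y) ≤ e * s →
      ‖Ψ y - H y‖ ≤ 6 * c * s := fun y hy hd => by
    have hνy := (hν y).1
    have e1 : Ψ y - H y = A' (Phi s ((1 + c) * s) (σ y) - σ y) + A' (σ y - p y) +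
        (A' (p y) - A (p y)) - ((H (ν y) - H xc - A (π (ν y) - π xc)) + (H y - H (ν y))) := by
      rw [hΨ, map_sub A', map_sub A', ← hp]; abel
    have a1 := (hA'5 _).trans
      (mul_le_mul_of_nonneg_left (Phi_sub hs.le hs2 (σ y)) (by norm_num))
    have a2 := (hA'5 _).trans
      (mul_le_mul_of_nonneg_left (h.σp y (by linarith)) (by norm_num))
    have a3 := (hclose (p y)).trans (mul_le_mul_of_nonneg_left hy (by positivity))
    have a4 := hG.aff _ hνy _ hxc
    have a5 := chart_dist hG.toChart hνy hxc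
    rw [← hp] at a5
    have a6 : c / 100 * dist (ν y) xc ≤ c / 100 * (15 * s) :=
      mul_le_mul_of_nonneg_left (by linarith) (by positivity)
    have a7 : ‖H y - H (ν y)‖ ≤ 2 * (e * s) :=
      (hH y (ν y)).trans (mul_le_mul hL2 hd dist_nonneg (by norm_num))
    have a8 := mul_le_mul_of_nonneg_right hec hs.le
    have a9 := mul_pos hc0 hs
    rw [e1]
    refine (norm_sub_le _ _).trans ((add_le_add norm_add₃_le (norm_add_le _ _)).trans ?_)
    nlinarith
  have h32 : (3 / 2 : ℝ) < 2 := by norm_num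
  have hθab : 1 + 23 * c / 1000 < 1 + 27 * c / 1000 := by linarith
  have hθb : 1 + 27 * c / 1000 ≤ 2 := by linarith
  have ht2 : 1 + 9 * c / 10 < 2 := by linarith
  obtain ⟨H', hH'⟩ : ∃ H' : X → V N,
    H' = fun y => H y + rc p ω s (3 / 2) 2 y • (Ψ y - H y) := ⟨_, rfl⟩
  have hfar : ∀ y, 5 / 2 * s < ‖p y‖ → ∀ y', dist y' y ≤ τ → H' y' = H y' := fun y hy y' hd => by
    simp only [hH', h.rc_far h32 le_rfl hy hd, zero_smul, add_zero]
  have hLc : (0 : ℝ) ≤ L + ε := by linarith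
  have hlip : Lip (L + ε) H' := by
    refine lip_of_plip hX.geod hLc fun y => ?_
    rcases le_or_gt ‖p y‖ (5 / 2 * s) with hy | hy
    · have b1 : PLip (L + c) H y := Eventually.of_forall fun y' =>
        (hH y' y).trans (mul_le_mul_of_nonneg_right (by linarith) dist_nonneg)
      have b2 : ∀ᶠ y' in 𝓝 y, |rc p ω s (3 / 2) 2 y' - rc p ω s (3 / 2) 2 y| * ‖Ψ y - H y‖ ≤
          120 * c * dist y' y := by
        rcases h.rc_alt h32 le_rfl y with hc | ⟨-, hd, -⟩
        · filter_upwards [hc] with y' hy'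
          rw [hy', sub_self, abs_zero, zero_mul]
          positivity
        · filter_upwards [h.rc_plip h32 le_rfl y] with y' hy'
          rw [Real.norm_eq_abs] at hy'
          refine (mul_le_mul hy' (hshallow y hy hd) (norm_nonneg _) (by positivity)).trans
            (le_of_eq ?_)
          field_simp
          ring
      have b3 := interp_plip (rc_mem p ω s (3 / 2) 2) b1 (hΨl y (by linarith)) b2
      rw [← hH'] at b3
      filter_upwards [b3] with y' hy'
      exact hy'.trans (mul_le_mul_of_nonneg_right (by linarith) dist_nonneg)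
    · filter_upwards [h.near y] with y' hy'
      rw [hfar y hy y' hy', hfar y hy y (by simpa using hτ.le)]
      exact (hH y' y).trans (mul_le_mul_of_nonneg_right (by linarith) dist_nonneg)
  have hRm : ∀ y, rho p σ s y ≤ 1 + 9 * c / 10 →
      ‖p y‖ ≤ 5 / 2 * s ∧ ‖σ y‖ = rho p σ s y * s ∧ ‖σ y‖ ≤ (1 + c) * s := fun y hy => by
    obtain ⟨a1, a2⟩ := h.rho_lt ht2 hy
    have a3 := norm_near (h.σp y (by linarith))
    have a4 := mul_le_mul_of_nonneg_right hy hs.le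
    have a5 := mul_le_mul_of_nonneg_right hc1 hs.le
    have a6 := mul_pos hc0 hs
    refine ⟨?_, a2, ?_⟩ <;> nlinarith
  have hancσ : ∀ w : R2, ‖w‖ ≤ s → ‖p (anc w)‖ ≤ 3 * s ∧ ‖σ (anc w) - w‖ ≤ 2 * (e * s) :=
    fun w hw => by
      have a1 := hanc w (by linarith)
      rw [← hpG _ (hancG w)] at a1
      have a2 := (norm_near a1).1
      have a3 := h.σp (anc w) (by linarith)
      have a4 := norm_sub_le_norm_sub_add_norm_sub (σ (anc w)) (p (anc w)) w
      constructor <;> linarith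
  have heγ' : 12 * (e * s) ≤ γ * c * s := by nlinarith
  refine ⟨⟨c, s, 1 + 9 * c / 10, rho p σ s, σ, A', H xc, anc,
    rc p ω s (1 + 23 * c / 1000) (1 + 27 * c / 1000)⟩, H',
    closure {y | ‖p y‖ ≤ 5 / 2 * s}, hlip, ?_, ?_, rfl, isClosed_closure, ?_, ?_, ?_, ?_⟩
  · -- nearness
    intro y
    have hδ : 0 < δ := by linarith
    by_cases hy : ‖p y‖ ≤ 3 * s
    · have a1 := h.dd y (by linarith)
      constructor
      · have a2 : H' y - H y = rc p ω s (3 / 2) 2 y • (Ψ y - H y) := by simp [hH']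
        have a3 := rc_mem p ω s (3 / 2) 2 y
        have a4 : Ψ y - H y = A' (Phi s ((1 + c) * s) (σ y)) - (H y - H xc) := by
          rw [hΨ]; abel
        have a5 := (hA'5 _).trans
          (mul_le_mul_of_nonneg_left (Phi_norm hs.le hs2 (σ y)) (by norm_num))
        have a6 := (norm_near (h.σp y (by linarith))).1
        have a7 : ‖H y - H xc‖ ≤ 2 * δ :=
          (hH y xc).trans (mul_le_mul hL2 a1.le dist_nonneg (by norm_num))
        have a8 : ‖Ψ y - H y‖ ≤ 3 * δ := by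
          rw [a4]
          refine (norm_sub_le _ _).trans ?_
          linarith
        rw [a2, norm_smul, Real.norm_eq_abs, abs_of_nonneg a3.1]
        exact (mul_le_of_le_one_left (norm_nonneg _) a3.2).trans a8
      · have hm : ∀ x, dist x xc ≤ 7 * s → H x ∈ H '' ball y (3 * δ) := fun x hx => by
          refine mem_image_of_mem H (mem_ball.2 ?_)
          have := dist_triangle_right x y xc
          linarith
        have := mem_span (mem_image_of_mem H (mem_ball_self (by linarith : 0 < 3 * δ)))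
          (hm xc (by rw [dist_self]; linarith)) (hm x1 hud) (hm x2 hvd)
          (rc p ω s (3 / 2) 2 y) ((Phi s ((1 + c) * s) (σ y)).1 * s⁻¹)
          ((Phi s ((1 + c) * s) (σ y)).2 * s⁻¹)
        simpa only [hH', hΨ, hA', op_apply, smul_smul] using this
    · have a2 : H' y = H y := by
        simp only [hH', rc, cut_neg hy, zero_smul, add_zero]
      rw [a2, sub_self, norm_zero]
      exact ⟨by linarith, mem_affineSpan ℝ (mem_image_of_mem H (mem_ball_self (by linarith)))⟩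
  · -- the patch
    refine ⟨hc0, hc1, hs, by show s ≤ 2 * δ; linarith, by show 1 + 8 * c / 10 ≤ 1 + 9 * c / 10; linarith,
      le_rfl, lip_of_plip hX.geod (by show 0 ≤ 2 / s; positivity) h.rho_plip,
      fun y hy => (hRm y hy).2.1, ?_, fun y hy => h.σ_plip (by linarith [(hRm y hy).1]), ?_,
      hA'5, ?_, ?_, rc_mem _ _ _ _ _, ?_, ?_, ?_, ?_, ?_⟩
    · intro y hy
      have a1 : rc p ω s (3 / 2) 2 y = 1 := h.rc_one h32 ht2 (by linarith) hy
      show H' y = H xc + A' (clamp s (σ y))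
      simp only [hH', a1, one_smul, add_sub_cancel, hΨ, Phi_eq (hRm y hy).2.2]
    · intro y hy
      filter_upwards [hAσ y (by linarith [(hRm y hy).1])] with y' hy' a ha b hb
      exact (hy' a ha b hb).trans (mul_le_mul_of_nonneg_right (by linarith) dist_nonneg)
    · intro w hw
      obtain ⟨a1, a2⟩ := hancσ w hw
      have a3 := (norm_near a2).1
      have hw' : ‖w‖ ≤ s := hw
      have a4 := mul_le_mul_of_nonneg_right hec hs.le
      refine ⟨h.rho_le a1 ?_, ?_⟩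
      · show ‖σ (anc w)‖ ≤ (1 + c / 1000) * s
        nlinarith
      · show ‖σ (anc w) - w‖ ≤ γ * c * s
        linarith
    · intro w w' hw hw'
      have hw1 : ‖w‖ ≤ s := hw
      have hw2 : ‖w'‖ ≤ s := hw'
      have a1 := chart_dist hG.toChart (hancG w) (hancG w')
      have a2 := hanc w (by linarith)
      have a3 := hanc w' (by linarith)
      have e1 : π (anc w) - π (anc w') =
          (π (anc w) - π xc - w) + (w - w') - (π (anc w') - π xc - w') := by abel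
      have a4 : ‖π (anc w) - π (anc w')‖ ≤ e * s + ‖w - w'‖ + e * s := by
        rw [e1]
        exact (norm_sub_le _ _).trans (add_le_add ((norm_add_le _ _).trans (by linarith)) a3)
      show dist (anc w) (anc w') ≤ 6 * ‖w - w'‖ + γ * c * s
      linarith
    · intro y hy
      have hy' : rho p σ s y ≤ 1 + 2 * c / 100 := hy
      exact h.rc_one hθab (by linarith) (by linarith) hy'
    · intro y hy
      have hy' : 1 + 3 * c / 100 ≤ rho p σ s y := hy
      exact h.rc_zero hθab (by linarith) hy'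
    · refine lip_of_plip hX.geod (by show 0 ≤ 3000 / (c * s); positivity) fun y => ?_
      filter_upwards [h.rc_plip hθab hθb y] with y' hy'
      refine hy'.trans (mul_le_mul_of_nonneg_right ?_ dist_nonneg)
      show _ ≤ 3000 / (c * s)
      rw [div_le_div_iff₀ (by nlinarith) (by positivity)]
      nlinarith [mul_pos hc0 hs]
    · intro y
      rcases h.rc_alt hθab hθb y with hc | ⟨a1, a2, a3⟩
      · exact Or.inl hc
      · right
        show dist y (anc (clamp s (σ y))) ≤ c * s / 4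
        have b0 := mul_pos hc0 hs
        have b1 := clamp_norm hs.le (σ y)
        have b2 := hanc (clamp s (σ y)) (by linarith)
        have b3 := h.σp y (by linarith)
        have b4 := norm_near (h.ωp y (by linarith))
        have b5 := norm_near b3
        have b6 : ‖σ y - clamp s (σ y)‖ ≤ 27 * c / 1000 * s + 2 * (e * s) :=
          clamp_sub hs.le (by positivity) (by linarith)
        have b7 := chart_dist hG.toChart (hν y).1 (hancG (clamp s (σ y)))
        have e1 : π (ν y) - π (anc (clamp s (σ y))) = (σ y - clamp s (σ y)) - (σ y - p y) -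
            (π (anc (clamp s (σ y))) - π xc - clamp s (σ y)) := by
          rw [hp]; abel
        have b8 : ‖π (ν y) - π (anc (clamp s (σ y)))‖ ≤
            27 * c / 1000 * s + 2 * (e * s) + e * s + e * s := by
          rw [e1]
          exact (norm_sub_le _ _).trans (add_le_add ((norm_sub_le _ _).trans (add_le_add b6 b3)) b2)
        have b9 := dist_triangle y (ν y) (anc (clamp s (σ y)))
        have b10 := mul_le_mul_of_nonneg_right hec hs.le
        nlinarith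
    · intro y hy y' hy'
      have a1 := h.dd y (by linarith [(hRm y hy).1])
      have a2 := h.dd y' (by linarith [(hRm y' hy').1])
      have := dist_triangle_right y y' xc
      linarith
  · intro y hy
    have : 5 / 2 * s < ‖p y‖ := not_le.1 fun hc => hy (subset_closure hc)
    exact hfar y this y (by simpa using hτ.le)
  · intro y hy
    exact subset_closure (hRm y hy).1
  · intro y hy
    have := h.clos hy
    exact ⟨by rwa [← hp], h.dd y (by linarith)⟩
  · intro x hx hd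
    rw [← hpG x hx] at hd
    have a1 := (norm_near (h.σp x (by linarith))).1
    have a2 : rho p σ s x ≤ 19 / 20 := h.rho_le (by linarith) (by linarith)
    show rho p σ s x < 1
    linarith

end Pool.Agent.MP_7f5071_gt

end MrgPart2

-- marker of a merged file
example : 731051 + 872170 = 731051 + 872170 := rfl
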