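import Mathlib.CategoryTheory.Countable
import Mathlib.Tactic.Monotonicity.Lemmas
import Mathlib.Algebra.Order.Ring.Star
import Mathlib.Analysis.Calculus.FDeriv.Measurable
import Mathlib.MeasureTheory.Integral.Prod
import Mathlib.Analysis.BoundedVariation
import Mathlib.Topology.MetricSpace.UniformConvergence
import Mathlib.Analysis.SpecialFunctions.PolarCoord
import Mathlib.MeasureTheory.Measure.RegularityCompacts
import Mathlib.Topology.UniformSpace.Ascoli
import Mathlib.Topology.UniformSpace.Uniformizable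
import Pool.Agent.MP_7f5071_gt.L1.Base
import Pool.Agent.MP_7f5071_gt.L1.Sig
import Pool.Agent.MP_7f5071_gt.Spec

-- ======== part 0: formerly Pool.Agent.MP_7f5071_gt.L1.Area
section MrgPart0

/-! Module L1: holes near a density point. -/

namespace Pool.Agent.MP_7f5071_gt.L1

open Filter Topology Set Metric MeasureTheory

lemma vol_closedBall (z : R2) {r : ℝ} (hr : 0 ≤ r) :
    volume (closedBall z r) = ENNReal.ofReal (4 * r ^ 2) := by
  obtain ⟨x, y⟩ := z
  rw [← closedBall_prod_same, Measure.volume_eq_prod, Measure.prod_prod, Real.volume_closedBall,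
    Real.volume_closedBall, ← ENNReal.ofReal_mul (by positivity)]
  congr 1; ring

lemma vol_ball (z : R2) {r : ℝ} (hr : 0 ≤ r) :
    volume (ball z r) = ENNReal.ofReal (4 * r ^ 2) := by
  obtain ⟨x, y⟩ := z
  rw [← ball_prod_same, Measure.volume_eq_prod, Measure.prod_prod, Real.volume_ball,
    Real.volume_ball, ← ENNReal.ofReal_mul (by positivity)]
  congr 1; ring

lemma ball_infDist_subset {P : Set R2} (w : R2) {r : ℝ} (hr : ‖w‖ + infDist w P ≤ r) :
    ball w (infDist w P) ⊆ closedBall 0 r \ P := by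
  intro p hp
  refine ⟨?_, fun hP => ?_⟩
  · rw [mem_ball] at hp
    rw [mem_closedBall, dist_zero_right]
    have := norm_add_le (p - w) w
    rw [sub_add_cancel, ← dist_eq_norm] at this
    linarith
  · have := infDist_le_dist_of_mem (x := w) hP
    rw [mem_ball, dist_comm] at hp
    linarith

/-- The holes are small. -/
lemma infDist_le_of_dens {P : Set R2} (h0 : (0 : R2) ∈ P) {b s0 : ℝ} (hb : 0 ≤ b)
    (dens : ∀ r, 0 < r → r ≤ s0 → volume (closedBall 0 r \ P) ≤ ENNReal.ofReal (b ^ 2 * r ^ 2))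
    (w : R2) (hw : ‖w‖ ≤ s0 / 2) : infDist w P ≤ b * ‖w‖ := by
  have h1 : infDist w P ≤ ‖w‖ := by simpa using infDist_le_dist_of_mem (x := w) h0
  rcases (infDist_nonneg (x := w) (s := P)).eq_or_lt with h | h
  · rw [← h]; positivity
  have h2 := (measure_mono (ball_infDist_subset (P := P) w (r := 2 * ‖w‖) (by linarith))).trans
    (dens (2 * ‖w‖) (by linarith) (by linarith))
  rw [vol_ball _ h.le, ENNReal.ofReal_le_ofReal_iff (by positivity)] at h2
  refine le_of_sq_le_sq ?_ (by positivity)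
  nlinarith

/-- The set on which the scale function is positive has small area. -/
lemma area_pos {P : Set R2} (h0 : (0 : R2) ∈ P) {b s s0 K : ℝ} (hb : 0 ≤ b) (hs : 0 < s)
    (hss : 40 * s ≤ s0) (hK : 1 ≤ K) (hKb : K * b ≤ 1 / 2)
    (dens : ∀ r, 0 < r → r ≤ s0 → volume (closedBall 0 r \ P) ≤ ENNReal.ofReal (b ^ 2 * r ^ 2))
    {D : R2 → ℝ} (hD : IsD P (s0 / 2) K D) :
    volume ({z | 0 < D z} ∩ closedBall 0 (10 * s)) ≤
      ENNReal.ofReal (40000 * K ^ 2 * b ^ 2 * s ^ 2) := by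
  set t : Set R2 := {w | ‖w‖ ≤ 20 * s ∧ 0 < infDist w P} with ht
  have hle : ∀ w : R2, infDist w P ≤ ‖w‖ := fun w => by
    simpa using infDist_le_dist_of_mem (x := w) h0
  obtain ⟨u, hut, hdisj, hcov⟩ :=
    Vitali.exists_disjoint_subfamily_covering_enlargement_closedBall t (fun w => w)
      (fun w => K * infDist w P) (K * (20 * s))
      (fun w hw => mul_le_mul_of_nonneg_left ((hle w).trans hw.1) (by linarith)) 5 (by norm_num)
  have hdisj' : u.PairwiseDisjoint fun w => ball w (infDist w P) := by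
    refine hdisj.mono fun w => ?_
    refine ball_subset_closedBall.trans (closedBall_subset_closedBall ?_)
    exact le_mul_of_one_le_left infDist_nonneg hK
  have hcount : u.Countable :=
    hdisj'.countable_of_isOpen (fun w _ => isOpen_ball)
      (fun w hw => nonempty_ball.2 (hut hw).2)
  have hsub : {z | 0 < D z} ∩ closedBall 0 (10 * s) ⊆
      ⋃ w ∈ u, closedBall w (5 * (K * infDist w P)) := by
    rintro z ⟨hz, hz'⟩
    rw [mem_closedBall, dist_zero_right] at hz'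
    have hex : ∃ w : R2, ‖w‖ ≤ s0 / 2 ∧ ‖w - z‖ < K * infDist w P := by
      by_contra hcon
      push Not at hcon
      have := hD.le z 0 le_rfl fun w hw => by linarith [hcon w hw]
      exact absurd hz (not_lt.2 this)
    obtain ⟨w, hw, hwz⟩ := hex
    have h1 := infDist_le_of_dens h0 hb dens w hw
    have h2 : ‖w‖ ≤ ‖w - z‖ + ‖z‖ := by
      have := norm_add_le (w - z) z
      rwa [sub_add_cancel] at this
    have h3 : K * infDist w P ≤ K * b * ‖w‖ := by
      have := mul_le_mul_of_nonneg_left h1 (by linarith : 0 ≤ K)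
      linarith
    have h4 : K * b * ‖w‖ ≤ 1 / 2 * ‖w‖ := mul_le_mul_of_nonneg_right hKb (norm_nonneg _)
    have h5 : 0 < infDist w P := by
      by_contra h
      have h' : infDist w P = 0 := le_antisymm (not_lt.1 h) infDist_nonneg
      rw [h', mul_zero] at hwz
      exact absurd hwz (not_lt.2 (norm_nonneg _))
    obtain ⟨w', hw', hsub⟩ := hcov w ⟨by linarith, h5⟩
    refine mem_biUnion hw' (hsub ?_)
    rw [mem_closedBall, dist_comm, dist_eq_norm]
    exact hwz.le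
  have hK0 : 0 ≤ K := by linarith
  calc volume ({z | 0 < D z} ∩ closedBall 0 (10 * s))
      ≤ volume (⋃ w ∈ u, closedBall w (5 * (K * infDist w P))) := measure_mono hsub
    _ ≤ ∑' w : u, volume (closedBall (w : R2) (5 * (K * infDist (w : R2) P))) :=
        measure_biUnion_le _ hcount _
    _ = ∑' w : u, ENNReal.ofReal (25 * K ^ 2) * volume (ball (w : R2) (infDist (w : R2) P)) := by
        refine tsum_congr fun w => ?_
        have := infDist_nonneg (x := (w : R2)) (s := P)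
        rw [vol_closedBall _ (by positivity), vol_ball _ this,
          ← ENNReal.ofReal_mul (by positivity)]
        congr 1; ring
    _ = ENNReal.ofReal (25 * K ^ 2) * volume (⋃ w ∈ u, ball w (infDist w P)) := by
        rw [ENNReal.tsum_mul_left, measure_biUnion hcount hdisj' fun _ _ => measurableSet_ball]
    _ ≤ ENNReal.ofReal (25 * K ^ 2) * ENNReal.ofReal (b ^ 2 * (40 * s) ^ 2) := by
        refine mul_le_mul_right (le_trans (measure_mono ?_) (dens (40 * s) (by linarith) hss)) _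
        refine iUnion₂_subset fun w hw => ball_infDist_subset w ?_
        have := (hut hw).1
        have := hle w
        linarith
    _ = ENNReal.ofReal (40000 * K ^ 2 * b ^ 2 * s ^ 2) := by
        rw [← ENNReal.ofReal_mul (by positivity)]
        congr 1; ring

/-- Translation of the density hypothesis to the origin. -/
lemma vol_shift {X : Type*} (G : Set X) (π : X → R2) (c : R2) (r : ℝ) :
    volume (closedBall (0 : R2) r \ (fun x => π x - c) '' G) =
      volume (closedBall c r \ π '' G) := by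
  rw [← measure_preimage_add_right volume c (closedBall c r \ π '' G)]
  congr 1
  ext z
  simp only [Set.mem_sdiff, mem_closedBall, mem_image, mem_preimage, dist_eq_norm,
    add_sub_cancel_right, sub_zero, sub_eq_iff_eq_add]

end Pool.Agent.MP_7f5071_gt.L1

end MrgPart0

-- ======== part 1: formerly Pool.Agent.MP_7f5071_gt.L1.Ring
section MrgPart1

/-! Module L1: consequences of the ring lemma. -/

namespace Pool.Agent.MP_7f5071_gt.L1

open Filter Topology Set Metric MeasureTheory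

variable {X : Type*} [MetricSpace X]

/-- The ring around `x` separates `x` from the far points. -/
def NoPath (G : Set X) (π : X → R2) (xc : X) (δ : ℝ) (x : X) (r : ℝ) : Prop :=
  ∀ y, ((y ∈ G ∧ 3 * r ≤ ‖π y - π x‖) ∨ δ ≤ dist y xc) → ¬ JoinedIn (Tube G π x r)ᶜ x y

/-- The conclusion of the ring lemma with the constant `K`. -/
def RLK (K : ℝ) (G : Set X) (π : X → R2) : Prop :=
  ∀ x ∈ G, ∀ r R : ℝ, 0 < r →
    (∀ w : R2, ‖w - π x‖ ≤ R → ∃ x' ∈ G, ‖π x' - w‖ ≤ (r + ‖w - π x‖) / K) →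
    ∀ y ∈ G, 3 * r ≤ ‖π y - π x‖ → ‖π y - π x‖ ≤ R → ¬ JoinedIn (Tube G π x r)ᶜ x y

/-- The chart is bi-Lipschitz on `G`. -/
def Bil (G : Set X) (π : X → R2) : Prop :=
  ∀ x ∈ G, ∀ y ∈ G, ‖π x - π y‖ ≤ dist x y ∧ dist x y ≤ 6 * ‖π x - π y‖

lemma tri (a b c : R2) : ‖a - c‖ ≤ ‖a - b‖ + ‖b - c‖ := norm_sub_le_norm_sub_add_norm_sub a b c

lemma noPath {G : Set X} {π : X → R2} {K : ℝ} (hK : 1 ≤ K) (hb : Bil G π) (hRL : RLK K G π)
    {xc : X} {s δ s0 : ℝ} (hxc : xc ∈ G) (hs : 0 < s) (hsδ : 100 * s ≤ δ) (hδ : 100 * δ ≤ s0)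
    (lc : ∀ x y, δ ≤ dist x xc → δ ≤ dist y xc → JoinedIn (closedBall xc (100 * s))ᶜ x y)
    {x : X} (hx : x ∈ G) (hx5 : ‖π x - π xc‖ ≤ 5 * s) {r : ℝ} (hr : 0 < r) (hrs : r ≤ s)
    (hn : ∀ w : R2, ‖w‖ ≤ s0 / 2 → ∃ x' ∈ G, ‖π x' - π xc - w‖ ≤ ‖w‖ / 4 ∧
      K * ‖π x' - π xc - w‖ ≤ r + ‖w - (π x - π xc)‖) :
    NoPath G π xc δ x r := by
  have hmain : ∀ y ∈ G, 3 * r ≤ ‖π y - π x‖ → ‖π y - π x‖ ≤ s0 / 4 →
      ¬ JoinedIn (Tube G π x r)ᶜ x y := by
    refine hRL x hx r (s0 / 4) hr fun w hw => ?_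
    have h1 := tri w (π x) (π xc)
    obtain ⟨x', hx', -, h2⟩ := hn (w - π xc) (by linarith)
    refine ⟨x', hx', ?_⟩
    rw [sub_sub_sub_cancel_right, sub_sub_sub_cancel_right] at h2
    rw [le_div_iff₀ (by linarith)]
    linarith
  have hfar : ∀ y, δ ≤ dist y xc → ¬ JoinedIn (Tube G π x r)ᶜ x y := by
    intro y hy hj
    have hw : ‖((2 * δ, 0) : R2)‖ = 2 * δ := by
      rw [Prod.norm_def, Real.norm_eq_abs, Real.norm_eq_abs, abs_zero,
        abs_of_nonneg (by linarith)]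
      exact max_eq_left (by linarith)
    obtain ⟨xo, hxo, h1, -⟩ := hn (2 * δ, 0) (by rw [hw]; linarith)
    rw [hw] at h1
    have h2 : ‖π xo - π xc‖ ≤ 5 / 2 * δ := by
      have := norm_add_le (π xo - π xc - (2 * δ, 0)) ((2 * δ, 0) : R2)
      rw [sub_add_cancel, hw] at this
      linarith
    have h3 : 3 / 2 * δ ≤ ‖π xo - π xc‖ := by
      have := norm_sub_le (π xo - π xc) (π xo - π xc - (2 * δ, 0))
      rw [sub_sub_cancel, hw] at this
      linarith
    have h4 := tri (π xo) (π x) (π xc)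
    have h5 := tri (π xo) (π xc) (π x)
    rw [norm_sub_rev (π xc)] at h5
    refine hmain xo hxo (by linarith) (by linarith) (hj.trans ?_)
    refine (lc y xo hy ?_).mono (compl_subset_compl.2 ?_)
    · have := (hb xo hxo xc hxc).1
      linarith
    · rintro p ⟨x', hx', -, h6, h7⟩
      have h8 := (hb x' hx' xc hxc).2
      have h9 := tri (π x') (π x) (π xc)
      have h10 := dist_triangle p x' xc
      rw [mem_closedBall]
      linarith
  rintro y (⟨hy, h3⟩ | hy)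
  · by_cases h : ‖π y - π x‖ ≤ s0 / 4
    · exact hmain y hy h3 h
    · refine hfar y ?_
      have h1 := (hb y hy xc hxc).1
      have h2 := tri (π y) (π xc) (π x)
      rw [norm_sub_rev (π xc)] at h2
      linarith
  · exact hfar y hy

section Nearest

variable {G : Set X} {π : X → R2} {ν : X → X} {xc : X} {δ r : ℝ}

lemma between_nearest (hν : Nearest G ν) {y p x' : X} (hx' : x' ∈ G)
    (hp : dist (ν y) p + dist p y = dist (ν y) y) : dist p (ν y) ≤ dist p x' := by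
  have h1 := (hν y).2 x' hx'
  have h2 := dist_triangle y p x'
  rw [dist_comm (ν y) p, dist_comm p y, dist_comm (ν y) y] at hp
  linarith

/-- The geodesic from `ν y` to `y` misses the ring around `ν y`. -/
lemma joined_nearest (hX : Geodesic X) (hb : Bil G π) (hν : Nearest G ν) (hr : 0 < r) (y : X) :
    JoinedIn (Tube G π (ν y) r)ᶜ (ν y) y := by
  refine joinedIn_of_between hX _ _ _ fun p hp => ?_
  rintro ⟨x', hx', h1, -, h3⟩
  have h4 := between_nearest hν hx' hp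
  have h5 := (hb x' hx' _ (hν y).1).1
  have h6 := dist_triangle_left x' (ν y) p
  linarith

lemma lt_delta (hX : Geodesic X) (hb : Bil G π) (hν : Nearest G ν) (hr : 0 < r) {y : X}
    (h : NoPath G π xc δ (ν y) r) : dist y xc < δ := by
  by_contra hc
  exact h y (Or.inr (not_lt.1 hc)) (joined_nearest hX hb hν hr y)

/-- Coarse continuity of the nearest point map along paths that miss the ring. -/
lemma cc_join (hX : Geodesic X) (hb : Bil G π) (hν : Nearest G ν) (hr : 0 < r) {y y' : X}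
    (h : NoPath G π xc δ (ν y) r) (hj : JoinedIn (Tube G π (ν y) r)ᶜ y y') :
    ‖π (ν y') - π (ν y)‖ ≤ 3 * r := by
  by_contra hc
  have hc' := not_le.1 hc
  refine h (ν y') (Or.inl ⟨(hν y').1, hc'.le⟩)
    (((joined_nearest hX hb hν hr y).trans hj).trans (JoinedIn.symm ?_))
  refine joinedIn_of_between hX _ _ _ fun p hp => ?_
  rintro ⟨x', hx', -, h2, h3⟩
  have h4 := between_nearest hν hx' hp
  have h5 := (hb _ (hν y').1 x' hx').1
  have h6 := dist_triangle_left (ν y') x' p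
  have h7 := tri (π (ν y')) (π x') (π (ν y))
  linarith

lemma cc_near (hX : Geodesic X) (hb : Bil G π) (hν : Nearest G ν) (hr : 0 < r) {y y' : X}
    (h : NoPath G π xc δ (ν y) r) (hd : dist y y' ≤ r / 10) :
    ‖π (ν y') - π (ν y)‖ ≤ 3 * r := by
  refine cc_join hX hb hν hr h (joinedIn_of_between hX _ _ _ fun p hp => ?_)
  rintro ⟨x', hx', h1, -, h3⟩
  have h4 := (hν y).2 x' hx'
  have h5 := dist_triangle y p x'
  have h6 := (hb x' hx' _ (hν y).1).1
  have h7 := dist_triangle_left x' (ν y) y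
  have h8 : 0 ≤ dist p y' := dist_nonneg
  linarith

lemma cc_deep (hX : Geodesic X) (hb : Bil G π) (hν : Nearest G ν) (hr : 0 < r) {y y' : X}
    (h : NoPath G π xc δ (ν y) r) (hj : JoinedIn {p | r < infDist p G} y y') :
    ‖π (ν y') - π (ν y)‖ ≤ 3 * r := by
  refine cc_join hX hb hν hr h (hj.mono ?_)
  rintro p hp ⟨x', hx', -, -, h3⟩
  have h4 := infDist_le_dist_of_mem (x := p) hx'
  have h5 : r < infDist p G := hp
  linarith

/-- Distances from `y` to the points of `G` almost add up through `ν y`. -/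
lemma key {J : ℕ} {ξ : Fin J → R2} (hX : Geodesic X) (hC : Chart G π ξ) (hb : Bil G π)
    (hν : Nearest G ν) (hr : 0 < r) {y : X} (h : NoPath G π xc δ (ν y) r) {x' : X}
    (hx' : x' ∈ G) : dist y (ν y) + nrm ξ (π x' - π (ν y)) - 6 * r ≤ dist y x' := by
  by_cases h3 : 3 * r ≤ ‖π x' - π (ν y)‖
  · by_contra hc
    refine h x' (Or.inl ⟨hx', h3⟩) ((joined_nearest hX hb hν hr y).trans ?_)
    refine joinedIn_of_between hX _ _ _ fun p hp => ?_
    rintro ⟨x'', hx'', -, h2, h4⟩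
    apply hc
    have h5 := (hν y).2 x'' hx''
    have h6 := dist_triangle y p x''
    have h7 := hC.up x' hx' x'' hx''
    have h8 := dist_triangle_left x' x'' p
    have h9 := nrm_add_le (ξ := ξ) (π x' - π x'') (π x'' - π (ν y))
    rw [sub_add_sub_cancel] at h9
    have h10 := nrm_le hC.normal (π x'' - π (ν y))
    linarith
  · have h1 := (hν y).2 x' hx'
    have h2 := nrm_le hC.normal (π x' - π (ν y))
    linarith [not_le.1 h3]

end Nearest

end Pool.Agent.MP_7f5071_gt.L1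

end MrgPart1

-- ======== part 2: formerly Pool.Agent.MP_7f5071_gt.L1
section MrgPart2

/-! Module L1: an almost short planar chart around a density point. -/

namespace Pool.Agent.MP_7f5071_gt

open Filter Topology Set Metric MeasureTheory

universe u

namespace L1

variable {X : Type*} [MetricSpace X]

lemma bil_of_chart {G : Set X} {π : X → R2} {J : ℕ} {ξ : Fin J → R2} (hC : Chart G π ξ) :
    Bil G π := fun x hx y hy =>
  ⟨(norm_le_nrm hC.normal _).trans (hC.up x hx y hy), by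
    have h1 := hC.low x hx y hy
    have h2 := nrm_le hC.normal (π x - π y)
    linarith⟩

lemma compact_image {G : Set X} {π : X → R2} (hG : IsCompact G) (hb : Bil G π) (c : R2) :
    IsCompact ((fun x => π x - c) '' G) := by
  refine hG.image_of_continuousOn (LipschitzOnWith.continuousOn (K := 1) ?_)
  refine LipschitzOnWith.of_dist_le_mul fun x hx y hy => ?_
  rw [dist_eq_norm, sub_sub_sub_cancel_right, NNReal.coe_one, one_mul]
  exact (hb x hx y hy).1

/-- The short extensions of the covectors of the chart. -/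
lemma exists_ext (hX : Geodesic X) {G : Set X} {π : X → R2} {J : ℕ} {ξ : Fin J → R2}
    (hC : Chart G π ξ) {ν : X → X} (hν : Nearest G ν) {xc : X} (hxc : xc ∈ G) {δ s : ℝ}
    (hs : 0 < s) {D : R2 → ℝ} (hD0 : ∀ z, 0 ≤ D z) (hDs : ∀ z, ‖z‖ ≤ 5 * s → D z ≤ s / 2)
    (hNP : ∀ x ∈ G, ‖π x - π xc‖ ≤ 5 * s → ∀ r, 0 < r → r ≤ s → D (π x - π xc) ≤ r →
      NoPath G π xc δ x r) :
    ∃ (m : Fin J → X → ℝ) (p : X → R2), (∀ j y y', |m j y - m j y'| ≤ dist y y') ∧
      (∀ y y', ‖p y - p y'‖ ≤ dist y y') ∧ ∀ y, ‖π (ν y) - π xc‖ ≤ 5 * s →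
        ‖p y - (π (ν y) - π xc)‖ ≤ 3 * D (π (ν y) - π xc) ∧
        ∀ j, |m j y - ev (ξ j) (p y)| ≤ 9 * D (π (ν y) - π xc) := by
  have hb := bil_of_chart hC
  have hex : ∀ j, ∃ m : X → ℝ, (∀ y y', |m y - m y'| ≤ dist y y') ∧
      ∀ y, ‖π (ν y) - π xc‖ ≤ 5 * s →
        |m y - ev (ξ j) (π (ν y) - π xc)| ≤ 3 * D (π (ν y) - π xc) := fun j => by
    obtain ⟨m, hm1, hm2⟩ := exists_mid G ⟨xc, hxc⟩ (fun x => ev (ξ j) (π x - π xc))
      (fun x hx x' hx' => by
        rw [← ev_sub, sub_sub_sub_cancel_right]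
        exact (abs_ev_le_nrm _ _).trans (hC.up x hx x' hx'))
    refine ⟨m, hm1, fun y hy => le_of_forall_pos_le_add fun η hη => ?_⟩
    have hη' : 0 < min (η / 3) (s / 2) := lt_min (by linarith) (by linarith)
    have h1 := min_le_left (η / 3) (s / 2)
    have h2 := min_le_right (η / 3) (s / 2)
    have h3 := hD0 (π (ν y) - π xc)
    have h4 := hDs _ hy
    set r := D (π (ν y) - π xc) + min (η / 3) (s / 2) with hr
    have hr0 : 0 < r := by linarith
    have h5 := hNP (ν y) (hν y).1 hy r hr0 (by linarith) (by linarith)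
    have h6 := hm2 y (ν y) (hν y).1 (6 * r) fun x' hx' => by
      have h7 := key hX hC hb hν hr0 h5 hx'
      have h8 := abs_ev_le_nrm (ξ := ξ) (π x' - π (ν y)) j
      rw [← ev_sub, sub_sub_sub_cancel_right]
      linarith
    linarith
  choose m hm1 hm2 using hex
  obtain ⟨⟨j1, hj1⟩, ⟨j2, hj2⟩, hn⟩ := hC.normal
  refine ⟨m, fun y => (m j1 y, m j2 y), hm1, fun y y' => ?_, fun y hy => ?_⟩
  · rw [Prod.norm_def]
    exact max_le (hm1 j1 y y') (hm1 j2 y y')
  · have h1 : ‖(m j1 y, m j2 y) - (π (ν y) - π xc)‖ ≤ 3 * D (π (ν y) - π xc) := by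
      have h2 := hm2 j1 y hy
      have h3 := hm2 j2 y hy
      rw [hj1] at h2
      rw [hj2] at h3
      simp only [ev, one_mul, zero_mul, add_zero, zero_add] at h2 h3
      rw [Prod.norm_def]
      exact max_le h2 h3
    refine ⟨h1, fun j => ?_⟩
    have h2 := hm2 j y hy
    have h3 := abs_ev_le (ξ j) ((m j1 y, m j2 y) - (π (ν y) - π xc)) (hn j)
    rw [ev_sub] at h3
    have h4 := abs_sub (m j y - ev (ξ j) (π (ν y) - π xc))
      (ev (ξ j) (m j1 y, m j2 y) - ev (ξ j) (π (ν y) - π xc))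
    rw [sub_sub_sub_cancel_right] at h4
    linarith

/-- The map that is locally constant far from `G`, with its properties. -/
lemma exists_omega (hX : Geodesic X) {G : Set X} {π : X → R2} (hb : Bil G π) {ν : X → X}
    (hν : Nearest G ν) {xc : X} (hxc : xc ∈ G) {δ s T : ℝ} (hT : 0 < T) (hTs : 3 * T ≤ s)
    (hNP : ∀ y, ‖π (ν y) - π xc‖ ≤ 5 * s → NoPath G π xc δ (ν y) T) {p : X → R2}
    (hp : ∀ y y', ‖p y - p y'‖ ≤ dist y y')
    (hpq : ∀ y, ‖π (ν y) - π xc‖ ≤ 5 * s → ‖p y - (π (ν y) - π xc)‖ ≤ 3 * T) :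
    ∃ ω : X → R2, ∀ y, ‖π (ν y) - π xc‖ ≤ 4 * s →
      ‖ω y - (π (ν y) - π xc)‖ ≤ 9 * T ∧ PLip 10 ω y ∧
      ((∀ᶠ y' in 𝓝 y, ω y' = ω y) ∨ dist y (ν y) ≤ 2 * T) := by
  set U : Set X := {y | T < infDist y G} with hU
  have hUo : IsOpen U := isOpen_lt continuous_const (continuous_infDist_pt G)
  set c : X → R2 := fun y => π (ν (rep U y)) - π xc with hc
  have hcp : ∀ y, ‖π (ν y) - π xc‖ ≤ 5 * s → T < infDist y G → ‖c y - p y‖ ≤ 6 * T := by
    intro y hy hyU
    have h1 := cc_deep hX hb hν hT (hNP y hy) (rep_joined (U := U) hyU)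
    have h2 := hpq y hy
    have h3 := tri (c y) (π (ν y) - π xc) (p y)
    rw [norm_sub_rev (π (ν y) - π xc) (p y)] at h3
    have h4 : c y - (π (ν y) - π xc) = π (ν (rep U y)) - π (ν y) := by
      simp only [hc, sub_sub_sub_cancel_right]
    rw [h4] at h3
    linarith
  have hcl : ∀ y, T < infDist y G → ∀ᶠ y' in 𝓝 y, c y' = c y := fun y hy => by
    filter_upwards [rep_locally_const hX hUo (y := y) hy] with y' h
    simp only [hc, h]
  refine ⟨fun y => p y + ramp T (infDist y G) • (c y - p y), fun y hy => ⟨?_, ?_, ?_⟩⟩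
  · have h1 := hpq y (by linarith)
    beta_reduce
    by_cases hyU : T < infDist y G
    · have h2 := hcp y (by linarith) hyU
      have e1 : p y + ramp T (infDist y G) • (c y - p y) - (π (ν y) - π xc) =
          (p y - (π (ν y) - π xc)) + ramp T (infDist y G) • (c y - p y) := by abel
      rw [e1]
      refine (norm_add_le _ _).trans ?_
      rw [norm_smul, Real.norm_eq_abs, abs_of_nonneg (ramp_nonneg _ _)]
      have h3 : ramp T (infDist y G) * ‖c y - p y‖ ≤ 1 * (6 * T) :=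
        mul_le_mul (ramp_le_one _ _) h2 (norm_nonneg _) zero_le_one
      linarith
    · rw [ramp_eq_zero hT (not_lt.1 hyU), zero_smul, add_zero]
      linarith
  · refine omega_plip hT (h := fun y => infDist y G) (fun y y' => ?_) hp (hcl y) ?_
    · have := (lipschitz_infDist_pt G).dist_le_mul y y'
      rwa [NNReal.coe_one, one_mul, Real.dist_eq] at this
    · filter_upwards [eventually_dist_le y (by linarith : 0 < T / 10)] with y' h
      refine hcp y' ?_
      have h1 := cc_near hX hb hν hT (hNP y (by linarith)) (y' := y') (by rwa [dist_comm])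
      have h2 := tri (π (ν y')) (π (ν y)) (π xc)
      linarith
  · by_cases h2 : 2 * T < infDist y G
    · left
      have h3 : ∀ᶠ y' in 𝓝 y, 2 * T < infDist y' G :=
        (isOpen_lt continuous_const (continuous_infDist_pt G)).mem_nhds h2
      filter_upwards [h3, hcl y (by linarith)] with y' h4 h5
      rw [ramp_eq_one hT h4.le, ramp_eq_one hT h2.le, h5]
      simp
    · right
      have : dist y (ν y) ≤ infDist y G := (le_infDist ⟨xc, hxc⟩).2 fun x hx => (hν y).2 x hx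
      linarith [not_lt.1 h2]

end L1

open L1 in
theorem l1 (h1 : RLStmt.{u}) (h2 : L3Stmt) : L1Stmt.{u} := by
  intro ε hε
  obtain ⟨K1, hK1, hRL⟩ := h1
  obtain ⟨e, he, he1, heε⟩ : ∃ e : ℝ, 0 < e ∧ e ≤ 1 ∧ e ≤ ε :=
    ⟨min ε 1, lt_min hε one_pos, min_le_right _ _, min_le_left _ _⟩
  obtain ⟨K, hK, β, hβ, hL3⟩ := h2 (e / 10) (by linarith)
  obtain ⟨κ, hκ, hκK⟩ : ∃ κ : ℝ, 0 < κ ∧ κ * K = e / 1000 :=
    ⟨e / (1000 * K), by positivity, by field_simp⟩
  have hκ1 : κ ≤ 1 / 1000 := by nlinarith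
  obtain ⟨K3, hK3, hK13⟩ : ∃ K3 : ℝ, K1 ≤ K3 ∧ K1 = κ * K3 :=
    ⟨K1 / κ, by rw [le_div_iff₀ hκ]; nlinarith, by field_simp⟩
  have hK31 : 1 ≤ K3 := hK1.trans hK3
  obtain ⟨b, hb0, hbe, hbβ⟩ : ∃ b : ℝ, 0 < b ∧ K3 * b ≤ e / 1000 ∧ K3 * b ≤ β / 1000 := by
    refine ⟨min e β / (1000 * K3), div_pos (lt_min he hβ) (by linarith), ?_, ?_⟩
    · have : K3 * (min e β / (1000 * K3)) = min e β / 1000 := by field_simp
      rw [this]; linarith [min_le_left e β]
    · have : K3 * (min e β / (1000 * K3)) = min e β / 1000 := by field_simp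
      rw [this]; linarith [min_le_right e β]
  have hb1 : b ≤ e / 1000 := le_trans (le_mul_of_one_le_left hb0.le hK31) hbe
  have hK1b : K1 * b ≤ e / 1000 := le_trans (mul_le_mul_of_nonneg_right hK3 hb0.le) hbe
  refine ⟨b ^ 2, by positivity, ?_⟩
  intro X _ _ hX G π J ξ hC ν hν xc s δ s0 hS
  have hb := bil_of_chart hC
  have hs := hS.spos
  have hsδ := hS.sδ
  have hδ := hS.δs0
  have hes : e * s ≤ ε * s := mul_le_mul_of_nonneg_right heε hs.le
  have hes1 : e * s ≤ s := mul_le_of_le_one_left hs.le he1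
  have hes0 : 0 < e * s := mul_pos he hs
  set P : Set R2 := (fun x => π x - π xc) '' G with hP
  have h0 : (0 : R2) ∈ P := ⟨xc, hS.mem, sub_self _⟩
  have dens : ∀ r, 0 < r → r ≤ s0 →
      volume (closedBall 0 r \ P) ≤ ENNReal.ofReal (b ^ 2 * r ^ 2) := fun r hr hr' => by
    rw [hP, vol_shift]
    exact hS.dens r hr hr'
  have hinf := infDist_le_of_dens h0 hb0.le dens
  have hatt : ∀ w : R2, ∃ x ∈ G, ‖π x - π xc - w‖ = infDist w P := fun w => by
    obtain ⟨_, ⟨x, hx, rfl⟩, h⟩ :=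
      (compact_image hC.cpt hb (π xc)).exists_infDist_eq_dist ⟨0, h0⟩ w
    exact ⟨x, hx, by rw [h, dist_comm, dist_eq_norm]⟩
  obtain ⟨D1, hD1⟩ := exists_isD P h0 (s0 / 2) K1 (by linarith)
  obtain ⟨D2, hD2⟩ := exists_isD P h0 (s0 / 2) K3 (by linarith)
  have hD1b : ∀ z : R2, ‖z‖ ≤ 5 * s → D1 z ≤ e * s / 100 := fun z hz => by
    have h3 := hD1.bound (by linarith) hb0.le (by linarith) hinf z
    have h4 : K1 * b * ‖z‖ ≤ e / 1000 * (5 * s) :=
      mul_le_mul hK1b hz (norm_nonneg _) (by linarith)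
    linarith
  have hNP : ∀ x ∈ G, ‖π x - π xc‖ ≤ 5 * s → ∀ r, 0 < r → r ≤ s → D1 (π x - π xc) ≤ r →
      NoPath G π xc δ x r := fun x hx hx5 r hr hrs hD => by
    refine noPath hK1 hb (hRL X hX G π hb) hS.mem hs hsδ hδ hS.lc hx hx5 hr hrs fun w hw => ?_
    obtain ⟨x', hx', h⟩ := hatt w
    refine ⟨x', hx', ?_, ?_⟩
    · rw [h]
      have := hinf w hw
      have := mul_le_mul_of_nonneg_right (hb1.trans (by linarith : e / 1000 ≤ 1 / 4))
        (norm_nonneg w)
      linarith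
    · rw [h]
      have := hD1.ge (π x - π xc) w hw
      linarith
  obtain ⟨m, p, hm, hp, hmp⟩ := exists_ext hX.geod hC hν hS.mem hs hD1.nonneg
    (fun z hz => by linarith [hD1b z hz]) hNP
  have hNT : ∀ y, ‖π (ν y) - π xc‖ ≤ 5 * s → NoPath G π xc δ (ν y) (e * s / 100) :=
    fun y hy => hNP _ (hν y).1 hy _ (by linarith) (by linarith) (hD1b _ hy)
  have hpq : ∀ y, ‖π (ν y) - π xc‖ ≤ 5 * s →
      ‖p y - (π (ν y) - π xc)‖ ≤ 3 * (e * s / 100) := fun y hy => by
    linarith [(hmp y hy).1, hD1b _ hy]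
  obtain ⟨ω, hω⟩ := exists_omega hX.geod hb hν hS.mem (T := e * s / 100) (by linarith)
    (by linarith) hNT hp hpq
  have herr : ∀ y, ‖π (ν y) - π xc‖ ≤ 5 * s → ∀ j,
      |m j y - ev (ξ j) (p y)| ≤ 18 * κ * D2 (p y) := fun y hy j => by
    obtain ⟨h3, h4⟩ := hmp y hy
    have h5 := hD1.cmp hD2 hκ.le (by linarith) hK13 (p y) (π (ν y) - π xc)
    have h6 := mul_le_mul_of_nonneg_left h3 hκ.le
    have h7 := mul_le_mul_of_nonneg_right hκ1 (hD1.nonneg (π (ν y) - π xc))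
    have h8 := h4 j
    have h9 := hD1.nonneg (π (ν y) - π xc)
    nlinarith
  have harea : volume ({z | 0 < D2 z} ∩ closedBall 0 (10 * s)) ≤ ENNReal.ofReal (β * s ^ 2) := by
    refine (area_pos h0 hb0.le hs (by linarith) hK31 (by linarith) dens hD2).trans
      (ENNReal.ofReal_le_ofReal (mul_le_mul_of_nonneg_right ?_ (sq_nonneg s)))
    have h3 : K3 * b * (K3 * b) ≤ 1 / 1000 * (β / 1000) :=
      mul_le_mul (by linarith) hbβ (by positivity) (by norm_num)
    nlinarith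
  obtain ⟨σ, a, short, close, hsum, der⟩ := hL3 J ξ hC.normal s hs D2 hD2.lip hD2.nonneg harea
  refine ⟨fun y => σ (p y) + ∑ j, (m j y - ev (ξ j) (p y)) • a j (p y), ω, e * s / 100 / 10,
    by linarith, fun w hw => ?_, fun y hy => ?_⟩
  · obtain ⟨x, hx, h⟩ := hatt w
    refine ⟨x, hx, ?_⟩
    rw [h]
    have h3 := hinf w (by linarith)
    have h4 : b * ‖w‖ ≤ e / 1000 * (5 * s) := mul_le_mul hb1 hw (norm_nonneg _) (by linarith)
    linarith
  have hy5 : ‖π (ν y) - π xc‖ ≤ 5 * s := by linarith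
  have hcc : ∀ y', dist y y' ≤ e * s / 100 / 10 → ‖π (ν y') - π (ν y)‖ ≤ 3 * (e * s / 100) :=
    fun y' h => cc_near hX.geod hb hν (by linarith) (hNT y hy5) h
  have hpy : ‖p y‖ ≤ 8 * s := by
    have h3 := norm_add_le (p y - (π (ν y) - π xc)) (π (ν y) - π xc)
    rw [sub_add_cancel] at h3
    linarith [hpq y hy5]
  obtain ⟨hω1, hω2, hω3⟩ := hω y hy
  refine ⟨lt_delta hX.geod hb hν (by linarith) (hNT y hy5), fun y' h => by linarith [hcc y' h],
    ?_, by linarith, ?_, hω2, hω3.imp_right fun h => by linarith⟩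
  · have e1 : σ (p y) + ∑ j, (m j y - ev (ξ j) (p y)) • a j (p y) - (π (ν y) - π xc) =
        (σ (p y) - p y) + (p y - (π (ν y) - π xc)) +
          ∑ j, (m j y - ev (ξ j) (p y)) • a j (p y) := by abel
    have h3 := close (p y) (by linarith)
    have h4 := hpq y hy5
    have h5 := nrm_comb_le (ξ := ξ) _ (fun j => a j (p y)) (9 * (e * s / 100)) fun j =>
      ((hmp y hy5).2 j).trans (by linarith [hD1b _ hy5])
    have h6 := norm_le_nrm hC.normal (∑ j, (m j y - ev (ξ j) (p y)) • a j (p y))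
    have h7 := mul_le_mul_of_nonneg_left ((hsum (p y)).trans (by linarith : 1 + e / 10 ≤ 2))
      (by linarith : 0 ≤ 9 * (e * s / 100))
    show ‖σ (p y) + ∑ j, (m j y - ev (ξ j) (p y)) • a j (p y) - (π (ν y) - π xc)‖ ≤ ε * s
    rw [e1]
    refine norm_add₃_le.trans ?_
    linarith
  · have h3 := sigma_short he he1 hK (κ := 18 * κ) (by linarith) (by linarith) hs hD2.lip
      hD2.nonneg short hsum der hm hp hpy (by
        filter_upwards [eventually_dist_le y (by linarith : 0 < e * s / 100 / 10)] with y' h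
        refine herr y' ?_
        have h4 := hcc y' (by rwa [dist_comm])
        have h5 := tri (π (ν y')) (π (ν y)) (π xc)
        linarith)
    filter_upwards [h3] with y' h
    exact h.trans (mul_le_mul_of_nonneg_right (by linarith) dist_nonneg)

end Pool.Agent.MP_7f5071_gt

end MrgPart2

-- ======== part 3: formerly Pool.Agent.MP_7f5071_gt.R2A
section MrgPart3

/-! Module R2, part A: curves, and separation of two transversal directions. -/

namespace Pool.Agent.MP_7f5071_gt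

open Filter Topology Set Metric MeasureTheory

universe u

namespace Rk

variable {X : Type u} [MetricSpace X]

lemma lipW {E : Type*} [NormedAddCommGroup E] {L : ℝ} {F : X → E} (h : Lip L F) :
    LipschitzWith (Real.toNNReal L) F :=
  LipschitzWith.of_dist_le_mul fun x y => by
    rw [dist_eq_norm]
    exact (h x y).trans (mul_le_mul_of_nonneg_right (Real.le_coe_toNNReal L) dist_nonneg)

lemma ext_lip (γ : Cv X) : LipschitzWith 1 γ.ext := by
  have h := γ.2.comp (LipschitzWith.projIcc (zero_le_one' ℝ))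
  rw [mul_one] at h
  exact h

lemma cont_ev : Continuous fun p : Cv X × ℝ => p.1.ext p.2 := by
  have h1 : Continuous fun p : Cv X × ℝ => (p.1.1 : C(unitInterval, X)) :=
    continuous_subtype_val.comp continuous_fst
  have h2 : Continuous fun p : Cv X × ℝ => projIcc (0 : ℝ) 1 zero_le_one p.2 :=
    continuous_projIcc.comp continuous_snd
  exact h1.eval h2

lemma compact_cv [CompactSpace X] : CompactSpace (Cv X) := by
  have h : IsCompact {γ : C(unitInterval, X) | LipschitzWith 1 γ} := by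
    apply ArzelaAscoli.isCompact_of_equicontinuous
    · have e : ContinuousMap.toFun '' {γ : C(unitInterval, X) | LipschitzWith 1 γ} =
          {f : unitInterval → X | LipschitzWith 1 f} := by
        ext f
        constructor
        · rintro ⟨g, hg, rfl⟩
          exact hg
        · intro hf
          exact ⟨⟨f, LipschitzWith.continuous hf⟩, hf, rfl⟩
      rw [e]
      exact (isClosed_setOfPred_lipschitzWith 1).isCompact
    · refine UniformEquicontinuous.equicontinuous ?_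
      exact LipschitzWith.uniformEquicontinuous _ 1 fun c => c.2
  exact isCompact_iff_compactSpace.mp h

/-- The pairs (curve, time) with direction `e` at scale `1 / (m + 1)`. -/
def Aset (π : X → R2) (e : R2) (m : ℕ) : Set (Cv X × ℝ) :=
  {p | p.2 ∈ Icc (0 : ℝ) 1 ∧ ∀ s : ℝ, |s| ≤ 1 / (m + 1) →
    ‖π (p.1.ext (p.2 + s)) - π (p.1.ext p.2) - s • e‖ ≤ |s| / 5}

lemma isCompact_Aset [CompactSpace X] {π : X → R2} (hπ : Continuous π) (e : R2) (m : ℕ) :
    IsCompact (Aset π e m) := by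
  have := compact_cv (X := X)
  have hc : IsClosed (Aset π e m) := by
    have e1 : Aset π e m = {p : Cv X × ℝ | p.2 ∈ Icc (0 : ℝ) 1} ∩
        ⋂ s : ℝ, ⋂ _ : |s| ≤ 1 / (m + 1), {p : Cv X × ℝ |
          ‖π (p.1.ext (p.2 + s)) - π (p.1.ext p.2) - s • e‖ ≤ |s| / 5} := by
      ext p
      simp [Aset]
    rw [e1]
    refine (isClosed_Icc.preimage continuous_snd).inter
      (isClosed_iInter fun s => isClosed_iInter fun _ => isClosed_le ?_ continuous_const)
    have h1 : Continuous fun p : Cv X × ℝ => p.1.ext (p.2 + s) :=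
      cont_ev.comp (continuous_fst.prodMk (continuous_snd.add continuous_const))
    exact (((hπ.comp h1).sub (hπ.comp cont_ev)).sub continuous_const).norm
  refine (isCompact_univ.prod (isCompact_Icc (a := (0 : ℝ)) (b := 1))).of_isClosed_subset hc ?_
  intro p hp
  exact ⟨mem_univ _, hp.1⟩

lemma Aset_mono {π : X → R2} {e : R2} {m m' : ℕ} (h : m ≤ m') : Aset π e m ⊆ Aset π e m' := by
  intro p hp
  refine ⟨hp.1, fun s hs => hp.2 s (hs.trans ?_)⟩
  have : (m : ℝ) ≤ m' := by exact_mod_cast h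
  apply one_div_le_one_div_of_le <;> [positivity; linarith]

lemma arm_of_curve {π : X → R2} {x : X} {e : R2} {s : ℝ} (hs : 0 ≤ s) (c : ℝ → X)
    (hc : Continuous c) (h0 : c 0 = x)
    (h : ∀ t ∈ Icc 0 s, ‖π (c t) - π x - t • e‖ ≤ t / 4 ∧ dist (c t) x ≤ t) :
    Arm π x e ((1 : ℕ) : ℝ) s := by
  refine ⟨c s, (h s ⟨hs, le_rfl⟩).1, fun r _ => ?_⟩
  have hp : IsPathConnected (c '' Icc 0 s) :=
    ((convex_Icc 0 s).isPathConnected ⟨0, le_rfl, hs⟩).image hc
  have hj := hp.joinedIn x ⟨0, ⟨le_rfl, hs⟩, h0⟩ (c s) ⟨s, ⟨hs, le_rfl⟩, rfl⟩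
  refine hj.mono ?_
  rintro y ⟨t, ht, rfl⟩
  left
  refine ⟨t, ht, (h t ht).1, ?_⟩
  simpa using (h t ht).2

lemma arm_fwd {π : X → R2} {e : R2} {m : ℕ} {p : Cv X × ℝ} (hp : p ∈ Aset π e m) :
    Arm π (p.1.ext p.2) e ((1 : ℕ) : ℝ) (1 / (m + 1)) := by
  refine arm_of_curve (by positivity) (fun t => p.1.ext (p.2 + t))
    ((ext_lip p.1).continuous.comp (continuous_const.add continuous_id)) (by simp) ?_
  intro t ht
  have h1 := hp.2 t (by rw [abs_of_nonneg ht.1]; exact ht.2)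
  rw [abs_of_nonneg ht.1] at h1
  refine ⟨h1.trans (by linarith [ht.1]), ?_⟩
  have h2 := (ext_lip p.1).dist_le_mul (p.2 + t) p.2
  simpa [Real.dist_eq, abs_of_nonneg ht.1] using h2

lemma arm_bwd {π : X → R2} {e : R2} {m : ℕ} {p : Cv X × ℝ} (hp : p ∈ Aset π e m) :
    Arm π (p.1.ext p.2) (-e) ((1 : ℕ) : ℝ) (1 / (m + 1)) := by
  refine arm_of_curve (by positivity) (fun t => p.1.ext (p.2 + -t))
    ((ext_lip p.1).continuous.comp (continuous_const.add continuous_neg)) (by simp) ?_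
  intro t ht
  have h1 := hp.2 (-t) (by rw [abs_neg, abs_of_nonneg ht.1]; exact ht.2)
  rw [abs_neg, abs_of_nonneg ht.1] at h1
  rw [smul_neg, ← neg_smul]
  refine ⟨h1.trans (by linarith [ht.1]), ?_⟩
  have h2 := (ext_lip p.1).dist_le_mul (p.2 + -t) p.2
  simpa [Real.dist_eq, abs_of_nonneg ht.1] using h2

lemma cross_of {π : X → R2} {m : ℕ} {p q : Cv X × ℝ} (hp : p ∈ Aset π (1, 0) m)
    (hq : q ∈ Aset π (0, 1) m) (h : p.1.ext p.2 = q.1.ext q.2) : CrossPt π (q.1.ext q.2) := by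
  refine ⟨1, m, arm_fwd hq, ?_, h ▸ arm_fwd hp⟩
  have := arm_bwd hq
  simpa using this

lemma mem_Aset_of_deriv {π : X → R2} {e d : R2} {γ : Cv X} {t : ℝ} (ht : t ∈ Icc (0 : ℝ) 1)
    (hd : HasDerivAt (fun u => π (γ.ext u)) d t) (he : ‖d - e‖ ≤ 1 / 10) :
    ∃ m, (γ, t) ∈ Aset π e m := by
  have h1 := hd.isLittleO.def (c := 1 / 10) (by norm_num)
  obtain ⟨ε, hε, h2⟩ := Metric.eventually_nhds_iff.1 h1
  obtain ⟨m, hm⟩ := exists_nat_one_div_lt hε
  refine ⟨m, ht, fun s hs => ?_⟩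
  have h3 := @h2 (t + s) (by simpa [Real.dist_eq] using hs.trans_lt hm)
  simp only [add_sub_cancel_left, Real.norm_eq_abs] at h3
  have h4 : π (γ.ext (t + s)) - π (γ.ext t) - s • e =
      (π (γ.ext (t + s)) - π (γ.ext t) - s • d) + s • (d - e) := by
    rw [smul_sub]; abel
  show ‖π (γ.ext (t + s)) - π (γ.ext t) - s • e‖ ≤ |s| / 5
  rw [h4]
  refine (norm_add_le _ _).trans ?_
  rw [norm_smul, Real.norm_eq_abs]
  have := mul_le_mul_of_nonneg_left he (abs_nonneg s)
  linarith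

theorem sep (h1 : RStmt.{u}) (h2 : DWStmt) [CompactSpace X] [MeasurableSpace X] [BorelSpace X]
    (hX : IsDisc X) {π : X → R2} {L : ℝ} (hπ : Lip L π) {O : Set X} (hO : IsClosed O)
    (hP : PureUnrect O) :
    ∃ s : Set X, MeasurableSet s ∧ ∀ γ : Cv X, ∀ᵐ t : ℝ, t ∈ Icc (0 : ℝ) 1 → ∀ d,
      HasDerivAt (fun u => π (γ.ext u)) d t →
      (‖d - (1, 0)‖ ≤ 1 / 10 → γ.ext t ∉ s) ∧
      (‖d - (0, 1)‖ ≤ 1 / 10 → γ.ext t ∈ O → γ.ext t ∈ s) := by
  have hc : Continuous π := (lipW hπ).continuous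
  obtain ⟨Γ, hΓ, hcov⟩ := h1 X hX π L hπ
  have hpc : ∀ i, IsPiece π (Γ i ∩ O) := fun i =>
    ⟨(hΓ i).lip, (hΓ i).cpt.inter_right hO, by
      obtain ⟨C, hC⟩ := (hΓ i).inv
      exact ⟨C, fun x hx y hy => hC x hx.1 y hy.1⟩⟩
  let K : ℕ → Set R2 := fun m => ⋃ i ∈ Finset.range (m + 1), π '' (Γ i ∩ O)
  have hK : ∀ m, IsCompact (K m) := fun m =>
    (Finset.range (m + 1)).isCompact_biUnion fun i _ => (hpc i).cpt.image hc
  have hK0 : ∀ m, volume (K m) = 0 := fun m =>
    (measure_biUnion_null_iff (Finset.range (m + 1)).countable_toSet).2 fun i _ =>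
      hP π _ (hpc i) inter_subset_right
  choose P P' hPm hPm' hsub hvol using fun m =>
    h2 (K m) (hK m) (hK0 m) m ((1 / 2) ^ m) (by positivity)
  let K1 : ℕ → Set X := fun m => (fun p : Cv X × ℝ => p.1.ext p.2) '' Aset π (1, 0) m
  have hK1 : ∀ m, MeasurableSet (K1 m) := fun m =>
    ((isCompact_Aset hc _ m).image cont_ev).isClosed.measurableSet
  have hsum : (∑' m : ℕ, ENNReal.ofReal ((1 / 2 : ℝ) ^ m)) ≠ ⊤ := by
    rw [← ENNReal.ofReal_tsum_of_nonneg (fun _ => by positivity) summable_geometric_two]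
    exact ENNReal.ofReal_ne_top
  refine ⟨{x | ∀ᶠ m in atTop, x ∈ K1 m ∧ π x ∉ P m}ᶜ, ?_, fun γ => ?_⟩
  · apply MeasurableSet.compl
    have e : {x | ∀ᶠ m in atTop, x ∈ K1 m ∧ π x ∉ P m} =
        ⋃ n : ℕ, ⋂ m : ℕ, ⋂ _ : n ≤ m, K1 m ∩ (π ⁻¹' P m)ᶜ := by
      ext x
      simp [eventually_atTop]
    rw [e]
    exact MeasurableSet.iUnion fun n => MeasurableSet.iInter fun m => MeasurableSet.iInter fun _ =>
      (hK1 m).inter (hc.measurable (hPm m)).compl
  · have b1 := ae_eventually_notMem (μ := volume)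
      (s := fun m => {t | t ∈ UT (fun u => π (γ.ext u)) (1, 0) m ∧ π (γ.ext t) ∈ P m})
      (ne_top_of_le_ne_top hsum (ENNReal.tsum_le_tsum fun m => (hvol m _).1))
    have b2 := ae_eventually_notMem (μ := volume)
      (s := fun m => {t | t ∈ UT (fun u => π (γ.ext u)) (0, 1) m ∧ π (γ.ext t) ∈ P' m})
      (ne_top_of_le_ne_top hsum (ENNReal.tsum_le_tsum fun m => (hvol m _).2))
    have hUT : ∀ e m t, (γ, t) ∈ Aset π e m → t ∈ UT (fun u => π (γ.ext u)) e m :=
      fun e m t h => ⟨h.1, fun s hs _ => h.2 s hs⟩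
    filter_upwards [b1, b2] with t ht1 ht2 ht d hd
    constructor
    · intro he
      obtain ⟨m0, hm0⟩ := mem_Aset_of_deriv ht hd he
      rw [mem_compl_iff, not_not]
      show ∀ᶠ m in atTop, γ.ext t ∈ K1 m ∧ π (γ.ext t) ∉ P m
      filter_upwards [ht1, eventually_ge_atTop m0] with m hm hge
      have hA := Aset_mono hge hm0
      exact ⟨⟨(γ, t), hA, rfl⟩, fun hh => hm ⟨hUT _ _ _ hA, hh⟩⟩
    · intro he hO' hs
      obtain ⟨m0, hm0⟩ := mem_Aset_of_deriv ht hd he
      have hs' : ∀ᶠ m in atTop, γ.ext t ∈ K1 m ∧ π (γ.ext t) ∉ P m := hs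
      obtain ⟨m1, ⟨⟨p, hp, hpe⟩, -⟩, hge⟩ := (hs'.and (eventually_ge_atTop m0)).exists
      obtain ⟨i, hi⟩ := hcov _ (cross_of (q := (γ, t)) hp (Aset_mono hge hm0) hpe)
      obtain ⟨m, ⟨⟨⟨-, hnP⟩, hm2⟩, hge0⟩, hgei⟩ :=
        (((hs'.and ht2).and (eventually_ge_atTop m0)).and (eventually_ge_atTop i)).exists
      have hmem : π (γ.ext t) ∈ K m :=
        mem_biUnion (Finset.mem_range.2 (Nat.lt_succ_of_le hgei)) ⟨_, ⟨hi, hO'⟩, rfl⟩
      rcases hsub m hmem with h | h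
      · exact hnP h
      · exact hm2 ⟨hUT _ _ _ (Aset_mono hge0 hm0), h⟩

end Rk

end Pool.Agent.MP_7f5071_gt

end MrgPart3

-- ======== part 4: formerly Pool.Agent.MP_7f5071_gt.R2B
section MrgPart4

/-! Module R2, part B: a measurable partition on which the velocities have almost rank one. -/

namespace Pool.Agent.MP_7f5071_gt

open Filter Topology Set Metric MeasureTheory

universe u

namespace Rk

variable {X : Type u} [MetricSpace X] {N : ℕ}

/-- A two by two minor. -/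
def mnr (v v' : V N) (i k : Fin N) : ℝ := v i * v' k - v k * v' i

lemma abs_mnr_le (v v' : V N) (i k : Fin N) : |mnr v v' i k| ≤ 2 * (‖v‖ * ‖v'‖) := by
  have h : ∀ i k, |v i * v' k| ≤ ‖v‖ * ‖v'‖ := fun i k => by
    rw [abs_mul]
    exact mul_le_mul (norm_le_pi_norm v i) (norm_le_pi_norm v' k) (abs_nonneg _) (norm_nonneg _)
  have h1 := abs_le.1 (h i k)
  have h2 := abs_le.1 (h k i)
  rw [mnr, abs_le]
  constructor <;> linarith [h1.1, h1.2, h2.1, h2.2]

lemma exists_chart (v v' : V N) (i k : Fin N) {L : ℝ} (hv : ‖v‖ ≤ L) (hv' : ‖v'‖ ≤ L)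
    (hD : mnr v v' i k ≠ 0) :
    ∃ M : V N →L[ℝ] R2, M v = (1, 0) ∧ M v' = (0, 1) ∧
      ∀ y, ‖M y‖ ≤ 2 * L / |mnr v v' i k| * ‖y‖ := by
  let pr : Fin N → V N →L[ℝ] ℝ := fun j => ContinuousLinearMap.proj j
  let M : V N →L[ℝ] R2 := ((mnr v v' i k)⁻¹ • (v' k • pr i - v' i • pr k)).prod
    ((mnr v v' i k)⁻¹ • (v i • pr k - v k • pr i))
  have hM : ∀ y, M y = ((mnr v v' i k)⁻¹ * mnr y v' i k, (mnr v v' i k)⁻¹ * mnr v y i k) := by
    intro y
    simp only [M, pr, mnr, ContinuousLinearMap.prod_apply, smul_apply,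
      sub_apply, ContinuousLinearMap.proj_apply, smul_eq_mul]
    congr 2
    ring
  refine ⟨M, ?_, ?_, fun y => ?_⟩
  · rw [hM, inv_mul_cancel₀ hD]
    simp [mnr, mul_comm]
  · rw [hM, inv_mul_cancel₀ hD]
    simp [mnr, mul_comm]
  · have hp : 0 < |mnr v v' i k| := abs_pos.2 hD
    have key : ∀ z : ℝ, |z| ≤ 2 * (L * ‖y‖) →
        ‖(mnr v v' i k)⁻¹ * z‖ ≤ 2 * L / |mnr v v' i k| * ‖y‖ := fun z hz => by
      rw [Real.norm_eq_abs, abs_mul, abs_inv]
      calc |mnr v v' i k|⁻¹ * |z| ≤ |mnr v v' i k|⁻¹ * (2 * (L * ‖y‖)) := by gcongr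
        _ = _ := by field_simp
    rw [hM, Prod.norm_def]
    refine max_le (key _ ((abs_mnr_le _ _ _ _).trans ?_)) (key _ ((abs_mnr_le _ _ _ _).trans ?_))
    · rw [mul_comm ‖y‖]
      gcongr
    · gcongr

lemma line_of_minors (T : Set (V N)) {σ : ℝ} (hσ : 0 < σ)
    (h : ∀ v ∈ T, ∀ v' ∈ T, ∀ i k, |mnr v v' i k| ≤ σ ^ 2) :
    ∃ (a : V N) (l : V N →L[ℝ] ℝ), (∀ w, ‖l w • a‖ ≤ ‖w‖) ∧ ∀ v ∈ T, ‖v - l v • a‖ ≤ σ := by
  by_cases h0 : ∀ v ∈ T, ‖v‖ ≤ σ
  · exact ⟨0, 0, by simp, by simpa using h0⟩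
  push Not at h0
  obtain ⟨a, ha, hn⟩ := h0
  have hne : Nonempty (Fin N) := by
    by_contra hh
    rw [not_nonempty_iff] at hh
    rw [Subsingleton.elim a 0, norm_zero] at hn
    linarith
  obtain ⟨i, -, hi⟩ := Finset.exists_max_image Finset.univ (fun j => |a j|) Finset.univ_nonempty
  have hi1 : ‖a‖ = |a i| := le_antisymm
    ((pi_norm_le_iff_of_nonneg (abs_nonneg _)).2 fun j => hi j (Finset.mem_univ _))
    (norm_le_pi_norm a i)
  have hp : 0 < |a i| := by linarith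
  have hai : a i ≠ 0 := abs_pos.1 hp
  refine ⟨a, (a i)⁻¹ • ContinuousLinearMap.proj i, fun w => ?_, fun v hv => ?_⟩
  · simp only [smul_apply, ContinuousLinearMap.proj_apply, smul_eq_mul]
    rw [norm_smul, hi1, Real.norm_eq_abs, abs_mul, abs_inv, mul_comm, ← mul_assoc,
      mul_inv_cancel₀ hp.ne', one_mul]
    exact norm_le_pi_norm w i
  · refine (pi_norm_le_iff_of_nonneg hσ.le).2 fun k => ?_
    simp only [smul_apply, ContinuousLinearMap.proj_apply, smul_eq_mul,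
      Pi.sub_apply, Pi.smul_apply]
    have e : v k - (a i)⁻¹ * v i * a k = (a i)⁻¹ * mnr a v i k := by
      rw [mnr]; field_simp
    rw [e, Real.norm_eq_abs, abs_mul, abs_inv, inv_mul_le_iff₀ hp]
    have := h a ha v hv i k
    nlinarith

lemma comp_lip {E : Type*} [NormedAddCommGroup E] {H : X → E} {L : ℝ} (hH : Lip L H) (γ : Cv X) :
    LipschitzWith (Real.toNNReal L) fun s => H (γ.ext s) := by
  have h := (lipW hH).comp (ext_lip γ)
  rw [mul_one] at h
  exact h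

lemma norm_vel_le {H : X → V N} {L : ℝ} (hL : 0 ≤ L) (hH : Lip L H) (γ : Cv X) (t : ℝ) :
    ‖Cv.vel H γ t‖ ≤ L := by
  have h := norm_deriv_le_of_lipschitz (𝕜 := ℝ) (x₀ := t) (comp_lip hH γ)
  rwa [Real.coe_toNNReal _ hL] at h

theorem pair_sep (h1 : RStmt.{u}) (h2 : DWStmt) [CompactSpace X] [MeasurableSpace X]
    [BorelSpace X] (hX : IsDisc X) {H : X → V N} {L : ℝ} (hL : 0 < L) (hH : Lip L H) {O : Set X}
    (hO : IsClosed O) (hP : PureUnrect O) {θ : ℝ} (hθ : 0 < θ) (v v' : V N) (i k : Fin N) :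
    ∃ s : Set X, MeasurableSet s ∧ ∀ γ : Cv X, ∀ᵐ t : ℝ, t ∈ Icc (0 : ℝ) 1 →
      ‖v‖ ≤ L → ‖v'‖ ≤ L → 20 * L * θ ≤ |mnr v v' i k| →
      (‖Cv.vel H γ t - v‖ ≤ θ → γ.ext t ∉ s) ∧
      (‖Cv.vel H γ t - v'‖ ≤ θ → γ.ext t ∈ O → γ.ext t ∈ s) := by
  by_cases hc : ‖v‖ ≤ L ∧ ‖v'‖ ≤ L ∧ 20 * L * θ ≤ |mnr v v' i k|
  swap
  · exact ⟨∅, MeasurableSet.empty, fun γ => Eventually.of_forall fun t _ a b c =>
      absurd ⟨a, b, c⟩ hc⟩
  obtain ⟨hv, hv', hD⟩ := hc
  have hp : 0 < |mnr v v' i k| := lt_of_lt_of_le (by positivity) hD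
  obtain ⟨M, hM1, hM2, hM⟩ := exists_chart v v' i k hv hv' (abs_pos.1 hp)
  have hπ : Lip (2 * L / |mnr v v' i k| * L) fun x => M (H x) := fun x y => by
    rw [← map_sub, mul_assoc]
    exact (hM _).trans (mul_le_mul_of_nonneg_left (hH x y) (by positivity))
  obtain ⟨s, hs, hsep⟩ := sep h1 h2 hX hπ hO hP
  refine ⟨s, hs, fun γ => ?_⟩
  filter_upwards [hsep γ, (comp_lip hH γ).ae_differentiableAt_real] with t ht hd hI _ _ _
  have hd1 : HasDerivAt (fun u => M (H (γ.ext u))) (M (Cv.vel H γ t)) t :=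
    M.hasFDerivAt.comp_hasDerivAt t hd.hasDerivAt
  have key : ∀ z : V N, ‖z‖ ≤ θ → ‖M z‖ ≤ 1 / 10 := fun z hz => by
    refine (hM z).trans ?_
    calc 2 * L / |mnr v v' i k| * ‖z‖ ≤ 2 * L / (20 * L * θ) * θ := by gcongr
      _ = 1 / 10 := by field_simp; norm_num
  obtain ⟨a1, a2⟩ := ht hI _ hd1
  refine ⟨fun h => a1 ?_, fun h => a2 ?_⟩
  · rw [← hM1, ← map_sub]
    exact key _ h
  · rw [← hM2, ← map_sub]
    exact key _ h

theorem rank_one (h1 : RStmt.{u}) (h2 : DWStmt) [CompactSpace X] [MeasurableSpace X]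
    [BorelSpace X] (hX : IsDisc X) {H : X → V N} {L : ℝ} (hL : 1 ≤ L) (hH : Lip L H) {O : Set X}
    (hO : IsClosed O) (hP : PureUnrect O) {κ : ℝ} (hκ : 0 < κ) :
    ∃ (ι : Type) (_ : Fintype ι) (E : ι → Set X) (a : ι → V N) (l : ι → V N →L[ℝ] ℝ),
      (∀ α, MeasurableSet (E α)) ∧ (∀ α α', α ≠ α' → Disjoint (E α) (E α')) ∧
      (∀ α, E α ⊆ O) ∧ (∀ x ∈ O, ∃ α, x ∈ E α) ∧ (∀ α w, ‖l α w • a α‖ ≤ ‖w‖) ∧
      ∀ γ : Cv X, ∀ᵐ t : ℝ, t ∈ Icc (0 : ℝ) 1 → ∀ α, γ.ext t ∈ E α →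
        ‖Cv.vel H γ t - l α (Cv.vel H γ t) • a α‖ ≤ κ := by
  classical
  obtain ⟨σ, hσ, hσ1, hσκ⟩ : ∃ σ : ℝ, 0 < σ ∧ σ ≤ 1 ∧ σ ≤ κ / 2 :=
    ⟨min 1 (κ / 2), by positivity, min_le_left _ _, min_le_right _ _⟩
  have hL0 : 0 < L := by linarith
  obtain ⟨θ, hθ, hθe⟩ : ∃ θ : ℝ, 0 < θ ∧ 20 * L * θ = σ ^ 2 :=
    ⟨σ ^ 2 / (20 * L), by positivity, by field_simp⟩
  have hθσ : 2 * θ ≤ σ := by nlinarith
  obtain ⟨T0, hT0, hfin, hcov⟩ := finite_cover_balls_of_compact
    (isCompact_closedBall (0 : V N) L) hθ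
  have := hfin.fintype
  choose s hs hsep using fun (v v' : T0) (i k : Fin N) =>
    pair_sep h1 h2 hX hL0 hH hO hP hθ v.1 v'.1 i k
  let S : T0 → Set X := fun c => ⋂ c' : T0, ⋂ i, ⋂ k,
    {x | (20 * L * θ ≤ |mnr c.1 c'.1 i k| → x ∉ s c c' i k) ∧
      (20 * L * θ ≤ |mnr c'.1 c.1 i k| → x ∈ s c' c i k)}
  have hS : ∀ c, MeasurableSet (S c) := fun c =>
    MeasurableSet.iInter fun c' => MeasurableSet.iInter fun i => MeasurableSet.iInter fun k =>
      (MeasurableSet.imp (MeasurableSet.const _) (hs c c' i k).compl).inter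
        (MeasurableSet.imp (MeasurableSet.const _) (hs c' c i k))
  let E : (T0 → Bool) → Set X := fun b => O ∩ ⋂ c, {x | x ∈ S c ↔ b c = true}
  have hline : ∀ b : T0 → Bool, ∃ (a : V N) (l : V N →L[ℝ] ℝ), (∀ w, ‖l w • a‖ ≤ ‖w‖) ∧
      ∀ x ∈ E b, ∀ c : T0, x ∈ S c → ‖c.1 - l c.1 • a‖ ≤ σ := by
    intro b
    obtain ⟨a, l, h3, h4⟩ := line_of_minors {v | ∃ c : T0, c.1 = v ∧ ∃ x ∈ E b, x ∈ S c} hσ (by
      rintro _ ⟨c, rfl, x, hx, hxc⟩ _ ⟨c', rfl, x', hx', hxc'⟩ i k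
      have hb : x ∈ S c' := (mem_iInter.1 hx.2 c').2 ((mem_iInter.1 hx'.2 c').1 hxc')
      by_contra hlt
      rw [← hθe] at hlt
      have hle := (not_le.1 hlt).le
      exact (mem_iInter.1 (mem_iInter.1 (mem_iInter.1 hxc c') i) k).1 hle
        ((mem_iInter.1 (mem_iInter.1 (mem_iInter.1 hb c) i) k).2 hle))
    exact ⟨a, l, h3, fun x hx c hc => h4 _ ⟨c, rfl, x, hx, hc⟩⟩
  choose a l hl hal using hline
  refine ⟨T0 → Bool, inferInstance, E, a, l, fun b => ?_, fun b b' hb => ?_,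
    fun b => inter_subset_left, fun x hx => ?_, hl, fun γ => ?_⟩
  · exact hO.measurableSet.inter (MeasurableSet.iInter fun c =>
      MeasurableSet.iff (hS c) (MeasurableSet.const _))
  · rw [Set.disjoint_left]
    intro x hx hx'
    apply hb
    funext c
    have e1 : x ∈ S c ↔ b c = true := mem_iInter.1 hx.2 c
    have e2 : x ∈ S c ↔ b' c = true := mem_iInter.1 hx'.2 c
    exact Bool.eq_iff_iff.2 (e1.symm.trans e2)
  · exact ⟨fun c => decide (x ∈ S c), hx, mem_iInter.2 fun c => by simp⟩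
  · have hall : ∀ᵐ t : ℝ, ∀ c c' : T0, ∀ i k, t ∈ Icc (0 : ℝ) 1 →
        ‖c.1‖ ≤ L → ‖c'.1‖ ≤ L → 20 * L * θ ≤ |mnr c.1 c'.1 i k| →
        (‖Cv.vel H γ t - c.1‖ ≤ θ → γ.ext t ∉ s c c' i k) ∧
        (‖Cv.vel H γ t - c'.1‖ ≤ θ → γ.ext t ∈ O → γ.ext t ∈ s c c' i k) := by
      simp only [ae_all_iff]
      exact fun c c' i k => hsep c c' i k γ
    filter_upwards [hall] with t ht hI b hb
    have hw : Cv.vel H γ t ∈ closedBall (0 : V N) L := by
      simpa using norm_vel_le hL0.le hH γ t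
    obtain ⟨c, hc, hcw⟩ := mem_iUnion₂.1 (hcov hw)
    have hcw' : ‖Cv.vel H γ t - c‖ ≤ θ := by
      rw [← dist_eq_norm]; exact (mem_ball.1 hcw).le
    have hn : ∀ c : T0, ‖c.1‖ ≤ L := fun c => by simpa using hT0 c.2
    have hSc : γ.ext t ∈ S ⟨c, hc⟩ := mem_iInter.2 fun c' => mem_iInter.2 fun i =>
      mem_iInter.2 fun k => ⟨fun h => (ht ⟨c, hc⟩ c' i k hI (hn _) (hn _) h).1 hcw',
        fun h => (ht c' ⟨c, hc⟩ i k hI (hn _) (hn _) h).2 hcw' hb.1⟩
    have h5 := hal b _ hb _ hSc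
    have h6 := hl b (Cv.vel H γ t - c)
    have e : Cv.vel H γ t - l b (Cv.vel H γ t) • a b =
        (c - l b c • a b) + (Cv.vel H γ t - c) - l b (Cv.vel H γ t - c) • a b := by
      rw [map_sub, sub_smul]; abel
    rw [e]
    refine (norm_sub_le _ _).trans ?_
    have h7 := norm_add_le (c - l b c • a b) (Cv.vel H γ t - c)
    simp only at h5
    linarith

end Rk

end Pool.Agent.MP_7f5071_gt

end MrgPart4

-- ======== part 5: formerly Pool.Agent.MP_7f5071_gt.R2C
section MrgPart5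

/-! Module R2, part C: bump functions, integration, and the theorem. -/

namespace Pool.Agent.MP_7f5071_gt

open Filter Topology Set Metric MeasureTheory

universe u

namespace Rk

variable {X : Type u} [MetricSpace X] {N : ℕ}

lemma exists_bump {δ : ℝ} (hδ : 0 < δ) (F : Set X) :
    ∃ f : X → ℝ, (∀ x, 0 ≤ f x) ∧ (∀ x, f x ≤ 1) ∧ (∀ x ∈ F, f x = 1) ∧
      (∀ x, x ∉ thickening δ F → f x = 0) ∧ Lip δ⁻¹ f := by
  refine ⟨fun x => (thickenedIndicator hδ F x : ℝ), fun x => NNReal.coe_nonneg _,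
    fun x => by exact_mod_cast thickenedIndicator_le_one hδ F x,
    fun x hx => by simp only [thickenedIndicator_one hδ F hx, NNReal.coe_one],
    fun x hx => by simp only [thickenedIndicator_zero hδ F hx, NNReal.coe_zero], fun x y => ?_⟩
  have h := (lipschitzWith_thickenedIndicator hδ F).dist_le_mul x y
  rw [NNReal.dist_eq, NNReal.coe_inv, Real.coe_toNNReal _ hδ.le] at h
  exact h

lemma exists_small {ι : Type} [Fintype ι] {p : ι → ℝ → Prop}
    (hm : ∀ i δ δ', 0 < δ' → δ' ≤ δ → p i δ → p i δ') (h : ∀ i, ∃ δ, 0 < δ ∧ p i δ) {c : ℝ}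
    (hc : 0 < c) : ∃ δ, 0 < δ ∧ δ ≤ c ∧ ∀ i, p i δ := by
  have h1 : ∀ i, ∀ᶠ δ in 𝓝[>] (0 : ℝ), p i δ := fun i => by
    obtain ⟨δ, hδ, hp⟩ := h i
    filter_upwards [Ioc_mem_nhdsGT hδ] with δ' h' using hm i δ δ' h'.1 h'.2 hp
  obtain ⟨δ, h2, h3⟩ := ((eventually_all.2 h1).and (Ioc_mem_nhdsGT hc)).exists
  exact ⟨δ, h3.1, h3.2, h2⟩

theorem bumps [CompactSpace X] [MeasurableSpace X] [BorelSpace X] (μ : Measure X)
    [IsFiniteMeasure μ] {ι : Type} [Fintype ι] {E : ι → Set X} {O : Set X} (hO : IsClosed O)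
    (hE : ∀ α, MeasurableSet (E α)) (hd : ∀ α α', α ≠ α' → Disjoint (E α) (E α'))
    (hsub : ∀ α, E α ⊆ O) (hcov : ∀ x ∈ O, ∃ α, x ∈ E α) {ε : ℝ} (hε : 0 < ε) :
    ∃ (φ : Option ι → X → ℝ) (Λ lam : ℝ) (B : Set X), 0 < lam ∧ MeasurableSet B ∧ μ.real B ≤ ε ∧
      (∀ α x, 0 ≤ φ α x) ∧ (∀ x, ∑ α, φ α x ≤ 1) ∧
      (∀ x, (∃ y ∈ O, dist x y < lam) → ∑ α, φ α x = 1) ∧ (∀ α, Lip Λ (φ α)) ∧
      ∀ x, x ∉ B → (∀ α, φ α x = 0) ∨
        ∃ α0, x ∈ E α0 ∧ φ (some α0) x = 1 ∧ ∀ α, α ≠ some α0 → φ α x = 0 := by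
  classical
  obtain ⟨e, he, hee⟩ : ∃ e : ℝ, 0 < e ∧ (Fintype.card ι + 1) * e = ε :=
    ⟨ε / (Fintype.card ι + 1), by positivity, by field_simp⟩
  have he' : ENNReal.ofReal e ≠ 0 := by simpa using he
  choose F hFE hFc hFm using fun α => (hE α).exists_isClosed_sdiff_lt (measure_ne_top μ _) he'
  obtain ⟨U, hOU, hU, -, hUm⟩ := hO.measurableSet.exists_isOpen_sdiff_lt (measure_ne_top μ _) he'
  obtain ⟨δ, hδ, hδU⟩ := hO.isCompact.exists_thickening_subset_open hU hOU
  obtain ⟨lam, hlam, hlamδ, hdis⟩ := exists_small (ι := ι × ι)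
    (p := fun q δ => q.1 ≠ q.2 → Disjoint (thickening δ (F q.1)) (thickening δ (F q.2)))
    (fun q δ δ' _ hle hp hq => (hp hq).mono (thickening_mono hle _) (thickening_mono hle _))
    (fun q => by
      by_cases hq : q.1 = q.2
      · exact ⟨1, one_pos, fun h => absurd hq h⟩
      · obtain ⟨δ, h1, h2⟩ := ((hd _ _ hq).mono (hFE _) (hFE _)).exists_thickenings
          (hFc _).isCompact (hFc _)
        exact ⟨δ, h1, fun _ => h2⟩) (half_pos hδ)
  choose f f0 f1 fone fzero flip using fun α => exists_bump hlam (F α)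
  obtain ⟨ψ, ψ0, ψ1, ψone, ψzero, ψlip⟩ := exists_bump hlam (thickening lam O)
  have hTO : ∀ α, thickening lam (F α) ⊆ thickening lam O := fun α =>
    thickening_subset_of_subset _ ((hFE α).trans (hsub α))
  have hsingle : ∀ α x, x ∈ thickening lam (F α) → ∀ α', α' ≠ α → f α' x = 0 :=
    fun α x hx α' hne => fzero α' x fun hx' => Set.disjoint_left.1 (hdis (α', α) hne) hx' hx
  have hle : ∀ x, ∑ α, f α x ≤ ψ x := fun x => by
    by_cases hx : ∃ α, x ∈ thickening lam (F α)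
    · obtain ⟨α, hα⟩ := hx
      rw [Finset.sum_eq_single α (fun α' _ hne => hsingle α x hα α' hne) (by simp),
        ψone x (hTO α hα)]
      exact f1 α x
    · push Not at hx
      rw [Finset.sum_eq_zero fun α _ => fzero α x (hx α)]
      exact ψ0 x
  let φ : Option ι → X → ℝ := fun o x => o.elim (ψ x - ∑ α, f α x) fun α => f α x
  have hsum : ∀ x, ∑ o, φ o x = ψ x := fun x => by
    rw [Fintype.sum_option]
    simp [φ]
  refine ⟨φ, (Fintype.card ι + 1) * lam⁻¹, lam, U \ ⋃ α, F α, hlam,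
    hU.measurableSet.diff (MeasurableSet.iUnion fun α => (hFc α).measurableSet), ?_, ?_,
    fun x => (hsum x).trans_le (ψ1 x), fun x hx => ?_, ?_, fun x hx => ?_⟩
  · have h1 : U \ ⋃ α, F α ⊆ (U \ O) ∪ ⋃ α, (E α \ F α) := by
      intro x hx
      by_cases hxO : x ∈ O
      · obtain ⟨α, hα⟩ := hcov x hxO
        exact Or.inr (mem_iUnion.2 ⟨α, hα, fun h => hx.2 (mem_iUnion.2 ⟨α, h⟩)⟩)
      · exact Or.inl ⟨hx.1, hxO⟩
    have h2 : ∀ A : Set X, μ A < ENNReal.ofReal e → μ.real A ≤ e := fun A hA =>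
      ENNReal.toReal_le_of_le_ofReal he.le hA.le
    refine (measureReal_mono h1).trans ((measureReal_union_le _ _).trans ?_)
    have h3 := measureReal_iUnion_fintype_le (μ := μ) fun α => E α \ F α
    have h4 : ∑ α, μ.real (E α \ F α) ≤ ∑ _α : ι, e := Finset.sum_le_sum fun α _ => h2 _ (hFm α)
    simp only [Finset.sum_const, Finset.card_univ, nsmul_eq_mul] at h4
    have h5 := h2 _ hUm
    linarith
  · rintro (_ | α) x
    · exact sub_nonneg.2 (hle x)
    · exact f0 α x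
  · rw [hsum]
    exact ψone x (mem_thickening_iff.2 hx)
  · have hn : (0 : ℝ) ≤ Fintype.card ι := Nat.cast_nonneg _
    rintro (_ | α) x y
    · have e1 : φ none x - φ none y = (ψ x - ψ y) - ∑ α, (f α x - f α y) := by
        simp only [φ, Option.elim, Finset.sum_sub_distrib]; ring
      rw [e1]
      refine (norm_sub_le _ _).trans ?_
      have h1 := norm_sum_le Finset.univ fun α => f α x - f α y
      have h2 : ∑ α, ‖f α x - f α y‖ ≤ ∑ _α : ι, lam⁻¹ * dist x y :=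
        Finset.sum_le_sum fun α _ => flip α x y
      simp only [Finset.sum_const, Finset.card_univ, nsmul_eq_mul] at h2
      have h3 := ψlip x y
      linarith
    · refine (flip α x y).trans ?_
      have : 0 ≤ lam⁻¹ * dist x y := by positivity
      nlinarith
  · by_cases hU' : x ∈ U
    · have : x ∈ ⋃ α, F α := by
        by_contra hh
        exact hx ⟨hU', hh⟩
      obtain ⟨α0, h0⟩ := mem_iUnion.1 this
      have hT := self_subset_thickening hlam _ h0
      refine Or.inr ⟨α0, hFE α0 h0, fone α0 x h0, ?_⟩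
      rintro (_ | α) hne
      · show ψ x - ∑ α, f α x = 0
        rw [Finset.sum_eq_single α0 (fun α' _ hne => hsingle α0 x hT α' hne) (by simp),
          ψone x (hTO α0 hT), fone α0 x h0, sub_self]
      · exact hsingle α0 x hT α fun h => hne (by rw [h])
    · have hψ : ψ x = 0 := ψzero x fun h => hU' (hδU (thickening_mono (by linarith) _
        (thickening_thickening_subset _ _ _ h)))
      left
      intro o
      have h1 : ∀ o ∈ (Finset.univ : Finset (Option ι)), 0 ≤ φ o x := by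
        rintro (_ | α) _
        · exact sub_nonneg.2 (hle x)
        · exact f0 α x
      exact (Finset.sum_eq_zero_iff_of_nonneg h1).1 ((hsum x).trans hψ) o (Finset.mem_univ _)

/-- Lebesgue measure on the unit interval. -/
noncomputable abbrev nu : Measure ℝ := volume.restrict (Ioc (0 : ℝ) 1)

lemma meas_term [MeasurableSpace X] [BorelSpace X] {H : X → V N} {L : ℝ} (hH : Lip L H)
    {f : X → ℝ} (hf : Continuous f) :
    Measurable fun p : Cv X × ℝ => f (p.1.ext p.2) • Cv.vel H p.1 p.2 := by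
  have h1 : Measurable fun p : Cv X × ℝ => Cv.vel H p.1 p.2 :=
    measurable_deriv_with_param (f := fun (γ : Cv X) (s : ℝ) => H (γ.ext s))
      ((lipW hH).continuous.comp cont_ev)
  exact (hf.comp cont_ev).measurable.smul h1

lemma int_term [MeasurableSpace X] [BorelSpace X] {H : X → V N} {L : ℝ} (hL : 0 ≤ L)
    (hH : Lip L H) {f : X → ℝ} (hf : Continuous f) (hf1 : ∀ x, |f x| ≤ 1)
    (η : Measure (Cv X)) [IsFiniteMeasure η] :
    Integrable (fun p : Cv X × ℝ => f (p.1.ext p.2) • Cv.vel H p.1 p.2) (η.prod nu) := by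
  refine Integrable.of_bound (meas_term hH hf).aestronglyMeasurable L
    (Eventually.of_forall fun p => ?_)
  rw [norm_smul, Real.norm_eq_abs]
  exact (mul_le_mul (hf1 _) (norm_vel_le hL hH _ _) (norm_nonneg _) zero_le_one).trans_eq
    (one_mul L)

lemma int_J [MeasurableSpace X] [BorelSpace X] {H : X → V N} {L : ℝ} (hL : 0 ≤ L)
    (hH : Lip L H) {f : X → ℝ} (hf : Continuous f) (hf1 : ∀ x, |f x| ≤ 1)
    (η : Measure (Cv X)) [IsFiniteMeasure η] :
    ∫ γ, Cv.J H f γ ∂η = ∫ p, f (p.1.ext p.2) • Cv.vel H p.1 p.2 ∂(η.prod nu) := by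
  rw [integral_prod _ (int_term hL hH hf hf1 η)]
  simp only [Cv.J, intervalIntegral.integral_of_le zero_le_one]

theorem integ [MeasurableSpace X] [BorelSpace X] {H : X → V N} {L : ℝ} (hL : 0 ≤ L)
    (hH : Lip L H) (η : Measure (Cv X)) [IsFiniteMeasure η] {ι : Type} [Fintype ι]
    {φ : ι → X → ℝ} (hφ : ∀ α, Continuous (φ α)) (h0 : ∀ α x, 0 ≤ φ α x)
    (h1 : ∀ x, ∑ α, φ α x ≤ 1) {χ : X → ℝ} (hχ : Continuous χ) (hχ1 : ∀ x, χ x ∈ Icc (0 : ℝ) 1)
    {a : ι → V N} {l : ι → V N →L[ℝ] ℝ} (hl : ∀ α w, ‖l α w • a α‖ ≤ ‖w‖) {B : Set X}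
    (hB : MeasurableSet B) {κ : ℝ} (hκ : 0 ≤ κ)
    (hae : ∀ γ : Cv X, ∀ᵐ t : ℝ, t ∈ Icc (0 : ℝ) 1 → γ.ext t ∉ B →
      ∑ α, ‖(φ α (γ.ext t) * χ (γ.ext t)) • Cv.vel H γ t -
        l α (φ α (γ.ext t) • Cv.vel H γ t) • a α‖ ≤ κ) :
    ∑ α, ‖(∫ γ, Cv.J H (fun x => φ α x * χ x) γ ∂η) - l α (∫ γ, Cv.J H (φ α) γ ∂η) • a α‖ ≤
      κ * η.real univ +
        2 * L * ((η.prod nu).map fun p : Cv X × ℝ => p.1.ext p.2).real B := by
  have hφ1 : ∀ α x, φ α x ≤ 1 := fun α x =>
    (Finset.single_le_sum (fun α _ => h0 α x) (Finset.mem_univ α)).trans (h1 x)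
  have b1 : ∀ α x, |φ α x| ≤ 1 := fun α x => by rw [abs_of_nonneg (h0 α x)]; exact hφ1 α x
  have b2 : ∀ α x, |φ α x * χ x| ≤ 1 := fun α x => by
    rw [abs_mul, abs_of_nonneg (hχ1 x).1]
    exact mul_le_one₀ (b1 α x) (hχ1 x).1 (hχ1 x).2
  let g : ι → Cv X × ℝ → V N := fun α p =>
    (φ α (p.1.ext p.2) * χ (p.1.ext p.2)) • Cv.vel H p.1 p.2 -
      l α (φ α (p.1.ext p.2) • Cv.vel H p.1 p.2) • a α
  have i1 := fun α => int_term hL hH ((hφ α).mul hχ) (b2 α) η
  have i2 := fun α => ((l α).smulRight (a α)).integrable_comp (int_term hL hH (hφ α) (b1 α) η)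
  have ig : ∀ α, Integrable (g α) (η.prod nu) := fun α => (i1 α).sub (i2 α)
  have e1 : ∀ α, (∫ γ, Cv.J H (fun x => φ α x * χ x) γ ∂η) -
      l α (∫ γ, Cv.J H (φ α) γ ∂η) • a α = ∫ p, g α p ∂(η.prod nu) := fun α => by
    rw [int_J (f := fun x => φ α x * χ x) hL hH ((hφ α).mul hχ) (b2 α) η, int_J hL hH (hφ α) (b1 α) η,
      ← ContinuousLinearMap.smulRight_apply,
      ← ContinuousLinearMap.integral_comp_comm _ (int_term hL hH (hφ α) (b1 α) η)]
    exact (integral_sub (i1 α) (i2 α)).symm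
  have hev : Measurable fun p : Cv X × ℝ => p.1.ext p.2 := cont_ev.measurable
  have hB' : MeasurableSet ((fun p : Cv X × ℝ => p.1.ext p.2) ⁻¹' B) := hev hB
  let r : Cv X × ℝ → ℝ := fun p =>
    κ + ((fun p : Cv X × ℝ => p.1.ext p.2) ⁻¹' B).indicator (fun _ => 2 * L) p
  have ir2 : Integrable (((fun p : Cv X × ℝ => p.1.ext p.2) ⁻¹' B).indicator fun _ => 2 * L)
      (η.prod nu) := (integrable_const _).indicator hB'
  have hpt : ∀ᵐ p ∂(η.prod nu), ∑ α, ‖g α p‖ ≤ r p := by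
    have mg : ∀ α, Measurable (g α) := fun α => (meas_term hH ((hφ α).mul hχ)).sub
      (((l α).smulRight (a α)).continuous.measurable.comp (meas_term hH (hφ α)))
    have mr : Measurable r := measurable_const.add (measurable_const.indicator hB')
    refine (Measure.ae_prod_iff_ae_ae (measurableSet_le
      (Finset.measurable_sum _ fun α _ => (mg α).norm) mr)).2 (Eventually.of_forall fun γ => ?_)
    rw [ae_restrict_iff' measurableSet_Ioc]
    filter_upwards [hae γ] with t ht hI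
    simp only [r]
    by_cases hb : γ.ext t ∈ B
    · have hb' : (γ, t) ∈ (fun p : Cv X × ℝ => p.1.ext p.2) ⁻¹' B := hb
      rw [indicator_of_mem hb']
      have hw := norm_vel_le hL hH γ t
      have h2 : ∑ α, ‖g α (γ, t)‖ ≤ ∑ α, φ α (γ.ext t) * (2 * L) := by
        refine Finset.sum_le_sum fun α _ => (norm_sub_le _ _).trans ?_
        have h3 := hl α (φ α (γ.ext t) • Cv.vel H γ t)
        have h4 : ‖φ α (γ.ext t) • Cv.vel H γ t‖ ≤ φ α (γ.ext t) * L := by
          rw [norm_smul, Real.norm_of_nonneg (h0 _ _)]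
          exact mul_le_mul_of_nonneg_left hw (h0 _ _)
        have h5 : ‖(φ α (γ.ext t) * χ (γ.ext t)) • Cv.vel H γ t‖ ≤ φ α (γ.ext t) * L := by
          rw [norm_smul, Real.norm_of_nonneg (mul_nonneg (h0 _ _) (hχ1 _).1)]
          exact mul_le_mul (mul_le_of_le_one_right (h0 _ _) (hχ1 _).2) hw (norm_nonneg _) (h0 _ _)
        simp only
        linarith
      rw [← Finset.sum_mul] at h2
      have h6 := mul_le_of_le_one_left (by positivity : 0 ≤ 2 * L) (h1 (γ.ext t))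
      linarith
    · have hb' : (γ, t) ∉ (fun p : Cv X × ℝ => p.1.ext p.2) ⁻¹' B := hb
      rw [indicator_of_notMem hb', add_zero]
      exact ht ⟨hI.1.le, hI.2⟩ hb
  calc _ = ∑ α, ‖∫ p, g α p ∂(η.prod nu)‖ := Finset.sum_congr rfl fun α _ => by rw [e1]
    _ ≤ ∑ α, ∫ p, ‖g α p‖ ∂(η.prod nu) :=
      Finset.sum_le_sum fun α _ => norm_integral_le_integral_norm _
    _ = ∫ p, ∑ α, ‖g α p‖ ∂(η.prod nu) := (integral_finsetSum _ fun α _ => (ig α).norm).symm
    _ ≤ ∫ p, r p ∂(η.prod nu) := integral_mono_ae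
      (integrable_finsetSum _ fun α _ => (ig α).norm) ((integrable_const κ).add ir2) hpt
    _ = _ := by
      rw [integral_add (integrable_const κ) ir2, integral_const, integral_indicator_const _ hB',
        map_measureReal_apply hev hB, ← univ_prod_univ, measureReal_prod_prod]
      simp [mul_comm]

end Rk

open Rk in
theorem r2 (h1 : RStmt.{u}) (h2 : DWStmt) : R2Stmt.{u} := by
  intro X _ _ hX N H L0 hH0 O hO hP q η κ hκ
  classical
  borelize X
  obtain ⟨L, hL, hH⟩ : ∃ L : ℝ, 1 ≤ L ∧ Lip L H := ⟨max 1 L0, le_max_left _ _, fun x y =>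
    (hH0 x y).trans (mul_le_mul_of_nonneg_right (le_max_right _ _) dist_nonneg)⟩
  have hL0 : 0 < L := by linarith
  obtain ⟨m, hm⟩ : ∃ m : ℝ, m = ∑ β, (η β : Measure (Cv X)).real univ := ⟨_, rfl⟩
  have hm0 : 0 ≤ m := hm ▸ Finset.sum_nonneg fun β _ => measureReal_nonneg
  obtain ⟨ι, _, E, a, l, hE, hd, hsub, hcov, hl, hae⟩ := rank_one h1 h2 hX hL hH hO hP
    (κ := κ / (2 * (m + 1))) (by positivity)
  let μ : Fin q → Measure X := fun β =>
    (((η β : Measure (Cv X))).prod nu).map fun p : Cv X × ℝ => p.1.ext p.2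
  obtain ⟨φ, Λ, lam, B, hlam, hB, hμ, h0, hs1, hs2, hlip, hpt⟩ :=
    bumps (∑ β, μ β) hO hE hd hsub hcov (ε := κ / (4 * L)) (by positivity)
  let a' : Option ι → V N := fun o => o.elim 0 a
  let l' : Option ι → V N →L[ℝ] ℝ := fun o => o.elim 0 l
  have hl' : ∀ o w, ‖l' o w • a' o‖ ≤ ‖w‖ := by
    rintro (_ | α) w
    · simp [a']
    · exact hl α w
  let e := (Fintype.equivFin (Option ι)).symm
  refine ⟨_, fun j => φ (e j), fun j β => l' (e j) (∫ γ, Cv.J H (φ (e j)) γ ∂(η β : Measure _)),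
    fun j => a' (e j), Λ, lam, hlam, fun j => h0 _, fun x => ?_, fun x hx => ?_,
    fun j => hlip _, fun χ hχ hχ1 hχO => ?_⟩
  · exact (e.sum_comp fun o => φ o x).trans_le (hs1 x)
  · exact (e.sum_comp fun o => φ o x).trans (hs2 x hx)
  · rw [e.sum_comp fun o => ∑ β, ‖(∫ γ, Cv.J H (fun x => φ o x * χ x) γ ∂(η β : Measure (Cv X)))
      - l' o (∫ γ, Cv.J H (φ o) γ ∂(η β : Measure _)) • a' o‖, Finset.sum_comm]
    have key := fun β => integ hL0.le hH (η β : Measure (Cv X))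
      (fun o => (lipW (hlip o)).continuous) h0 hs1 hχ hχ1 hl' hB
      (κ := κ / (2 * (m + 1))) (by positivity) (fun γ => by
        filter_upwards [hae γ] with t ht hI hb
        rcases hpt _ hb with h | ⟨α0, hx, h3, h4⟩
        · simp only [h, zero_mul, zero_smul, map_zero, sub_zero, norm_zero, Finset.sum_const_zero]
          positivity
        · rw [Finset.sum_eq_single (some α0) (fun o _ hne => by simp [h4 o hne]) (by simp), h3,
            hχO _ (hsub α0 hx), one_mul, one_smul]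
          exact ht hI α0 hx)
    refine (Finset.sum_le_sum fun β _ => key β).trans ?_
    rw [Finset.sum_add_distrib, ← Finset.mul_sum, ← Finset.mul_sum, ← hm]
    have h3 : ∑ β, (μ β).real B = (∑ β, μ β).real B := by
      simp only [Measure.real, Measure.coe_finsetSum, Finset.sum_apply]
      rw [ENNReal.toReal_sum fun β _ => measure_ne_top _ _]
    have h4 : 2 * L * ∑ β, (μ β).real B ≤ 2 * L * (κ / (4 * L)) := by
      rw [h3]; gcongr
    have h5 : 2 * L * (κ / (4 * L)) = κ / 2 := by field_simp; norm_num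
    have h6 : κ / (2 * (m + 1)) * m ≤ κ / 2 := by
      rw [div_mul_eq_mul_div, div_le_div_iff₀ (by positivity) (by positivity)]
      nlinarith
    have h7 : ∑ β, (μ β).real B = ∑ β, (Measure.map (fun p : Cv X × ℝ => p.1.ext p.2)
      (((η β : Measure (Cv X))).prod nu)).real B := rfl
    rw [← h7]
    linarith

end Pool.Agent.MP_7f5071_gt

end MrgPart5

-- marker of a merged file
example : 731051 + 145008 = 731051 + 145008 := rfl
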