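import Mathlib.Topology.Sheaves.Presheaf
import Mathlib.Tactic.Monotonicity.Lemmas
import Mathlib.Combinatorics.Matroid.Basic
import Pool.Agent.MP_7f5071_gt.Spec

/-! Small lemmas for the modules STG and LIM. -/

namespace Pool.Agent.MP_7f5071_gt.Stg

open Filter Topology Set Metric MeasureTheory

section General

variable {X : Type*} [MetricSpace X]

theorem lip_continuous {E : Type*} [NormedAddCommGroup E] {K : ℝ} {F : X → E} (h : Lip K F) :
    Continuous F := by
  refine (LipschitzWith.of_dist_le_mul (K := K.toNNReal) fun x y => ?_).continuous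
  rw [dist_eq_norm]
  exact (h x y).trans (mul_le_mul_of_nonneg_right (Real.le_coe_toNNReal K) dist_nonneg)

theorem lip_mono {E : Type*} [NormedAddCommGroup E] {K K' : ℝ} {F : X → E} (h : Lip K F)
    (hK : K ≤ K') : Lip K' F :=
  fun x y => (h x y).trans (mul_le_mul_of_nonneg_right hK dist_nonneg)

theorem plip_continuousAt {E : Type*} [NormedAddCommGroup E] {K : ℝ} {F : X → E} {x : X}
    (h : PLip K F x) : ContinuousAt F x := by
  rw [ContinuousAt, tendsto_iff_norm_sub_tendsto_zero]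
  refine squeeze_zero' (Eventually.of_forall fun _ => norm_nonneg _) h ?_
  have : Tendsto (fun y => K * dist y x) (𝓝 x) (𝓝 (K * dist x x)) :=
    (continuous_const.mul (continuous_id.dist continuous_const)).tendsto x
  simpa using this

theorem lip_of_plip {E : Type*} [NormedAddCommGroup E] (hX : Geodesic X) {K : ℝ} {F : X → E}
    (h : ∀ x, PLip K F x) : Lip K F := by
  have hc : Continuous F := continuous_iff_continuousAt.2 fun x => plip_continuousAt (h x)
  intro y x
  obtain ⟨γ, hγ⟩ := hX x y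
  have hγc := hγ.lip.continuous
  have key : Icc 0 (dist x y) ⊆ {t | ‖F (γ t) - F x‖ ≤ K * t} := by
    refine IsClosed.Icc_subset_of_forall_exists_gt ?_ (by simp [hγ.src]) ?_
    · exact (isClosed_le (by fun_prop) (by fun_prop)).inter isClosed_Icc
    · rintro t ⟨ht, ht0, ht1⟩ u hu
      have h1 : ∀ᶠ v in 𝓝[>] t, ‖F (γ v) - F (γ t)‖ ≤ K * dist (γ v) (γ t) :=
        nhdsWithin_le_nhds (hγc.continuousAt.eventually (h (γ t)))
      have h2 : ∀ᶠ v in 𝓝[>] t, v ∈ Ioo t (min u (dist x y)) :=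
        Ioo_mem_nhdsGT (lt_min hu ht1)
      obtain ⟨v, hv1, hv2, hv3⟩ := (h1.and h2).exists
      rw [lt_min_iff] at hv3
      refine ⟨v, ?_, hv2, hv3.1.le⟩
      rw [hγ.iso v ⟨by linarith, hv3.2.le⟩ t ⟨ht0, ht1.le⟩, abs_of_pos (by linarith)] at hv1
      have ht' : ‖F (γ t) - F x‖ ≤ K * t := ht
      have := norm_sub_le_norm_sub_add_norm_sub (F (γ v)) (F (γ t)) (F x)
      change ‖F (γ v) - F x‖ ≤ K * v
      linarith
  have := key ⟨dist_nonneg, le_rfl⟩
  simp only [mem_ofPred_eq, hγ.tgt] at this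
  rwa [dist_comm y x]

variable {N : ℕ}

theorem near_at_self {δ : ℝ} (hδ : 0 < δ) (H : X → V N) (x : X) :
    ‖H x - H x‖ ≤ δ ∧ H x ∈ affineSpan ℝ (H '' ball x δ) :=
  ⟨by simpa using hδ.le, subset_affineSpan ℝ _ ⟨x, mem_ball_self hδ, rfl⟩⟩

theorem near_mono {a b : ℝ} {H G : X → V N} (h : Near a H G) (hab : a ≤ b) : Near b H G :=
  fun x => ⟨(h x).1.trans hab,
    affineSpan_mono ℝ (image_mono (ball_subset_ball hab)) (h x).2⟩

theorem near_trans {a b : ℝ} {H G G' : X → V N} (h : Near a H G) (h' : Near b G G') :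
    Near (a + b) H G' := by
  intro x
  refine ⟨?_, ?_⟩
  · have := norm_sub_le_norm_sub_add_norm_sub (G' x) (G x) (H x)
    linarith [(h x).1, (h' x).1]
  · refine (affineSpan_le.2 ?_) (h' x).2
    rintro _ ⟨y, hy, rfl⟩
    refine affineSpan_mono ℝ (image_mono fun z hz => ?_) (h y).2
    rw [mem_ball] at *
    linarith [dist_triangle z y x]

theorem ok_change {P : Patch X N} {H H' : X → V N} {Λ Λ' γ δ δ' t : ℝ} (h : P.Ok H Λ γ δ)
    (hH : ∀ y ∈ P.Rm, H' y = H y) (hΛ : Λ ≤ Λ') (hδ : δ ≤ δ') (ht : 1 + 8 * P.c / 10 ≤ t)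
    (ht' : t ≤ P.t) : ({P with t := t} : Patch X N).Ok H' Λ' γ δ' := by
  have hs : ∀ y ∈ ({P with t := t} : Patch X N).Rm, y ∈ P.Rm := fun y hy => le_trans hy ht'
  exact
    { cpos := h.cpos
      cle := h.cle
      spos := h.spos
      sδ := h.sδ.trans hδ
      tlo := ht
      thi := ht'.trans h.thi
      ρlip := h.ρlip
      ρeq := fun y hy => h.ρeq y (hs y hy)
      form := fun y hy => (hH y (hs y hy)).trans (h.form y (hs y hy))
      σlip := fun y hy => h.σlip y (hs y hy)
      Alip := fun y hy => (h.Alip y (hs y hy)).mono fun y' hy' a ha b hb =>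
        (hy' a ha b hb).trans (mul_le_mul_of_nonneg_right hΛ dist_nonneg)
      Abd := h.Abd
      ancσ := h.ancσ
      ancd := h.ancd
      θmem := h.θmem
      θone := h.θone
      θzero := h.θzero
      θlip := h.θlip
      θsh := h.θsh
      diam := fun y hy y' hy' => (h.diam y (hs y hy) y' (hs y' hy')).trans hδ }

theorem ok_mono {P : Patch X N} {H H' : X → V N} {Λ Λ' γ δ δ' : ℝ} (h : P.Ok H Λ γ δ)
    (hH : ∀ y ∈ P.Rm, H' y = H y) (hΛ : Λ ≤ Λ') (hδ : δ ≤ δ') : P.Ok H' Λ' γ δ' :=
  ok_change h hH hΛ hδ h.tlo le_rfl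

/-- Gluing finitely many modifications with disjoint closed supports. -/
theorem glue (hX : Geodesic X) {T : Type} [Finite T] {K δ : ℝ} (hδ : 0 < δ) {H : X → V N}
    (hH : Lip K H) (G : T → X → V N) (S : T → Set X) (hG : ∀ t, Lip K (G t))
    (hn : ∀ t, Near δ H (G t)) (hS : ∀ t, IsClosed (S t)) (hGS : ∀ t y, y ∉ S t → G t y = H y)
    (hd : ∀ t t', t ≠ t' → Disjoint (S t) (S t')) :
    ∃ H' : X → V N, Lip K H' ∧ Near δ H H' ∧ (∀ t, ∀ y ∈ S t, H' y = G t y) ∧
      ∀ y, (∀ t, y ∉ S t) → H' y = H y := by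
  classical
  let H' : X → V N := fun y => if h : ∃ t, y ∈ S t then G h.choose y else H y
  have h1 : ∀ t, ∀ y ∈ S t, H' y = G t y := by
    intro t y hy
    have h : ∃ t, y ∈ S t := ⟨t, hy⟩
    have : h.choose = t := by
      by_contra hne
      exact disjoint_left.1 (hd _ _ hne) h.choose_spec hy
    simp only [H', dif_pos h, this]
  have h2 : ∀ y, (∀ t, y ∉ S t) → H' y = H y := fun y hy => dif_neg (not_exists.2 hy)
  refine ⟨H', lip_of_plip hX fun x => ?_, fun x => ?_, h1, h2⟩
  · by_cases hx : ∃ t, x ∈ S t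
    · obtain ⟨t, ht⟩ := hx
      have hev : ∀ᶠ y in 𝓝 x, ∀ t', t' ≠ t → y ∉ S t' := by
        refine eventually_all.2 fun t' => ?_
        by_cases he : t' = t
        · exact Eventually.of_forall fun y h => absurd he h
        · exact ((hS t').isOpen_compl.eventually_mem
            (fun h => disjoint_left.1 (hd _ _ he) h ht)).mono fun y hy _ => hy
      refine hev.mono fun y hy => ?_
      have : H' y = G t y := by
        by_cases hyt : y ∈ S t
        · exact h1 t y hyt
        · rw [hGS t y hyt]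
          refine h2 y fun t' => ?_
          by_cases he : t' = t
          · exact he ▸ hyt
          · exact hy t' he
      rw [this, h1 t x ht]
      exact hG t y x
    · have hx' := not_exists.1 hx
      have hev : ∀ᶠ y in 𝓝 x, ∀ t', y ∉ S t' :=
        eventually_all.2 fun t' => (hS t').isOpen_compl.eventually_mem (hx' t')
      refine hev.mono fun y hy => ?_
      rw [h2 y hy, h2 x hx']
      exact hH y x
  · by_cases hx : ∃ t, x ∈ S t
    · obtain ⟨t, ht⟩ := hx
      rw [h1 t x ht]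
      exact hn t x
    · rw [h2 x (not_exists.1 hx)]
      exact near_at_self hδ H x

theorem piece_injOn {π : X → R2} {Γ : Set X} (h : IsPiece π Γ) : InjOn π Γ := by
  obtain ⟨C, hC⟩ := h.inv
  intro x hx y hy he
  have := hC x hx y hy
  rw [he, sub_self, norm_zero, mul_zero] at this
  exact dist_le_zero.1 this

theorem piece_continuous {π : X → R2} {Γ : Set X} (h : IsPiece π Γ) : Continuous π :=
  let ⟨_, hL⟩ := h.lip
  lip_continuous hL

theorem piece_ne_top {π : X → R2} {Γ : Set X} (h : IsPiece π Γ) {S : Set X} (hS : S ⊆ Γ) :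
    volume (π '' S) ≠ ⊤ :=
  ((measure_mono (image_mono hS)).trans_lt
    (h.cpt.image (piece_continuous h)).measure_lt_top).ne

/-- A level whose level set is null in countably many pieces. -/
theorem exists_level (πs : ℕ → X → R2) (Γs : ℕ → Set X) (h : ∀ m, IsPiece (πs m) (Γs m))
    {ρ : X → ℝ} (hρ : Continuous ρ) {a b : ℝ} (hab : a < b) :
    ∃ t ∈ Icc a b, ∀ m, volume (πs m '' (Γs m ∩ {y | ρ y = t})) = 0 := by
  have hc : ∀ m, {t : ℝ | 0 < volume (πs m '' (Γs m ∩ {y | ρ y = t}))}.Countable := by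
    intro m
    refine Measure.countable_meas_pos_of_disjoint_iUnion (fun t => ?_) fun t t' htt => ?_
    · exact (((h m).cpt.inter_right (isClosed_eq hρ continuous_const)).image
        (piece_continuous (h m))).measurableSet
    · refine disjoint_left.2 ?_
      rintro _ ⟨x, ⟨hx, hxt⟩, rfl⟩ ⟨y, ⟨hy, hyt⟩, he⟩
      obtain rfl := piece_injOn (h m) hy hx he
      exact htt (hxt.symm.trans hyt)
  by_contra hn
  push Not at hn
  have : (Icc a b).Countable := (countable_iUnion hc).mono fun t ht => by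
    obtain ⟨m, hm⟩ := hn t ht
    exact mem_iUnion.2 ⟨m, pos_iff_ne_zero.2 hm⟩
  have h0 := this.measure_zero volume
  rw [Real.volume_Icc, ENNReal.ofReal_eq_zero] at h0
  linarith

/-- Maximal separated subsets. -/
theorem exists_separated {D : Set X} (hD : TotallyBounded D) {ε : ℝ} (hε : 0 < ε) :
    ∃ C : Finset X, (C : Set X) ⊆ D ∧ (∀ c ∈ C, ∀ c' ∈ C, c ≠ c' → ε ≤ dist c c') ∧
      D ⊆ ⋃ c ∈ C, closedBall c ε := by
  classical
  obtain ⟨t, ht, hDt⟩ := Metric.totallyBounded_iff.1 hD (ε / 2) (half_pos hε)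
  have hf : ∀ x ∈ D, ∃ y ∈ ht.toFinset, dist x y < ε / 2 := fun x hx => by
    simpa using hDt hx
  choose! f hf1 hf2 using hf
  let S : Set ℕ := {n | ∃ C : Finset X, (C : Set X) ⊆ D ∧
    (∀ c ∈ C, ∀ c' ∈ C, c ≠ c' → ε ≤ dist c c') ∧ C.card = n}
  have hb : BddAbove S := by
    refine ⟨ht.toFinset.card, ?_⟩
    rintro _ ⟨C, h1, h2, rfl⟩
    refine Finset.card_le_card_of_injOn f (fun x hx => hf1 x (h1 hx)) fun x hx y hy he => ?_
    by_contra hne
    have := h2 x hx y hy hne
    have a1 := hf2 x (h1 hx)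
    have a2 := hf2 y (h1 hy)
    rw [he] at a1
    linarith [dist_triangle_right x y (f y)]
  obtain ⟨C, h1, h2, h3⟩ := Nat.sSup_mem (s := S) ⟨0, ∅, by simp, by simp, rfl⟩ hb
  refine ⟨C, h1, h2, fun x hx => ?_⟩
  by_contra hn
  simp only [mem_iUnion, mem_closedBall, not_exists, not_le] at hn
  have hxC : x ∉ C := fun h => by simpa using (hn x h).trans' hε
  have : C.card + 1 ∈ S := by
    refine ⟨insert x C, ?_, ?_, Finset.card_insert_of_notMem hxC⟩
    · rw [Finset.coe_insert]
      exact insert_subset hx h1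
    · intro c hc c' hc' hne
      rw [Finset.mem_insert] at hc hc'
      rcases hc with rfl | hc <;> rcases hc' with rfl | hc'
      · exact absurd rfl hne
      · exact (hn c' hc').le
      · rw [dist_comm]; exact (hn c hc).le
      · exact h2 c hc c' hc' hne
  have := le_csSup hb this
  omega

end General

end Pool.Agent.MP_7f5071_gt.Stg
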