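import Mathlib.RingTheory.Finiteness.Prod
import Mathlib.Algebra.Order.Ring.Star
import Mathlib.Algebra.Order.Star.Real
import Mathlib.MeasureTheory.Covering.BesicovitchVectorSpace
import Pool.Agent.MP_7f5071_gt.StgA

/-! Measure lemmas in the plane for the module STG. -/

namespace Pool.Agent.MP_7f5071_gt.Stg

open Filter Topology Set Metric MeasureTheory

theorem vol_closedBall (w : R2) {r : ℝ} (hr : 0 ≤ r) :
    volume (closedBall w r) = ENNReal.ofReal (4 * r ^ 2) := by
  obtain ⟨a, b⟩ := w
  rw [← closedBall_prod_same, Measure.volume_eq_prod, Measure.prod_prod, Real.volume_closedBall,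
    Real.volume_closedBall, ← ENNReal.ofReal_mul (by positivity)]
  congr 1
  ring

/-- Points of uniform density at scales up to `s0`. -/
def Dens (K : Set R2) (β s0 : ℝ) : Set R2 :=
  {w | w ∈ K ∧ ∀ r, 0 < r → r ≤ s0 → volume (closedBall w r \ K) ≤ ENNReal.ofReal (β * r ^ 2)}

theorem exists_dens {K : Set R2} (hK : IsCompact K) {β : ℝ} (hβ : 0 < β) :
    ∃ s0 > 0, 3 / 4 * volume.real K ≤ volume.real (Dens K β s0) := by
  have hfin : volume K ≠ ⊤ := hK.measure_lt_top.ne
  by_cases h0 : volume K = 0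
  · exact ⟨1, one_pos, by simp [Measure.real, h0]⟩
  have hae : ∀ᵐ w ∂(volume : Measure R2), w ∈ K → w ∈ ⋃ n : ℕ, Dens K β (1 / (n + 1)) := by
    have h := Besicovitch.ae_tendsto_measure_inter_div_of_measurableSet volume
      hK.measurableSet.compl
    filter_upwards [h] with w hw hwK
    rw [indicator_of_notMem (by simpa using hwK)] at hw
    have h1 : ∀ᶠ r in 𝓝[>] (0 : ℝ), volume (Kᶜ ∩ closedBall w r) / volume (closedBall w r) <
        ENNReal.ofReal (β / 4) :=
      hw.eventually (gt_mem_nhds (by simpa using hβ))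
    obtain ⟨u, hu, hu'⟩ := mem_nhdsGT_iff_exists_Ioo_subset.1 h1
    obtain ⟨n, hn⟩ := exists_nat_one_div_lt (show (0 : ℝ) < u from hu)
    refine mem_iUnion.2 ⟨n, hwK, fun r hr hr' => ?_⟩
    have h2 := hu' ⟨hr, hr'.trans_lt hn⟩
    simp only [mem_ofPred_eq] at h2
    rw [vol_closedBall w hr.le, ENNReal.div_lt_iff
      (Or.inl (ENNReal.ofReal_pos.2 (by positivity)).ne') (Or.inl ENNReal.ofReal_ne_top), ← ENNReal.ofReal_mul (by positivity)] at h2
    rw [Set.sdiff_eq, inter_comm]
    refine h2.le.trans (le_of_eq ?_)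
    congr 1
    ring
  have hmono : Monotone fun n : ℕ => Dens K β (1 / (n + 1)) := by
    intro m n hmn w hw
    refine ⟨hw.1, fun r hr hr' => hw.2 r hr (hr'.trans ?_)⟩
    exact one_div_le_one_div_of_le (by positivity) (by exact_mod_cast Nat.succ_le_succ hmn)
  have h1 : volume K ≤ ⨆ n : ℕ, volume (Dens K β (1 / (n + 1))) := by
    rw [← hmono.measure_iUnion]
    exact measure_mono_ae hae
  have h2 : ENNReal.ofReal (3 / 4 * volume.real K) < volume K := by
    have hp : 0 < volume.real K := ENNReal.toReal_pos h0 hfin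
    rw [ENNReal.ofReal_lt_iff_lt_toReal (by positivity) hfin]
    change _ < volume.real K
    linarith
  obtain ⟨n, hn⟩ := lt_iSup_iff.1 (h2.trans_le h1)
  refine ⟨1 / (n + 1), by positivity, ?_⟩
  exact (ENNReal.ofReal_le_iff_le_toReal
    ((measure_mono fun w hw => hw.1).trans_lt hK.measure_lt_top).ne).1 hn.le

theorem capture {K : Set R2} (hK : IsCompact K) {β s0 s : ℝ} (hβ : β ≤ 1 / 4)
    (h0 : 3 / 4 * volume.real K ≤ volume.real (Dens K β s0)) (hs : 0 < s) (hs0 : s ≤ s0) :
    ∃ C : Finset R2, (C : Set R2) ⊆ Dens K β s0 ∧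
      (∀ c ∈ C, ∀ c' ∈ C, c ≠ c' → 7 * s ≤ dist c c') ∧
      1 / 100 * volume.real K ≤ volume.real (⋃ c ∈ C, K ∩ closedBall c (9 * s / 10)) := by
  have hDK : Dens K β s0 ⊆ K := fun w hw => hw.1
  obtain ⟨C, h1, h2, h3⟩ := exists_separated (hK.totallyBounded.subset hDK)
    (show 0 < 7 * s by positivity)
  refine ⟨C, h1, h2, ?_⟩
  have a1 : volume.real (Dens K β s0) ≤ C.card * (196 * s ^ 2) := by
    refine (measureReal_mono h3 ?_).trans ((measureReal_biUnion_finset_le _ _).trans ?_)
    · exact (measure_biUnion_lt_top C.finite_toSet fun _ _ => measure_closedBall_lt_top).ne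
    · rw [← nsmul_eq_mul]
      refine Finset.sum_le_card_nsmul _ _ _ fun c _ => le_of_eq ?_
      rw [Measure.real, vol_closedBall c (by positivity), ENNReal.toReal_ofReal (by positivity)]
      ring
  have a2 : C.card * (3 * s ^ 2) ≤ volume.real (⋃ c ∈ C, K ∩ closedBall c (9 * s / 10)) := by
    rw [measureReal_biUnion_finset ?_
      (fun c _ => hK.measurableSet.inter measurableSet_closedBall)
      (fun c _ => ((measure_mono inter_subset_left).trans_lt hK.measure_lt_top).ne),
      ← nsmul_eq_mul]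
    · refine Finset.card_nsmul_le_sum _ _ _ fun c hc => ?_
      have b1 := (h1 hc).2 (9 * s / 10) (by positivity) (by linarith)
      have b2 : volume.real (closedBall c (9 * s / 10) \ K) ≤ 1 / 4 * (9 * s / 10) ^ 2 :=
        ENNReal.toReal_le_of_le_ofReal (by positivity) (b1.trans (ENNReal.ofReal_le_ofReal
          (mul_le_mul_of_nonneg_right hβ (by positivity))))
      have b3 := measureReal_inter_add_sdiff (μ := volume) (s := closedBall c (9 * s / 10))
        hK.measurableSet measure_closedBall_lt_top.ne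
      rw [Measure.real.eq_1 volume (closedBall c (9 * s / 10)), vol_closedBall c (by positivity),
        ENNReal.toReal_ofReal (by positivity), inter_comm] at b3
      nlinarith [sq_nonneg s]
    · intro c hc c' hc' hne
      refine disjoint_left.2 fun w hw hw' => ?_
      have := h2 c hc c' hc' hne
      have b1 := mem_closedBall.1 hw.2
      have b2 := mem_closedBall.1 hw'.2
      linarith [dist_triangle_left c c' w]
  have : (0 : ℝ) ≤ C.card * s ^ 2 := by positivity
  nlinarith

/-- Finitely many disjoint compact sets carrying half of the measure. -/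
theorem exists_compacts {W : Set R2} (hW : MeasurableSet W) (hfin : volume W ≠ ⊤) {ι : Type}
    [Countable ι] (A : ι → Set R2) (hA : ∀ i, MeasurableSet (A i))
    (hnull : volume (W \ ⋃ i, A i) = 0) :
    ∃ (n : ℕ) (i : Fin n → ι) (K : Fin n → Set R2), (∀ k, IsCompact (K k) ∧ K k ⊆ W ∩ A (i k)) ∧
      (∀ k k', k ≠ k' → Disjoint (K k) (K k')) ∧
      1 / 2 * volume.real W ≤ ∑ k, volume.real (K k) := by
  by_cases h0 : volume W = 0
  · exact ⟨0, Fin.elim0, Fin.elim0, fun k => k.elim0, fun k => k.elim0,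
      by simp [Measure.real, h0]⟩
  have hp : 0 < volume.real W := ENNReal.toReal_pos h0 hfin
  have hne : Nonempty ι := by
    by_contra hn
    rw [not_nonempty_iff] at hn
    exact h0 (by simpa using hnull)
  obtain ⟨e, he⟩ := exists_surjective_nat ι
  let B : ℕ → Set R2 := disjointed fun k => W ∩ A (e k)
  have hBm : ∀ k, MeasurableSet (B k) :=
    MeasurableSet.disjointed fun k => hW.inter (hA _)
  have hBs : ∀ k, B k ⊆ W ∩ A (e k) := disjointed_subset _
  have hBf : ∀ k, volume (B k) ≠ ⊤ := fun k =>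
    ne_top_of_le_ne_top hfin (measure_mono fun w hw => (hBs k hw).1)
  have h1 : volume W ≤ ⨆ n, ∑ k ∈ Finset.range n, volume (B k) := by
    rw [← ENNReal.tsum_eq_iSup_nat, ← measure_iUnion (disjoint_disjointed _) hBm,
      iUnion_disjointed]
    refine (measure_mono (t := (⋃ k, W ∩ A (e k)) ∪ (W \ ⋃ i, A i)) fun w hw => ?_).trans
      ((measure_union_le _ _).trans (by rw [hnull, add_zero]))
    by_cases h : w ∈ ⋃ i, A i
    · obtain ⟨i, hi⟩ := mem_iUnion.1 h
      obtain ⟨k, rfl⟩ := he i
      exact Or.inl (mem_iUnion.2 ⟨k, hw, hi⟩)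
    · exact Or.inr ⟨hw, h⟩
  have h2 : ENNReal.ofReal (3 / 4 * volume.real W) < volume W := by
    rw [ENNReal.ofReal_lt_iff_lt_toReal (by positivity) hfin]
    change _ < volume.real W
    linarith
  obtain ⟨n, hn⟩ := lt_iSup_iff.1 (h2.trans_le h1)
  have h3 : 3 / 4 * volume.real W ≤ ∑ k ∈ Finset.range n, volume.real (B k) := by
    have := (ENNReal.ofReal_le_iff_le_toReal (ENNReal.sum_ne_top.2 fun k _ => hBf k)).1 hn.le
    rwa [ENNReal.toReal_sum fun k _ => hBf k] at this
  have h4 : ∀ k, ∃ K ⊆ B k, IsCompact K ∧ 2 / 3 * volume.real (B k) ≤ volume.real K := by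
    intro k
    by_cases hk : volume (B k) = 0
    · exact ⟨∅, empty_subset _, isCompact_empty, by simp [Measure.real, hk]⟩
    · have hp' : 0 < volume.real (B k) := ENNReal.toReal_pos hk (hBf k)
      have : ENNReal.ofReal (2 / 3 * volume.real (B k)) < volume (B k) := by
        rw [ENNReal.ofReal_lt_iff_lt_toReal (by positivity) (hBf k)]
        change _ < volume.real (B k)
        linarith
      obtain ⟨K, a1, a2, a3⟩ := (hBm k).exists_lt_isCompact this
      exact ⟨K, a1, a2, (ENNReal.ofReal_le_iff_le_toReal a2.measure_lt_top.ne).1 a3.le⟩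
  choose K hK1 hK2 hK3 using h4
  refine ⟨n, fun k => e k, fun k => K k, fun k => ⟨hK2 k, (hK1 k).trans (hBs k)⟩,
    fun k k' hne => ?_, ?_⟩
  · exact (disjoint_disjointed _ (Fin.val_ne_of_ne hne)).mono (hK1 k) (hK1 k')
  · rw [Fin.sum_univ_eq_sum_range (fun k => volume.real (K k)) n]
    have := Finset.sum_le_sum fun k (_ : k ∈ Finset.range n) => hK3 k
    rw [← Finset.mul_sum] at this
    linarith

end Pool.Agent.MP_7f5071_gt.Stg
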