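import Mathlib.Analysis.SpecialFunctions.PolarCoord
import Pool.Agent.MP_7f5071_gt.StgB

/-! The module STG: one batch of patches. -/

namespace Pool.Agent.MP_7f5071_gt

open Filter Topology Set Metric MeasureTheory

universe u

namespace Stg

variable {X : Type*} [MetricSpace X]

theorem ev_sep {A B : Set X} (hA : IsCompact A) (hB : IsClosed B) (h : Disjoint A B) :
    ∀ᶠ d in 𝓝[>] (0 : ℝ), ∀ x ∈ A, ∀ y ∈ B, 2 * d ≤ dist x y := by
  obtain ⟨r, hr, hs⟩ := hA.exists_thickening_subset_open hB.isOpen_compl h.subset_compl_right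
  filter_upwards [Ioo_mem_nhdsGT (half_pos hr)] with d hd x hx y hy
  by_contra hn
  exact hs (mem_thickening_iff.2 ⟨x, hx, by rw [dist_comm]; linarith [hd.2, not_le.1 hn]⟩) hy

theorem exists_nearest {G : Set X} (hG : IsCompact G) :
    ∃ ν : X → X, G.Nonempty → Nearest G ν := by
  by_cases h : G.Nonempty
  · have : ∀ y, ∃ z ∈ G, ∀ x ∈ G, dist y z ≤ dist y x := fun y =>
      hG.exists_isMinOn h (continuous_const.dist continuous_id).continuousOn
    choose ν h1 h2 using this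
    exact ⟨ν, fun _ y => ⟨h1 y, h2 y⟩⟩
  · exact ⟨id, fun h' => absurd h' h⟩

theorem good_mono {N J : ℕ} {H : X → V N} {L β : ℝ} {G G' : Set X} {π : X → R2}
    {ξ : Fin J → R2} {A : R2 →L[ℝ] V N} (h : Good H L β G π ξ A) (hG : IsCompact G')
    (hs : G' ⊆ G) : Good H L β G' π ξ A where
  cpt := hG
  normal := h.normal
  up := fun x hx y hy => h.up x (hs hx) y (hs hy)
  low := fun x hx y hy => h.low x (hs hx) y (hs hy)
  aff := fun x hx y hy => h.aff x (hs hx) y (hs hy)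
  opn := h.opn

theorem real_cancel (M : R2 ≃L[ℝ] R2) {K U : Set R2} {a : ℝ}
    (h : a * volume.real (M '' K) ≤ volume.real U) :
    a * volume.real K ≤ volume.real (M ⁻¹' U) := by
  have hd : 0 < |LinearMap.det (M : R2 →ₗ[ℝ] R2)| :=
    abs_pos.2 M.toLinearEquiv.isUnit_det'.ne_zero
  have e : ∀ S : Set R2, volume.real (M '' S) =
      |LinearMap.det (M : R2 →ₗ[ℝ] R2)| * volume.real S := fun S => by
    rw [Measure.real, Measure.addHaar_image_continuousLinearEquiv, ENNReal.toReal_mul,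
      ENNReal.toReal_ofReal hd.le, Measure.real]
  rw [← image_preimage_eq U M.surjective, e, e, mul_left_comm] at h
  exact le_of_mul_le_mul_left h hd

end Stg

open Stg

theorem stg (h1 : GSStmt.{u}) (h2 : PatStmt.{u}) : StgStmt.{u} := by
  intro X _ _ hX N H L hL0 hL2 hH Z hZ π Γ hp πs Γs hps ε hε δ hδ γ hγ
  classical
  obtain ⟨β, hβ, β', hβ', hpat⟩ := h2 ε hε γ hγ
  obtain ⟨ι, hι, G, M, J, ξ, A, hnull, hG⟩ := h1 X N H L hL0 hL2 hH π Γ hp β hβ
  have hinj := piece_injOn hp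
  have hπ := piece_continuous hp
  have hWm : MeasurableSet (π '' (Γ \ Z)) := by
    rw [← sdiff_self_inter, hinj.image_sdiff_subset inter_subset_left]
    exact (hp.cpt.image hπ).measurableSet.diff ((hp.cpt.inter_right hZ).image hπ).measurableSet
  have hWf : volume (π '' (Γ \ Z)) ≠ ⊤ := piece_ne_top hp sdiff_subset
  obtain ⟨n, i, K, hK, hKd, hKm⟩ := exists_compacts hWm hWf (fun i => π '' G i)
    (fun i => ((hG i).2.cpt.image hπ).measurableSet) (measure_mono_null (by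
      rintro _ ⟨⟨x, hx, rfl⟩, hx'⟩
      refine ⟨x, ⟨hx.1, fun h => hx' ?_⟩, rfl⟩
      obtain ⟨j, hj⟩ := mem_iUnion.1 h
      exact mem_iUnion.2 ⟨j, x, hj, rfl⟩) hnull)
  -- the compact good sets
  let G' : Fin n → Set X := fun k => Γ ∩ π ⁻¹' K k
  have hG'c : ∀ k, IsCompact (G' k) := fun k =>
    hp.cpt.inter_right ((hK k).1.isClosed.preimage hπ)
  have hG'G : ∀ k, G' k ⊆ G (i k) := by
    rintro k x ⟨hx, hx'⟩
    obtain ⟨y, hy, he⟩ := ((hK k).2 hx').2
    exact hinj ((hG _).1 hy) hx he ▸ hy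
  have hG'Z : ∀ k, Disjoint (G' k) Z := by
    refine fun k => disjoint_left.2 ?_
    rintro x ⟨hx, hx'⟩ hz
    obtain ⟨y, hy, he⟩ := ((hK k).2 hx').1
    exact hy.2 (hinj hx hy.1 he.symm ▸ hz)
  have hG'd : ∀ k k', k ≠ k' → Disjoint (G' k) (G' k') := fun k k' hne =>
    disjoint_left.2 fun x hx hx' => disjoint_left.1 (hKd k k' hne) hx.2 hx'.2
  let π' : Fin n → X → R2 := fun k x => M (i k) (π x)
  have hgood : ∀ k, Good H L β (G' k) (π' k) (ξ (i k)) (A (i k)) := fun k =>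
    good_mono (hG _).2 (hG'c k) (hG'G k)
  have him : ∀ k, π' k '' G' k = M (i k) '' K k := by
    intro k
    ext w
    constructor
    · rintro ⟨x, hx, rfl⟩
      exact ⟨π x, hx.2, rfl⟩
    · rintro ⟨z, hz, rfl⟩
      obtain ⟨x, hx, rfl⟩ := ((hK k).2 hz).1
      exact ⟨x, ⟨hx.1, hz⟩, rfl⟩
  have hK'c : ∀ k, IsCompact (M (i k) '' K k) := fun k => (hK k).1.image (M _).continuous
  choose s0 hs0 hdens using fun k =>
    exists_dens (hK'c k) (lt_min hβ' (show (0 : ℝ) < 1 / 4 by norm_num))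
  choose ν hν using fun k => exists_nearest (hG'c k)
  -- the scales
  obtain ⟨δ0, ⟨hδ0, hδ1⟩, hδ2, hδ3, hδ4⟩ : ∃ δ0, δ0 ∈ Ioo 0 (δ / 3) ∧
      (∀ k, δ0 ∈ Ioo 0 (s0 k / 100)) ∧
      (∀ k, ∀ x ∈ G' k, ∀ y ∈ Z, 2 * δ0 ≤ dist x y) ∧
      ∀ k k', k ≠ k' → ∀ x ∈ G' k, ∀ y ∈ G' k', 2 * δ0 ≤ dist x y := by
    refine Eventually.exists (f := 𝓝[>] (0 : ℝ))
      (Eventually.and (Ioo_mem_nhdsGT (show (0 : ℝ) < δ / 3 by positivity)) ((eventually_all.2 fun k => Ioo_mem_nhdsGT (by have := hs0 k; positivity)).and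
        ((eventually_all.2 fun k => ev_sep (hG'c k) hZ (hG'Z k)).and
          (eventually_all.2 fun k => eventually_all.2 fun k' => ?_))))
    by_cases he : k = k'
    · exact Eventually.of_forall fun _ h => absurd he h
    · exact (ev_sep (hG'c k) (hG'c k').isClosed (hG'd k k' he)).mono fun d hd _ => hd
  obtain ⟨δ', hδ', hlc⟩ := hX.lc δ0 hδ0
  obtain ⟨s, hs, hs1, hs2⟩ : ∃ s > 0, 100 * s ≤ δ0 ∧ 100 * s ≤ δ' :=
    ⟨min δ0 δ' / 100, by positivity, by linarith [min_le_left δ0 δ'],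
      by linarith [min_le_right δ0 δ']⟩
  choose C hC1 hC2 hC3 using fun k => capture (hK'c k) (min_le_right β' (1 / 4)) (hdens k) hs
    (by linarith [(hδ2 k).2, hs0 k])
  -- the patches
  let T : Type := Σ k : Fin n, C k
  have hxc : ∀ t : T, ∃ x ∈ G' t.1, π' t.1 x = t.2.1 := fun t => by
    have := (hC1 t.1 t.2.2).1
    rwa [← him] at this
  choose xc hxc1 hxc2 using hxc
  have hsite : ∀ t : T, Site (G' t.1) (π' t.1) β' (xc t) s δ0 (s0 t.1) := fun t =>
    { mem := hxc1 t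
      spos := hs
      sδ := hs1
      δs0 := by linarith [(hδ2 t.1).2]
      dens := fun r hr hr' => by
        rw [hxc2, him]
        exact ((hC1 t.1 t.2.2).2 r hr hr').trans (ENNReal.ofReal_le_ofReal
          (mul_le_mul_of_nonneg_right (min_le_left _ _) (by positivity)))
      lc := fun x y hx hy => (hlc (xc t) x y hx hy).mono
        (compl_subset_compl.2 (closedBall_subset_closedBall hs2)) }
  choose P Ht S p1 p2 p3 p4 p5 p6 p7 p8 p9 using fun t : T =>
    hpat X hX N H L hL0 hL2 hH _ _ _ _ _ (hgood t.1) (ν t.1) (hν t.1 ⟨_, hxc1 t⟩) _ _ _ _ (hsite t)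
  have hSd : ∀ t t' : T, t ≠ t' → Disjoint (S t) (S t') := by
    rintro ⟨k, c⟩ ⟨k', c'⟩ hne
    refine disjoint_left.2 fun y hy hy' => ?_
    have a1 := p8 _ y hy
    have a2 := p8 _ y hy'
    by_cases he : k = k'
    · subst he
      rw [hxc2] at a1 a2
      have := hC2 k c.1 c.2 c'.1 c'.2 fun h => hne (by rw [Subtype.ext h])
      have a3 := dist_triangle_left c.1 c'.1 (π' k (ν k y))
      rw [dist_eq_norm (π' k _), dist_eq_norm (π' k _)] at a3
      linarith [a1.1, a2.1]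
    · have := hδ4 k k' he _ (hxc1 ⟨k, c⟩) _ (hxc1 ⟨k', c'⟩)
      linarith [a1.2, a2.2, dist_triangle_left (xc ⟨k, c⟩) (xc ⟨k', c'⟩) y]
  have hSZ : ∀ t, Disjoint (S t) Z := fun t => disjoint_left.2 fun y hy hz => by
    have := hδ3 t.1 _ (hxc1 t) y hz
    rw [dist_comm] at this
    linarith [(p8 t y hy).2]
  obtain ⟨H', q1, q2, q3, q4⟩ := glue hX.geod hδ (lip_mono hH (by linarith : L ≤ L + ε)) Ht S p1
    (fun t => near_mono (p2 t) (by linarith)) p5 p6 hSd
  choose τ hτ1 hτ2 using fun t : T => exists_level πs Γs hps (lip_continuous (p3 t).ρlip)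
    (show 1 + 8 * (P t).c / 10 < (P t).t by rw [p4]; linarith [(p3 t).cpos])
  let P' : T → Patch X N := fun t => {P t with t := τ t}
  have hP'S : ∀ t, (P' t).Rm ⊆ S t := fun t y hy => p7 t (le_trans hy (hτ1 t).2)
  let e := (Fintype.equivFin T).symm
  refine ⟨Fintype.card T, fun j => P' (e j), H', q1, q2,
    fun y hy => q4 y fun t h => disjoint_left.1 (hSZ t) h hy,
    fun j => ok_change (p3 _) (fun y hy => q3 _ y (p7 _ hy)) le_rfl (by linarith) (hτ1 _).1
      (hτ1 _).2,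
    fun j j' hne => (hSd _ _ (e.injective.ne hne)).mono (hP'S _) (hP'S _),
    fun j => (hSZ _).mono_left (hP'S _), fun j m => measure_mono_null (image_mono ?_) (hτ2 (e j) m),
    ?_⟩
  · rintro y ⟨hy, hy1, hy2⟩
    exact ⟨hy, le_antisymm hy1 (not_lt.1 hy2)⟩
  -- the measure estimate
  let U : Fin n → Set R2 := fun k =>
    M (i k) ⁻¹' ⋃ c ∈ C k, M (i k) '' K k ∩ closedBall c (9 * s / 10)
  have hUK : ∀ k, U k ⊆ K k := by
    intro k w hw
    obtain ⟨c, -, ⟨z, hz, he⟩, -⟩ := mem_iUnion₂.1 hw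
    exact (M _).injective he ▸ hz
  have hUm : ∀ k, MeasurableSet (U k) := fun k =>
    (Finset.measurableSet_biUnion _ fun c _ =>
      (hK'c k).measurableSet.inter measurableSet_closedBall).preimage (M _).continuous.measurable
  have hUW : (⋃ k, U k) ⊆ π '' (Γ \ Z) := iUnion_subset fun k w hw => ((hK k).2 (hUK k hw)).1
  have m1 : 1 / 200 * volume.real (π '' (Γ \ Z)) ≤ volume.real (⋃ k, U k) := by
    rw [measureReal_iUnion_fintype (fun k k' hne => (hKd k k' hne).mono (hUK k) (hUK k')) hUm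
      fun k => ((measure_mono (hUK k)).trans_lt (hK k).1.measure_lt_top).ne]
    have := Finset.sum_le_sum fun k (_ : k ∈ Finset.univ) => real_cancel _ (hC3 k)
    rw [← Finset.mul_sum] at this
    linarith
  have m2 : π '' (Γ \ (Z ∪ ⋃ j, (P' (e j)).Rm)) ⊆ π '' (Γ \ Z) \ ⋃ k, U k := by
    rintro _ ⟨x, ⟨hx, hx'⟩, rfl⟩
    refine ⟨⟨x, ⟨hx, fun h => hx' (Or.inl h)⟩, rfl⟩, fun h => hx' (Or.inr ?_)⟩
    obtain ⟨k, hk⟩ := mem_iUnion.1 h
    obtain ⟨c, hc, -, hb⟩ := mem_iUnion₂.1 hk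
    refine mem_iUnion.2 ⟨e.symm ⟨k, c, hc⟩, ?_⟩
    rw [Equiv.apply_symm_apply]
    have := p9 ⟨k, c, hc⟩ x ⟨hx, hUK k hk⟩ (by
      rw [hxc2, ← dist_eq_norm]
      exact hb)
    have a1 := (hτ1 ⟨k, c, hc⟩).1
    have a2 := (p3 ⟨k, c, hc⟩).cpos
    change (P ⟨k, c, hc⟩).ρ x ≤ τ ⟨k, c, hc⟩
    linarith
  refine (measure_mono m2).trans ?_
  rw [← ofReal_measureReal (ne_top_of_le_ne_top hWf (measure_mono sdiff_subset)),
    measureReal_sdiff hUW (MeasurableSet.iUnion hUm) hWf,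
    ← ofReal_measureReal hWf, ← ENNReal.ofReal_mul (by norm_num)]
  exact ENNReal.ofReal_le_ofReal (by linarith)

end Pool.Agent.MP_7f5071_gt
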