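import Mathlib.Topology.Sheaves.Presheaf
import Mathlib.Tactic.Monotonicity.Lemmas
import Mathlib.Algebra.Order.Star.Real
import Mathlib.Data.Finset.Pairwise
import Mathlib.RingTheory.PiTensorProduct
import Mathlib.MeasureTheory.Function.Floor
import Pool.Agent.MP_7f5071_gt.Spec
import Mathlib.MeasureTheory.Measure.Prokhorov
import Pool.Agent.MP_7f5071_gt.StgA
import Pool.Agent.MP_7f5071_gt.L1.Base
import Pool.Agent.MP_7f5071_gt.LC
import Pool.Agent.MP_7f5071_gt.WSGeom
import Pool.Agent.MP_7f5071_gt.One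
import Pool.Agent.MP_7f5071_gt.WS
import Pool.Agent.MP_7f5071_gt.GS
import Pool.Agent.MP_7f5071_gt.Cnt
import Pool.Agent.MP_7f5071_gt.D1
import Pool.Agent.MP_7f5071_gt.R2C
import Pool.Agent.MP_7f5071_gt.Pat
import Pool.Agent.MP_7f5071_gt.Stg
import Pool.Agent.MP_7f5071_gt.CR

-- ======== part 0: formerly Pool.Agent.MP_7f5071_gt.DW
section MrgPart0

/-! Null sets of the plane are thin for one of two transversal directions. -/

namespace Pool.Agent.MP_7f5071_gt

open Filter Topology Set Metric MeasureTheory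

namespace DW

/-- Greedy removal of long chains. -/
theorem split {α : Type*} [DecidableEq α] (r r' : α → α → Prop) (h : ∀ a b, r a b → ¬ r' a b)
    (l : ℕ) (S : Finset α) : ∃ A B : Finset α, S ⊆ A ∪ B ∧
      (∀ T : Finset α, T ⊆ A → (T : Set α).Pairwise r → T.card ≤ l) ∧
      ∀ T : Finset α, T ⊆ B → (T : Set α).Pairwise r' → T.card * (l + 1) ≤ S.card := by
  induction S using Finset.strongInduction with
  | H S ih =>
    by_cases hc : ∀ T : Finset α, T ⊆ S → (T : Set α).Pairwise r → T.card ≤ l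
    · refine ⟨S, ∅, Finset.subset_union_left, hc, fun T hT _ => ?_⟩
      rw [Finset.subset_empty.mp hT]
      simp
    · push Not at hc
      obtain ⟨C, hCS, hCr, hCl⟩ := hc
      have hne : C.Nonempty := Finset.card_pos.mp (by omega)
      obtain ⟨A, B, h1, h2, h3⟩ := ih (S \ C) (Finset.sdiff_ssubset hCS hne)
      refine ⟨A, B ∪ C, fun x hx => ?_, h2, fun T hT hTr => ?_⟩
      · by_cases hxC : x ∈ C
        · simp [hxC]
        · have := h1 (Finset.mem_sdiff.mpr ⟨hx, hxC⟩)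
          simp only [Finset.mem_union] at this ⊢
          tauto
      · have h4 := h3 (T \ C) (fun x hx => by
          have h5 := Finset.mem_sdiff.mp hx
          exact (Finset.mem_union.mp (hT h5.1)).resolve_right h5.2)
          (hTr.mono (by simp))
        have h5 : (T ∩ C).card ≤ 1 := by
          rw [Finset.card_le_one]
          intro a ha b hb
          by_contra hab
          rw [Finset.mem_inter] at ha hb
          exact h a b (hCr ha.2 hb.2 hab) (hTr ha.1 hb.1 hab)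
        have h6 := Finset.card_sdiff_add_card_inter T C
        have h7 := Finset.card_sdiff_add_card_eq_card hCS
        have h8 : T.card * (l + 1) ≤ ((T \ C).card + 1) * (l + 1) :=
          Nat.mul_le_mul_right _ (by omega)
        rw [add_mul] at h8
        omega

/-- A set of reals without many separated points is small. -/
theorem vol_le (lam : ℝ) (hlam : 0 < lam) (l : ℕ) : ∀ G : Set ℝ,
    (∀ T : Finset ℝ, (T : Set ℝ) ⊆ G → (T : Set ℝ).Pairwise (fun a b => lam ≤ |b - a|) →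
      T.card ≤ l) → volume G ≤ ENNReal.ofReal (l * (2 * lam)) := by
  classical
  induction l with
  | zero =>
    intro G hG
    have : G = ∅ := by
      by_contra hne
      obtain ⟨t, ht⟩ := nonempty_iff_ne_empty.mpr hne
      have := hG {t} (by simpa using ht) (by simp)
      simp at this
    simp [this]
  | succ l ih =>
    intro G hG
    rcases G.eq_empty_or_nonempty with rfl | ⟨t, ht⟩
    · simp
    have h1 := ih (G \ ball t lam) (fun T hT hTp => by
      have hsep : ∀ a ∈ T, lam ≤ |a - t| := fun a ha => by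
        have := (hT ha).2
        rwa [mem_ball, Real.dist_eq, not_lt] at this
      have ht' : t ∉ T := fun h => by
        have := hsep t h
        simp at this
        linarith
      have := hG (insert t T) (by
        rw [Finset.coe_insert]
        exact insert_subset ht (fun a ha => (hT ha).1)) (by
        rw [Finset.coe_insert]
        refine hTp.insert (fun a ha _ => ⟨hsep a ha, ?_⟩)
        rw [abs_sub_comm]
        exact hsep a ha)
      rw [Finset.card_insert_of_notMem ht'] at this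
      omega)
    calc volume G ≤ volume (G \ ball t lam) + volume (ball t lam) := by
          refine (measure_mono (fun x hx => ?_)).trans (measure_union_le _ _)
          by_cases hb : x ∈ ball t lam
          · exact Or.inr hb
          · exact Or.inl ⟨hx, hb⟩
      _ ≤ ENNReal.ofReal (l * (2 * lam)) + ENNReal.ofReal (2 * lam) := by
          rw [Real.volume_ball]
          gcongr
      _ = _ := by
          rw [← ENNReal.ofReal_add (by positivity) (by positivity)]
          push_cast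
          ring_nf

/-- The grid cell of a point. -/
noncomputable def q (h : ℝ) (x : R2) : ℤ × ℤ := (⌊x.1 / h⌋, ⌊x.2 / h⌋)

theorem q_meas (h : ℝ) : Measurable (q h) := by
  unfold q
  fun_prop

theorem q_pre (h : ℝ) (hh : 0 < h) (b : ℤ × ℤ) :
    q h ⁻¹' {b} = Ico (b.1 * h) ((b.1 + 1) * h) ×ˢ Ico (b.2 * h) ((b.2 + 1) * h) := by
  ext x
  simp only [q, mem_preimage, mem_singleton_iff, Prod.ext_iff, Int.floor_eq_iff, mem_prod,
    mem_Ico, le_div_iff₀ hh, div_lt_iff₀ hh]

theorem q_vol (h : ℝ) (hh : 0 < h) (S : Finset (ℤ × ℤ)) :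
    volume (q h ⁻¹' (S : Set (ℤ × ℤ))) = ENNReal.ofReal (S.card * h ^ 2) := by
  rw [← sum_measure_preimage_singleton S (fun b _ => q_meas h (measurableSet_singleton b))]
  have : ∀ b ∈ S, volume (q h ⁻¹' {b}) = ENNReal.ofReal (h ^ 2) := by
    intro b _
    rw [q_pre h hh, Measure.volume_eq_prod, Measure.prod_prod, Real.volume_Ico, Real.volume_Ico,
      ← ENNReal.ofReal_mul (by nlinarith)]
    congr 1
    ring
  rw [Finset.sum_congr rfl this, Finset.sum_const, nsmul_eq_mul,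
    ENNReal.ofReal_mul (by positivity), ENNReal.ofReal_natCast]

theorem fl_sub (h : ℝ) (hh : 0 < h) (a b : ℝ) :
    |((⌊b / h⌋ - ⌊a / h⌋ : ℤ) : ℝ) * h - (b - a)| < h := by
  have h1 := Int.floor_le (a / h)
  have h2 := Int.lt_floor_add_one (a / h)
  have h3 := Int.floor_le (b / h)
  have h4 := Int.lt_floor_add_one (b / h)
  rw [le_div_iff₀ hh] at h1 h3
  rw [div_lt_iff₀ hh] at h2 h4
  push_cast
  rw [abs_lt]
  constructor <;> nlinarith

theorem sep (h : ℝ) (hh : 0 < h) {a b a' b' s : ℝ} (hs : 4 * h ≤ |s|)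
    (h1 : |b - a - s| ≤ |s| / 5) (h2 : |b' - a'| ≤ |s| / 5) :
    |⌊b' / h⌋ - ⌊a' / h⌋| < |⌊b / h⌋ - ⌊a / h⌋| := by
  have h3 := fl_sub h hh a b
  have h4 := fl_sub h hh a' b'
  generalize ⌊b / h⌋ - ⌊a / h⌋ = u at h3
  generalize ⌊b' / h⌋ - ⌊a' / h⌋ = v at h4
  have h5 : |(v : ℝ)| * h < |(u : ℝ)| * h := by
    have e1 : |(v : ℝ)| * h = |(v : ℝ) * h| := by rw [abs_mul, abs_of_pos hh]
    have e2 : |(u : ℝ)| * h = |(u : ℝ) * h| := by rw [abs_mul, abs_of_pos hh]
    rw [e1, e2]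
    have h6 := abs_sub_abs_le_abs_sub ((v : ℝ) * h) (b' - a')
    have h7 := abs_sub_abs_le_abs_sub (b - a) ((u : ℝ) * h)
    have h8 := abs_sub_abs_le_abs_sub s (b - a)
    rw [abs_sub_comm (b - a)] at h7
    rw [abs_sub_comm s] at h8
    linarith
  have h6 := lt_of_mul_lt_mul_right h5 hh.le
  exact_mod_cast h6

theorem time (h : ℝ) (hh : 0 < h) (m l : ℕ) (e : R2) (r : ℤ × ℤ → ℤ × ℤ → Prop)
    (hirr : ∀ b, ¬ r b b)
    (hr : ∀ (x y : R2) (s : ℝ), 4 * h ≤ |s| → ‖y - x - s • e‖ ≤ |s| / 5 → r (q h x) (q h y))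
    (A : Finset (ℤ × ℤ)) (hA : ∀ T : Finset (ℤ × ℤ), T ⊆ A → (T : Set (ℤ × ℤ)).Pairwise r →
      T.card ≤ l) (f : ℝ → R2) :
    volume {t | t ∈ UT f e m ∧ f t ∈ q h ⁻¹' (A : Set (ℤ × ℤ))} ≤
      ENNReal.ofReal ((m + 2) * (l * (8 * h))) := by
  classical
  set G := {t | t ∈ UT f e m ∧ f t ∈ q h ⁻¹' (A : Set (ℤ × ℤ))} with hG
  have hm : (0 : ℝ) < m + 1 := by positivity
  have h1 : ∀ w : ℕ, volume (G ∩ Icc ((w : ℝ) / (m + 1)) ((w + 1) / (m + 1))) ≤
      ENNReal.ofReal (l * (2 * (4 * h))) := by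
    intro w
    refine vol_le (4 * h) (by positivity) l _ (fun T hT hTp => ?_)
    have key : ∀ a ∈ T, ∀ b ∈ T, a ≠ b → r (q h (f a)) (q h (f b)) := by
      intro a ha b hb hab
      obtain ⟨⟨ha1, -⟩, ha2⟩ := hT ha
      obtain ⟨⟨hb1, -⟩, hb2⟩ := hT hb
      have h2 := ha1.2 (b - a) (by
        have e1 : ((w : ℝ) + 1) / (m + 1) = w / (m + 1) + 1 / (m + 1) := by ring
        rw [abs_le]
        constructor <;> linarith [ha2.1, ha2.2, hb2.1, hb2.2]) (by simpa using hb1.1)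
      rw [add_sub_cancel] at h2
      exact hr _ _ _ (hTp ha hb hab) h2
    have hinj : Set.InjOn (fun t => q h (f t)) T := by
      intro a ha b hb hab
      by_contra hne
      have := key a ha b hb hne
      simp only at hab
      rw [hab] at this
      exact hirr _ this
    rw [← Finset.card_image_of_injOn hinj]
    refine hA _ (fun b hb => ?_) ?_
    · obtain ⟨a, ha, rfl⟩ := Finset.mem_image.mp hb
      exact (hT ha).1.2
    · intro b hb b' hb' hne
      obtain ⟨a, ha, rfl⟩ := Finset.mem_image.mp hb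
      obtain ⟨a', ha', rfl⟩ := Finset.mem_image.mp hb'
      exact key a ha a' ha' (fun h => hne (by rw [h]))
  have h2 : G ⊆ ⋃ w ∈ Finset.range (m + 2), G ∩ Icc ((w : ℝ) / (m + 1)) ((w + 1) / (m + 1)) := by
    intro t ht
    have h0 := ht.1.1
    have h3 : 0 ≤ t * (m + 1) := mul_nonneg h0.1 hm.le
    simp only [mem_iUnion]
    refine ⟨⌊t * (m + 1)⌋₊, ?_, ht, ?_, ?_⟩
    · rw [Finset.mem_range, Nat.floor_lt h3]
      push_cast
      nlinarith [h0.2]
    · rw [div_le_iff₀ hm]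
      exact Nat.floor_le h3
    · rw [le_div_iff₀ hm]
      exact (Nat.lt_floor_add_one _).le
  refine (measure_mono h2).trans ((measure_biUnion_finset_le _ _).trans ?_)
  refine (Finset.sum_le_sum (fun w _ => h1 w)).trans (le_of_eq ?_)
  rw [Finset.sum_const, Finset.card_range, nsmul_eq_mul,
    ENNReal.ofReal_mul (p := (m : ℝ) + 2) (by positivity)]
  congr 1
  · rw [← ENNReal.ofReal_natCast]
    push_cast
    rfl
  · congr 1
    ring

end DW

open DW in
theorem dw : DWStmt := by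
  classical
  intro K hK hK0 m δ hδ
  set ε : ℝ := δ / (8 * (m + 2)) with hε
  have hε0 : 0 < ε := by positivity
  have h1 := tendsto_measure_cthickening_of_isCompact (μ := volume) hK
  rw [hK0] at h1
  have h2 : ∀ᶠ h in 𝓝 (0 : ℝ), volume (cthickening h K) < ENNReal.ofReal (ε ^ 2) :=
    h1.eventually (gt_mem_nhds (by simpa using by positivity))
  obtain ⟨h, h3, hh⟩ : ∃ h : ℝ, volume (cthickening h K) < ENNReal.ofReal (ε ^ 2) ∧ 0 < h :=
    ((h2.filter_mono nhdsWithin_le_nhds).and (self_mem_nhdsWithin (s := Ioi (0 : ℝ)))).exists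
  have hsub : q h ⁻¹' (q h '' K) ⊆ cthickening h K := by
    rintro x ⟨y, hy, e⟩
    refine mem_cthickening_of_dist_le x y h K hy ?_
    have e1 := fl_sub h hh y.1 x.1
    have e2 := fl_sub h hh y.2 x.2
    simp only [q, Prod.mk.injEq] at e
    rw [e.1] at e1
    rw [e.2] at e2
    simp only [sub_self, Int.cast_zero, zero_mul, zero_sub, abs_neg] at e1 e2
    rw [Prod.dist_eq, Real.dist_eq, Real.dist_eq]
    exact max_le e1.le e2.le
  have hcard : ∀ S : Finset (ℤ × ℤ), (S : Set (ℤ × ℤ)) ⊆ q h '' K → S.card * h ^ 2 < ε ^ 2 := by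
    intro S hS
    have h4 := (measure_mono ((preimage_mono hS).trans hsub)).trans_lt h3
    rw [q_vol h hh] at h4
    exact (ENNReal.ofReal_lt_ofReal_iff (by positivity)).mp h4
  have hfin : (q h '' K).Finite := by
    by_contra hinf
    obtain ⟨S, hS, hS'⟩ := Set.Infinite.exists_subset_card_eq hinf ⌈ε ^ 2 / h ^ 2⌉₊
    have h4 := hcard S hS
    have h5 := Nat.le_ceil (ε ^ 2 / h ^ 2)
    rw [div_le_iff₀ (by positivity), ← hS'] at h5
    linarith
  obtain ⟨A, B, hAB, hA, hB⟩ := split (fun a b : ℤ × ℤ => |b.2 - a.2| < |b.1 - a.1|)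
    (fun a b : ℤ × ℤ => |b.1 - a.1| < |b.2 - a.2|) (fun a b h => not_lt.mpr h.le) ⌊ε / h⌋₊
    hfin.toFinset
  have hl : (⌊ε / h⌋₊ : ℝ) * h ≤ ε := by
    rw [← le_div_iff₀ hh]
    exact Nat.floor_le (by positivity)
  have hl' : ε < ((⌊ε / h⌋₊ : ℝ) + 1) * h := by
    rw [← div_lt_iff₀ hh]
    exact Nat.lt_floor_add_one _
  have hfin2 : ENNReal.ofReal ((m + 2) * (⌊ε / h⌋₊ * (8 * h))) ≤ ENNReal.ofReal δ := by
    refine ENNReal.ofReal_le_ofReal ?_
    have e : δ = (m + 2) * (8 * ε) := by rw [hε]; field_simp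
    rw [e]
    gcongr ?_ * ?_
    linarith
  refine ⟨q h ⁻¹' A, q h ⁻¹' B, q_meas h A.measurableSet, q_meas h B.measurableSet,
    fun x hx => ?_, fun f => ⟨?_, ?_⟩⟩
  · have := hAB (hfin.mem_toFinset.mpr ⟨x, hx, rfl⟩)
    simpa using this
  · refine (time h hh m _ (1, 0) _ (fun b => by simp) (fun x y s hs hxy => ?_) A hA f).trans hfin2
    have e1 := (norm_fst_le _).trans hxy
    have e2 := (norm_snd_le _).trans hxy
    simp only [Prod.fst_sub, Prod.snd_sub, Prod.smul_fst, Prod.smul_snd, smul_eq_mul, mul_one,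
      mul_zero, sub_zero, Real.norm_eq_abs] at e1 e2
    exact sep h hh hs e1 e2
  · refine (time h hh m _ (0, 1) (fun a b : ℤ × ℤ => |b.1 - a.1| < |b.2 - a.2|)
      (fun b => by simp) (fun x y s hs hxy => ?_) B (fun T hT hTp => ?_) f).trans hfin2
    · have e1 := (norm_fst_le _).trans hxy
      have e2 := (norm_snd_le _).trans hxy
      simp only [Prod.fst_sub, Prod.snd_sub, Prod.smul_fst, Prod.smul_snd, smul_eq_mul, mul_one,
        mul_zero, sub_zero, Real.norm_eq_abs] at e1 e2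
      exact sep h hh hs e2 e1
    · have h4 := hB T hT hTp
      have h5 := hcard hfin.toFinset (by simp)
      have h6 : (T.card : ℝ) * (⌊ε / h⌋₊ + 1) ≤ hfin.toFinset.card := by exact_mod_cast h4
      refine Nat.le_floor ?_
      rw [le_div_iff₀ hh]
      by_contra hc
      rw [not_le] at hc
      have h7 : ε * ε < ((T.card : ℝ) * h) * (((⌊ε / h⌋₊ : ℝ) + 1) * h) :=
        mul_lt_mul'' hc hl' hε0.le hε0.le
      have h8 : (T.card : ℝ) * (⌊ε / h⌋₊ + 1) * h ^ 2 ≤ hfin.toFinset.card * h ^ 2 := by gcongr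
      nlinarith

end Pool.Agent.MP_7f5071_gt

end MrgPart0

-- ======== part 1: formerly Pool.Agent.MP_7f5071_gt.Reduce
section MrgPart1

-- ======== part 0: formerly Pool.Agent.MP_7f5071_gt.Lim
section MrgPart0

/-! The module LIM: all the patches. -/

namespace Pool.Agent.MP_7f5071_gt

open Filter Topology Set Metric MeasureTheory

universe u

namespace Lim

theorem tends_zero {a : ℕ → ENNReal} (ha : Antitone a) (h0 : a 0 ≠ ⊤) {q : ENNReal} (hq : q < 1)
    (h : ∀ k, ∃ j ≥ k, a (j + 1) ≤ q * a j) {b : ENNReal} (hb : ∀ k, b ≤ a k) : b = 0 := by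
  have key : ∀ n : ℕ, ∃ k, a k ≤ q ^ n * a 0 := by
    intro n
    induction n with
    | zero => exact ⟨0, by simp⟩
    | succ n ih =>
      obtain ⟨k, hk⟩ := ih
      obtain ⟨j, hj, hj'⟩ := h k
      refine ⟨j + 1, hj'.trans ?_⟩
      rw [pow_succ', mul_assoc]
      exact mul_le_mul_right ((ha hj).trans hk) q
  have ht : Tendsto (fun n : ℕ => q ^ n * a 0) atTop (𝓝 (0 * a 0)) :=
    ENNReal.Tendsto.mul_const (ENNReal.tendsto_pow_atTop_nhds_zero_of_lt_one hq) (Or.inr h0)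
  rw [zero_mul] at ht
  exact le_antisymm (ge_of_tendsto' ht fun n => let ⟨k, hk⟩ := key n; (hb k).trans hk) zero_le

end Lim

open Stg Lim

theorem lim (h1 : CntStmt.{u}) (h2 : StgStmt.{u}) : LimStmt.{u} := by
  intro X _ _ hX N H L hL0 hL1 hH ε hε δ hδ γ hγ
  obtain ⟨π, Γ, hp, hpu⟩ := h1 X hX
  obtain ⟨ε', hε', hε1, hε2⟩ : ∃ ε' > 0, ε' ≤ ε ∧ ε' ≤ 1 :=
    ⟨min ε 1, lt_min hε one_pos, min_le_left _ _, min_le_right _ _⟩
  let Λ : ℕ → ℝ := fun k => L + ε' * (1 - (1 / 2) ^ k)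
  let d : ℕ → ℝ := fun k => δ / 4 * (1 / 2) ^ k
  have hpw : ∀ k : ℕ, (0 : ℝ) < (1 / 2) ^ k ∧ ((1 : ℝ) / 2) ^ k ≤ 1 := fun k =>
    ⟨by positivity, pow_le_one₀ (by norm_num) (by norm_num)⟩
  have hΛ : ∀ k, 0 ≤ Λ k ∧ Λ k ≤ L + ε' := fun k => by
    have := hpw k
    constructor <;> simp only [Λ] <;> nlinarith
  have hΛs : ∀ k, Λ k + ε' * (1 / 2) ^ (k + 1) = Λ (k + 1) := fun k => by
    simp only [Λ]; ring
  have hd : ∀ k, 0 < d k ∧ d k ≤ δ := fun k => by
    have := hpw k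
    constructor <;> simp only [d] <;> nlinarith
  let St : ℕ → Type u := fun k => {p : (X → V N) × Set X // Lip (Λ k) p.1 ∧ IsClosed p.2}
  have step : ∀ (k : ℕ) (s : St k), ∃ (n : ℕ) (P : Fin n → Patch X N) (s' : St (k + 1)),
      s'.1.2 = s.1.2 ∪ ⋃ j, (P j).Rm ∧ Near (d k) s.1.1 s'.1.1 ∧
      (∀ y ∈ s.1.2, s'.1.1 y = s.1.1 y) ∧ (∀ j, (P j).Ok s'.1.1 (Λ (k + 1)) γ (d k)) ∧
      (∀ j j', j ≠ j' → Disjoint (P j).Rm (P j').Rm) ∧ (∀ j, Disjoint (P j).Rm s.1.2) ∧
      (∀ j m, volume (π m '' (Γ m ∩ ((P j).Rm \ (P j).Co))) = 0) ∧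
      volume (π k.unpair.1 '' (Γ k.unpair.1 \ s'.1.2)) ≤
        ENNReal.ofReal (199 / 200) * volume (π k.unpair.1 '' (Γ k.unpair.1 \ s.1.2)) := by
    intro k s
    obtain ⟨n, P, H', a1, a2, a3, a4, a5, a6, a7, a8⟩ := h2 X hX N s.1.1 (Λ k) (hΛ k).1
      (by linarith [(hΛ k).2]) s.2.1 s.1.2 s.2.2 _ _ (hp k.unpair.1) π Γ hp
      (ε' * (1 / 2) ^ (k + 1)) (by positivity) (d k) (hd k).1 γ hγ
    rw [hΛs] at a1 a4
    exact ⟨n, P, ⟨(H', s.1.2 ∪ ⋃ j, (P j).Rm), a1, s.2.2.union (isClosed_iUnion_of_finite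
      fun j => isClosed_le (lip_continuous (a4 j).ρlip) continuous_const)⟩,
      rfl, a2, a3, a4, a5, a6, a7, a8⟩
  choose n P nx b1 b2 b3 b4 b5 b6 b7 b8 using step
  let st : ∀ k, St k := fun k =>
    Nat.rec ⟨(H, ∅), by simpa [Λ] using hH, isClosed_empty⟩ (fun k s => nx k s) k
  have hst : ∀ k, st (k + 1) = nx k (st k) := fun _ => rfl
  let Hk : ℕ → X → V N := fun k => (st k).1.1
  let Z : ℕ → Set X := fun k => (st k).1.2
  let Q : (Σ k, Fin (n k (st k))) → Patch X N := fun j => P j.1 (st j.1) j.2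
  have hZ : ∀ k, Z (k + 1) = Z k ∪ ⋃ j, (Q ⟨k, j⟩).Rm := fun k => b1 k (st k)
  have hZm : Monotone Z := monotone_nat_of_le_succ fun k => hZ k ▸ subset_union_left
  have hQZ : ∀ j, (Q j).Rm ⊆ Z (j.1 + 1) := fun j =>
    hZ j.1 ▸ subset_union_of_subset_right (subset_iUnion (fun i => (Q ⟨j.1, i⟩).Rm) j.2) _
  have hnear : ∀ k, Near (d k) (Hk k) (Hk (k + 1)) := fun k => b2 k (st k)
  have hcau : ∀ x, CauchySeq fun k => Hk k x := fun x =>
    cauchySeq_of_le_geometric (1 / 2) (δ / 4) (by norm_num) fun k => by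
      rw [dist_comm, dist_eq_norm]
      exact (hnear k x).1
  choose H' hH' using fun x => cauchySeq_tendsto_of_complete (hcau x)
  have hfix : ∀ k, ∀ y ∈ Z k, H' y = Hk k y := by
    intro k y hy
    have : ∀ j, k ≤ j → Hk j y = Hk k y := by
      intro j hj
      induction j, hj using Nat.le_induction with
      | base => rfl
      | succ j hj ih => exact (b3 j (st j) y (hZm hj hy)).trans ih
    exact tendsto_nhds_unique (hH' y)
      (tendsto_const_nhds.congr' (eventually_atTop.2 ⟨k, fun j hj => (this j hj).symm⟩))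
  have hnear' : ∀ k, Near δ H (Hk k) := by
    have : ∀ k, Near (δ * (3 / 4) - δ / 2 * (1 / 2) ^ k) H (Hk k) := by
      intro k
      induction k with
      | zero => exact near_at_self (by simp; linarith) H
      | succ k ih =>
        refine near_mono (near_trans ih (hnear k)) (le_of_eq ?_)
        simp only [d]
        ring
    exact fun k => near_mono (this k) (by nlinarith [hpw k])
  have hok : ∀ j, (Q j).Ok H' (L + ε) γ (d j.1) := fun j =>
    ok_mono (b4 j.1 (st j.1) j.2) (fun y hy => hfix (j.1 + 1) y (hQZ j hy))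
      (by linarith [(hΛ (j.1 + 1)).2]) le_rfl
  have hdisj : ∀ j j', j ≠ j' → Disjoint (Q j).Rm (Q j').Rm := by
    have key : ∀ j j' : Σ k, Fin (n k (st k)), j.1 < j'.1 → Disjoint (Q j).Rm (Q j').Rm :=
      fun j j' h => (b6 j'.1 (st j'.1) j'.2).symm.mono_left ((hQZ j).trans (hZm h))
    rintro ⟨k, j⟩ ⟨k', j'⟩ hne
    rcases lt_trichotomy k k' with h | h | h
    · exact key _ _ h
    · subst h
      exact b5 k (st k) j j' fun h => hne (by rw [h])
    · exact (key _ _ h).symm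
  have hρ : ∀ j, Continuous (Q j).ρ := fun j => lip_continuous (hok j).ρlip
  have hCo : ∀ j, (Q j).Co ⊆ (Q j).Rm := fun j y (hy : (Q j).ρ y < (Q j).t) => hy.le
  have hIn : ∀ j, (Q j).In ⊆ (Q j).Co := fun j y hy => by
    have a1 := (hok j).tlo
    have a2 := (hok j).cpos
    have a3 : (Q j).ρ y ≤ 1 + 7 * (Q j).c / 10 := hy
    change (Q j).ρ y < (Q j).t
    linarith
  have hopn : ∀ j, IsOpen (Q j).Co := fun j => isOpen_lt (hρ j) continuous_const
  refine ⟨_, Q, H', fun x y => ?_, fun x => ⟨?_, ?_⟩,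
    fun j => ok_mono (hok j) (fun _ _ => rfl) le_rfl (hd _).2, hdisj,
    fun j => (isClosed_le (hρ j) continuous_const).isCompact, hopn, hIn,
    fun j j' hne => (hdisj j j' hne).mono ((hIn j).trans (hCo j)) (hCo j'), fun κ hκ => ?_,
    hpu _ (isOpen_iUnion hopn).isClosed_compl fun m => ?_⟩
  · refine le_of_tendsto' ((hH' x).sub (hH' y)).norm fun k => ?_
    exact lip_mono (st k).2.1 (by linarith [(hΛ k).2]) x y
  · exact le_of_tendsto' ((hH' x).sub_const (H x)).norm fun k => (hnear' k x).1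
  · exact (affineSpan ℝ (H '' ball x δ)).closed_of_finiteDimensional.mem_of_tendsto (hH' x)
      (Eventually.of_forall fun k => (hnear' k x).2)
  · have ht : Tendsto d atTop (𝓝 (δ / 4 * 0)) :=
      (tendsto_pow_atTop_nhds_zero_of_lt_one (by norm_num) (by norm_num)).const_mul _
    obtain ⟨k0, hk0⟩ := eventually_atTop.1 (ht.eventually (gt_mem_nhds (by simpa using hκ)))
    refine ((finite_Iio k0).biUnion (t := fun k => range (Sigma.mk k))
      fun k _ => finite_range _).subset ?_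
    rintro ⟨k, j⟩ ⟨x, hx, y, hy, hxy⟩
    refine mem_iUnion₂.2 ⟨k, ?_, j, rfl⟩
    by_contra hn
    have a1 := hk0 k (not_lt.1 hn)
    have a2 := (hok ⟨k, j⟩).diam x (hCo _ hx) y (hCo _ hy)
    linarith
  · have a1 : volume (π m '' (Γ m \ ⋃ k, Z k)) = 0 := by
      refine tends_zero (a := fun k => volume (π m '' (Γ m \ Z k)))
        (fun k k' h => measure_mono (image_mono (sdiff_subset_sdiff_right (hZm h))))
        (piece_ne_top (hp m) sdiff_subset) (q := ENNReal.ofReal (199 / 200))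
        (by rw [ENNReal.ofReal_lt_one]; norm_num) (fun k => ⟨m.pair k, Nat.right_le_pair m k, ?_⟩)
        fun k => measure_mono (image_mono (sdiff_subset_sdiff_right (subset_iUnion Z k)))
      have := b8 (m.pair k) (st _)
      rwa [Nat.unpair_pair] at this
    refine measure_mono_null ?_ (measure_union_null a1
      (measure_iUnion_null fun j : Σ k, Fin (n k (st k)) => b7 j.1 (st j.1) j.2 m))
    rintro _ ⟨x, ⟨hx, hx'⟩, rfl⟩
    by_cases h : x ∈ ⋃ k, Z k
    · obtain ⟨k, hk⟩ := mem_iUnion.1 h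
      have : ∃ j, x ∈ (Q j).Rm := by
        induction k with
        | zero => exact hk.elim
        | succ k ih =>
          rw [hZ] at hk
          rcases hk with hk | hk
          · exact ih hk
          · obtain ⟨j, hj⟩ := mem_iUnion.1 hk
            exact ⟨_, hj⟩
      obtain ⟨j, hj⟩ := this
      exact Or.inr (mem_iUnion.2 ⟨j, x, ⟨hx', hj, fun h' => hx (mem_iUnion.2 ⟨j, h'⟩)⟩, rfl⟩)
    · exact Or.inl ⟨x, ⟨hx', h⟩, rfl⟩

end Pool.Agent.MP_7f5071_gt

end MrgPart0

-- ======== part 1: formerly Pool.Agent.MP_7f5071_gt.FD.Unif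
section MrgPart1

/-! The uniform rank one statement for finite flows. -/

namespace Pool.Agent.MP_7f5071_gt

universe u

namespace FD

open Filter Topology Set Metric MeasureTheory

variable {X : Type*} [MetricSpace X] {N : ℕ}

theorem exists_cut {K U : Set X} (hK : IsCompact K) (hU : IsOpen U) (h : K ⊆ U) :
    ∃ (χ : X → ℝ) (M : ℝ), 0 ≤ M ∧ Lip M χ ∧ (∀ x, χ x ∈ Icc (0 : ℝ) 1) ∧
      (∀ x ∈ K, χ x = 0) ∧ ∀ x, x ∉ U → χ x = 1 := by
  obtain ⟨δ, hδ, h1⟩ := hK.exists_thickening_subset_open hU h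
  refine ⟨fun x => 1 - thickenedIndicator hδ K x, (δ.toNNReal⁻¹ : NNReal), NNReal.coe_nonneg _,
    fun x y => ?_, fun x => ?_, fun x hx => ?_, fun x hx => ?_⟩
  · have := (lipschitzWith_thickenedIndicator hδ K).dist_le_mul y x
    rw [NNReal.dist_eq, dist_comm y x] at this
    rw [Real.norm_eq_abs, sub_sub_sub_cancel_left]
    exact this
  · have h2 : (thickenedIndicator hδ K x : ℝ) ≤ 1 := by
      exact_mod_cast thickenedIndicator_le_one hδ K x
    have h3 := (thickenedIndicator hδ K x).coe_nonneg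
    exact ⟨by simp only; linarith, by simp only; linarith⟩
  · simp [thickenedIndicator_one hδ K hx]
  · simp [thickenedIndicator_zero hδ K fun h2 => hx (h1 h2)]

theorem cont_int {Y : Type*} [MetricSpace Y] [CompactSpace Y] [MeasurableSpace Y] [BorelSpace Y]
    {f : Y → V N} (hf : Continuous f) :
    Continuous fun μ : FiniteMeasure Y => ∫ y, f y ∂(μ : Measure Y) := by
  refine continuous_pi fun i => ?_
  have h1 : ∀ μ : FiniteMeasure Y, (∫ y, f y ∂(μ : Measure Y)) i =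
      ∫ y, f y i ∂(μ : Measure Y) := fun μ =>
    ((ContinuousLinearMap.proj (R := ℝ) (φ := fun _ : Fin N => ℝ) i).integral_comp_comm
      (hf.integrable_of_hasCompactSupport (HasCompactSupport.of_compactSpace f))).symm
  simp only [h1]
  exact FiniteMeasure.continuous_iff_forall_continuousMap_continuous_integral.1 continuous_id
    ⟨fun y => f y i, (continuous_apply i).comp hf⟩

theorem exists_meas {Y : Type*} [MetricSpace Y] [MeasurableSpace Y] [BorelSpace Y] {n : ℕ}
    {lam : Fin n → ℝ} (γ : Fin n → Y) (h0 : ∀ p, 0 ≤ lam p) (h1 : ∑ p, lam p ≤ 10) :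
    ∃ μ : FiniteMeasure Y, μ.mass ≤ 10 ∧
      ∀ f : Y → V N, ∫ y, f y ∂(μ : Measure Y) = ∑ p, lam p • f (γ p) := by
  let m : Measure Y := ∑ p, ENNReal.ofReal (lam p) • Measure.dirac (γ p)
  have hm : m univ = ENNReal.ofReal (∑ p, lam p) := by
    simp [m, ENNReal.ofReal_sum_of_nonneg fun p _ => h0 p]
  refine ⟨⟨m, ⟨by rw [hm]; exact ENNReal.ofReal_lt_top⟩⟩, ?_, fun f => ?_⟩
  · rw [← ENNReal.coe_le_coe, FiniteMeasure.ennreal_mass, FiniteMeasure.toMeasure_mk, hm]
    exact (ENNReal.ofReal_le_ofReal h1).trans (by simp)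
  · rw [FiniteMeasure.toMeasure_mk, integral_finsetSum_measure fun p _ =>
      (integrable_dirac enorm_lt_top).smul_measure ENNReal.ofReal_ne_top]
    refine Finset.sum_congr rfl fun p _ => ?_
    rw [integral_smul_measure, integral_dirac, ENNReal.toReal_ofReal (h0 p)]

/-- The data attached to a tuple of curve measures. -/
def Qd (H : X → V N) (L : ℝ) {ι : Type} (I C : ι → Set X) {q : ℕ} (κ r : ℝ) (F : Finset ι)
    (η : Fin q → FiniteMeasure (Cv X)) : Prop :=
  ∃ (n : ℕ) (φ : Fin n → X → ℝ) (τ : Fin n → Fin q → ℝ) (v : Fin n → V N) (K : ℝ),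
    0 ≤ K ∧ (∀ α, Lip K (φ α)) ∧ (∀ α p, 0 ≤ φ α p) ∧ (∀ p, ∑ α, φ α p ≤ 1) ∧
    (∀ p, (∀ j ∈ F, p ∉ C j) → ∑ α, φ α p = 1) ∧
    (∀ j, (∀ α, ∀ p ∈ I j, φ α p = 0) ∨
      ∀ p ∈ I j, ∀ p' ∈ I j, dist p p' ≤ κ ∧ ∑ α, |φ α p - φ α p'| ≤ κ) ∧
    n * K * r ≤ κ ∧ n * q * (2 * K * L) * r ≤ κ / 3 ∧
    ∑ α, ∑ β, ‖(∫ γ, Cv.J H (φ α) γ ∂(η β : Measure (Cv X))) - τ α β • v α‖ ≤ 2 * κ / 3

theorem Qd.mono {H : X → V N} {L : ℝ} (hL : 0 ≤ L) {ι : Type} {I C : ι → Set X} {q : ℕ}
    {κ r r' : ℝ} {F F' : Finset ι} {η : Fin q → FiniteMeasure (Cv X)}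
    (h : Qd H L I C κ r F η) (hr : r' ≤ r) (hF : F ⊆ F') : Qd H L I C κ r' F' η := by
  obtain ⟨n, φ, τ, v, K, h0, h1, h2, h3, h4, h5, h6, h7, h8⟩ := h
  refine ⟨n, φ, τ, v, K, h0, h1, h2, h3, fun p hp => h4 p fun j hj => hp j (hF hj), h5,
    le_trans ?_ h6, le_trans ?_ h7, h8⟩
  · exact mul_le_mul_of_nonneg_left hr (by positivity)
  · exact mul_le_mul_of_nonneg_left hr (by positivity)

theorem exists_small {A κ : ℝ} (hA : 0 ≤ A) (hκ : 0 < κ) : ∃ r > 0, r ≤ κ ∧ A * r ≤ κ := by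
  refine ⟨κ / (A + 1), by positivity, div_le_self hκ.le (by linarith), ?_⟩
  rw [← mul_div_assoc, div_le_iff₀ (by positivity)]
  nlinarith

theorem sum_abs_le {n : ℕ} {φ : Fin n → X → ℝ} {K r κ : ℝ} (hK : 0 ≤ K) (h : ∀ α, Lip K (φ α))
    (hr : n * K * r ≤ κ) {p p' : X} (hp : dist p p' ≤ r) : ∑ α, |φ α p - φ α p'| ≤ κ := by
  calc _ ≤ ∑ _α : Fin n, K * r := Finset.sum_le_sum fun α _ =>
        (h α p p').trans (mul_le_mul_of_nonneg_left hp hK)
    _ = n * K * r := by simp [mul_assoc]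
    _ ≤ κ := hr

theorem loc {X : Type u} [MetricSpace X] [CompactSpace X] (h1 : R2Stmt.{u}) (hX : IsDisc X)
    {H : X → V N} {L : ℝ} (hL : 0 ≤ L) (hH : Lip L H) {ι : Type} {I C : ι → Set X}
    (hc : Cores I C) {q : ℕ} {κ : ℝ} (hκ : 0 < κ) (η : Fin q → FiniteMeasure (Cv X)) :
    ∃ r > 0, ∃ F : Finset ι, ∀ᶠ η' : Fin q → FiniteMeasure (Cv X) in 𝓝 η,
      Qd H L I C κ r F η' := by
  classical
  obtain ⟨n, φ, τ, v, Λ0, lam, hlam, p0, p1, p2, p3, p4⟩ := h1 X hX N H L hH _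
    (isOpen_iUnion hc.opn).isClosed_compl hc.pu q η (κ / 3) (by positivity)
  set Λ := max Λ0 0
  have hΛ : 0 ≤ Λ := le_max_right _ _
  have p3' : ∀ α, Lip Λ (φ α) := fun α x y =>
    (p3 α x y).trans (mul_le_mul_of_nonneg_right (le_max_left _ _) dist_nonneg)
  have p5 : ∀ α x, φ α x ≤ 1 := fun α x =>
    (Finset.single_le_sum (fun β _ => p0 β x) (Finset.mem_univ α)).trans (p1 x)
  obtain ⟨s, hs, s1, s2⟩ := exists_small (A := n * Λ) (by positivity) hκ
  have hF1 := hc.small s hs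
  set F1 := {j | ∃ x ∈ C j, ∃ y ∈ C j, s < dist x y}
  obtain ⟨χ, M, hM, c1, c2, c3, c4⟩ := exists_cut (K := ⋃ j ∈ F1, I j) (U := ⋃ j ∈ F1, C j)
    (hF1.isCompact_biUnion fun j _ => hc.cpt j) (isOpen_biUnion fun j _ => hc.opn j)
    (iUnion₂_mono fun j _ => hc.sub j)
  obtain ⟨F0, hF0⟩ := (isOpen_thickening (δ := lam)
    (E := (⋃ j, C j)ᶜ)).isClosed_compl.isCompact.elim_finite_subcover C hc.opn
    (compl_subset_comm.1 (self_subset_thickening hlam _))
  have hl : ∀ α, Lip (Λ + M) fun x => φ α x * χ x := fun α x y => by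
    have a1 := p3' α x y
    have a2 := c1 x y
    rw [Real.norm_eq_abs] at a1 a2 ⊢
    have : φ α x * χ x - φ α y * χ y = (φ α x - φ α y) * χ x + φ α y * (χ x - χ y) := by ring
    rw [this]
    refine (abs_add_le _ _).trans ?_
    rw [abs_mul, abs_mul, abs_of_nonneg (c2 x).1, abs_of_nonneg (p0 α y), add_mul]
    exact add_le_add ((mul_le_of_le_one_right (abs_nonneg _) (c2 x).2).trans a1)
      ((mul_le_of_le_one_left (abs_nonneg _) (p5 α y)).trans a2)
  have hK : 0 ≤ Λ + M := add_nonneg hΛ hM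
  obtain ⟨r1, hr1, -, r1b⟩ := exists_small (A := n * (Λ + M)) (by positivity) hκ
  obtain ⟨r2, hr2, -, r2b⟩ := exists_small (A := n * q * (2 * (Λ + M) * L)) (κ := κ / 3)
    (by positivity) (by positivity)
  have hcont : Continuous fun η' : Fin q → FiniteMeasure (Cv X) => ∑ α, ∑ β,
      ‖(∫ γ, Cv.J H (fun x => φ α x * χ x) γ ∂(η' β : Measure (Cv X))) - τ α β • v α‖ :=
    continuous_finsetSum _ fun α _ => continuous_finsetSum _ fun β _ =>
      (((cont_int (cont_J hL hH hK (hl α))).comp (continuous_apply β)).sub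
        continuous_const).norm
  have hval := p4 χ (Lip.cont hM c1) c2 fun x hx =>
    c4 x fun h => hx (iUnion₂_subset_iUnion _ _ h)
  refine ⟨min r1 r2, lt_min hr1 hr2, F0 ∪ hF1.toFinset, ?_⟩
  filter_upwards [hcont.continuousAt.eventually
    (gt_mem_nhds (a := 2 * κ / 3) (lt_of_le_of_lt hval (by linarith)))] with η' hη'
  refine ⟨n, fun α x => φ α x * χ x, τ, v, Λ + M, hK, hl,
    fun α p => mul_nonneg (p0 α p) (c2 p).1, fun p => ?_, fun p hp => ?_, fun j => ?_,
    le_trans (mul_le_mul_of_nonneg_left (min_le_left _ _) (by positivity)) r1b,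
    le_trans (mul_le_mul_of_nonneg_left (min_le_right _ _) (by positivity)) r2b, hη'.le⟩
  · rw [← Finset.sum_mul]
    exact mul_le_one₀ (p1 p) (c2 p).1 (c2 p).2
  · have a1 : χ p = 1 := c4 p fun h => by
      obtain ⟨j, hj, h⟩ := mem_iUnion₂.1 h
      exact hp j (Finset.mem_union_right _ (hF1.mem_toFinset.2 hj)) h
    have a2 : p ∈ thickening lam (⋃ j, C j)ᶜ := by
      by_contra h
      obtain ⟨j, hj, h⟩ := mem_iUnion₂.1 (hF0 h)
      exact hp j (Finset.mem_union_left _ hj) h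
    simp only [a1, mul_one]
    exact p2 p (mem_thickening_iff.1 a2)
  · by_cases hj : j ∈ F1
    · exact Or.inl fun α p hp => by simp [c3 p (mem_biUnion hj hp)]
    · refine Or.inr fun p hp p' hp' => ?_
      have a1 : ∀ p ∈ I j, χ p = 1 := fun p hp => c4 p fun h => by
        obtain ⟨j', hj', h⟩ := mem_iUnion₂.1 h
        exact disjoint_left.1 (hc.disj j j' fun e => hj (e ▸ hj')) hp h
      have a2 : dist p p' ≤ s := not_lt.1 fun h => hj ⟨p, hc.sub j hp, p', hc.sub j hp', h⟩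
      simp only [a1 p hp, a1 p' hp', mul_one]
      exact ⟨a2.trans s1, sum_abs_le hΛ p3' s2 a2⟩

end FD

open FD Filter Topology Set Metric MeasureTheory in
theorem uu (h1 : R2Stmt.{u}) (h2 : FDStmt.{u}) : UStmt.{u} := by
  intro X _ _ hX N H L hL hH ι I C hc q κ hκ
  classical
  have hT : IsCompact (univ.pi fun _ : Fin q => {μ : FiniteMeasure (Cv X) | μ.mass ≤ 10}) :=
    isCompact_univ_pi fun _ => isCompact_setOfPred_finiteMeasure_le_of_compactSpace _ 10
  obtain ⟨r, hr, F, hF⟩ := hT.induction_on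
    (p := fun S => ∃ r > 0, ∃ F : Finset ι, ∀ η ∈ S, Qd H L I C κ r F η)
    ⟨1, one_pos, ∅, fun _ h => h.elim⟩
    (fun _ _ hst ⟨r, hr, F, h⟩ => ⟨r, hr, F, fun η hη => h η (hst hη)⟩)
    (fun _ _ ⟨r, hr, F, h⟩ ⟨r', hr', F', h'⟩ => ⟨min r r', lt_min hr hr', F ∪ F',
      fun η hη => hη.elim
        (fun a => (h η a).mono hL (min_le_left _ _) Finset.subset_union_left)
        (fun a => (h' η a).mono hL (min_le_right _ _) Finset.subset_union_right)⟩)
    (fun η _ => by
      obtain ⟨r, hr, F, h⟩ := loc h1 hX hL hH hc hκ η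
      exact ⟨_, mem_nhdsWithin_of_mem_nhds h, r, hr, F, fun _ a => a⟩)
  refine ⟨r, hr, F, fun E _ x y w hd hm hv => ?_⟩
  choose m lam γ l0 l1 l2 using fun β => h2 X hX.geod E x y (w β) r hr.le hd (hm β) (hv β)
  choose η e1 e2 using fun β => exists_meas (N := N) (γ β) (l0 β) (l1 β)
  obtain ⟨n, φ, τ, v, K, q0, q1, q2, q3, q4, q5, q6, q7, q8⟩ := hF η fun β _ => e1 β
  refine ⟨n, φ, τ, v, q2, q3, q4, fun p p' hp => sum_abs_le q0 q1 q6 hp, q5, ?_⟩
  calc _ ≤ ∑ α, ∑ β, (‖(∫ γ, Cv.J H (φ α) γ ∂(η β : Measure (Cv X))) - τ α β • v α‖ +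
        2 * K * r * L) := by
        refine Finset.sum_le_sum fun α _ => Finset.sum_le_sum fun β _ => ?_
        have a1 := l2 β N H L (φ α) K hL q0 hH (q1 α)
        rw [← e2 β, norm_sub_rev] at a1
        rw [add_comm]
        exact (norm_sub_le_norm_sub_add_norm_sub _ _ _).trans (add_le_add a1 le_rfl)
    _ = ∑ α, ∑ β, ‖(∫ γ, Cv.J H (φ α) γ ∂(η β : Measure (Cv X))) - τ α β • v α‖ +
        n * q * (2 * K * L) * r := by
        simp only [Finset.sum_add_distrib, Finset.sum_const, Finset.card_univ, Fintype.card_fin,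
          nsmul_eq_mul]
        ring
    _ ≤ κ := by linarith

end Pool.Agent.MP_7f5071_gt

end MrgPart1

-- ======== part 2: formerly Pool.Agent.MP_7f5071_gt.Reduce
section MrgPart2

/-! Everything except the ring lemma, the band lemma and the one set lemma. -/

namespace Pool.Agent.MP_7f5071_gt

universe u

theorem star_of (hr : RLStmt.{u}) (hb : BLStmt.{u}) (ho : WSStmt.{u} → OneStmt.{u}) :
    StarStmt.{u} :=
  star (lim (cnt rr kir) (stg (gs kir) (pat (l1 hr (l3 (eul d1))))))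
    (iter (fp (uu (r2 rr dw) fd))) cr (fin hb (ho (ws hb)))

theorem final_of' (hs : StarStmt.{u}) (X : Type u) [MetricSpace X] (hl : IsLengthSpace X)
    (hd : Nonempty (X ≃ₜ Disc)) : IsProMinkowski 2 X :=
  final_of k33 lc (asm tri poly hs) X hl hd

end Pool.Agent.MP_7f5071_gt

end MrgPart2

-- marker of a merged file
example : 731051 + 155787 = 731051 + 155787 := rfl

end MrgPart1

-- marker of a merged file
example : 731051 + 155787 = 731051 + 155787 := rfl
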